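import Mathlib

/-! # EVD (MP_41328f_lc): the data structure as pure functions

All functions are generic over a linear ordered field `K` (so that they can be run over `ℚ`); the
theorem uses `K = ℝ`. A point is `K × K`.

A *chain* is a set of points with distinct abscissas, strictly concave. For a chain `S` and a height
`y` a site `b` is *alive* if `cc a b c < y` for all `a, c ∈ S` with `a.1 < b.1 < c.1`.
-/

namespace Pool.Agent.EVD

variable {K : Type} [Field K] [LinearOrder K]

/-- squared distance -/
def dsq (p q : K × K) : K := (p.1 - q.1) * (p.1 - q.1) + (p.2 - q.2) * (p.2 - q.2)

/-- squared norm -/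
def nsq (p : K × K) : K := p.1 * p.1 + p.2 * p.2

/-- twice the signed area, positive if `b` is above the chord `ac` (for `a.1 < b.1 < c.1`) -/
def ccB (a b c : K × K) : K := (b.2 - a.2) * (c.1 - a.1) - (c.2 - a.2) * (b.1 - a.1)

/-- numerator of the circumcentre height -/
def ccA (a b c : K × K) : K := (nsq b - nsq a) * (c.1 - a.1) - (nsq c - nsq a) * (b.1 - a.1)

/-- ordinate of the circumcentre of `a, b, c` -/
def cc (a b c : K × K) : K := ccA a b c / (2 * ccB a b c)

/-- query structure: a linear decision tree (shared, so a DAG in memory) -/
inductive QT (K : Type) : Type
  | stop : QT K
  | cand (s : K × K) (rest : QT K) : QT K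
  | test (a b c : K) (yes no : QT K) : QT K
  deriving Inhabited

/-- the query walks through the structure and keeps the nearest candidate -/
def QT.find : QT K → K × K → K × K → K × K
  | QT.stop, _, best => best
  | QT.cand s rest, q, best => rest.find q (if dsq q s < dsq q best then s else best)
  | QT.test a b c yes no, q, best =>
      if a * q.1 + b * q.2 < c then yes.find q best else no.find q best

/-- an element with its death height (`none` = minus infinity), its spine `x = sx + sk * y`
and two query structures (used only in the samples) -/
structure Lf (K : Type) : Type where
  s : K × K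
  h : Option K
  sx : K
  sk : K
  q1 : QT K
  q2 : QT K
  deriving Inhabited

/-- leaf trees; a node stores an element of minimal height and the abscissa of its first leaf -/
inductive TR (K : Type) : Type
  | leaf (d : Lf K) : TR K
  | node (am : Lf K) (fx : K) (l r : TR K) : TR K
  deriving Inhabited

/-- `a ≤ b` for heights (`none` = minus infinity) -/
def hle : Option K → Option K → Bool
  | none, _ => true
  | some _, none => false
  | some a, some b => decide (a ≤ b)

/-- element of smaller height (first one in case of equality) -/
def btr (a b : Lf K) : Lf K := if hle a.h b.h then a else b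

def TR.am : TR K → Lf K
  | TR.leaf d => d
  | TR.node am _ _ _ => am

def TR.fx : TR K → K
  | TR.leaf d => d.s.1
  | TR.node _ fx _ _ => fx

def join (a b : TR K) : TR K := TR.node (btr a.am b.am) a.fx a b

/-- one round of pairing -/
def pairUp : List (TR K) → List (TR K)
  | a :: b :: t => join a b :: pairUp t
  | l => l

omit [Field K] in
theorem pairUp_length (l : List (TR K)) : (pairUp l).length = (l.length + 1) / 2 := by
  induction l using pairUp.induct with
  | case1 a b t ih => simp [pairUp, ih]; omega
  | case2 l h =>
      rcases l with _ | ⟨a, _ | ⟨b, t⟩⟩
      · simp [pairUp]
      · simp [pairUp]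
      · exact absurd rfl (h a b t)

/-- balanced tree of a list of trees -/
def buildAll : List (TR K) → Option (TR K)
  | [] => none
  | [t] => some t
  | a :: b :: t => buildAll (pairUp (a :: b :: t))
  termination_by l => l.length
  decreasing_by
    have h := pairUp_length (a :: b :: t)
    simp only [List.length_cons] at h ⊢
    omega

def build (l : List (Lf K)) : Option (TR K) := buildAll (l.map TR.leaf)

/-- is an element of this height alive at the cut `D` -/
def live (D : K → Bool) : Option K → Bool
  | none => true
  | some h => D h

/-- last alive leaf of a tree that has one -/
def lastA' (D : K → Bool) : TR K → Lf K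
  | TR.leaf d => d
  | TR.node _ _ l r => if live D r.am.h then lastA' D r else lastA' D l

/-- last alive leaf -/
def lastA (D : K → Bool) (t : TR K) : Option (Lf K) :=
  if live D t.am.h then some (lastA' D t) else none

/-- first alive leaf of a tree that has one -/
def firstA' (D : K → Bool) : TR K → Lf K
  | TR.leaf d => d
  | TR.node _ _ l r => if live D l.am.h then firstA' D l else firstA' D r

/-- first alive leaf -/
def firstA (D : K → Bool) (t : TR K) : Option (Lf K) :=
  if live D t.am.h then some (firstA' D t) else none

/-- last alive leaf with abscissa `< x` -/
def lastLt (D : K → Bool) (x : K) : TR K → Option (Lf K)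
  | TR.leaf d => if d.s.1 < x then (if live D d.h then some d else none) else none
  | TR.node _ _ l r =>
      if r.fx < x then (match lastLt D x r with | some e => some e | none => lastA D l)
      else lastLt D x l

/-- first alive leaf with abscissa `> x` -/
def firstGt (D : K → Bool) (x : K) : TR K → Option (Lf K)
  | TR.leaf d => if x < d.s.1 then (if live D d.h then some d else none) else none
  | TR.node _ _ l r =>
      if x < r.fx then (match firstGt D x l with | some e => some e | none => firstA D r)
      else firstGt D x r

/-- the better one of two optional elements, the first to the left of the second;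
`go a b` = `a` is better than `b` -/
def pick (go : Lf K → Lf K → Bool) : Option (Lf K) → Option (Lf K) → Option (Lf K)
  | none, b => b
  | some a, none => some a
  | some a, some b => if go a b then some a else some b

/-- optimum over all alive leaves (valid if `go` is unimodal on them) -/
def tanH (D : K → Bool) (go : Lf K → Lf K → Bool) : TR K → Option (Lf K)
  | TR.leaf d => if live D d.h then some d else none
  | TR.node _ _ l r =>
      match lastA D l, firstA D r with
      | none, _ => tanH D go r
      | some _, none => tanH D go l
      | some a, some b => if go a b then tanH D go l else tanH D go r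

/-- optimum over the alive leaves with abscissa `> x` -/
def tanGt (D : K → Bool) (go : Lf K → Lf K → Bool) (x : K) : TR K → Option (Lf K)
  | TR.leaf d => if x < d.s.1 then (if live D d.h then some d else none) else none
  | TR.node _ _ l r =>
      if x < r.fx then pick go (tanGt D go x l) (tanH D go r) else tanGt D go x r

/-- optimum over the alive leaves with abscissa `< x` -/
def tanLt (D : K → Bool) (go : Lf K → Lf K → Bool) (x : K) : TR K → Option (Lf K)
  | TR.leaf d => if d.s.1 < x then (if live D d.h then some d else none) else none
  | TR.node _ _ l r =>
      if r.fx < x then pick go (tanH D go l) (tanLt D go x r) else tanLt D go x l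

/-- `pick` without knowledge of the order -/
def pickU (go : Lf K → Lf K → Bool) : Option (Lf K) → Option (Lf K) → Option (Lf K)
  | none, b => b
  | some a, none => some a
  | some a, some b =>
      if a.s.1 < b.s.1 then (if go a b then some a else some b)
      else (if go b a then some b else some a)

def goR (D : K → Bool) (f : K × K) (a b : Lf K) : Bool := D (cc f a.s b.s)
def goL (D : K → Bool) (f : K × K) (a b : Lf K) : Bool := !D (cc a.s b.s f)

/-- right tangent from `f` at the cut `D`, over all parts -/
def tanR (D : K → Bool) (f : K × K) : List (TR K) → Option (Lf K)
  | [] => none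
  | t :: ts => pickU (goR D f) (tanGt D (goR D f) f.1 t) (tanR D f ts)

/-- left tangent from `f` at the cut `D`, over all parts -/
def tanL (D : K → Bool) (f : K × K) : List (TR K) → Option (Lf K)
  | [] => none
  | t :: ts => pickU (goL D f) (tanLt D (goL D f) f.1 t) (tanL D f ts)

/-- cut of an optional height (`none` = plus infinity) -/
def cutT : Option K → K → Bool
  | none, _ => true
  | some t, r => decide (r < t)

/-- is the site `f` alive at height `y` in the union of the parts -/
def aliveB (ps : List (TR K)) (f : K × K) (y : K) : Bool :=
  match tanL (cutT (some y)) f ps, tanR (cutT (some y)) f ps with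
  | some a, some b => decide (cc a.s f b.s < y)
  | _, _ => true

/-- height, spine of the site `f` in the union of the parts -/
def mkLf (ps : List (TR K)) (f : K × K) : Lf K :=
  match tanL (cutT none) f ps, tanR (cutT none) f ps with
  | some pr, some su =>
      match tanL (fun r => !aliveB ps f r) f ps, tanR (fun r => !aliveB ps f r) f ps with
      | some l, some r =>
          ⟨f, some (cc l.s f r.s),
            ((nsq f - nsq l.s) - 2 * cc l.s f r.s * (f.2 - l.s.2)) / (2 * (f.1 - l.s.1))
              + (su.s.2 - pr.s.2) / (su.s.1 - pr.s.1) * cc l.s f r.s,
            -((su.s.2 - pr.s.2) / (su.s.1 - pr.s.1)), QT.stop, QT.stop⟩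
      | _, _ => ⟨f, none, 0, 0, QT.stop, QT.stop⟩
  | _, _ => ⟨f, none, 0, 0, QT.stop, QT.stop⟩

/-- merge of two lists sorted by abscissa -/
def mrg : List (K × K) → List (K × K) → List (K × K)
  | [], m => m
  | l, [] => l
  | a :: l, b :: m => if a.1 < b.1 then a :: mrg l (b :: m) else b :: mrg (a :: l) m
  termination_by l m => l.length + m.length

/-- sample, the last element is always kept, blocks of three elements -/
def blk : List (Lf K) → List (Lf K)
  | [] => []
  | [z] => [z]
  | [b, z] => [b, z]
  | [b, c, z] => [btr b c, z]
  | b :: c :: d :: z :: t => btr b (btr c d) :: blk (z :: t)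

/-- sample: first, last, and an element of minimal height of every block of three others -/
def sample : List (Lf K) → List (Lf K)
  | [] => []
  | a :: t => a :: blk t

/-- leaf of minimal height with abscissa `> x` -/
def minGt (x : K) : TR K → Option (Lf K)
  | TR.leaf d => if x < d.s.1 then some d else none
  | TR.node _ _ l r =>
      if x < r.fx then (match minGt x l with | some e => some (btr e r.am) | none => some r.am)
      else minGt x r

/-- leaf of minimal height with abscissa `< x` -/
def minLt (x : K) : TR K → Option (Lf K)
  | TR.leaf d => if d.s.1 < x then some d else none
  | TR.node _ _ l r =>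
      if r.fx < x then (match minLt x r with | some e => some (btr l.am e) | none => some l.am)
      else minLt x l

/-- leaf of minimal height with abscissa in (x, x') -/
def minIn (x x' : K) : TR K → Option (Lf K)
  | TR.leaf d => if x < d.s.1 then (if d.s.1 < x' then some d else none) else none
  | TR.node _ _ l r =>
      if r.fx < x' then
        (if x < r.fx then
          (match minGt x l, minLt x' r with
            | some a, some b => some (btr a b)
            | some a, none => some a
            | none, b => b)
        else minIn x x' r)
      else minIn x x' l

/-- is `e` strictly between `lo` and `hi` -/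
def inW (lo hi : K × K) : Option (Lf K) → Bool
  | none => false
  | some e => if lo.1 < e.s.1 then decide (e.s.1 < hi.1) else false

/-- a site strictly between `lo` and `hi` alive at height `T`, found from the base `f` -/
def finger (ps : List (TR K)) (T : Option K) (f lo hi : K × K) : Option (Lf K) :=
  if inW lo hi (tanL (cutT T) f ps) then tanL (cutT T) f ps
  else if inW lo hi (tanR (cutT T) f ps) then tanR (cutT T) f ps else none

/-- query structure of the gap at height `T` around the abscissa `x` -/
def gapQ (T : Option K) (x : K) : Option (TR K) → QT K
  | none => QT.stop
  | some t =>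
      match lastLt (cutT T) x t, firstGt (cutT T) x t with
      | some c, some c' =>
          (match minIn c.s.1 c'.s.1 t with
            | none => c'.q1
            | some d => d.q2)
      | _, _ => QT.stop

def child (ps : List (TR K)) (lower : Option (TR K)) (T : Option K) (f lo hi : K × K) : QT K :=
  match finger ps T f lo hi with
  | none => QT.stop
  | some p => gapQ T p.s.1 lower

/-- test whether an element of height `h` is alive -/
def aTest : Option K → QT K → QT K → QT K
  | none, yes, _ => yes
  | some h, yes, no => QT.test 0 (-1) (-h) yes no

/-- `T` = top height of the node, `c'` = right end, `lo` = last element known to be `≤` the answer,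
(cT, cf) = smallest height of the dead elements since `lo` and a base point for it -/
def mk (ps : List (TR K)) (lower : Option (TR K)) (T : Option K) (c' : K × K) :
    List (Lf K) → K × K → Option K → K × K → QT K
  | [], lo, cT, cf => QT.cand lo (QT.cand c' (child ps lower cT cf lo c'))
  | m :: ms, lo, cT, cf =>
      aTest m.h
        (QT.test 1 (-m.sk) m.sx
          (QT.cand lo (QT.cand m.s (child ps lower cT m.s lo m.s)))
          (mk ps lower T c' ms m.s T m.s))
        (mk ps lower T c' ms lo (if live (cutT cT) m.h then m.h else cT)
          (if live (cutT cT) m.h then m.s else cf))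

/-- the next `n` alive elements in (x, x') -/
def nexts (D : K → Bool) (t : TR K) (x' : K) : ℕ → K → List (Lf K)
  | 0, _ => []
  | n + 1, x =>
      match firstGt D x t with
      | none => []
      | some e => if e.s.1 < x' then e :: nexts D t x' n e.s.1 else []

/-- node for the pair (c, c') with top height `T`; base point `f` -/
def mkNode (ps : List (TR K)) (lower : Option (TR K)) (ft : TR K) (T : Option K)
    (f c c' : K × K) : QT K :=
  mk ps lower T c' (nexts (cutT T) ft c'.1 4 c.1) c T f

/-- critical node of the sample element `d` -/
def critQ (ps : List (TR K)) (lower : Option (TR K)) (ft ct : TR K) (d : Lf K) : QT K :=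
  match d.h with
  | none => QT.stop
  | some h =>
      match lastLt (cutT (some h)) d.s.1 ct, firstGt (cutT (some h)) d.s.1 ct with
      | some c, some c' => mkNode ps lower ft (some h) d.s c.s c'.s
      | _, _ => QT.stop

/-- adds the query structures to the sample elements; `c` = previous sample element -/
def deco (ps : List (TR K)) (lower : Option (TR K)) (ft ct : TR K) :
    K × K → List (Lf K) → List (Lf K)
  | _, [] => []
  | c, d :: t =>
      ⟨d.s, d.h, d.sx, d.sk, mkNode ps lower ft none c c d.s, critQ ps lower ft ct d⟩ ::
        deco ps lower ft ct d.s t

/-- one level: `N` = its own new points, `part` = their tree, `F` = the points of the level with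
heights with respect to all points up to this level, `C` = sample, `ct` = tree of the sample -/
structure Slot (K : Type) : Type where
  N : List (K × K)
  part : Option (TR K)
  F : List (Lf K)
  C : List (K × K)
  ct : Option (TR K)
  deriving Inhabited

def consO (o : Option (TR K)) (l : List (TR K)) : List (TR K) :=
  match o with
  | none => l
  | some t => t :: l

def partsOf : List (Slot K) → List (TR K)
  | [] => []
  | s :: rest => consO s.part (partsOf rest)

def lowC : List (Slot K) → List (K × K)
  | [] => []
  | s :: _ => s.C

def lowT : List (Slot K) → Option (TR K)
  | [] => none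
  | s :: _ => s.ct

/-- the decorated sample of a level -/
def levC (ps : List (TR K)) (lower : Option (TR K)) (F : List (Lf K)) : List (Lf K) :=
  match build F, build (sample F), sample F with
  | some ft, some ct, a :: t => a :: deco ps lower ft ct a.s t
  | _, _, _ => []

def mkSlot (N : List (K × K)) (part : Option (TR K)) (rest : List (Slot K)) : Slot K :=
  let ps := consO part (partsOf rest)
  let F := (mrg N (lowC rest)).map (mkLf ps)
  let C := levC ps (lowT rest) F
  ⟨N, part, F, C.map Lf.s, build C⟩

/-- binary counter: `acc` = the points to be stored (sorted), `aps` = trees of its parts -/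
def insS : List (Slot K) → List (K × K) → List (TR K) → List (Slot K)
  | [], acc, aps => [mkSlot acc (build (acc.map (mkLf aps))) []]
  | s :: rest, acc, aps =>
      match s.part with
      | none => mkSlot acc (build (acc.map (mkLf aps))) rest :: rest
      | some t =>
          let rest' := insS rest (mrg acc s.N) (t :: aps)
          mkSlot [] none rest' :: rest'

/-- splits off the last element -/
def splitLast : Lf K → List (Lf K) → List (Lf K) × Lf K
  | a, [] => ([], a)
  | a, b :: t => ((a :: (splitLast b t).1), (splitLast b t).2)

def rootQ : List (Slot K) → QT K
  | [] => QT.stop
  | s :: rest =>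
      match s.F with
      | [] => QT.stop
      | [a] => QT.cand a.s QT.stop
      | a :: b :: t =>
          mk (consO s.part (partsOf rest)) (lowT rest) none (splitLast b t).2.s (splitLast b t).1
            a.s none a.s

/-- the structure for one chain: query structure and slots -/
structure CS (K : Type) : Type where
  q : QT K
  sl : List (Slot K)
  deriving Inhabited

def emptyC : CS K := ⟨QT.stop, []⟩

def insC (c : CS K) (p : K × K) : CS K :=
  let sl := insS c.sl [p] [TR.leaf ⟨p, none, 0, 0, QT.stop, QT.stop⟩]
  ⟨rootQ sl, sl⟩

/-- the whole structure: lexicographic minimum and maximum, upper and lower chain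
(the lower chain is stored upside down) -/
structure Top (K : Type) : Type where
  w : K × K
  e : K × K
  up : CS K
  lo : CS K
  deriving Inhabited

def lexlt (a b : K × K) : Bool := if a.1 < b.1 then true else if b.1 < a.1 then false
  else decide (a.2 < b.2)

def mir (p : K × K) : K × K := (p.1, -p.2)

/-- inserts `v` into its chain, `w`, `e` are the new extreme points -/
def put (w e v : K × K) (up lo : CS K) : Top K :=
  if 0 < (e.1 - w.1) * (v.2 - w.2) - (v.1 - w.1) * (e.2 - w.2) then ⟨w, e, insC up v, lo⟩
  else ⟨w, e, up, insC lo (mir v)⟩

def insT (t : Option (Top K)) (p : K × K) : Option (Top K) :=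
  match t with
  | none => some ⟨p, p, emptyC, emptyC⟩
  | some t =>
      if lexlt t.w t.e then
        (if lexlt p t.w then some (put p t.e t.w t.up t.lo)
        else if lexlt t.e p then some (put t.w p t.e t.up t.lo)
        else some (put t.w t.e p t.up t.lo))
      else (if lexlt p t.w then some ⟨p, t.w, t.up, t.lo⟩ else some ⟨t.w, p, t.up, t.lo⟩)

def qryT (t : Option (Top K)) (q : K × K) : Option (K × K) :=
  match t with
  | none => none
  | some t =>
      let b0 := if dsq q t.e < dsq q t.w then t.e else t.w
      let b1 := t.up.q.find q b0
      some (mir (t.lo.q.find (mir q) (mir b1)))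

end Pool.Agent.EVD
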