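import Pool.Agent.EVD.TG

/-! # EVD: alive test by two tangents (T_AB) -/

namespace Pool.Agent.EVD

namespace AB_

theorem cut_some (y : ℝ) : Cut (cutT (some y)) := by
  intro r r' h hr
  simp only [cutT, decide_eq_true_eq] at hr ⊢
  linarith

theorem cut_true (y r : ℝ) : cutT (some y) r = true ↔ r < y := by
  simp only [cutT, decide_eq_true_eq]

theorem cut_false (y r : ℝ) : cutT (some y) r = false ↔ ¬ r < y := by
  simp only [cutT, decide_eq_false_iff_not]

/-- transitivity of four slopes, in the form needed -/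
theorem chain (a1 g1 f1 g2 b1 A G F G' B : ℝ) (ha : a1 < f1) (hg : g1 < f1) (hg' : f1 < g2)
    (hb : f1 < b1) (h1 : (G' - G) * (f1 - g1) ≤ (F - G) * (g2 - g1))
    (h2 : (F - G) * (f1 - a1) ≤ (F - A) * (f1 - g1))
    (h3 : (B - F) * (g2 - f1) ≤ (G' - F) * (b1 - f1)) :
    ¬ (F - A) * (b1 - a1) < (B - A) * (f1 - a1) := by
  have pa : 0 < f1 - a1 := by linarith
  have pg : 0 < f1 - g1 := by linarith
  have pg' : 0 < g2 - f1 := by linarith
  have pb : 0 < b1 - f1 := by linarith
  have e1 : (G' - F) * (f1 - g1) ≤ (F - G) * (g2 - f1) := by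
    have e : (G' - G) * (f1 - g1) = (G' - F) * (f1 - g1) + (F - G) * (f1 - g1) := by ring
    have e' : (F - G) * (g2 - g1) = (F - G) * (g2 - f1) + (F - G) * (f1 - g1) := by ring
    rw [e, e'] at h1
    linarith
  have s1 : (G' - F) / (g2 - f1) ≤ (F - G) / (f1 - g1) := by
    rw [div_le_div_iff₀ pg' pg]
    exact e1
  have s2 : (F - G) / (f1 - g1) ≤ (F - A) / (f1 - a1) := by
    rw [div_le_div_iff₀ pg pa]
    exact h2
  have s3 : (B - F) / (b1 - f1) ≤ (G' - F) / (g2 - f1) := by
    rw [div_le_div_iff₀ pb pg']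
    exact h3
  have s4 : (B - F) / (b1 - f1) ≤ (F - A) / (f1 - a1) := s3.trans (s1.trans s2)
  rw [div_le_div_iff₀ pb pa] at s4
  have e2 : (F - A) * (b1 - a1) = (F - A) * (b1 - f1) + (F - A) * (f1 - a1) := by ring
  have e3 : (B - A) * (f1 - a1) = (B - F) * (f1 - a1) + (F - A) * (f1 - a1) := by ring
  rw [e2, e3]
  linarith

end AB_

theorem p_AB (h1 : T_HF) (h2 : T_DET) : T_AB := by
  intro S A y f a b hfin hC hf hA hAS hL hR
  obtain ⟨haA, haf, hLb⟩ := hL
  obtain ⟨hbA, hfb, hRb⟩ := hR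
  have haS : a ∈ S := hAS haA
  have hbS : b ∈ S := hAS hbA
  constructor
  · intro hlt
    by_contra hAl
    obtain ⟨g, g', hg, hg', hgf, hfg', hD, -⟩ :=
      h1 S (cutT (some y)) f hfin hC (AB_.cut_some y) hf hAl
    have hgA := hA g hg
    have hgA' := hA g' hg'
    have hgS := hAS hgA
    have hgS' := hAS hgA'
    have k1 : ¬ Blw y g f g' := by
      rw [← (h2 g f g' y (hC.2 g hgS f hf g' hgS' hgf hfg')).1]
      exact (AB_.cut_false y _).1 hD
    have k1' : (zl y g' - zl y g) * (f.1 - g.1) ≤ (zl y f - zl y g) * (g'.1 - g.1) :=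
      not_lt.1 k1
    have k2 : (zl y f - zl y g) * (f.1 - a.1) ≤ (zl y f - zl y a) * (f.1 - g.1) := by
      rcases lt_trichotomy g.1 a.1 with hga | hga | hga
      · have t1 := (hLb g hgA hgf).1 hga
        rw [AB_.cut_true, (h2 g a f y (hC.2 g hgS a haS f hf hga haf)).1] at t1
        have t2 : (zl y a - zl y g) * (f.1 - g.1) < (zl y f - zl y g) * (a.1 - g.1) := t1
        have e : (zl y f - zl y a) * (f.1 - g.1) =
            (zl y f - zl y g) * (f.1 - g.1) - (zl y a - zl y g) * (f.1 - g.1) := by ring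
        have e' : (zl y f - zl y g) * (f.1 - a.1) =
            (zl y f - zl y g) * (f.1 - g.1) - (zl y f - zl y g) * (a.1 - g.1) := by ring
        rw [e, e']
        linarith
      · have : g = a := hC.1 g hgS a haS hga
        rw [this]
      · have t1 := (hLb g hgA hgf).2 hga
        rw [AB_.cut_false, (h2 a g f y (hC.2 a haS g hgS f hf hga hgf)).1] at t1
        have t2 : (zl y f - zl y a) * (g.1 - a.1) ≤ (zl y g - zl y a) * (f.1 - a.1) :=
          not_lt.1 t1
        have e : (zl y f - zl y g) * (f.1 - a.1) =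
            (zl y f - zl y a) * (f.1 - a.1) - (zl y g - zl y a) * (f.1 - a.1) := by ring
        have e' : (zl y f - zl y a) * (f.1 - g.1) =
            (zl y f - zl y a) * (f.1 - a.1) - (zl y f - zl y a) * (g.1 - a.1) := by ring
        rw [e, e']
        linarith
    have k3 : (zl y b - zl y f) * (g'.1 - f.1) ≤ (zl y g' - zl y f) * (b.1 - f.1) := by
      rcases lt_trichotomy g'.1 b.1 with hgb | hgb | hgb
      · have t1 := (hRb g' hgA' hfg').1 hgb
        rw [AB_.cut_false, (h2 f g' b y (hC.2 f hf g' hgS' b hbS hfg' hgb)).1] at t1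
        exact not_lt.1 t1
      · have : g' = b := hC.1 g' hgS' b hbS hgb
        rw [this]
      · have t1 := (hRb g' hgA' hfg').2 hgb
        rw [AB_.cut_true, (h2 f b g' y (hC.2 f hf b hbS g' hgS' hfb hgb)).1] at t1
        exact le_of_lt t1
    have k4 := AB_.chain a.1 g.1 f.1 g'.1 b.1 (zl y a) (zl y g) (zl y f) (zl y g') (zl y b)
      haf hgf hfg' hfb k1' k2 k3
    rw [(h2 a f b y (hC.2 a haS f hf b hbS haf hfb)).1] at hlt
    exact k4 hlt
  · intro hAl
    exact (AB_.cut_true y _).1 (hAl.2 a haS b hbS haf hfb)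

end Pool.Agent.EVD
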