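import Pool.Agent.EVD.TA

/-! # EVD: the alive test is correct (`T_A_ALB`) -/

set_option autoImplicit false

namespace Pool.Agent.EVD

theorem p_A_ALB (hR : T_A_TANR) (hL : T_A_TANL) (hO : T_A_OWN) (hAB : T_AB) : T_A_ALB := by
  intro S ps f y hS hP hf
  obtain ⟨hfin, hown, hal, _⟩ := hO S ps hP
  have hc : Cut (cutT (some y)) := cut_cutT _
  have h1 := hR S S ps (cutT (some y)) f hS hf (Set.Subset.refl S) hP hc
  have h2 := hL S S ps (cutT (some y)) f hS hf (Set.Subset.refl S) hP hc
  unfold aliveB
  cases eL : tanL (cutT (some y)) f ps with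
  | none =>
    have h3 := h2.2 eL
    simp only [true_iff]
    exact ⟨hf, fun a ha c _ hac _ => absurd hac (not_lt.2 (h3 a ha))⟩
  | some a =>
    cases eR : tanR (cutT (some y)) f ps with
    | none =>
      have h3 := h1.2 eR
      simp only [true_iff]
      exact ⟨hf, fun _ _ c hcS _ hfc => absurd hfc (not_lt.2 (h3 c hcS))⟩
    | some b =>
      have hLo := h2.1
      have hRo := h1.1
      rw [eL] at hLo
      rw [eR] at hRo
      simp only [decide_eq_true_eq]
      exact hAB S (Own (cutT (some y)) ps) y f a.s b.s hfin hS hf (hal _ hc) (hown _) hLo hRo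

end Pool.Agent.EVD
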