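import Pool.Agent.EVD.TA

/-! # EVD: A_BLD, balanced tree of a list -/

set_option autoImplicit false

namespace Pool.Agent.EVD

namespace A_BLD_

theorem pu_nil : pairUp ([] : List (TR ℝ)) = [] := by
  simp [pairUp]

theorem pu_one (a : TR ℝ) : pairUp [a] = [a] := by
  simp [pairUp]

theorem pu_cons (a b : TR ℝ) (t : List (TR ℝ)) : pairUp (a :: b :: t) = join a b :: pairUp t := by
  simp [pairUp]

theorem flat_one (l : List (Lf ℝ)) : (List.map (fun d => [d]) l).flatten = l := by
  induction l with
  | nil => rfl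
  | cons a l ih => rw [List.map_cons, List.flatten_cons, ih]; rfl

theorem pu_spec (k : ℕ) (T : List (TR ℝ)) (h : ∀ t ∈ T, t.WF ∧ t.dep ≤ k) :
    (∀ t ∈ pairUp T, t.WF ∧ t.dep ≤ k + 1) ∧
      ((pairUp T).map TR.toL).flatten = (T.map TR.toL).flatten := by
  induction T using pairUp.induct with
  | case1 a b t ih =>
    rw [pu_cons]
    have ha := h a (by simp)
    have hb := h b (by simp)
    obtain ⟨ih1, ih2⟩ := ih fun s hs => h s (by simp [hs])
    refine ⟨fun s hs => ?_, ?_⟩
    · rcases List.mem_cons.1 hs with rfl | hs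
      · refine ⟨⟨ha.1, hb.1, rfl, rfl⟩, ?_⟩
        have h1 : (join a b).dep = max a.dep b.dep + 1 := rfl
        rw [h1]
        have h2 : max a.dep b.dep ≤ k := max_le ha.2 hb.2
        omega
      · exact ih1 s hs
    · rw [List.map_cons, List.flatten_cons, ih2, List.map_cons, List.flatten_cons,
        List.map_cons, List.flatten_cons, ← List.append_assoc]
      rfl
  | case2 l hl =>
    have h1 : pairUp l = l := by
      rcases l with _ | ⟨a, _ | ⟨b, t⟩⟩
      · exact pu_nil
      · exact pu_one a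
      · exact absurd rfl (hl a b t)
    rw [h1]
    exact ⟨fun s hs => ⟨(h s hs).1, (h s hs).2.trans (Nat.le_succ k)⟩, rfl⟩

theorem all_spec (n : ℕ) : ∀ (T : List (TR ℝ)), T.length ≤ n → T ≠ [] → ∀ k : ℕ,
    (∀ t ∈ T, t.WF ∧ t.dep ≤ k) → ∃ t, buildAll T = some t ∧ t.WF ∧
      t.toL = (T.map TR.toL).flatten ∧ t.dep ≤ k + Nat.clog 2 T.length := by
  induction n with
  | zero =>
    intro T hT hne
    exact absurd (List.length_eq_zero_iff.1 (Nat.le_zero.1 hT)) hne
  | succ n ih =>
    intro T hT hne k h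
    rcases T with _ | ⟨a, _ | ⟨b, t⟩⟩
    · exact absurd rfl hne
    · refine ⟨a, by rw [buildAll], (h a (by simp)).1, by simp, ?_⟩
      have := (h a (by simp)).2
      omega
    · have hlen := pairUp_length (a :: b :: t)
      have hlen2 : (a :: b :: t).length = t.length + 2 := rfl
      have h1 : (pairUp (a :: b :: t)).length ≤ n := by
        rw [hlen2] at hT hlen
        omega
      have h2 : pairUp (a :: b :: t) ≠ [] := by
        rw [pu_cons]
        simp
      obtain ⟨h3, h4⟩ := pu_spec k (a :: b :: t) h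
      obtain ⟨s, hs1, hs2, hs3, hs4⟩ := ih _ h1 h2 (k + 1) h3
      refine ⟨s, ?_, hs2, ?_, ?_⟩
      · rw [buildAll]
        exact hs1
      · rw [hs3, h4]
      · have h5 : Nat.clog 2 (a :: b :: t).length =
            Nat.clog 2 (((a :: b :: t).length + 2 - 1) / 2) + 1 :=
          Nat.clog_of_two_le (le_refl 2) (by rw [hlen2]; omega)
        have h6 : ((a :: b :: t).length + 2 - 1) / 2 = ((a :: b :: t).length + 1) / 2 := by
          congr 1
        rw [h5, h6, ← hlen]
        omega

end A_BLD_

open A_BLD_ in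
theorem p_A_BLD : T_A_BLD := by
  refine ⟨?_, fun l hl => ?_⟩
  · unfold build
    rw [List.map_nil, buildAll]
  · have h := all_spec _ (l.map TR.leaf) (le_refl _) (by simpa using hl) 0 ?_
    · obtain ⟨t, h1, h2, h3, h4⟩ := h
      refine ⟨t, h1, h2, ?_, ?_⟩
      · rw [h3, List.map_map]
        have h5 : (TR.toL ∘ TR.leaf : Lf ℝ → List (Lf ℝ)) = fun d => [d] := rfl
        rw [h5]
        exact flat_one l
      · rw [List.length_map, zero_add] at h4
        exact h4
    · intro t ht
      obtain ⟨d, -, rfl⟩ := List.mem_map.1 ht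
      exact ⟨trivial, le_refl 0⟩

end Pool.Agent.EVD
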