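import Pool.Agent.EVD.TA

/-! # EVD, target `T_A_EXH`: existence and uniqueness of the death height -/

set_option autoImplicit false

namespace Pool.Agent.EVD

namespace A_EXH_

theorem ex (S : Set P) (f : P) (hS : S.Finite) : ∃ h, IsH S f h := by
  by_cases h1 : ∀ a ∈ S, f.1 ≤ a.1
  · exact ⟨none, Or.inl h1⟩
  by_cases h2 : ∀ c ∈ S, c.1 ≤ f.1
  · exact ⟨none, Or.inr h2⟩
  push Not at h1 h2
  obtain ⟨a0, ha0, ha1⟩ := h1
  obtain ⟨c0, hc0, hc1⟩ := h2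
  have hT : {q : P × P | q.1 ∈ S ∧ q.2 ∈ S ∧ q.1.1 < f.1 ∧ f.1 < q.2.1}.Finite :=
    (hS.prod hS).subset (fun q hq => ⟨hq.1, hq.2.1⟩)
  obtain ⟨q, hq, hm⟩ := Set.exists_max_image
    {q : P × P | q.1 ∈ S ∧ q.2 ∈ S ∧ q.1.1 < f.1 ∧ f.1 < q.2.1}
    (fun q => cc q.1 f q.2) hT ⟨(a0, c0), ha0, hc0, ha1, hc1⟩
  refine ⟨some (cc q.1 f q.2),
    ⟨q.1, hq.1, q.2, hq.2.1, hq.2.2.1, hq.2.2.2, rfl⟩, fun a ha c hc h3 h4 => ?_⟩
  exact hm (a, c) ⟨ha, hc, h3, h4⟩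

/-- a real death height excludes `none` -/
theorem excl {S : Set P} {f : P} {r : ℝ} (h : IsH S f (some r)) (h' : IsH S f none) : False := by
  obtain ⟨⟨a, ha, c, hc, h1, h2, -⟩, -⟩ := h
  rcases h' with h' | h'
  · exact absurd (h' a ha) (not_le.2 h1)
  · exact absurd (h' c hc) (not_le.2 h2)

theorem le {S : Set P} {f : P} {r r' : ℝ} (h : IsH S f (some r)) (h' : IsH S f (some r')) :
    r ≤ r' := by
  obtain ⟨⟨a, ha, c, hc, h1, h2, h3⟩, -⟩ := h
  rw [← h3]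
  exact h'.2 a ha c hc h1 h2

theorem uniq {S : Set P} {f : P} {h h' : Option ℝ} (H : IsH S f h) (H' : IsH S f h') :
    h = h' := by
  cases h with
  | none =>
    cases h' with
    | none => rfl
    | some r' => exact (excl H' H).elim
  | some r =>
    cases h' with
    | none => exact (excl H H').elim
    | some r' => rw [le_antisymm (le H H') (le H' H)]

end A_EXH_

theorem p_A_EXH : T_A_EXH := by
  intro S f hS _
  exact ⟨A_EXH_.ex S f hS, fun h h' H H' => A_EXH_.uniq H H'⟩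

end Pool.Agent.EVD
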