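import Pool.Agent.EVD.TA

/-! # EVD: A_FOUR (helper62) -/

set_option autoImplicit false

namespace Pool.Agent.EVD

namespace A_FOUR_

theorem neg_of {a b c A B C : ℝ} (ha : 0 < a) (hb : 0 < b) (hc : 0 < c)
    (h : a * A = b * B + c * C) (hB : B < 0) (hC : C < 0) : A < 0 := by
  by_contra hA
  push Not at hA
  have h1 := mul_nonneg ha.le hA
  have h2 := mul_neg_of_pos_of_neg hb hB
  have h3 := mul_neg_of_pos_of_neg hc hC
  linarith

theorem nonneg_of {a b c A B C : ℝ} (ha : 0 < a) (hb : 0 < b) (hc : 0 < c)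
    (h : a * A = b * B + c * C) (hB : 0 ≤ B) (hC : 0 ≤ C) : 0 ≤ A := by
  by_contra hA
  push Not at hA
  have h1 := mul_neg_of_pos_of_neg ha hA
  have h2 := mul_nonneg hb.le hB
  have h3 := mul_nonneg hc.le hC
  linarith

end A_FOUR_

open A_FOUR_ in
theorem p_A_FOUR (h_MAT : T_MAT) : T_A_FOUR := by
  intro S D hS hD p hp q hq r hr s hs hpq hqr hrs
  obtain ⟨y, hy⟩ := h_MAT ({p, q, r, s} : Set P) D (Set.toFinite _) hD
  have key : ∀ a b c : P, a ∈ S → b ∈ S → c ∈ S → a ∈ ({p, q, r, s} : Set P) →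
      b ∈ ({p, q, r, s} : Set P) → c ∈ ({p, q, r, s} : Set P) → a.1 < b.1 → b.1 < c.1 →
      (D (cc a b c) = true ↔ dd y a b c < 0) ∧ (D (cc a b c) = false ↔ 0 ≤ dd y a b c) := by
    intro a b c ha hb hc ha' hb' hc' hab hbc
    have h1 : D (cc a b c) = true ↔ dd y a b c < 0 :=
      (hy a ha' b hb' c hc' hab hbc).trans (cc_lt_iff (hS.pos ha hb hc hab hbc) y)
    refine ⟨h1, ?_⟩
    rw [← not_lt, ← h1, Bool.not_eq_true]
  have mp : p ∈ ({p, q, r, s} : Set P) := by simp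
  have mq : q ∈ ({p, q, r, s} : Set P) := by simp
  have mr : r ∈ ({p, q, r, s} : Set P) := by simp
  have ms : s ∈ ({p, q, r, s} : Set P) := by simp
  have hps : p.1 < s.1 := by linarith
  have hpr : p.1 < r.1 := by linarith
  have hqs : q.1 < s.1 := by linarith
  obtain ⟨a1, a2⟩ := key p q r hp hq hr mp mq mr hpq hqr
  obtain ⟨b1, b2⟩ := key p q s hp hq hs mp mq ms hpq hqs
  obtain ⟨c1, c2⟩ := key p r s hp hr hs mp mr ms hpr hrs
  obtain ⟨e1, e2⟩ := key q r s hq hr hs mq mr ms hqr hrs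
  rw [a1, a2, b1, b2, c1, c2, e1, e2]
  have i1 : (r.1 - p.1) * dd y p q s = (q.1 - p.1) * dd y p r s + (s.1 - p.1) * dd y p q r := by
    unfold dd; ring
  have i2 : (s.1 - q.1) * dd y p r s = (s.1 - r.1) * dd y p q s + (s.1 - p.1) * dd y q r s := by
    unfold dd; ring
  have i3 : (r.1 - q.1) * dd y p r s = (r.1 - p.1) * dd y q r s + (s.1 - r.1) * dd y p q r := by
    unfold dd; ring
  have i4 : (q.1 - p.1) * dd y q r s = (r.1 - q.1) * dd y p q s - (s.1 - q.1) * dd y p q r := by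
    unfold dd; ring
  have z1 : 0 < q.1 - p.1 := by linarith
  have z2 : 0 < r.1 - q.1 := by linarith
  have z3 : 0 < s.1 - r.1 := by linarith
  have z4 : 0 < r.1 - p.1 := by linarith
  have z5 : 0 < s.1 - q.1 := by linarith
  have z6 : 0 < s.1 - p.1 := by linarith
  refine ⟨?_, ?_, ?_, ?_, ?_, ?_⟩
  · intro hA hC
    exact neg_of z4 z1 z6 i1 hC hA
  · intro hA hC
    exact nonneg_of z4 z1 z6 i1 hC hA
  · intro hB hE
    exact neg_of z5 z3 z6 i2 hB hE
  · intro hB hE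
    exact nonneg_of z5 z3 z6 i2 hB hE
  · intro hE hA
    exact neg_of z2 z4 z3 i3 hE hA
  · intro hA hB
    have i4' : (q.1 - p.1) * dd y q r s =
        (r.1 - q.1) * dd y p q s + (s.1 - q.1) * (-dd y p q r) := by
      rw [i4]; ring
    exact nonneg_of z1 z2 z5 i4' hB (by linarith)

end Pool.Agent.EVD
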