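import Pool.Agent.EVD.TA

/-! # EVD: A-LAST, the last and the first live leaf -/

set_option autoImplicit false

namespace Pool.Agent.EVD

namespace A_LAST_

theorem last (D : ℝ → Bool) (hD : Cut D) (t : TR ℝ) : TreeOK t → live D t.am.h = true →
    lastA' D t ∈ t.toL ∧ live D (lastA' D t).h = true ∧
      ∀ d ∈ t.toL, (lastA' D t).s.1 < d.s.1 → live D d.h = false := by
  induction t with
  | leaf d =>
    intro _ h
    refine ⟨by simp [TR.toL, lastA'], h, fun e he h1 => ?_⟩
    simp only [TR.toL, List.mem_singleton] at he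
    subst he
    exact absurd h1 (lt_irrefl _)
  | node am fx l r ihl ihr =>
    intro ht h
    obtain ⟨hl, hr, ham, -, hlr⟩ := ht.split
    simp only [TR.toL, List.mem_append, lastA']
    by_cases hc : live D r.am.h = true
    · rw [if_pos hc]
      obtain ⟨h1, h2, h3⟩ := ihr hr hc
      refine ⟨Or.inr h1, h2, fun d hd hlt => ?_⟩
      rcases hd with hd | hd
      · exact absurd (hlr d hd _ h1) (not_lt.2 hlt.le)
      · exact h3 d hd hlt
    · rw [if_neg hc]
      rw [Bool.not_eq_true] at hc
      have hla : live D l.am.h = true := by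
        change live D am.h = true at h
        rw [ham] at h
        rcases btr_mem l.am r.am with e | e
        · rwa [e] at h
        · rw [e, hc] at h
          exact Bool.noConfusion h
      obtain ⟨h1, h2, h3⟩ := ihl hl hla
      refine ⟨Or.inl h1, h2, fun d hd hlt => ?_⟩
      rcases hd with hd | hd
      · exact h3 d hd hlt
      · exact hr.dead hD hc d hd

theorem first (D : ℝ → Bool) (hD : Cut D) (t : TR ℝ) : TreeOK t → live D t.am.h = true →
    firstA' D t ∈ t.toL ∧ live D (firstA' D t).h = true ∧
      ∀ d ∈ t.toL, d.s.1 < (firstA' D t).s.1 → live D d.h = false := by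
  induction t with
  | leaf d =>
    intro _ h
    refine ⟨by simp [TR.toL, firstA'], h, fun e he h1 => ?_⟩
    simp only [TR.toL, List.mem_singleton] at he
    subst he
    exact absurd h1 (lt_irrefl _)
  | node am fx l r ihl ihr =>
    intro ht h
    obtain ⟨hl, hr, ham, -, hlr⟩ := ht.split
    simp only [TR.toL, List.mem_append, firstA']
    by_cases hc : live D l.am.h = true
    · rw [if_pos hc]
      obtain ⟨h1, h2, h3⟩ := ihl hl hc
      refine ⟨Or.inl h1, h2, fun d hd hlt => ?_⟩
      rcases hd with hd | hd
      · exact h3 d hd hlt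
      · exact absurd (hlr _ h1 d hd) (not_lt.2 hlt.le)
    · rw [if_neg hc]
      rw [Bool.not_eq_true] at hc
      have hra : live D r.am.h = true := by
        change live D am.h = true at h
        rw [ham] at h
        rcases btr_mem l.am r.am with e | e
        · rw [e, hc] at h
          exact Bool.noConfusion h
        · rwa [e] at h
      obtain ⟨h1, h2, h3⟩ := ihr hr hra
      refine ⟨Or.inr h1, h2, fun d hd hlt => ?_⟩
      rcases hd with hd | hd
      · exact hl.dead hD hc d hd
      · exact h3 d hd hlt

end A_LAST_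

theorem p_A_LAST : T_A_LAST := by
  intro D t hD ht
  by_cases h : live D t.am.h = true
  · rw [lastA, firstA, if_pos h, if_pos h]
    obtain ⟨h1, h2, h3⟩ := A_LAST_.last D hD t ht h
    obtain ⟨h4, h5, h6⟩ := A_LAST_.first D hD t ht h
    exact ⟨⟨h1, trivial, h2, fun d hd _ hlt => h3 d hd hlt⟩,
      ⟨h4, trivial, h5, fun d hd _ hlt => h6 d hd hlt⟩⟩
  · rw [lastA, firstA, if_neg h, if_neg h]
    rw [Bool.not_eq_true] at h
    exact ⟨fun d hd _ => ht.dead hD h d hd, fun d hd _ => ht.dead hD h d hd⟩

end Pool.Agent.EVD
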