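import Pool.Agent.EVD.TA

/-! # EVD: last live leaf below x, first live leaf above x (A_LT) -/

set_option autoImplicit false

namespace Pool.Agent.EVD

namespace A_LT_

theorem fxr {am : Lf ℝ} {fx : ℝ} {l r : TR ℝ} (h : TreeOK (TR.node am fx l r)) :
    (∀ d ∈ l.toL, d.s.1 < r.fx) ∧ ∀ d ∈ r.toL, r.fx ≤ d.s.1 := by
  obtain ⟨h1, h2, h3, h4, h5⟩ := h.split
  obtain ⟨⟨d0, hd0, hd1⟩, h6⟩ := h2.fx_spec
  exact ⟨fun d hd => by rw [← hd1]; exact h5 d hd d0 hd0, h6⟩

theorem lt_spec (h_A_LAST : T_A_LAST) (D : ℝ → Bool) (x : ℝ) (hD : Cut D) (t : TR ℝ)
    (ht : TreeOK t) : IsLastS D (fun d => d.s.1 < x) t.toL (lastLt D x t) := by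
  induction t with
  | leaf d =>
    unfold lastLt
    by_cases h1 : d.s.1 < x
    · rw [if_pos h1]
      by_cases h2 : live D d.h = true
      · rw [if_pos h2]
        refine ⟨by simp [TR.toL], h1, h2, fun e he _ h3 => ?_⟩
        simp only [TR.toL, List.mem_singleton] at he
        subst he
        exact absurd h3 (lt_irrefl _)
      · rw [if_neg h2]
        intro e he _
        simp only [TR.toL, List.mem_singleton] at he
        subst he
        simpa using h2
    · rw [if_neg h1]
      intro e he h2
      simp only [TR.toL, List.mem_singleton] at he
      subst he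
      exact absurd h2 h1
  | node am fx l r ihl ihr =>
    obtain ⟨h1, h2, h3, h4, h5⟩ := ht.split
    obtain ⟨h6, h7⟩ := fxr ht
    have il := ihl h1
    have ir := ihr h2
    have iL := (h_A_LAST D l hD h1).1
    unfold lastLt
    by_cases hx : r.fx < x
    · rw [if_pos hx]
      generalize lastLt D x r = o at ir
      generalize lastA D l = o' at iL
      cases o with
      | none =>
        cases o' with
        | none =>
          intro e he hq
          simp only [TR.toL, List.mem_append] at he
          rcases he with he | he
          · exact iL e he trivial
          · exact ir e he hq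
        | some a =>
          obtain ⟨i1, i2, i3, i4⟩ := iL
          refine ⟨by simp [TR.toL, i1], (h6 a i1).trans hx, i3, fun e he hq h8 => ?_⟩
          simp only [TR.toL, List.mem_append] at he
          rcases he with he | he
          · exact i4 e he trivial h8
          · exact ir e he hq
      | some a =>
        obtain ⟨i1, i2, i3, i4⟩ := ir
        refine ⟨by simp [TR.toL, i1], i2, i3, fun e he hq h8 => ?_⟩
        simp only [TR.toL, List.mem_append] at he
        rcases he with he | he
        · exact absurd h8 (not_lt.2 (h5 e he a i1).le)
        · exact i4 e he hq h8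
    · rw [if_neg hx]
      have h8 : ∀ d ∈ r.toL, ¬ d.s.1 < x := fun d hd h9 => hx (lt_of_le_of_lt (h7 d hd) h9)
      generalize lastLt D x l = o at il
      cases o with
      | none =>
        intro e he hq
        simp only [TR.toL, List.mem_append] at he
        rcases he with he | he
        · exact il e he hq
        · exact absurd hq (h8 e he)
      | some a =>
        obtain ⟨i1, i2, i3, i4⟩ := il
        refine ⟨by simp [TR.toL, i1], i2, i3, fun e he hq h9 => ?_⟩
        simp only [TR.toL, List.mem_append] at he
        rcases he with he | he
        · exact i4 e he hq h9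
        · exact absurd hq (h8 e he)

theorem gt_spec (h_A_LAST : T_A_LAST) (D : ℝ → Bool) (x : ℝ) (hD : Cut D) (t : TR ℝ)
    (ht : TreeOK t) : IsFirstS D (fun d => x < d.s.1) t.toL (firstGt D x t) := by
  induction t with
  | leaf d =>
    unfold firstGt
    by_cases h1 : x < d.s.1
    · rw [if_pos h1]
      by_cases h2 : live D d.h = true
      · rw [if_pos h2]
        refine ⟨by simp [TR.toL], h1, h2, fun e he _ h3 => ?_⟩
        simp only [TR.toL, List.mem_singleton] at he
        subst he
        exact absurd h3 (lt_irrefl _)
      · rw [if_neg h2]
        intro e he _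
        simp only [TR.toL, List.mem_singleton] at he
        subst he
        simpa using h2
    · rw [if_neg h1]
      intro e he h2
      simp only [TR.toL, List.mem_singleton] at he
      subst he
      exact absurd h2 h1
  | node am fx l r ihl ihr =>
    obtain ⟨h1, h2, h3, h4, h5⟩ := ht.split
    obtain ⟨h6, h7⟩ := fxr ht
    have il := ihl h1
    have ir := ihr h2
    have iR := (h_A_LAST D r hD h2).2
    unfold firstGt
    by_cases hx : x < r.fx
    · rw [if_pos hx]
      generalize firstGt D x l = o at il
      generalize firstA D r = o' at iR
      cases o with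
      | none =>
        cases o' with
        | none =>
          intro e he hq
          simp only [TR.toL, List.mem_append] at he
          rcases he with he | he
          · exact il e he hq
          · exact iR e he trivial
        | some a =>
          obtain ⟨i1, i2, i3, i4⟩ := iR
          refine ⟨by simp [TR.toL, i1], lt_of_lt_of_le hx (h7 a i1), i3, fun e he hq h8 => ?_⟩
          simp only [TR.toL, List.mem_append] at he
          rcases he with he | he
          · exact il e he hq
          · exact i4 e he trivial h8
      | some a =>
        obtain ⟨i1, i2, i3, i4⟩ := il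
        refine ⟨by simp [TR.toL, i1], i2, i3, fun e he hq h8 => ?_⟩
        simp only [TR.toL, List.mem_append] at he
        rcases he with he | he
        · exact i4 e he hq h8
        · exact absurd h8 (not_lt.2 (h5 a i1 e he).le)
    · rw [if_neg hx]
      have h8 : ∀ d ∈ l.toL, ¬ x < d.s.1 := fun d hd h9 => hx (h9.trans (h6 d hd))
      generalize firstGt D x r = o at ir
      cases o with
      | none =>
        intro e he hq
        simp only [TR.toL, List.mem_append] at he
        rcases he with he | he
        · exact absurd hq (h8 e he)
        · exact ir e he hq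
      | some a =>
        obtain ⟨i1, i2, i3, i4⟩ := ir
        refine ⟨by simp [TR.toL, i1], i2, i3, fun e he hq h9 => ?_⟩
        simp only [TR.toL, List.mem_append] at he
        rcases he with he | he
        · exact absurd hq (h8 e he)
        · exact i4 e he hq h9

end A_LT_

open A_LT_ in
/-- last live leaf below x, first live leaf above x -/
theorem p_A_LT (h_A_LAST : T_A_LAST) : T_A_LT := fun D x t hD ht =>
  ⟨lt_spec h_A_LAST D x hD t ht, gt_spec h_A_LAST D x hD t ht⟩

end Pool.Agent.EVD
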