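import Pool.Agent.EVD.TA

/-! # EVD: the searches for the leaf of minimal height -/

set_option autoImplicit false

namespace Pool.Agent.EVD

namespace A_MIN_

theorem both {Q Q1 Q2 : Lf ℝ → Prop} {L1 L2 : List (Lf ℝ)} {a b : Lf ℝ}
    (h1 : IsMinS Q1 L1 (some a)) (h2 : IsMinS Q2 L2 (some b))
    (e1 : ∀ d ∈ L1, (Q d ↔ Q1 d)) (e2 : ∀ d ∈ L2, (Q d ↔ Q2 d)) :
    IsMinS Q (L1 ++ L2) (some (btr a b)) := by
  obtain ⟨m1, q1, u1⟩ := h1
  obtain ⟨m2, q2, u2⟩ := h2
  refine ⟨?_, ?_, ?_⟩
  · rcases btr_mem a b with e | e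
    · rw [e]; exact List.mem_append_left _ m1
    · rw [e]; exact List.mem_append_right _ m2
  · rcases btr_mem a b with e | e
    · rw [e]; exact (e1 a m1).2 q1
    · rw [e]; exact (e2 b m2).2 q2
  · intro d hd hQ
    rcases List.mem_append.1 hd with hd | hd
    · exact hle_trans (btr_le_left a b) (u1 d hd ((e1 d hd).1 hQ))
    · exact hle_trans (btr_le_right a b) (u2 d hd ((e2 d hd).1 hQ))

theorem leftOnly {Q Q1 : Lf ℝ → Prop} {L1 L2 : List (Lf ℝ)} {o : Option (Lf ℝ)}
    (h1 : IsMinS Q1 L1 o) (e1 : ∀ d ∈ L1, (Q d ↔ Q1 d)) (e2 : ∀ d ∈ L2, ¬ Q d) :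
    IsMinS Q (L1 ++ L2) o := by
  cases o with
  | none =>
    intro d hd hQ
    rcases List.mem_append.1 hd with hd | hd
    · exact h1 d hd ((e1 d hd).1 hQ)
    · exact e2 d hd hQ
  | some a =>
    obtain ⟨m1, q1, u1⟩ := h1
    refine ⟨List.mem_append_left _ m1, (e1 a m1).2 q1, ?_⟩
    intro d hd hQ
    rcases List.mem_append.1 hd with hd | hd
    · exact u1 d hd ((e1 d hd).1 hQ)
    · exact absurd hQ (e2 d hd)

theorem rightOnly {Q Q2 : Lf ℝ → Prop} {L1 L2 : List (Lf ℝ)} {o : Option (Lf ℝ)}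
    (h2 : IsMinS Q2 L2 o) (e1 : ∀ d ∈ L1, ¬ Q d) (e2 : ∀ d ∈ L2, (Q d ↔ Q2 d)) :
    IsMinS Q (L1 ++ L2) o := by
  cases o with
  | none =>
    intro d hd hQ
    rcases List.mem_append.1 hd with hd | hd
    · exact e1 d hd hQ
    · exact h2 d hd ((e2 d hd).1 hQ)
  | some a =>
    obtain ⟨m1, q1, u1⟩ := h2
    refine ⟨List.mem_append_right _ m1, (e2 a m1).2 q1, ?_⟩
    intro d hd hQ
    rcases List.mem_append.1 hd with hd | hd
    · exact absurd hQ (e1 d hd)
    · exact u1 d hd ((e2 d hd).1 hQ)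

theorem top {t : TR ℝ} (h : TreeOK t) : IsMinS (fun _ => True) t.toL (some t.am) :=
  ⟨h.1.am_spec.1, trivial, fun d hd _ => h.1.am_spec.2 d hd⟩

/-- the leaves of the left subtree are to the left of `r.fx` -/
theorem lt_fx {l r : TR ℝ} (h2 : TreeOK r) (h5 : ∀ a ∈ l.toL, ∀ b ∈ r.toL, a.s.1 < b.s.1) :
    ∀ a ∈ l.toL, a.s.1 < r.fx := by
  obtain ⟨b, hb, hb1⟩ := h2.fx_spec.1
  intro a ha
  rw [← hb1]
  exact h5 a ha b hb

theorem gt (x : ℝ) (t : TR ℝ) (h : TreeOK t) :
    IsMinS (fun d => x < d.s.1) t.toL (minGt x t) := by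
  induction t with
  | leaf d =>
    simp only [minGt, TR.toL]
    split
    · rename_i hx
      refine ⟨List.mem_singleton.2 rfl, hx, fun e he _ => ?_⟩
      rw [List.mem_singleton.1 he]
      exact hle_refl _
    · rename_i hx
      intro e he
      rw [List.mem_singleton.1 he]
      exact hx
  | node am fx l r ihl ihr =>
    obtain ⟨h1, h2, h3, h4, h5⟩ := h.split
    have hl := ihl h1
    have hr := ihr h2
    have hlf := lt_fx h2 h5
    simp only [minGt, TR.toL]
    split
    · rename_i hx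
      have hrt : ∀ d ∈ r.toL, ((fun d : Lf ℝ => x < d.s.1) d ↔ True) := fun d hd =>
        ⟨fun _ => trivial, fun _ => lt_of_lt_of_le hx (h2.fx_spec.2 d hd)⟩
      split
      · rename_i e he
        rw [he] at hl
        exact both hl (top h2) (fun _ _ => Iff.rfl) hrt
      · rename_i he
        rw [he] at hl
        exact rightOnly (top h2) hl hrt
    · rename_i hx
      exact rightOnly hr (fun d hd hq => hx (lt_trans hq (hlf d hd))) (fun _ _ => Iff.rfl)

theorem lt (x : ℝ) (t : TR ℝ) (h : TreeOK t) :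
    IsMinS (fun d => d.s.1 < x) t.toL (minLt x t) := by
  induction t with
  | leaf d =>
    simp only [minLt, TR.toL]
    split
    · rename_i hx
      refine ⟨List.mem_singleton.2 rfl, hx, fun e he _ => ?_⟩
      rw [List.mem_singleton.1 he]
      exact hle_refl _
    · rename_i hx
      intro e he
      rw [List.mem_singleton.1 he]
      exact hx
  | node am fx l r ihl ihr =>
    obtain ⟨h1, h2, h3, h4, h5⟩ := h.split
    have hl := ihl h1
    have hr := ihr h2
    have hlf := lt_fx h2 h5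
    simp only [minLt, TR.toL]
    split
    · rename_i hx
      have hlt : ∀ d ∈ l.toL, ((fun d : Lf ℝ => d.s.1 < x) d ↔ True) := fun d hd =>
        ⟨fun _ => trivial, fun _ => lt_trans (hlf d hd) hx⟩
      split
      · rename_i e he
        rw [he] at hr
        exact both (top h1) hr hlt (fun _ _ => Iff.rfl)
      · rename_i he
        rw [he] at hr
        exact leftOnly (top h1) hlt hr
    · rename_i hx
      exact leftOnly hl (fun _ _ => Iff.rfl)
        (fun d hd hq => hx (lt_of_le_of_lt (h2.fx_spec.2 d hd) hq))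

theorem inn (x x' : ℝ) (t : TR ℝ) (h : TreeOK t) :
    IsMinS (fun d => x < d.s.1 ∧ d.s.1 < x') t.toL (minIn x x' t) := by
  induction t with
  | leaf d =>
    simp only [minIn, TR.toL]
    split
    · rename_i hx
      split
      · rename_i hx'
        refine ⟨List.mem_singleton.2 rfl, ⟨hx, hx'⟩, fun e he _ => ?_⟩
        rw [List.mem_singleton.1 he]
        exact hle_refl _
      · rename_i hx'
        intro e he hq
        rw [List.mem_singleton.1 he] at hq
        exact hx' hq.2
    · rename_i hx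
      intro e he hq
      rw [List.mem_singleton.1 he] at hq
      exact hx hq.1
  | node am fx l r ihl ihr =>
    obtain ⟨h1, h2, h3, h4, h5⟩ := h.split
    have hl := ihl h1
    have hr := ihr h2
    have hlf := lt_fx h2 h5
    simp only [minIn, TR.toL]
    split
    · rename_i hx'
      split
      · rename_i hx
        have hg := gt x l h1
        have hu := lt x' r h2
        have e1 : ∀ d ∈ l.toL, ((fun d : Lf ℝ => x < d.s.1 ∧ d.s.1 < x') d ↔ x < d.s.1) :=
          fun d hd => ⟨fun hq => hq.1, fun hq => ⟨hq, lt_trans (hlf d hd) hx'⟩⟩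
        have e2 : ∀ d ∈ r.toL, ((fun d : Lf ℝ => x < d.s.1 ∧ d.s.1 < x') d ↔ d.s.1 < x') :=
          fun d hd => ⟨fun hq => hq.2, fun hq => ⟨lt_of_lt_of_le hx (h2.fx_spec.2 d hd), hq⟩⟩
        split
        · rename_i a b ha hb
          rw [ha] at hg
          rw [hb] at hu
          exact both hg hu e1 e2
        · rename_i a ha hb
          rw [ha] at hg
          rw [hb] at hu
          exact leftOnly hg e1 (fun d hd hq => hu d hd ((e2 d hd).1 hq))
        · rename_i ha
          rw [ha] at hg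
          exact rightOnly hu (fun d hd hq => hg d hd ((e1 d hd).1 hq)) e2
      · rename_i hx
        exact rightOnly hr (fun d hd hq => hx (lt_trans hq.1 (hlf d hd))) (fun _ _ => Iff.rfl)
    · rename_i hx'
      exact leftOnly hl (fun _ _ => Iff.rfl)
        (fun d hd hq => hx' (lt_of_le_of_lt (h2.fx_spec.2 d hd) hq.2))

end A_MIN_

theorem p_A_MIN : T_A_MIN := fun t x x' h =>
  ⟨A_MIN_.gt x t h, A_MIN_.lt x t h, A_MIN_.inn x x' t h⟩

end Pool.Agent.EVD
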