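import Pool.Agent.EVD.TA

/-! # EVD: target A_MRG (merge of two sorted lists) -/

set_option autoImplicit false

namespace Pool.Agent.EVD

/-- membership in a merge -/
theorem A_MRG_mem (l m : List P) (p : P) : p ∈ mrg l m ↔ p ∈ l ∨ p ∈ m := by
  induction l, m using mrg.induct with
  | case1 m => simp [mrg]
  | case2 l h => simp [mrg]
  | case3 a l b m h ih =>
    rw [mrg, if_pos h, List.mem_cons, ih, List.mem_cons, List.mem_cons]
    tauto
  | case4 a l b m h ih =>
    rw [mrg, if_neg h, List.mem_cons, ih, List.mem_cons, List.mem_cons]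
    tauto

/-- length of a merge -/
theorem A_MRG_len (l m : List P) : (mrg l m).length = l.length + m.length := by
  induction l, m using mrg.induct with
  | case1 m => simp [mrg]
  | case2 l h => simp [mrg]
  | case3 a l b m h ih =>
    rw [mrg, if_pos h, List.length_cons, ih]
    simp only [List.length_cons]
    omega
  | case4 a l b m h ih =>
    rw [mrg, if_neg h, List.length_cons, ih]
    simp only [List.length_cons]
    omega

/-- a merge is sorted -/
theorem A_MRG_srt (l m : List P) (hl : SrtP l) (hm : SrtP m)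
    (hd : ∀ a ∈ l, ∀ b ∈ m, a.1 ≠ b.1) : SrtP (mrg l m) := by
  induction l, m using mrg.induct with
  | case1 m => simpa [mrg] using hm
  | case2 l h => simpa [mrg] using hl
  | case3 a l b m h ih =>
    rw [mrg, if_pos h]
    unfold SrtP at hl hm ih ⊢
    rw [List.pairwise_cons] at hl ⊢
    refine ⟨fun p hp => ?_, ih hl.2 hm fun x hx y hy => hd x (List.mem_cons_of_mem _ hx) y hy⟩
    rcases (A_MRG_mem _ _ p).1 hp with hp | hp
    · exact hl.1 p hp
    · rcases List.mem_cons.1 hp with rfl | hp
      · exact h
      · exact h.trans ((List.pairwise_cons.1 hm).1 p hp)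
  | case4 a l b m h ih =>
    rw [mrg, if_neg h]
    unfold SrtP at hl hm ih ⊢
    rw [List.pairwise_cons] at hm ⊢
    have hba : b.1 < a.1 := lt_of_le_of_ne (not_lt.1 h)
      (hd a (List.mem_cons_self) b (List.mem_cons_self)).symm
    refine ⟨fun p hp => ?_, ih hl hm.2 fun x hx y hy => hd x hx y (List.mem_cons_of_mem _ hy)⟩
    rcases (A_MRG_mem _ _ p).1 hp with hp | hp
    · rcases List.mem_cons.1 hp with rfl | hp
      · exact hba
      · exact hba.trans ((List.pairwise_cons.1 hl).1 p hp)
    · exact hm.1 p hp

/-- the merge of two lists -/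
theorem p_A_MRG : T_A_MRG := fun l m =>
  ⟨fun hl hm hd => A_MRG_srt l m hl hm hd, fun p => A_MRG_mem l m p, A_MRG_len l m⟩

end Pool.Agent.EVD
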