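import Pool.Agent.EVD.TA

/-! # EVD: tangents of a weakly alive site are its neighbours (target `T_A_NB`) -/

set_option autoImplicit false

namespace Pool.Agent.EVD

theorem p_A_NB (h_TANR : T_A_TANR) (h_TANL : T_A_TANL) (h_OWN : T_A_OWN) (h_TNR : T_TNR)
    (h_TNL : T_TNL) : T_A_NB := by
  intro S ps T f hS hps hf
  obtain ⟨hfin, hsub, hal, -⟩ := h_OWN S ps hps
  have hD := cut_cutT T
  obtain ⟨hr1, hr2⟩ := h_TANR S S ps (cutT T) f hS hf.1 (Set.Subset.refl S) hps hD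
  obtain ⟨hl1, hl2⟩ := h_TANL S S ps (cutT T) f hS hf.1 (Set.Subset.refl S) hps hD
  refine ⟨hr2, hl2, fun c hc => ?_, fun c hc => ?_⟩
  · rw [hc] at hr1
    have hopt : OptR (cutT T) f (Own (cutT T) ps) c.s := hr1
    obtain ⟨h1, h2⟩ := h_TNR S (Own (cutT T) ps) T f c.s hfin hS hf (hal _ hD) (hsub _) hopt
    exact ⟨hopt.2.1, h1, h2⟩
  · rw [hc] at hl1
    have hopt : OptL (cutT T) f (Own (cutT T) ps) c.s := hl1
    obtain ⟨h1, h2⟩ := h_TNL S (Own (cutT T) ps) T f c.s hfin hS hf (hal _ hD) (hsub _) hopt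
    exact ⟨hopt.2.1, h1, h2⟩

end Pool.Agent.EVD
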