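import Pool.Agent.EVD.TA

/-! # EVD: tangents of one part -/

set_option autoImplicit false

namespace Pool.Agent.EVD

namespace A_ONE_

theorem mem {N : Set P} {t : TR ℝ} (h : PartOK N t) {d : Lf ℝ} (hd : d ∈ t.toL) : d.s ∈ N := by
  rw [← h.2.1]
  exact ⟨d, hd, rfl⟩

theorem alive (h_LIV : T_LIV) {N : Set P} {t : TR ℝ} {D : ℝ → Bool} (hD : Cut D)
    (h : PartOK N t) {a b c : Lf ℝ} (ha : a ∈ t.toL) (hb : b ∈ t.toL) (hc : c ∈ t.toL)
    (hl : live D b.h = true) (h1 : a.s.1 < b.s.1) (h2 : b.s.1 < c.s.1) :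
    D (cc a.s b.s c.s) = true :=
  ((h_LIV N D b.s b.h hD (mem h hb) (h.2.2 b hb)).2 hl).2 a.s (mem h ha) c.s (mem h hc) h1 h2

end A_ONE_

theorem p_A_ONE (h_TANG : T_A_TANG) (h_FOUR : T_A_FOUR) (h_LIV : T_LIV) : T_A_ONE := by
  intro S N D f t hS hD hf hN hP
  have hmem : ∀ d : Lf ℝ, d ∈ t.toL → d.s ∈ S := fun d hd => hN (A_ONE_.mem hP hd)
  constructor
  · have hT := (h_TANG D (goR D f) f.1 t hD hP.1).1
    have hTra : Tra (goR D f) (fun d => d ∈ t.toL ∧ f.1 < d.s.1 ∧ live D d.h = true) := by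
      intro a b c ha hb hc hab hbc
      have h4 := h_FOUR S D hS hD f hf a.s (hmem a ha.1) b.s (hmem b hb.1) c.s (hmem c hc.1)
        ha.2.1 hab hbc
      exact ⟨h4.1, h4.2.1⟩
    have hUni : Uni (goR D f) (fun d => d ∈ t.toL ∧ f.1 < d.s.1 ∧ live D d.h = true) := by
      intro a b c ha hb hc hab hbc h1
      have h4 := h_FOUR S D hS hD f hf a.s (hmem a ha.1) b.s (hmem b hb.1) c.s (hmem c hc.1)
        ha.2.1 hab hbc
      exact h4.2.2.2.2.1 (A_ONE_.alive h_LIV hD hP ha.1 hb.1 hc.1 hb.2.2 hab hbc) h1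
    have hB := hT hTra hUni
    cases ho : tanGt D (goR D f) f.1 t with
    | none =>
      rw [ho] at hB
      intro s hs
      obtain ⟨d, hd, rfl, hl⟩ := hs
      by_contra hlt
      exact hB d ⟨hd, not_le.1 hlt, hl⟩
    | some e =>
      rw [ho] at hB
      obtain ⟨⟨he1, he2, he3⟩, hB2⟩ := hB
      refine ⟨⟨e, he1, rfl, he3⟩, he2, ?_⟩
      rintro b ⟨d, hd, rfl, hl⟩ hb
      exact hB2 d ⟨hd, hb, hl⟩
  · have hT := (h_TANG D (goL D f) f.1 t hD hP.1).2
    have hTra : Tra (goL D f) (fun d => d ∈ t.toL ∧ d.s.1 < f.1 ∧ live D d.h = true) := by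
      intro a b c ha hb hc hab hbc
      have h4 := h_FOUR S D hS hD a.s (hmem a ha.1) b.s (hmem b hb.1) c.s (hmem c hc.1) f hf
        hab hbc hc.2.1
      unfold goL
      simp only [Bool.not_eq_true', Bool.not_eq_false']
      exact ⟨h4.2.2.2.1, h4.2.2.1⟩
    have hUni : Uni (goL D f) (fun d => d ∈ t.toL ∧ d.s.1 < f.1 ∧ live D d.h = true) := by
      intro a b c ha hb hc hab hbc h1
      have h4 := h_FOUR S D hS hD a.s (hmem a ha.1) b.s (hmem b hb.1) c.s (hmem c hc.1) f hf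
        hab hbc hc.2.1
      unfold goL at h1 ⊢
      simp only [Bool.not_eq_true'] at h1 ⊢
      exact h4.2.2.2.2.2 (A_ONE_.alive h_LIV hD hP ha.1 hb.1 hc.1 hb.2.2 hab hbc) h1
    have hB := hT hTra hUni
    cases ho : tanLt D (goL D f) f.1 t with
    | none =>
      rw [ho] at hB
      intro s hs
      obtain ⟨d, hd, rfl, hl⟩ := hs
      by_contra hlt
      exact hB d ⟨hd, not_le.1 hlt, hl⟩
    | some e =>
      rw [ho] at hB
      obtain ⟨⟨he1, he2, he3⟩, hB2⟩ := hB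
      refine ⟨⟨e, he1, rfl, he3⟩, he2, ?_⟩
      rintro b ⟨d, hd, rfl, hl⟩ hb
      have := hB2 d ⟨hd, hb, hl⟩
      unfold goL at this
      simp only [Bool.not_eq_true', Bool.not_eq_false'] at this
      exact this

end Pool.Agent.EVD
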