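import Pool.Agent.EVD.TA

/-! # EVD, target A_OWN: own live sites of the parts -/

set_option autoImplicit false

namespace Pool.Agent.EVD

/-- Target A_OWN. -/
theorem p_A_OWN (h_LIV : T_LIV) : T_A_OWN := by
  intro S ps
  induction ps generalizing S with
  | nil =>
    intro h
    have hS : S = ∅ := h
    subst hS
    refine ⟨Set.finite_empty, ?_, ?_, ?_⟩
    · rintro D b ⟨t, ht, -⟩
      simp at ht
    · intro D _ s hs
      exact absurd hs.1 (Set.notMem_empty s)
    · ext b
      constructor
      · rintro ⟨t, ht, -⟩
        simp at ht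
      · intro hb
        exact absurd hb (Set.notMem_empty b)
  | cons t ts ih =>
    rintro ⟨N, S', rfl, hN, hS'⟩
    obtain ⟨hfin, hsub, hal, hall⟩ := ih S' hS'
    obtain ⟨htree, hsites, hh⟩ := hN
    have hNfin : N.Finite := by
      rw [← hsites]
      have : sites t.toL = (fun d : Lf ℝ => d.s) '' {d | d ∈ t.toL} := by
        ext p
        simp [sites]
      rw [this]
      exact (List.finite_toSet t.toL).image _
    refine ⟨hNfin.union hfin, ?_, ?_, ?_⟩
    · rintro D b ⟨t', ht', d, hd, hdb, hl⟩
      rcases List.mem_cons.1 ht' with h | h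
      · left
        rw [← hsites]
        rw [h] at hd
        exact ⟨d, hd, hdb⟩
      · right
        exact hsub D ⟨t', h, d, hd, hdb, hl⟩
    · intro D hD s hs
      rcases hs.1 with h | h
      · have hs1 : Al D N s := hs.mono Set.subset_union_left h
        have h2 : s ∈ sites t.toL := by rw [hsites]; exact h
        obtain ⟨d, hd, hds⟩ := h2
        have h3 := hh d hd
        rw [hds] at h3
        exact ⟨t, List.mem_cons_self, d, hd, hds, (h_LIV N D s d.h hD h h3).1 hs1⟩
      · have hs1 : Al D S' s := hs.mono Set.subset_union_right h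
        obtain ⟨t', ht', d, hd, hds, hl⟩ := hal D hD s hs1
        exact ⟨t', List.mem_cons_of_mem _ ht', d, hd, hds, hl⟩
    · ext b
      constructor
      · rintro ⟨t', ht', d, hd, hdb, hl⟩
        rcases List.mem_cons.1 ht' with h | h
        · left
          rw [← hsites]
          rw [h] at hd
          exact ⟨d, hd, hdb⟩
        · right
          exact hsub _ ⟨t', h, d, hd, hdb, hl⟩
      · rintro (hb | hb)
        · rw [← hsites] at hb
          obtain ⟨d, hd, hdb⟩ := hb
          refine ⟨t, List.mem_cons_self, d, hd, hdb, ?_⟩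
          cases d.h <;> rfl
        · rw [← hall] at hb
          obtain ⟨t', ht', d, hd, hds, hl⟩ := hb
          exact ⟨t', List.mem_cons_of_mem _ ht', d, hd, hds, hl⟩

end Pool.Agent.EVD
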