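import Pool.Agent.EVD.TA

/-! # EVD: tree of a part (target `T_A_PART`) -/

set_option autoImplicit false

namespace Pool.Agent.EVD

theorem p_A_PART (h_BLD : T_A_BLD) (h_LF : T_A_LF) : T_A_PART := by
  intro N ps l hN hps hl hmem hne
  have hne' : l.map (mkLf ps) ≠ [] := by
    intro h
    exact hne (List.map_eq_nil_iff.1 h)
  obtain ⟨t, ht, hwf, htl, hdep⟩ := h_BLD.2 (l.map (mkLf ps)) hne'
  rw [List.length_map] at hdep
  have hs : ∀ f ∈ l, (mkLf ps f).s = f := fun f hf => (h_LF N ps f hN hps ((hmem f).1 hf)).1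
  refine ⟨t, ht, ⟨⟨hwf, ?_⟩, ?_, ?_⟩, htl, hdep⟩
  · rw [htl]
    unfold Srt
    rw [List.pairwise_map]
    refine List.Pairwise.imp_of_mem ?_ hl
    intro a b ha hb hab
    rw [hs a ha, hs b hb]
    exact hab
  · rw [htl]
    ext p
    simp only [sites, List.mem_map, Set.mem_setOf_eq]
    constructor
    · rintro ⟨d, ⟨f, hf, rfl⟩, rfl⟩
      rw [hs f hf]
      exact (hmem f).1 hf
    · intro hp
      exact ⟨mkLf ps p, ⟨p, (hmem p).2 hp, rfl⟩, hs p ((hmem p).2 hp)⟩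
  · rw [htl]
    intro d hd
    obtain ⟨f, hf, rfl⟩ := List.mem_map.1 hd
    exact (h_LF N ps f hN hps ((hmem f).1 hf)).2.2.1

end Pool.Agent.EVD
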