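import Pool.Agent.EVD.TA

/-! # EVD: merging right tangents -/

namespace Pool.Agent.EVD

namespace A_PKR_

/-- the conditions on the candidate `c` for the sites of `A` -/
def Ok (D : ℝ → Bool) (f : P) (A : Set P) (c : P) : Prop :=
  ∀ b ∈ A, f.1 < b.1 →
    (b.1 < c.1 → D (cc f b c) = false) ∧ (c.1 < b.1 → D (cc f c b) = true)

theorem union {D : ℝ → Bool} {f : P} {A B : Set P} {c : P} (h1 : Ok D f A c) (h2 : Ok D f B c) :
    Ok D f (A ∪ B) c := by
  intro b hb
  rcases hb with hb | hb
  · exact h1 b hb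
  · exact h2 b hb

theorem void {D : ℝ → Bool} {f : P} {A : Set P} {c : P} (h : ∀ s ∈ A, s.1 ≤ f.1) :
    Ok D f A c := fun b hb h1 => absurd (h b hb) (not_le.2 h1)

theorem first (h4 : T_A_FOUR) {S A : Set P} {D : ℝ → Bool} {f a b : P} (hS : Chn S) (hD : Cut D)
    (hf : f ∈ S) (hA : A ⊆ S) (ha : a ∈ S) (hb : b ∈ A) (hOk : Ok D f A b) (hfa : f.1 < a.1)
    (hab : a.1 < b.1) (hd : D (cc f a b) = true) : Ok D f A a := by
  intro s hs hfs
  have hO := hOk s hs hfs
  refine ⟨fun h1 => ?_, fun h1 => ?_⟩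
  · have h2 := hO.1 (h1.trans hab)
    have h3 := (h4 S D hS hD f hf s (hA hs) a ha b (hA hb) hfs h1 hab).1
    by_contra h5
    rw [Bool.not_eq_false] at h5
    rw [h3 h5 hd] at h2
    exact Bool.noConfusion h2
  · rcases lt_trichotomy s.1 b.1 with h2 | h2 | h2
    · have h3 := hO.1 h2
      have h5 := (h4 S D hS hD f hf a ha s (hA hs) b (hA hb) hfa h1 h2).2.1
      by_contra h6
      rw [Bool.not_eq_true] at h6
      rw [h5 h6 h3] at hd
      exact Bool.noConfusion hd
    · rw [hS.1 s (hA hs) b (hA hb) h2]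
      exact hd
    · have h3 := hO.2 h2
      exact (h4 S D hS hD f hf a ha b (hA hb) s (hA hs) hfa hab h2).1 hd h3

theorem second (h4 : T_A_FOUR) {S A : Set P} {D : ℝ → Bool} {f a b : P} (hS : Chn S)
    (hD : Cut D) (hf : f ∈ S) (hA : A ⊆ S) (ha : a ∈ A) (hb : b ∈ S) (hOk : Ok D f A a)
    (hfa : f.1 < a.1) (hab : a.1 < b.1) (hd : D (cc f a b) = false) : Ok D f A b := by
  intro s hs hfs
  have hO := hOk s hs hfs
  refine ⟨fun h1 => ?_, fun h1 => ?_⟩
  · rcases lt_trichotomy s.1 a.1 with h2 | h2 | h2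
    · have h3 := hO.1 h2
      exact (h4 S D hS hD f hf s (hA hs) a (hA ha) b hb hfs h2 hab).2.1 h3 hd
    · rw [hS.1 s (hA hs) a (hA ha) h2]
      exact hd
    · have h3 := hO.2 h2
      by_contra h6
      rw [Bool.not_eq_false] at h6
      rw [(h4 S D hS hD f hf a (hA ha) s (hA hs) b hb hfa h2 h1).1 h3 h6] at hd
      exact Bool.noConfusion hd
  · have h3 := hO.2 (hab.trans h1)
    by_contra h6
    rw [Bool.not_eq_true] at h6
    rw [(h4 S D hS hD f hf a (hA ha) b hb s (hA hs) hfa hab h1).2.1 hd h6] at h3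
    exact Bool.noConfusion h3

end A_PKR_

open A_PKR_

theorem p_A_PKR (h_FOUR : T_A_FOUR) : T_A_PKR := by
  intro S A1 A2 D f o1 o2 hS hD hf h1 h2 hO1 hO2
  rcases o1 with _ | a
  · rcases o2 with _ | b
    · intro s hs
      rcases hs with hs | hs
      · exact hO1 s hs
      · exact hO2 s hs
    · exact ⟨Or.inr hO2.1, hO2.2.1, union (void hO1) hO2.2.2⟩
  · rcases o2 with _ | b
    · exact ⟨Or.inl hO1.1, hO1.2.1, union hO1.2.2 (void hO2)⟩
    · obtain ⟨ha, hfa, hOa⟩ := hO1
      obtain ⟨hb, hfb, hOb⟩ := hO2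
      rcases lt_trichotomy a.s.1 b.s.1 with h3 | h3 | h3
      · by_cases hg : D (cc f a.s b.s) = true
        · have e : pickU (goR D f) (some a) (some b) = some a := by
            simp [pickU, h3, goR, hg]
          rw [e]
          exact ⟨Or.inl ha, hfa,
            union hOa (first h_FOUR hS hD hf h2 (h1 ha) hb hOb hfa h3 hg)⟩
        · have e : pickU (goR D f) (some a) (some b) = some b := by
            simp [pickU, h3, goR, hg]
          rw [e]
          rw [Bool.not_eq_true] at hg
          exact ⟨Or.inr hb, hfb,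
            union (second h_FOUR hS hD hf h1 ha (h2 hb) hOa hfa h3 hg) hOb⟩
      · have hab : a.s = b.s := hS.1 _ (h1 ha) _ (h2 hb) h3
        by_cases hg : D (cc f b.s a.s) = true
        · have e : pickU (goR D f) (some a) (some b) = some b := by
            simp [pickU, h3, goR, hg]
          rw [e]
          rw [hab] at hOa
          exact ⟨Or.inr hb, hfb, union hOa hOb⟩
        · have e : pickU (goR D f) (some a) (some b) = some a := by
            simp [pickU, h3, goR, hg]
          rw [e]
          rw [← hab] at hOb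
          exact ⟨Or.inl ha, hfa, union hOa hOb⟩
      · by_cases hg : D (cc f b.s a.s) = true
        · have e : pickU (goR D f) (some a) (some b) = some b := by
            simp [pickU, not_lt.2 h3.le, goR, hg]
          rw [e]
          exact ⟨Or.inr hb, hfb,
            union (first h_FOUR hS hD hf h1 (h2 hb) ha hOa hfb h3 hg) hOb⟩
        · have e : pickU (goR D f) (some a) (some b) = some a := by
            simp [pickU, not_lt.2 h3.le, goR, hg]
          rw [e]
          rw [Bool.not_eq_true] at hg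
          exact ⟨Or.inl ha, hfa,
            union hOa (second h_FOUR hS hD hf h2 hb (h1 ha) hOb hfb h3 hg)⟩

end Pool.Agent.EVD
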