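import Pool.Agent.EVD.TA

/-! # EVD: optimum over the leaves on one side of `x` -/

set_option autoImplicit false

namespace Pool.Agent.EVD

namespace A_TANG_

theorem best_congr {go : Lf ℝ → Lf ℝ → Bool} {A B : Lf ℝ → Prop} (h : ∀ d, A d ↔ B d)
    {o : Option (Lf ℝ)} (hb : Best go A o) : Best go B o := by
  cases o with
  | none => exact fun d hd => hb d ((h d).mpr hd)
  | some e => exact ⟨(h e).mp hb.1, fun d hd => hb.2 d ((h d).mpr hd)⟩

theorem pickB {go : Lf ℝ → Lf ℝ → Bool} {A A1 A2 : Lf ℝ → Prop} {o1 o2 : Option (Lf ℝ)}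
    (hT : Tra go A) (hA : ∀ d, A d ↔ A1 d ∨ A2 d)
    (hlr : ∀ a b, A1 a → A2 b → a.s.1 < b.s.1)
    (heq : ∀ a b, A a → A b → a.s.1 = b.s.1 → a = b)
    (h1 : Best go A1 o1) (h2 : Best go A2 o2) : Best go A (pick go o1 o2) := by
  cases o1 with
  | none =>
    refine best_congr (fun d => ?_) h2
    rw [hA d]
    exact ⟨Or.inr, fun h => h.resolve_left (h1 d)⟩
  | some a =>
    cases o2 with
    | none =>
      refine best_congr (fun d => ?_) h1
      rw [hA d]
      exact ⟨Or.inl, fun h => h.resolve_right (h2 d)⟩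
    | some b =>
      obtain ⟨ha, hba⟩ := h1
      obtain ⟨hb, hbb⟩ := h2
      have Aa : A a := (hA a).2 (Or.inl ha)
      have Ab : A b := (hA b).2 (Or.inr hb)
      have hab := hlr a b ha hb
      simp only [pick]
      by_cases hgo : go a b = true
      · rw [if_pos hgo]
        refine ⟨Aa, fun d hd => ?_⟩
        rcases (hA d).1 hd with h | h
        · exact hba d h
        · have had := hlr a d ha h
          refine ⟨fun h' => absurd h' (not_lt.mpr had.le), fun _ => ?_⟩
          rcases lt_trichotomy d.s.1 b.s.1 with h3 | h3 | h3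
          · have h4 := (hbb d h).1 h3
            by_contra hne
            rw [Bool.not_eq_true] at hne
            have h5 := (hT a d b Aa hd Ab had h3).2 hne h4
            rw [hgo] at h5
            exact Bool.noConfusion h5
          · rw [heq d b hd Ab h3]
            exact hgo
          · exact (hT a b d Aa Ab hd hab h3).1 hgo ((hbb d h).2 h3)
      · rw [if_neg hgo]
        rw [Bool.not_eq_true] at hgo
        refine ⟨Ab, fun d hd => ?_⟩
        rcases (hA d).1 hd with h | h
        · have hdb := hlr d b h hb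
          refine ⟨fun _ => ?_, fun h' => absurd h' (not_lt.mpr hdb.le)⟩
          rcases lt_trichotomy d.s.1 a.s.1 with h3 | h3 | h3
          · exact (hT d a b hd Aa Ab h3 hab).2 ((hba d h).1 h3) hgo
          · rw [heq d a hd Aa h3]
            exact hgo
          · have h4 := (hba d h).2 h3
            by_contra hne
            rw [Bool.not_eq_false] at hne
            have h5 := (hT a d b Aa hd Ab h3 hdb).1 h4 hne
            rw [hgo] at h5
            exact Bool.noConfusion h5
        · exact hbb d h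

/-- the leaves of the left subtree are to the left of `r.fx` -/
theorem lt_fx {l r : TR ℝ} (h2 : TreeOK r) (h5 : ∀ a ∈ l.toL, ∀ b ∈ r.toL, a.s.1 < b.s.1) :
    ∀ a ∈ l.toL, a.s.1 < r.fx := by
  obtain ⟨b, hb, hb1⟩ := h2.fx_spec.1
  intro a ha
  rw [← hb1]
  exact h5 a ha b hb

theorem Tra.sub {go : Lf ℝ → Lf ℝ → Bool} {A B : Lf ℝ → Prop} (h : Tra go A)
    (hs : ∀ d, B d → A d) : Tra go B :=
  fun a b c ha hb hc => h a b c (hs a ha) (hs b hb) (hs c hc)

theorem Uni.sub {go : Lf ℝ → Lf ℝ → Bool} {A B : Lf ℝ → Prop} (h : Uni go A)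
    (hs : ∀ d, B d → A d) : Uni go B :=
  fun a b c ha hb hc => h a b c (hs a ha) (hs b hb) (hs c hc)

theorem gt (h_TANH : T_A_TANH) (D : ℝ → Bool) (hD : Cut D) (go : Lf ℝ → Lf ℝ → Bool) (x : ℝ)
    (t : TR ℝ) (hok : TreeOK t)
    (hT : Tra go (fun d => d ∈ t.toL ∧ x < d.s.1 ∧ live D d.h = true))
    (hU : Uni go (fun d => d ∈ t.toL ∧ x < d.s.1 ∧ live D d.h = true)) :
    Best go (fun d => d ∈ t.toL ∧ x < d.s.1 ∧ live D d.h = true) (tanGt D go x t) := by
  induction t with
  | leaf d =>
    simp only [tanGt, TR.toL, List.mem_singleton]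
    split
    · rename_i hx
      split
      · rename_i hl
        refine ⟨⟨rfl, hx, hl⟩, fun e he => ?_⟩
        rw [he.1]
        exact ⟨fun h => absurd h (lt_irrefl _), fun h => absurd h (lt_irrefl _)⟩
      · rename_i hl
        rintro e ⟨rfl, -, h⟩
        exact hl h
    · rename_i hx
      rintro e ⟨rfl, h, -⟩
      exact hx h
  | node am fx l r ihl ihr =>
    obtain ⟨h1, h2, h3, h4, h5⟩ := hok.split
    have hlf := lt_fx h2 h5
    have meml : ∀ d, d ∈ l.toL → d ∈ (TR.node am fx l r).toL := fun d hd => by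
      simp only [TR.toL, List.mem_append]; exact Or.inl hd
    have memr : ∀ d, d ∈ r.toL → d ∈ (TR.node am fx l r).toL := fun d hd => by
      simp only [TR.toL, List.mem_append]; exact Or.inr hd
    have mem : ∀ d, d ∈ (TR.node am fx l r).toL → d ∈ l.toL ∨ d ∈ r.toL := fun d hd => by
      simpa only [TR.toL, List.mem_append] using hd
    have hsl : ∀ d, (d ∈ l.toL ∧ x < d.s.1 ∧ live D d.h = true) →
        (d ∈ (TR.node am fx l r).toL ∧ x < d.s.1 ∧ live D d.h = true) :=
      fun d hd => ⟨meml d hd.1, hd.2⟩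
    have hsr : ∀ d, (d ∈ r.toL ∧ x < d.s.1 ∧ live D d.h = true) →
        (d ∈ (TR.node am fx l r).toL ∧ x < d.s.1 ∧ live D d.h = true) :=
      fun d hd => ⟨memr d hd.1, hd.2⟩
    simp only [tanGt]
    split
    · rename_i hx
      have hsr' : ∀ d, (d ∈ r.toL ∧ live D d.h = true) →
          (d ∈ (TR.node am fx l r).toL ∧ x < d.s.1 ∧ live D d.h = true) :=
        fun d hd => ⟨memr d hd.1, lt_of_lt_of_le hx (h2.fx_spec.2 d hd.1), hd.2⟩
      refine pickB (A1 := fun d => d ∈ l.toL ∧ x < d.s.1 ∧ live D d.h = true)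
        (A2 := fun d => d ∈ r.toL ∧ live D d.h = true) hT ?_ ?_ ?_
        (ihl h1 (Tra.sub hT hsl) (Uni.sub hU hsl))
        (h_TANH D go r hD h2 (Tra.sub hT hsr') (Uni.sub hU hsr'))
      · intro d
        constructor
        · rintro ⟨h, h6, h7⟩
          rcases mem d h with h | h
          · exact Or.inl ⟨h, h6, h7⟩
          · exact Or.inr ⟨h, h7⟩
        · rintro (h | h)
          · exact hsl d h
          · exact hsr' d h
      · exact fun a b ha hb => h5 a ha.1 b hb.1
      · exact fun a b ha hb e => hok.2.eq ha.1 hb.1 e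
    · rename_i hx
      refine best_congr (fun d => ?_) (ihr h2 (Tra.sub hT hsr) (Uni.sub hU hsr))
      constructor
      · exact hsr d
      · rintro ⟨h, h6, h7⟩
        rcases mem d h with h | h
        · exact absurd (lt_trans h6 (hlf d h)) hx
        · exact ⟨h, h6, h7⟩

theorem lt (h_TANH : T_A_TANH) (D : ℝ → Bool) (hD : Cut D) (go : Lf ℝ → Lf ℝ → Bool) (x : ℝ)
    (t : TR ℝ) (hok : TreeOK t)
    (hT : Tra go (fun d => d ∈ t.toL ∧ d.s.1 < x ∧ live D d.h = true))
    (hU : Uni go (fun d => d ∈ t.toL ∧ d.s.1 < x ∧ live D d.h = true)) :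
    Best go (fun d => d ∈ t.toL ∧ d.s.1 < x ∧ live D d.h = true) (tanLt D go x t) := by
  induction t with
  | leaf d =>
    simp only [tanLt, TR.toL, List.mem_singleton]
    split
    · rename_i hx
      split
      · rename_i hl
        refine ⟨⟨rfl, hx, hl⟩, fun e he => ?_⟩
        rw [he.1]
        exact ⟨fun h => absurd h (lt_irrefl _), fun h => absurd h (lt_irrefl _)⟩
      · rename_i hl
        rintro e ⟨rfl, -, h⟩
        exact hl h
    · rename_i hx
      rintro e ⟨rfl, h, -⟩
      exact hx h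
  | node am fx l r ihl ihr =>
    obtain ⟨h1, h2, h3, h4, h5⟩ := hok.split
    have hlf := lt_fx h2 h5
    have meml : ∀ d, d ∈ l.toL → d ∈ (TR.node am fx l r).toL := fun d hd => by
      simp only [TR.toL, List.mem_append]; exact Or.inl hd
    have memr : ∀ d, d ∈ r.toL → d ∈ (TR.node am fx l r).toL := fun d hd => by
      simp only [TR.toL, List.mem_append]; exact Or.inr hd
    have mem : ∀ d, d ∈ (TR.node am fx l r).toL → d ∈ l.toL ∨ d ∈ r.toL := fun d hd => by
      simpa only [TR.toL, List.mem_append] using hd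
    have hsl : ∀ d, (d ∈ l.toL ∧ d.s.1 < x ∧ live D d.h = true) →
        (d ∈ (TR.node am fx l r).toL ∧ d.s.1 < x ∧ live D d.h = true) :=
      fun d hd => ⟨meml d hd.1, hd.2⟩
    have hsr : ∀ d, (d ∈ r.toL ∧ d.s.1 < x ∧ live D d.h = true) →
        (d ∈ (TR.node am fx l r).toL ∧ d.s.1 < x ∧ live D d.h = true) :=
      fun d hd => ⟨memr d hd.1, hd.2⟩
    simp only [tanLt]
    split
    · rename_i hx
      have hsl' : ∀ d, (d ∈ l.toL ∧ live D d.h = true) →
          (d ∈ (TR.node am fx l r).toL ∧ d.s.1 < x ∧ live D d.h = true) :=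
        fun d hd => ⟨meml d hd.1, lt_trans (hlf d hd.1) hx, hd.2⟩
      refine pickB (A1 := fun d => d ∈ l.toL ∧ live D d.h = true)
        (A2 := fun d => d ∈ r.toL ∧ d.s.1 < x ∧ live D d.h = true) hT ?_ ?_ ?_
        (h_TANH D go l hD h1 (Tra.sub hT hsl') (Uni.sub hU hsl'))
        (ihr h2 (Tra.sub hT hsr) (Uni.sub hU hsr))
      · intro d
        constructor
        · rintro ⟨h, h6, h7⟩
          rcases mem d h with h | h
          · exact Or.inl ⟨h, h7⟩
          · exact Or.inr ⟨h, h6, h7⟩
        · rintro (h | h)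
          · exact hsl' d h
          · exact hsr d h
      · exact fun a b ha hb => h5 a ha.1 b hb.1
      · exact fun a b ha hb e => hok.2.eq ha.1 hb.1 e
    · rename_i hx
      refine best_congr (fun d => ?_) (ihl h1 (Tra.sub hT hsl) (Uni.sub hU hsl))
      constructor
      · exact hsl d
      · rintro ⟨h, h6, h7⟩
        rcases mem d h with h | h
        · exact ⟨h, h6, h7⟩
        · exact absurd (lt_of_le_of_lt (h2.fx_spec.2 d h) h6) hx

end A_TANG_

theorem p_A_TANG (h_TANH : T_A_TANH) : T_A_TANG := fun D go x t hD hok =>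
  ⟨fun hT hU => A_TANG_.gt h_TANH D hD go x t hok hT hU,
    fun hT hU => A_TANG_.lt h_TANH D hD go x t hok hT hU⟩

end Pool.Agent.EVD
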