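import Pool.Agent.EVD.TA

set_option autoImplicit false

namespace Pool.Agent.EVD

namespace A_TANH_

theorem best_congr {go : Lf ℝ → Lf ℝ → Bool} {A B : Lf ℝ → Prop} (h : ∀ d, A d ↔ B d)
    {o : Option (Lf ℝ)} (hb : Best go A o) : Best go B o := by
  cases o with
  | none => exact fun d hd => hb d ((h d).mpr hd)
  | some e => exact ⟨(h e).mp hb.1, fun d hd => hb.2 d ((h d).mpr hd)⟩

end A_TANH_

open A_TANH_ in
theorem p_A_TANH (h_LAST : T_A_LAST) : T_A_TANH := by
  intro D go t hD
  induction t with
  | leaf d =>
    intro _ _ _
    simp only [tanH]
    split
    · rename_i hl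
      refine ⟨⟨by simp [TR.toL], hl⟩, fun e he => ?_⟩
      have : e = d := by simpa [TR.toL] using he.1
      subst this
      exact ⟨fun h => absurd h (lt_irrefl _), fun h => absurd h (lt_irrefl _)⟩
    · rename_i hl
      intro e he
      have : e = d := by simpa [TR.toL] using he.1
      subst this
      exact hl he.2
  | node am fx l r ihl ihr =>
    intro hok hT hU
    obtain ⟨hl, hr, -, -, hlr⟩ := hok.split
    have hsrt : Srt (TR.node am fx l r).toL := hok.2
    have meml : ∀ d, d ∈ l.toL → d ∈ (TR.node am fx l r).toL := fun d hd => by
      simp only [TR.toL, List.mem_append]; exact Or.inl hd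
    have memr : ∀ d, d ∈ r.toL → d ∈ (TR.node am fx l r).toL := fun d hd => by
      simp only [TR.toL, List.mem_append]; exact Or.inr hd
    have mem : ∀ d, d ∈ (TR.node am fx l r).toL → d ∈ l.toL ∨ d ∈ r.toL := fun d hd => by
      simpa only [TR.toL, List.mem_append] using hd
    have hTl : Tra go (fun d => d ∈ l.toL ∧ live D d.h = true) :=
      fun a b c ha hb hc => hT a b c ⟨meml a ha.1, ha.2⟩ ⟨meml b hb.1, hb.2⟩ ⟨meml c hc.1, hc.2⟩
    have hTr : Tra go (fun d => d ∈ r.toL ∧ live D d.h = true) :=
      fun a b c ha hb hc => hT a b c ⟨memr a ha.1, ha.2⟩ ⟨memr b hb.1, hb.2⟩ ⟨memr c hc.1, hc.2⟩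
    have hUl : Uni go (fun d => d ∈ l.toL ∧ live D d.h = true) :=
      fun a b c ha hb hc => hU a b c ⟨meml a ha.1, ha.2⟩ ⟨meml b hb.1, hb.2⟩ ⟨meml c hc.1, hc.2⟩
    have hUr : Uni go (fun d => d ∈ r.toL ∧ live D d.h = true) :=
      fun a b c ha hb hc => hU a b c ⟨memr a ha.1, ha.2⟩ ⟨memr b hb.1, hb.2⟩ ⟨memr c hc.1, hc.2⟩
    have Bl := ihl hl hTl hUl
    have Br := ihr hr hTr hUr
    have hLa := (h_LAST D l hD hl).1
    have hFi := (h_LAST D r hD hr).2
    simp only [tanH]
    cases hla : lastA D l with
    | none =>
      rw [hla] at hLa
      simp only
      refine best_congr (fun d => ?_) Br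
      constructor
      · exact fun hd => ⟨memr d hd.1, hd.2⟩
      · rintro ⟨hd, hlive⟩
        rcases mem d hd with h | h
        · have := hLa d h trivial
          rw [this] at hlive
          exact Bool.noConfusion hlive
        · exact ⟨h, hlive⟩
    | some a =>
      rw [hla] at hLa
      obtain ⟨hal, -, haL, hamax⟩ := hLa
      cases hfi : firstA D r with
      | none =>
        rw [hfi] at hFi
        simp only
        refine best_congr (fun d => ?_) Bl
        constructor
        · exact fun hd => ⟨meml d hd.1, hd.2⟩
        · rintro ⟨hd, hlive⟩
          rcases mem d hd with h | h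
          · exact ⟨h, hlive⟩
          · have := hFi d h trivial
            rw [this] at hlive
            exact Bool.noConfusion hlive
      | some b =>
        rw [hfi] at hFi
        obtain ⟨hbr, -, hbL, hbmin⟩ := hFi
        simp only
        have hab : a.s.1 < b.s.1 := hlr a hal b hbr
        have Aa : a ∈ (TR.node am fx l r).toL ∧ live D a.h = true := ⟨meml a hal, haL⟩
        have Ab : b ∈ (TR.node am fx l r).toL ∧ live D b.h = true := ⟨memr b hbr, hbL⟩
        by_cases hgo : go a b = true
        · rw [if_pos hgo]
          cases ho : tanH D go l with
          | none =>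
            rw [ho] at Bl
            exact absurd ⟨hal, haL⟩ (Bl a)
          | some e =>
            rw [ho] at Bl
            obtain ⟨⟨hel, heL⟩, hbest⟩ := Bl
            have Ae : e ∈ (TR.node am fx l r).toL ∧ live D e.h = true := ⟨meml e hel, heL⟩
            refine ⟨Ae, fun d hd => ?_⟩
            rcases mem d hd.1 with h | h
            · exact hbest d ⟨h, hd.2⟩
            · have hed : e.s.1 < d.s.1 := hlr e hel d h
              refine ⟨fun h' => absurd h' (not_lt.mpr hed.le), fun _ => ?_⟩
              -- go a d
              have had : go a d = true := by
                rcases lt_trichotomy d.s.1 b.s.1 with h1 | h1 | h1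
                · have := hbmin d h trivial h1
                  have hd2 : live D d.h = true := hd.2
                  rw [this] at hd2
                  exact Bool.noConfusion hd2
                · have : d = b := hsrt.eq hd.1 Ab.1 h1
                  rw [this]; exact hgo
                · have h2 := hU a b d Aa Ab hd hab h1 hgo
                  exact (hT a b d Aa Ab hd hab h1).1 hgo h2
              rcases lt_trichotomy e.s.1 a.s.1 with h1 | h1 | h1
              · have h2 := (hbest a ⟨hal, haL⟩).2 h1
                exact (hT e a d Ae Aa hd h1 (hlr a hal d h)).1 h2 had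
              · have : e = a := hsrt.eq Ae.1 Aa.1 h1
                rw [this]; exact had
              · have := hamax e hel trivial h1
                rw [this] at heL
                exact Bool.noConfusion heL
        · rw [if_neg hgo]
          rw [Bool.not_eq_true] at hgo
          cases ho : tanH D go r with
          | none =>
            rw [ho] at Br
            exact absurd ⟨hbr, hbL⟩ (Br b)
          | some e =>
            rw [ho] at Br
            obtain ⟨⟨her, heL⟩, hbest⟩ := Br
            have Ae : e ∈ (TR.node am fx l r).toL ∧ live D e.h = true := ⟨memr e her, heL⟩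
            refine ⟨Ae, fun d hd => ?_⟩
            rcases mem d hd.1 with h | h
            · have hde : d.s.1 < e.s.1 := hlr d h e her
              refine ⟨fun _ => ?_, fun h' => absurd h' (not_lt.mpr hde.le)⟩
              have hdb : go d b = false := by
                rcases lt_trichotomy d.s.1 a.s.1 with h1 | h1 | h1
                · have h2 : go d a = false := by
                    by_contra hne
                    rw [Bool.not_eq_false] at hne
                    have := hU d a b hd Aa Ab h1 hab hne
                    rw [hgo] at this
                    exact Bool.noConfusion this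
                  exact (hT d a b hd Aa Ab h1 hab).2 h2 hgo
                · have : d = a := hsrt.eq hd.1 Aa.1 h1
                  rw [this]; exact hgo
                · have := hamax d h trivial h1
                  have hd2 : live D d.h = true := hd.2
                  rw [this] at hd2
                  exact Bool.noConfusion hd2
              rcases lt_trichotomy e.s.1 b.s.1 with h1 | h1 | h1
              · have := hbmin e her trivial h1
                rw [this] at heL
                exact Bool.noConfusion heL
              · have : e = b := hsrt.eq Ae.1 Ab.1 h1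
                rw [this]; exact hdb
              · have h2 := (hbest b ⟨hbr, hbL⟩).1 h1
                exact (hT d b e hd Ab Ae (hlr d h b hbr) h1).2 hdb h2
            · exact hbest d ⟨h, hd.2⟩

end Pool.Agent.EVD
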