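import Pool.Agent.EVD.TA

/-!
# EVD: A_TANL (left tangent over all parts)
-/

set_option autoImplicit false

namespace Pool.Agent.EVD

namespace A_TANL_

theorem own_sub {D : ℝ → Bool} (ps : List (TR ℝ)) (S : Set P) (h : PartsOK S ps) :
    Own D ps ⊆ S := by
  induction ps generalizing S with
  | nil =>
      rintro b ⟨t, ht, _⟩
      simp at ht
  | cons t ts ih =>
      obtain ⟨N, S', rfl, hN, hS'⟩ := h
      rintro b ⟨t', ht', d, hd, hb, hl⟩
      rcases List.mem_cons.1 ht' with rfl | ht'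
      · left
        rw [← hN.2.1]
        exact ⟨d, hd, hb⟩
      · right
        exact ih S' hS' ⟨t', ht', d, hd, hb, hl⟩

theorem own_cons (D : ℝ → Bool) (t : TR ℝ) (ts : List (TR ℝ)) :
    Own D (t :: ts) = {b | ∃ d ∈ t.toL, d.s = b ∧ live D d.h = true} ∪ Own D ts := by
  ext b
  constructor
  · rintro ⟨t', ht', d, hd, hb, hl⟩
    rcases List.mem_cons.1 ht' with rfl | ht'
    · exact Or.inl ⟨d, hd, hb, hl⟩
    · exact Or.inr ⟨t', ht', d, hd, hb, hl⟩
  · rintro (⟨d, hd, hb, hl⟩ | ⟨t', ht', d, hd, hb, hl⟩)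
    · exact ⟨t, List.mem_cons_self, d, hd, hb, hl⟩
    · exact ⟨t', List.mem_cons_of_mem _ ht', d, hd, hb, hl⟩

theorem pickU_none {go : Lf ℝ → Lf ℝ → Bool} {o1 o2 : Option (Lf ℝ)}
    (h : pickU go o1 o2 = none) : o1 = none ∧ o2 = none := by
  cases o1 with
  | none => exact ⟨rfl, by simpa [pickU] using h⟩
  | some a =>
      cases o2 with
      | none => simp [pickU] at h
      | some b =>
          simp only [pickU] at h
          split_ifs at h

theorem leftmost {N : Set P} {t : TR ℝ} (h : PartOK N t) :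
    ∃ d ∈ t.toL, d.h = none ∧ ∀ s ∈ N, d.s.1 ≤ s.1 := by
  obtain ⟨hT, hs, hh⟩ := h
  obtain ⟨⟨d, hd, hd1⟩, hmin⟩ := hT.fx_spec
  have hle : ∀ s ∈ N, d.s.1 ≤ s.1 := by
    intro s hsN
    rw [← hs] at hsN
    obtain ⟨e, he, rfl⟩ := hsN
    rw [hd1]
    exact hmin e he
  refine ⟨d, hd, ?_, hle⟩
  have h1 := hh d hd
  cases hdh : d.h with
  | none => rfl
  | some r =>
      rw [hdh] at h1
      obtain ⟨⟨a, ha, c, hc, hac, _⟩, _⟩ := h1
      exact absurd hac (not_lt.2 (hle a ha))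

end A_TANL_

theorem p_A_TANL (h_A_ONE : T_A_ONE) (h_A_PKL : T_A_PKL) : T_A_TANL := by
  intro S S' ps D f hS hf hS' hP hD
  induction ps generalizing S' with
  | nil =>
      have e : S' = ∅ := hP
      subst e
      refine ⟨?_, fun _ s hs => absurd hs (Set.notMem_empty s)⟩
      show ∀ s ∈ Own D [], f.1 ≤ s.1
      rintro s ⟨t, ht, _⟩
      simp at ht
  | cons t ts ih =>
      obtain ⟨N, S'', rfl, hN, hS''⟩ := hP
      have hNS : N ⊆ S := fun x hx => hS' (Or.inl hx)
      have hSS : S'' ⊆ S := fun x hx => hS' (Or.inr hx)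
      have ih' := ih S'' hSS hS''
      have h1 := (h_A_ONE S N D f t hS hD hf hNS hN).2
      have hA1 : {b : P | ∃ d ∈ t.toL, d.s = b ∧ live D d.h = true} ⊆ S := by
        rintro b ⟨d, hd, hb, _⟩
        apply hNS
        rw [← hN.2.1]
        exact ⟨d, hd, hb⟩
      have hA2 : Own D ts ⊆ S := fun x hx => hSS (A_TANL_.own_sub ts S'' hS'' hx)
      have h2 := h_A_PKL S _ _ D f _ _ hS hD hf hA1 hA2 h1 ih'.1
      refine ⟨?_, ?_⟩
      · rw [A_TANL_.own_cons]
        exact h2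
      · intro hnone
        have hn : pickU (goL D f) (tanLt D (goL D f) f.1 t) (tanL D f ts) = none := hnone
        obtain ⟨hn1, hn2⟩ := A_TANL_.pickU_none hn
        rintro s (hs | hs)
        · obtain ⟨d, hd, hdh, hle⟩ := A_TANL_.leftmost hN
          rw [hn1] at h1
          have h3 : f.1 ≤ d.s.1 := h1 d.s ⟨d, hd, rfl, by rw [hdh]; rfl⟩
          exact h3.trans (hle s hs)
        · exact ih'.2 hn2 s hs

end Pool.Agent.EVD
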