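import Pool.Agent.EVD.TA

set_option autoImplicit false

namespace Pool.Agent.EVD

namespace A_TANR_

/-- the live sites of one part -/
def L1 (D : ℝ → Bool) (t : TR ℝ) : Set P := {b | ∃ d ∈ t.toL, d.s = b ∧ live D d.h = true}

theorem own_cons (D : ℝ → Bool) (t : TR ℝ) (ts : List (TR ℝ)) :
    Own D (t :: ts) = L1 D t ∪ Own D ts := by
  ext b
  constructor
  · rintro ⟨t', ht', d, hd, h1, h2⟩
    rcases List.mem_cons.1 ht' with h | h
    · subst h
      exact Or.inl ⟨d, hd, h1, h2⟩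
    · exact Or.inr ⟨t', h, d, hd, h1, h2⟩
  · rintro (⟨d, hd, h1, h2⟩ | ⟨t', h, d, hd, h1, h2⟩)
    · exact ⟨t, List.mem_cons_self, d, hd, h1, h2⟩
    · exact ⟨t', List.mem_cons_of_mem _ h, d, hd, h1, h2⟩

theorem L1_sub {D : ℝ → Bool} {t : TR ℝ} {N : Set P} (h : PartOK N t) : L1 D t ⊆ N := by
  rintro b ⟨d, hd, h1, _⟩
  rw [← h.2.1]
  exact ⟨d, hd, h1⟩

theorem own_sub (D : ℝ → Bool) (ps : List (TR ℝ)) : ∀ S' : Set P, PartsOK S' ps →
    Own D ps ⊆ S' := by
  induction ps with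
  | nil =>
    rintro S' _ b ⟨t, ht, _⟩
    exact absurd ht (List.not_mem_nil)
  | cons t ts ih =>
    rintro S' ⟨N, S'', h1, h2, h3⟩
    rw [own_cons, h1]
    exact Set.union_subset_union (L1_sub h2) (ih S'' h3)

theorem mem_part {s : P} (ps : List (TR ℝ)) : ∀ S' : Set P, PartsOK S' ps → s ∈ S' →
    ∃ N, ∃ t ∈ ps, PartOK N t ∧ s ∈ N := by
  induction ps with
  | nil =>
    intro S' h hs
    have h' : S' = ∅ := h
    rw [h'] at hs
    exact absurd hs (Set.notMem_empty _)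
  | cons t ts ih =>
    rintro S' ⟨N, S'', h1, h2, h3⟩ hs
    rw [h1] at hs
    rcases hs with hs | hs
    · exact ⟨N, t, List.mem_cons_self, h2, hs⟩
    · obtain ⟨N', t', ht', h4, h5⟩ := ih S'' h3 hs
      exact ⟨N', t', List.mem_cons_of_mem _ ht', h4, h5⟩

end A_TANR_

open A_TANR_ in
theorem p_A_TANR (h_ONE : T_A_ONE) (h_PKR : T_A_PKR) : T_A_TANR := by
  intro S S' ps D f hS hf hSS hP hD
  have key : ∀ (ps : List (TR ℝ)) (S' : Set P), S' ⊆ S → PartsOK S' ps →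
      OptRo D f (Own D ps) (tanR D f ps) := by
    intro ps
    induction ps with
    | nil =>
      rintro S' _ _ s ⟨t, ht, _⟩
      exact absurd ht (List.not_mem_nil)
    | cons t ts ih =>
      intro S' hSS hP
      have hP' := hP
      obtain ⟨N, S'', h1, h2, h3⟩ := hP'
      have hN : N ⊆ S := fun x hx => hSS (h1 ▸ Or.inl hx)
      have hS'' : S'' ⊆ S := fun x hx => hSS (h1 ▸ Or.inr hx)
      rw [own_cons]
      exact h_PKR S (L1 D t) (Own D ts) D f _ _ hS hD hf ((L1_sub h2).trans hN)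
        ((own_sub D ts S'' h3).trans hS'') (h_ONE S N D f t hS hD hf hN h2).1 (ih S'' hS'' h3)
  refine ⟨key ps S' hSS hP, ?_⟩
  intro hnone s hs
  have h0 := key ps S' hSS hP
  rw [hnone] at h0
  obtain ⟨N, t, ht, hN, hsN⟩ := mem_part ps S' hP hs
  have hsN' := hsN
  rw [← hN.2.1] at hsN'
  obtain ⟨d0, hd0, hd0s⟩ := hsN'
  obtain ⟨d, hd, hmax⟩ := Set.exists_max_image {d : Lf ℝ | d ∈ t.toL} (fun d => d.s.1)
    (List.finite_toSet _) ⟨d0, hd0⟩
  have hh : d.h = none := by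
    have h1 := hN.2.2 d hd
    cases hdh : d.h with
    | none => rfl
    | some r =>
      rw [hdh] at h1
      obtain ⟨⟨a, _, c, hc, _, h4, _⟩, _⟩ := h1
      rw [← hN.2.1] at hc
      obtain ⟨e, he, hes⟩ := hc
      have h5 := hmax e he
      rw [hes] at h5
      exact absurd h4 (not_lt.2 h5)
  have h2 : d.s.1 ≤ f.1 := by
    refine h0 d.s ⟨t, ht, d, hd, rfl, ?_⟩
    rw [hh]
    rfl
  have h3 : s.1 ≤ d.s.1 := by
    have := hmax d0 hd0
    rw [hd0s] at this
    exact this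
  exact h3.trans h2

end Pool.Agent.EVD
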