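import Pool.Agent.EVD.TG

/-! # EVD: the death height from the tangents (DH) -/

namespace Pool.Agent.EVD

namespace DH_

/-- the arithmetic: slopes -/
theorem slopes {u v p q X Y Pp Q : ℝ} (hp : 0 < p) (hq : 0 < q) (hu : 0 < u) (hv : 0 < v)
    (h1 : Pp * q = Q * p) (h2 : Pp * u ≤ X * p) (h3 : Y * q ≤ Q * v) : Y * u ≤ X * v := by
  have hpq : 0 < p * q := mul_pos hp hq
  have e1 : Y * q * (u * p) ≤ Q * v * (u * p) := mul_le_mul_of_nonneg_right h3 (mul_pos hu hp).le
  have e2 : Pp * u * (q * v) ≤ X * p * (q * v) := mul_le_mul_of_nonneg_right h2 (mul_pos hq hv).le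
  have e3 : Q * v * (u * p) = Pp * u * (q * v) := by
    linear_combination (-(v * u)) * h1
  have e4 : Y * u * (p * q) ≤ X * v * (p * q) := by
    have : Y * u * (p * q) = Y * q * (u * p) := by ring
    rw [this]
    have : X * v * (p * q) = X * p * (q * v) := by ring
    rw [this]
    linarith
  exact le_of_mul_le_mul_right e4 hpq

end DH_

open DH_ in
/-- the death height -/
theorem p_DH (h_SUPL : T_SUPL) (h_SUPR : T_SUPR) (h_DET : T_DET) : T_DH := by
  intro S A D h f l r hfin hchn hf hH hD hA hAS hL hR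
  obtain ⟨⟨a, ha, c, hc, haf, hfc, hcc⟩, hmax⟩ := hH
  have hcut : Cut D := fun x x' hx hDx => (hD x').2 (hx.trans ((hD x).1 hDx))
  have hnear : Near D h := by
    intro x
    refine ⟨fun hx => (hD x).1 hx, fun hx => ?_⟩
    by_contra hlt
    have := (hD x).2 (not_le.1 hlt).le
    rw [this] at hx
    exact absurd hx (by decide)
  have hwal : Wal (some h) S f := by
    refine ⟨hf, fun t ht a ha c hc h1 h2 => ?_⟩
    have : h = t := Option.some.inj ht
    subst this
    exact hmax a ha c hc h1 h2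
  have hlS : l ∈ S := hAS hL.1
  have hrS : r ∈ S := hAS hR.1
  have hlf : l.1 < f.1 := hL.2.1
  have hfr : f.1 < r.1 := hR.2.1
  refine le_antisymm (hmax l hlS r hrS hlf hfr) ?_
  by_contra hlt
  have h1 := (h_DET l f r h (hchn.2 l hlS f hf r hrS hlf hfr)).1.1 (not_le.1 hlt)
  have h2 := (h_DET a f c h (hchn.2 a ha f hf c hc haf hfc)).2.2.1 hcc
  have h3 := h_SUPL S A D h f l hfin hchn hcut hnear hwal hA hAS hL a ha haf
  have h4 := h_SUPR S A D h f r hfin hchn hcut hnear hwal hA hAS hR c hc hfc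
  unfold Blw at h1
  have h5 := slopes (u := f.1 - l.1) (v := r.1 - f.1) (p := f.1 - a.1) (q := c.1 - f.1)
    (X := zl h f - zl h l) (Y := zl h r - zl h f) (Pp := zl h f - zl h a)
    (Q := zl h c - zl h f) (by linarith) (by linarith) (by linarith) (by linarith)
    (by linear_combination h2) h3 h4
  linarith [h5, h1]

end Pool.Agent.EVD
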