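import Pool.Agent.EVD.TG

/-! # EVD: squared distance and lift -/

namespace Pool.Agent.EVD

theorem p_DSQ : T_DSQ := by
  intro q s
  simp only [dsq, nsq, zl]
  ring

end Pool.Agent.EVD
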