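import Pool.Agent.EVD.TG

/-!
# EVD: lower hull lemma
-/

namespace Pool.Agent.EVD

namespace HF_

/-- the value of the chord at the abscissa `x` -/
noncomputable def vch (z : P → ℝ) (x : ℝ) (p : P × P) : ℝ :=
  (z p.1 * (p.2.1 - x) + z p.2 * (x - p.1.1)) / (p.2.1 - p.1.1)

theorem hull (S : Set P) (hS : S.Finite) (z : P → ℝ)
    (hd : ∀ a ∈ S, ∀ b ∈ S, a.1 = b.1 → a = b) {d a0 c0 : P} (hdS : d ∈ S)
    (ha0 : a0 ∈ S) (hc0 : c0 ∈ S) (h1 : a0.1 < d.1) (h2 : d.1 < c0.1)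
    (h3 : (z c0 - z a0) * (d.1 - a0.1) ≤ (z d - z a0) * (c0.1 - a0.1)) :
    ∃ (ε : P → ℝ) (g g' : P), g ∈ S ∧ g' ∈ S ∧ g.1 < d.1 ∧ d.1 < g'.1 ∧ (∀ s ∈ S, 0 ≤ ε s) ∧
      ε g = 0 ∧ ε g' = 0 ∧ (∀ s ∈ S, s.1 < g.1 → 0 < ε s) ∧ (∀ s ∈ S, g'.1 < s.1 → 0 < ε s) ∧
      ∀ a b c : P, (z b - z a) * (c.1 - a.1) - (z c - z a) * (b.1 - a.1) =
        ε b * (c.1 - a.1) - ε a * (c.1 - b.1) - ε c * (b.1 - a.1) := by
  obtain ⟨T, hT⟩ : ∃ T : Set (P × P),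
      T = {p | (p.1 ∈ S ∧ p.2 ∈ S) ∧ p.1.1 < d.1 ∧ d.1 < p.2.1} := ⟨_, rfl⟩
  have hTf : T.Finite := by
    rw [hT]
    exact (hS.prod hS).subset fun p hp => hp.1
  have hTn : T.Nonempty := by
    rw [hT]
    exact ⟨(a0, c0), ⟨ha0, hc0⟩, h1, h2⟩
  obtain ⟨⟨g0, g0'⟩, hg, hmin⟩ := Set.exists_min_image T (vch z d.1) hTf hTn
  rw [hT] at hg
  obtain ⟨⟨hg0, hg0'⟩, hl0, hr0⟩ := hg
  simp only at hg0 hg0' hl0 hr0
  obtain ⟨m, hm⟩ : ∃ m, m = vch z d.1 (g0, g0') := ⟨_, rfl⟩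
  obtain ⟨κ, hκ⟩ : ∃ κ, κ = (z g0' - z g0) / (g0'.1 - g0.1) := ⟨_, rfl⟩
  have hgg : 0 < g0'.1 - g0.1 := by linarith
  have hm' : m * (g0'.1 - g0.1) = z g0 * (g0'.1 - d.1) + z g0' * (d.1 - g0.1) := by
    rw [hm]
    unfold vch
    exact div_mul_cancel₀ _ hgg.ne'
  have hκ' : κ * (g0'.1 - g0.1) = z g0' - z g0 := by
    rw [hκ]
    exact div_mul_cancel₀ _ hgg.ne'
  obtain ⟨ε, hε⟩ : ∃ ε : P → ℝ, ε = fun s => z s - (m + κ * (s.1 - d.1)) := ⟨_, rfl⟩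
  have hz : ∀ s, z s = m + κ * (s.1 - d.1) + ε s := by
    intro s
    rw [hε]
    ring
  have e0 : ε g0 = 0 := by
    have h4 : ε g0 * (g0'.1 - g0.1) = 0 := by
      rw [hε]
      show (z g0 - (m + κ * (g0.1 - d.1))) * (g0'.1 - g0.1) = 0
      linear_combination -hm' - (g0.1 - d.1) * hκ'
    rcases mul_eq_zero.1 h4 with h | h
    · exact h
    · exact absurd h hgg.ne'
  have e0' : ε g0' = 0 := by
    have h4 : ε g0' * (g0'.1 - g0.1) = 0 := by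
      rw [hε]
      show (z g0' - (m + κ * (g0'.1 - d.1))) * (g0'.1 - g0.1) = 0
      linear_combination -hm' - (g0'.1 - d.1) * hκ'
    rcases mul_eq_zero.1 h4 with h | h
    · exact h
    · exact absurd h hgg.ne'
  have hmle : ∀ a ∈ S, ∀ c ∈ S, a.1 < d.1 → d.1 < c.1 →
      m * (c.1 - a.1) ≤ z a * (c.1 - d.1) + z c * (d.1 - a.1) := by
    intro a ha c hc h5 h6
    have h7 := hmin (a, c) (by rw [hT]; exact ⟨⟨ha, hc⟩, h5, h6⟩)
    rw [← hm] at h7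
    unfold vch at h7
    simp only at h7
    rwa [le_div_iff₀ (by linarith)] at h7
  have hnn : ∀ s ∈ S, 0 ≤ ε s := by
    intro s hs
    rcases lt_trichotomy s.1 d.1 with h | h | h
    · have h4 := hmle s hs g0' hg0' h hr0
      rw [hz s, hz g0', e0'] at h4
      have h5 : 0 ≤ ε s * (g0'.1 - d.1) := by linarith
      exact nonneg_of_mul_nonneg_left h5 (by linarith)
    · have hsd : s = d := hd s hs d hdS h
      rw [hsd]
      have h4 := hmle a0 ha0 c0 hc0 h1 h2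
      have h5 : 0 ≤ ε d * (c0.1 - a0.1) := by
        have h6 : ε d = z d - m := by
          rw [hε]
          ring
        rw [h6]
        linarith
      exact nonneg_of_mul_nonneg_left h5 (by linarith)
    · have h4 := hmle g0 hg0 s hs hl0 h
      rw [hz s, hz g0, e0] at h4
      have h5 : 0 ≤ ε s * (d.1 - g0.1) := by linarith
      exact nonneg_of_mul_nonneg_left h5 (by linarith)
  obtain ⟨Z, hZ⟩ : ∃ Z : Set P, Z = {s | s ∈ S ∧ ε s = 0} := ⟨_, rfl⟩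
  have hZf : Z.Finite := by
    rw [hZ]
    exact hS.subset fun s hs => hs.1
  have hZn : Z.Nonempty := by
    rw [hZ]
    exact ⟨g0, hg0, e0⟩
  obtain ⟨g, hgZ, hgmin⟩ := Set.exists_min_image Z (fun s => s.1) hZf hZn
  obtain ⟨g', hgZ', hgmax⟩ := Set.exists_max_image Z (fun s => s.1) hZf hZn
  rw [hZ] at hgZ hgZ'
  have hg0Z : g0 ∈ Z := by rw [hZ]; exact ⟨hg0, e0⟩
  have hg0Z' : g0' ∈ Z := by rw [hZ]; exact ⟨hg0', e0'⟩
  refine ⟨ε, g, g', hgZ.1, hgZ'.1, (hgmin g0 hg0Z).trans_lt hl0, hr0.trans_le (hgmax g0' hg0Z'),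
    hnn, hgZ.2, hgZ'.2, fun s hs hlt => ?_, fun s hs hlt => ?_, fun a b c => ?_⟩
  · rcases (hnn s hs).eq_or_lt with h | h
    · have := hgmin s (by rw [hZ]; exact ⟨hs, h.symm⟩)
      exact absurd hlt (not_lt.2 this)
    · exact h
  · rcases (hnn s hs).eq_or_lt with h | h
    · have := hgmax s (by rw [hZ]; exact ⟨hs, h.symm⟩)
      exact absurd hlt (not_lt.2 this)
    · exact h
  · rw [hz a, hz b, hz c]
    ring

end HF_

open HF_ in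
theorem p_HF (h_MAT : T_MAT) (h_DET : T_DET) : T_HF := by
  intro S D d hS hC hD hdS hnd
  obtain ⟨y, hy⟩ := h_MAT S D hS hD
  have key : ∀ a ∈ S, ∀ b ∈ S, ∀ c ∈ S, a.1 < b.1 → b.1 < c.1 →
      (D (cc a b c) = true ↔
        (zl y b - zl y a) * (c.1 - a.1) < (zl y c - zl y a) * (b.1 - a.1)) := by
    intro a ha b hb c hc h1 h2
    rw [hy a ha b hb c hc h1 h2]
    exact (h_DET a b c y (hC.2 a ha b hb c hc h1 h2)).1
  have hex : ∃ a0 ∈ S, ∃ c0 ∈ S, a0.1 < d.1 ∧ d.1 < c0.1 ∧ ¬ D (cc a0 d c0) = true := by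
    by_contra hcon
    apply hnd
    refine ⟨hdS, fun a ha c hc h1 h2 => ?_⟩
    by_contra h3
    exact hcon ⟨a, ha, c, hc, h1, h2, h3⟩
  obtain ⟨a0, ha0, c0, hc0, h1, h2, h3⟩ := hex
  rw [key a0 ha0 d hdS c0 hc0 h1 h2, not_lt] at h3
  obtain ⟨ε, g, g', hg, hg', hgd, hdg', hnn, eg, eg', hl, hr, hid⟩ :=
    hull S hS (zl y) hC.1 hdS ha0 hc0 h1 h2 h3
  have hno : ∀ e ∈ S, g.1 < e.1 → e.1 < g'.1 → ¬ D (cc g e g') = true := by
    intro e he h4 h5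
    rw [key g hg e he g' hg' h4 h5, not_lt]
    have h6 := hid g e g'
    rw [eg, eg'] at h6
    have h7 : 0 ≤ ε e * (g'.1 - g.1) := mul_nonneg (hnn e he) (by linarith)
    linarith
  refine ⟨g, g', ⟨hg, fun a ha c hc h4 h5 => ?_⟩, ⟨hg', fun a ha c hc h4 h5 => ?_⟩, hgd, hdg', ?_,
    fun e he h => hno e he.1 h.1 h.2 (he.2 g hg g' hg' h.1 h.2)⟩
  · rw [key a ha g hg c hc h4 h5]
    have h6 := hid a g c
    rw [eg] at h6
    have h7 : 0 < ε a * (c.1 - g.1) := mul_pos (hl a ha h4) (by linarith)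
    have h8 : 0 ≤ ε c * (g.1 - a.1) := mul_nonneg (hnn c hc) (by linarith)
    linarith
  · rw [key a ha g' hg' c hc h4 h5]
    have h6 := hid a g' c
    rw [eg'] at h6
    have h7 : 0 ≤ ε a * (c.1 - g'.1) := mul_nonneg (hnn a ha) (by linarith)
    have h8 : 0 < ε c * (g'.1 - a.1) := mul_pos (hr c hc h5) (by linarith)
    linarith
  · have := hno d hdS hgd hdg'
    simpa using this

end Pool.Agent.EVD
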