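import Pool.Agent.EVD.TG

/-! # EVD: T_LIV (alive and live) -/

namespace Pool.Agent.EVD

theorem p_LIV : T_LIV := by
  intro S D b h hD hb hH
  cases h with
  | none =>
      simp only [live, iff_true]
      refine ⟨hb, fun a ha c hc hab hbc => ?_⟩
      rcases hH with hH | hH
      · exact absurd hab (not_lt.mpr (hH a ha))
      · exact absurd hbc (not_lt.mpr (hH c hc))
  | some r =>
      obtain ⟨⟨a, ha, c, hc, hab, hbc, hr⟩, hmax⟩ := hH
      simp only [live]
      constructor
      · intro hal
        rw [← hr]
        exact hal.2 a ha c hc hab hbc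
      · intro hDr
        exact ⟨hb, fun a' ha' c' hc' h1 h2 => hD r _ (hmax a' ha' c' hc' h1 h2) hDr⟩

end Pool.Agent.EVD
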