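import Pool.Agent.EVD.TG

/-! # EVD: a cut is a height on a finite set -/

namespace Pool.Agent.EVD

theorem MAT_aux (V : Set ℝ) (D : ℝ → Bool) (hV : V.Finite) (hD : Cut D) :
    ∃ y, ∀ v ∈ V, (D v = true ↔ v < y) := by
  by_cases h : ∃ v ∈ V, D v = false
  · have hne : ({v | v ∈ V ∧ D v = false} : Set ℝ).Nonempty := by
      obtain ⟨v, hv, hd⟩ := h
      exact ⟨v, hv, hd⟩
    have hfin : ({v | v ∈ V ∧ D v = false} : Set ℝ).Finite := hV.subset fun v hv => hv.1
    obtain ⟨y, hy, hmin⟩ := Set.exists_min_image _ (fun v : ℝ => v) hfin hne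
    refine ⟨y, fun v hv => ⟨fun hd => ?_, fun hlt => ?_⟩⟩
    · by_contra hcon
      have := hD v y (not_lt.1 hcon) hd
      rw [hy.2] at this
      exact Bool.false_ne_true this
    · by_contra hcon
      have hf : D v = false := by simpa using hcon
      exact absurd (hmin v ⟨hv, hf⟩) (not_le.2 hlt)
  · obtain ⟨M, hM⟩ := hV.bddAbove
    refine ⟨M + 1, fun v hv => ⟨fun _ => ?_, fun _ => ?_⟩⟩
    · have := hM hv
      linarith
    · by_contra hcon
      exact h ⟨v, hv, by simpa using hcon⟩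

theorem p_MAT : T_MAT := by
  intro S D hS hD
  have hV : ((fun t : P × P × P => cc t.1 t.2.1 t.2.2) '' (S ×ˢ (S ×ˢ S))).Finite :=
    (hS.prod (hS.prod hS)).image _
  obtain ⟨y, hy⟩ := MAT_aux _ D hV hD
  refine ⟨y, fun a ha b hb c hc _ _ => hy _ ?_⟩
  exact ⟨(a, b, c), ⟨ha, hb, hc⟩, rfl⟩

end Pool.Agent.EVD
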