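import Pool.Agent.EVD.TG

/-! # EVD: target SPI (the spine) -/

namespace Pool.Agent.EVD

/-- the chord slopes around `f` -/
theorem SPI_slope (S : Set P) (hS : Chn S) (f pr su : P) (hf : f ∈ S) (hpr : pr ∈ S)
    (hsu : su ∈ S) (h1 : pr.1 < f.1) (h2 : f.1 < su.1)
    (h3 : ∀ s ∈ S, s.1 < f.1 → s.1 ≤ pr.1) (h4 : ∀ s ∈ S, f.1 < s.1 → su.1 ≤ s.1)
    (s : P) (hs : s ∈ S) :
    s.2 - f.2 ≤ (su.2 - pr.2) / (su.1 - pr.1) * (s.1 - f.1) := by
  obtain ⟨hS1, hS2⟩ := hS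
  set k : ℝ := (su.2 - pr.2) / (su.1 - pr.1) with hk
  have hd : 0 < su.1 - pr.1 := by linarith
  have hk' : k * (su.1 - pr.1) = su.2 - pr.2 := div_mul_cancel₀ _ hd.ne'
  have hc := hS2 pr hpr f hf su hsu h1 h2
  unfold ccB at hc
  have hc1 : (su.2 - f.2) ≤ k * (su.1 - f.1) := by
    have h5 : (su.2 - f.2) * (su.1 - pr.1) ≤ (k * (su.1 - f.1)) * (su.1 - pr.1) := by
      have e1 : (k * (su.1 - f.1)) * (su.1 - pr.1) = (su.2 - pr.2) * (su.1 - f.1) := by
        rw [← hk']; ring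
      rw [e1]
      linarith
    exact le_of_mul_le_mul_right h5 hd
  have hc2 : k * (f.1 - pr.1) ≤ f.2 - pr.2 := by
    have h5 : (k * (f.1 - pr.1)) * (su.1 - pr.1) ≤ (f.2 - pr.2) * (su.1 - pr.1) := by
      have e1 : (k * (f.1 - pr.1)) * (su.1 - pr.1) = (su.2 - pr.2) * (f.1 - pr.1) := by
        rw [← hk']; ring
      rw [e1]
      linarith
    exact le_of_mul_le_mul_right h5 hd
  rcases lt_trichotomy s.1 f.1 with h6 | h6 | h6
  · -- left of `f`
    have h7 := h3 s hs h6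
    have h8 : (f.2 - pr.2) * (f.1 - s.1) ≤ (f.2 - s.2) * (f.1 - pr.1) := by
      rcases h7.eq_or_lt with h9 | h9
      · rw [hS1 s hs pr hpr h9]
      · have h10 := hS2 s hs pr hpr f hf h9 h1
        unfold ccB at h10
        linarith
    have h9 : (k * (f.1 - s.1)) * (f.1 - pr.1) ≤ (f.2 - s.2) * (f.1 - pr.1) := by
      have h10 : (k * (f.1 - pr.1)) * (f.1 - s.1) ≤ (f.2 - pr.2) * (f.1 - s.1) :=
        mul_le_mul_of_nonneg_right hc2 (by linarith)
      linarith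
    have h10 := le_of_mul_le_mul_right h9 (by linarith)
    linarith
  · rw [hS1 s hs f hf h6]
    simp
  · -- right of `f`
    have h7 := h4 s hs h6
    have h8 : (s.2 - f.2) * (su.1 - f.1) ≤ (su.2 - f.2) * (s.1 - f.1) := by
      rcases h7.eq_or_lt with h9 | h9
      · rw [hS1 su hsu s hs h9]
      · have h10 := hS2 f hf su hsu s hs h2 h9
        unfold ccB at h10
        linarith
    have h9 : (s.2 - f.2) * (su.1 - f.1) ≤ (k * (s.1 - f.1)) * (su.1 - f.1) := by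
      have h10 : (su.2 - f.2) * (s.1 - f.1) ≤ (k * (su.1 - f.1)) * (s.1 - f.1) :=
        mul_le_mul_of_nonneg_right hc1 (by linarith)
      linarith
    exact le_of_mul_le_mul_right h9 (by linarith)

/-- the spine point at the death height -/
theorem SPI_base (h_DET : T_DET) (S : Set P) (hS : Chn S) (h : ℝ) (f l : P) (hf : f ∈ S)
    (hl : l ∈ S) (hH : IsH S f (some h)) (h1 : l.1 < f.1)
    (h5 : ∀ s ∈ S, s.1 < f.1 →
      (zl h f - zl h s) * (f.1 - l.1) ≤ (zl h f - zl h l) * (f.1 - s.1))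
    (s : P) (hs : s ∈ S) :
    (zl h f - zl h l) / (f.1 - l.1) * (s.1 - f.1) ≤ zl h s - zl h f := by
  obtain ⟨hS1, hS2⟩ := hS
  set x : ℝ := (zl h f - zl h l) / (f.1 - l.1) with hx
  have hd : 0 < f.1 - l.1 := by linarith
  have hx' : x * (f.1 - l.1) = zl h f - zl h l := div_mul_cancel₀ _ hd.ne'
  rcases lt_trichotomy s.1 f.1 with h6 | h6 | h6
  · have h7 := h5 s hs h6
    rw [← hx'] at h7
    have h8 : (zl h f - zl h s) * (f.1 - l.1) ≤ (x * (f.1 - s.1)) * (f.1 - l.1) := by linarith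
    have h9 := le_of_mul_le_mul_right h8 hd
    linarith
  · rw [hS1 s hs f hf h6]
    simp
  · have h7 : cc l f s ≤ h := hH.2 l hl s hs h1 h6
    have h8 := ((h_DET l f s h (hS2 l hl f hf s hs h1 h6)).2.1).1 h7
    rw [← hx'] at h8
    have h9 : (x * (s.1 - l.1)) * (f.1 - l.1) ≤ (zl h s - zl h l) * (f.1 - l.1) := by linarith
    have h10 := le_of_mul_le_mul_right h9 hd
    have h11 : x * (s.1 - l.1) = x * (s.1 - f.1) + (zl h f - zl h l) := by
      rw [← hx']; ring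
    linarith

theorem p_SPI (h_DET : T_DET) : T_SPI := by
  intro S h f l r pr su q1 q2 _ hS hf hl _ hpr hsu hH h1 _ h3 h4 h5 h6 h7 h' hh y hy s hs
  have hh' : h = h' := Option.some.inj hh
  subst hh'
  have e1 := SPI_slope S hS f pr su hf hpr hsu h3 h4 h5 h6 s hs
  have e2 := SPI_base h_DET S hS h f l hf hl hH h1 h7 s hs
  have e3 : ((nsq f - nsq l) - 2 * h * (f.2 - l.2)) / (2 * (f.1 - l.1)) =
      (zl h f - zl h l) / (f.1 - l.1) / 2 := by
    have hd : f.1 - l.1 ≠ 0 := by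
      have : 0 < f.1 - l.1 := by linarith
      exact this.ne'
    unfold zl
    field_simp
    ring
  show dsq (((nsq f - nsq l) - 2 * h * (f.2 - l.2)) / (2 * (f.1 - l.1))
      + (su.2 - pr.2) / (su.1 - pr.1) * h + -((su.2 - pr.2) / (su.1 - pr.1)) * y, y) f ≤
    dsq (((nsq f - nsq l) - 2 * h * (f.2 - l.2)) / (2 * (f.1 - l.1))
      + (su.2 - pr.2) / (su.1 - pr.1) * h + -((su.2 - pr.2) / (su.1 - pr.1)) * y, y) s
  rw [e3]
  generalize (su.2 - pr.2) / (su.1 - pr.1) = k at e1 ⊢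
  generalize (zl h f - zl h l) / (f.1 - l.1) = x at e2 ⊢
  have e4 : (y - h) * (s.2 - f.2) ≤ (y - h) * (k * (s.1 - f.1)) :=
    mul_le_mul_of_nonneg_left e1 (by linarith)
  unfold zl nsq at e2
  unfold dsq
  simp only
  linarith

end Pool.Agent.EVD
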