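import Pool.Agent.EVD.TG

/-! # EVD, target SUPL: the supporting line of the left tangent -/

set_option autoImplicit false

namespace Pool.Agent.EVD

namespace SUPL_

/-- a point on or above a chord whose ends are on or above a line is on or above the line -/
theorem chord {f c s g g' zf zc zs zg zg' : ℝ} (h1 : c < f) (h2 : g < s) (h3 : s < g')
    (hK : (zf - zg) * (f - c) ≤ (zf - zc) * (f - g))
    (hK' : (zf - zg') * (f - c) ≤ (zf - zc) * (f - g'))
    (hs : (zg' - zg) * (s - g) ≤ (zs - zg) * (g' - g)) :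
    (zf - zs) * (f - c) ≤ (zf - zc) * (f - s) := by
  have e : (g' - g) * ((zf - zc) * (f - s) - (zf - zs) * (f - c)) =
      (g' - s) * ((zf - zc) * (f - g) - (zf - zg) * (f - c)) +
      (s - g) * ((zf - zc) * (f - g') - (zf - zg') * (f - c)) +
      (f - c) * ((zs - zg) * (g' - g) - (zg' - zg) * (s - g)) := by ring
  have p1 : 0 ≤ (g' - s) * ((zf - zc) * (f - g) - (zf - zg) * (f - c)) :=
    mul_nonneg (by linarith) (by linarith)
  have p2 : 0 ≤ (s - g) * ((zf - zc) * (f - g') - (zf - zg') * (f - c)) :=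
    mul_nonneg (by linarith) (by linarith)
  have p3 : 0 ≤ (f - c) * ((zs - zg) * (g' - g) - (zg' - zg) * (s - g)) :=
    mul_nonneg (by linarith) (by linarith)
  have p4 : 0 ≤ (g' - g) * ((zf - zc) * (f - s) - (zf - zs) * (f - c)) := by
    rw [e]; linarith
  have p5 := nonneg_of_mul_nonneg_right p4 (by linarith)
  linarith

/-- cutting a chord at a point below it -/
theorem cut {f s g g' zf zs zg zg' : ℝ} (h2 : g < s) (h3 : s < f) (h4 : f < g')
    (hf : (zf - zg) * (g' - g) ≤ (zg' - zg) * (f - g))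
    (hs : (zg' - zg) * (s - g) ≤ (zs - zg) * (g' - g)) :
    (zf - zg) * (s - g) ≤ (zs - zg) * (f - g) := by
  have p1 : 0 ≤ (s - g) * ((zg' - zg) * (f - g) - (zf - zg) * (g' - g)) :=
    mul_nonneg (by linarith) (by linarith)
  have p2 : 0 ≤ (f - g) * ((zs - zg) * (g' - g) - (zg' - zg) * (s - g)) :=
    mul_nonneg (by linarith) (by linarith)
  have e : (g' - g) * ((zs - zg) * (f - g) - (zf - zg) * (s - g)) =
      (s - g) * ((zg' - zg) * (f - g) - (zf - zg) * (g' - g)) +
      (f - g) * ((zs - zg) * (g' - g) - (zg' - zg) * (s - g)) := by ring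
  have p4 : 0 ≤ (g' - g) * ((zs - zg) * (f - g) - (zf - zg) * (s - g)) := by
    rw [e]; linarith
  have p5 := nonneg_of_mul_nonneg_right p4 (by linarith)
  linarith

end SUPL_

/-- Target SUPL. -/
theorem p_SUPL (h_HF : T_HF) (h_DET : T_DET) : T_SUPL := by
  intro S A D y f c hfin hch hcut hnear hwal hal hAS hopt s hs hsf
  obtain ⟨hcA, hcf, hopt⟩ := hopt
  have hcS : c ∈ S := hAS hcA
  have hfS : f ∈ S := hwal.1
  -- chord conditions
  have up : ∀ a b e : P, a ∈ S → b ∈ S → e ∈ S → a.1 < b.1 → b.1 < e.1 →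
      D (cc a b e) = false →
      (zl y e - zl y a) * (b.1 - a.1) ≤ (zl y b - zl y a) * (e.1 - a.1) := by
    intro a b e ha hb he hab hbe hD
    have h1 := ((hnear (cc a b e)).2 hD)
    have h2 := (h_DET a b e y (hch.2 a ha b hb e he hab hbe)).1
    by_contra h3
    exact absurd (h2.mpr (not_le.mp h3)) (not_lt.mpr h1)
  have dn : ∀ a b e : P, a ∈ S → b ∈ S → e ∈ S → a.1 < b.1 → b.1 < e.1 →
      cc a b e ≤ y →
      (zl y b - zl y a) * (e.1 - a.1) ≤ (zl y e - zl y a) * (b.1 - a.1) := by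
    intro a b e ha hb he hab hbe hD
    exact ((h_DET a b e y (hch.2 a ha b hb e he hab hbe)).2.1).mp hD
  -- points of A
  have hA : ∀ b ∈ A, b.1 < f.1 →
      (zl y f - zl y b) * (f.1 - c.1) ≤ (zl y f - zl y c) * (f.1 - b.1) := by
    intro b hb hbf
    have hbS : b ∈ S := hAS hb
    rcases lt_trichotomy b.1 c.1 with h | h | h
    · have h1 := dn b c f hbS hcS hfS h hcf ((hnear _).1 ((hopt b hb hbf).1 h))
      linarith
    · have h1 : b = c := hch.1 b hbS c hcS h
      rw [h1]
    · have h1 := up c b f hcS hbS hfS h hbf ((hopt b hb hbf).2 h)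
      linarith
  by_cases hsA : s ∈ A
  · exact hA s hsA hsf
  · have hns : ¬ Al D S s := fun h => hsA (hal s h)
    obtain ⟨g, g', hg, hg', hgs, hsg', hD, -⟩ := h_HF S D s hfin hch hcut hs hns
    have h1 := up g s g' hg.1 hs hg'.1 hgs hsg' hD
    have hKg := hA g (hal g hg) (lt_trans hgs hsf)
    rcases lt_trichotomy g'.1 f.1 with h | h | h
    · exact SUPL_.chord hcf hgs hsg' hKg (hA g' (hal g' hg') h) h1
    · have h2 : g' = f := hch.1 g' hg'.1 f hfS h
      subst h2
      exact SUPL_.chord hcf hgs hsg' hKg (by simp) h1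
    · have h2 := dn g f g' hg.1 hfS hg'.1 (lt_trans hgs hsf) h
        (hwal.2 y rfl g hg.1 g' hg'.1 (lt_trans hgs hsf) h)
      have h3 := SUPL_.cut hgs hsf h h2 h1
      exact SUPL_.chord hcf hgs hsf hKg (by simp) h3

end Pool.Agent.EVD
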