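import Pool.Agent.EVD.TG

/-! # EVD, target SUPR: the supporting line of the right tangent -/

set_option autoImplicit false

namespace Pool.Agent.EVD

namespace SUPR_

/-- a point on or above a chord whose ends are on or above a line is on or above the line -/
theorem chord {f c s g g' zf zc zs zg zg' : ℝ} (h1 : f < c) (h2 : g < s) (h3 : s < g')
    (hK : (zc - zf) * (g - f) ≤ (zg - zf) * (c - f))
    (hK' : (zc - zf) * (g' - f) ≤ (zg' - zf) * (c - f))
    (hs : (zg' - zg) * (s - g) ≤ (zs - zg) * (g' - g)) :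
    (zc - zf) * (s - f) ≤ (zs - zf) * (c - f) := by
  have e : (g' - g) * ((zs - zf) * (c - f) - (zc - zf) * (s - f)) =
      (g' - s) * ((zg - zf) * (c - f) - (zc - zf) * (g - f)) +
      (s - g) * ((zg' - zf) * (c - f) - (zc - zf) * (g' - f)) +
      (c - f) * ((zs - zg) * (g' - g) - (zg' - zg) * (s - g)) := by ring
  have p1 : 0 ≤ (g' - s) * ((zg - zf) * (c - f) - (zc - zf) * (g - f)) :=
    mul_nonneg (by linarith) (by linarith)
  have p2 : 0 ≤ (s - g) * ((zg' - zf) * (c - f) - (zc - zf) * (g' - f)) :=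
    mul_nonneg (by linarith) (by linarith)
  have p3 : 0 ≤ (c - f) * ((zs - zg) * (g' - g) - (zg' - zg) * (s - g)) :=
    mul_nonneg (by linarith) (by linarith)
  have p4 : 0 ≤ (g' - g) * ((zs - zf) * (c - f) - (zc - zf) * (s - f)) := by
    rw [e]; linarith
  have p5 := nonneg_of_mul_nonneg_right p4 (by linarith)
  linarith

/-- cutting a chord at a point below it -/
theorem cut {f s g g' zf zs zg zg' : ℝ} (h2 : g < f) (h3 : f < s) (h4 : s < g')
    (hf : (zf - zg) * (g' - g) ≤ (zg' - zg) * (f - g))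
    (hs : (zg' - zg) * (s - g) ≤ (zs - zg) * (g' - g)) :
    (zg' - zf) * (s - f) ≤ (zs - zf) * (g' - f) := by
  have p1 : 0 ≤ (g' - s) * ((zg' - zg) * (f - g) - (zf - zg) * (g' - g)) :=
    mul_nonneg (by linarith) (by linarith)
  have p2 : 0 ≤ (g' - f) * ((zs - zg) * (g' - g) - (zg' - zg) * (s - g)) :=
    mul_nonneg (by linarith) (by linarith)
  have e : (g' - g) * ((zs - zf) * (g' - f) - (zg' - zf) * (s - f)) =
      (g' - s) * ((zg' - zg) * (f - g) - (zf - zg) * (g' - g)) +
      (g' - f) * ((zs - zg) * (g' - g) - (zg' - zg) * (s - g)) := by ring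
  have p4 : 0 ≤ (g' - g) * ((zs - zf) * (g' - f) - (zg' - zf) * (s - f)) := by
    rw [e]; linarith
  have p5 := nonneg_of_mul_nonneg_right p4 (by linarith)
  linarith

end SUPR_

/-- Target SUPR. -/
theorem p_SUPR (h_HF : T_HF) (h_DET : T_DET) : T_SUPR := by
  intro S A D y f c hfin hch hcut hnear hwal hal hAS hopt s hs hfs
  obtain ⟨hcA, hfc, hopt⟩ := hopt
  have hcS : c ∈ S := hAS hcA
  have hfS : f ∈ S := hwal.1
  -- chord conditions
  have up : ∀ a b e : P, a ∈ S → b ∈ S → e ∈ S → a.1 < b.1 → b.1 < e.1 →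
      D (cc a b e) = false →
      (zl y e - zl y a) * (b.1 - a.1) ≤ (zl y b - zl y a) * (e.1 - a.1) := by
    intro a b e ha hb he hab hbe hD
    have h1 := ((hnear (cc a b e)).2 hD)
    have h2 := (h_DET a b e y (hch.2 a ha b hb e he hab hbe)).1
    by_contra h3
    exact absurd (h2.mpr (not_le.mp h3)) (not_lt.mpr h1)
  have dn : ∀ a b e : P, a ∈ S → b ∈ S → e ∈ S → a.1 < b.1 → b.1 < e.1 →
      cc a b e ≤ y →
      (zl y b - zl y a) * (e.1 - a.1) ≤ (zl y e - zl y a) * (b.1 - a.1) := by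
    intro a b e ha hb he hab hbe hD
    exact ((h_DET a b e y (hch.2 a ha b hb e he hab hbe)).2.1).mp hD
  -- points of A
  have hA : ∀ b ∈ A, f.1 < b.1 →
      (zl y c - zl y f) * (b.1 - f.1) ≤ (zl y b - zl y f) * (c.1 - f.1) := by
    intro b hb hfb
    have hbS : b ∈ S := hAS hb
    rcases lt_trichotomy b.1 c.1 with h | h | h
    · exact up f b c hfS hbS hcS hfb h ((hopt b hb hfb).1 h)
    · have h1 : b = c := hch.1 b hbS c hcS h
      rw [h1]
    · exact dn f c b hfS hcS hbS hfc h ((hnear _).1 ((hopt b hb hfb).2 h))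
  by_cases hsA : s ∈ A
  · exact hA s hsA hfs
  · have hns : ¬ Al D S s := fun h => hsA (hal s h)
    obtain ⟨g, g', hg, hg', hgs, hsg', hD, -⟩ := h_HF S D s hfin hch hcut hs hns
    have h1 := up g s g' hg.1 hs hg'.1 hgs hsg' hD
    have hKg' := hA g' (hal g' hg') (lt_trans hfs hsg')
    rcases lt_trichotomy f.1 g.1 with h | h | h
    · exact SUPR_.chord hfc hgs hsg' (hA g (hal g hg) h) hKg' h1
    · have h2 : f = g := hch.1 f hfS g hg.1 h
      subst h2
      exact SUPR_.chord hfc hgs hsg' (by simp) hKg' h1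
    · have h2 := dn g f g' hg.1 hfS hg'.1 h (lt_trans hfs hsg')
        (hwal.2 y rfl g hg.1 g' hg'.1 h (lt_trans hfs hsg'))
      have h3 := SUPR_.cut h hfs hsg' h2 h1
      exact SUPR_.chord hfc hfs hsg' (by simp) hKg' h3

end Pool.Agent.EVD
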