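import Pool.Agent.EVD.TG

/-! # EVD: left neighbour at a height -/

namespace Pool.Agent.EVD

namespace TNL_

theorem cut_cutT (t : ℝ) : Cut (cutT (some t)) := by
  intro r r' h1 h2
  simp only [cutT, decide_eq_true_eq] at h2 ⊢
  linarith

theorem near_cutT (t : ℝ) : Near (cutT (some t)) t := by
  intro r
  simp only [cutT, decide_eq_true_eq, decide_eq_false_iff_not, not_lt]
  exact ⟨fun h => h.le, fun h => h⟩

/-- height above the line through `f` with slope `k` in the lifted plane -/
noncomputable def ep (t k : ℝ) (f s : P) : ℝ := zl t s - zl t f - k * (s.1 - f.1)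

/-- aliveness of a triple in terms of the heights above a line -/
theorem det_ep (h3 : T_DET) {S : Set P} (hS : Chn S) (t k : ℝ) (f : P) {a b e : P} (ha : a ∈ S)
    (hb : b ∈ S) (he : e ∈ S) (hab : a.1 < b.1) (hbe : b.1 < e.1) :
    cutT (some t) (cc a b e) = true ↔
      ep t k f b * (e.1 - a.1) < ep t k f a * (e.1 - b.1) + ep t k f e * (b.1 - a.1) := by
  have h1 := (h3 a b e t (hS.2 a ha b hb e he hab hbe)).1
  have h2 : cutT (some t) (cc a b e) = true ↔ cc a b e < t := by
    simp only [cutT, decide_eq_true_eq]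
  rw [h2, h1]
  unfold Blw ep
  have h4 : (zl t b - zl t f - k * (b.1 - f.1)) * (e.1 - a.1) -
      ((zl t a - zl t f - k * (a.1 - f.1)) * (e.1 - b.1) +
        (zl t e - zl t f - k * (e.1 - f.1)) * (b.1 - a.1)) =
      (zl t b - zl t a) * (e.1 - a.1) - (zl t e - zl t a) * (b.1 - a.1) := by ring
  constructor
  · intro h
    linarith
  · intro h
    linarith

end TNL_

open TNL_

theorem p_TNL (h_SUPL : T_SUPL) (h_HF : T_HF) (h_DET : T_DET) : T_TNL := by
  intro S A T f c hfin hS hW hA1 hAS hO
  obtain ⟨hcA, hcf, hopt⟩ := hO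
  have hcS : c ∈ S := hAS hcA
  have hfS : f ∈ S := hW.1
  cases T with
  | none =>
    refine ⟨⟨hcS, fun _ _ _ _ _ _ => rfl⟩, fun s hs hsf => ?_⟩
    by_contra hcon
    have h1 := (hopt s (hA1 s hs) hsf).2 (not_le.1 hcon)
    exact Bool.false_ne_true (h1.symm.trans rfl)
  | some t =>
    have hsup := h_SUPL S A (cutT (some t)) t f c hfin hS (cut_cutT t) (near_cutT t) hW hA1 hAS
      ⟨hcA, hcf, hopt⟩
    have hfc : 0 < f.1 - c.1 := by linarith
    -- the slope of the line
    obtain ⟨k, hk⟩ : ∃ k : ℝ, zl t f - zl t c = k * (f.1 - c.1) :=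
      ⟨(zl t f - zl t c) / (f.1 - c.1), by field_simp⟩
    have ef : ep t k f f = 0 := by
      unfold ep
      ring
    have ec : ep t k f c = 0 := by
      unfold ep
      linarith
    have ge : ∀ s ∈ S, 0 ≤ ep t k f s := by
      intro s hs
      rcases lt_trichotomy s.1 f.1 with h1 | h1 | h1
      · have h2 := hsup s hs h1
        rw [hk] at h2
        have h3 : (zl t f - zl t s) ≤ k * (f.1 - s.1) := by
          have h4 : (zl t f - zl t s) * (f.1 - c.1) ≤ (k * (f.1 - s.1)) * (f.1 - c.1) := by
            linarith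
          exact le_of_mul_le_mul_right h4 hfc
        unfold ep
        linarith
      · have h2 : s = f := hS.1 s hs f hfS h1
        rw [h2, ef]
      · have h2 := hW.2 t rfl c hcS s hs hcf h1
        have h3 := (h_DET c f s t (hS.2 c hcS f hfS s hs hcf h1)).2.1.1 h2
        rw [hk] at h3
        have h4 : k * (s.1 - c.1) ≤ zl t s - zl t c := by
          have h5 : (k * (s.1 - c.1)) * (f.1 - c.1) ≤ (zl t s - zl t c) * (f.1 - c.1) := by
            linarith
          exact le_of_mul_le_mul_right h5 hfc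
        unfold ep
        linarith
    -- sites of `A` left of `c` are strictly above the line
    have gA : ∀ s ∈ A, s.1 < c.1 → 0 < ep t k f s := by
      intro s hs hsc
      have h1 := (hopt s hs (hsc.trans hcf)).1 hsc
      have h2 := (det_ep h_DET hS t k f (hAS hs) hcS hfS hsc hcf).1 h1
      rw [ec, ef] at h2
      have h3 : 0 < ep t k f s * (f.1 - c.1) := by linarith
      exact (mul_pos_iff_of_pos_right hfc).1 h3
    have gS : ∀ s ∈ S, s.1 < c.1 → 0 < ep t k f s := by
      intro s hs hsc
      by_cases hsA : s ∈ A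
      · exact gA s hsA hsc
      · have h1 : ¬ Al (cutT (some t)) S s := fun h => hsA (hA1 s h)
        obtain ⟨g, g', hg, hg', h2, h3, h4, -⟩ :=
          h_HF S (cutT (some t)) s hfin hS (cut_cutT t) hs h1
        have h5 := (det_ep h_DET hS t k f hg.1 hs hg'.1 h2 h3).not.1 (by rw [h4]; simp)
        have h6 := gA g (hA1 g hg) (h2.trans hsc)
        have h7 := ge g' hg'.1
        have h8 : 0 < ep t k f g * (g'.1 - s.1) := mul_pos h6 (by linarith)
        have h9 : 0 ≤ ep t k f g' * (s.1 - g.1) := mul_nonneg h7 (by linarith)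
        have h10 : 0 < ep t k f s * (g'.1 - g.1) := by linarith [not_lt.1 h5]
        exact (mul_pos_iff_of_pos_right (by linarith)).1 h10
    refine ⟨⟨hcS, fun a ha e he hac hce => ?_⟩, fun s hs hsf => ?_⟩
    · rw [det_ep h_DET hS t k f ha hcS he hac hce, ec]
      have h1 : 0 < ep t k f a * (e.1 - c.1) := mul_pos (gS a ha hac) (by linarith)
      have h2 : 0 ≤ ep t k f e * (c.1 - a.1) := mul_nonneg (ge e he) (by linarith)
      linarith
    · by_contra hcon
      have hcs : c.1 < s.1 := not_le.1 hcon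
      have h1 := hs.2 c hcS f hfS hcs hsf
      rw [det_ep h_DET hS t k f hcS hs.1 hfS hcs hsf, ec, ef] at h1
      have h2 : 0 ≤ ep t k f s * (f.1 - c.1) := mul_nonneg (ge s hs.1) hfc.le
      linarith

end Pool.Agent.EVD
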