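import Pool.Agent.EVD.TG

/-! # EVD: right neighbour at a height (target `T_TNR`) -/

namespace Pool.Agent.EVD

namespace TNR_

/-- height of `s` above the line through `f` and `c`, scaled by the length of the base -/
noncomputable def Ev (t : ℝ) (f c s : P) : ℝ :=
  (zl t s - zl t f) * (c.1 - f.1) - (zl t c - zl t f) * (s.1 - f.1)

theorem Ev_f (t : ℝ) (f c : P) : Ev t f c f = 0 := by unfold Ev; ring

theorem Ev_c (t : ℝ) (f c : P) : Ev t f c c = 0 := by unfold Ev; ring

theorem key (t : ℝ) (f c a b e : P) :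
    Ev t f c a * (e.1 - b.1) + Ev t f c e * (b.1 - a.1) - Ev t f c b * (e.1 - a.1) =
      (c.1 - f.1) * ((zl t e - zl t a) * (b.1 - a.1) - (zl t b - zl t a) * (e.1 - a.1)) := by
  unfold Ev; ring

theorem lt_iff {t : ℝ} {f c : P} (hk : f.1 < c.1) (a b e : P) :
    Blw t a b e ↔
      Ev t f c b * (e.1 - a.1) < Ev t f c a * (e.1 - b.1) + Ev t f c e * (b.1 - a.1) := by
  have hk' : 0 < c.1 - f.1 := sub_pos.2 hk
  have h := key t f c a b e
  unfold Blw
  constructor
  · intro h1
    have h2 := mul_pos hk' (sub_pos.2 h1)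
    linarith
  · intro h1
    have h2 : 0 < (c.1 - f.1) *
        ((zl t e - zl t a) * (b.1 - a.1) - (zl t b - zl t a) * (e.1 - a.1)) := by linarith
    have h3 := (mul_pos_iff_of_pos_left hk').1 h2
    linarith

theorem le_of {t : ℝ} {f c : P} (hk : f.1 < c.1) (a b e : P)
    (h1 : (zl t b - zl t a) * (e.1 - a.1) ≤ (zl t e - zl t a) * (b.1 - a.1)) :
    Ev t f c b * (e.1 - a.1) ≤ Ev t f c a * (e.1 - b.1) + Ev t f c e * (b.1 - a.1) := by
  have hk' : 0 < c.1 - f.1 := sub_pos.2 hk
  have h := key t f c a b e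
  have h2 := mul_nonneg hk'.le (sub_nonneg.2 h1)
  linarith

theorem cut_some (t : ℝ) : Cut (cutT (some t)) := by
  intro r r' h h1
  simp only [cutT, decide_eq_true_eq] at h1 ⊢
  linarith

theorem near_some (t : ℝ) : Near (cutT (some t)) t := by
  intro r
  constructor
  · intro h
    simp only [cutT, decide_eq_true_eq] at h
    exact h.le
  · intro h
    simp only [cutT, decide_eq_false_iff_not, not_lt] at h
    exact h

theorem true_iff_lt (t r : ℝ) : cutT (some t) r = true ↔ r < t := by
  simp only [cutT, decide_eq_true_eq]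

theorem not_lt_of_false {t r : ℝ} (h : cutT (some t) r = false) : ¬ r < t := by
  intro h1
  rw [(true_iff_lt t r).2 h1] at h
  exact absurd h (by decide)

end TNR_

open TNR_ in
theorem p_TNR (h_SUPR : T_SUPR) (h_HF : T_HF) (h_DET : T_DET) : T_TNR := by
  intro S A T f c hfin hch hwal hA1 hA2 hopt
  obtain ⟨hcA, hfc, hbet⟩ := hopt
  have hfS : f ∈ S := hwal.1
  have hcS : c ∈ S := hA2 hcA
  cases T with
  | none =>
    refine ⟨⟨hcS, fun a _ e _ _ _ => rfl⟩, ?_⟩
    intro s hs hfs
    by_contra hlt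
    push Not at hlt
    have h1 := (hbet s (hA1 s hs) hfs).1 hlt
    have h2 : cutT (none : Option ℝ) (cc f s c) = true := rfl
    rw [h2] at h1
    exact absurd h1 (by decide)
  | some t =>
    have hcut := cut_some t
    have hnear := near_some t
    -- chord conditions
    have hblw : ∀ a ∈ S, ∀ b ∈ S, ∀ e ∈ S, a.1 < b.1 → b.1 < e.1 →
        (cc a b e < t ↔
          Ev t f c b * (e.1 - a.1) < Ev t f c a * (e.1 - b.1) + Ev t f c e * (b.1 - a.1)) := by
      intro a ha b hb e he hab hbe
      rw [(h_DET a b e t (hch.2 a ha b hb e he hab hbe)).1]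
      exact lt_iff hfc a b e
    -- all sites are on or above the line
    have hnn : ∀ s ∈ S, 0 ≤ Ev t f c s := by
      intro s hs
      rcases lt_trichotomy s.1 f.1 with h | h | h
      · have h1 := hwal.2 t rfl s hs c hcS h hfc
        have h2 := (h_DET s f c t (hch.2 s hs f hfS c hcS h hfc)).2.1.1 h1
        have h3 := le_of hfc s f c h2
        rw [Ev_f, Ev_c] at h3
        have h4 : 0 ≤ Ev t f c s * (c.1 - f.1) := by linarith
        exact nonneg_of_mul_nonneg_left h4 (sub_pos.2 hfc)
      · have h1 : s = f := hch.1 s hs f hfS h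
        rw [h1, Ev_f]
      · have h1 := h_SUPR S A (cutT (some t)) t f c hfin hch hcut hnear hwal hA1 hA2
          ⟨hcA, hfc, hbet⟩ s hs h
        unfold Ev
        linarith
    -- sites of A right of c are strictly above the line
    have hposA : ∀ s ∈ A, c.1 < s.1 → 0 < Ev t f c s := by
      intro s hs hcs
      have hsS := hA2 hs
      have h1 := (hbet s hs (hfc.trans hcs)).2 hcs
      rw [true_iff_lt] at h1
      have h2 := (hblw f hfS c hcS s hsS hfc hcs).1 h1
      rw [Ev_f, Ev_c] at h2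
      have h3 : 0 < Ev t f c s * (c.1 - f.1) := by linarith
      exact pos_of_mul_pos_left h3 (sub_pos.2 hfc).le
    have hpos : ∀ s ∈ S, c.1 < s.1 → 0 < Ev t f c s := by
      intro s hsS hcs
      by_cases hsA : s ∈ A
      · exact hposA s hsA hcs
      · have hna : ¬ Al (cutT (some t)) S s := fun h => hsA (hA1 s h)
        obtain ⟨g, g', hg, hg', hgs, hsg', hD, -⟩ := h_HF S (cutT (some t)) s hfin hch hcut hsS hna
        have h1 := not_lt_of_false hD
        rw [hblw g hg.1 s hsS g' hg'.1 hgs hsg'] at h1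
        push Not at h1
        have h2 := hnn g hg.1
        have h3 := hposA g' (hA1 g' hg') (hcs.trans hsg')
        have h4 : 0 ≤ Ev t f c g * (g'.1 - s.1) := mul_nonneg h2 (sub_pos.2 hsg').le
        have h5 : 0 < Ev t f c g' * (s.1 - g.1) := mul_pos h3 (sub_pos.2 hgs)
        have h6 : 0 < Ev t f c s * (g'.1 - g.1) := by linarith
        exact pos_of_mul_pos_left h6 (sub_pos.2 (hgs.trans hsg')).le
    refine ⟨⟨hcS, ?_⟩, ?_⟩
    · intro a ha e he hac hce
      rw [true_iff_lt, hblw a ha c hcS e he hac hce, Ev_c]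
      have h1 : 0 ≤ Ev t f c a * (e.1 - c.1) := mul_nonneg (hnn a ha) (sub_pos.2 hce).le
      have h2 : 0 < Ev t f c e * (c.1 - a.1) := mul_pos (hpos e he hce) (sub_pos.2 hac)
      linarith
    · intro s hs hfs
      by_contra hlt
      push Not at hlt
      have h1 := hs.2 f hfS c hcS hfs hlt
      rw [true_iff_lt, hblw f hfS s hs.1 c hcS hfs hlt, Ev_f, Ev_c] at h1
      have h2 : 0 ≤ Ev t f c s * (c.1 - f.1) := mul_nonneg (hnn s hs.1) (sub_pos.2 hfc).le
      linarith

end Pool.Agent.EVD
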