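import Pool.Agent.EVD.P_DET
import Pool.Agent.EVD.P_DSQ
import Pool.Agent.EVD.P_MAT
import Pool.Agent.EVD.P_HF
import Pool.Agent.EVD.P_SUPR
import Pool.Agent.EVD.P_SUPL
import Pool.Agent.EVD.P_TNR
import Pool.Agent.EVD.P_TNL
import Pool.Agent.EVD.P_AB
import Pool.Agent.EVD.P_DH
import Pool.Agent.EVD.P_SPI
import Pool.Agent.EVD.P_LIV
import Pool.Agent.EVD.P_A_LAST
import Pool.Agent.EVD.P_A_LT
import Pool.Agent.EVD.P_A_MIN
import Pool.Agent.EVD.P_A_NXT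
import Pool.Agent.EVD.P_A_BLD
import Pool.Agent.EVD.P_A_MRG
import Pool.Agent.EVD.P_A_TANH
import Pool.Agent.EVD.P_A_TANG
import Pool.Agent.EVD.P_A_FOUR
import Pool.Agent.EVD.P_A_PKR
import Pool.Agent.EVD.P_A_PKL
import Pool.Agent.EVD.P_A_ONE
import Pool.Agent.EVD.P_A_OWN
import Pool.Agent.EVD.P_A_TANR
import Pool.Agent.EVD.P_A_TANL
import Pool.Agent.EVD.P_A_NB
import Pool.Agent.EVD.P_A_ALB
import Pool.Agent.EVD.P_A_EXH
import Pool.Agent.EVD.P_A_LF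
import Pool.Agent.EVD.P_A_PART

/-! # EVD: all targets of part A without hypotheses -/

set_option autoImplicit false

namespace Pool.Agent.EVD

theorem ok_HF : T_HF := p_HF p_MAT p_DET
theorem ok_SUPR : T_SUPR := p_SUPR ok_HF p_DET
theorem ok_SUPL : T_SUPL := p_SUPL ok_HF p_DET
theorem ok_TNR : T_TNR := p_TNR ok_SUPR ok_HF p_DET
theorem ok_TNL : T_TNL := p_TNL ok_SUPL ok_HF p_DET
theorem ok_AB : T_AB := p_AB ok_HF p_DET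
theorem ok_DH : T_DH := p_DH ok_SUPL ok_SUPR p_DET
theorem ok_SPI : T_SPI := p_SPI p_DET
theorem ok_A_LAST : T_A_LAST := p_A_LAST
theorem ok_A_LT : T_A_LT := p_A_LT ok_A_LAST
theorem ok_A_MIN : T_A_MIN := p_A_MIN
theorem ok_A_NXT : T_A_NXT := p_A_NXT ok_A_LT
theorem ok_A_BLD : T_A_BLD := p_A_BLD
theorem ok_A_MRG : T_A_MRG := p_A_MRG
theorem ok_A_TANH : T_A_TANH := p_A_TANH ok_A_LAST
theorem ok_A_TANG : T_A_TANG := p_A_TANG ok_A_TANH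
theorem ok_A_FOUR : T_A_FOUR := p_A_FOUR p_MAT
theorem ok_A_PKR : T_A_PKR := p_A_PKR ok_A_FOUR
theorem ok_A_PKL : T_A_PKL := p_A_PKL ok_A_FOUR
theorem ok_A_ONE : T_A_ONE := p_A_ONE ok_A_TANG ok_A_FOUR p_LIV
theorem ok_A_OWN : T_A_OWN := p_A_OWN p_LIV
theorem ok_A_TANR : T_A_TANR := p_A_TANR ok_A_ONE ok_A_PKR
theorem ok_A_TANL : T_A_TANL := p_A_TANL ok_A_ONE ok_A_PKL
theorem ok_A_NB : T_A_NB := p_A_NB ok_A_TANR ok_A_TANL ok_A_OWN ok_TNR ok_TNL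
theorem ok_A_ALB : T_A_ALB := p_A_ALB ok_A_TANR ok_A_TANL ok_A_OWN ok_AB
theorem ok_A_EXH : T_A_EXH := p_A_EXH
theorem ok_A_LF : T_A_LF :=
  p_A_LF ok_A_TANR ok_A_TANL ok_A_OWN ok_A_ALB ok_A_EXH p_LIV ok_DH ok_SUPL ok_SPI
theorem ok_A_PART : T_A_PART := p_A_PART ok_A_BLD ok_A_LF

end Pool.Agent.EVD
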