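import Pool.Agent.EVD.P_DETR

/-! # EVD: the statement of the hand-in

`Exec`, `ConvexPosition`, `dist2` are the only notions besides the machine model of `Model.lean`. -/

namespace Pool.Agent.EVD

/-- The program `p`, run on its own on the input `x`, stops with the output `y` after exactly `n`
steps (and it has no other output and no other running time). -/
def Exec (p : Prog) (x y : Val) (n : ℕ) : Prop :=
  Run Prog.nil p x y n ∧ ∀ (y' : Val) (n' : ℕ), Run Prog.nil p x y' n' → y' = y ∧ n' = n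

/-- The points `p 0, …, p (k - 1)` are in convex position: none of them lies in the convex hull of
the other ones (in particular they are distinct). -/
def ConvexPosition (p : ℕ → ℝ × ℝ) (k : ℕ) : Prop :=
  ∀ i < k, p i ∉ convexHull ℝ {x | ∃ j < k, j ≠ i ∧ p j = x}

/-- The square of the Euclidean distance of two points of the plane. -/
noncomputable def dist2 (q s : ℝ × ℝ) : ℝ := (q.1 - s.1) ^ 2 + (q.2 - s.2) ^ 2

/-- The statement.  There are a program `ins` for the insertions, a program `qry` for the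
point-location queries and a constant `C` such that for every sequence of insertions
`p 0, …, p (m - 1)` for which the current set stays in convex position the following holds.
Starting with the empty data structure `D 0 = nil`, the insertion of `p k` takes `t k` steps and
transforms the data structure `D k` into `D (k + 1)`; the first `n` insertions take together at
most `C n (log n + 1) ^ C` steps, for every `n ≤ m`; and a query for an arbitrary point `q` of the
plane, made when the current set consists of the `k ≥ 1` points `p 0, …, p (k - 1)`, takes at most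
`C (log k + 1)` steps and returns a point of the current set nearest to `q` (it does not change
the data structure). -/
def Statement : Prop :=
  ∃ (ins qry : Prog) (C : ℕ), ∀ (m : ℕ) (p : ℕ → ℝ × ℝ), (∀ k ≤ m, ConvexPosition p k) →
    ∃ (D : ℕ → Val) (t : ℕ → ℕ), D 0 = Val.nil ∧
      (∀ k < m, Exec ins (Val.pair (D k) (pt (p k))) (D (k + 1)) (t k)) ∧
      (∀ n ≤ m, ∑ k ∈ Finset.range n, t k ≤ C * n * (Nat.log 2 n + 1) ^ C) ∧
      ∀ k ≤ m, 1 ≤ k → ∀ q : ℝ × ℝ, ∃ i < k, (∀ j < k, dist2 q (p i) ≤ dist2 q (p j)) ∧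
        ∃ s ≤ C * (Nat.log 2 k + 1), Exec qry (Val.pair (D k) (pt q)) (pt (p i)) s

theorem ConvexPosition.inj {p : ℕ → ℝ × ℝ} {k : ℕ} (h : ConvexPosition p k) :
    ∀ i < k, ∀ j < k, p i = p j → i = j := by
  intro i hi j hj hij
  by_contra hne
  exact h i hi (subset_convexHull ℝ _ ⟨j, hj, fun h1 => hne h1.symm, hij.symm⟩)

theorem exec_of_run {p : Prog} {x y : Val} {n : ℕ} (h : Run Prog.nil p x y n) : Exec p x y n :=
  ⟨h, fun _ _ h' => ⟨(h.det h').1.symm, (h.det h').2.symm⟩⟩

/-- the form of `Main` with the initial value `nil` implies the statement -/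
theorem statement_of_main (h : ∃ (ins qry : Prog) (C : ℕ), ∀ (m : ℕ) (p : ℕ → ℝ × ℝ),
    (∀ i < m, ∀ j < m, p i = p j → i = j) →
    (∀ k ≤ m, ∀ i < k, p i ∉ convexHull ℝ {x | ∃ j < k, j ≠ i ∧ p j = x}) →
    ∃ (D : ℕ → Val) (t : ℕ → ℕ), D 0 = Val.nil ∧
      (∀ k < m, Run Prog.nil ins (Val.pair (D k) (pt (p k))) (D (k + 1)) (t k)) ∧
      (∀ n ≤ m, ∑ k ∈ Finset.range n, t k ≤ C * n * (Nat.log 2 n + 1) ^ C) ∧
      ∀ k ≤ m, 1 ≤ k → ∀ q : ℝ × ℝ, ∃ i < k, ∃ s ≤ C * (Nat.log 2 k + 1),
        Run Prog.nil qry (Val.pair (D k) (pt q)) (pt (p i)) s ∧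
        ∀ j < k, (q.1 - (p i).1) ^ 2 + (q.2 - (p i).2) ^ 2 ≤
          (q.1 - (p j).1) ^ 2 + (q.2 - (p j).2) ^ 2) : Statement := by
  obtain ⟨ins, qry, C, h⟩ := h
  refine ⟨ins, qry, C, fun m p hp => ?_⟩
  obtain ⟨D, t, h0, h1, h2, h3⟩ := h m p (hp m le_rfl).inj hp
  refine ⟨D, t, h0, fun k hk => exec_of_run (h1 k hk), h2, fun k hk hk1 q => ?_⟩
  obtain ⟨i, hi, s, hs, hr, hn⟩ := h3 k hk hk1 q
  exact ⟨i, hi, hn, s, hs, exec_of_run hr⟩

end Pool.Agent.EVD
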