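import Pool.Agent.EVD.P_MAIN
import Pool.Agent.EVD.Statement

/-! # EVD: the statement from the last targets -/

namespace Pool.Agent.EVD

theorem final (h_INT : T_C_INT) (h_QRY : T_C_QRY) (h_SUM : T_N_SUM) (h_SEQ : T_N_SEQ)
    (h_DEP : T_N_DEP) (h_TQ : T_TQ) (h_CS : T_N_CS) : Statement :=
  statement_of_main (main_nil h_INT h_QRY h_SUM h_SEQ h_DEP h_TQ h_CS)

end Pool.Agent.EVD
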