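import Pool.Agent.EVD.TB

/-! # EVD: number of points and of slots (CNT) -/

set_option autoImplicit false

namespace Pool.Agent.EVD

namespace CNT_

theorem cntS_cons (s : Slot ℝ) (rest : List (Slot ℝ)) :
    cntS (s :: rest) = s.N.length + cntS rest := by
  simp [cntS]

theorem cntS_nil : cntS [] = 0 := rfl

theorem ins_none (s : Slot ℝ) (rest : List (Slot ℝ)) (acc : List P) (aps : List (TR ℝ))
    (h : s.part = none) :
    insS (s :: rest) acc aps = mkSlot acc (build (acc.map (mkLf aps))) rest :: rest := by
  rw [insS]
  rw [h]

theorem ins_some (s : Slot ℝ) (rest : List (Slot ℝ)) (acc : List P) (aps : List (TR ℝ)) (t : TR ℝ)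
    (h : s.part = some t) :
    insS (s :: rest) acc aps = mkSlot [] none (insS rest (mrg acc s.N) (t :: aps)) ::
      insS rest (mrg acc s.N) (t :: aps) := by
  rw [insS]
  rw [h]

theorem cnt (h_A_MRG : T_A_MRG) (sl : List (Slot ℝ)) : ∀ (k : ℕ), Sz k sl →
    ∀ (acc : List P) (aps : List (TR ℝ)), cntS (insS sl acc aps) = cntS sl + acc.length := by
  induction sl with
  | nil =>
    intro k _ acc aps
    rw [insS, cntS_cons, cntS_nil]
    show acc.length + 0 = 0 + acc.length
    omega
  | cons s rest ih =>
    intro k hk acc aps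
    obtain ⟨h1, -, -, -, h5⟩ := hk
    cases hp : s.part with
    | none =>
      rw [hp] at h1
      have h1' : s.N = [] := h1
      rw [ins_none s rest acc aps hp, cntS_cons, cntS_cons, h1']
      show acc.length + cntS rest = ([] : List P).length + cntS rest + acc.length
      rw [List.length_nil]
      omega
    | some t =>
      rw [ins_some s rest acc aps t hp, cntS_cons, cntS_cons, ih (k + 1) h5,
        (h_A_MRG acc s.N).2.2]
      show ([] : List P).length + _ = _
      rw [List.length_nil]
      omega

theorem size (sl : List (Slot ℝ)) : ∀ (k : ℕ), Sz k sl → LastFull sl → sl ≠ [] →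
    2 ^ k * 2 ^ sl.length ≤ 2 * cntS sl := by
  induction sl with
  | nil =>
    intro k _ _ h
    exact absurd rfl h
  | cons s rest ih =>
    intro k hk hl _
    obtain ⟨h1, -, -, -, h5⟩ := hk
    rcases rest with _ | ⟨s', rest⟩
    · have h6 : s.part ≠ none := hl s rfl
      obtain ⟨t, ht⟩ := Option.ne_none_iff_exists'.1 h6
      rw [ht] at h1
      have h7 : s.N.length = 2 ^ k := h1.1
      rw [cntS_cons, cntS_nil, h7]
      simp only [List.length_cons, List.length_nil]
      omega
    · have h6 : LastFull (s' :: rest) := by
        intro u hu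
        refine hl u ?_
        rw [List.getLast?_cons_cons]
        exact hu
      have h7 := ih (k + 1) h5 h6 (by simp)
      rw [cntS_cons]
      have h8 : 2 ^ k * 2 ^ (s :: s' :: rest).length = 2 ^ (k + 1) * 2 ^ (s' :: rest).length := by
        rw [List.length_cons (a := s), pow_succ, pow_succ]
        ring
      rw [h8]
      omega

end CNT_

open CNT_ in
/-- number of points and of slots -/
theorem p_CNT (h_A_MRG : T_A_MRG) : T_CNT := fun sl k hk =>
  ⟨cnt h_A_MRG sl k hk, size sl k hk⟩

end Pool.Agent.EVD
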