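import Pool.Agent.EVD.TB
import Pool.Agent.EVD.P_CNT

/-! # EVD: amortised analysis of the binary counter (AMO) -/

set_option autoImplicit false

namespace Pool.Agent.EVD

namespace AMO_

theorem pot_cons_some (M k : ℕ) (s : Slot ℝ) (rest : List (Slot ℝ)) (t : TR ℝ)
    (h : s.part = some t) : pot M k (s :: rest) = 2 ^ k * (M - k) + pot M (k + 1) rest := by
  rw [pot, h]

theorem pot_cons_none (M k : ℕ) (s : Slot ℝ) (rest : List (Slot ℝ))
    (h : s.part = none) : pot M k (s :: rest) = pot M (k + 1) rest := by
  rw [pot, h]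
  exact Nat.zero_add _

theorem wI_cons_some (k : ℕ) (s : Slot ℝ) (rest : List (Slot ℝ)) (t : TR ℝ)
    (h : s.part = some t) : wI k (s :: rest) = 2 ^ k + wI (k + 1) rest := by
  rw [wI, h]

theorem wI_cons_none (k : ℕ) (s : Slot ℝ) (rest : List (Slot ℝ))
    (h : s.part = none) : wI k (s :: rest) = 2 ^ k := by
  rw [wI, h]

theorem build_some (h_A_BLD : T_A_BLD) (acc : List P) (aps : List (TR ℝ)) (h : acc ≠ []) :
    ∃ t, build (acc.map (mkLf aps)) = some t := by
  obtain ⟨t, ht, -⟩ := h_A_BLD.2 (acc.map (mkLf aps)) (by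
    intro h0
    exact h (List.map_eq_nil_iff.1 h0))
  exact ⟨t, ht⟩

end AMO_

open AMO_ in
/-- `T_AMO`. -/
theorem p_AMO (h_A_BLD : T_A_BLD) (h_A_MRG : T_A_MRG) : T_AMO := by
  intro M sl
  induction sl with
  | nil =>
    intro k acc aps hacc hk
    obtain ⟨t, ht⟩ := build_some h_A_BLD acc aps hacc
    rw [insS]
    have h1 : (mkSlot acc (build (acc.map (mkLf aps))) []).part = some t := ht
    rw [pot_cons_some M k _ [] t h1]
    simp only [wI, pot]
    ring
  | cons s rest ih =>
    intro k acc aps hacc hk
    rw [List.length_cons] at hk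
    cases hp : s.part with
    | none =>
      obtain ⟨t, ht⟩ := build_some h_A_BLD acc aps hacc
      rw [CNT_.ins_none s rest acc aps hp]
      have h1 : (mkSlot acc (build (acc.map (mkLf aps))) rest).part = some t := ht
      rw [pot_cons_some M k _ rest t h1, wI_cons_none k s rest hp, pot_cons_none M k s rest hp]
      ring
    | some t =>
      rw [CNT_.ins_some s rest acc aps t hp]
      have h1 : (mkSlot ([] : List P) (none : Option (TR ℝ))
        (insS rest (mrg acc s.N) (t :: aps))).part = none := rfl
      have h2 : mrg acc s.N ≠ [] := by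
        intro h0
        have h3 := (h_A_MRG acc s.N).2.2
        rw [h0, List.length_nil] at h3
        have h4 : 0 < acc.length := List.length_pos_iff.2 hacc
        omega
      have h5 := ih (k + 1) (mrg acc s.N) (t :: aps) h2 (by omega)
      rw [pot_cons_none M k _ _ h1, wI_cons_some k s rest t hp, pot_cons_some M k s rest t hp,
        add_assoc, h5]
      have h6 : M - (k + 1) + 1 = M - k := by omega
      rw [h6]
      ring

end Pool.Agent.EVD
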