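import Pool.Agent.EVD.TA

/-! # EVD: death height and spine of `mkLf` are correct -/

set_option autoImplicit false

namespace Pool.Agent.EVD

theorem A_LF_.void {S : Set P} {f : P} (hf : f ∈ S)
    (h : (∀ a ∈ S, f.1 ≤ a.1) ∨ ∀ c ∈ S, c.1 ≤ f.1) :
    (⟨f, none, 0, 0, QT.stop, QT.stop⟩ : Lf ℝ).s = f ∧
      LfOK S (⟨f, none, 0, 0, QT.stop, QT.stop⟩ : Lf ℝ) :=
  ⟨rfl, hf, h, fun _ he => absurd he (by simp)⟩

theorem p_A_LF (hTR : T_A_TANR) (hTL : T_A_TANL) (hOWN : T_A_OWN) (hALB : T_A_ALB)
    (hEXH : T_A_EXH) (hLIV : T_LIV) (hDH : T_DH) (hSUPL : T_SUPL) (hSPI : T_SPI) : T_A_LF := by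
  intro S ps f hch hps hf
  obtain ⟨hfin, hOsub, hOal, hOall⟩ := hOWN S ps hps
  have hL0 := hTL S S ps (cutT none) f hch hf subset_rfl hps (cut_cutT none)
  have hR0 := hTR S S ps (cutT none) f hch hf subset_rfl hps (cut_cutT none)
  rw [hOall] at hL0 hR0
  unfold mkLf
  cases hpr : tanL (cutT none) f ps with
  | none => exact A_LF_.void hf (Or.inl (hL0.2 hpr))
  | some pr =>
    cases hsu : tanR (cutT none) f ps with
    | none => exact A_LF_.void hf (Or.inr (hR0.2 hsu))
    | some su =>
      have hOL : OptL (cutT none) f S pr.s := by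
        have := hL0.1
        rw [hpr] at this
        exact this
      have hOR : OptR (cutT none) f S su.s := by
        have := hR0.1
        rw [hsu] at this
        exact this
      obtain ⟨h0, hh0⟩ := (hEXH S f hfin hf).1
      obtain ⟨h, rfl⟩ : ∃ h, h0 = some h := by
        cases h0 with
        | none =>
          exfalso
          rcases hh0 with h1 | h1
          · exact absurd hOL.2.1 (not_lt.2 (h1 _ hOL.1))
          · exact absurd hOR.2.1 (not_lt.2 (h1 _ hOR.1))
        | some h => exact ⟨h, rfl⟩
      have hD : ∀ x, (fun r => !aliveB ps f r) x = true ↔ x ≤ h := by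
        intro x
        have h1 := hALB S ps f x hch hps hf
        have h2 := hLIV S (cutT (some x)) f (some h) (cut_cutT _) hf hh0
        have h3 : live (cutT (some x)) (some h) = true ↔ h < x := by
          simp [live, cutT]
        rw [h2, h3] at h1
        show (!aliveB ps f x) = true ↔ x ≤ h
        rw [Bool.not_eq_true', ← Bool.not_eq_true, h1, not_lt]
      generalize hDe : (fun r => !aliveB ps f r) = D at hD ⊢
      have hCut : Cut D := fun r r' h1 h2 => (hD r').2 (h1.trans ((hD r).1 h2))
      have hNear : Near D h := fun r => ⟨fun h1 => (hD r).1 h1, fun h1 => by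
        by_contra h2
        rw [(hD r).2 (not_le.1 h2).le] at h1
        exact Bool.noConfusion h1⟩
      have hWal : Wal (some h) S f := by
        refine ⟨hf, fun t ht a ha c hc h1 h2 => ?_⟩
        obtain rfl := Option.some.inj ht
        exact hh0.2 a ha c hc h1 h2
      have hL1 := hTL S S ps D f hch hf subset_rfl hps hCut
      have hR1 := hTR S S ps D f hch hf subset_rfl hps hCut
      cases hl : tanL D f ps with
      | none => exact absurd hOL.2.1 (not_lt.2 (hL1.2 hl _ hOL.1))
      | some l =>
        cases hr : tanR D f ps with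
        | none => exact absurd hOR.2.1 (not_lt.2 (hR1.2 hr _ hOR.1))
        | some r =>
          have hOL1 : OptL D f (Own D ps) l.s := by
            have := hL1.1
            rw [hl] at this
            exact this
          have hOR1 : OptR D f (Own D ps) r.s := by
            have := hR1.1
            rw [hr] at this
            exact this
          have hcc : cc l.s f r.s = h :=
            hDH S (Own D ps) D h f l.s r.s hfin hch hf hh0 hD (hOal D hCut) (hOsub D) hOL1 hOR1
          have hH : IsH S f (some (cc l.s f r.s)) := by
            rw [hcc]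
            exact hh0
          have hNear' : Near D (cc l.s f r.s) := by
            rw [hcc]
            exact hNear
          have hWal' : Wal (some (cc l.s f r.s)) S f := by
            rw [hcc]
            exact hWal
          refine ⟨rfl, hf, hH, ?_⟩
          refine hSPI S (cc l.s f r.s) f l.s r.s pr.s su.s QT.stop QT.stop hfin hch hf
            (hOsub D hOL1.1) (hOsub D hOR1.1) hOL.1 hOR.1 hH hOL1.2.1 hOR1.2.1 hOL.2.1 hOR.2.1
            ?_ ?_ ?_
          · intro s hs h1
            by_contra h2
            have h3 := (hOL.2.2 s hs h1).2 (not_le.1 h2)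
            exact Bool.noConfusion h3
          · intro s hs h1
            by_contra h2
            have h3 := (hOR.2.2 s hs h1).1 (not_le.1 h2)
            exact Bool.noConfusion h3
          · exact hSUPL S (Own D ps) D (cc l.s f r.s) f l.s hfin hch hCut hNear' hWal'
              (hOal D hCut) (hOsub D) hOL1

end Pool.Agent.EVD
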