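import Pool.Agent.EVD.TA

/-! # EVD: the next live leaves in a range -/

set_option autoImplicit false

namespace Pool.Agent.EVD

namespace A_NXT_

theorem filt_cons {L : List (Lf ℝ)} (hL : Srt L) {e : Lf ℝ} (he : e ∈ L) (Q Q' : Lf ℝ → Bool)
    (hQe : Q e = true) (hlt : ∀ d ∈ L, d.s.1 < e.s.1 → Q d = false)
    (hgt : ∀ d ∈ L, e.s.1 < d.s.1 → Q' d = Q d)
    (hle' : ∀ d ∈ L, d.s.1 ≤ e.s.1 → Q' d = false) :
    L.filter Q = e :: L.filter Q' := by
  induction L with
  | nil => simp at he
  | cons c L ih =>
    unfold Srt at hL
    rw [List.pairwise_cons] at hL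
    by_cases hce : e = c
    · subst hce
      rw [List.filter_cons_of_pos hQe, List.filter_cons_of_neg (by
        rw [hle' e (List.mem_cons_self) le_rfl]; simp)]
      congr 1
      apply List.filter_congr
      intro d hd
      exact (hgt d (List.mem_cons_of_mem _ hd) (hL.1 d hd)).symm
    · have heL : e ∈ L := (List.mem_cons.1 he).resolve_left hce
      have hc : c.s.1 < e.s.1 := hL.1 e heL
      rw [List.filter_cons_of_neg (by rw [hlt c (List.mem_cons_self) hc]; simp),
        List.filter_cons_of_neg (by rw [hle' c (List.mem_cons_self) hc.le]; simp)]
      exact ih hL.2 heL (fun d hd => hlt d (List.mem_cons_of_mem _ hd))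
        (fun d hd => hgt d (List.mem_cons_of_mem _ hd))
        (fun d hd => hle' d (List.mem_cons_of_mem _ hd))

end A_NXT_

open A_NXT_ in
theorem p_A_NXT (h_A_LT : T_A_LT) : T_A_NXT := by
  intro D t x' n
  induction n with
  | zero =>
    intro x _ _
    simp [nexts]
  | succ n ih =>
    intro x hD ht
    have hF := (h_A_LT D x t hD ht).2
    unfold nexts
    cases hf : firstGt D x t with
    | none =>
      rw [hf] at hF
      have hnil : t.toL.filter (fun d => decide (x < d.s.1) && (decide (d.s.1 < x') && live D d.h))
          = [] := by
        rw [List.filter_eq_nil_iff]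
        intro d hd h
        rw [Bool.and_eq_true, Bool.and_eq_true, decide_eq_true_eq, decide_eq_true_eq] at h
        have h2 := hF d hd h.1
        rw [h.2.2] at h2
        exact Bool.noConfusion h2
      rw [hnil, List.take_nil]
    | some e =>
      rw [hf] at hF
      obtain ⟨he, hxe, hle, hmin⟩ := hF
      dsimp only
      by_cases hex : e.s.1 < x'
      · rw [if_pos hex, ih e.s.1 hD ht]
        have hc := filt_cons ht.2 he
          (fun d => decide (x < d.s.1) && (decide (d.s.1 < x') && live D d.h))
          (fun d => decide (e.s.1 < d.s.1) && (decide (d.s.1 < x') && live D d.h))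
          (by simp [hxe, hex, hle])
          (by
            intro d hd hlt
            by_cases hx : x < d.s.1
            · rw [hmin d hd hx hlt]
              simp
            · simp [hx])
          (by
            intro d hd hgt
            have hx : x < d.s.1 := lt_trans hxe hgt
            simp [hx, hgt])
          (by
            intro d hd hle1
            simp [not_lt.2 hle1])
        rw [hc, List.take_succ_cons]
      · rw [if_neg hex]
        have hnil : t.toL.filter
            (fun d => decide (x < d.s.1) && (decide (d.s.1 < x') && live D d.h)) = [] := by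
          rw [List.filter_eq_nil_iff]
          intro d hd h
          rw [Bool.and_eq_true, Bool.and_eq_true, decide_eq_true_eq, decide_eq_true_eq] at h
          have hlt : d.s.1 < e.s.1 := lt_of_lt_of_le h.2.1 (not_lt.1 hex)
          have h2 := hmin d hd h.1 hlt
          rw [h.2.2] at h2
          exact Bool.noConfusion h2
        rw [hnil, List.take_nil]

end Pool.Agent.EVD
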