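import Pool.Agent.EVD.EncD

set_option autoImplicit false

namespace Pool.Agent.EVD

theorem BOO_.tru (α : Type) [Enc α] : CB (fun _ : α => true) (fun _ => 0) :=
  ⟨Prog.fork Prog.nil Prog.nil, 3, fun _ _ => ⟨1 + 1 + 1, by simp,
    Run.fork _ _ _ _ _ _ _ _ (Run.prim _ _ _ _ rfl) (Run.prim _ _ _ _ rfl)⟩⟩

theorem BOO_.fal (α : Type) [Enc α] : CB (fun _ : α => false) (fun _ => 0) :=
  CB.nilv false rfl

theorem p_BOO (α : Type) [Enc α] : T_BOO α := by
  refine ⟨BOO_.tru α, BOO_.fal α, fun t A ht => ?_, fun t t' A A' ht ht' => ⟨?_, ?_⟩⟩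
  · have h := CB.ite ht (BOO_.fal α) (BOO_.tru α)
    refine (h.mono 1 (B' := A) fun x => ?_).congr fun x => ?_
    · cases t x <;> simp
    · cases t x <;> simp
  · have h := CB.ite ht ht' (BOO_.fal α)
    refine (h.mono 1 (B' := fun x => A x + A' x) fun x => ?_).congr fun x => ?_
    · cases t x
      · simp only [Bool.false_eq_true, if_false]
        omega
      · simp only [if_true]
        omega
    · cases t x <;> simp
  · have h := CB.ite ht (BOO_.tru α) ht'
    refine (h.mono 1 (B' := fun x => A x + A' x) fun x => ?_).congr fun x => ?_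
    · cases t x
      · simp only [Bool.false_eq_true, if_false]
        omega
      · simp only [if_true]
        omega
    · cases t x <;> simp

end Pool.Agent.EVD
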