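import Pool.Agent.EVD.TB

/-! # EVD: `T_CHI`, the child structure solves the gap -/

set_option autoImplicit false

namespace Pool.Agent.EVD

namespace CHI_

theorem cut_le {T : Option ℝ} {y : ℝ} (h : leT y T) (r : ℝ) (hr : cutT (some y) r = true) :
    cutT T r = true := by
  cases T with
  | none => rfl
  | some t =>
    rw [cutT_some] at hr ⊢
    exact hr.trans_le (h t rfl)

theorem inW_some {lo hi : P} {e : Lf ℝ} (h1 : lo.1 < e.s.1) (h2 : e.s.1 < hi.1) :
    inW lo hi (some e) = true := by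
  simp [inW, h1, h2]

theorem of_inW {lo hi : P} {o : Option (Lf ℝ)} (h : inW lo hi o = true) :
    ∃ e, o = some e ∧ lo.1 < e.s.1 ∧ e.s.1 < hi.1 := by
  cases o with
  | none => simp [inW] at h
  | some e =>
    simp only [inW] at h
    split at h
    · rename_i h1
      exact ⟨e, rfl, h1, by simpa using h⟩
    · exact absurd h (by simp)

/-- the finger exists and is alive in the window -/
theorem finger_some (h_NB : T_A_NB) {S : Set P} {ps : List (TR ℝ)} {T : Option ℝ} {f lo hi s : P}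
    (hch : Chn S) (hps : PartsOK S ps) (hw : Wal T S f) (h1 : lo.1 ≤ f.1) (h2 : f.1 ≤ hi.1)
    (hs : Al (cutT T) S s) (hl : lo.1 < s.1) (hh : s.1 < hi.1) (hne : s.1 ≠ f.1) :
    ∃ p, finger ps T f lo hi = some p ∧ Al (cutT T) S p.s ∧ lo.1 < p.s.1 ∧ p.s.1 < hi.1 := by
  obtain ⟨n1, n2, n3, n4⟩ := h_NB S ps T f hch hps hw
  by_cases hL : inW lo hi (tanL (cutT T) f ps) = true
  · obtain ⟨e, he, e1, e2⟩ := of_inW hL
    refine ⟨e, ?_, (n4 e he).2.1, e1, e2⟩
    unfold finger
    rw [if_pos hL]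
    exact he
  · have hfs : f.1 < s.1 := by
      by_contra hcon
      have hlt : s.1 < f.1 := lt_of_le_of_ne (not_lt.mp hcon) hne
      rcases ho : tanL (cutT T) f ps with _ | l
      · exact absurd (n2 ho s hs.1) (not_le.mpr hlt)
      · obtain ⟨a1, _, a3⟩ := n4 l ho
        apply hL
        rw [ho]
        exact inW_some (hl.trans_le (a3 s hs hlt)) (a1.trans_le h2)
    rcases ho : tanR (cutT T) f ps with _ | r
    · exact absurd (n1 ho s hs.1) (not_le.mpr hfs)
    · obtain ⟨a1, a2, a3⟩ := n3 r ho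
      have b1 : lo.1 < r.s.1 := h1.trans_lt a1
      have b2 : r.s.1 < hi.1 := (a3 s hs hfs).trans_lt hh
      refine ⟨r, ?_, a2, b1, b2⟩
      unfold finger
      rw [if_neg hL, ho, if_pos (inW_some b1 b2)]

end CHI_

open CHI_ in
theorem p_CHI (h_NNA : T_NNA) (h_MON : T_MON) (h_NB : T_A_NB) (h_NNS : T_NNS) (h_LIV : T_LIV)
    (h_GAP : T_GAP) (h_GQ : T_GQ) : T_CHI := by
  intro S S' ps lower T f lo hi hfin hch hsub hps hlow hw h1 h2 hnf hcov q s hq hnn hl hh
  have hAl : Al (cutT T) S s :=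
    (h_MON S S (cutT (some q.2)) (cutT T) subset_rfl).2.2 (cut_le hq) s (h_NNA S q s hch hnn)
  obtain ⟨hs', hsn⟩ := hcov s hAl hl hh
  have hne : s.1 ≠ f.1 := by
    intro h
    have : s = f := hch.eq hAl.1 hw.1 h
    subst this
    exact hnf ⟨hAl, hl, hh⟩
  obtain ⟨p, hp, hpA, hp1, hp2⟩ := finger_some h_NB hch hps hw h1 h2 hAl hl hh hne
  obtain ⟨hp', hpn⟩ := hcov p.s hpA hp1 hp2
  unfold child
  rw [hp]
  show (gapQ T p.s.1 lower).Seen q s
  rcases lower with _ | ct
  · have : S' = ∅ := hlow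
    rw [this] at hs'
    exact absurd hs' (Set.notMem_empty s)
  · have hct : LowOK S' ct := hlow
    -- no live sample element lies between two alive sites of the window
    have key : ∀ x y : P, Al (cutT T) S x → Al (cutT T) S y → lo.1 < x.1 → y.1 < hi.1 →
        ∀ d ∈ ct.toL, live (cutT T) d.h = true → x.1 < d.s.1 → d.s.1 < y.1 → False := by
      intro x y hx hy hx1 hy1 d hd hdl hxd hdy
      have hdS := hct.2.1 d hd
      have hdA : Al (cutT T) S' d.s := (h_LIV S' (cutT T) d.s d.h (cut_cutT T) hdS.1 hdS.2).2 hdl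
      have hdA' : Al (cutT T) S d.s := h_GAP S S' (cutT T) x y d.s hfin hch (cut_cutT T) hsub hx hy
        hxd hdy (fun t ht ht1 ht2 => (hcov t ht (hx1.trans_le ht1) (ht2.trans_lt hy1)).1) hdA
      exact (hcov d.s hdA' (hx1.trans hxd) (hdy.trans hy1)).2 ⟨d, hd, rfl⟩
    refine h_GQ S' ct T p.s q s (hfin.subset hsub) (hch.mono hsub) hct hp' hpn hs' hsn
      (h_NNS S S' q s hsub hs' hnn) hq ?_
    intro d hd hdl
    have hdS : d.s ∈ S := hsub (hct.2.1 d hd).1
    constructor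
    · intro hlt
      by_contra hcon
      have hne' : s.1 ≠ d.s.1 := fun h => hsn ⟨d, hd, (hch.eq hAl.1 hdS h).symm⟩
      exact key s p.s hAl hpA hl hp2 d hd hdl (lt_of_le_of_ne (not_lt.mp hcon) hne') hlt
    · intro hlt
      by_contra hcon
      have hne' : p.s.1 ≠ d.s.1 := fun h => hpn ⟨d, hd, (hch.eq hpA.1 hdS h).symm⟩
      exact key p.s s hpA hAl hp1 hh d hd hdl (lt_of_le_of_ne (not_lt.mp hcon) hne') hlt

end Pool.Agent.EVD
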