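import Pool.Agent.EVD.TT

/-! # EVD: target CHL (the lower part, upside down, is a chain) -/

namespace Pool.Agent.EVD

theorem CHL_facts (h_ONL : T_ONL) (S L : Set P) (w e : P) (hC : ConvPos S) (hM : LexM S w e)
    (hL : L ⊆ S) (hu : ∀ u ∈ L, Cr w e u < 0) (b : P) (hb : b ∈ L) :
    b ≠ w ∧ b ≠ e ∧ w.1 < e.1 ∧ w.1 ≤ b.1 ∧ b.1 ≤ e.1 := by
  have h1 := hu b hb
  have hw : b ≠ w := by
    rintro rfl
    unfold Cr at h1
    linarith
  have he : b ≠ e := by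
    rintro rfl
    unfold Cr at h1
    linarith
  obtain ⟨h2, h3, h4, _⟩ := h_ONL S w e b hC hM (hL hb) hw he
  exact ⟨hw, he, h2, h3, h4⟩

theorem CHL_eq (h_CPW : T_CPW) (h_ONL : T_ONL) (S L : Set P) (w e : P) (hC : ConvPos S)
    (hM : LexM S w e) (hL : L ⊆ S) (hu : ∀ u ∈ L, Cr w e u < 0) (a b : P) (ha : a ∈ L)
    (hb : b ∈ L) (h1 : a.1 = b.1) (h2 : a.2 ≤ b.2) : a = b := by
  by_contra h3
  obtain ⟨f1, f2, f3, f4, f5⟩ := CHL_facts h_ONL S L w e hC hM hL hu b hb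
  exact h_CPW S w e a b hC hM.1 hM.2.1 (hL ha) (hL hb) f1 f2 (fun h => h3 h.symm) f3 f4 f5 h1
    (Or.inr ⟨(hu b hb).le, h2⟩)

theorem p_CHL (h_CPV : T_CPV) (h_CPW : T_CPW) (h_ONL : T_ONL) : T_CHL := by
  intro S L w e hC hM hL hu
  refine ⟨?_, ?_⟩
  · rintro _ ⟨a, ha, rfl⟩ _ ⟨b, hb, rfl⟩ h1
    have h1' : a.1 = b.1 := h1
    rcases le_total a.2 b.2 with h2 | h2
    · rw [CHL_eq h_CPW h_ONL S L w e hC hM hL hu a b ha hb h1' h2]
    · rw [CHL_eq h_CPW h_ONL S L w e hC hM hL hu b a hb ha h1'.symm h2]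
  · rintro _ ⟨a, ha, rfl⟩ _ ⟨b, hb, rfl⟩ _ ⟨c, hc, rfl⟩ h1 h2
    have h1' : a.1 < b.1 := h1
    have h2' : b.1 < c.1 := h2
    have e1 : ccB (mir a) (mir b) (mir c) = - Cr a c b := by
      unfold ccB mir Cr
      simp only
      ring
    rw [e1]
    by_contra h3
    have h4 : 0 ≤ Cr a c b := by linarith
    obtain ⟨f1, f2, f3, f4, f5⟩ := CHL_facts h_ONL S L w e hC hM hL hu b hb
    have n1 : b ≠ a := by
      rintro rfl
      exact lt_irrefl _ h1'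
    have n2 : b ≠ c := by
      rintro rfl
      exact lt_irrefl _ h2'
    exact h_CPV S a c w e b hC (hL ha) (hL hc) hM.1 hM.2.1 (hL hb) n1 n2 f1 f2
      (h1'.trans h2') h1'.le h2'.le f3 f4 f5 h4 (hu b hb).le

end Pool.Agent.EVD
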