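import Pool.Agent.EVD.TB

/-! # EVD, target CHR: the range of a child -/

set_option autoImplicit false

namespace Pool.Agent.EVD

namespace CHR_

/-- the structure of a gap is `stop` or one of the structures of a sample element -/
theorem gap (h_LT : T_A_LT) (h_MIN : T_A_MIN) (R : QT ℝ → Prop) (T : Option ℝ) (x : ℝ) (ct : TR ℝ)
    (h0 : R QT.stop) (hct : TreeOK ct) (h1 : ∀ d ∈ ct.toL, R d.q1 ∧ R d.q2) :
    R (gapQ T x (some ct)) := by
  have hL := h_LT (cutT T) x ct (cut_cutT T) hct
  cases ha : lastLt (cutT T) x ct with
  | none => simpa only [gapQ, ha] using h0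
  | some c =>
    cases hb : firstGt (cutT T) x ct with
    | none => simpa only [gapQ, ha, hb] using h0
    | some c' =>
      have hc' : c' ∈ ct.toL := by
        have h2 := hL.2
        rw [hb] at h2
        exact h2.1
      have hM := (h_MIN ct c.s.1 c'.s.1 hct).2.2
      cases hm : minIn c.s.1 c'.s.1 ct with
      | none => simpa only [gapQ, ha, hb, hm] using (h1 c' hc').1
      | some d =>
        rw [hm] at hM
        simpa only [gapQ, ha, hb, hm] using (h1 d hM.1).2

end CHR_

/-- Target CHR. -/
theorem p_CHR (h_LT : T_A_LT) (h_MIN : T_A_MIN) : T_CHR := by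
  intro R ps lower T f lo hi h0 hR
  unfold child
  cases finger ps T f lo hi with
  | none => exact h0
  | some p =>
    cases lower with
    | none => exact h0
    | some ct => exact CHR_.gap h_LT h_MIN R T p.s.1 ct h0 (hR ct rfl).1 (hR ct rfl).2

end Pool.Agent.EVD
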