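import Pool.Agent.EVD.TT

/-! # EVD: the upper part is a chain -/

namespace Pool.Agent.EVD

namespace CHU_

theorem ne_left {w e u : P} (h : 0 < Cr w e u) : u ≠ w := by
  rintro rfl
  have : Cr u e u = 0 := by unfold Cr; ring
  rw [this] at h
  exact lt_irrefl _ h

theorem ne_right {w e u : P} (h : 0 < Cr w e u) : u ≠ e := by
  rintro rfl
  have : Cr w u u = 0 := by unfold Cr; ring
  rw [this] at h
  exact lt_irrefl _ h

theorem ccB_eq (a b c : P) : ccB a b c = Cr a c b := by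
  unfold ccB Cr
  ring

end CHU_

open CHU_

theorem p_CHU (h_CPV : T_CPV) (h_CPW : T_CPW) (h_ONL : T_ONL) : T_CHU := by
  intro S U w e hS hL hU hC
  have key : ∀ u ∈ U, u ∈ S ∧ u ≠ w ∧ u ≠ e ∧ w.1 < e.1 ∧ w.1 ≤ u.1 ∧ u.1 ≤ e.1 := by
    intro u hu
    have h1 := h_ONL S w e u hS hL (hU hu) (ne_left (hC u hu)) (ne_right (hC u hu))
    exact ⟨hU hu, ne_left (hC u hu), ne_right (hC u hu), h1.1, h1.2.1, h1.2.2.1⟩
  have low : ∀ a ∈ U, ∀ b ∈ U, a.1 = b.1 → b.2 ≤ a.2 → a = b := by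
    intro a ha b hb h1 h2
    by_contra hne
    obtain ⟨k1, k2, k3, k4, k5, k6⟩ := key b hb
    exact h_CPW S w e a b hS hL.1 hL.2.1 (hU ha) k1 k2 k3 (Ne.symm hne) k4 k5 k6 h1
      (Or.inl ⟨(hC b hb).le, h2⟩)
  refine ⟨fun a ha b hb h1 => ?_, fun a ha b hb c hc h1 h2 => ?_⟩
  · rcases le_total b.2 a.2 with h2 | h2
    · exact low a ha b hb h1 h2
    · exact (low b hb a ha h1.symm h2).symm
  · by_contra hneg
    rw [ccB_eq] at hneg
    obtain ⟨k1, k2, k3, k4, k5, k6⟩ := key b hb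
    have hba : b ≠ a := by
      rintro rfl
      exact lt_irrefl _ h1
    have hbc : b ≠ c := by
      rintro rfl
      exact lt_irrefl _ h2
    exact h_CPV S w e a c b hS hL.1 hL.2.1 (hU ha) (hU hc) k1 k2 k3 hba hbc k4 k5 k6
      (h1.trans h2) h1.le h2.le (hC b hb).le (not_lt.1 hneg)

end Pool.Agent.EVD
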