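import Pool.Agent.EVD.EncD

/-!
# EVD: CON (constructors of lists and options)
-/

set_option autoImplicit false

namespace Pool.Agent.EVD

theorem p_CON (α β : Type) [Enc α] [Enc β] : T_CON α β := by
  refine ⟨CB.recode fun x => rfl, CB.nilv _ rfl, ?_, CB.nilv _ rfl⟩
  refine ⟨Prog.fork Prog.id Prog.nil, 3, fun b x => ⟨_, ?_, Run.fork _ _ _ _ _ _ _ _
    (Run.prim _ _ _ _ rfl) (Run.prim _ _ _ _ rfl)⟩⟩
  omega

end Pool.Agent.EVD
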