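import Pool.Agent.EVD.TB

/-! # EVD: the structure of one chain satisfies ChainSpec -/

namespace Pool.Agent.EVD

namespace COS_

lemma lset_union (p : P) (U : Set P) : lset [p] ∪ U = insert p U := by
  ext x
  simp [lset]

lemma parts_leaf (p : P) :
    PartsOK (lset [p]) [TR.leaf ⟨p, none, 0, 0, QT.stop, QT.stop⟩] := by
  refine ⟨lset [p], ∅, by simp, ⟨⟨trivial, ?_⟩, ?_, ?_⟩, rfl⟩
  · simp [Srt, TR.toL]
  · ext x
    simp [sites, TR.toL, lset, eq_comm]
  · intro d hd
    simp only [TR.toL, List.mem_singleton] at hd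
    subst hd
    left
    intro a ha
    simp only [lset, List.mem_singleton, Set.mem_setOf_eq] at ha
    rw [ha]

end COS_

theorem p_COS (h_INS : T_INS) (h_ROT : T_ROT) (h_RIN : T_RIN) : T_COS where
  empty := ⟨rfl, rfl, Set.finite_empty, by
    refine ⟨fun a ha => ?_, fun a ha => ?_⟩ <;> exact absurd ha (Set.notMem_empty a)⟩
  ins := by
    intro c U p hc hU hp hch
    have hd : Disjoint (lset [p]) U := by
      rw [Set.disjoint_left]
      intro a ha
      simp only [lset, List.mem_singleton, Set.mem_setOf_eq] at ha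
      rw [ha]
      exact hp
    have h := h_INS c.sl U [p] [TR.leaf ⟨p, none, 0, 0, QT.stop, QT.stop⟩] hc.1
      (by simp [SrtP]) (by simp) (COS_.parts_leaf p) hd hU
      (by rw [COS_.lset_union]; exact hch)
    rw [COS_.lset_union] at h
    exact ⟨h, rfl, hU.insert p, hch⟩
  seen := by
    intro c U q s hc hs
    rw [hc.2.1]
    exact h_ROT c.sl U q s hc.1 hc.2.2.1 hc.2.2.2 hs
  inn := by
    intro c U hc
    rw [hc.2.1]
    exact h_RIN c.sl U hc.1 hc.2.2.1 hc.2.2.2

end Pool.Agent.EVD
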