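import Pool.Agent.EVD.TT

/-! # EVD: T_CPG -/

namespace Pool.Agent.EVD

theorem p_CPG : T_CPG := by
  intro S w e a c b m1 m2 hS hw he ha hc hb h1 h2 h3 h4 hm1 hm2 hbm
  have key : ∀ x ∈ S, b ≠ x → x ∈ convexHull ℝ (S \ {b}) :=
    fun x hx hxb => subset_convexHull ℝ _ ⟨hx, fun h => hxb h.symm⟩
  have cv := convex_convexHull ℝ (S \ {b})
  have hs1 := cv.segment_subset (key w hw h1) (key e he h2) hm1
  have hs2 := cv.segment_subset (key a ha h3) (key c hc h4) hm2
  exact hS b hb (cv.segment_subset hs1 hs2 hbm)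

end Pool.Agent.EVD
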