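import Pool.Agent.EVD.TT

set_option autoImplicit false

namespace Pool.Agent.EVD

theorem p_CPS : T_CPS := by
  intro S S' h hS p hp hc
  exact hS p (h hp) (convexHull_mono (Set.diff_subset_diff_left h) hc)

end Pool.Agent.EVD
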