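import Pool.Agent.EVD.TT

/-!
# EVD: point between two lines
-/

namespace Pool.Agent.EVD

namespace CPV_

theorem seg_pt {w e : P} {x : ℝ} (h : w.1 < e.1) (h1 : w.1 ≤ x) (h2 : x ≤ e.1) :
    ((x, w.2 + (x - w.1) / (e.1 - w.1) * (e.2 - w.2)) : P) ∈ segment ℝ w e := by
  have h0 : 0 < e.1 - w.1 := by linarith
  refine ⟨1 - (x - w.1) / (e.1 - w.1), (x - w.1) / (e.1 - w.1), ?_,
    div_nonneg (by linarith) h0.le, by ring, Prod.ext ?_ ?_⟩
  · have : (x - w.1) / (e.1 - w.1) ≤ 1 := (div_le_one h0).2 (by linarith)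
    linarith
  · show (1 - (x - w.1) / (e.1 - w.1)) * w.1 + (x - w.1) / (e.1 - w.1) * e.1 = x
    field_simp
    ring
  · show (1 - (x - w.1) / (e.1 - w.1)) * w.2 + (x - w.1) / (e.1 - w.1) * e.2 =
      w.2 + (x - w.1) / (e.1 - w.1) * (e.2 - w.2)
    ring

theorem seg_vert {x y1 y2 y : ℝ} (h1 : y1 ≤ y) (h2 : y ≤ y2) :
    ((x, y) : P) ∈ segment ℝ ((x, y1) : P) (x, y2) := by
  rcases (h1.trans h2).eq_or_lt with h | h
  · have e1 : y = y1 := le_antisymm (by linarith) h1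
    rw [e1]
    exact left_mem_segment ℝ _ _
  · have h0 : 0 < y2 - y1 := by linarith
    refine ⟨1 - (y - y1) / (y2 - y1), (y - y1) / (y2 - y1), ?_,
      div_nonneg (by linarith) h0.le, by ring, Prod.ext ?_ ?_⟩
    · have : (y - y1) / (y2 - y1) ≤ 1 := (div_le_one h0).2 (by linarith)
      linarith
    · show (1 - (y - y1) / (y2 - y1)) * x + (y - y1) / (y2 - y1) * x = x
      ring
    · show (1 - (y - y1) / (y2 - y1)) * y1 + (y - y1) / (y2 - y1) * y2 = y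
      field_simp
      ring

end CPV_

open CPV_ in
theorem p_CPV (h_CPG : T_CPG) : T_CPV := by
  intro S w e a c b hS hw he ha hc hb n1 n2 n3 n4 hwe h1 h2 hac h3 h4 h5 h6
  refine h_CPG S w e a c b _ _ hS hw he ha hc hb n1 n2 n3 n4 (seg_pt hwe h1 h2) (seg_pt hac h3 h4)
    ?_
  have e0 : b = (b.1, b.2) := rfl
  rw [e0]
  refine seg_vert ?_ ?_
  · have h0 : 0 < e.1 - w.1 := by linarith
    unfold Cr at h5
    have h7 : (b.1 - w.1) / (e.1 - w.1) * (e.2 - w.2) ≤ b.2 - w.2 := by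
      rw [div_mul_eq_mul_div, div_le_iff₀ h0]
      linarith
    show w.2 + (b.1 - w.1) / (e.1 - w.1) * (e.2 - w.2) ≤ b.2
    linarith
  · have h0 : 0 < c.1 - a.1 := by linarith
    unfold Cr at h6
    have h7 : b.2 - a.2 ≤ (b.1 - a.1) / (c.1 - a.1) * (c.2 - a.2) := by
      rw [div_mul_eq_mul_div, le_div_iff₀ h0]
      linarith
    show b.2 ≤ a.2 + (b.1 - a.1) / (c.1 - a.1) * (c.2 - a.2)
    linarith

end Pool.Agent.EVD
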