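import Pool.Agent.EVD.TT

/-!
# EVD: CPW (a point between a line and a point)
-/

set_option autoImplicit false

namespace Pool.Agent.EVD

namespace CPW_

theorem seg_vert {x y z t : ℝ} (h : (y ≤ z ∧ z ≤ t) ∨ (t ≤ z ∧ z ≤ y)) :
    ((x, z) : P) ∈ segment ℝ ((x, y) : P) ((x, t) : P) := by
  by_cases hyt : y = t
  · have hz : z = y := by
      rcases h with h | h
      · exact le_antisymm (h.2.trans hyt.ge) h.1
      · exact le_antisymm h.2 (hyt.le.trans h.1)
    rw [hz]
    exact left_mem_segment ℝ _ _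
  · rw [segment_eq_image]
    have hne : t - y ≠ 0 := fun hc => hyt (by linarith)
    refine ⟨(z - y) / (t - y), ⟨?_, ?_⟩, ?_⟩
    · rcases h with h | h
      · exact div_nonneg (by linarith) (by linarith)
      · exact div_nonneg_of_nonpos (by linarith) (by linarith)
    · rcases h with h | h
      · have : 0 < t - y := lt_of_le_of_ne (by linarith) (Ne.symm hne)
        rw [div_le_one this]
        linarith
      · have : t - y < 0 := lt_of_le_of_ne (by linarith) hne
        rw [div_le_one_of_neg this]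
        linarith
    · refine Prod.ext ?_ ?_
      · simp only [Prod.smul_mk, Prod.mk_add_mk, smul_eq_mul]
        ring
      · simp only [Prod.smul_mk, Prod.mk_add_mk, smul_eq_mul]
        field_simp
        ring

theorem seg_line {w e b : P} (h : w.1 < e.1) (h1 : w.1 ≤ b.1) (h2 : b.1 ≤ e.1) :
    ((b.1, w.2 + (b.1 - w.1) / (e.1 - w.1) * (e.2 - w.2)) : P) ∈ segment ℝ w e := by
  rw [segment_eq_image]
  have hpos : 0 < e.1 - w.1 := by linarith
  refine ⟨(b.1 - w.1) / (e.1 - w.1), ⟨div_nonneg (by linarith) hpos.le, ?_⟩, ?_⟩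
  · rw [div_le_one hpos]
    linarith
  · refine Prod.ext ?_ ?_
    · simp only [Prod.smul_fst, Prod.fst_add, smul_eq_mul]
      field_simp
      ring
    · simp only [Prod.smul_snd, Prod.snd_add, smul_eq_mul]
      ring

end CPW_

open CPW_ in
theorem p_CPW (h_CPG : T_CPG) : T_CPW := by
  intro S w e a b hS hw he ha hb hbw hbe hba hlt h1 h2 hab hcr
  have hpos : 0 < e.1 - w.1 := by linarith
  refine h_CPG S w e a a b (b.1, w.2 + (b.1 - w.1) / (e.1 - w.1) * (e.2 - w.2)) a hS hw he ha ha hb
    hbw hbe hba hba (seg_line hlt h1 h2) (left_mem_segment ℝ a a) ?_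
  have hb' : b = (b.1, b.2) := rfl
  have ha' : a = (b.1, a.2) := Prod.ext hab rfl
  have key : (w.2 + (b.1 - w.1) / (e.1 - w.1) * (e.2 - w.2)) * (e.1 - w.1) =
      w.2 * (e.1 - w.1) + (b.1 - w.1) * (e.2 - w.2) := by
    field_simp
  rw [ha']
  nth_rewrite 1 [hb']
  refine seg_vert ?_
  rcases hcr with ⟨h3, h4⟩ | ⟨h3, h4⟩
  · left
    refine ⟨?_, h4⟩
    unfold Cr at h3
    refine le_of_mul_le_mul_right ?_ hpos
    rw [key]
    linarith
  · right
    refine ⟨h4, ?_⟩
    unfold Cr at h3
    refine le_of_mul_le_mul_right ?_ hpos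
    rw [key]
    linarith

end Pool.Agent.EVD
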