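import Pool.Agent.EVD.TG

/-! # EVD: basic facts about heights, trees and circumcentres (part A) -/

set_option autoImplicit false

namespace Pool.Agent.EVD

/-! ### heights -/

theorem hle_refl (a : Option ℝ) : hle a a = true := by
  cases a <;> simp [hle]

theorem hle_trans {a b c : Option ℝ} (h1 : hle a b = true) (h2 : hle b c = true) :
    hle a c = true := by
  cases a with
  | none => rfl
  | some a =>
    cases b with
    | none => simp [hle] at h1
    | some b =>
      cases c with
      | none => simp [hle] at h2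
      | some c =>
        simp only [hle, decide_eq_true_eq] at h1 h2 ⊢
        exact le_trans h1 h2

theorem hle_total (a b : Option ℝ) : hle a b = true ∨ hle b a = true := by
  cases a with
  | none => left; rfl
  | some a =>
    cases b with
    | none => right; rfl
    | some b =>
      simp only [hle, decide_eq_true_eq]
      exact le_total a b

theorem live_mono {D : ℝ → Bool} (hD : Cut D) {a b : Option ℝ} (h : hle a b = true)
    (hb : live D b = true) : live D a = true := by
  cases a with
  | none => rfl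
  | some a =>
    cases b with
    | none => simp [hle] at h
    | some b =>
      simp only [hle, decide_eq_true_eq] at h
      exact hD b a h hb

theorem live_false_mono {D : ℝ → Bool} (hD : Cut D) {a b : Option ℝ} (h : hle a b = true)
    (ha : live D a = false) : live D b = false := by
  by_contra hb
  rw [Bool.not_eq_false] at hb
  rw [live_mono hD h hb] at ha
  exact Bool.noConfusion ha

theorem btr_mem (a b : Lf ℝ) : btr a b = a ∨ btr a b = b := by
  unfold btr
  split
  · left; rfl
  · right; rfl

theorem btr_le_left (a b : Lf ℝ) : hle (btr a b).h a.h = true := by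
  unfold btr
  split
  · exact hle_refl _
  · rename_i h
    exact (hle_total a.h b.h).resolve_left h

theorem btr_le_right (a b : Lf ℝ) : hle (btr a b).h b.h = true := by
  unfold btr
  split
  · rename_i h
    exact h
  · exact hle_refl _

/-! ### trees -/

theorem toL_ne_nil (t : TR ℝ) : t.toL ≠ [] := by
  induction t with
  | leaf d => simp [TR.toL]
  | node am fx l r ihl ihr => simp [TR.toL, ihl]

/-- in a strictly sorted list the abscissa determines the element -/
theorem Srt.eq {L : List (Lf ℝ)} (h : Srt L) {a b : Lf ℝ} (ha : a ∈ L) (hb : b ∈ L)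
    (e : a.s.1 = b.s.1) : a = b := by
  induction L with
  | nil => simp at ha
  | cons c L ih =>
    unfold Srt at h
    rw [List.pairwise_cons] at h
    rcases List.mem_cons.1 ha with ha' | ha' <;> rcases List.mem_cons.1 hb with hb' | hb'
    · rw [ha', hb']
    · rw [ha'] at e
      exact absurd e (h.1 b hb').ne
    · rw [hb'] at e
      exact absurd e (h.1 a ha').ne'
    · exact ih h.2 ha' hb'

/-- a node splits into two good trees, the left one to the left of the right one -/
theorem TreeOK.split {am : Lf ℝ} {fx : ℝ} {l r : TR ℝ} (h : TreeOK (TR.node am fx l r)) :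
    TreeOK l ∧ TreeOK r ∧ am = btr l.am r.am ∧ fx = l.fx ∧
      ∀ a ∈ l.toL, ∀ b ∈ r.toL, a.s.1 < b.s.1 := by
  obtain ⟨⟨h1, h2, h3, h4⟩, h5⟩ := h
  unfold Srt at h5
  simp only [TR.toL] at h5
  rw [List.pairwise_append] at h5
  exact ⟨⟨h1, h5.1⟩, ⟨h2, h5.2.1⟩, h3, h4, h5.2.2⟩

/-- the stored element is a leaf of minimal height -/
theorem TR.WF.am_spec {t : TR ℝ} (h : t.WF) :
    t.am ∈ t.toL ∧ ∀ d ∈ t.toL, hle t.am.h d.h = true := by
  induction t with
  | leaf d =>
    refine ⟨by simp [TR.am, TR.toL], fun e he => ?_⟩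
    simp only [TR.toL, List.mem_singleton] at he
    subst he
    exact hle_refl _
  | node am fx l r ihl ihr =>
    obtain ⟨h1, h2, h3, h4⟩ := h
    have il := ihl h1
    have ir := ihr h2
    simp only [TR.am, TR.toL, List.mem_append]
    rw [h3]
    refine ⟨?_, fun d hd => ?_⟩
    · rcases btr_mem l.am r.am with e | e
      · rw [e]; exact Or.inl il.1
      · rw [e]; exact Or.inr ir.1
    · rcases hd with hd | hd
      · exact hle_trans (btr_le_left _ _) (il.2 d hd)
      · exact hle_trans (btr_le_right _ _) (ir.2 d hd)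

/-- the abscissa of the first leaf -/
theorem TreeOK.fx_spec {t : TR ℝ} (h : TreeOK t) :
    (∃ d ∈ t.toL, d.s.1 = t.fx) ∧ ∀ d ∈ t.toL, t.fx ≤ d.s.1 := by
  induction t with
  | leaf d =>
    refine ⟨⟨d, by simp [TR.toL], rfl⟩, fun e he => ?_⟩
    simp only [TR.toL, List.mem_singleton] at he
    subst he
    exact le_refl _
  | node am fx l r ihl ihr =>
    obtain ⟨h1, h2, h3, h4, h5⟩ := h.split
    obtain ⟨⟨d0, hd0, hd1⟩, il⟩ := ihl h1
    simp only [TR.fx, TR.toL, List.mem_append]
    rw [h4]
    refine ⟨⟨d0, Or.inl hd0, hd1⟩, fun d hd => ?_⟩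
    rcases hd with hd | hd
    · exact il d hd
    · rw [← hd1]
      exact (h5 d0 hd0 d hd).le

/-- if the stored element of a tree is dead, all leaves are dead -/
theorem TreeOK.dead {D : ℝ → Bool} (hD : Cut D) {t : TR ℝ} (h : TreeOK t)
    (hd : live D t.am.h = false) : ∀ d ∈ t.toL, live D d.h = false :=
  fun d hm => live_false_mono hD (h.1.am_spec.2 d hm) hd

/-! ### circumcentres: the picture at the height `y` -/

/-- negative iff `b` is strictly below the chord `a c` in the dual picture (for
`a.1 < b.1 < c.1`) -/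
noncomputable def dd (y : ℝ) (a b c : P) : ℝ :=
  (zl y b - zl y a) * (c.1 - a.1) - (zl y c - zl y a) * (b.1 - a.1)

theorem dd_eq (y : ℝ) (a b c : P) : dd y a b c = ccA a b c - 2 * y * ccB a b c := by
  unfold dd zl ccA ccB
  ring

theorem blw_iff (y : ℝ) (a b c : P) : Blw y a b c ↔ dd y a b c < 0 := by
  unfold Blw dd
  exact ⟨fun h => by linarith, fun h => by linarith⟩

theorem cc_lt_iff {a b c : P} (h : 0 < ccB a b c) (y : ℝ) : cc a b c < y ↔ dd y a b c < 0 := by
  rw [dd_eq, cc, div_lt_iff₀ (by linarith)]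
  constructor <;> intro h1 <;> linarith

theorem cc_le_iff {a b c : P} (h : 0 < ccB a b c) (y : ℝ) : cc a b c ≤ y ↔ dd y a b c ≤ 0 := by
  rw [dd_eq, cc, div_le_iff₀ (by linarith)]
  constructor <;> intro h1 <;> linarith

theorem le_cc_iff {a b c : P} (h : 0 < ccB a b c) (y : ℝ) : y ≤ cc a b c ↔ 0 ≤ dd y a b c := by
  rw [dd_eq, cc, le_div_iff₀ (by linarith)]
  constructor <;> intro h1 <;> linarith

theorem lt_cc_iff {a b c : P} (h : 0 < ccB a b c) (y : ℝ) : y < cc a b c ↔ 0 < dd y a b c := by
  rw [dd_eq, cc, lt_div_iff₀ (by linarith)]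
  constructor <;> intro h1 <;> linarith

theorem cc_eq_iff {a b c : P} (h : 0 < ccB a b c) (y : ℝ) : cc a b c = y ↔ dd y a b c = 0 := by
  rw [dd_eq, cc, div_eq_iff (by linarith)]
  constructor <;> intro h1 <;> linarith

/-- the difference of the squared distances of `(x, y)` -/
theorem dsq_sub (x y : ℝ) (p q : P) :
    dsq (x, y) p - dsq (x, y) q = (zl y p - 2 * x * p.1) - (zl y q - 2 * x * q.1) := by
  unfold dsq zl nsq
  ring

/-- `dd` is alternating -/
theorem dd_swap12 (y : ℝ) (a b c : P) : dd y b a c = -dd y a b c := by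
  unfold dd; ring

theorem dd_swap23 (y : ℝ) (a b c : P) : dd y a c b = -dd y a b c := by
  unfold dd; ring

theorem dd_rot (y : ℝ) (a b c : P) : dd y b c a = dd y a b c := by
  unfold dd; ring

/-- the relation of four points, weights at `p` -/
theorem dd_four (y : ℝ) (p a b c : P) :
    (b.1 - p.1) * dd y p a c = (a.1 - p.1) * dd y p b c + (c.1 - p.1) * dd y p a b := by
  unfold dd; ring

/-- the relation of four points, weights one -/
theorem dd_four' (y : ℝ) (a b c d : P) :
    dd y b c d - dd y a c d + dd y a b d - dd y a b c = 0 := by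
  unfold dd; ring

theorem Chn.eq {S : Set P} (h : Chn S) {a b : P} (ha : a ∈ S) (hb : b ∈ S) (e : a.1 = b.1) :
    a = b := h.1 a ha b hb e

theorem Chn.pos {S : Set P} (h : Chn S) {a b c : P} (ha : a ∈ S) (hb : b ∈ S) (hc : c ∈ S)
    (h1 : a.1 < b.1) (h2 : b.1 < c.1) : 0 < ccB a b c := h.2 a ha b hb c hc h1 h2

theorem Chn.mono {S S' : Set P} (h : Chn S) (hs : S' ⊆ S) : Chn S' :=
  ⟨fun a ha b hb => h.1 a (hs ha) b (hs hb),
    fun a ha b hb c hc => h.2 a (hs ha) b (hs hb) c (hs hc)⟩

theorem cut_cutT (T : Option ℝ) : Cut (cutT T) := by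
  intro r r' h h1
  cases T with
  | none => rfl
  | some t =>
    simp only [cutT, decide_eq_true_eq] at h1 ⊢
    exact lt_of_le_of_lt h h1

theorem cutT_some (t r : ℝ) : cutT (some t) r = true ↔ r < t := by
  simp [cutT]

theorem cutT_some_false (t r : ℝ) : cutT (some t) r = false ↔ t ≤ r := by
  simp [cutT]

theorem Al.mono {D : ℝ → Bool} {S S' : Set P} {b : P} (hs : S' ⊆ S) (h : Al D S b) (hb : b ∈ S') :
    Al D S' b := ⟨hb, fun a ha c hc => h.2 a (hs ha) c (hs hc)⟩

end Pool.Agent.EVD
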