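import Pool.Agent.EVD.TB
import Pool.Agent.EVD.TABase

/-! # EVD-CRI: critical nodes (helper53) -/

set_option autoImplicit false

namespace Pool.Agent.EVD

theorem CRI_critQ (ps : List (TR ℝ)) (lower : Option (TR ℝ)) (ft ct : TR ℝ) (d c c' : Lf ℝ)
    (h : ℝ) (hd : d.h = some h) (h1 : lastLt (cutT (some h)) d.s.1 ct = some c)
    (h2 : firstGt (cutT (some h)) d.s.1 ct = some c') :
    critQ ps lower ft ct d = mkNode ps lower ft (some h) d.s c.s c'.s := by
  unfold critQ
  rw [hd]
  simp only [h1, h2]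

theorem p_CRI (h_LT : T_A_LT) (h_NOD : T_NOD) (h_SMC : T_SMC) (h_SMA : T_SMA) : T_CRI := by
  intro S S' ps lower F ft ct c c' d h hL hft hftL hct hctL hc hc' hd hdh hcd hdc' hlc hlc' hdead
  have hcut : Cut (cutT (some h)) := cut_cutT (some h)
  have hsub := (h_SMA F).1
  have hcF : c ∈ F := hsub.subset hc
  have hcF' : c' ∈ F := hsub.subset hc'
  have hdF : d ∈ F := hsub.subset hd
  have hcS : c.s ∈ S := (hL.ok c hcF).1
  have hcS' : c'.s ∈ S := (hL.ok c' hcF').1
  have hdok := hL.ok d hdF
  have hdS : d.s ∈ S := hdok.1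
  have hdH : IsH S d.s (some h) := hdh ▸ hdok.2.1
  obtain ⟨h1, h2⟩ := h_LT (cutT (some h)) d.s.1 ct hcut hct
  rw [hctL] at h1 h2
  have hsrt : Srt (sample F) := hctL ▸ hct.2
  have e1 : lastLt (cutT (some h)) d.s.1 ct = some c := by
    cases hc0 : lastLt (cutT (some h)) d.s.1 ct with
    | none =>
      rw [hc0] at h1
      have := h1 c hc hcd
      rw [hlc] at this
      exact absurd this (by simp)
    | some c0 =>
      rw [hc0] at h1
      obtain ⟨m1, m2, m3, m4⟩ := h1
      have m2' : c0.s.1 < d.s.1 := m2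
      have k1 : ¬ c0.s.1 < c.s.1 := fun hlt => by
        have := m4 c hc hcd hlt
        rw [hlc] at this
        exact absurd this (by simp)
      have k2 : ¬ c.s.1 < c0.s.1 := fun hlt => by
        have := hdead c0 m1 hlt (m2'.trans hdc')
        rw [m3] at this
        exact absurd this (by simp)
      rw [hsrt.eq m1 hc (le_antisymm (not_lt.1 k2) (not_lt.1 k1))]
  have e2 : firstGt (cutT (some h)) d.s.1 ct = some c' := by
    cases hc0 : firstGt (cutT (some h)) d.s.1 ct with
    | none =>
      rw [hc0] at h2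
      have := h2 c' hc' hdc'
      rw [hlc'] at this
      exact absurd this (by simp)
    | some c0 =>
      rw [hc0] at h2
      obtain ⟨m1, m2, m3, m4⟩ := h2
      have m2' : d.s.1 < c0.s.1 := m2
      have k1 : ¬ c'.s.1 < c0.s.1 := fun hlt => by
        have := m4 c' hc' hdc' hlt
        rw [hlc'] at this
        exact absurd this (by simp)
      have k2 : ¬ c0.s.1 < c'.s.1 := fun hlt => by
        have := hdead c0 m1 (hcd.trans m2') hlt
        rw [m3] at this
        exact absurd this (by simp)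
      rw [hsrt.eq m1 hc' (le_antisymm (not_lt.1 k1) (not_lt.1 k2))]
  rw [CRI_critQ ps lower ft ct d c c' h hdh e1 e2]
  obtain ⟨⟨a, ha, b, hb, hab, hbb, hcc⟩, hmax⟩ := hdH
  refine h_NOD S S' ps lower F ft (some h) d.s c.s c'.s hL hft hftL hcS hcS' (hcd.trans hdc')
    ⟨hdS, fun t ht => ?_⟩ hcd.le hdc'.le ?_ ?_
  · have ht' : h = t := by simpa using ht
    subst ht'
    exact hmax
  · rintro ⟨hal, -, -⟩
    have := hal.2 a ha b hb hab hbb
    rw [hcc, cutT_some] at this
    exact lt_irrefl _ this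
  · exact h_SMC (cutT (some h)) F c c' hcut hL.srt hc hc' (hcd.trans hdc') hlc hlc' hdead

end Pool.Agent.EVD
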