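import Pool.Agent.EVD.EncD

/-! # EVD: target CSL (cases on a list) -/

namespace Pool.Agent.EVD

/-- the bound for the two cases -/
theorem CSL_bound {n n1 K K' a f' : ℕ} (h1 : n1 ≤ K * (a + 1)) (h2 : n ≤ K' * (f' + 1)) :
    1 + n1 + n + 6 ≤ (K + K' + 7) * (a + f' + 1) := by
  have e1 : K * (a + 1) ≤ K * (a + f' + 1) := Nat.mul_le_mul_left _ (by omega)
  have e2 : K' * (f' + 1) ≤ K' * (a + f' + 1) := Nat.mul_le_mul_left _ (by omega)
  have e3 : 7 ≤ 7 * (a + f' + 1) := by omega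
  have e4 : (K + K' + 7) * (a + f' + 1) =
      K * (a + f' + 1) + K' * (a + f' + 1) + 7 * (a + f' + 1) := by ring
  omega

/-- cases on a list -/
theorem p_CSL (α β δ : Type) [Enc α] [Enc β] [Enc δ] : T_CSL α β δ := by
  intro t f g A F G ht hf hg
  obtain ⟨pt, Kt, ht⟩ := ht
  obtain ⟨pf, Kf, hf⟩ := hf
  obtain ⟨pg, Kg, hg⟩ := hg
  refine ⟨Prog.comp (Prog.cond Prog.snd pg (Prog.comp pf Prog.fst)) (Prog.fork Prog.id pt),
    Kt + (Kf + Kg) + 7, fun b x => ?_⟩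
  obtain ⟨n1, hn1, h1⟩ := ht b x
  have h0 : Run b (Prog.fork Prog.id pt) (enc x) (Val.pair (enc x) (enc (t x))) (1 + n1 + 1) :=
    Run.fork _ _ _ _ _ _ _ _ (Run.prim _ _ _ _ rfl) h1
  cases h : t x with
  | nil =>
    obtain ⟨n2, hn2, h2⟩ := hf b x
    rw [h] at h0
    have h3 : Run b (Prog.comp pf Prog.fst) (Val.pair (enc x) (enc ([] : List β))) (enc (f x))
        (1 + n2 + 1) := Run.comp _ _ _ _ _ _ _ _ (Run.prim _ _ _ _ rfl) h2
    have h4 : Run b (Prog.cond Prog.snd pg (Prog.comp pf Prog.fst))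
        (Val.pair (enc x) (enc ([] : List β))) (enc (f x)) (1 + (1 + n2 + 1) + 1) :=
      Run.condF _ _ _ _ _ _ _ _ (Run.prim _ _ _ _ rfl) h3
    simp only [h]
    refine ⟨_, ?_, Run.comp _ _ _ _ _ _ _ _ h0 h4⟩
    have e := CSL_bound (K' := Kf + Kg) hn1
      (hn2.trans (Nat.mul_le_mul_right _ (Nat.le_add_right Kf Kg)))
    omega
  | cons c l =>
    obtain ⟨n2, hn2, h2⟩ := hg b (x, c, l)
    rw [h] at h0
    have h4 : Run b (Prog.cond Prog.snd pg (Prog.comp pf Prog.fst))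
        (Val.pair (enc x) (enc (c :: l))) (enc (g (x, c, l))) (1 + n2 + 1) :=
      Run.condT _ _ _ _ _ _ _ _ _ _ (Run.prim _ _ _ _ rfl) h2
    simp only [h]
    refine ⟨_, ?_, Run.comp _ _ _ _ _ _ _ _ h0 h4⟩
    have e := CSL_bound (K' := Kf + Kg) hn1
      (hn2.trans (Nat.mul_le_mul_right _ (Nat.le_add_left Kg Kf)))
    omega

end Pool.Agent.EVD
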