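import Pool.Agent.EVD.EncD

/-! # EVD: T_CSO, cases on an option (helper50) -/

namespace Pool.Agent.EVD

theorem p_CSO (α β δ : Type) [Enc α] [Enc β] [Enc δ] : T_CSO α β δ := by
  intro t f g A F G ht hf hg
  obtain ⟨pt, Kt, ht⟩ := ht
  obtain ⟨pf, Kf, hf⟩ := hf
  obtain ⟨pg, Kg, hg⟩ := hg
  refine ⟨Prog.comp (Prog.cond Prog.snd
    (Prog.comp pg (Prog.fork Prog.fst (Prog.comp Prog.fst Prog.snd)))
    (Prog.comp pf Prog.fst)) (Prog.fork Prog.id pt), Kt + Kf + Kg + 12, fun b x => ?_⟩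
  obtain ⟨n1, hn1, h1⟩ := ht b x
  cases h : t x with
  | none =>
    obtain ⟨n2, hn2, h2⟩ := hf b x
    rw [h] at h1
    simp only [h]
    refine ⟨_, ?_, Run.comp _ _ _ _ _ _ _ _
      (Run.fork _ _ _ _ _ _ _ _ (Run.prim _ _ _ _ rfl) h1)
      (Run.condF _ _ _ _ _ _ _ _ (Run.prim _ _ _ _ rfl)
        (Run.comp _ _ _ _ _ _ _ _ (Run.prim _ _ _ _ rfl) h2))⟩
    have e1 : Kt * (A x + 1) ≤ Kt * (A x + F x + 1) := Nat.mul_le_mul_left _ (by omega)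
    have e2 : Kf * (F x + 1) ≤ Kf * (A x + F x + 1) := Nat.mul_le_mul_left _ (by omega)
    have e3 : (Kt + Kf + Kg + 12) * (A x + F x + 1) = Kt * (A x + F x + 1) +
      Kf * (A x + F x + 1) + Kg * (A x + F x + 1) + 12 * (A x + F x + 1) := by ring
    rw [e3]
    omega
  | some c =>
    obtain ⟨n2, hn2, h2⟩ := hg b (x, c)
    rw [h] at h1
    simp only [h]
    refine ⟨_, ?_, Run.comp _ _ _ _ _ _ _ _
      (Run.fork _ _ _ _ _ _ _ _ (Run.prim _ _ _ _ rfl) h1)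
      (Run.condT _ _ _ _ _ _ _ _ _ _ (Run.prim _ _ _ _ rfl)
        (Run.comp _ _ _ _ _ _ _ _ (Run.fork _ _ _ _ _ _ _ _ (Run.prim _ _ _ _ rfl)
          (Run.comp _ _ _ _ _ _ _ _ (Run.prim _ _ _ _ rfl) (Run.prim _ _ _ _ rfl))) h2))⟩
    have e1 : Kt * (A x + 1) ≤ Kt * (A x + G (x, c) + 1) := Nat.mul_le_mul_left _ (by omega)
    have e2 : Kg * (G (x, c) + 1) ≤ Kg * (A x + G (x, c) + 1) :=
      Nat.mul_le_mul_left _ (by omega)
    have e3 : (Kt + Kf + Kg + 12) * (A x + G (x, c) + 1) = Kt * (A x + G (x, c) + 1) +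
      Kf * (A x + G (x, c) + 1) + Kg * (A x + G (x, c) + 1) + 12 * (A x + G (x, c) + 1) := by ring
    rw [e3]
    omega

end Pool.Agent.EVD
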