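import Pool.Agent.EVD.EncD

/-! # EVD: cases on a sum -/

namespace Pool.Agent.EVD

theorem p_CSS (α β γ δ : Type) [Enc α] [Enc β] [Enc γ] [Enc δ] : T_CSS α β γ δ := by
  intro t f g A F G ht hf hg
  obtain ⟨pt, Kt, ht⟩ := ht
  obtain ⟨pf, Kf, hf⟩ := hf
  obtain ⟨pg, Kg, hg⟩ := hg
  refine ⟨Prog.comp
    (Prog.cond (Prog.comp Prog.fst Prog.snd)
      (Prog.comp pf (Prog.fork Prog.fst (Prog.comp Prog.snd Prog.snd)))
      (Prog.comp pg (Prog.fork Prog.fst (Prog.comp Prog.snd Prog.snd))))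
    (Prog.fork Prog.id pt), Kt + Kf + Kg + 13, fun b x => ?_⟩
  obtain ⟨n1, hn1, h1⟩ := ht b x
  cases h : t x with
  | inl v =>
    obtain ⟨n2, hn2, h2⟩ := hf b (x, v)
    rw [h] at h1
    simp only [h]
    refine ⟨_, ?_, Run.comp _ _ _ _ _ _ _ _
      (Run.fork _ _ _ _ _ _ _ _ (Run.prim _ _ _ _ rfl) h1)
      (Run.condT _ _ _ _ _ _ _ _ _ _
        (Run.comp _ _ _ _ _ _ _ _ (Run.prim _ _ _ _ rfl) (Run.prim _ _ _ _ rfl))
        (Run.comp _ _ _ _ _ _ _ _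
          (Run.fork _ _ _ _ _ _ _ _ (Run.prim _ _ _ _ rfl)
            (Run.comp _ _ _ _ _ _ _ _ (Run.prim _ _ _ _ rfl) (Run.prim _ _ _ _ rfl))) h2))⟩
    have e1 : Kt * (A x + 1) ≤ Kt * (A x + F (x, v) + 1) := Nat.mul_le_mul_left _ (by omega)
    have e2 : Kf * (F (x, v) + 1) ≤ Kf * (A x + F (x, v) + 1) :=
      Nat.mul_le_mul_left _ (by omega)
    have e3 : (Kt + Kf + Kg + 13) * (A x + F (x, v) + 1) = Kt * (A x + F (x, v) + 1) +
      Kf * (A x + F (x, v) + 1) + Kg * (A x + F (x, v) + 1) + 13 * (A x + F (x, v) + 1) := by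
      ring
    rw [e3]
    omega
  | inr v =>
    obtain ⟨n2, hn2, h2⟩ := hg b (x, v)
    rw [h] at h1
    simp only [h]
    refine ⟨_, ?_, Run.comp _ _ _ _ _ _ _ _
      (Run.fork _ _ _ _ _ _ _ _ (Run.prim _ _ _ _ rfl) h1)
      (Run.condF _ _ _ _ _ _ _ _
        (Run.comp _ _ _ _ _ _ _ _ (Run.prim _ _ _ _ rfl) (Run.prim _ _ _ _ rfl))
        (Run.comp _ _ _ _ _ _ _ _
          (Run.fork _ _ _ _ _ _ _ _ (Run.prim _ _ _ _ rfl)
            (Run.comp _ _ _ _ _ _ _ _ (Run.prim _ _ _ _ rfl) (Run.prim _ _ _ _ rfl))) h2))⟩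
    have e1 : Kt * (A x + 1) ≤ Kt * (A x + G (x, v) + 1) := Nat.mul_le_mul_left _ (by omega)
    have e2 : Kg * (G (x, v) + 1) ≤ Kg * (A x + G (x, v) + 1) :=
      Nat.mul_le_mul_left _ (by omega)
    have e3 : (Kt + Kf + Kg + 13) * (A x + G (x, v) + 1) = Kt * (A x + G (x, v) + 1) +
      Kf * (A x + G (x, v) + 1) + Kg * (A x + G (x, v) + 1) + 13 * (A x + G (x, v) + 1) := by
      ring
    rw [e3]
    omega

end Pool.Agent.EVD
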