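import Pool.Agent.EVD.EncD
import Pool.Agent.EVD.P_CSS

/-! # EVD, target `T_CST`: cases on a leaf tree -/

namespace Pool.Agent.EVD

namespace CST_

/-- a leaf tree as an element of a sum: nodes on the left, leaves on the right -/
def toSum : TR ℝ → (Lf ℝ × ℝ × TR ℝ × TR ℝ) ⊕ Lf ℝ
  | TR.leaf d => Sum.inr d
  | TR.node am fx l r => Sum.inl (am, fx, l, r)

theorem enc_toSum (t : TR ℝ) : enc (toSum t) = enc t := by
  cases t <;> rfl

end CST_

theorem p_CST (α δ : Type) [Enc α] [Enc δ] : T_CST α δ := by
  intro t f g A F G ht hf hg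
  have h1 : CB (fun x => CST_.toSum (t x)) A := by
    have := (CB.recode (f := CST_.toSum) CST_.enc_toSum).comp ht
    simpa using this
  have h2 := p_CSS _ _ _ _ (fun x => CST_.toSum (t x)) g f A G F h1 hg hf
  refine (h2.congr (g := fun x => match t x with
    | TR.leaf d => f (x, d) | TR.node am fx l r => g (x, am, fx, l, r)) ?_).mono 1 ?_
  · intro x
    cases t x <;> simp [CST_.toSum]
  · intro x
    cases t x <;> simp [CST_.toSum]

end Pool.Agent.EVD
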