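import Pool.Agent.EVD.EncD

/-! # EVD: constructors of trees -/

set_option autoImplicit false

namespace Pool.Agent.EVD

namespace CTR_

variable {α β : Type} [Enc α] [Enc β]

/-- the tag `nil` is put in front -/
theorem tag0 {f : α → β} (h : ∀ x, enc (f x) = Val.pair Val.nil (enc x)) :
    CB f (fun _ => 0) := by
  refine ⟨Prog.fork Prog.nil Prog.id, 3, fun b x => ⟨1 + 1 + 1, by omega, ?_⟩⟩
  rw [h x]
  exact Run.fork _ _ _ _ _ _ _ _ (Run.prim _ _ _ _ rfl) (Run.prim _ _ _ _ rfl)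

/-- the tag `pair nil nil` is put in front -/
theorem tag1 {f : α → β} (h : ∀ x, enc (f x) = Val.pair (Val.pair Val.nil Val.nil) (enc x)) :
    CB f (fun _ => 0) := by
  refine ⟨Prog.fork (Prog.fork Prog.nil Prog.nil) Prog.id, 5, fun b x => ?_⟩
  rw [h x]
  refine ⟨_, ?_, Run.fork _ _ _ _ _ _ _ _
    (Run.fork _ _ _ _ _ _ _ _ (Run.prim _ _ _ _ rfl) (Run.prim _ _ _ _ rfl))
    (Run.prim _ _ _ _ rfl)⟩
  omega

end CTR_

theorem p_CTR : T_CTR :=
  ⟨CTR_.tag0 (fun _ => rfl), CTR_.tag1 (fun _ => rfl), CTR_.tag0 (fun _ => rfl),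
    CTR_.tag1 (fun _ => rfl)⟩

end Pool.Agent.EVD
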