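import Pool.Agent.EVD.TC

/-! # EVD: T_C_AB, time of aliveB (helper85) -/

set_option autoImplicit false

namespace Pool.Agent.EVD

namespace CAB_

section
variable {α β γ : Type} [Enc α] [Enc β] [Enc γ]

/-- composition without costs -/
theorem cz {f : β → γ} {g : α → β} (hf : CB f (fun _ => 0)) (hg : CB g (fun _ => 0)) :
    CB (fun x => f (g x)) (fun _ => 0) :=
  (hf.comp hg).mono 1 (fun _ => by simp)

theorem p1 {g : α → β × γ} (hg : CB g (fun _ => 0)) : CB (fun x => (g x).1) (fun _ => 0) :=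
  cz CB.fst hg

theorem p2 {g : α → β × γ} (hg : CB g (fun _ => 0)) : CB (fun x => (g x).2) (fun _ => 0) :=
  cz CB.snd hg

theorem pr {f : α → β} {g : α → γ} (hf : CB f (fun _ => 0)) (hg : CB g (fun _ => 0)) :
    CB (fun x => (f x, g x)) (fun _ => 0) :=
  (hf.pair hg).mono 1 (fun _ => by simp)

end

/-- the environment of the two tangents -/
def en (x : List (TR ℝ) × P × ℝ) : Option ℝ × P × List (TR ℝ) := (some x.2.2, x.2.1, x.1)

end CAB_

open CAB_ in
theorem p_C_AB (hTR : T_C_TR) (hCUT : T_C_CUT) (hGEO : T_C_GEO)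
    (hCSO : ∀ (α β δ : Type) [Enc α] [Enc β] [Enc δ], T_CSO α β δ)
    (hCON : ∀ (α β : Type) [Enc α] [Enc β], T_CON α β)
    (hBOO : ∀ (α : Type) [Enc α], T_BOO α) (hFLD : T_FLD) (hREA : T_REA) : T_C_AB := by
  obtain ⟨hR, hL⟩ := hTR (Option ℝ) cutT (fun _ => 0) hCUT
  have hsome : CB (fun x : ℝ => some x) (fun _ => 0) := (hCON ℝ ℝ).2.2.1
  have hen : CB en (fun _ => 0) :=
    pr (cz hsome (p2 (p2 CB.id))) (pr (p1 (p2 CB.id)) (p1 CB.id))
  have hR' : CB (fun x => tanR (cutT (en x).1) (en x).2.1 (en x).2.2) (fun x => pM x.1) :=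
    (hR.comp hen).mono 1 (fun x => by simp only [en]; omega)
  have hL' : CB (fun x => tanL (cutT (en x).1) (en x).2.1 (en x).2.2) (fun x => pM x.1) :=
    (hL.comp hen).mono 1 (fun x => by simp only [en]; omega)
  have hs : CB (fun d : Lf ℝ => d.s) (fun _ => 0) := hFLD.1
  have hcc := hGEO.1
  -- the comparison
  have h1 : CB (fun x : ((List (TR ℝ) × P × ℝ) × Lf ℝ) × Lf ℝ =>
      cc x.1.2.s x.1.1.2.1 x.2.s) (fun _ => 0) :=
    cz (f := fun x : P × P × P => cc x.1 x.2.1 x.2.2)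
      (g := fun x : ((List (TR ℝ) × P × ℝ) × Lf ℝ) × Lf ℝ => (x.1.2.s, x.1.1.2.1, x.2.s)) hcc
      (pr (cz hs (p2 (p1 CB.id))) (pr (p1 (p2 (p1 (p1 CB.id)))) (cz hs (p2 CB.id))))
  have h2 : CB (fun x : ((List (TR ℝ) × P × ℝ) × Lf ℝ) × Lf ℝ => x.1.1.2.2) (fun _ => 0) :=
    p2 (p2 (p1 (p1 CB.id)))
  have h3 : CB (fun x : ((List (TR ℝ) × P × ℝ) × Lf ℝ) × Lf ℝ =>
      decide (cc x.1.2.s x.1.1.2.1 x.2.s < x.1.1.2.2)) (fun _ => 0) :=
    ((hREA _ _ _ _ _ h1 h2).2.2.2.2.2.2.2.2.1).mono 1 (fun _ => by simp)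
  -- inner case
  have hR2 : CB (fun x : (List (TR ℝ) × P × ℝ) × Lf ℝ =>
      tanR (cutT (en x.1).1) (en x.1).2.1 (en x.1).2.2) (fun x => pM x.1.1) :=
    (hR'.comp (CB.fst (α := List (TR ℝ) × P × ℝ) (β := Lf ℝ))).mono 1 (fun x => by omega)
  have h4 := hCSO ((List (TR ℝ) × P × ℝ) × Lf ℝ) (Lf ℝ) Bool
    (fun x => tanR (cutT (en x.1).1) (en x.1).2.1 (en x.1).2.2) (fun _ => true)
    (fun x => decide (cc x.1.2.s x.1.1.2.1 x.2.s < x.1.1.2.2)) (fun x => pM x.1.1) (fun _ => 0)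
    (fun _ => 0) hR2 (hBOO _).1 h3
  have h4' : CB (fun x : (List (TR ℝ) × P × ℝ) × Lf ℝ =>
      match tanR (cutT (en x.1).1) (en x.1).2.1 (en x.1).2.2 with
      | none => true
      | some b => decide (cc x.2.s x.1.2.1 b.s < x.1.2.2)) (fun x => pM x.1.1) :=
    (h4.congr (fun x => by
      cases tanR (cutT (en x.1).1) (en x.1).2.1 (en x.1).2.2 <;> rfl)).mono 1 (fun x => by
      cases tanR (cutT (en x.1).1) (en x.1).2.1 (en x.1).2.2 with
      | none => exact (by omega : pM x.1.1 + 0 ≤ 1 * (pM x.1.1 + 1))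
      | some b => exact (by omega : pM x.1.1 + 0 ≤ 1 * (pM x.1.1 + 1)))
  have h5 := hCSO (List (TR ℝ) × P × ℝ) (Lf ℝ) Bool
    (fun x => tanL (cutT (en x).1) (en x).2.1 (en x).2.2) (fun _ => true)
    (fun x => match tanR (cutT (en x.1).1) (en x.1).2.1 (en x.1).2.2 with
      | none => true
      | some b => decide (cc x.2.s x.1.2.1 b.s < x.1.2.2)) (fun x => pM x.1) (fun _ => 0)
    (fun x => pM x.1.1) hL' (hBOO _).1 h4'
  refine (h5.congr (g := fun x : List (TR ℝ) × P × ℝ => aliveB x.1 x.2.1 x.2.2) ?_).mono 2 ?_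
  · intro x
    unfold aliveB
    simp only [en]
    cases tanL (cutT (some x.2.2)) x.2.1 x.1 with
    | none => rfl
    | some a =>
      cases tanR (cutT (some x.2.2)) x.2.1 x.1 with
      | none => rfl
      | some b => rfl
  · intro x
    cases tanL (cutT (en x).1) (en x).2.1 (en x).2.2 with
    | none => exact (by omega : pM x.1 + 0 ≤ 2 * (pM x.1 + 1))
    | some b => exact (by omega : pM x.1 + pM x.1 ≤ 2 * (pM x.1 + 1))

end Pool.Agent.EVD
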