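import Pool.Agent.EVD.TC

/-! # EVD: running time of `buildAll`, `build` -/

namespace Pool.Agent.EVD

namespace CBLD_

/-- the case analysis of `buildAll` -/
noncomputable def qB (l : List (TR ℝ)) : Option (TR ℝ) ⊕ (List (TR ℝ) × Unit) :=
  match l with
  | [] => Sum.inl none
  | b :: l' =>
    match l' with
    | [] => Sum.inl (some b)
    | _ :: _ => Sum.inr (pairUp l, ())

theorem cb_q (h_C_PU : T_C_PU) (hINJ : ∀ (α β : Type) [Enc α] [Enc β], T_INJ α β)
    (hCON : ∀ (α β : Type) [Enc α] [Enc β], T_CON α β)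
    (hCSL : ∀ (α β δ : Type) [Enc α] [Enc β] [Enc δ], T_CSL α β δ) :
    CB qB (fun l => l.length) := by
  have hpu : CB (fun z : (List (TR ℝ) × TR ℝ × List (TR ℝ)) × TR ℝ × List (TR ℝ) =>
      (Sum.inr (pairUp z.1.1, ()) : Option (TR ℝ) ⊕ (List (TR ℝ) × Unit)))
      (fun z => z.1.1.length) := by
    refine ((hINJ (Option (TR ℝ)) (List (TR ℝ) × Unit)).2.comp
      ((h_C_PU.comp (CB.fst.comp CB.fst)).pair (CB.nilv () rfl))).mono 1 fun z => ?_
    omega
  have hinl : CB (fun y : List (TR ℝ) × TR ℝ × List (TR ℝ) =>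
      (Sum.inl (some y.2.1) : Option (TR ℝ) ⊕ (List (TR ℝ) × Unit))) (fun _ => 0) := by
    refine ((hINJ (Option (TR ℝ)) (List (TR ℝ) × Unit)).1.comp
      ((hCON (TR ℝ) (TR ℝ)).2.2.1.comp (CB.fst.comp CB.snd))).mono 1 fun z => ?_
    omega
  have hg : CB (fun y : List (TR ℝ) × TR ℝ × List (TR ℝ) =>
      (match y.2.2 with
        | [] => Sum.inl (some y.2.1)
        | _ :: _ => Sum.inr (pairUp y.1, ()) : Option (TR ℝ) ⊕ (List (TR ℝ) × Unit)))
      (fun y => y.1.length) := by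
    refine ((hCSL (List (TR ℝ) × TR ℝ × List (TR ℝ)) (TR ℝ)
      (Option (TR ℝ) ⊕ (List (TR ℝ) × Unit)) (fun y => y.2.2) _ _ _ _ _
      (CB.snd.comp CB.snd) hinl hpu).mono 1 fun y => ?_).congr fun y => ?_
    · rcases y with ⟨l, b, _ | ⟨c, l''⟩⟩ <;> simp only <;> omega
    · rcases y with ⟨l, b, _ | ⟨c, l''⟩⟩ <;> rfl
  have hnone : CB (fun _ : List (TR ℝ) =>
      (Sum.inl none : Option (TR ℝ) ⊕ (List (TR ℝ) × Unit))) (fun _ => 0) := by
    refine ((hINJ (Option (TR ℝ)) (List (TR ℝ) × Unit)).1.comp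
      ((hCON (TR ℝ) (List (TR ℝ))).2.2.2)).mono 1 fun z => ?_
    omega
  refine ((hCSL (List (TR ℝ)) (TR ℝ) (Option (TR ℝ) ⊕ (List (TR ℝ) × Unit)) (fun l => l) _ _ _ _ _
      CB.id hnone hg).mono 1 fun l => ?_).congr fun l => ?_
  · rcases l with _ | ⟨b, l'⟩ <;> simp only <;> omega
  · rcases l with _ | ⟨b, _ | ⟨c, l''⟩⟩ <;> rfl

end CBLD_

open CBLD_ in
theorem p_C_BLD (h_C_PU : T_C_PU) (h_C_MAP : T_C_MAP) (hCTR : T_CTR)
    (hRS1 : ∀ (α β γ : Type) [Enc α] [Enc β] [Enc γ], T_RS1 α β γ)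
    (hINJ : ∀ (α β : Type) [Enc α] [Enc β], T_INJ α β)
    (hCON : ∀ (α β : Type) [Enc α] [Enc β], T_CON α β)
    (hCSL : ∀ (α β δ : Type) [Enc α] [Enc β] [Enc δ], T_CSL α β δ) : T_C_BLD := by
  have hq := cb_q h_C_PU hINJ hCON hCSL
  have hall : CB (fun l : List (TR ℝ) => buildAll l) (fun l => l.length) := by
    refine (hRS1 (List (TR ℝ)) (Option (TR ℝ)) Unit (fun l => buildAll l) qB (fun x => x.2)
      (fun l => l.length) (fun l => 6 * l.length) (fun _ => 0) hq CB.snd ?_ ?_ ?_).mono 6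
      fun l => by omega
    · intro l
      rcases l with _ | ⟨a, _ | ⟨b, t⟩⟩
      · simp only [qB, buildAll]
      · simp only [qB, buildAll]
      · simp only [qB]
        rw [buildAll]
    · intro l b _
      omega
    · intro l y z h
      rcases l with _ | ⟨a, _ | ⟨b, t⟩⟩
      · simp [qB] at h
      · simp [qB] at h
      · simp only [qB, Sum.inr.injEq, Prod.mk.injEq] at h
        rw [← h.1, pairUp_length]
        simp only [List.length_cons]
        omega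
  refine ⟨hall, ?_⟩
  have hleaf : CB (fun x : Unit × Lf ℝ => TR.leaf x.2) (fun _ => 0) :=
    (hCTR.1.comp CB.snd).mono 1 fun _ => by omega
  have hmap := h_C_MAP Unit (Lf ℝ) (TR ℝ) (fun _ d => TR.leaf d) (fun _ => 0) hleaf
  have h1 : CB (fun l : List (Lf ℝ) => (((), l) : Unit × List (Lf ℝ))) (fun _ => 0) :=
    ((CB.nilv () rfl).pair CB.id).mono 1 fun _ => by omega
  refine ((hall.comp (hmap.comp h1)).mono 3 fun l => ?_).congr fun l => rfl
  simp only [List.length_map]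
  omega

end Pool.Agent.EVD
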