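import Pool.Agent.EVD.EncD

/-! # EVD, target `T_FLD`: fields and constructors of the structures -/

set_option autoImplicit false

namespace Pool.Agent.EVD

namespace FLD_

section
variable {α β γ δ ε ζ : Type} [Enc α] [Enc β] [Enc γ] [Enc δ] [Enc ε] [Enc ζ]

/-- composition without costs -/
theorem cz {f : β → γ} {g : α → β} (hf : CB f (fun _ => 0)) (hg : CB g (fun _ => 0)) :
    CB (fun x => f (g x)) (fun _ => 0) :=
  (hf.comp hg).mono 1 (fun _ => by simp)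

theorem p1 {g : α → β × γ} (hg : CB g (fun _ => 0)) : CB (fun x => (g x).1) (fun _ => 0) :=
  cz CB.fst hg

theorem p2 {g : α → β × γ} (hg : CB g (fun _ => 0)) : CB (fun x => (g x).2) (fun _ => 0) :=
  cz CB.snd hg

end

theorem tl : CB (fun d : Lf ℝ => d.tup) (fun _ => 0) := CB.recode (fun _ => rfl)

theorem ts : CB (fun d : Slot ℝ => d.tup) (fun _ => 0) := CB.recode (fun _ => rfl)

theorem tc : CB (fun d : CS ℝ => d.tup) (fun _ => 0) := CB.recode (fun _ => rfl)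

theorem tt : CB (fun d : Top ℝ => d.tup) (fun _ => 0) := CB.recode (fun _ => rfl)

end FLD_

open FLD_ in
theorem p_FLD : T_FLD := by
  refine ⟨?_, ?_, ?_, ?_, ?_, ?_, ?_, ?_, ?_, ?_, ?_, ?_, ?_, ?_, ?_, ?_, ?_, ?_, ?_, ?_, ?_⟩
  · exact p1 tl
  · exact p1 (p2 tl)
  · exact p1 (p2 (p2 tl))
  · exact p1 (p2 (p2 (p2 tl)))
  · exact p1 (p2 (p2 (p2 (p2 tl))))
  · exact p2 (p2 (p2 (p2 (p2 tl))))
  · exact CB.recode (fun _ => rfl)
  · exact p1 ts
  · exact p1 (p2 ts)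
  · exact p1 (p2 (p2 ts))
  · exact p1 (p2 (p2 (p2 ts)))
  · exact p2 (p2 (p2 (p2 ts)))
  · exact CB.recode (fun _ => rfl)
  · exact p1 tc
  · exact p2 tc
  · exact CB.recode (fun _ => rfl)
  · exact p1 tt
  · exact p1 (p2 tt)
  · exact p1 (p2 (p2 tt))
  · exact p2 (p2 (p2 tt))
  · exact CB.recode (fun _ => rfl)

end Pool.Agent.EVD
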