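import Pool.Agent.EVD.TC
import Pool.Agent.EVD.P_CSO
import Pool.Agent.EVD.P_FLD

/-! # EVD: T_C_CHI, running time of `child` (helper59) -/

namespace Pool.Agent.EVD

/-- composition without cost -/
theorem CCHI_comp {α β γ : Type} [Enc α] [Enc β] [Enc γ] {f : β → γ} {g : α → β}
    (hf : CB f (fun _ => 0)) (hg : CB g (fun _ => 0)) : CB (fun x => f (g x)) (fun _ => 0) :=
  (hf.comp hg).mono 1 (fun _ => by simp)

/-- pair without cost -/
theorem CCHI_pair {α β γ : Type} [Enc α] [Enc β] [Enc γ] {f : α → β} {g : α → γ}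
    (hf : CB f (fun _ => 0)) (hg : CB g (fun _ => 0)) : CB (fun x => (f x, g x)) (fun _ => 0) :=
  (hf.pair hg).mono 1 (fun _ => by simp)

/-- the environment -/
abbrev CCHI_E : Type := List (TR ℝ) × Option (TR ℝ) × Option ℝ × P × P × P

theorem CCHI_t (hF : T_C_FNG) : CB (fun x : CCHI_E =>
    finger x.1 x.2.2.1 x.2.2.2.1 x.2.2.2.2.1 x.2.2.2.2.2) (fun x => pM x.1) := by
  have h1 : CB (fun x : CCHI_E => ((x.1, x.2.2) : List (TR ℝ) × Option ℝ × P × P × P))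
      (fun _ => 0) := CCHI_pair CB.fst (CCHI_comp CB.snd CB.snd)
  exact (hF.2.comp h1).mono 1 (fun x => by simp)

theorem CCHI_g (hG : T_C_GQ) : CB (fun y : CCHI_E × Lf ℝ =>
    gapQ y.1.2.2.1 y.2.s.1 y.1.2.1) (fun y => (odep y.1.2.1 + 1) ^ 2) := by
  have hs : CB (fun d : Lf ℝ => d.s) (fun _ => 0) := p_FLD.1
  have h1 : CB (fun y : CCHI_E × Lf ℝ => ((y.1.2.2.1, y.2.s.1, y.1.2.1) :
      Option ℝ × ℝ × Option (TR ℝ))) (fun _ => 0) := by
    have h11 : CB (fun y : CCHI_E × Lf ℝ => y.1.2) (fun _ => 0) := CCHI_comp CB.snd CB.fst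
    refine CCHI_pair (CCHI_comp CB.fst (CCHI_comp CB.snd h11)) (CCHI_pair ?_ (CCHI_comp CB.fst h11))
    exact CCHI_comp CB.fst (CCHI_comp hs CB.snd)
  exact (CB.comp hG h1).mono 1 (fun y => by simp)

theorem p_C_CHI (hF : T_C_FNG) (hG : T_C_GQ) : T_C_CHI := by
  have h := p_CSO CCHI_E (Lf ℝ) (QT ℝ) _ _ _ _ _ _ (CCHI_t hF)
    (CB.nilv (α := CCHI_E) (QT.stop : QT ℝ) rfl) (CCHI_g hG)
  refine (h.mono 1 (fun x => ?_)).congr (fun x => ?_)
  · have e : cC x.1 x.2.1 = pM x.1 + (odep x.2.1 + 1) ^ 2 := rfl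
    rw [e]
    split
    · omega
    · dsimp only
      omega
  · unfold child
    dsimp only
    cases finger x.1 x.2.2.1 x.2.2.2.1 x.2.2.2.2.1 x.2.2.2.2.2 <;> rfl

end Pool.Agent.EVD
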