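import Pool.Agent.EVD.TC
import Pool.Agent.EVD.P_CSO

/-! # EVD: the running time of `cutT` (target C_CUT) -/

set_option autoImplicit false

namespace Pool.Agent.EVD

theorem CCUT_true : CB (fun _ : Option ℝ × ℝ => true) (fun _ => 0) := by
  refine (CB.real_lt.comp (f := fun x : ℝ × ℝ => decide (x.1 < x.2)) (G := fun _ => 0)
    (g := fun _ : Option ℝ × ℝ => ((0 : ℝ), (1 : ℝ))) ?_).congr fun x => ?_
  · refine (CB.pair (F := fun _ => 0) (G := fun _ => 0) ?_ CB.real_one)
    refine (CB.real_sub.comp (g := fun _ : Option ℝ × ℝ => ((1 : ℝ), (1 : ℝ))) (G := fun _ => 0)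
      (CB.pair (F := fun _ => 0) (G := fun _ => 0) CB.real_one CB.real_one)).congr fun x => ?_
    simp
  · simp

theorem p_C_CUT : T_C_CUT := by
  have h1 := p_CSO (Option ℝ × ℝ) ℝ Bool (fun x => x.1) (fun _ => true)
    (fun x => decide (x.1.2 < x.2)) (fun _ => 0) (fun _ => 0) (fun _ => 0) CB.fst CCUT_true
    ((CB.real_lt.comp (f := fun x : ℝ × ℝ => decide (x.1 < x.2)) (G := fun _ => 0)
      (g := fun x : (Option ℝ × ℝ) × ℝ => (x.1.2, x.2))
      (CB.pair (F := fun _ => 0) (G := fun _ => 0)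
        ((CB.snd.comp (g := fun x : (Option ℝ × ℝ) × ℝ => x.1) (G := fun _ => 0) CB.fst))
        CB.snd)))
  refine (h1.mono 0 fun x => ?_).congr fun x => ?_
  · rcases x with ⟨_ | t, r⟩ <;> simp
  · rcases x with ⟨_ | t, r⟩ <;> rfl

end Pool.Agent.EVD
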