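import Pool.Agent.EVD.EncD

/-! # EVD: injections into a sum -/

set_option autoImplicit false

namespace Pool.Agent.EVD

theorem INJ_.inl (α β : Type) [Enc α] [Enc β] :
    CB (fun x : α => (Sum.inl x : α ⊕ β)) (fun _ => 0) := by
  refine ⟨Prog.fork (Prog.fork Prog.nil Prog.nil) Prog.id, 10, fun b x => ?_⟩
  have h1 : Run b Prog.nil (enc x) Val.nil 1 := Run.prim _ _ _ _ rfl
  have h2 : Run b Prog.id (enc x) (enc x) 1 := Run.prim _ _ _ _ rfl
  have h3 := Run.fork _ _ _ _ _ _ _ _ h1 h1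
  have h4 := Run.fork _ _ _ _ _ _ _ _ h3 h2
  exact ⟨_, by norm_num, h4⟩

theorem INJ_.inr (α β : Type) [Enc α] [Enc β] :
    CB (fun x : β => (Sum.inr x : α ⊕ β)) (fun _ => 0) := by
  refine ⟨Prog.fork Prog.nil Prog.id, 10, fun b x => ?_⟩
  have h1 : Run b Prog.nil (enc x) Val.nil 1 := Run.prim _ _ _ _ rfl
  have h2 : Run b Prog.id (enc x) (enc x) 1 := Run.prim _ _ _ _ rfl
  have h4 := Run.fork _ _ _ _ _ _ _ _ h1 h2
  exact ⟨_, by norm_num, h4⟩

theorem p_INJ (α β : Type) [Enc α] [Enc β] : T_INJ α β := ⟨INJ_.inl α β, INJ_.inr α β⟩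

end Pool.Agent.EVD
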