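import Pool.Agent.EVD.EncD

/-! # EVD: general linear recursion -/

set_option autoImplicit false

namespace Pool.Agent.EVD

namespace RS1_

/-- the arithmetic of the recursion step -/
theorem arith (K L a c d R n1 n4 n6 : ℕ) (h1 : n1 ≤ K * (a + 1)) (h6 : n6 ≤ L * (c + 1))
    (h4 : n4 ≤ (K + L + 25) * (d + 1)) :
    n1 + n4 + n6 + 13 ≤ (K + L + 25) * (a + c + d + 1 + R + 1) := by
  have g1 : K * (a + 1) ≤ K * (a + c + 1 + R) := Nat.mul_le_mul_left _ (by omega)
  have g2 : L * (c + 1) ≤ L * (a + c + 1 + R) := Nat.mul_le_mul_left _ (by omega)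
  have g3 : 25 * 1 ≤ 25 * (a + c + 1 + R) := Nat.mul_le_mul_left _ (by omega)
  have g4 : (K + L + 25) * (a + c + 1 + R) =
      K * (a + c + 1 + R) + L * (a + c + 1 + R) + 25 * (a + c + 1 + R) := by ring
  have g6 : (K + L + 25) * (a + c + d + 1 + R + 1) =
      (K + L + 25) * (a + c + 1 + R) + (K + L + 25) * (d + 1) := by
    ring
  rw [g6, g4]
  omega

end RS1_

theorem p_RS1 (α β γ : Type) [Enc α] [Enc β] [Enc γ] : T_RS1 α β γ := by
  intro f q comb Q B C hq hc hf hB1 hB2
  obtain ⟨pq, Kq, hq⟩ := hq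
  obtain ⟨pc, Kc, hc⟩ := hc
  set body : Prog := Prog.comp (Prog.cond Prog.fst Prog.snd (Prog.comp pc (Prog.fork
    (Prog.comp Prog.snd Prog.snd) (Prog.comp Prog.self (Prog.comp Prog.fst Prog.snd))))) pq
    with hbody
  have key : ∀ (n : ℕ) (x : α), B x ≤ n → ∃ m, m ≤ (Kq + Kc + 25) * (B x + 1) ∧
      Run body body (enc x) (enc (f x)) m := by
    intro n
    induction n using Nat.strong_induction_on with
    | _ n ih =>
      intro x hx
      obtain ⟨n1, hn1, h1⟩ := hq body x
      cases h : q x with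
      | inl b =>
        have hfx : f x = b := by rw [hf x, h]
        have hB := hB1 x b h
        rw [h] at h1
        rw [hfx]
        refine ⟨_, ?_, Run.comp _ _ _ _ _ _ _ _ h1
          (Run.condT _ _ _ _ _ _ _ _ _ _ (Run.prim _ _ _ _ rfl) (Run.prim _ _ _ _ rfl))⟩
        have e1 : Kq * (Q x + 1) ≤ Kq * (B x + 1) := Nat.mul_le_mul_left _ (by omega)
        have e2 : (Kq + Kc + 25) * (B x + 1) =
          Kq * (B x + 1) + Kc * (B x + 1) + 25 * (B x + 1) := by ring
        rw [e2]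
        omega
      | inr w =>
        obtain ⟨y, z⟩ := w
        have hfx : f x = comb (z, f y) := by rw [hf x, h]
        have hB := hB2 x y z h
        rw [h] at h1
        rw [hfx]
        obtain ⟨n4, hn4, h4⟩ := ih (B y) (by omega) y le_rfl
        obtain ⟨n6, hn6, h6⟩ := hc body (z, f y)
        refine ⟨_, ?_, Run.comp _ _ _ _ _ _ _ _ h1
          (Run.condF _ _ _ _ _ _ _ _ (Run.prim _ _ _ _ rfl)
            (Run.comp _ _ _ _ _ _ _ _
              (Run.fork _ _ _ _ _ _ _ _
                (Run.comp _ _ _ _ _ _ _ _ (Run.prim _ _ _ _ rfl) (Run.prim _ _ _ _ rfl))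
                (Run.comp _ _ _ _ _ _ _ _
                  (Run.comp _ _ _ _ _ _ _ _ (Run.prim _ _ _ _ rfl) (Run.prim _ _ _ _ rfl))
                  (Run.self _ _ _ _ h4)))
              h6))⟩
        obtain ⟨R, hR⟩ : ∃ R, B x = Q x + C (z, f y) + B y + 1 + R :=
          ⟨B x - (Q x + C (z, f y) + B y + 1), by omega⟩
        rw [hR]
        have := RS1_.arith Kq Kc (Q x) (C (z, f y)) (B y) R n1 n4 n6 hn1 hn6 hn4
        refine le_trans ?_ this
        omega
  refine ⟨Prog.fix body, Kq + Kc + 26, fun b x => ?_⟩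
  obtain ⟨m, hm, hr⟩ := key (B x) x le_rfl
  refine ⟨_, ?_, Run.fix _ _ _ _ _ hr⟩
  have e : (Kq + Kc + 26) * (B x + 1) = (Kq + Kc + 25) * (B x + 1) + (B x + 1) := by ring
  rw [e]
  omega

end Pool.Agent.EVD
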