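import Pool.Agent.EVD.TC
import Pool.Agent.EVD.P_RS1
import Pool.Agent.EVD.P_CSL
import Pool.Agent.EVD.P_CON
import Pool.Agent.EVD.P_FLD
import Pool.Agent.EVD.P_INJ

/-! # EVD: time of `deco` -/

set_option autoImplicit false

namespace Pool.Agent.EVD

namespace CDCO_

/-- the environment -/
abbrev X : Type := List (TR ℝ) × Option (TR ℝ) × TR ℝ × TR ℝ

/-- the arguments of `deco`, with the head and the tail of the list -/
abbrev Y : Type := (X × P × List (Lf ℝ)) × Lf ℝ × List (Lf ℝ)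

theorem c0 {α β γ : Type} [Enc α] [Enc β] [Enc γ] {f : β → γ} {g : α → β}
    (hf : CB f (fun _ => 0)) (hg : CB g (fun _ => 0)) : CB (fun x => f (g x)) (fun _ => 0) :=
  CB.comp hf hg

theorem p0 {α β γ : Type} [Enc α] [Enc β] [Enc γ] {f : α → β} {g : α → γ}
    (hf : CB f (fun _ => 0)) (hg : CB g (fun _ => 0)) : CB (fun x => (f x, g x)) (fun _ => 0) :=
  CB.pair hf hg

/-- the cost of one element -/
noncomputable def W (e : X) : ℕ := cC e.1 e.2.1 + (e.2.2.1.dep + 1) ^ 2 + (e.2.2.2.dep + 1) ^ 2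

/-- the decorated element -/
noncomputable def new (y : Y) : Lf ℝ :=
  ⟨y.2.1.s, y.2.1.h, y.2.1.sx, y.2.1.sk,
    mkNode y.1.1.1 y.1.1.2.1 y.1.1.2.2.1 none y.1.2.1 y.1.2.1 y.2.1.s,
    critQ y.1.1.1 y.1.1.2.1 y.1.1.2.2.1 y.1.1.2.2.2 y.2.1⟩

theorem y_env : CB (fun y : Y => y.1.1) (fun _ => 0) := c0 CB.fst CB.fst
theorem y_ps : CB (fun y : Y => y.1.1.1) (fun _ => 0) := c0 CB.fst y_env
theorem y_lower : CB (fun y : Y => y.1.1.2.1) (fun _ => 0) := c0 CB.fst (c0 CB.snd y_env)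
theorem y_ft : CB (fun y : Y => y.1.1.2.2.1) (fun _ => 0) :=
  c0 CB.fst (c0 CB.snd (c0 CB.snd y_env))
theorem y_ct : CB (fun y : Y => y.1.1.2.2.2) (fun _ => 0) :=
  c0 CB.snd (c0 CB.snd (c0 CB.snd y_env))
theorem y_c : CB (fun y : Y => y.1.2.1) (fun _ => 0) := c0 CB.fst (c0 CB.snd CB.fst)
theorem y_d : CB (fun y : Y => y.2.1) (fun _ => 0) := c0 CB.fst CB.snd
theorem y_t : CB (fun y : Y => y.2.2) (fun _ => 0) := c0 CB.snd CB.snd
theorem y_s : CB (fun y : Y => y.2.1.s) (fun _ => 0) := c0 p_FLD.1 y_d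
theorem y_h : CB (fun y : Y => y.2.1.h) (fun _ => 0) := c0 p_FLD.2.1 y_d
theorem y_sx : CB (fun y : Y => y.2.1.sx) (fun _ => 0) := c0 p_FLD.2.2.1 y_d
theorem y_sk : CB (fun y : Y => y.2.1.sk) (fun _ => 0) := c0 p_FLD.2.2.2.1 y_d

theorem cb_new (h_NOD : T_C_NOD) (h_CRI : T_C_CRI) : CB new (fun y => W y.1.1) := by
  have h1 := CB.comp h_NOD (p0 y_ps (p0 y_lower (p0 y_ft
    (p0 (CB.nilv (α := Y) (none : Option ℝ) rfl) (p0 y_c (p0 y_c y_s))))))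
  have h2 := CB.comp h_CRI (p0 y_ps (p0 y_lower (p0 y_ft (p0 y_ct y_d))))
  have h3 := CB.comp p_FLD.2.2.2.2.2.2.1
    (CB.pair y_s (CB.pair y_h (CB.pair y_sx (CB.pair y_sk (CB.pair h1 h2)))))
  refine (h3.mono 2 (fun y => ?_)).congr (fun y => rfl)
  dsimp only [W]
  omega

/-- one step -/
theorem cb_q (h_NOD : T_C_NOD) (h_CRI : T_C_CRI) :
    CB (fun x : X × P × List (Lf ℝ) => (match x.2.2 with
      | [] => Sum.inl []
      | d :: t => Sum.inr ((x.1, d.s, t), new (x, d, t)) :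
        List (Lf ℝ) ⊕ ((X × P × List (Lf ℝ)) × Lf ℝ))) (fun x => W x.1) := by
  have hinl : CB (fun _ : X × P × List (Lf ℝ) =>
      (Sum.inl [] : List (Lf ℝ) ⊕ ((X × P × List (Lf ℝ)) × Lf ℝ))) (fun _ => 0) :=
    c0 (p_INJ _ _).1 (CB.nilv ([] : List (Lf ℝ)) rfl)
  have harg : CB (fun y : Y => ((y.1.1, y.2.1.s, y.2.2), new y)) (fun y => W y.1.1) :=
    (CB.pair (p0 y_env (p0 y_s y_t)) (cb_new h_NOD h_CRI)).mono 1 (fun y => by omega)
  have hinr : CB (fun y : Y => (Sum.inr ((y.1.1, y.2.1.s, y.2.2), new y) :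
      List (Lf ℝ) ⊕ ((X × P × List (Lf ℝ)) × Lf ℝ))) (fun y => W y.1.1) :=
    (CB.comp (p_INJ _ _).2 harg).mono 1 (fun y => by omega)
  have h := p_CSL (X × P × List (Lf ℝ)) (Lf ℝ) _ (fun x => x.2.2) _ _ _ _ _
    (c0 CB.snd CB.snd) hinl hinr
  refine (h.mono 1 (fun x => ?_)).congr (fun x => ?_)
  · dsimp only
    split <;> omega
  · dsimp only
    cases x.2.2 <;> rfl

end CDCO_

open CDCO_

theorem p_C_DCO (h_NOD : T_C_NOD) (h_CRI : T_C_CRI) : T_C_DCO := by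
  refine (p_RS1 (X × P × List (Lf ℝ)) (List (Lf ℝ)) (Lf ℝ)
    (fun x => deco x.1.1 x.1.2.1 x.1.2.2.1 x.1.2.2.2 x.2.1 x.2.2) _ (fun z => z.1 :: z.2)
    (fun x => W x.1) (fun x => (x.2.2.length + 1) * (W x.1 + 1)) (fun _ => 0)
    (cb_q h_NOD h_CRI) (p_CON (Lf ℝ) (Lf ℝ)).1 ?_ ?_ ?_)
  · rintro ⟨e, c, l⟩
    cases l with
    | nil => rfl
    | cons d t => rfl
  · rintro ⟨e, c, l⟩ b _
    dsimp only
    nlinarith [Nat.zero_le (l.length * (W e + 1))]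
  · rintro ⟨e, c, l⟩ y z h
    cases l with
    | nil => simp at h
    | cons d t =>
      simp only [Sum.inr.injEq, Prod.mk.injEq] at h
      obtain ⟨rfl, -⟩ := h
      dsimp only [List.length_cons]
      ring_nf
      omega

end Pool.Agent.EVD
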