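import Pool.Agent.EVD.EncD

/-! # EVD: target CSQ (cases on a query tree) -/

namespace Pool.Agent.EVD

theorem CSQ_arith (kt ke kf kg a e nt ne c : ℕ) (h1 : nt ≤ kt * (a + 1)) (h2 : ne ≤ ke * (e + 1))
    (hc : c ≤ 20) : nt + ne + c ≤ (kt + ke + kf + kg + 20) * (a + e + 1) := by
  have g1 : kt * (a + 1) ≤ kt * (a + e + 1) := Nat.mul_le_mul_left _ (by omega)
  have g2 : ke * (e + 1) ≤ ke * (a + e + 1) := Nat.mul_le_mul_left _ (by omega)
  have g3 : (kt + ke + kf + kg + 20) * (a + e + 1) = kt * (a + e + 1) + ke * (a + e + 1) +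
    kf * (a + e + 1) + kg * (a + e + 1) + 20 * (a + e + 1) := by ring
  rw [g3]
  have g4 := Nat.zero_le (kf * (a + e + 1))
  have g5 := Nat.zero_le (kg * (a + e + 1))
  omega

theorem p_CSQ (α δ : Type) [Enc α] [Enc δ] : T_CSQ α δ := by
  intro t e f g A E F G ht he hf hg
  obtain ⟨pt, Kt, ht⟩ := ht
  obtain ⟨pe, Ke, he⟩ := he
  obtain ⟨pf, Kf, hf⟩ := hf
  obtain ⟨pg, Kg, hg⟩ := hg
  refine ⟨Prog.comp (Prog.cond Prog.snd (Prog.cond (Prog.comp Prog.fst Prog.snd)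
    (Prog.comp pg (Prog.fork Prog.fst (Prog.comp Prog.snd Prog.snd)))
    (Prog.comp pf (Prog.fork Prog.fst (Prog.comp Prog.snd Prog.snd))))
    (Prog.comp pe Prog.fst)) (Prog.fork Prog.id pt), Kt + Ke + Kf + Kg + 20, fun b x => ?_⟩
  obtain ⟨nt, hnt, h1⟩ := ht b x
  have h2 : Run b (Prog.fork Prog.id pt) (enc x) (Val.pair (enc x) (enc (t x))) (1 + nt + 1) :=
    Run.fork _ _ _ _ _ _ _ _ (Run.prim _ _ _ _ rfl) h1
  cases h : t x with
  | stop =>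
    simp only [h]
    obtain ⟨ne, hne, h3⟩ := he b x
    rw [h] at h2
    have h4 : Run b (Prog.comp pe Prog.fst) (Val.pair (enc x) (enc (QT.stop : QT ℝ)))
        (enc (e x)) (1 + ne + 1) :=
      Run.comp _ _ _ _ _ _ _ _ (Run.prim _ _ _ _ rfl) h3
    refine ⟨_, ?_, Run.comp _ _ _ _ _ _ _ _ h2
      (Run.condF _ _ _ _ _ _ _ _ (Run.prim _ _ _ _ rfl) h4)⟩
    have := CSQ_arith Kt Ke Kf Kg (A x) (E x) nt ne 20 hnt hne le_rfl
    omega
  | cand s r =>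
    simp only [h]
    obtain ⟨nf, hnf, h3⟩ := hf b (x, s, r)
    rw [h] at h2
    have h5 : Run b (Prog.fork Prog.fst (Prog.comp Prog.snd Prog.snd))
        (Val.pair (enc x) (enc (QT.cand s r))) (enc (x, s, r)) (1 + (1 + 1 + 1) + 1) :=
      Run.fork _ _ _ _ _ _ _ _ (Run.prim _ _ _ _ rfl)
        (Run.comp _ _ _ _ _ _ _ _ (Run.prim _ _ _ _ rfl) (Run.prim _ _ _ _ rfl))
    have h4 := Run.comp _ _ _ _ _ _ _ _ h5 h3
    have h6 : Run b (Prog.comp Prog.fst Prog.snd) (Val.pair (enc x) (enc (QT.cand s r))) Val.nil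
        (1 + 1 + 1) :=
      Run.comp _ _ _ _ _ _ _ _ (Run.prim _ _ _ _ rfl) (Run.prim _ _ _ _ rfl)
    refine ⟨_, ?_, Run.comp _ _ _ _ _ _ _ _ h2
      (Run.condT _ _ _ _ _ _ _ _ _ _ (Run.prim _ _ _ _ rfl)
        (Run.condF _ _ _ _ _ _ _ _ h6 h4))⟩
    have := CSQ_arith Kt Kf Ke Kg (A x) (F (x, s, r)) nt nf 20 hnt hnf le_rfl
    have e1 : Kt + Kf + Ke + Kg + 20 = Kt + Ke + Kf + Kg + 20 := by ring
    rw [e1] at this
    omega
  | test a b' c y n =>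
    simp only [h]
    obtain ⟨ng, hng, h3⟩ := hg b (x, a, b', c, y, n)
    rw [h] at h2
    have h5 : Run b (Prog.fork Prog.fst (Prog.comp Prog.snd Prog.snd))
        (Val.pair (enc x) (enc (QT.test a b' c y n))) (enc (x, a, b', c, y, n))
        (1 + (1 + 1 + 1) + 1) :=
      Run.fork _ _ _ _ _ _ _ _ (Run.prim _ _ _ _ rfl)
        (Run.comp _ _ _ _ _ _ _ _ (Run.prim _ _ _ _ rfl) (Run.prim _ _ _ _ rfl))
    have h4 := Run.comp _ _ _ _ _ _ _ _ h5 h3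
    have h6 : Run b (Prog.comp Prog.fst Prog.snd) (Val.pair (enc x) (enc (QT.test a b' c y n)))
        (Val.pair Val.nil Val.nil) (1 + 1 + 1) :=
      Run.comp _ _ _ _ _ _ _ _ (Run.prim _ _ _ _ rfl) (Run.prim _ _ _ _ rfl)
    refine ⟨_, ?_, Run.comp _ _ _ _ _ _ _ _ h2
      (Run.condT _ _ _ _ _ _ _ _ _ _ (Run.prim _ _ _ _ rfl)
        (Run.condT _ _ _ _ _ _ _ _ _ _ h6 h4))⟩
    have := CSQ_arith Kt Kg Ke Kf (A x) (G (x, a, b', c, y, n)) nt ng 20 hnt hng le_rfl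
    have e1 : Kt + Kg + Ke + Kf + 20 = Kt + Ke + Kf + Kg + 20 := by ring
    rw [e1] at this
    omega

end Pool.Agent.EVD
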