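import Pool.Agent.EVD.EncD

/-! # EVD: real operations (helper45) -/

set_option autoImplicit false

namespace Pool.Agent.EVD

namespace REA_

variable {α : Type} [Enc α]

theorem tt : CB (fun _ : α => true) (fun _ => 0) := by
  have h1 : CB (fun _ : α => ((), ())) (fun _ => 0 + 0) :=
    CB.pair (CB.nilv () rfl) (CB.nilv () rfl)
  have h2 : CB (fun _ : Unit × Unit => true) (fun _ => 0) := CB.recode fun _ => rfl
  exact (h2.comp h1).mono 1 fun _ => by omega

theorem ff : CB (fun _ : α => false) (fun _ => 0) := CB.nilv false rfl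

theorem op {f : ℝ × ℝ → ℝ} (hf : CB f (fun _ => 0)) {a b : α → ℝ} {A B : α → ℕ} (ha : CB a A)
    (hb : CB b B) : CB (fun x => f (a x, b x)) (fun x => A x + B x) :=
  (hf.comp (ha.pair hb)).mono 1 fun _ => by omega

theorem zero : CB (fun _ : α => (0 : ℝ)) (fun _ => 0) :=
  ((op CB.real_sub (CB.real_one (α := α)) (CB.real_one (α := α))).congr (g := fun _ => (0 : ℝ))
    (fun _ => by norm_num)).mono 1 fun _ => by omega

theorem two : CB (fun _ : α => (2 : ℝ)) (fun _ => 0) :=
  ((op CB.real_add (CB.real_one (α := α)) (CB.real_one (α := α))).congr (g := fun _ => (2 : ℝ))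
    (fun _ => by norm_num)).mono 1 fun _ => by omega

theorem ltc {a b : α → ℝ} {A B : α → ℕ} (ha : CB a A) (hb : CB b B) :
    CB (fun x => decide (a x < b x)) (fun x => A x + B x) :=
  (CB.real_lt.comp (ha.pair hb)).mono 1 fun _ => by omega

theorem lec {a b : α → ℝ} {A B : α → ℕ} (ha : CB a A) (hb : CB b B) :
    CB (fun x => decide (a x ≤ b x)) (fun x => A x + B x) := by
  have h := CB.ite (ltc hb ha) (ff (α := α)) (tt (α := α))
  refine (h.congr (g := fun x => decide (a x ≤ b x)) fun x => ?_).mono 1 fun x => ?_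
  · by_cases hx : b x < a x
    · simp [hx]
    · simp [hx, not_lt.1 hx]
  · split_ifs <;> omega

end REA_

open REA_ in
theorem p_REA : T_REA := by
  intro α _ a b A B ha hb
  refine ⟨op CB.real_add ha hb, op CB.real_sub ha hb, op CB.real_mul ha hb, op CB.real_div ha hb,
    ?_, zero, CB.real_one, two, ltc ha hb, lec ha hb⟩
  exact ((op CB.real_sub (zero (α := α)) ha).congr (g := fun x => -a x)
    fun x => by simp).mono 1 fun _ => by omega

end Pool.Agent.EVD
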