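import Pool.Agent.EVD.TC
import Pool.Agent.EVD.P_CSQ
import Pool.Agent.EVD.P_INJ
import Pool.Agent.EVD.P_REA

/-! # EVD: running time of the query walk (helper45) -/

set_option autoImplicit false

namespace Pool.Agent.EVD

namespace CFIN_

section closure

variable {α β γ : Type} [Enc α] [Enc β] [Enc γ]

theorem cmp {f : β → γ} {g : α → β} (hf : CB f (fun _ => 0)) (hg : CB g (fun _ => 0)) :
    CB (fun x => f (g x)) (fun _ => 0) :=
  (hf.comp hg).mono 1 fun _ => by omega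

theorem pr {f : α → β} {g : α → γ} (hf : CB f (fun _ => 0)) (hg : CB g (fun _ => 0)) :
    CB (fun x => (f x, g x)) (fun _ => 0) :=
  (hf.pair hg).mono 1 fun _ => by omega

theorem ift {t : α → Prop} [DecidablePred t] {f g : α → β}
    (ht : CB (fun x => decide (t x)) (fun _ => 0)) (hf : CB f (fun _ => 0))
    (hg : CB g (fun _ => 0)) : CB (fun x => if t x then f x else g x) (fun _ => 0) := by
  refine ((CB.ite ht hf hg).congr (g := fun x => if t x then f x else g x) fun x => ?_).mono 1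
    fun x => ?_
  · by_cases h : t x <;> simp [h]
  · split_ifs <;> omega

theorem c1 : CB (fun x : α × β => x.1) (fun _ => 0) := CB.fst
theorem c2 : CB (fun x : α × β => x.2) (fun _ => 0) := CB.snd

theorem lt {a b : α → ℝ} (ha : CB a (fun _ => 0)) (hb : CB b (fun _ => 0)) :
    CB (fun x => decide (a x < b x)) (fun _ => 0) :=
  (p_REA α a b _ _ ha hb).2.2.2.2.2.2.2.2.1.mono 1 fun _ => by omega

theorem ad {a b : α → ℝ} (ha : CB a (fun _ => 0)) (hb : CB b (fun _ => 0)) :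
    CB (fun x => a x + b x) (fun _ => 0) :=
  (p_REA α a b _ _ ha hb).1.mono 1 fun _ => by omega

theorem mu {a b : α → ℝ} (ha : CB a (fun _ => 0)) (hb : CB b (fun _ => 0)) :
    CB (fun x => a x * b x) (fun _ => 0) :=
  (p_REA α a b _ _ ha hb).2.2.1.mono 1 fun _ => by omega

end closure

/-- one step of the walk -/
noncomputable def q (x : QT ℝ × P × P) : P ⊕ ((QT ℝ × P × P) × Unit) :=
  match x.1 with
  | QT.stop => Sum.inl x.2.2
  | QT.cand s r =>
      Sum.inr ((r, x.2.1, if dsq x.2.1 s < dsq x.2.1 x.2.2 then s else x.2.2), ())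
  | QT.test a b c y n =>
      Sum.inr ((if a * x.2.1.1 + b * x.2.1.2 < c then y else n, x.2.1, x.2.2), ())

theorem cq (h_GEO : T_C_GEO) : CB q (fun _ => 0) := by
  have hd := h_GEO.2.1
  have he : CB (fun x : QT ℝ × P × P => (Sum.inl x.2.2 : P ⊕ ((QT ℝ × P × P) × Unit)))
      (fun _ => 0) := cmp (p_INJ _ _).1 (cmp c2 c2)
  have hf : CB (fun z : (QT ℝ × P × P) × P × QT ℝ => (Sum.inr ((z.2.2, z.1.2.1,
      if dsq z.1.2.1 z.2.1 < dsq z.1.2.1 z.1.2.2 then z.2.1 else z.1.2.2), ()) :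
      P ⊕ ((QT ℝ × P × P) × Unit))) (fun _ => 0) := by
    refine cmp (p_INJ _ _).2 (pr (pr (cmp c2 c2) (pr (cmp c1 (cmp c2 c1)) (ift ?_ (cmp c1 c2)
      (cmp c2 (cmp c2 c1))))) (CB.nilv () rfl))
    refine lt (cmp hd (pr (cmp c1 (cmp c2 c1)) (cmp c1 c2)))
      (cmp hd (pr (cmp c1 (cmp c2 c1)) (cmp c2 (cmp c2 c1))))
  have hg : CB (fun z : (QT ℝ × P × P) × ℝ × ℝ × ℝ × QT ℝ × QT ℝ => (Sum.inr
      ((if z.2.1 * z.1.2.1.1 + z.2.2.1 * z.1.2.1.2 < z.2.2.2.1 then z.2.2.2.2.1 else z.2.2.2.2.2,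
        z.1.2.1, z.1.2.2), ()) : P ⊕ ((QT ℝ × P × P) × Unit))) (fun _ => 0) := by
    have k2 : CB (fun z : (QT ℝ × P × P) × ℝ × ℝ × ℝ × QT ℝ × QT ℝ => z.2.2) (fun _ => 0) :=
      cmp c2 c2
    have k3 : CB (fun z : (QT ℝ × P × P) × ℝ × ℝ × ℝ × QT ℝ × QT ℝ => z.2.2.2) (fun _ => 0) :=
      cmp c2 k2
    have k4 : CB (fun z : (QT ℝ × P × P) × ℝ × ℝ × ℝ × QT ℝ × QT ℝ => z.2.2.2.2) (fun _ => 0) :=
      cmp c2 k3
    have kq : CB (fun z : (QT ℝ × P × P) × ℝ × ℝ × ℝ × QT ℝ × QT ℝ => z.1.2.1) (fun _ => 0) :=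
      cmp c1 (cmp c2 c1)
    refine cmp (p_INJ _ _).2 (pr (pr (ift ?_ (cmp c1 k4) (cmp c2 k4)) (pr kq (cmp c2 (cmp c2 c1))))
      (CB.nilv () rfl))
    exact lt (ad (mu (cmp c1 c2) (cmp c1 kq)) (mu (cmp c1 k2) (cmp c2 kq))) (cmp c1 k3)
  refine ((p_CSQ _ _ (fun x : QT ℝ × P × P => x.1) _ _ _ _ _ _ _ c1 he hf hg).congr (g := q)
    fun x => ?_).mono 1 fun x => ?_
  · unfold q
    cases x.1 <;> rfl
  · split <;> omega

end CFIN_

open CFIN_ in
theorem p_C_FIN (hRS1 : ∀ (α β γ : Type) [Enc α] [Enc β] [Enc γ], T_RS1 α β γ)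
    (h_GEO : T_C_GEO) : T_C_FIN := by
  refine hRS1 (QT ℝ × P × P) P Unit (fun x => x.1.find x.2.1 x.2.2) q (fun z => z.2) (fun _ => 0)
    (fun x => x.1.dep) (fun _ => 0) (cq h_GEO) CB.snd ?_ ?_ ?_
  · rintro ⟨t, p, b⟩
    cases t with
    | stop => rfl
    | cand s r => rfl
    | test a b' c y n =>
      show (if a * p.1 + b' * p.2 < c then y.find p b else n.find p b) =
        (if a * p.1 + b' * p.2 < c then y else n).find p b
      split_ifs <;> rfl
  · intro x b _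
    exact Nat.zero_le _
  · rintro ⟨t, p, b⟩ y z h
    cases t with
    | stop => exact absurd h (by simp [q])
    | cand s r =>
      have h1 := Sum.inr.inj h
      rw [← (Prod.mk.inj h1).1]
      show 0 + 0 + r.dep + 1 ≤ r.dep + 1
      omega
    | test a b' c u n =>
      have h1 := Sum.inr.inj h
      rw [← (Prod.mk.inj h1).1]
      show 0 + 0 + (if a * p.1 + b' * p.2 < c then u else n).dep + 1 ≤ max u.dep n.dep + 1
      split_ifs <;> omega

end Pool.Agent.EVD
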