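import Pool.Agent.EVD.TC
import Pool.Agent.EVD.P_BOO
import Pool.Agent.EVD.P_CON
import Pool.Agent.EVD.P_CSO
import Pool.Agent.EVD.P_FLD
import Pool.Agent.EVD.P_REA

/-! # EVD: `T_C_FNG`, running time of `inW` and `finger` -/

set_option autoImplicit false

namespace Pool.Agent.EVD

namespace CFNG_

theorem sfst : CB (fun d : Lf ℝ => d.s) (fun _ => 0) := p_FLD.1

theorem inWB : CB (fun x : P × P × Option (Lf ℝ) => inW x.1 x.2.1 x.2.2) (fun _ => 0) := by
  have hopt : CB (fun x : P × P × Option (Lf ℝ) => x.2.2) (fun _ => 0) :=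
    (CB.comp CB.snd CB.snd).mono 1 fun _ => by simp
  have hes : CB (fun z : (P × P × Option (Lf ℝ)) × Lf ℝ => z.2.s.1) (fun _ => 0) :=
    (CB.comp CB.fst (CB.comp sfst CB.snd)).mono 1 fun _ => by simp
  have hlo : CB (fun z : (P × P × Option (Lf ℝ)) × Lf ℝ => z.1.1.1) (fun _ => 0) :=
    (CB.comp CB.fst (CB.comp CB.fst CB.fst)).mono 1 fun _ => by simp
  have hhi : CB (fun z : (P × P × Option (Lf ℝ)) × Lf ℝ => z.1.2.1.1) (fun _ => 0) :=
    (CB.comp CB.fst (CB.comp CB.fst (CB.comp CB.snd CB.fst))).mono 1 fun _ => by simp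
  have h1 := (p_REA _ _ _ _ _ hlo hes).2.2.2.2.2.2.2.2.1
  have h2 := (p_REA _ _ _ _ _ hes hhi).2.2.2.2.2.2.2.2.1
  have h3 := ((p_BOO _).2.2.2 _ _ _ _ h1 h2).1
  have h4 := p_CSO (P × P × Option (Lf ℝ)) (Lf ℝ) Bool (fun x => x.2.2) (fun _ => false) _ _ _ _
    hopt (p_BOO _).2.1 h3
  refine (h4.mono 1 (B' := fun _ => 0) fun x => ?_).congr fun x => ?_
  · obtain ⟨a, b, c⟩ := x
    cases c <;> simp
  · obtain ⟨a, b, c⟩ := x
    cases c with
    | none => rfl
    | some e =>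
      simp only [inW]
      by_cases h : a.1 < e.s.1 <;> simp [h]

end CFNG_

open CFNG_ in
theorem p_C_FNG (h_TR : T_C_TR) (h_CUT : T_C_CUT) : T_C_FNG := by
  refine ⟨inWB, ?_⟩
  obtain ⟨hR, hL⟩ := h_TR (Option ℝ) cutT (fun _ => 0) h_CUT
  -- the argument of the tangent functions
  have harg : CB (fun x : List (TR ℝ) × Option ℝ × P × P × P => (x.2.1, x.2.2.1, x.1))
      (fun _ => 0) :=
    (CB.pair (CB.comp CB.fst CB.snd) (CB.pair (CB.comp CB.fst (CB.comp CB.snd CB.snd))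
      CB.fst)).mono 1 fun _ => by simp
  have hlo : CB (fun x : List (TR ℝ) × Option ℝ × P × P × P => x.2.2.2.1) (fun _ => 0) :=
    (CB.comp CB.fst (CB.comp CB.snd (CB.comp CB.snd CB.snd))).mono 1 fun _ => by simp
  have hhi : CB (fun x : List (TR ℝ) × Option ℝ × P × P × P => x.2.2.2.2) (fun _ => 0) :=
    (CB.comp CB.snd (CB.comp CB.snd (CB.comp CB.snd CB.snd))).mono 1 fun _ => by simp
  have tL : CB (fun x : List (TR ℝ) × Option ℝ × P × P × P => tanL (cutT x.2.1) x.2.2.1 x.1)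
      (fun x => pM x.1) :=
    (CB.comp hL harg).mono 1 fun _ => by simp
  have tR : CB (fun x : List (TR ℝ) × Option ℝ × P × P × P => tanR (cutT x.2.1) x.2.2.1 x.1)
      (fun x => pM x.1) :=
    (CB.comp hR harg).mono 1 fun _ => by simp
  have wL : CB (fun x : List (TR ℝ) × Option ℝ × P × P × P =>
      inW x.2.2.2.1 x.2.2.2.2 (tanL (cutT x.2.1) x.2.2.1 x.1)) (fun x => pM x.1) :=
    (CB.comp inWB (CB.pair hlo (CB.pair hhi tL))).mono 1 fun _ => by simp
  have wR : CB (fun x : List (TR ℝ) × Option ℝ × P × P × P =>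
      inW x.2.2.2.1 x.2.2.2.2 (tanR (cutT x.2.1) x.2.2.1 x.1)) (fun x => pM x.1) :=
    (CB.comp inWB (CB.pair hlo (CB.pair hhi tR))).mono 1 fun _ => by simp
  have hnone : CB (fun _ : List (TR ℝ) × Option ℝ × P × P × P => (none : Option (Lf ℝ)))
      (fun _ => 0) := (p_CON (Lf ℝ) _).2.2.2
  refine ((CB.ite wL tL (CB.ite wR tR hnone)).mono 4 (B' := fun x => pM x.1)
    fun x => ?_).congr fun x => rfl
  split_ifs <;> omega

end Pool.Agent.EVD
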