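import Pool.Agent.EVD.TC
import Pool.Agent.EVD.P_REA
import Pool.Agent.EVD.P_BOO

/-! # EVD, target `T_C_GEO`: time of `cc`, `dsq`, `nsq`, `lexlt`, `mir` -/

set_option autoImplicit false

namespace Pool.Agent.EVD

namespace CGEO_

section
variable {α β γ : Type} [Enc α] [Enc β] [Enc γ]

theorem cz {f : β → γ} {g : α → β} (hf : CB f (fun _ => 0)) (hg : CB g (fun _ => 0)) :
    CB (fun x => f (g x)) (fun _ => 0) :=
  (hf.comp hg).mono 1 (fun _ => by simp)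

theorem pz {f : α → β} {g : α → γ} (hf : CB f (fun _ => 0)) (hg : CB g (fun _ => 0)) :
    CB (fun x => (f x, g x)) (fun _ => 0) :=
  (hf.pair hg).mono 1 (fun _ => by simp)

theorem p1 {g : α → β × γ} (hg : CB g (fun _ => 0)) : CB (fun x => (g x).1) (fun _ => 0) :=
  cz CB.fst hg

theorem p2 {g : α → β × γ} (hg : CB g (fun _ => 0)) : CB (fun x => (g x).2) (fun _ => 0) :=
  cz CB.snd hg

theorem add {a b : α → ℝ} (ha : CB a (fun _ => 0)) (hb : CB b (fun _ => 0)) :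
    CB (fun x => a x + b x) (fun _ => 0) :=
  (p_REA α a b _ _ ha hb).1.mono 1 (fun _ => by simp)

theorem sub {a b : α → ℝ} (ha : CB a (fun _ => 0)) (hb : CB b (fun _ => 0)) :
    CB (fun x => a x - b x) (fun _ => 0) :=
  (p_REA α a b _ _ ha hb).2.1.mono 1 (fun _ => by simp)

theorem mul {a b : α → ℝ} (ha : CB a (fun _ => 0)) (hb : CB b (fun _ => 0)) :
    CB (fun x => a x * b x) (fun _ => 0) :=
  (p_REA α a b _ _ ha hb).2.2.1.mono 1 (fun _ => by simp)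

theorem dvd {a b : α → ℝ} (ha : CB a (fun _ => 0)) (hb : CB b (fun _ => 0)) :
    CB (fun x => a x / b x) (fun _ => 0) :=
  (p_REA α a b _ _ ha hb).2.2.2.1.mono 1 (fun _ => by simp)

theorem ngt {a : α → ℝ} (ha : CB a (fun _ => 0)) : CB (fun x => -a x) (fun _ => 0) :=
  (p_REA α a a _ _ ha ha).2.2.2.2.1

theorem two : CB (fun _ : α => (2 : ℝ)) (fun _ => 0) := REA_.two

theorem ltd {a b : α → ℝ} (ha : CB a (fun _ => 0)) (hb : CB b (fun _ => 0)) :
    CB (fun x => decide (a x < b x)) (fun _ => 0) :=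
  (p_REA α a b _ _ ha hb).2.2.2.2.2.2.2.2.1.mono 1 (fun _ => by simp)

theorem itz {t : α → Bool} {f g : α → β} (ht : CB t (fun _ => 0)) (hf : CB f (fun _ => 0))
    (hg : CB g (fun _ => 0)) : CB (fun x => if t x then f x else g x) (fun _ => 0) :=
  (CB.ite ht hf hg).mono 1 (fun _ => by simp)

theorem nsqz {p : α → P} (hp : CB p (fun _ => 0)) : CB (fun x => nsq (p x)) (fun _ => 0) :=
  add (mul (p1 hp) (p1 hp)) (mul (p2 hp) (p2 hp))

theorem dsqz {p q : α → P} (hp : CB p (fun _ => 0)) (hq : CB q (fun _ => 0)) :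
    CB (fun x => dsq (p x) (q x)) (fun _ => 0) :=
  add (mul (sub (p1 hp) (p1 hq)) (sub (p1 hp) (p1 hq)))
    (mul (sub (p2 hp) (p2 hq)) (sub (p2 hp) (p2 hq)))

theorem ccAz {a b c : α → P} (ha : CB a (fun _ => 0)) (hb : CB b (fun _ => 0))
    (hc : CB c (fun _ => 0)) : CB (fun x => ccA (a x) (b x) (c x)) (fun _ => 0) :=
  sub (mul (sub (nsqz hb) (nsqz ha)) (sub (p1 hc) (p1 ha)))
    (mul (sub (nsqz hc) (nsqz ha)) (sub (p1 hb) (p1 ha)))

theorem ccBz {a b c : α → P} (ha : CB a (fun _ => 0)) (hb : CB b (fun _ => 0))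
    (hc : CB c (fun _ => 0)) : CB (fun x => ccB (a x) (b x) (c x)) (fun _ => 0) :=
  sub (mul (sub (p2 hb) (p2 ha)) (sub (p1 hc) (p1 ha)))
    (mul (sub (p2 hc) (p2 ha)) (sub (p1 hb) (p1 ha)))

theorem ccz {a b c : α → P} (ha : CB a (fun _ => 0)) (hb : CB b (fun _ => 0))
    (hc : CB c (fun _ => 0)) : CB (fun x => cc (a x) (b x) (c x)) (fun _ => 0) :=
  dvd (ccAz ha hb hc) (mul two (ccBz ha hb hc))

theorem lexz {a b : α → P} (ha : CB a (fun _ => 0)) (hb : CB b (fun _ => 0)) :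
    CB (fun x => lexlt (a x) (b x)) (fun _ => 0) := by
  refine (itz (ltd (p1 ha) (p1 hb)) (p_BOO α).1 (itz (ltd (p1 hb) (p1 ha)) (p_BOO α).2.1
    (ltd (p2 ha) (p2 hb)))).congr fun x => ?_
  unfold lexlt
  simp only [decide_eq_true_eq]

theorem mirz {a : α → P} (ha : CB a (fun _ => 0)) : CB (fun x => mir (a x)) (fun _ => 0) :=
  pz (p1 ha) (ngt (p2 ha))

end

end CGEO_

open CGEO_ in
theorem p_C_GEO : T_C_GEO :=
  ⟨ccz (p1 CB.id) (p1 (p2 CB.id)) (p2 (p2 CB.id)), dsqz (p1 CB.id) (p2 CB.id), nsqz CB.id,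
    lexz (p1 CB.id) (p2 CB.id), mirz CB.id⟩

end Pool.Agent.EVD
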