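import Pool.Agent.EVD.TC

/-! # EVD: running time of `goR`, `goL` (`T_C_GO`) -/

set_option autoImplicit false

namespace Pool.Agent.EVD

/-- three points from the environment -/
theorem CGO_.pt {E : Type} [Enc E] (hF : T_FLD) :
    CB (fun x : (E × P) × Lf ℝ × Lf ℝ => x.2.1.s) (fun _ => 0) ∧
    CB (fun x : (E × P) × Lf ℝ × Lf ℝ => x.2.2.s) (fun _ => 0) ∧
    CB (fun x : (E × P) × Lf ℝ × Lf ℝ => x.1.2) (fun _ => 0) ∧
    CB (fun x : (E × P) × Lf ℝ × Lf ℝ => x.1.1) (fun _ => 0) :=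
  ⟨CB.comp hF.1 (CB.comp CB.fst CB.snd), CB.comp hF.1 (CB.comp CB.snd CB.snd),
    CB.comp CB.snd CB.fst, CB.comp CB.fst CB.fst⟩

theorem p_C_GO (hG : T_C_GEO) (hF : T_FLD)
    (hB : ∀ (α : Type) [Enc α], T_BOO α) : T_C_GO := by
  intro E _ D c hD
  obtain ⟨ha, hb, hf, he⟩ := CGO_.pt (E := E) hF
  have hcc := hG.1
  refine ⟨?_, ?_, ?_⟩
  · have h := CB.comp hD (CB.pair he (CB.comp hcc (CB.pair hf (CB.pair ha hb))))
    exact h.mono 1 (fun x => by simp only; omega)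
  · have h := CB.comp hD (CB.pair he (CB.comp hcc (CB.pair ha (CB.pair hb hf))))
    have h2 := (hB _).2.2.1 _ _ h
    exact h2.mono 1 (fun x => by simp only; omega)
  · have h := CB.comp hD (CB.pair (CB.comp CB.fst CB.fst) CB.snd :
      CB (fun x : (E × P) × ℝ => (x.1.1, x.2)) _)
    exact h.mono 1 (fun x => by simp only; omega)

end Pool.Agent.EVD
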