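import Pool.Agent.EVD.TC
import Pool.Agent.EVD.P_CSO
import Pool.Agent.EVD.P_FLD

/-! # EVD: running time of `gapQ` (`T_C_GQ`, helper36) -/

set_option autoImplicit false

namespace Pool.Agent.EVD

/-- arguments: height, abscissa, tree -/
abbrev CGQ_Y : Type := (Option ℝ × ℝ × Option (TR ℝ)) × TR ℝ

/-- innermost case: the two neighbours are known -/
noncomputable def CGQ_g3 (z : (CGQ_Y × Lf ℝ) × Lf ℝ) : QT ℝ :=
  match minIn z.1.2.s.1 z.2.s.1 z.1.1.2 with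
  | none => z.2.q1
  | some d => d.q2

/-- the left neighbour is known -/
noncomputable def CGQ_g2 (y : CGQ_Y × Lf ℝ) : QT ℝ :=
  match firstGt (cutT y.1.1.1) y.1.1.2.1 y.1.2 with
  | none => QT.stop
  | some c => CGQ_g3 (y, c)

/-- the tree is known -/
noncomputable def CGQ_g1 (y : CGQ_Y) : QT ℝ :=
  match lastLt (cutT y.1.1) y.1.2.1 y.2 with
  | none => QT.stop
  | some c => CGQ_g2 (y, c)

theorem CGQ_eq (x : Option ℝ × ℝ × Option (TR ℝ)) :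
    (match x.2.2 with | none => QT.stop | some t => CGQ_g1 (x, t)) = gapQ x.1 x.2.1 x.2.2 := by
  obtain ⟨T, a, o⟩ := x
  cases o with
  | none => rfl
  | some t =>
    show CGQ_g1 ((T, a, some t), t) = gapQ T a (some t)
    simp only [CGQ_g1, CGQ_g2, gapQ]
    cases h1 : lastLt (cutT T) a t with
    | none => rfl
    | some c =>
      simp only
      cases h2 : firstGt (cutT T) a t with
      | none => rfl
      | some c' =>
        simp only [CGQ_g3]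
        cases minIn c.s.1 c'.s.1 t <;> rfl

theorem CGQ_h3 (hM : T_C_MIN) : CB CGQ_g3 (fun z => z.1.1.2.dep) := by
  have hF := p_FLD
  have hs := hF.1
  have h1 : CB (fun z : (CGQ_Y × Lf ℝ) × Lf ℝ => minIn z.1.2.s.1 z.2.s.1 z.1.1.2)
      (fun z => z.1.1.2.dep) := by
    have a1 : CB (fun z : (CGQ_Y × Lf ℝ) × Lf ℝ => z.1.2.s.1) _ :=
      CB.comp CB.fst (CB.comp hs (CB.comp CB.snd CB.fst))
    have a2 : CB (fun z : (CGQ_Y × Lf ℝ) × Lf ℝ => z.2.s.1) _ :=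
      CB.comp CB.fst (CB.comp hs CB.snd)
    have a3 : CB (fun z : (CGQ_Y × Lf ℝ) × Lf ℝ => z.1.1.2) _ :=
      CB.comp CB.snd (CB.comp CB.fst CB.fst)
    exact (CB.comp hM.2.2 (CB.pair a1 (CB.pair a2 a3))).mono 1 (fun z => by simp only; omega)
  have h2 : CB (fun z : (CGQ_Y × Lf ℝ) × Lf ℝ => z.2.q1) _ := CB.comp hF.2.2.2.2.1 CB.snd
  have h3 : CB (fun z : ((CGQ_Y × Lf ℝ) × Lf ℝ) × Lf ℝ => z.2.q2) _ :=
    CB.comp hF.2.2.2.2.2.1 CB.snd
  have h4 := p_CSO _ _ _ (fun z : (CGQ_Y × Lf ℝ) × Lf ℝ => minIn z.1.2.s.1 z.2.s.1 z.1.1.2)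
    (fun z => z.2.q1) (fun z => z.2.q2) _ _ _ h1 h2 h3
  refine (h4.congr (g := CGQ_g3) (fun z => by
    unfold CGQ_g3
    cases minIn z.1.2.s.1 z.2.s.1 z.1.1.2 <;> rfl)).mono 1 (fun z => ?_)
  cases minIn z.1.2.s.1 z.2.s.1 z.1.1.2 with
  | none => simp only; omega
  | some d => simp only; omega

theorem CGQ_sq (n : ℕ) : n ≤ (n + 1) ^ 2 := by nlinarith

theorem CGQ_h2 (hL : T_C_LL) (hC : T_C_CUT) (hM : T_C_MIN) :
    CB CGQ_g2 (fun y => (y.1.2.dep + 1) ^ 2) := by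
  have hFG := (hL (Option ℝ) cutT (fun _ => 0) hC).2
  have h1 : CB (fun y : CGQ_Y × Lf ℝ => firstGt (cutT y.1.1.1) y.1.1.2.1 y.1.2)
      (fun y => (y.1.2.dep + 1) ^ 2) := by
    have a1 : CB (fun y : CGQ_Y × Lf ℝ => y.1.1.1) _ :=
      CB.comp CB.fst (CB.comp CB.fst CB.fst)
    have a2 : CB (fun y : CGQ_Y × Lf ℝ => y.1.1.2.1) _ :=
      CB.comp CB.fst (CB.comp CB.snd (CB.comp CB.fst CB.fst))
    have a3 : CB (fun y : CGQ_Y × Lf ℝ => y.1.2) _ := CB.comp CB.snd CB.fst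
    exact (CB.comp hFG (CB.pair a1 (CB.pair a2 a3))).mono 1 (fun y => by simp only; omega)
  have h2 : CB (fun _ : CGQ_Y × Lf ℝ => (QT.stop : QT ℝ)) (fun _ => 0) := CB.nilv _ rfl
  have h3 := CGQ_h3 hM
  have h4 := p_CSO _ _ _ (fun y : CGQ_Y × Lf ℝ => firstGt (cutT y.1.1.1) y.1.1.2.1 y.1.2)
    (fun _ => (QT.stop : QT ℝ)) CGQ_g3 _ _ _ h1 h2 h3
  refine (h4.congr (g := CGQ_g2) (fun y => by
    unfold CGQ_g2
    cases firstGt (cutT y.1.1.1) y.1.1.2.1 y.1.2 <;> rfl)).mono 2 (fun y => ?_)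
  dsimp only
  have := CGQ_sq y.1.2.dep
  cases firstGt (cutT y.1.1.1) y.1.1.2.1 y.1.2 with
  | none => simp only; omega
  | some d => simp only; omega

theorem CGQ_h1 (hL : T_C_LL) (hC : T_C_CUT) (hM : T_C_MIN) :
    CB CGQ_g1 (fun y => (y.2.dep + 1) ^ 2) := by
  have hLL := (hL (Option ℝ) cutT (fun _ => 0) hC).1
  have h1 : CB (fun y : CGQ_Y => lastLt (cutT y.1.1) y.1.2.1 y.2)
      (fun y => (y.2.dep + 1) ^ 2) := by
    have a1 : CB (fun y : CGQ_Y => y.1.1) _ := CB.comp CB.fst CB.fst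
    have a2 : CB (fun y : CGQ_Y => y.1.2.1) _ := CB.comp CB.fst (CB.comp CB.snd CB.fst)
    exact (CB.comp hLL (CB.pair a1 (CB.pair a2 CB.snd))).mono 1 (fun y => by simp only; omega)
  have h2 : CB (fun _ : CGQ_Y => (QT.stop : QT ℝ)) (fun _ => 0) := CB.nilv _ rfl
  have h3 := CGQ_h2 hL hC hM
  have h4 := p_CSO _ _ _ (fun y : CGQ_Y => lastLt (cutT y.1.1) y.1.2.1 y.2)
    (fun _ => (QT.stop : QT ℝ)) CGQ_g2 _ _ _ h1 h2 h3
  refine (h4.congr (g := CGQ_g1) (fun y => by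
    unfold CGQ_g1
    cases lastLt (cutT y.1.1) y.1.2.1 y.2 <;> rfl)).mono 2 (fun y => ?_)
  dsimp only
  cases lastLt (cutT y.1.1) y.1.2.1 y.2 with
  | none => simp only; omega
  | some d => simp only; omega

theorem p_C_GQ (hL : T_C_LL) (hC : T_C_CUT) (hM : T_C_MIN) : T_C_GQ := by
  have h1 : CB (fun x : Option ℝ × ℝ × Option (TR ℝ) => x.2.2) _ := CB.comp CB.snd CB.snd
  have h2 : CB (fun _ : Option ℝ × ℝ × Option (TR ℝ) => (QT.stop : QT ℝ)) (fun _ => 0) :=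
    CB.nilv _ rfl
  have h4 := p_CSO _ _ _ (fun x : Option ℝ × ℝ × Option (TR ℝ) => x.2.2)
    (fun _ => (QT.stop : QT ℝ)) CGQ_g1 _ _ _ h1 h2 (CGQ_h1 hL hC hM)
  refine (h4.congr (g := fun x => gapQ x.1 x.2.1 x.2.2) (fun x => by
    rw [← CGQ_eq x]
    cases x.2.2 <;> rfl)).mono 1 (fun x => ?_)
  obtain ⟨T, a, o⟩ := x
  cases o with
  | none => simp only; omega
  | some t => simp only [odep]; omega

end Pool.Agent.EVD
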