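import Pool.Agent.EVD.TC
import Pool.Agent.EVD.P_CSO
import Pool.Agent.EVD.P_BOO
import Pool.Agent.EVD.P_REA
import Pool.Agent.EVD.P_FLD

/-! # EVD: time of `hle` and `btr` -/

set_option autoImplicit false

namespace Pool.Agent.EVD

namespace CHLE_

theorem cb_hle : CB (fun x : Option ℝ × Option ℝ => hle x.1 x.2) (fun _ => 0) := by
  -- both are real numbers
  have h3 : CB (fun z : ((Option ℝ × Option ℝ) × ℝ) × ℝ => decide (z.1.2 ≤ z.2)) (fun _ => 0) := by
    have hr := (p_REA (((Option ℝ × Option ℝ) × ℝ) × ℝ) (fun z => z.1.2) (fun z => z.2) _ _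
      (CB.comp CB.snd CB.fst) CB.snd).2.2.2.2.2.2.2.2.2
    exact hr.mono 1 (fun z => by simp)
  -- the first one is a real number
  have h2 := p_CSO ((Option ℝ × Option ℝ) × ℝ) ℝ Bool (fun y => y.1.2) (fun _ => false)
    (fun z => decide (z.1.2 ≤ z.2)) _ _ _ (CB.comp CB.snd CB.fst)
    ((p_BOO ((Option ℝ × Option ℝ) × ℝ)).2.1) h3
  have h1 := p_CSO (Option ℝ × Option ℝ) ℝ Bool (fun x => x.1) (fun _ => true) _ _ _ _ CB.fst
    ((p_BOO (Option ℝ × Option ℝ)).1) h2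
  refine (h1.mono 1 (fun x => ?_)).congr (fun x => ?_)
  · dsimp only
    split
    · simp
    · split <;> simp
  · obtain ⟨a, b⟩ := x
    cases a with
    | none => rfl
    | some a => cases b <;> rfl

end CHLE_

open CHLE_

theorem p_C_HLE : T_C_HLE := by
  refine ⟨cb_hle, ?_⟩
  have hh : CB (fun d : Lf ℝ => d.h) (fun _ => 0) := p_FLD.2.1
  have ht := CB.comp cb_hle (CB.pair (CB.comp hh (CB.fst (α := Lf ℝ) (β := Lf ℝ)))
    (CB.comp hh (CB.snd (α := Lf ℝ) (β := Lf ℝ))))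
  refine ((CB.ite ht (CB.fst (α := Lf ℝ) (β := Lf ℝ)) (CB.snd (α := Lf ℝ) (β := Lf ℝ))).mono 1
    (fun x => ?_)).congr (fun x => ?_)
  · dsimp only
    split <;> omega
  · rfl

end Pool.Agent.EVD
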