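import Pool.Agent.EVD.TC

/-! # EVD: running time of `insC` (`T_C_INC`) -/

set_option autoImplicit false

namespace Pool.Agent.EVD

/-- singleton lists -/
theorem CINC_one {α β : Type} [Enc α] [Enc β] (hC : T_CON β β) {f : α → β} {F : α → ℕ}
    (hf : CB f F) : CB (fun x => [f x]) F := by
  have h0 : CB (fun _ : α => ([] : List β)) (fun _ => 0) := CB.nilv _ rfl
  have h := CB.comp hC.1 (CB.pair hf h0)
  exact h.mono 1 (fun x => by omega)

/-- the new leaf -/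
theorem CINC_leaf (hF : T_FLD) (hT : T_CTR) (hR : T_REA) :
    CB (fun x : CS ℝ × P => (TR.leaf ⟨x.2, none, 0, 0, QT.stop, QT.stop⟩ : TR ℝ))
      (fun _ => 0) := by
  have h0 : CB (fun _ : CS ℝ × P => (0 : ℝ)) (fun _ => 0) :=
    (hR (CS ℝ × P) (fun _ => 1) (fun _ => 1) _ _ CB.real_one CB.real_one).2.2.2.2.2.1
  have hn : CB (fun _ : CS ℝ × P => (none : Option ℝ)) (fun _ => 0) := CB.nilv _ rfl
  have hs : CB (fun _ : CS ℝ × P => (QT.stop : QT ℝ)) (fun _ => 0) := CB.nilv _ rfl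
  have h1 := CB.pair (CB.snd : CB (fun x : CS ℝ × P => x.2) _)
    (CB.pair hn (CB.pair h0 (CB.pair h0 (CB.pair hs hs))))
  have h2 := CB.comp hF.2.2.2.2.2.2.1 h1
  have h3 := CB.comp hT.1 h2
  exact h3.mono 1 (fun x => by omega)

theorem p_C_INC (hI : T_C_INS) (hRO : T_C_ROO) (hF : T_FLD) (hT : T_CTR) (hR : T_REA)
    (hC : ∀ (α β : Type) [Enc α] [Enc β], T_CON α β) : T_C_INC := by
  have hsl0 : CB (fun x : CS ℝ × P => x.1.sl) (fun _ => 0) := by
    have h := CB.comp hF.2.2.2.2.2.2.2.2.2.2.2.2.2.2.1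
      (CB.fst : CB (fun x : CS ℝ × P => x.1) _)
    exact h.mono 1 (fun x => by omega)
  have hp : CB (fun x : CS ℝ × P => [x.2]) (fun _ => 0) :=
    CINC_one (hC P P) (CB.snd : CB (fun x : CS ℝ × P => x.2) _)
  have hl := CINC_one (hC (TR ℝ) (TR ℝ)) (CINC_leaf hF hT hR)
  have hsl := CB.comp hI (CB.pair hsl0 (CB.pair hp hl))
  have hq := CB.comp hRO.2 hsl
  have h := CB.comp hF.2.2.2.2.2.2.2.2.2.2.2.2.2.2.2.1 (CB.pair hq hsl)
  refine (h.mono (B' := fun x : CS ℝ × P => tC x.1.sl x.2) 2 (fun x => ?_)).congr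
    (fun x => rfl)
  simp only [tC]
  omega

end Pool.Agent.EVD
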