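import Pool.Agent.EVD.TC
import Pool.Agent.EVD.P_RS1
import Pool.Agent.EVD.P_CON
import Pool.Agent.EVD.P_CSL
import Pool.Agent.EVD.P_CSO
import Pool.Agent.EVD.P_FLD
import Pool.Agent.EVD.P_INJ

/-! # EVD: T_C_INS, the time of `insS` (helper50) -/

namespace Pool.Agent.EVD

/-- the arguments of `insS` -/
abbrev CINS_X : Type := List (Slot ℝ) × List P × List (TR ℝ)

/-- tree of the new part -/
noncomputable def CINS_pt (x : CINS_X) : Option (TR ℝ) := build (x.2.1.map (mkLf x.2.2))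

/-- the new slot -/
noncomputable def CINS_sl (x : CINS_X) : Slot ℝ := mkSlot x.2.1 (CINS_pt x) x.1

theorem CINS_pt_cb (h_MAP : T_C_MAP) (h_BLD : T_C_BLD) (h_MKL : T_C_MKL) :
    CB CINS_pt (fun x => cPart x.2.1 x.2.2) := by
  have h1 := h_MAP (List (TR ℝ)) P (Lf ℝ) mkLf (fun ps => (pM ps + 1) ^ 2) h_MKL
  have h2 : CB (fun x : CINS_X => (x.2.2, x.2.1)) (fun _ => 0 + 0 + (0 + 0)) :=
    CB.pair (CB.comp CB.snd CB.snd) (CB.comp CB.fst CB.snd)
  have h3 := CB.comp h_BLD.2 (CB.comp h1 h2)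
  refine (CB.congr h3 (g := CINS_pt) fun _ => rfl).mono 2 fun x => ?_
  show 0 + 0 + (0 + 0) + (x.2.1.length + 1) * ((pM x.2.2 + 1) ^ 2 + 1) +
    (x.2.1.map (mkLf x.2.2)).length ≤ 2 * (cPart x.2.1 x.2.2 + 1)
  rw [List.length_map]
  unfold cPart
  have : x.2.1.length ≤ (x.2.1.length + 1) * ((pM x.2.2 + 1) ^ 2 + 1) :=
    (Nat.le_succ _).trans (Nat.le_mul_of_pos_right _ (Nat.succ_pos _))
  omega

theorem CINS_sl_cb (h_MAP : T_C_MAP) (h_BLD : T_C_BLD) (h_MKL : T_C_MKL) (h_SLT : T_C_SLT) :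
    CB CINS_sl (fun x => cPart x.2.1 x.2.2 + cSlot x.2.1 (CINS_pt x) x.1) := by
  have h1 := CINS_pt_cb h_MAP h_BLD h_MKL
  have h2 : CB (fun x : CINS_X => (x.2.1, CINS_pt x, x.1))
      (fun x => 0 + 0 + (cPart x.2.1 x.2.2 + 0)) :=
    CB.pair (CB.comp CB.fst CB.snd) (CB.pair h1 CB.fst)
  refine (CB.congr (CB.comp h_SLT h2) (g := CINS_sl) fun _ => rfl).mono 1 fun x => ?_
  show 0 + 0 + (cPart x.2.1 x.2.2 + 0) + cSlot x.2.1 (CINS_pt x) x.1 ≤ _
  omega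

/-- one step of the recursion -/
noncomputable def CINS_q (x : CINS_X) : List (Slot ℝ) ⊕ (CINS_X × Unit) :=
  match x.1 with
  | [] => Sum.inl [CINS_sl ([], x.2)]
  | s :: rest =>
      match s.part with
      | none => Sum.inl (CINS_sl (rest, x.2) :: rest)
      | some t => Sum.inr ((rest, mrg x.2.1 s.N, t :: x.2.2), ())

/-- time of one step -/
noncomputable def CINS_Q (x : CINS_X) : ℕ :=
  match x.1 with
  | [] => cPart x.2.1 x.2.2 + cSlot x.2.1 (CINS_pt x) []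
  | s :: rest =>
      match s.part with
      | none => cPart x.2.1 x.2.2 + cSlot x.2.1 (CINS_pt x) rest
      | some _ => x.2.1.length + s.N.length

theorem CINS_q_cb (h_MAP : T_C_MAP) (h_BLD : T_C_BLD) (h_MKL : T_C_MKL) (h_MRG : T_C_MRG)
    (h_SLT : T_C_SLT) : CB CINS_q CINS_Q := by
  have hs := CINS_sl_cb h_MAP h_BLD h_MKL h_SLT
  obtain ⟨_, _, _, _, _, _, _, hN, hpart, -⟩ := p_FLD
  -- the empty list
  have e0 : CB (fun x : CINS_X => (([] : List (Slot ℝ)), x.2)) (fun _ => 0 + 0) :=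
    CB.pair (p_CON (Slot ℝ) CINS_X).2.1 CB.snd
  have f0 : CB (fun x : CINS_X =>
      (Sum.inl [CINS_sl ([], x.2)] : List (Slot ℝ) ⊕ (CINS_X × Unit)))
      (fun x => cPart x.2.1 x.2.2 + cSlot x.2.1 (CINS_pt x) []) := by
    have h1 := CB.comp (p_INJ (List (Slot ℝ)) (CINS_X × Unit)).1
      (CB.comp (p_CON (Slot ℝ) Unit).1 (CB.pair (CB.comp hs e0) (p_CON (Slot ℝ) CINS_X).2.1))
    refine (CB.congr h1 fun _ => rfl).mono 1 fun x => ?_
    show 0 + 0 + (cPart x.2.1 x.2.2 + cSlot x.2.1 (CINS_pt ([], x.2)) []) + 0 + 0 + 0 ≤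
      1 * (cPart x.2.1 x.2.2 + cSlot x.2.1 (CINS_pt x) [] + 1)
    have : CINS_pt ([], x.2) = CINS_pt x := rfl
    rw [this]
    omega
  -- environment of the second case
  have e1 : CB (fun w : CINS_X × Slot ℝ × List (Slot ℝ) => (w.2.2, w.1.2))
      (fun _ => 0 + 0 + (0 + 0)) :=
    CB.pair (CB.comp CB.snd CB.snd) (CB.comp CB.snd CB.fst)
  have f1 : CB (fun w : CINS_X × Slot ℝ × List (Slot ℝ) =>
      (Sum.inl (CINS_sl (w.2.2, w.1.2) :: w.2.2) : List (Slot ℝ) ⊕ (CINS_X × Unit)))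
      (fun w => cPart w.1.2.1 w.1.2.2 + cSlot w.1.2.1 (CINS_pt w.1) w.2.2) := by
    have h1 := CB.comp (p_INJ (List (Slot ℝ)) (CINS_X × Unit)).1
      (CB.comp (p_CON (Slot ℝ) Unit).1 (CB.pair (CB.comp hs e1) (CB.comp CB.snd CB.snd)))
    refine (CB.congr h1 fun _ => rfl).mono 1 fun w => ?_
    show 0 + 0 + (0 + 0) + (cPart w.1.2.1 w.1.2.2 + cSlot w.1.2.1 (CINS_pt (w.2.2, w.1.2)) w.2.2)
      + (0 + 0) + 0 + 0 ≤ 1 * (cPart w.1.2.1 w.1.2.2 + cSlot w.1.2.1 (CINS_pt w.1) w.2.2 + 1)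
    have : CINS_pt (w.2.2, w.1.2) = CINS_pt w.1 := rfl
    rw [this]
    omega
  -- recursion
  have e2 : CB (fun v : (CINS_X × Slot ℝ × List (Slot ℝ)) × TR ℝ => (v.1.1.2.1, v.1.2.1.N))
      (fun _ => 0 + 0 + 0 + 0 + (0 + 0 + 0 + 0)) :=
    CB.pair (CB.comp CB.fst (CB.comp CB.snd (CB.comp CB.fst CB.fst)))
      (CB.comp hN (CB.comp CB.fst (CB.comp CB.snd CB.fst)))
  have e3 : CB (fun v : (CINS_X × Slot ℝ × List (Slot ℝ)) × TR ℝ => v.2 :: v.1.1.2.2)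
      (fun _ => 0 + (0 + 0 + 0 + 0) + 0) :=
    CB.comp (p_CON (TR ℝ) Unit).1 (CB.pair CB.snd
      (CB.comp CB.snd (CB.comp CB.snd (CB.comp CB.fst CB.fst))))
  have g1 : CB (fun v : (CINS_X × Slot ℝ × List (Slot ℝ)) × TR ℝ =>
      (Sum.inr ((v.1.2.2, mrg v.1.1.2.1 v.1.2.1.N, v.2 :: v.1.1.2.2), ()) :
        List (Slot ℝ) ⊕ (CINS_X × Unit)))
      (fun v => v.1.1.2.1.length + v.1.2.1.N.length) := by
    have h1 := CB.comp (p_INJ (List (Slot ℝ)) (CINS_X × Unit)).2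
      (CB.pair (CB.pair (CB.comp CB.snd (CB.comp CB.snd CB.fst))
        (CB.pair (CB.comp h_MRG e2) e3))
        (CB.nilv (α := (CINS_X × Slot ℝ × List (Slot ℝ)) × TR ℝ) () rfl))
    refine (CB.congr h1 fun _ => rfl).mono 1 fun v => ?_
    show _ ≤ 1 * (v.1.1.2.1.length + v.1.2.1.N.length + 1)
    simp only []
    omega
  have hO := p_CSO (CINS_X × Slot ℝ × List (Slot ℝ)) (TR ℝ) (List (Slot ℝ) ⊕ (CINS_X × Unit))
    (fun w => w.2.1.part) _ _ _ _ _ (CB.comp hpart (CB.comp CB.fst CB.snd)) f1 g1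
  have hL := p_CSL CINS_X (Slot ℝ) (List (Slot ℝ) ⊕ (CINS_X × Unit)) (fun x => x.1) _ _ _ _ _
    CB.fst f0 hO
  refine (CB.congr hL (g := CINS_q) ?_).mono 1 ?_
  · rintro ⟨_ | ⟨s, rest⟩, acc, aps⟩
    · rfl
    · rcases h : s.part with _ | t
      · simp only [CINS_q, h]
      · simp only [CINS_q, h]
  · rintro ⟨_ | ⟨s, rest⟩, acc, aps⟩
    · simp only [CINS_Q]
      omega
    · rcases h : s.part with _ | t
      · simp only [CINS_Q, h, Nat.zero_add, Nat.one_mul]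
        exact Nat.le_succ _
      · simp only [CINS_Q, h, Nat.zero_add, Nat.one_mul]
        exact Nat.le_succ _

theorem p_C_INS (h_MAP : T_C_MAP) (h_BLD : T_C_BLD) (h_MKL : T_C_MKL) (h_MRG : T_C_MRG)
    (h_SLT : T_C_SLT) : T_C_INS := by
  have hq := CINS_q_cb h_MAP h_BLD h_MKL h_MRG h_SLT
  have hc : CB (fun u : Unit × List (Slot ℝ) => mkSlot [] none u.2 :: u.2)
      (fun u => cSlot [] none u.2) := by
    have h1 := CB.comp (p_CON (Slot ℝ) Unit).1 (CB.pair (CB.comp h_SLT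
      (CB.pair (p_CON P (Unit × List (Slot ℝ))).2.1
        (CB.pair (p_CON (TR ℝ) (Unit × List (Slot ℝ))).2.2.2 CB.snd)))
      (CB.snd (α := Unit) (β := List (Slot ℝ))))
    refine (CB.congr h1 fun _ => rfl).mono 1 fun u => ?_
    show 0 + (0 + 0) + cSlot [] none u.2 + 0 + 0 ≤ _
    omega
  refine p_RS1 CINS_X (List (Slot ℝ)) Unit _ CINS_q _ CINS_Q _ _ hq hc ?_ ?_ ?_
  · rintro ⟨_ | ⟨s, rest⟩, acc, aps⟩
    · rfl
    · rcases h : s.part with _ | t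
      · simp only [CINS_q, h, insS, CINS_sl, CINS_pt]
      · simp only [CINS_q, h, insS]
  · rintro ⟨_ | ⟨s, rest⟩, acc, aps⟩ b hb
    · exact le_rfl
    · rcases h : s.part with _ | t
      · simp only [CINS_Q, h, tI, CINS_pt]
        exact le_rfl
      · simp only [CINS_q, h] at hb
        cases hb
  · rintro ⟨_ | ⟨s, rest⟩, acc, aps⟩ y z hb
    · cases hb
    · rcases h : s.part with _ | t
      · simp only [CINS_q, h] at hb
        cases hb
      · simp only [CINS_q, h] at hb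
        cases hb
        simp only [CINS_Q, h, tI]
        omega

end Pool.Agent.EVD
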