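import Pool.Agent.EVD.TC
import Pool.Agent.EVD.P_CSO
import Pool.Agent.EVD.P_CON
import Pool.Agent.EVD.P_FLD
import Pool.Agent.EVD.P_REA

/-! # EVD: time of an insertion into the whole structure -/

set_option autoImplicit false

namespace Pool.Agent.EVD

namespace CINT_

/-- the environment: input and structure -/
abbrev Y : Type := (Option (Top ℝ) × P) × Top ℝ

section
variable {α β γ : Type} [Enc α] [Enc β] [Enc γ]

/-- composition without costs -/
theorem cz {f : β → γ} {g : α → β} (hf : CB f (fun _ => 0)) (hg : CB g (fun _ => 0)) :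
    CB (fun x => f (g x)) (fun _ => 0) :=
  (hf.comp hg).mono 1 (fun _ => by simp)

/-- pair without costs -/
theorem pz {f : α → β} {g : α → γ} (hf : CB f (fun _ => 0)) (hg : CB g (fun _ => 0)) :
    CB (fun x => (f x, g x)) (fun _ => 0) :=
  (hf.pair hg).mono 1 (fun _ => by simp)

theorem p1 {g : α → β × γ} (hg : CB g (fun _ => 0)) : CB (fun x => (g x).1) (fun _ => 0) :=
  cz CB.fst hg

theorem p2 {g : α → β × γ} (hg : CB g (fun _ => 0)) : CB (fun x => (g x).2) (fun _ => 0) :=
  cz CB.snd hg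

theorem sub {a b : α → ℝ} (ha : CB a (fun _ => 0)) (hb : CB b (fun _ => 0)) :
    CB (fun x => a x - b x) (fun _ => 0) :=
  (p_REA α a b _ _ ha hb).2.1.mono 1 (fun _ => by simp)

theorem mul {a b : α → ℝ} (ha : CB a (fun _ => 0)) (hb : CB b (fun _ => 0)) :
    CB (fun x => a x * b x) (fun _ => 0) :=
  (p_REA α a b _ _ ha hb).2.2.1.mono 1 (fun _ => by simp)

/-- the constructor of `Top` -/
theorem topB {w e : α → P} {up lo : α → CS ℝ} {U L : α → ℕ} (hw : CB w (fun _ => 0))
    (he : CB e (fun _ => 0)) (hu : CB up U) (hl : CB lo L) :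
    CB (fun x => (⟨w x, e x, up x, lo x⟩ : Top ℝ)) (fun x => U x + L x) := by
  obtain ⟨_, _, _, _, _, _, _, _, _, _, _, _, _, _, _, _, _, _, _, _, hmk⟩ := p_FLD
  exact (hmk.comp (hw.pair (he.pair (hu.pair hl)))).mono 1 (fun x => by omega)

/-- `put` in an environment -/
theorem putB (h_INC : T_C_INC) (h_GEO : T_C_GEO) {w e v : α → P} {up lo : α → CS ℝ}
    (hw : CB w (fun _ => 0)) (he : CB e (fun _ => 0)) (hv : CB v (fun _ => 0))
    (hu : CB up (fun _ => 0)) (hl : CB lo (fun _ => 0)) :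
    CB (fun x => put (w x) (e x) (v x) (up x) (lo x))
      (fun x => tPut (w x) (e x) (v x) (up x) (lo x)) := by
  have hmir := h_GEO.2.2.2.2
  have hz : CB (fun _ : α => (0 : ℝ)) (fun _ => 0) :=
    (p_REA α (fun _ => 1) (fun _ => 1) _ _ CB.real_one CB.real_one).2.2.2.2.2.1
  have hc : CB (fun x => (((e x).1 - (w x).1) * ((v x).2 - (w x).2) -
      ((v x).1 - (w x).1) * ((e x).2 - (w x).2))) (fun _ => 0) :=
    sub (mul (sub (p1 he) (p1 hw)) (sub (p2 hv) (p2 hw)))
      (mul (sub (p1 hv) (p1 hw)) (sub (p2 he) (p2 hw)))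
  have ht : CB (fun x => decide (0 < (((e x).1 - (w x).1) * ((v x).2 - (w x).2) -
      ((v x).1 - (w x).1) * ((e x).2 - (w x).2)))) (fun _ => 0) :=
    ((p_REA α _ _ _ _ hz hc).2.2.2.2.2.2.2.2.1).mono 1 (fun _ => by simp)
  have hiu : CB (fun x => insC (up x) (v x)) (fun x => tC (up x).sl (v x)) :=
    (h_INC.comp (hu.pair hv)).mono 1 (fun x => by
      show 0 + 0 + tC (up x).sl (v x) ≤ _
      omega)
  have hil : CB (fun x => insC (lo x) (mir (v x))) (fun x => tC (lo x).sl (mir (v x))) :=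
    (h_INC.comp (hl.pair (cz hmir hv))).mono 1 (fun x => by
      show 0 + 0 + tC (lo x).sl (mir (v x)) ≤ _
      omega)
  refine ((CB.ite ht (topB hw he hiu hl) (topB hw he hu hil)).mono 1 fun x => ?_).congr
    fun x => ?_
  · simp only [tPut, decide_eq_true_eq]
    split_ifs <;> omega
  · simp only [put, decide_eq_true_eq]

/-- conditionals with costs -/
theorem iteB {t : α → Bool} {f g : α → β} {F G : α → ℕ} (ht : CB t (fun _ => 0))
    (hf : CB f F) (hg : CB g G) :
    CB (fun x => if t x then f x else g x) (fun x => if t x then F x else G x) :=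
  (CB.ite ht hf hg).mono 1 (fun x => by omega)

theorem someB {f : α → β} {F : α → ℕ} (hf : CB f F) : CB (fun x => some (f x)) F :=
  ((p_CON β β).2.2.1.comp hf).mono 1 (fun x => by omega)

end

end CINT_

open CINT_ in
theorem p_C_INT (h_INC : T_C_INC) (h_GEO : T_C_GEO) : T_C_INT := by
  obtain ⟨_, _, _, hlex, _⟩ := id h_GEO
  obtain ⟨_, _, _, _, _, _, _, _, _, _, _, _, _, _, _, hcs, htw, hte, htu, htl, _⟩ := p_FLD
  have hq : CB (fun y : Y => y.1.2) (fun _ => 0) := cz CB.snd CB.fst
  have ht : CB (fun y : Y => y.2) (fun _ => 0) := CB.snd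
  have he : CB (fun y : Y => y.2.e) (fun _ => 0) := cz hte ht
  have hw : CB (fun y : Y => y.2.w) (fun _ => 0) := cz htw ht
  have hu : CB (fun y : Y => y.2.up) (fun _ => 0) := cz htu ht
  have hl : CB (fun y : Y => y.2.lo) (fun _ => 0) := cz htl ht
  have l1 : CB (fun y : Y => lexlt y.2.w y.2.e) (fun _ => 0) := cz hlex (pz hw he)
  have l2 : CB (fun y : Y => lexlt y.1.2 y.2.w) (fun _ => 0) := cz hlex (pz hq hw)
  have l3 : CB (fun y : Y => lexlt y.2.e y.1.2) (fun _ => 0) := cz hlex (pz he hq)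
  have a1 := someB (putB h_INC h_GEO hq he hw hu hl)
  have a2 := someB (putB h_INC h_GEO hw hq he hu hl)
  have a3 := someB (putB h_INC h_GEO hw he hq hu hl)
  have b1 := someB (topB hq hw hu hl)
  have b2 := someB (topB hw hq hu hl)
  have hbody := iteB l1 (iteB l2 a1 (iteB l3 a2 a3)) (iteB l2 b1 b2)
  -- the empty structure
  have hE : CB (fun _ : Option (Top ℝ) × P => (emptyC : CS ℝ)) (fun _ => 0) := by
    have hs : CB (fun _ : Option (Top ℝ) × P => (QT.stop : QT ℝ)) (fun _ => 0) := CB.nilv _ rfl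
    have hn : CB (fun _ : Option (Top ℝ) × P => ([] : List (Slot ℝ))) (fun _ => 0) :=
      CB.nilv _ rfl
    exact (hcs.comp (hs.pair hn)).mono 1 (fun _ => by simp)
  have h0 := someB (topB (CB.snd : CB (fun x : Option (Top ℝ) × P => x.2) _)
    (CB.snd : CB (fun x : Option (Top ℝ) × P => x.2) _) hE hE)
  have key := p_CSO (Option (Top ℝ) × P) (Top ℝ) (Option (Top ℝ)) (fun x => x.1) _ _ _ _ _
    CB.fst h0 hbody
  refine (key.congr (g := fun x : Option (Top ℝ) × P => insT x.1 x.2) fun x => ?_).mono 1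
    fun x => ?_
  · obtain ⟨t, q⟩ := x
    cases t with
    | none => rfl
    | some t => rfl
  · obtain ⟨t, q⟩ := x
    cases t with
    | none => simp
    | some t =>
      show 0 + _ ≤ 1 * (tT (some t) q + 1)
      simp only [tT]
      split_ifs <;> omega

end Pool.Agent.EVD
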