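import Pool.Agent.EVD.TC

/-! # EVD: running time of `TR.am`, `TR.fx`, `join` (`T_C_JN`) -/

set_option autoImplicit false

namespace Pool.Agent.EVD

theorem CJN_.am (hT : ∀ (α δ : Type) [Enc α] [Enc δ], T_CST α δ) :
    CB (fun t : TR ℝ => t.am) (fun _ => 0) := by
  have h := hT (TR ℝ) (Lf ℝ) (fun t => t) (fun y => y.2) (fun y => y.2.1) (fun _ => 0)
    (fun _ => 0) (fun _ => 0) CB.id CB.snd
    ((CB.comp CB.fst CB.snd).mono 1 (fun x => by simp))
  refine (h.mono 1 (fun x => ?_)).congr (fun x => ?_)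
  · cases x <;> simp
  · cases x <;> rfl

theorem CJN_.fx (hT : ∀ (α δ : Type) [Enc α] [Enc δ], T_CST α δ) (hF : T_FLD) :
    CB (fun t : TR ℝ => t.fx) (fun _ => 0) := by
  have h := hT (TR ℝ) ℝ (fun t => t) (fun y => y.2.s.1) (fun y => y.2.2.1) (fun _ => 0)
    (fun _ => 0) (fun _ => 0) CB.id
    ((CB.comp CB.fst (CB.comp hF.1 CB.snd)).mono 1 (fun x => by simp))
    ((CB.comp CB.fst (CB.comp CB.snd CB.snd)).mono 1 (fun x => by simp))
  refine (h.mono 1 (fun x => ?_)).congr (fun x => ?_)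
  · cases x <;> simp
  · cases x <;> rfl

theorem p_C_JN (hT : ∀ (α δ : Type) [Enc α] [Enc δ], T_CST α δ) (hF : T_FLD) (hC : T_CTR)
    (hH : T_C_HLE) : T_C_JN := by
  have ha := CJN_.am hT
  have hx := CJN_.fx hT hF
  refine ⟨ha, hx, ?_⟩
  have h := CB.comp hC.2.1 (CB.pair (CB.comp hH.2 (CB.pair (CB.comp ha CB.fst)
    (CB.comp ha CB.snd))) (CB.pair (CB.comp hx CB.fst) (CB.pair CB.fst CB.snd)) :
      CB (fun x : TR ℝ × TR ℝ => (btr x.1.am x.2.am, x.1.fx, x.1, x.2)) _)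
  exact h.mono 1 (fun x => by simp)

end Pool.Agent.EVD
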