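import Pool.Agent.EVD.TC

/-! # EVD-C-LA: time of lastA, firstA -/

namespace Pool.Agent.EVD

namespace CLA_

section
variable {E : Type} [Enc E] {D : E → ℝ → Bool} {c : E → ℕ}

/-- the step of the descent: `sel = true` prefers the right child -/
theorem cb_sel
    (hAM : CB (fun t : TR ℝ => t.am) (fun _ => 0)) (hH : CB (fun d : Lf ℝ => d.h) (fun _ => 0))
    (hLIV : CB (fun x : E × Option ℝ => live (D x.1) x.2) (fun x => c x.1)) :
    CB (fun x : E × TR ℝ × TR ℝ => if live (D x.1) x.2.1.am.h then x.2.1 else x.2.2)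
      (fun x => c x.1) := by
  have h1 : CB (fun x : E × TR ℝ × TR ℝ => (x.1, x.2.1.am.h)) (fun _ => 0) := by
    refine (CB.pair CB.fst (CB.comp hH (CB.comp hAM (CB.comp CB.fst CB.snd)))).mono 1 ?_
    intro x; simp
  have h2 := CB.comp hLIV h1
  refine ((CB.ite h2 (CB.comp CB.fst CB.snd) (CB.comp CB.snd CB.snd)).mono 1 ?_).congr ?_
  · intro x; simp
  · intro x; rfl

theorem cb_descent {F : E → TR ℝ → Lf ℝ} {k : E → TR ℝ → TR ℝ → TR ℝ}
    (hRS1 : T_RS1 (E × TR ℝ) (Lf ℝ) Unit)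
    (hINJ : T_INJ (Lf ℝ) ((E × TR ℝ) × Unit))
    (hCST : T_CST (E × TR ℝ) (Lf ℝ ⊕ ((E × TR ℝ) × Unit)))
    (hk : CB (fun x : E × TR ℝ × TR ℝ => k x.1 x.2.1 x.2.2) (fun x => c x.1))
    (hF1 : ∀ e d, F e (TR.leaf d) = d)
    (hF2 : ∀ e am fx l r, F e (TR.node am fx l r) = F e (k e l r))
    (hkk : ∀ e l r, k e l r = l ∨ k e l r = r) :
    CB (fun x : E × TR ℝ => F x.1 x.2) (fun x => (c x.1 + 1) * (x.2.dep + 1)) := by
  have hf : CB (fun x : (E × TR ℝ) × Lf ℝ => (Sum.inl x.2 : Lf ℝ ⊕ ((E × TR ℝ) × Unit)))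
      (fun _ => 0) := (CB.comp hINJ.1 CB.snd).mono 1 (by intro x; simp)
  have hl : CB (fun x : (E × TR ℝ) × Lf ℝ × ℝ × TR ℝ × TR ℝ => x.2.2.2.1) (fun _ => 0) :=
    (CB.comp CB.fst (CB.comp CB.snd (CB.comp CB.snd CB.snd))).mono 1 (by intro x; simp)
  have hr : CB (fun x : (E × TR ℝ) × Lf ℝ × ℝ × TR ℝ × TR ℝ => x.2.2.2.2) (fun _ => 0) :=
    (CB.comp CB.snd (CB.comp CB.snd (CB.comp CB.snd CB.snd))).mono 1 (by intro x; simp)
  have he : CB (fun x : (E × TR ℝ) × Lf ℝ × ℝ × TR ℝ × TR ℝ => x.1.1) (fun _ => 0) :=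
    (CB.comp CB.fst CB.fst).mono 1 (by intro x; simp)
  have hg0 : CB (fun x : (E × TR ℝ) × Lf ℝ × ℝ × TR ℝ × TR ℝ =>
      ((((x.1.1, k x.1.1 x.2.2.2.1 x.2.2.2.2) : E × TR ℝ), ()) : (E × TR ℝ) × Unit))
      (fun x => c x.1.1) := by
    refine ((CB.pair (CB.pair he (CB.comp hk (CB.pair he (CB.pair hl hr))))
      (CB.nilv (α := (E × TR ℝ) × Lf ℝ × ℝ × TR ℝ × TR ℝ) () rfl)).mono 1 ?_).congr ?_
    · intro x; simp
    · intro x; rfl
  have hg := (CB.comp hINJ.2 hg0).mono (B' := fun x => c x.1.1) 1 (by intro x; simp)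
  have hq := hCST (fun x => x.2) _ _ _ _ _ CB.snd hf hg
  have hq' := hq.mono (B' := fun x => c x.1) 1 (by
    intro x
    rcases x with ⟨e, t⟩
    cases t <;> simp)
  refine hRS1 (fun x => F x.1 x.2) _ (fun z => z.2) _ _ _ hq' CB.snd ?_ ?_ ?_
  · rintro ⟨e, t⟩
    cases t with
    | leaf d => simp [hF1]
    | node am fx l r => simp [hF2]
  · rintro ⟨e, t⟩ b hb
    simp only
    nlinarith [Nat.zero_le (c e * t.dep)]
  · rintro ⟨e, t⟩ y z hy
    cases t with
    | leaf d => simp at hy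
    | node am fx l r =>
      simp only [Sum.inr.injEq, Prod.mk.injEq, and_true] at hy
      subst hy
      have hd : (k e l r).dep + 1 ≤ (TR.node am fx l r).dep := by
        rcases hkk e l r with h | h <;> rw [h] <;> simp [TR.dep]
      simp only
      nlinarith [Nat.mul_le_mul_left (c e + 1) hd]

end

end CLA_

theorem p_C_LA (h_RS1 : ∀ (α β γ : Type) [Enc α] [Enc β] [Enc γ], T_RS1 α β γ)
    (h_INJ : ∀ (α β : Type) [Enc α] [Enc β], T_INJ α β)
    (h_CST : ∀ (α δ : Type) [Enc α] [Enc δ], T_CST α δ)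
    (h_CON : ∀ (α β : Type) [Enc α] [Enc β], T_CON α β)
    (h_FLD : T_FLD) (h_C_JN : T_C_JN) (h_C_LIV : T_C_LIV) : T_C_LA := by
  intro E _ D c hD
  have hAM := h_C_JN.1
  have hH := h_FLD.2.1
  have hLIV := h_C_LIV E D c hD
  have hsel := CLA_.cb_sel hAM hH hLIV
  have hsel2 : CB (fun x : E × TR ℝ × TR ℝ => if live (D x.1) x.2.2.am.h then x.2.2 else x.2.1)
      (fun x => c x.1) := by
    have hsw : CB (fun x : E × TR ℝ × TR ℝ => (x.1, x.2.2, x.2.1)) (fun _ => 0) :=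
      (CB.pair CB.fst (CB.pair (CB.comp CB.snd CB.snd) (CB.comp CB.fst CB.snd))).mono 1
        (by intro x; simp)
    exact ((CB.comp hsel hsw).mono 1 (by intro x; simp)).congr (by intro x; rfl)
  have hl' : CB (fun x : E × TR ℝ => lastA' (D x.1) x.2) (fun x => (c x.1 + 1) * (x.2.dep + 1)) := by
    refine CLA_.cb_descent (F := fun e t => lastA' (D e) t)
      (k := fun e l r => if live (D e) r.am.h then r else l) (h_RS1 _ _ _) (h_INJ _ _) (h_CST _ _)
      hsel2 ?_ ?_ ?_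
    · intro e d; rfl
    · intro e am fx l r
      simp only [lastA']
      split_ifs <;> rfl
    · intro e l r
      split_ifs
      · exact Or.inr rfl
      · exact Or.inl rfl
  have hf' : CB (fun x : E × TR ℝ => firstA' (D x.1) x.2)
      (fun x => (c x.1 + 1) * (x.2.dep + 1)) := by
    refine CLA_.cb_descent (F := fun e t => firstA' (D e) t)
      (k := fun e l r => if live (D e) l.am.h then l else r) (h_RS1 _ _ _) (h_INJ _ _) (h_CST _ _)
      hsel ?_ ?_ ?_
    · intro e d; rfl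
    · intro e am fx l r
      simp only [firstA']
      split_ifs <;> rfl
    · intro e l r
      split_ifs
      · exact Or.inl rfl
      · exact Or.inr rfl
  have htest : CB (fun x : E × TR ℝ => live (D x.1) x.2.am.h) (fun x => c x.1) := by
    have h1 : CB (fun x : E × TR ℝ => (x.1, x.2.am.h)) (fun _ => 0) :=
      (CB.pair CB.fst (CB.comp hH (CB.comp hAM CB.snd))).mono 1 (by intro x; simp)
    exact ((CB.comp hLIV h1).mono 1 (by intro x; simp)).congr (by intro x; rfl)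
  have hnone : CB (fun _ : E × TR ℝ => (none : Option (Lf ℝ))) (fun _ => 0) :=
    (h_CON (Lf ℝ) (E × TR ℝ)).2.2.2
  have hsome := (h_CON (Lf ℝ) (E × TR ℝ)).2.2.1
  constructor
  · refine ((CB.ite htest (CB.comp hsome hl') hnone).mono 2 ?_).congr ?_
    · intro x
      split_ifs <;> nlinarith [Nat.zero_le (c x.1 * x.2.dep)]
    · intro x; rfl
  · refine ((CB.ite htest (CB.comp hsome hf') hnone).mono 2 ?_).congr ?_
    · intro x
      split_ifs <;> nlinarith [Nat.zero_le (c x.1 * x.2.dep)]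
    · intro x; rfl

end Pool.Agent.EVD
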