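import Pool.Agent.EVD.TC
import Pool.Agent.EVD.P_CSO
import Pool.Agent.EVD.P_BOO

/-! # EVD: C-LIV, the time of `live` -/

namespace Pool.Agent.EVD

theorem p_C_LIV : T_C_LIV := by
  intro E _ D c hD
  have h1 : CB (fun x : E × Option ℝ => x.2) (fun _ => 0) := CB.snd
  have h2 : CB (fun _ : E × Option ℝ => true) (fun _ => 0) := (p_BOO _).1
  have h3 : CB (fun x : (E × Option ℝ) × ℝ => D x.1.1 x.2) (fun x => c x.1.1) :=
    (CB.comp hD (CB.pair (CB.comp CB.fst CB.fst) CB.snd)).mono 1 (fun x => by simp)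
  have h4 := p_CSO _ _ _ (fun x : E × Option ℝ => x.2) _ _ _ _ _ h1 h2 h3
  refine (h4.mono 1 (fun x => ?_)).congr (fun x => ?_)
  · rcases x with ⟨e, _ | r⟩ <;> simp
  · rcases x with ⟨e, _ | r⟩ <;> rfl

end Pool.Agent.EVD
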