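import Pool.Agent.EVD.TC

/-! # EVD: running time of `lastLt`, `firstGt` (`T_C_LL`) (helper14) -/

set_option autoImplicit false

namespace Pool.Agent.EVD

theorem CLL_.z {α β : Type} [Enc α] [Enc β] {f : α → β} {B : α → ℕ} (h : CB f B)
    (hB : ∀ x, B x = 0) : CB f (fun _ => 0) := 
  h.mono 0 (fun x => (hB x).le.trans (Nat.zero_le _))

/-- the case analysis of the descent -/
def CLL_.q {E : Type} (D : E → ℝ → Bool) (cb : ℝ × ℝ → Bool) (s s' : TR ℝ × TR ℝ → TR ℝ)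
    (x : E × ℝ × TR ℝ) : Option (Lf ℝ) ⊕ ((E × ℝ × TR ℝ) × Option (E × TR ℝ)) :=
  match x.2.2 with
  | TR.leaf d => Sum.inl (if cb (d.s.1, x.2.1) then (if live (D x.1) d.h then some d else none)
      else none)
  | TR.node _ _ l r => if cb (r.fx, x.2.1) then
      Sum.inr ((x.1, x.2.1, s (l, r)), some (x.1, s' (l, r)))
      else Sum.inr ((x.1, x.2.1, s' (l, r)), none)

/-- the combination -/
def CLL_.comb {E : Type} (A : E → TR ℝ → Option (Lf ℝ))
    (p : Option (E × TR ℝ) × Option (Lf ℝ)) : Option (Lf ℝ) :=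
  match p.1 with
  | none => p.2
  | some z => match p.2 with
    | none => A z.1 z.2
    | some a => some a

def CLL_.C {E : Type} (c : E → ℕ) (p : Option (E × TR ℝ) × Option (Lf ℝ)) : ℕ :=
  match p.1 with
  | none => 0
  | some z => (c z.1 + 1) * (z.2.dep + 1)

theorem CLL_.cbComb {E : Type} [Enc E]
    (hCSO : ∀ (α β δ : Type) [Enc α] [Enc β] [Enc δ], T_CSO α β δ)
    (hCON : ∀ (α β : Type) [Enc α] [Enc β], T_CON α β)
    (A : E → TR ℝ → Option (Lf ℝ)) (c : E → ℕ)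
    (hA : CB (fun x : E × TR ℝ => A x.1 x.2) (fun x => (c x.1 + 1) * (x.2.dep + 1))) :
    CB (CLL_.comb A) (CLL_.C c) := by
  have g1 := hCSO ((Option (E × TR ℝ) × Option (Lf ℝ)) × (E × TR ℝ)) (Lf ℝ) (Option (Lf ℝ))
    (fun y => y.1.2) (fun y => A y.2.1 y.2.2) (fun w => some w.2) _ _ _
    (CB.comp CB.snd CB.fst) (CB.comp hA CB.snd)
    (CB.comp (hCON (Lf ℝ) Unit).2.2.1 CB.snd)
  have g2 := hCSO (Option (E × TR ℝ) × Option (Lf ℝ)) (E × TR ℝ) (Option (Lf ℝ))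
    (fun p => p.1) (fun p => p.2) _ _ _ _ CB.fst CB.snd g1
  refine (g2.mono 1 (B' := CLL_.C c) fun p => ?_).congr fun p => ?_
  · obtain ⟨z, w⟩ := p
    cases z with
    | none => simp [CLL_.C]
    | some z => cases w <;> simp [CLL_.C]
  · obtain ⟨z, w⟩ := p
    cases z with
    | none => rfl
    | some z => cases w <;> rfl

theorem CLL_.cbq {E : Type} [Enc E] (hCST : ∀ (α δ : Type) [Enc α] [Enc δ], T_CST α δ)
    (hCON : ∀ (α β : Type) [Enc α] [Enc β], T_CON α β)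
    (hINJ : ∀ (α β : Type) [Enc α] [Enc β], T_INJ α β) (hFLD : T_FLD) (hJN : T_C_JN)
    (D : E → ℝ → Bool) (c : E → ℕ)
    (hL : CB (fun x : E × Option ℝ => live (D x.1) x.2) (fun x => c x.1))
    (cb : ℝ × ℝ → Bool) (hcb : CB cb (fun _ => 0)) (s s' : TR ℝ × TR ℝ → TR ℝ)
    (hs : CB s (fun _ => 0)) (hs' : CB s' (fun _ => 0)) :
    CB (CLL_.q D cb s s') (fun x => c x.1) := by
  have eD := hFLD.1
  have hleaf : CB (fun y : (E × ℝ × TR ℝ) × Lf ℝ =>
      (Sum.inl (if cb (y.2.s.1, y.1.2.1) then (if live (D y.1.1) y.2.h then some y.2 else none)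
        else none) : Option (Lf ℝ) ⊕ ((E × ℝ × TR ℝ) × Option (E × TR ℝ))))
      (fun y => c y.1.1) := by
    have t1 : CB (fun y : (E × ℝ × TR ℝ) × Lf ℝ => cb (y.2.s.1, y.1.2.1)) (fun _ => 0) :=
      CLL_.z (CB.comp hcb (CB.pair (CB.comp CB.fst (CB.comp hFLD.1 CB.snd))
        (CB.comp CB.fst (CB.comp CB.snd CB.fst)))) (fun _ => rfl)
    have t2 : CB (fun y : (E × ℝ × TR ℝ) × Lf ℝ => live (D y.1.1) y.2.h) _ :=
      CB.comp hL (CB.pair (CB.comp CB.fst CB.fst) (CB.comp hFLD.2.1 CB.snd))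
    have t3 : CB (fun y : (E × ℝ × TR ℝ) × Lf ℝ => some y.2) _ :=
      CB.comp (hCON (Lf ℝ) Unit).2.2.1 CB.snd
    have t4 : CB (fun _ : (E × ℝ × TR ℝ) × Lf ℝ => (none : Option (Lf ℝ))) _ :=
      (hCON (Lf ℝ) ((E × ℝ × TR ℝ) × Lf ℝ)).2.2.2
    have h := CB.comp (hINJ (Option (Lf ℝ)) ((E × ℝ × TR ℝ) × Option (E × TR ℝ))).1
      (CB.ite t1 (CB.ite t2 t3 t4) t4)
    refine h.mono 1 (fun y => ?_)
    simp only
    split_ifs <;> omega
  have hnode : CB (fun y : (E × ℝ × TR ℝ) × Lf ℝ × ℝ × TR ℝ × TR ℝ =>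
      (if cb (y.2.2.2.2.fx, y.1.2.1) then Sum.inr ((y.1.1, y.1.2.1, s (y.2.2.2.1, y.2.2.2.2)),
          some (y.1.1, s' (y.2.2.2.1, y.2.2.2.2)))
        else Sum.inr ((y.1.1, y.1.2.1, s' (y.2.2.2.1, y.2.2.2.2)), none) :
        Option (Lf ℝ) ⊕ ((E × ℝ × TR ℝ) × Option (E × TR ℝ)))) (fun _ => 0) := by
    have pe : CB (fun y : (E × ℝ × TR ℝ) × Lf ℝ × ℝ × TR ℝ × TR ℝ => y.1.1) (fun _ => 0) :=
      CLL_.z (CB.comp CB.fst CB.fst) (fun _ => rfl)
    have px : CB (fun y : (E × ℝ × TR ℝ) × Lf ℝ × ℝ × TR ℝ × TR ℝ => y.1.2.1) (fun _ => 0) :=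
      CLL_.z (CB.comp CB.fst (CB.comp CB.snd CB.fst)) (fun _ => rfl)
    have plr : CB (fun y : (E × ℝ × TR ℝ) × Lf ℝ × ℝ × TR ℝ × TR ℝ => y.2.2.2) (fun _ => 0) :=
      CLL_.z (CB.comp CB.snd (CB.comp CB.snd CB.snd)) (fun _ => rfl)
    have pr : CB (fun y : (E × ℝ × TR ℝ) × Lf ℝ × ℝ × TR ℝ × TR ℝ => y.2.2.2.2) (fun _ => 0) :=
      CLL_.z (CB.comp CB.snd plr) (fun _ => rfl)
    have t1 : CB (fun y : (E × ℝ × TR ℝ) × Lf ℝ × ℝ × TR ℝ × TR ℝ =>
        cb (y.2.2.2.2.fx, y.1.2.1)) (fun _ => 0) :=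
      CLL_.z (CB.comp hcb (CB.pair (CB.comp hJN.2.1 pr) px)) (fun _ => rfl)
    have q1 : CB (fun y : (E × ℝ × TR ℝ) × Lf ℝ × ℝ × TR ℝ × TR ℝ =>
        s (y.2.2.2.1, y.2.2.2.2)) (fun _ => 0) := CLL_.z (CB.comp hs plr) (fun _ => rfl)
    have q2 : CB (fun y : (E × ℝ × TR ℝ) × Lf ℝ × ℝ × TR ℝ × TR ℝ =>
        s' (y.2.2.2.1, y.2.2.2.2)) (fun _ => 0) := CLL_.z (CB.comp hs' plr) (fun _ => rfl)
    have hI := (hINJ (Option (Lf ℝ)) ((E × ℝ × TR ℝ) × Option (E × TR ℝ))).2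
    have u1 := CB.comp hI (CB.pair (CB.pair pe (CB.pair px q1))
      (CB.comp (hCON (E × TR ℝ) Unit).2.2.1 (CB.pair pe q2)))
    have u2 := CB.comp hI (CB.pair (CB.pair pe (CB.pair px q2))
      (hCON (E × TR ℝ) ((E × ℝ × TR ℝ) × Lf ℝ × ℝ × TR ℝ × TR ℝ)).2.2.2)
    refine CLL_.z (CB.ite t1 u1 u2) (fun y => ?_)
    simp
  have h := hCST (E × ℝ × TR ℝ) (Option (Lf ℝ) ⊕ ((E × ℝ × TR ℝ) × Option (E × TR ℝ)))
    (fun x => x.2.2) _ _ _ _ _ (CLL_.z (CB.comp CB.snd CB.snd) (fun _ => rfl)) hleaf hnode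
  refine (h.mono 1 (B' := fun x => c x.1) fun x => ?_).congr fun x => ?_
  · obtain ⟨e, x, t⟩ := x
    cases t <;> simp
  · obtain ⟨e, x, t⟩ := x
    cases t <;> rfl

theorem CLL_.main {E : Type} [Enc E]
    (hRS1 : ∀ (α β γ : Type) [Enc α] [Enc β] [Enc γ], T_RS1 α β γ)
    (hCST : ∀ (α δ : Type) [Enc α] [Enc δ], T_CST α δ)
    (hCSO : ∀ (α β δ : Type) [Enc α] [Enc β] [Enc δ], T_CSO α β δ)
    (hCON : ∀ (α β : Type) [Enc α] [Enc β], T_CON α β)
    (hINJ : ∀ (α β : Type) [Enc α] [Enc β], T_INJ α β) (hFLD : T_FLD) (hJN : T_C_JN)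
    (D : E → ℝ → Bool) (c : E → ℕ)
    (hL : CB (fun x : E × Option ℝ => live (D x.1) x.2) (fun x => c x.1))
    (cb : ℝ × ℝ → Bool) (hcb : CB cb (fun _ => 0)) (s s' : TR ℝ × TR ℝ → TR ℝ)
    (hs : CB s (fun _ => 0)) (hs' : CB s' (fun _ => 0))
    (hsd : ∀ l r, (s (l, r)).dep ≤ max l.dep r.dep)
    (hsd' : ∀ l r, (s' (l, r)).dep ≤ max l.dep r.dep)
    (A : E → TR ℝ → Option (Lf ℝ))
    (hA : CB (fun x : E × TR ℝ => A x.1 x.2) (fun x => (c x.1 + 1) * (x.2.dep + 1)))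
    (F : E → ℝ → TR ℝ → Option (Lf ℝ))
    (hF1 : ∀ e x d, F e x (TR.leaf d) = if cb (d.s.1, x) then
      (if live (D e) d.h then some d else none) else none)
    (hF2 : ∀ e x am fx l r, F e x (TR.node am fx l r) = if cb (r.fx, x) then
      (match F e x (s (l, r)) with | some a => some a | none => A e (s' (l, r)))
      else F e x (s' (l, r))) :
    CB (fun x : E × ℝ × TR ℝ => F x.1 x.2.1 x.2.2)
      (fun x => (c x.1 + 1) * (x.2.2.dep + 1) ^ 2) := by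
  have key : CB (fun x : E × ℝ × TR ℝ => F x.1 x.2.1 x.2.2)
      (fun x => 2 * ((c x.1 + 1) * (x.2.2.dep + 1) ^ 2)) := by
    refine hRS1 (E × ℝ × TR ℝ) (Option (Lf ℝ)) (Option (E × TR ℝ)) _ (CLL_.q D cb s s')
      (CLL_.comb A) (fun x => c x.1) _ (CLL_.C c)
      (CLL_.cbq hCST hCON hINJ hFLD hJN D c hL cb hcb s s' hs hs')
      (CLL_.cbComb hCSO hCON A c hA) ?_ ?_ ?_
    · rintro ⟨e, x, t⟩
      cases t with
      | leaf d => exact hF1 e x d
      | node am fx l r =>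
        change F e x (TR.node am fx l r) = _
        rw [hF2]
        cases h : cb (r.fx, x) with
        | true =>
          simp only [CLL_.q, h, if_true, CLL_.comb]
          cases F e x (s (l, r)) <;> rfl
        | false => simp only [CLL_.q, h, Bool.false_eq_true, if_false, CLL_.comb]
    · rintro ⟨e, x, t⟩ b -
      have : 1 ≤ (t.dep + 1) ^ 2 := Nat.one_le_pow _ _ (Nat.succ_pos _)
      change c e ≤ 2 * ((c e + 1) * (t.dep + 1) ^ 2)
      nlinarith [Nat.zero_le (c e)]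
    · rintro ⟨e, x, t⟩ y z hq
      cases t with
      | leaf d => simp [CLL_.q] at hq
      | node am fx l r =>
        have hd : (TR.node am fx l r).dep = max l.dep r.dep + 1 := rfl
        have h1 := hsd l r
        have h2 := hsd' l r
        generalize max l.dep r.dep = m at *
        cases h : cb (r.fx, x) with
        | true =>
          simp only [CLL_.q, h, if_true, Sum.inr.injEq, Prod.mk.injEq] at hq
          obtain ⟨rfl, rfl⟩ := hq
          simp only [CLL_.C]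
          rw [hd]
          have e1 : (c e + 1) * ((s' (l, r)).dep + 1) ≤ (c e + 1) * (m + 1) :=
            Nat.mul_le_mul_left _ (by omega)
          have e2 : (c e + 1) * ((s (l, r)).dep + 1) ^ 2 ≤ (c e + 1) * (m + 1) ^ 2 :=
            Nat.mul_le_mul_left _ (Nat.pow_le_pow_left (by omega) 2)
          nlinarith [Nat.zero_le (c e), Nat.zero_le (c e * m)]
        | false =>
          simp only [CLL_.q, h, Bool.false_eq_true, if_false, Sum.inr.injEq, Prod.mk.injEq] at hq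
          obtain ⟨rfl, rfl⟩ := hq
          simp only [CLL_.C]
          rw [hd]
          have e2 : (c e + 1) * ((s' (l, r)).dep + 1) ^ 2 ≤ (c e + 1) * (m + 1) ^ 2 :=
            Nat.mul_le_mul_left _ (Nat.pow_le_pow_left (by omega) 2)
          nlinarith [Nat.zero_le (c e), Nat.zero_le (c e * m)]
  exact key.mono 2 (fun x => by omega)

theorem p_C_LL (hRS1 : ∀ (α β γ : Type) [Enc α] [Enc β] [Enc γ], T_RS1 α β γ)
    (hCST : ∀ (α δ : Type) [Enc α] [Enc δ], T_CST α δ)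
    (hCSO : ∀ (α β δ : Type) [Enc α] [Enc β] [Enc δ], T_CSO α β δ)
    (hCON : ∀ (α β : Type) [Enc α] [Enc β], T_CON α β)
    (hINJ : ∀ (α β : Type) [Enc α] [Enc β], T_INJ α β) (hFLD : T_FLD)
    (hJN : T_C_JN) (hLIV : T_C_LIV) (hLA : T_C_LA) : T_C_LL := by
  intro E _ D c hD
  obtain ⟨hA1, hA2⟩ := hLA E D c hD
  have hL := hLIV E D c hD
  have c1 : CB (fun p : ℝ × ℝ => decide (p.1 < p.2)) (fun _ => 0) := CB.real_lt
  have c2 : CB (fun p : ℝ × ℝ => decide (p.2 < p.1)) (fun _ => 0) :=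
    CLL_.z (CB.comp CB.real_lt (CB.pair CB.snd CB.fst)) (fun _ => rfl)
  constructor
  · refine CLL_.main hRS1 hCST hCSO hCON hINJ hFLD hJN D c hL _ c1 (fun p => p.2) (fun p => p.1)
      CB.snd CB.fst (fun l r => le_max_right _ _) (fun l r => le_max_left _ _)
      (fun e t => lastA (D e) t) hA1 (fun e x t => lastLt (D e) x t) (fun e x d => ?_)
      (fun e x am fx l r => ?_)
    · simp [lastLt]
    · simp only [lastLt, decide_eq_true_eq]
      cases lastLt (D e) x r <;> rfl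
  · refine CLL_.main hRS1 hCST hCSO hCON hINJ hFLD hJN D c hL _ c2 (fun p => p.1) (fun p => p.2)
      CB.fst CB.snd (fun l r => le_max_left _ _) (fun l r => le_max_right _ _)
      (fun e t => firstA (D e) t) hA2 (fun e x t => firstGt (D e) x t) (fun e x d => ?_)
      (fun e x am fx l r => ?_)
    · simp [firstGt]
    · simp only [firstGt, decide_eq_true_eq]
      cases firstGt (D e) x l <;> rfl

end Pool.Agent.EVD
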