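import Pool.Agent.EVD.TC
import Pool.Agent.EVD.P_RS1
import Pool.Agent.EVD.P_CSL
import Pool.Agent.EVD.P_INJ
import Pool.Agent.EVD.P_CON

/-! # EVD-C-MAP: running time of map (helper53) -/

set_option autoImplicit false

namespace Pool.Agent.EVD

/-- case analysis for the recursion -/
def CMAP_q {E α β : Type} (f : E → α → β) (x : E × List α) :
    List β ⊕ ((E × List α) × β) :=
  match x.2 with
  | [] => Sum.inl []
  | a :: l => Sum.inr ((x.1, l), f x.1 a)

theorem CMAP_cq {E α β : Type} [Enc E] [Enc α] [Enc β] (f : E → α → β) (c : E → ℕ)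
    (h : CB (fun x : E × α => f x.1 x.2) (fun x => c x.1)) :
    CB (CMAP_q f) (fun x => match x.2 with | [] => 0 | _ :: _ => c x.1) := by
  have hb : CB (fun _ : E × List α => (Sum.inl [] : List β ⊕ ((E × List α) × β)))
      (fun _ => 0) :=
    ((p_INJ (List β) ((E × List α) × β)).1.comp
      (p_CON β (E × List α)).2.1).mono 1 (fun x => by simp)
  have h1 : CB (fun y : (E × List α) × α × List α => y.1.1) (fun _ => 0) :=
    (CB.fst.comp CB.fst).mono 1 (fun x => by simp)
  have h2 : CB (fun y : (E × List α) × α × List α => y.2.1) (fun _ => 0) :=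
    (CB.fst.comp CB.snd).mono 1 (fun x => by simp)
  have h3 : CB (fun y : (E × List α) × α × List α => y.2.2) (fun _ => 0) :=
    (CB.snd.comp CB.snd).mono 1 (fun x => by simp)
  have h4 : CB (fun y : (E × List α) × α × List α => f y.1.1 y.2.1) (fun y => c y.1.1) :=
    ((h.comp (h1.pair h2)).mono 1 (fun x => by simp))
  have h5 : CB (fun y : (E × List α) × α × List α =>
      (Sum.inr ((y.1.1, y.2.2), f y.1.1 y.2.1) : List β ⊕ ((E × List α) × β)))
      (fun y => c y.1.1) :=
    ((p_INJ (List β) ((E × List α) × β)).2.comp ((h1.pair h3).pair h4)).mono 1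
      (fun x => by simp)
  have h6 := p_CSL (E × List α) α (List β ⊕ ((E × List α) × β)) (fun x => x.2)
    (fun _ => Sum.inl []) (fun y => Sum.inr ((y.1.1, y.2.2), f y.1.1 y.2.1))
    (fun _ => 0) (fun _ => 0) (fun y => c y.1.1) CB.snd hb h5
  refine (h6.congr (g := CMAP_q f) fun x => ?_).mono 1 fun x => ?_
  · rcases x with ⟨e, _ | ⟨a, l⟩⟩ <;> rfl
  · rcases x with ⟨e, _ | ⟨a, l⟩⟩ <;> simp

theorem p_C_MAP : T_C_MAP := by
  intro E α β _ _ _ f c h
  refine p_RS1 (E × List α) (List β) β (fun x => x.2.map (f x.1)) (CMAP_q f)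
    (fun y => y.1 :: y.2) (fun x => match x.2 with | [] => 0 | _ :: _ => c x.1)
    (fun x => (x.2.length + 1) * (c x.1 + 1)) (fun _ => 0) (CMAP_cq f c h)
    (p_CON β (E × List α)).1 ?_ ?_ ?_
  · rintro ⟨e, _ | ⟨a, l⟩⟩ <;> rfl
  · rintro ⟨e, _ | ⟨a, l⟩⟩ b hb
    · exact Nat.zero_le _
    · cases hb
  · rintro ⟨e, _ | ⟨a, l⟩⟩ y z hb
    · cases hb
    · have hb' : ((e, l), f e a) = (y, z) := Sum.inr.inj hb
      obtain ⟨rfl, rfl⟩ := Prod.mk.inj hb'
      simp only [List.length_cons]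
      nlinarith

end Pool.Agent.EVD
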