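import Pool.Agent.EVD.TC
import Pool.Agent.EVD.P_CSO
import Pool.Agent.EVD.P_CON
import Pool.Agent.EVD.P_FLD
import Pool.Agent.EVD.P_REA
import Pool.Agent.EVD.P_INJ
import Pool.Agent.EVD.P_RS1

/-! # EVD: time of `minGt`, `minLt`, `minIn` -/

set_option autoImplicit false

namespace Pool.Agent.EVD

namespace CMIN_

section
variable {α β γ : Type} [Enc α] [Enc β] [Enc γ]

theorem ifp {p : α → Prop} [DecidablePred p] {f g : α → β} {T F G : α → ℕ}
    (ht : CB (fun x => decide (p x)) T) (hf : CB f F) (hg : CB g G) :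
    CB (fun x => if p x then f x else g x) (fun x => T x + (if p x then F x else G x)) := by
  refine ((CB.ite ht hf hg).congr (fun x => ?_)).mono 1 (fun x => ?_)
  · by_cases h : p x <;> simp [h]
  · by_cases h : p x <;> simp [h]

theorem cb_some : CB (fun x : α => some x) (fun _ => 0) := (p_CON α α).2.2.1

theorem cb_none : CB (fun _ : β => (none : Option α)) (fun _ => 0) := (p_CON α β).2.2.2

theorem cb_s : CB (fun d : Lf ℝ => d.s) (fun _ => 0) := p_FLD.1

theorem cb_s1 : CB (fun d : Lf ℝ => d.s.1) (fun _ => 0) := CB.comp CB.fst cb_s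

theorem lt {a b : α → ℝ} (ha : CB a (fun _ => 0)) (hb : CB b (fun _ => 0)) :
    CB (fun x => decide (a x < b x)) (fun _ => 0) :=
  (p_REA α a b _ _ ha hb).2.2.2.2.2.2.2.2.1

theorem cmp {f : β → γ} {g : α → β} (hf : CB f (fun _ => 0)) (hg : CB g (fun _ => 0)) :
    CB (fun x => f (g x)) (fun _ => 0) := CB.comp hf hg

theorem pr {f : α → β} {g : α → γ} (hf : CB f (fun _ => 0)) (hg : CB g (fun _ => 0)) :
    CB (fun x => (f x, g x)) (fun _ => 0) := CB.pair hf hg

theorem ifz {p : α → Prop} [DecidablePred p] {f g : α → β}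
    (ht : CB (fun x => decide (p x)) (fun _ => 0)) (hf : CB f (fun _ => 0))
    (hg : CB g (fun _ => 0)) :
    CB (fun x => if p x then f x else g x) (fun _ => 0) := by
  refine (ifp ht hf hg).mono 1 (fun x => ?_)
  by_cases h : p x <;> simp [h]

theorem s1of {g : α → Lf ℝ} (hg : CB g (fun _ => 0)) :
    CB (fun x => (g x).s.1) (fun _ => 0) := CB.comp cb_s1 hg

theorem oz {t : α → Option β} {f : α → γ} {g : α × β → γ} (ht : CB t (fun _ => 0))
    (hf : CB f (fun _ => 0)) (hg : CB g (fun _ => 0)) :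
    CB (fun x => match t x with | none => f x | some b => g (x, b)) (fun _ => 0) := by
  refine (p_CSO α β γ t f g _ _ _ ht hf hg).mono 1 (fun x => ?_)
  cases t x <;> simp

theorem inl {f : α → β} (hf : CB f (fun _ => 0)) :
    CB (fun x => (Sum.inl (f x) : β ⊕ γ)) (fun _ => 0) := CB.comp (p_INJ β γ).1 hf

theorem inr {f : α → γ} (hf : CB f (fun _ => 0)) :
    CB (fun x => (Sum.inr (f x) : β ⊕ γ)) (fun _ => 0) := CB.comp (p_INJ β γ).2 hf

end

/-- combination with an optional stored element on the right -/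
noncomputable def cbR (z : Option (Lf ℝ) × Option (Lf ℝ)) : Option (Lf ℝ) :=
  match z.1 with
  | none => z.2
  | some a => match z.2 with
    | none => some a
    | some e => some (btr e a)

/-- combination with an optional stored element on the left -/
noncomputable def cbL (z : Option (Lf ℝ) × Option (Lf ℝ)) : Option (Lf ℝ) :=
  match z.1 with
  | none => z.2
  | some a => match z.2 with
    | none => some a
    | some e => some (btr a e)

theorem cb_cbR (hb : CB (fun x : Lf ℝ × Lf ℝ => btr x.1 x.2) (fun _ => 0)) :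
    CB cbR (fun _ => 0) := by
  have h1 : CB (fun w : (Option (Lf ℝ) × Option (Lf ℝ)) × Lf ℝ =>
      match w.1.2 with | none => some w.2 | some e => some (btr e w.2)) (fun _ => 0) :=
    (oz (t := fun w : (Option (Lf ℝ) × Option (Lf ℝ)) × Lf ℝ => w.1.2)
      (f := fun w => some w.2)
      (g := fun v : ((Option (Lf ℝ) × Option (Lf ℝ)) × Lf ℝ) × Lf ℝ => some (btr v.2 v.1.2))
      (cmp CB.snd CB.fst) (cmp cb_some CB.snd)
      (cmp cb_some (cmp hb (pr CB.snd (cmp CB.snd CB.fst))))).congr (fun w => by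
        rcases w with ⟨⟨a, _ | b⟩, c⟩ <;> rfl)
  exact (oz (t := fun z : Option (Lf ℝ) × Option (Lf ℝ) => z.1) (f := fun z => z.2)
    (g := fun w : (Option (Lf ℝ) × Option (Lf ℝ)) × Lf ℝ =>
      match w.1.2 with | none => some w.2 | some e => some (btr e w.2))
    CB.fst CB.snd h1).congr (fun w => by
      rcases w with ⟨_ | a, _ | b⟩ <;> rfl)

theorem cb_cbL (hb : CB (fun x : Lf ℝ × Lf ℝ => btr x.1 x.2) (fun _ => 0)) :
    CB cbL (fun _ => 0) := by
  have h1 : CB (fun w : (Option (Lf ℝ) × Option (Lf ℝ)) × Lf ℝ =>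
      match w.1.2 with | none => some w.2 | some e => some (btr w.2 e)) (fun _ => 0) :=
    (oz (t := fun w : (Option (Lf ℝ) × Option (Lf ℝ)) × Lf ℝ => w.1.2)
      (f := fun w => some w.2)
      (g := fun v : ((Option (Lf ℝ) × Option (Lf ℝ)) × Lf ℝ) × Lf ℝ => some (btr v.1.2 v.2))
      (cmp CB.snd CB.fst) (cmp cb_some CB.snd)
      (cmp cb_some (cmp hb (pr (cmp CB.snd CB.fst) CB.snd)))).congr (fun w => by
        rcases w with ⟨⟨a, _ | b⟩, c⟩ <;> rfl)
  exact (oz (t := fun z : Option (Lf ℝ) × Option (Lf ℝ) => z.1) (f := fun z => z.2)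
    (g := fun w : (Option (Lf ℝ) × Option (Lf ℝ)) × Lf ℝ =>
      match w.1.2 with | none => some w.2 | some e => some (btr w.2 e))
    CB.fst CB.snd h1).congr (fun w => by
      rcases w with ⟨_ | a, _ | b⟩ <;> rfl)

abbrev X : Type := ℝ × TR ℝ

abbrev NX : Type := X × Lf ℝ × ℝ × TR ℝ × TR ℝ

theorem nl : CB (fun y : NX => y.2.2.2.1) (fun _ => 0) :=
  cmp CB.fst (cmp CB.snd (cmp CB.snd CB.snd))

theorem nr : CB (fun y : NX => y.2.2.2.2) (fun _ => 0) :=
  cmp CB.snd (cmp CB.snd (cmp CB.snd CB.snd))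

theorem nx : CB (fun y : NX => y.1.1) (fun _ => 0) := cmp CB.fst CB.fst

theorem dep_l (am : Lf ℝ) (fx : ℝ) (l r : TR ℝ) : l.dep + 1 ≤ (TR.node am fx l r).dep := by
  have h : (TR.node am fx l r).dep = max l.dep r.dep + 1 := rfl
  rw [h]
  have := le_max_left l.dep r.dep
  omega

theorem dep_r (am : Lf ℝ) (fx : ℝ) (l r : TR ℝ) : r.dep + 1 ≤ (TR.node am fx l r).dep := by
  have h : (TR.node am fx l r).dep = max l.dep r.dep + 1 := rfl
  rw [h]
  have := le_max_right l.dep r.dep
  omega

/-- case analysis of `minGt` -/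
noncomputable def qG (x : X) : Option (Lf ℝ) ⊕ (X × Option (Lf ℝ)) :=
  match x.2 with
  | TR.leaf d => Sum.inl (if x.1 < d.s.1 then some d else none)
  | TR.node _ _ l r =>
      if x.1 < r.fx then Sum.inr ((x.1, l), some r.am) else Sum.inr ((x.1, r), none)

/-- case analysis of `minLt` -/
noncomputable def qL (x : X) : Option (Lf ℝ) ⊕ (X × Option (Lf ℝ)) :=
  match x.2 with
  | TR.leaf d => Sum.inl (if d.s.1 < x.1 then some d else none)
  | TR.node _ _ l r =>
      if r.fx < x.1 then Sum.inr ((x.1, r), some l.am) else Sum.inr ((x.1, l), none)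

variable (hCST : ∀ (α δ : Type) [Enc α] [Enc δ], T_CST α δ) (hJN : T_C_JN) (hHLE : T_C_HLE)

include hCST hJN in
theorem cb_qG : CB qG (fun _ => 0) := by
  have hfx : CB (fun y : NX => y.2.2.2.2.fx) (fun _ => 0) := cmp hJN.2.1 nr
  have ham : CB (fun y : NX => y.2.2.2.2.am) (fun _ => 0) := cmp hJN.1 nr
  have hleaf : CB (fun y : X × Lf ℝ => (Sum.inl (if y.1.1 < y.2.s.1 then some y.2 else none) :
      Option (Lf ℝ) ⊕ (X × Option (Lf ℝ)))) (fun _ => 0) :=
    inl (ifz (lt (cmp CB.fst CB.fst) (s1of CB.snd)) (cmp cb_some CB.snd) cb_none)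
  have hnode : CB (fun y : NX => if y.1.1 < y.2.2.2.2.fx then
      (Sum.inr ((y.1.1, y.2.2.2.1), some y.2.2.2.2.am) : Option (Lf ℝ) ⊕ (X × Option (Lf ℝ)))
      else Sum.inr ((y.1.1, y.2.2.2.2), none)) (fun _ => 0) :=
    ifz (lt nx hfx) (inr (pr (pr nx nl) (cmp cb_some ham))) (inr (pr (pr nx nr) cb_none))
  refine (hCST X _ (fun x => x.2) _ _ _ _ _ CB.snd hleaf hnode).mono 1 (fun x => ?_)
  cases x.2 <;> simp

include hCST hJN in
theorem cb_qL : CB qL (fun _ => 0) := by
  have hfx : CB (fun y : NX => y.2.2.2.2.fx) (fun _ => 0) := cmp hJN.2.1 nr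
  have ham : CB (fun y : NX => y.2.2.2.1.am) (fun _ => 0) := cmp hJN.1 nl
  have hleaf : CB (fun y : X × Lf ℝ => (Sum.inl (if y.2.s.1 < y.1.1 then some y.2 else none) :
      Option (Lf ℝ) ⊕ (X × Option (Lf ℝ)))) (fun _ => 0) :=
    inl (ifz (lt (s1of CB.snd) (cmp CB.fst CB.fst)) (cmp cb_some CB.snd) cb_none)
  have hnode : CB (fun y : NX => if y.2.2.2.2.fx < y.1.1 then
      (Sum.inr ((y.1.1, y.2.2.2.2), some y.2.2.2.1.am) : Option (Lf ℝ) ⊕ (X × Option (Lf ℝ)))
      else Sum.inr ((y.1.1, y.2.2.2.1), none)) (fun _ => 0) :=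
    ifz (lt hfx nx) (inr (pr (pr nx nr) (cmp cb_some ham))) (inr (pr (pr nx nl) cb_none))
  refine (hCST X _ (fun x => x.2) _ _ _ _ _ CB.snd hleaf hnode).mono 1 (fun x => ?_)
  cases x.2 <;> simp

include hCST hJN hHLE in
theorem cb_G : CB (fun x : X => minGt x.1 x.2) (fun x => x.2.dep) := by
  refine p_RS1 X _ _ _ qG cbR _ _ _ (cb_qG hCST hJN) (cb_cbR hHLE.2) ?_ ?_ ?_
  · rintro ⟨x, t⟩
    cases t with
    | leaf d => rfl
    | node am fx l r =>
      by_cases h : x < r.fx
      · simp only [minGt, qG, if_pos h, cbR]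
        cases minGt x l <;> rfl
      · simp only [minGt, qG, if_neg h, cbR]
  · intro x b _
    exact Nat.zero_le _
  · rintro ⟨x, t⟩ y z h
    cases t with
    | leaf d => exact absurd h (by simp [qG])
    | node am fx l r =>
      have h1 := dep_l am fx l r
      have h2 := dep_r am fx l r
      by_cases hx : x < r.fx
      · simp only [qG, if_pos hx, Sum.inr.injEq, Prod.mk.injEq] at h
        obtain ⟨rfl, -⟩ := h
        simp only
        omega
      · simp only [qG, if_neg hx, Sum.inr.injEq, Prod.mk.injEq] at h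
        obtain ⟨rfl, -⟩ := h
        simp only
        omega

include hCST hJN hHLE in
theorem cb_L : CB (fun x : X => minLt x.1 x.2) (fun x => x.2.dep) := by
  refine p_RS1 X _ _ _ qL cbL _ _ _ (cb_qL hCST hJN) (cb_cbL hHLE.2) ?_ ?_ ?_
  · rintro ⟨x, t⟩
    cases t with
    | leaf d => rfl
    | node am fx l r =>
      by_cases h : r.fx < x
      · simp only [minLt, qL, if_pos h, cbL]
        cases minLt x r <;> rfl
      · simp only [minLt, qL, if_neg h, cbL]
  · intro x b _
    exact Nat.zero_le _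
  · rintro ⟨x, t⟩ y z h
    cases t with
    | leaf d => exact absurd h (by simp [qL])
    | node am fx l r =>
      have h1 := dep_l am fx l r
      have h2 := dep_r am fx l r
      by_cases hx : r.fx < x
      · simp only [qL, if_pos hx, Sum.inr.injEq, Prod.mk.injEq] at h
        obtain ⟨rfl, -⟩ := h
        simp only
        omega
      · simp only [qL, if_neg hx, Sum.inr.injEq, Prod.mk.injEq] at h
        obtain ⟨rfl, -⟩ := h
        simp only
        omega

abbrev Y : Type := ℝ × ℝ × TR ℝ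

abbrev NY : Type := Y × Lf ℝ × ℝ × TR ℝ × TR ℝ

/-- combination of two optional elements -/
noncomputable def two (z : Option (Lf ℝ) × Option (Lf ℝ)) : Option (Lf ℝ) :=
  match z.1 with
  | none => z.2
  | some a => match z.2 with
    | none => some a
    | some b => some (btr a b)

theorem two_eq (a b : Option (Lf ℝ)) : two (a, b) =
    match a, b with
    | some a, some b => some (btr a b)
    | some a, none => some a
    | none, b => b := by
  cases a <;> cases b <;> rfl

/-- case analysis of `minIn` -/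
noncomputable def qI (x : Y) : Option (Lf ℝ) ⊕ (Y × Unit) :=
  match x.2.2 with
  | TR.leaf d => Sum.inl (if x.1 < d.s.1 then (if d.s.1 < x.2.1 then some d else none) else none)
  | TR.node _ _ l r =>
      if r.fx < x.2.1 then
        (if x.1 < r.fx then Sum.inl (two (minGt x.1 l, minLt x.2.1 r))
        else Sum.inr ((x.1, x.2.1, r), ()))
      else Sum.inr ((x.1, x.2.1, l), ())

/-- its cost -/
noncomputable def cI (x : Y) : ℕ :=
  match x.2.2 with
  | TR.leaf _ => 0
  | TR.node _ _ l r =>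
      if r.fx < x.2.1 then (if x.1 < r.fx then l.dep + r.dep else 0) else 0

include hCST hJN hHLE in
theorem cb_qI : CB qI cI := by
  have nl' : CB (fun y : NY => y.2.2.2.1) (fun _ => 0) :=
    cmp CB.fst (cmp CB.snd (cmp CB.snd CB.snd))
  have nr' : CB (fun y : NY => y.2.2.2.2) (fun _ => 0) :=
    cmp CB.snd (cmp CB.snd (cmp CB.snd CB.snd))
  have na : CB (fun y : NY => y.1.1) (fun _ => 0) := cmp CB.fst CB.fst
  have nb : CB (fun y : NY => y.1.2.1) (fun _ => 0) := cmp CB.fst (cmp CB.snd CB.fst)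
  have hfx : CB (fun y : NY => y.2.2.2.2.fx) (fun _ => 0) := cmp hJN.2.1 nr'
  have un : CB (fun _ : NY => ()) (fun _ => 0) := CB.nilv () rfl
  have htwo : CB two (fun _ => 0) := (cb_cbL hHLE.2).congr fun z => rfl
  have hleaf : CB (fun y : Y × Lf ℝ => (Sum.inl
      (if y.1.1 < y.2.s.1 then (if y.2.s.1 < y.1.2.1 then some y.2 else none) else none) :
      Option (Lf ℝ) ⊕ (Y × Unit))) (fun _ => 0) :=
    inl (ifz (lt (cmp CB.fst CB.fst) (s1of CB.snd))
      (ifz (lt (s1of CB.snd) (cmp CB.fst (cmp CB.snd CB.fst))) (cmp cb_some CB.snd) cb_none)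
      cb_none)
  have hG : CB (fun y : NY => minGt y.1.1 y.2.2.2.1) (fun y => 0 + y.2.2.2.1.dep) :=
    CB.comp (cb_G hCST hJN hHLE) (pr na nl')
  have hL : CB (fun y : NY => minLt y.1.2.1 y.2.2.2.2) (fun y => 0 + y.2.2.2.2.dep) :=
    CB.comp (cb_L hCST hJN hHLE) (pr nb nr')
  have hin : CB (fun y : NY => (Sum.inl (two (minGt y.1.1 y.2.2.2.1, minLt y.1.2.1 y.2.2.2.2)) :
      Option (Lf ℝ) ⊕ (Y × Unit))) (fun y => y.2.2.2.1.dep + y.2.2.2.2.dep) := by
    refine (CB.comp (p_INJ _ _).1 (CB.comp htwo (CB.pair hG hL))).mono 1 (fun y => ?_)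
    omega
  have hnode : CB (fun y : NY => if y.2.2.2.2.fx < y.1.2.1 then
      (if y.1.1 < y.2.2.2.2.fx then
        (Sum.inl (two (minGt y.1.1 y.2.2.2.1, minLt y.1.2.1 y.2.2.2.2)) :
          Option (Lf ℝ) ⊕ (Y × Unit))
        else Sum.inr ((y.1.1, y.1.2.1, y.2.2.2.2), ()))
      else Sum.inr ((y.1.1, y.1.2.1, y.2.2.2.1), ()))
      (fun y => 0 + (if y.2.2.2.2.fx < y.1.2.1 then
        0 + (if y.1.1 < y.2.2.2.2.fx then y.2.2.2.1.dep + y.2.2.2.2.dep else 0) else 0)) :=
    ifp (lt hfx nb) (ifp (lt na hfx) hin (inr (pr (pr na (pr nb nr')) un)))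
      (inr (pr (pr na (pr nb nl')) un))
  refine (hCST Y _ (fun x => x.2.2) _ _ _ _ _ (CB.comp CB.snd CB.snd) hleaf hnode).mono 1
    (fun x => ?_)
  unfold cI
  rcases x with ⟨a, b, t⟩
  cases t with
  | leaf d => simp
  | node am fx l r =>
    simp only
    split_ifs <;> simp

include hCST hJN hHLE in
theorem cb_I : CB (fun x : Y => minIn x.1 x.2.1 x.2.2) (fun x => x.2.2.dep) := by
  have h : CB (fun x : Y => minIn x.1 x.2.1 x.2.2) (fun x => 2 * x.2.2.dep) := by
    refine p_RS1 Y _ _ _ qI (fun z => z.2) _ _ _ (cb_qI hCST hJN hHLE) CB.snd ?_ ?_ ?_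
    · rintro ⟨a, b, t⟩
      cases t with
      | leaf d => rfl
      | node am fx l r =>
        by_cases h1 : r.fx < b
        · by_cases h2 : a < r.fx
          · simp only [minIn, qI, if_pos h1, if_pos h2, two_eq]
            cases minGt a l <;> cases minLt b r <;> rfl
          · simp only [minIn, qI, if_pos h1, if_neg h2]
        · simp only [minIn, qI, if_neg h1]
    · rintro ⟨a, b, t⟩ o _
      cases t with
      | leaf d => simp [cI]
      | node am fx l r =>
        have h1 := dep_l am fx l r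
        have h2 := dep_r am fx l r
        simp only [cI]
        split_ifs <;> omega
    · rintro ⟨a, b, t⟩ y z h
      cases t with
      | leaf d => exact absurd h (by simp [qI])
      | node am fx l r =>
        have e1 := dep_l am fx l r
        have e2 := dep_r am fx l r
        by_cases h1 : r.fx < b
        · by_cases h2 : a < r.fx
          · simp only [qI, if_pos h1, if_pos h2] at h
            exact absurd h (by simp)
          · simp only [qI, if_pos h1, if_neg h2, Sum.inr.injEq, Prod.mk.injEq] at h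
            obtain ⟨rfl, -⟩ := h
            simp only [cI, if_pos h1, if_neg h2]
            omega
        · simp only [qI, if_neg h1, Sum.inr.injEq, Prod.mk.injEq] at h
          obtain ⟨rfl, -⟩ := h
          simp only [cI, if_neg h1]
          omega
  exact h.mono 2 (fun x => by omega)

end CMIN_

theorem p_C_MIN (hCST : ∀ (α δ : Type) [Enc α] [Enc δ], T_CST α δ) (h_C_JN : T_C_JN)
    (h_C_HLE : T_C_HLE) : T_C_MIN :=
  ⟨CMIN_.cb_G hCST h_C_JN h_C_HLE, CMIN_.cb_L hCST h_C_JN h_C_HLE,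
    CMIN_.cb_I hCST h_C_JN h_C_HLE⟩

end Pool.Agent.EVD
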