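import Pool.Agent.EVD.TC
import Pool.Agent.EVD.P_FLD
import Pool.Agent.EVD.P_CTR
import Pool.Agent.EVD.P_REA
import Pool.Agent.EVD.P_RS2
import Pool.Agent.EVD.P_INJ
import Pool.Agent.EVD.P_BOO
import Pool.Agent.EVD.P_CSL
import Pool.Agent.EVD.P_CSO

/-! # EVD: target C_MK (time of `mk`) -/

set_option autoImplicit false

namespace Pool.Agent.EVD

namespace CMK_

section
variable {α β γ δ : Type} [Enc α] [Enc β] [Enc γ] [Enc δ]

/-- composition with a free function -/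
theorem k {f : β → γ} {g : α → β} {F : β → ℕ} (hf : CB f F) (hg : CB g (fun _ => 0)) :
    CB (fun x => f (g x)) (fun x => F (g x)) :=
  (CB.comp hf hg).mono 1 (fun x => by simp)

/-- pairs -/
theorem p {f : α → β} {g : α → γ} (hf : CB f (fun _ => 0)) (hg : CB g (fun _ => 0)) :
    CB (fun x => (f x, g x)) (fun _ => 0) :=
  (CB.pair hf hg).mono 1 (fun x => by simp)

/-- pairs, the first function is free -/
theorem pr {f : α → β} {g : α → γ} {G : α → ℕ} (hf : CB f (fun _ => 0)) (hg : CB g G) :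
    CB (fun x => (f x, g x)) G :=
  (CB.pair hf hg).mono 1 (fun x => by simp)

/-- choice -/
theorem c {t : α → Bool} {f g : α → β} (ht : CB t (fun _ => 0)) (hf : CB f (fun _ => 0))
    (hg : CB g (fun _ => 0)) : CB (fun x => if t x then f x else g x) (fun _ => 0) :=
  (CB.ite ht hf hg).mono 1 (fun x => by simp)

/-- first component -/
theorem a {f : α → β × γ} (hf : CB f (fun _ => 0)) : CB (fun x => (f x).1) (fun _ => 0) :=
  k CB.fst hf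

/-- second component -/
theorem b {f : α → β × γ} (hf : CB f (fun _ => 0)) : CB (fun x => (f x).2) (fun _ => 0) :=
  k CB.snd hf

end

/-- the alive test of a height at a simple cut -/
theorem lv : CB (fun x : Option ℝ × Option ℝ => live (cutT x.1) x.2) (fun _ => 0) := by
  have h1 : CB (fun x : (Option ℝ × Option ℝ) × ℝ => match x.1.1 with
      | none => true | some t => decide (x.2 < t)) (fun _ => 0) := by
    have h := p_CSO ((Option ℝ × Option ℝ) × ℝ) ℝ Bool (fun x => x.1.1) (fun _ => true)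
      (fun y => decide (y.1.2 < y.2)) (fun _ => 0) (fun _ => 0) (fun _ => 0)
      (a (a CB.id)) (p_BOO _).1
      ((p_REA (((Option ℝ × Option ℝ) × ℝ) × ℝ) (fun y => y.1.2) (fun y => y.2) (fun _ => 0)
        (fun _ => 0) (b (a CB.id)) (b CB.id)).2.2.2.2.2.2.2.2.1)
    refine (h.mono 1 (fun x => ?_)).congr (fun x => ?_)
    · rcases x.1.1 with _ | t <;> simp
    · rcases x.1.1 with _ | t <;> rfl
  have h := p_CSO (Option ℝ × Option ℝ) ℝ Bool (fun x => x.2) (fun _ => true)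
    (fun x : (Option ℝ × Option ℝ) × ℝ => match x.1.1 with
      | none => true | some t => decide (x.2 < t)) (fun _ => 0) (fun _ => 0) (fun _ => 0)
      (b CB.id) (p_BOO _).1 h1
  refine (h.mono 1 (fun x => ?_)).congr (fun x => ?_)
  · rcases x.2 with _ | t <;> simp
  · rcases x with ⟨_ | u, _ | t⟩ <;> rfl

/-- the first test of a node -/
theorem at_ : CB (fun x : Option ℝ × QT ℝ × QT ℝ => aTest x.1 x.2.1 x.2.2) (fun _ => 0) := by
  have hr := p_REA ((Option ℝ × QT ℝ × QT ℝ) × ℝ) (fun y => y.2) (fun y => y.2) (fun _ => 0)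
    (fun _ => 0) (b CB.id) (b CB.id)
  have h0 : CB (fun _ : (Option ℝ × QT ℝ × QT ℝ) × ℝ => (0 : ℝ)) (fun _ => 0) :=
    hr.2.2.2.2.2.1
  have h1 : CB (fun _ : (Option ℝ × QT ℝ × QT ℝ) × ℝ => (1 : ℝ)) (fun _ => 0) :=
    hr.2.2.2.2.2.2.1
  have hm : CB (fun _ : (Option ℝ × QT ℝ × QT ℝ) × ℝ => (-1 : ℝ)) (fun _ => 0) :=
    (p_REA _ (fun _ => (1 : ℝ)) (fun _ => (1 : ℝ)) _ _ h1 h1).2.2.2.2.1
  have hn : CB (fun y : (Option ℝ × QT ℝ × QT ℝ) × ℝ => - y.2) (fun _ => 0) := hr.2.2.2.2.1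
  have h := p_CSO (Option ℝ × QT ℝ × QT ℝ) ℝ (QT ℝ) (fun x => x.1) (fun x => x.2.1)
    (fun y => QT.test 0 (-1) (-y.2) y.1.2.1 y.1.2.2) (fun _ => 0) (fun _ => 0) (fun _ => 0)
    (a CB.id) (a (b CB.id))
    (k p_CTR.2.2.2 (p h0 (p hm (p hn (p (a (b (a CB.id))) (b (b (a CB.id))))))))
  refine (h.mono 1 (fun x => ?_)).congr (fun x => ?_)
  · rcases x.1 with _ | t <;> simp
  · rcases x with ⟨_ | u, y⟩ <;> rfl

/-- environment -/
abbrev EE : Type := List (TR ℝ) × Option (TR ℝ) × Option ℝ × P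

/-- state -/
abbrev SS : Type := EE × List (Lf ℝ) × P × Option ℝ × P

/-- data for the combination: height, slope, offset, answer of the first branch -/
abbrev ZZ : Type := Option ℝ × ℝ × ℝ × QT ℝ

/-- the case analysis of `mk` -/
noncomputable def qq (x : SS) : QT ℝ ⊕ (SS × SS × ZZ) :=
  match x.2.1 with
  | [] => Sum.inl (QT.cand x.2.2.1 (QT.cand x.1.2.2.2
      (child x.1.1 x.1.2.1 x.2.2.2.1 x.2.2.2.2 x.2.2.1 x.1.2.2.2)))
  | m :: ms => Sum.inr ((x.1, ms, m.s, x.1.2.2.1, m.s),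
      (x.1, ms, x.2.2.1, (if live (cutT x.2.2.2.1) m.h then m.h else x.2.2.2.1),
        (if live (cutT x.2.2.2.1) m.h then m.s else x.2.2.2.2)),
      (m.h, m.sk, m.sx, QT.cand x.2.2.1 (QT.cand m.s
        (child x.1.1 x.1.2.1 x.2.2.2.1 m.s x.2.2.1 m.s))))

/-- the combination of `mk` -/
noncomputable def co (x : ZZ × QT ℝ × QT ℝ) : QT ℝ :=
  aTest x.1.1 (QT.test 1 (-x.1.2.1) x.1.2.2.1 x.1.2.2.2 x.2.1) x.2.2

theorem co_cb : CB co (fun _ => 0) := by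
  have z : CB (fun x : ZZ × QT ℝ × QT ℝ => x.1) (fun _ => 0) := a CB.id
  have hr := p_REA (ZZ × QT ℝ × QT ℝ) (fun y => y.1.2.1) (fun y => y.1.2.1) (fun _ => 0)
    (fun _ => 0) (a (b z)) (a (b z))
  have h1 : CB (fun _ : ZZ × QT ℝ × QT ℝ => (1 : ℝ)) (fun _ => 0) := hr.2.2.2.2.2.2.1
  have hn : CB (fun y : ZZ × QT ℝ × QT ℝ => - y.1.2.1) (fun _ => 0) := hr.2.2.2.2.1
  have ht : CB (fun y : ZZ × QT ℝ × QT ℝ =>
      QT.test 1 (-y.1.2.1) y.1.2.2.1 y.1.2.2.2 y.2.1) (fun _ => 0) :=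
    k p_CTR.2.2.2 (p h1 (p hn (p (a (b (b z))) (p (b (b (b z))) (a (b CB.id))))))
  have h2 : CB (fun y : ZZ × QT ℝ × QT ℝ => (y.1.1,
      QT.test 1 (-y.1.2.1) y.1.2.2.1 y.1.2.2.2 y.2.1, y.2.2)) (fun _ => 0) :=
    p (a z) (p ht (b (b CB.id)))
  have h3 := k at_ h2
  exact h3

theorem qq_cb (h_C_CHI : T_C_CHI) : CB qq (fun x : SS => cC x.1.1 x.1.2.1) := by
  -- the empty list
  have f0 : CB (fun x : SS => QT.cand x.2.2.1 (QT.cand x.1.2.2.2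
      (child x.1.1 x.1.2.1 x.2.2.2.1 x.2.2.2.2 x.2.2.1 x.1.2.2.2)))
      (fun x : SS => cC x.1.1 x.1.2.1) := by
    have z : CB (fun x : SS => x.2.2) (fun _ => 0) := b (b CB.id)
    have e : CB (fun x : SS => x.1) (fun _ => 0) := a CB.id
    have h := k h_C_CHI (p (a e) (p (a (b e)) (p (a (b z)) (p (b (b z)) (p (a z)
      (b (b (b e))))))))
    have h2 := CB.comp p_CTR.2.2.1 (pr (b (b (b e))) h)
    have h3 := CB.comp p_CTR.2.2.1 (pr (a z) h2)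
    exact h3.mono 1 (fun x => by simp)
  have f1 : CB (fun x : SS => (Sum.inl (QT.cand x.2.2.1 (QT.cand x.1.2.2.2
      (child x.1.1 x.1.2.1 x.2.2.2.1 x.2.2.2.2 x.2.2.1 x.1.2.2.2))) :
        QT ℝ ⊕ (SS × SS × ZZ)))
      (fun x : SS => cC x.1.1 x.1.2.1) :=
    (CB.comp (p_INJ (QT ℝ) (SS × SS × ZZ)).1 f0).mono 1 (fun x => by simp)
  -- the nonempty list
  have x' : CB (fun y : SS × Lf ℝ × List (Lf ℝ) => y.1) (fun _ => 0) := a CB.id
  have m' : CB (fun y : SS × Lf ℝ × List (Lf ℝ) => y.2.1) (fun _ => 0) := a (b CB.id)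
  have l' : CB (fun y : SS × Lf ℝ × List (Lf ℝ) => y.2.2) (fun _ => 0) := b (b CB.id)
  have s' : CB (fun y : SS × Lf ℝ × List (Lf ℝ) => y.2.1.s) (fun _ => 0) := k p_FLD.1 m'
  have h' : CB (fun y : SS × Lf ℝ × List (Lf ℝ) => y.2.1.h) (fun _ => 0) := k p_FLD.2.1 m'
  have sx' : CB (fun y : SS × Lf ℝ × List (Lf ℝ) => y.2.1.sx) (fun _ => 0) :=
    k p_FLD.2.2.1 m'
  have sk' : CB (fun y : SS × Lf ℝ × List (Lf ℝ) => y.2.1.sk) (fun _ => 0) :=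
    k p_FLD.2.2.2.1 m'
  have e' : CB (fun y : SS × Lf ℝ × List (Lf ℝ) => y.1.1) (fun _ => 0) := a x'
  have z' : CB (fun y : SS × Lf ℝ × List (Lf ℝ) => y.1.2.2) (fun _ => 0) := b (b x')
  have t' : CB (fun y : SS × Lf ℝ × List (Lf ℝ) => live (cutT y.1.2.2.2.1) y.2.1.h)
    (fun _ => 0) := k lv (p (a (b z')) h')
  have g1 : CB (fun y : SS × Lf ℝ × List (Lf ℝ) =>
      ((y.1.1, y.2.2, y.2.1.s, y.1.1.2.2.1, y.2.1.s) : SS)) (fun _ => 0) :=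
    p e' (p l' (p s' (p (a (b (b e'))) s')))
  have g2 : CB (fun y : SS × Lf ℝ × List (Lf ℝ) =>
      ((y.1.1, y.2.2, y.1.2.2.1, (if live (cutT y.1.2.2.2.1) y.2.1.h then y.2.1.h
        else y.1.2.2.2.1), (if live (cutT y.1.2.2.2.1) y.2.1.h then y.2.1.s
        else y.1.2.2.2.2)) : SS)) (fun _ => 0) :=
    p e' (p l' (p (a z') (p (c t' h' (a (b z'))) (c t' s' (b (b z'))))))
  have g3 : CB (fun y : SS × Lf ℝ × List (Lf ℝ) =>
      ((y.2.1.h, y.2.1.sk, y.2.1.sx, QT.cand y.1.2.2.1 (QT.cand y.2.1.s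
        (child y.1.1.1 y.1.1.2.1 y.1.2.2.2.1 y.2.1.s y.1.2.2.1 y.2.1.s))) : ZZ))
      (fun y => cC y.1.1.1 y.1.1.2.1) := by
    have h := k h_C_CHI (p (a e') (p (a (b e')) (p (a (b z')) (p s' (p (a z') s')))))
    have h2 := CB.comp p_CTR.2.2.1 (pr s' h)
    have h3 := CB.comp p_CTR.2.2.1 (pr (a z') h2)
    have h4 := h3.mono (B' := fun y => cC y.1.1.1 y.1.1.2.1) 1 (fun x => by simp)
    exact pr h' (pr sk' (pr sx' h4))
  have g4 : CB (fun y : SS × Lf ℝ × List (Lf ℝ) => (Sum.inr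
      (((y.1.1, y.2.2, y.2.1.s, y.1.1.2.2.1, y.2.1.s) : SS),
      ((y.1.1, y.2.2, y.1.2.2.1, (if live (cutT y.1.2.2.2.1) y.2.1.h then y.2.1.h
        else y.1.2.2.2.1), (if live (cutT y.1.2.2.2.1) y.2.1.h then y.2.1.s
        else y.1.2.2.2.2)) : SS),
      ((y.2.1.h, y.2.1.sk, y.2.1.sx, QT.cand y.1.2.2.1 (QT.cand y.2.1.s
        (child y.1.1.1 y.1.1.2.1 y.1.2.2.2.1 y.2.1.s y.1.2.2.1 y.2.1.s))) : ZZ)) :
        QT ℝ ⊕ (SS × SS × ZZ))) (fun y => cC y.1.1.1 y.1.1.2.1) :=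
    (CB.comp (p_INJ (QT ℝ) (SS × SS × ZZ)).2 (pr g1 (pr g2 g3))).mono 1 (fun x => by simp)
  have h := p_CSL SS (Lf ℝ) (QT ℝ ⊕ (SS × SS × ZZ)) (fun x => x.2.1) _ _ _ _ _
    (a (b CB.id)) f1 g4
  refine (h.mono 1 (fun x => ?_)).congr (fun x => ?_)
  · rcases x with ⟨e, l, r⟩
    rcases l with _ | ⟨m, ms⟩ <;> simp
  · rcases x with ⟨e, l, r⟩
    rcases l with _ | ⟨m, ms⟩ <;> rfl

/-- the arithmetic of the recursion -/
theorem ar (n c : ℕ) : c + 0 + (2 * 2 ^ n - 1) * (c + 2) + (2 * 2 ^ n - 1) * (c + 2) + 2 ≤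
    (2 * 2 ^ (n + 1) - 1) * (c + 2) := by
  obtain ⟨m, hm⟩ : ∃ m, 2 ^ n = m + 1 := ⟨2 ^ n - 1, by have := Nat.one_le_two_pow (n := n); omega⟩
  have h1 : 2 * 2 ^ n - 1 = 2 * m + 1 := by omega
  have h2 : 2 * 2 ^ (n + 1) - 1 = 4 * m + 3 := by rw [pow_succ]; omega
  rw [h1, h2]
  nlinarith

end CMK_

open CMK_ in
/-- target C_MK -/
theorem p_C_MK (h_C_CHI : T_C_CHI) : T_C_MK := by
  have h := p_RS2 SS (QT ℝ) ZZ
    (fun x => mk x.1.1 x.1.2.1 x.1.2.2.1 x.1.2.2.2 x.2.1 x.2.2.1 x.2.2.2.1 x.2.2.2.2)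
    qq co (fun x => cC x.1.1 x.1.2.1)
    (fun x => (2 * 2 ^ x.2.1.length - 1) * (cC x.1.1 x.1.2.1 + 2)) (fun _ => 0)
    (qq_cb h_C_CHI) co_cb ?_ ?_ ?_
  · refine h.mono 4 (fun x => ?_)
    have h1 : 1 ≤ 2 ^ x.2.1.length := Nat.one_le_two_pow
    have h2 : 2 * 2 ^ x.2.1.length - 1 ≤ 2 * 2 ^ x.2.1.length := by omega
    calc (2 * 2 ^ x.2.1.length - 1) * (cC x.1.1 x.1.2.1 + 2)
        ≤ (2 * 2 ^ x.2.1.length) * (cC x.1.1 x.1.2.1 + 2) := Nat.mul_le_mul_right _ h2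
      _ ≤ (2 * 2 ^ x.2.1.length) * (2 * (cC x.1.1 x.1.2.1 + 1)) :=
          Nat.mul_le_mul_left _ (by omega)
      _ = 4 * (2 ^ x.2.1.length * (cC x.1.1 x.1.2.1 + 1)) := by ring
      _ ≤ 4 * (2 ^ x.2.1.length * (cC x.1.1 x.1.2.1 + 1) + 1) := by omega
  · rintro ⟨e, l, lo, cT, cf⟩
    rcases l with _ | ⟨m, ms⟩
    · rfl
    · rfl
  · rintro ⟨e, l, lo, cT, cf⟩ r hr
    have h1 : 1 ≤ 2 ^ l.length := Nat.one_le_two_pow
    have h2 : 1 ≤ 2 * 2 ^ l.length - 1 := by omega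
    calc cC e.1 e.2.1 ≤ 1 * (cC e.1 e.2.1 + 2) := by omega
      _ ≤ (2 * 2 ^ l.length - 1) * (cC e.1 e.2.1 + 2) := Nat.mul_le_mul_right _ h2
  · rintro ⟨e, l, lo, cT, cf⟩ y y' z hr
    rcases l with _ | ⟨m, ms⟩
    · simp [qq] at hr
    · simp only [qq, Sum.inr.injEq, Prod.mk.injEq] at hr
      obtain ⟨hy, hy', _⟩ := hr
      subst hy hy'
      simp only [List.length_cons]
      exact ar ms.length (cC e.1 e.2.1)

end Pool.Agent.EVD
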