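import Pool.Agent.EVD.TC
import Pool.Agent.EVD.P_CSO
import Pool.Agent.EVD.P_BOO
import Pool.Agent.EVD.P_CON
import Pool.Agent.EVD.P_REA
import Pool.Agent.EVD.P_FLD

/-! # EVD: T_C_MKL, running time of `mkLf` (helper3) -/

namespace Pool.Agent.EVD

namespace CMKL_

section
variable {α β γ δ : Type} [Enc α] [Enc β] [Enc γ] [Enc δ]

/-- a function of cost zero fits into every bound -/
theorem up {f : α → β} (B : α → ℕ) (h : CB f (fun _ => 0)) : CB f B :=
  h.mono 0 (fun x => by simp)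

/-- cases on an option with one common bound -/
theorem cso {t : α → Option β} {f : α → δ} {g : α × β → δ} {B : α → ℕ}
    (ht : CB t B) (hf : CB f B) (hg : CB g (fun y => B y.1)) :
    CB (fun x => match t x with | none => f x | some b => g (x, b)) B := by
  refine (p_CSO α β δ t f g B B (fun y => B y.1) ht hf hg).mono 2 (fun x => ?_)
  dsimp only
  cases t x <;> simp only <;> omega

/-- composition of functions of cost zero -/
theorem c0 {f : β → γ} {g : α → β} (hf : CB f (fun _ => 0)) (hg : CB g (fun _ => 0)) :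
    CB (fun x => f (g x)) (fun _ => 0) := CB.comp hf hg

theorem p0 {f : α → β} {g : α → γ} (hf : CB f (fun _ => 0)) (hg : CB g (fun _ => 0)) :
    CB (fun x => (f x, g x)) (fun _ => 0) := CB.pair hf hg

theorem add0 {a b : α → ℝ} (ha : CB a (fun _ => 0)) (hb : CB b (fun _ => 0)) :
    CB (fun x => a x + b x) (fun _ => 0) := (p_REA α a b _ _ ha hb).1

theorem sub0 {a b : α → ℝ} (ha : CB a (fun _ => 0)) (hb : CB b (fun _ => 0)) :
    CB (fun x => a x - b x) (fun _ => 0) := (p_REA α a b _ _ ha hb).2.1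

theorem mul0 {a b : α → ℝ} (ha : CB a (fun _ => 0)) (hb : CB b (fun _ => 0)) :
    CB (fun x => a x * b x) (fun _ => 0) := (p_REA α a b _ _ ha hb).2.2.1

theorem div0 {a b : α → ℝ} (ha : CB a (fun _ => 0)) (hb : CB b (fun _ => 0)) :
    CB (fun x => a x / b x) (fun _ => 0) := (p_REA α a b _ _ ha hb).2.2.2.1

theorem neg0 {a : α → ℝ} (ha : CB a (fun _ => 0)) :
    CB (fun x => -a x) (fun _ => 0) := (p_REA α a a _ _ ha ha).2.2.2.2.1

theorem zero0 : CB (fun _ : α => (0 : ℝ)) (fun _ => 0) :=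
  (p_REA α (fun _ => 1) (fun _ => 1) _ _ CB.real_one CB.real_one).2.2.2.2.2.1

theorem two0 : CB (fun _ : α => (2 : ℝ)) (fun _ => 0) :=
  (p_REA α (fun _ => 1) (fun _ => 1) _ _ CB.real_one CB.real_one).2.2.2.2.2.2.2.1

theorem fst0 {f : α → P} (hf : CB f (fun _ => 0)) : CB (fun x => (f x).1) (fun _ => 0) :=
  c0 CB.fst hf

theorem snd0 {f : α → P} (hf : CB f (fun _ => 0)) : CB (fun x => (f x).2) (fun _ => 0) :=
  c0 CB.snd hf

theorem site0 {f : α → Lf ℝ} (hf : CB f (fun _ => 0)) : CB (fun x => (f x).s) (fun _ => 0) :=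
  c0 (f := fun d : Lf ℝ => d.s) p_FLD.1 hf

/-- constructor of an element with empty query structures -/
theorem lf0 {s : α → P} {h : α → Option ℝ} {a b : α → ℝ} (hs : CB s (fun _ => 0))
    (hh : CB h (fun _ => 0)) (ha : CB a (fun _ => 0)) (hb : CB b (fun _ => 0)) :
    CB (fun x => (⟨s x, h x, a x, b x, QT.stop, QT.stop⟩ : Lf ℝ)) (fun _ => 0) := by
  have hq : CB (fun _ : α => (QT.stop : QT ℝ)) (fun _ => 0) := CB.nilv QT.stop rfl
  exact c0 (f := fun x : P × Option ℝ × ℝ × ℝ × QT ℝ × QT ℝ =>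
    (⟨x.1, x.2.1, x.2.2.1, x.2.2.2.1, x.2.2.2.2.1, x.2.2.2.2.2⟩ : Lf ℝ))
    p_FLD.2.2.2.2.2.2.1 (p0 hs (p0 hh (p0 ha (p0 hb (p0 hq hq)))))

end

/-- environment: lists of parts and a point -/
abbrev X : Type := List (TR ℝ) × P

/-- an element which lives for ever -/
def deadL (f : P) : Lf ℝ := ⟨f, none, 0, 0, QT.stop, QT.stop⟩

/-- the spine and the height of `f` -/
noncomputable def spineL (f pr su l r : P) : Lf ℝ :=
  ⟨f, some (cc l f r),
    ((nsq f - nsq l) - 2 * cc l f r * (f.2 - l.2)) / (2 * (f.1 - l.1))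
      + (su.2 - pr.2) / (su.1 - pr.1) * cc l f r,
    -((su.2 - pr.2) / (su.1 - pr.1)), QT.stop, QT.stop⟩

theorem deadL0 {α : Type} [Enc α] {s : α → P} (hs : CB s (fun _ => 0)) :
    CB (fun x => deadL (s x)) (fun _ => 0) :=
  lf0 hs (CB.nilv none rfl) zero0 zero0

theorem spineL0 (h_GEO : T_C_GEO) {α : Type} [Enc α] {f pr su l r : α → P} (hf : CB f (fun _ => 0))
    (hpr : CB pr (fun _ => 0)) (hsu : CB su (fun _ => 0)) (hl : CB l (fun _ => 0))
    (hr : CB r (fun _ => 0)) :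
    CB (fun x => spineL (f x) (pr x) (su x) (l x) (r x)) (fun _ => 0) := by
  have hcc : CB (fun x => cc (l x) (f x) (r x)) (fun _ => 0) :=
    c0 (f := fun x : P × P × P => cc x.1 x.2.1 x.2.2) h_GEO.1 (p0 hl (p0 hf hr))
  have hnf : CB (fun x => nsq (f x)) (fun _ => 0) := c0 (f := fun x : P => nsq x) h_GEO.2.2.1 hf
  have hnl : CB (fun x => nsq (l x)) (fun _ => 0) := c0 (f := fun x : P => nsq x) h_GEO.2.2.1 hl
  have hsl : CB (fun x => ((su x).2 - (pr x).2) / ((su x).1 - (pr x).1)) (fun _ => 0) :=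
    div0 (sub0 (snd0 hsu) (snd0 hpr)) (sub0 (fst0 hsu) (fst0 hpr))
  have hso : CB (fun x => some (cc (l x) (f x) (r x))) (fun _ => 0) :=
    c0 (f := fun x : ℝ => some x) (p_CON ℝ ℝ).2.2.1 hcc
  exact lf0 hf hso (add0 (div0 (sub0 (sub0 hnf hnl) (mul0 (mul0 two0 hcc)
    (sub0 (snd0 hf) (snd0 hl)))) (mul0 two0 (sub0 (fst0 hf) (fst0 hl)))) (mul0 hsl hcc))
    (neg0 hsl)

end CMKL_

open CMKL_

theorem p_C_MKL (h_AB : T_C_AB) (h_TR : T_C_TR) (h_CUT : T_C_CUT) (h_GEO : T_C_GEO) :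
    T_C_MKL := by
  unfold T_C_MKL
  -- the common bound
  set B : X → ℕ := fun x => (pM x.1 + 1) ^ 2 with hB
  -- the four tangents
  have hen : CB (fun x : X => ((none : Option ℝ), x.2, x.1)) (fun _ => 0) :=
    p0 (CB.nilv none rfl) (p0 CB.snd CB.fst)
  have hT := h_TR (Option ℝ) cutT (fun _ => 0) h_CUT
  have hR1 : CB (fun x : X => tanR (cutT none) x.2 x.1) B := by
    refine (CB.comp (f := fun x : Option ℝ × P × List (TR ℝ) => tanR (cutT x.1) x.2.1 x.2.2)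
      hT.1 hen).mono 1 (fun x => ?_)
    simp only [hB]
    nlinarith [Nat.zero_le (pM x.1)]
  have hL1 : CB (fun x : X => tanL (cutT none) x.2 x.1) B := by
    refine (CB.comp (f := fun x : Option ℝ × P × List (TR ℝ) => tanL (cutT x.1) x.2.1 x.2.2)
      hT.2 hen).mono 1 (fun x => ?_)
    simp only [hB]
    nlinarith [Nat.zero_le (pM x.1)]
  have hO : Orc (E := X) (fun x r => !aliveB x.1 x.2 r) (fun x => pM x.1) := by
    have h1 : CB (fun x : X × ℝ => (x.1.1, x.1.2, x.2)) (fun _ => 0) :=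
      p0 (c0 (f := fun x : X => x.1) CB.fst CB.fst) (p0 (c0 (f := fun x : X => x.2) CB.snd CB.fst)
        CB.snd)
    have h2 : CB (fun x : X × ℝ => aliveB x.1.1 x.1.2 x.2) (fun x => 0 + pM x.1.1) :=
      CB.comp (f := fun x : List (TR ℝ) × P × ℝ => aliveB x.1 x.2.1 x.2.2) h_AB h1
    have h3 := (p_BOO (X × ℝ)).2.2.1 _ _ h2
    exact h3.mono 1 (fun x => by simp only; omega)
  have hE : CB (fun x : X => (x, x.2, x.1)) (fun _ => 0) := p0 CB.id (p0 CB.snd CB.fst)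
  have hT2 := h_TR X (fun x r => !aliveB x.1 x.2 r) (fun x => pM x.1) hO
  have hR2 : CB (fun x : X => tanR (fun r => !aliveB x.1 x.2 r) x.2 x.1) B := by
    refine (CB.comp (f := fun y : X × P × List (TR ℝ) =>
      tanR (fun r => !aliveB y.1.1 y.1.2 r) y.2.1 y.2.2) hT2.1 hE).mono 1 (fun x => ?_)
    simp only [hB]
    nlinarith [Nat.zero_le (pM x.1)]
  have hL2 : CB (fun x : X => tanL (fun r => !aliveB x.1 x.2 r) x.2 x.1) B := by
    refine (CB.comp (f := fun y : X × P × List (TR ℝ) =>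
      tanL (fun r => !aliveB y.1.1 y.1.2 r) y.2.1 y.2.2) hT2.2 hE).mono 1 (fun x => ?_)
    simp only [hB]
    nlinarith [Nat.zero_le (pM x.1)]
  -- four nested cases
  have c1 : CB (fun y : X × Lf ℝ => y.1) (fun _ => 0) := CB.fst
  have c2 : CB (fun y : (X × Lf ℝ) × Lf ℝ => y.1.1) (fun _ => 0) :=
    c0 (f := fun y : X × Lf ℝ => y.1) CB.fst CB.fst
  have c3 : CB (fun y : ((X × Lf ℝ) × Lf ℝ) × Lf ℝ => y.1.1.1) (fun _ => 0) :=
    c0 (f := fun y : (X × Lf ℝ) × Lf ℝ => y.1.1) c2 CB.fst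
  have c4 : CB (fun y : (((X × Lf ℝ) × Lf ℝ) × Lf ℝ) × Lf ℝ => y.1.1.1.1) (fun _ => 0) :=
    c0 (f := fun y : ((X × Lf ℝ) × Lf ℝ) × Lf ℝ => y.1.1.1) c3 CB.fst
  have e4 : CB (fun y : (((X × Lf ℝ) × Lf ℝ) × Lf ℝ) × Lf ℝ =>
      spineL y.1.1.1.1.2 y.1.1.1.2.s y.1.1.2.s y.1.2.s y.2.s) (fun _ => 0) := by
    refine spineL0 h_GEO (c0 (f := fun x : X => x.2) CB.snd c4) (site0 ?_) (site0 ?_) (site0 ?_)
      (site0 CB.snd)
    · exact c0 (f := fun y : X × Lf ℝ => y.2) CB.snd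
        (c0 (f := fun y : (X × Lf ℝ) × Lf ℝ => y.1) CB.fst
          (c0 (f := fun y : ((X × Lf ℝ) × Lf ℝ) × Lf ℝ => y.1) CB.fst CB.fst))
    · exact c0 (f := fun y : (X × Lf ℝ) × Lf ℝ => y.2) CB.snd
        (c0 (f := fun y : ((X × Lf ℝ) × Lf ℝ) × Lf ℝ => y.1) CB.fst CB.fst)
    · exact c0 (f := fun y : ((X × Lf ℝ) × Lf ℝ) × Lf ℝ => y.2) CB.snd CB.fst
  have lift : ∀ {Y Z : Type} [Enc Y] [Enc Z] (f : X → Z) (g : Y → X), CB f B →
      CB g (fun _ => 0) → CB (fun y => f (g y)) (fun y => B (g y)) := by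
    intro Y Z _ _ f g hf hg
    exact (CB.comp hf hg).mono 1 (fun x => by omega)
  have s4 := cso (g := fun y : (((X × Lf ℝ) × Lf ℝ) × Lf ℝ) × Lf ℝ =>
      spineL y.1.1.1.1.2 y.1.1.1.2.s y.1.1.2.s y.1.2.s y.2.s)
      (lift (fun x : X => tanR (fun r => !aliveB x.1 x.2 r) x.2 x.1) _ hR2 c3)
      (up _ (deadL0 (c0 (f := fun x : X => x.2) CB.snd c3))) (up _ e4)
  have s3 := cso (lift (fun x : X => tanL (fun r => !aliveB x.1 x.2 r) x.2 x.1) _ hL2 c2)
      (up _ (deadL0 (c0 (f := fun x : X => x.2) CB.snd c2))) s4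
  have s2 := cso (lift (fun x : X => tanR (cutT none) x.2 x.1) _ hR1 c1)
      (up _ (deadL0 (c0 (f := fun x : X => x.2) CB.snd c1))) s3
  have s1 := cso hL1 (up _ (deadL0 CB.snd)) s2
  refine s1.congr (fun x => ?_)
  unfold mkLf
  dsimp only
  cases tanL (cutT none) x.2 x.1 with
  | none => rfl
  | some pr =>
    cases tanR (cutT none) x.2 x.1 with
    | none => rfl
    | some su =>
      dsimp only
      cases tanL (fun r => !aliveB x.1 x.2 r) x.2 x.1 with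
      | none => rfl
      | some l =>
        cases tanR (fun r => !aliveB x.1 x.2 r) x.2 x.1 with
        | none => rfl
        | some r => rfl

end Pool.Agent.EVD
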