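import Pool.Agent.EVD.TC
import Pool.Agent.EVD.P_RS1
import Pool.Agent.EVD.P_CON
import Pool.Agent.EVD.P_CSL
import Pool.Agent.EVD.P_REA
import Pool.Agent.EVD.P_INJ

/-! # EVD: time of `mrg` -/

set_option autoImplicit false

namespace Pool.Agent.EVD

namespace CMRG_

section
variable {α β γ : Type} [Enc α] [Enc β] [Enc γ]

theorem cmp {f : β → γ} {g : α → β} (hf : CB f (fun _ => 0)) (hg : CB g (fun _ => 0)) :
    CB (fun x => f (g x)) (fun _ => 0) :=
  (hf.comp hg).mono 1 fun _ => by omega

theorem par {f : α → β} {g : α → γ} (hf : CB f (fun _ => 0)) (hg : CB g (fun _ => 0)) :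
    CB (fun x => (f x, g x)) (fun _ => 0) :=
  (hf.pair hg).mono 1 fun _ => by omega

theorem f1 {f : α → β × γ} (hf : CB f (fun _ => 0)) : CB (fun x => (f x).1) (fun _ => 0) :=
  cmp CB.fst hf

theorem f2 {f : α → β × γ} (hf : CB f (fun _ => 0)) : CB (fun x => (f x).2) (fun _ => 0) :=
  cmp CB.snd hf

end

/-- one step of the recursion -/
noncomputable def q (x : List P × List P) : List P ⊕ ((List P × List P) × P) :=
  match x.1 with
  | [] => Sum.inl x.2
  | a :: l => match x.2 with
    | [] => Sum.inl x.1
    | b :: m => if decide (a.1 < b.1) then Sum.inr ((l, x.2), a) else Sum.inr ((x.1, m), b)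

/-- the last branch -/
theorem q3 : CB (fun z : ((List P × List P) × P × List P) × P × List P =>
    if decide (z.1.2.1.1 < z.2.1.1) then
      (Sum.inr ((z.1.2.2, z.1.1.2), z.1.2.1) : List P ⊕ ((List P × List P) × P))
    else Sum.inr ((z.1.1.1, z.2.2), z.2.1)) (fun _ => 0) := by
  have i : CB (fun z : ((List P × List P) × P × List P) × P × List P => z) (fun _ => 0) := CB.id
  have ht := (p_REA (((List P × List P) × P × List P) × P × List P)
    (fun z => z.1.2.1.1) (fun z => z.2.1.1) (fun _ => 0) (fun _ => 0)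
    (f1 (f1 (f2 (f1 i)))) (f1 (f1 (f2 i)))).2.2.2.2.2.2.2.2.1
  have hi := (p_INJ (List P) ((List P × List P) × P)).2
  have h1 := cmp hi (par (par (f2 (f2 (f1 i))) (f2 (f1 (f1 i)))) (f1 (f2 (f1 i))))
  have h2 := cmp hi (par (par (f1 (f1 (f1 i))) (f2 (f2 i))) (f1 (f2 i)))
  refine (CB.ite ht h1 h2).mono 1 fun x => ?_
  split <;> omega

theorem q2 : CB (fun z : (List P × List P) × P × List P => match z.1.2 with
    | [] => (Sum.inl z.1.1 : List P ⊕ ((List P × List P) × P))
    | b :: m => if decide (z.2.1.1 < b.1) then Sum.inr ((z.2.2, z.1.2), z.2.1)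
      else Sum.inr ((z.1.1, m), b)) (fun _ => 0) := by
  have i : CB (fun z : (List P × List P) × P × List P => z) (fun _ => 0) := CB.id
  have h := p_CSL ((List P × List P) × P × List P) P (List P ⊕ ((List P × List P) × P))
    (fun z => z.1.2) (fun z => Sum.inl z.1.1) _ _ _ _ (f2 (f1 i))
    (cmp (p_INJ (List P) ((List P × List P) × P)).1 (f1 (f1 i))) q3
  refine CB.congr (h.mono (B' := fun _ => 0) 1 fun z => ?_) fun z => ?_
  · split <;> omega
  · rcases z with ⟨⟨l, m⟩, a, l'⟩
    cases m <;> rfl

theorem cq : CB q (fun _ => 0) := by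
  have i : CB (fun z : List P × List P => z) (fun _ => 0) := CB.id
  have h := p_CSL (List P × List P) P (List P ⊕ ((List P × List P) × P))
    (fun z => z.1) (fun z => Sum.inl z.2) _ _ _ _ (f1 i)
    (cmp (p_INJ (List P) ((List P × List P) × P)).1 (f2 i)) q2
  refine CB.congr (h.mono (B' := fun _ => 0) 1 fun z => ?_) fun z => ?_
  · split <;> omega
  · rcases z with ⟨l, m⟩
    cases l with
    | nil => rfl
    | cons a l => cases m <;> rfl

end CMRG_

open CMRG_ in
theorem p_C_MRG : T_C_MRG := by
  refine p_RS1 (List P × List P) (List P) P (fun x => mrg x.1 x.2) q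
    (fun x => x.1 :: x.2) (fun _ => 0) (fun x => x.1.length + x.2.length) (fun _ => 0) cq
    (p_CON P Unit).1 ?_ ?_ ?_
  · rintro ⟨l, m⟩
    cases l with
    | nil => simp [q, mrg]
    | cons a l =>
      cases m with
      | nil => simp [q, mrg]
      | cons b m =>
        by_cases h : a.1 < b.1 <;> simp [q, mrg, h]
  · intro x b _
    exact Nat.zero_le _
  · rintro ⟨l, m⟩ y z h
    cases l with
    | nil => simp [q] at h
    | cons a l =>
      cases m with
      | nil => simp [q] at h
      | cons b m =>
        by_cases h' : a.1 < b.1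
        · simp only [q, h', decide_true, if_true, Sum.inr.injEq, Prod.mk.injEq] at h
          obtain ⟨rfl, rfl⟩ := h
          simp only [List.length_cons]
          omega
        · simp only [q, h', decide_false, Bool.false_eq_true, if_false, Sum.inr.injEq,
            Prod.mk.injEq] at h
          obtain ⟨rfl, rfl⟩ := h
          simp only [List.length_cons]
          omega

end Pool.Agent.EVD
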