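import Pool.Agent.EVD.TC

/-! # EVD: T_C_NOD (time of mkNode) -/

namespace Pool.Agent.EVD

theorem CNOD_c0 {α β γ : Type} [Enc α] [Enc β] [Enc γ] {f : β → γ} {g : α → β}
    (hf : CB f (fun _ => 0)) (hg : CB g (fun _ => 0)) : CB (fun x => f (g x)) (fun _ => 0) :=
  CB.comp hf hg

theorem CNOD_p0 {α β γ : Type} [Enc α] [Enc β] [Enc γ] {f : α → β} {g : α → γ}
    (hf : CB f (fun _ => 0)) (hg : CB g (fun _ => 0)) : CB (fun x => (f x, g x)) (fun _ => 0) :=
  CB.pair hf hg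

theorem CNOD_len (D : ℝ → Bool) (t : TR ℝ) (x' : ℝ) :
    ∀ (n : ℕ) (x : ℝ), (nexts D t x' n x).length ≤ n := by
  intro n
  induction n with
  | zero => intro x; simp [nexts]
  | succ n ih =>
      intro x
      simp only [nexts]
      cases firstGt D x t with
      | none => simp
      | some e =>
          simp only
          split_ifs
          · simp only [List.length_cons]
            have := ih e.s.1
            omega
          · simp

theorem p_C_NOD (h_MK : T_C_MK) (h_NXT : T_C_NXT) (h_CUT : T_C_CUT) : T_C_NOD := by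
  unfold T_C_NOD
  -- projections
  have s1 : CB (fun x : List (TR ℝ) × Option (TR ℝ) × TR ℝ × Option ℝ × P × P × P => x.2)
      (fun _ => 0) := CB.snd
  have e1 : CB (fun x : List (TR ℝ) × Option (TR ℝ) × TR ℝ × Option ℝ × P × P × P => x.1)
      (fun _ => 0) := CB.fst
  have e2 := CNOD_c0 (CB.fst (α := Option (TR ℝ)) (β := TR ℝ × Option ℝ × P × P × P)) s1
  have s2 := CNOD_c0 (CB.snd (α := Option (TR ℝ)) (β := TR ℝ × Option ℝ × P × P × P)) s1
  have e3 := CNOD_c0 (CB.fst (α := TR ℝ) (β := Option ℝ × P × P × P)) s2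
  have s3 := CNOD_c0 (CB.snd (α := TR ℝ) (β := Option ℝ × P × P × P)) s2
  have e4 := CNOD_c0 (CB.fst (α := Option ℝ) (β := P × P × P)) s3
  have s4 := CNOD_c0 (CB.snd (α := Option ℝ) (β := P × P × P)) s3
  have e5 := CNOD_c0 (CB.fst (α := P) (β := P × P)) s4
  have s5 := CNOD_c0 (CB.snd (α := P) (β := P × P)) s4
  have e6 := CNOD_c0 (CB.fst (α := P) (β := P)) s5
  have e7 := CNOD_c0 (CB.snd (α := P) (β := P)) s5
  have a6 := CNOD_c0 (CB.fst (α := ℝ) (β := ℝ)) e6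
  have a7 := CNOD_c0 (CB.fst (α := ℝ) (β := ℝ)) e7
  have hn := CB.comp (h_NXT (Option ℝ) cutT (fun _ => 0) 4 h_CUT)
    (CNOD_p0 e4 (CNOD_p0 e3 (CNOD_p0 a7 a6)))
  have hg := CB.pair (CNOD_p0 e1 (CNOD_p0 e2 (CNOD_p0 e4 e7)))
    (CB.pair hn (CNOD_p0 e6 (CNOD_p0 e4 e5)))
  have hm := CB.comp h_MK hg
  refine (CB.mono hm 17 ?_ : CB _ (fun x : List (TR ℝ) × Option (TR ℝ) × TR ℝ × Option ℝ × P ×
    P × P => cC x.1 x.2.1 + (x.2.2.1.dep + 1) ^ 2)).congr ?_
  · intro x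
    simp only
    have h1 := CNOD_len (cutT x.2.2.2.1) x.2.2.1 x.2.2.2.2.2.2.1 4 x.2.2.2.2.2.1.1
    have h2 : 2 ^ (nexts (cutT x.2.2.2.1) x.2.2.1 x.2.2.2.2.2.2.1 4 x.2.2.2.2.2.1.1).length ≤
        2 ^ 4 := Nat.pow_le_pow_right (by norm_num) h1
    have h3 := Nat.mul_le_mul_right (cC x.1 x.2.1 + 1) h2
    generalize (x.2.2.1.dep + 1) ^ 2 = A at *
    generalize cC x.1 x.2.1 = C at *
    omega
  · intro x
    rfl

end Pool.Agent.EVD
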