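import Pool.Agent.EVD.TC
import Pool.Agent.EVD.P_CSO
import Pool.Agent.EVD.P_CON
import Pool.Agent.EVD.P_FLD
import Pool.Agent.EVD.P_REA

/-! # EVD, job C_NXT -/

set_option autoImplicit false

namespace Pool.Agent.EVD

theorem p_C_NXT (hLL : T_C_LL) : T_C_NXT := by
  intro E _ D c n hD
  have hfg := (hLL E D c hD).2
  have hcons := (p_CON (Lf ℝ) (E × TR ℝ × ℝ × ℝ)).2.1
  induction n with
  | zero =>
    refine (CB.congr (hcons.mono (B' := fun x => (c x.1 + 1) * (x.2.1.dep + 1) ^ 2) 1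
      (fun x => by simp)) (fun x => ?_))
    rfl
  | succ n ih =>
    -- the option
    have e1 : CB (fun x : E × TR ℝ × ℝ × ℝ => x.1) (fun _ => 0) := CB.fst
    have e2 : CB (fun x : E × TR ℝ × ℝ × ℝ => x.2.1) (fun _ => 0) := CB.fst.comp CB.snd
    have e3 : CB (fun x : E × TR ℝ × ℝ × ℝ => x.2.2.1) (fun _ => 0) :=
      CB.fst.comp (CB.snd.comp CB.snd)
    have e4 : CB (fun x : E × TR ℝ × ℝ × ℝ => x.2.2.2) (fun _ => 0) :=
      CB.snd.comp (CB.snd.comp CB.snd)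
    have e5 := hfg.comp (e1.pair (e4.pair e2))
    -- the branch
    have f1 : CB (fun y : (E × TR ℝ × ℝ × ℝ) × Lf ℝ => y.2) (fun _ => 0) := CB.snd
    have f2 : CB (fun y : (E × TR ℝ × ℝ × ℝ) × Lf ℝ => y.2.s) (fun _ => 0) :=
      p_FLD.1.comp f1
    have f3 : CB (fun y : (E × TR ℝ × ℝ × ℝ) × Lf ℝ => y.2.s.1) (fun _ => 0) :=
      CB.fst.comp f2
    have f4 : CB (fun y : (E × TR ℝ × ℝ × ℝ) × Lf ℝ => y.1.1) (fun _ => 0) := e1.comp CB.fst
    have f5 : CB (fun y : (E × TR ℝ × ℝ × ℝ) × Lf ℝ => y.1.2.1) (fun _ => 0) := e2.comp CB.fst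
    have f6 : CB (fun y : (E × TR ℝ × ℝ × ℝ) × Lf ℝ => y.1.2.2.1) (fun _ => 0) :=
      e3.comp CB.fst
    have f7 := ih.comp (f4.pair (f5.pair (f6.pair f3)))
    have f8 := (p_CON (Lf ℝ) (E × TR ℝ × ℝ × ℝ)).1.comp (f1.pair f7)
    have f9 := (p_CON (Lf ℝ) ((E × TR ℝ × ℝ × ℝ) × Lf ℝ)).2.1
    have f10 := (p_REA _ _ _ _ _ f3 f6).2.2.2.2.2.2.2.2.1
    have f11 := CB.ite f10 f8 f9
    have key := p_CSO _ _ _ _ _ _ _ _ _ e5 hcons f11
    refine CB.congr (key.mono (B' := fun x => (c x.1 + 1) * (x.2.1.dep + 1) ^ 2) 2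
      (fun x => ?_)) (fun x => ?_)
    · dsimp only
      generalize (c x.1 + 1) * (x.2.1.dep + 1) ^ 2 = a
      cases firstGt (D x.1) x.2.2.2 x.2.1 with
      | none => simp only [Nat.zero_add, Nat.add_zero]; omega
      | some b => simp only [Nat.zero_add, Nat.add_zero]; split <;> omega
    · dsimp only
      rw [nexts]
      cases firstGt (D x.1) x.2.2.2 x.2.1 with
      | none => rfl
      | some b => simp only [decide_eq_true_eq]

end Pool.Agent.EVD
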