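import Pool.Agent.EVD.TC
import Pool.Agent.EVD.P_RS1
import Pool.Agent.EVD.P_INJ
import Pool.Agent.EVD.P_CSL
import Pool.Agent.EVD.P_CSO
import Pool.Agent.EVD.P_CON
import Pool.Agent.EVD.P_FLD

/-! # EVD-C-PAR: time of consO, partsOf, lowC, lowT (helper62) -/

namespace Pool.Agent.EVD

namespace CPAR_

theorem cons_o : CB (fun x : Option (TR ℝ) × List (TR ℝ) => consO x.1 x.2) (fun _ => 0) := by
  have hg : CB (fun x : (Option (TR ℝ) × List (TR ℝ)) × TR ℝ => x.2 :: x.1.2) (fun _ => 0) :=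
    (CB.comp (p_CON (TR ℝ) Unit).1 (CB.pair CB.snd (CB.comp CB.snd CB.fst))).mono 1
      (by intro x; simp)
  have h := p_CSO (Option (TR ℝ) × List (TR ℝ)) (TR ℝ) (List (TR ℝ)) (fun x => x.1)
    (fun x => x.2) _ _ _ _ CB.fst CB.snd hg
  refine (h.mono 1 ?_).congr ?_
  · rintro ⟨o, l⟩
    cases o <;> simp
  · rintro ⟨o, l⟩
    cases o <;> rfl

theorem step : CB (fun l : List (Slot ℝ) => (match l with
    | [] => Sum.inl []
    | s :: rest => Sum.inr (rest, s.part) :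
      List (TR ℝ) ⊕ (List (Slot ℝ) × Option (TR ℝ)))) (fun _ => 0) := by
  have hf : CB (fun _ : List (Slot ℝ) =>
      (Sum.inl [] : List (TR ℝ) ⊕ (List (Slot ℝ) × Option (TR ℝ)))) (fun _ => 0) :=
    (CB.comp (p_INJ (List (TR ℝ)) (List (Slot ℝ) × Option (TR ℝ))).1
      (p_CON (TR ℝ) (List (Slot ℝ))).2.1).mono 1 (by intro x; simp)
  have hg : CB (fun x : List (Slot ℝ) × Slot ℝ × List (Slot ℝ) =>
      (Sum.inr (x.2.2, x.2.1.part) : List (TR ℝ) ⊕ (List (Slot ℝ) × Option (TR ℝ))))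
      (fun _ => 0) :=
    (CB.comp (p_INJ (List (TR ℝ)) (List (Slot ℝ) × Option (TR ℝ))).2
      (CB.pair (CB.comp CB.snd CB.snd) (CB.comp p_FLD.2.2.2.2.2.2.2.2.1
        (CB.comp CB.fst CB.snd)))).mono 1 (by intro x; simp)
  have h := p_CSL (List (Slot ℝ)) (Slot ℝ) (List (TR ℝ) ⊕ (List (Slot ℝ) × Option (TR ℝ)))
    (fun x => x) _ _ _ _ _ CB.id hf hg
  refine (h.mono 1 ?_).congr ?_
  · intro l
    cases l <;> simp
  · intro l
    cases l <;> rfl

end CPAR_

open CPAR_ in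
theorem p_C_PAR : T_C_PAR := by
  refine ⟨cons_o, ?_, ?_, ?_⟩
  · refine p_RS1 (List (Slot ℝ)) (List (TR ℝ)) (Option (TR ℝ)) (fun x => partsOf x) _
      (fun z => consO z.1 z.2) _ _ _ step cons_o ?_ ?_ ?_
    · intro l
      cases l <;> rfl
    · intro l b hb
      simp
    · intro l y z hl
      cases l with
      | nil => simp at hl
      | cons s rest =>
        simp only [Sum.inr.injEq, Prod.mk.injEq] at hl
        rw [← hl.1]
        simp
  · have h := p_CSL (List (Slot ℝ)) (Slot ℝ) (List P) (fun x => x) (fun _ => [])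
      (fun x => x.2.1.C) _ _ _ CB.id (p_CON P (List (Slot ℝ))).2.1
      (CB.comp p_FLD.2.2.2.2.2.2.2.2.2.2.1 (CB.comp CB.fst CB.snd))
    refine (h.mono 1 ?_).congr ?_
    · intro l
      cases l <;> simp
    · intro l
      cases l <;> rfl
  · have h := p_CSL (List (Slot ℝ)) (Slot ℝ) (Option (TR ℝ)) (fun x => x) (fun _ => none)
      (fun x => x.2.1.ct) _ _ _ CB.id (p_CON (TR ℝ) (List (Slot ℝ))).2.2.2
      (CB.comp p_FLD.2.2.2.2.2.2.2.2.2.2.2.1 (CB.comp CB.fst CB.snd))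
    refine (h.mono 1 ?_).congr ?_
    · intro l
      cases l <;> simp
    · intro l
      cases l <;> rfl

end Pool.Agent.EVD
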