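import Pool.Agent.EVD.TC
import Pool.Agent.EVD.P_CSO
import Pool.Agent.EVD.P_CON
import Pool.Agent.EVD.P_FLD
import Pool.Agent.EVD.P_REA

/-! # EVD: running time of `pick`, `pickU` (`T_C_PK`) -/

set_option autoImplicit false

namespace Pool.Agent.EVD

namespace CPK_

variable {E : Type} [Enc E]

/-- case analysis on two options -/
theorem cases2 {h : E → Lf ℝ → Lf ℝ → Option (Lf ℝ)} {g : E → ℕ}
    (hh : CB (fun x : E × Lf ℝ × Lf ℝ => h x.1 x.2.1 x.2.2) (fun x => g x.1)) :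
    CB (fun x : E × Option (Lf ℝ) × Option (Lf ℝ) => match x.2.1 with
      | none => x.2.2
      | some a => match x.2.2 with
        | none => some a
        | some b => h x.1 a b) (fun x => g x.1) := by
  -- the inner case analysis, in the environment `x` and the element `a`
  have e1 : CB (fun z : (E × Option (Lf ℝ) × Option (Lf ℝ)) × Lf ℝ => z.1.2.2) (fun _ => 0) :=
    (CB.comp CB.snd (CB.comp CB.snd CB.fst)).mono 1 fun _ => by simp
  have e2 : CB (fun z : (E × Option (Lf ℝ) × Option (Lf ℝ)) × Lf ℝ => some z.2) (fun _ => 0) :=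
    (CB.comp (p_CON (Lf ℝ) Unit).2.2.1 CB.snd).mono 1 fun _ => by simp
  have e3 : CB (fun z : ((E × Option (Lf ℝ) × Option (Lf ℝ)) × Lf ℝ) × Lf ℝ =>
      h z.1.1.1 z.1.2 z.2) (fun z => g z.1.1.1) := by
    have e4 : CB (fun z : ((E × Option (Lf ℝ) × Option (Lf ℝ)) × Lf ℝ) × Lf ℝ =>
        (z.1.1.1, z.1.2, z.2)) (fun _ => 0) :=
      (CB.pair (CB.comp CB.fst (CB.comp CB.fst CB.fst))
        (CB.pair (CB.comp CB.snd CB.fst) CB.snd)).mono 1 fun _ => by simp
    exact (CB.comp hh e4).mono 1 fun z => by simp only; omega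
  have e5 := p_CSO _ _ _ _ _ _ _ _ _ e1 e2 e3
  have e6 : CB (fun x : E × Option (Lf ℝ) × Option (Lf ℝ) => x.2.1) (fun _ => 0) :=
    (CB.comp CB.fst CB.snd).mono 1 fun _ => by simp
  have e7 : CB (fun x : E × Option (Lf ℝ) × Option (Lf ℝ) => x.2.2) (fun _ => 0) :=
    (CB.comp CB.snd CB.snd).mono 1 fun _ => by simp
  have e8 := p_CSO _ _ _ _ _ _ _ _ _ e6 e7 e5
  refine (e8.mono 1 fun x => ?_).congr fun x => ?_
  · obtain ⟨e, a, b⟩ := x
    cases a <;> cases b <;> simp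
  · obtain ⟨e, a, b⟩ := x
    cases a <;> cases b <;> rfl

/-- a choice between two elements -/
theorem sel {t : E → Lf ℝ → Lf ℝ → Bool} {f1 f2 : E → Lf ℝ → Lf ℝ → Lf ℝ} {g : E → ℕ}
    (ht : CB (fun x : E × Lf ℝ × Lf ℝ => t x.1 x.2.1 x.2.2) (fun x => g x.1))
    (h1 : CB (fun x : E × Lf ℝ × Lf ℝ => f1 x.1 x.2.1 x.2.2) (fun _ => 0))
    (h2 : CB (fun x : E × Lf ℝ × Lf ℝ => f2 x.1 x.2.1 x.2.2) (fun _ => 0)) :
    CB (fun x : E × Lf ℝ × Lf ℝ => if t x.1 x.2.1 x.2.2 then some (f1 x.1 x.2.1 x.2.2)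
      else some (f2 x.1 x.2.1 x.2.2)) (fun x => g x.1) := by
  have h3 := CB.comp (p_CON (Lf ℝ) Unit).2.2.1 h1
  have h4 := CB.comp (p_CON (Lf ℝ) Unit).2.2.1 h2
  exact (CB.ite ht h3 h4).mono 1 fun x => by simp

theorem c1 : CB (fun x : E × Lf ℝ × Lf ℝ => x.2.1) (fun _ => 0) :=
  (CB.comp CB.fst CB.snd).mono 1 fun _ => by simp

theorem c2 : CB (fun x : E × Lf ℝ × Lf ℝ => x.2.2) (fun _ => 0) :=
  (CB.comp CB.snd CB.snd).mono 1 fun _ => by simp

end CPK_

open CPK_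

theorem p_C_PK : T_C_PK := by
  intro E _ go g hg
  have hgo : CB (fun x : E × Lf ℝ × Lf ℝ => go x.1 x.2.1 x.2.2) (fun x => g x.1) := hg
  have hgo' : CB (fun x : E × Lf ℝ × Lf ℝ => go x.1 x.2.2 x.2.1) (fun x => g x.1) :=
    (CB.comp hgo (CB.pair CB.fst (CB.pair (c2 (E := E)) c1))).mono 1 fun x => by
      simp only; omega
  have s1 := sel (t := go) (g := g) (f1 := fun _ a _ => a) (f2 := fun _ _ b => b) hgo c1 c2
  have s2 := sel (t := fun e a b => go e b a) (g := g) (f1 := fun _ _ b => b)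
    (f2 := fun _ a _ => a) hgo' c2 c1
  refine ⟨(cases2 (h := fun e a b => if go e a b then some a else some b) s1).congr
    fun x => ?_, ?_⟩
  · obtain ⟨e, a, b⟩ := x
    cases a <;> cases b <;> rfl
  · have hlt : CB (fun x : E × Lf ℝ × Lf ℝ => decide (x.2.1.s.1 < x.2.2.s.1)) (fun _ => 0) := by
      have h1 : CB (fun x : E × Lf ℝ × Lf ℝ => x.2.1.s.1) (fun _ => 0) :=
        (CB.comp CB.fst (CB.comp p_FLD.1 c1)).mono 1 fun _ => by simp
      have h2 : CB (fun x : E × Lf ℝ × Lf ℝ => x.2.2.s.1) (fun _ => 0) :=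
        (CB.comp CB.fst (CB.comp p_FLD.1 c2)).mono 1 fun _ => by simp
      exact (p_REA _ _ _ _ _ h1 h2).2.2.2.2.2.2.2.2.1.mono 1 fun _ => by simp
    have s3 : CB (fun x : E × Lf ℝ × Lf ℝ => if decide (x.2.1.s.1 < x.2.2.s.1) then
        (if go x.1 x.2.1 x.2.2 then some x.2.1 else some x.2.2)
        else (if go x.1 x.2.2 x.2.1 then some x.2.2 else some x.2.1)) (fun x => g x.1) :=
      (CB.ite hlt s1 s2).mono 1 fun x => by simp
    refine (cases2 (h := fun e a b => if decide (a.s.1 < b.s.1) then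
        (if go e a b then some a else some b)
        else (if go e b a then some b else some a)) s3).congr fun x => ?_
    obtain ⟨e, a, b⟩ := x
    cases a <;> cases b <;> simp [pickU]

end Pool.Agent.EVD
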