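import Pool.Agent.EVD.TC
import Pool.Agent.EVD.P_RS1
import Pool.Agent.EVD.P_CSL
import Pool.Agent.EVD.P_INJ
import Pool.Agent.EVD.P_CON

/-! # EVD: time of pairUp -/

set_option autoImplicit false

namespace Pool.Agent.EVD

namespace CPU_

abbrev L : Type := List (TR ℝ)

/-- the inner case analysis -/
noncomputable def q2 (y : L × TR ℝ × L) : L ⊕ (L × TR ℝ) :=
  match y.2.2 with
  | [] => Sum.inl y.1
  | b :: t => Sum.inr (t, join y.2.1 b)

/-- the case analysis -/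
noncomputable def q (l : L) : L ⊕ (L × TR ℝ) :=
  match l with
  | [] => Sum.inl l
  | a :: l' => q2 (l, a, l')

theorem cb_q2 (h_JN : T_C_JN) : CB q2 (fun _ => 0) := by
  have hj := h_JN.2.2
  have ht : CB (fun y : L × TR ℝ × L => y.2.2) (fun _ => 0) :=
    (CB.comp (f := fun z : TR ℝ × L => z.2) (g := fun y : L × TR ℝ × L => y.2)
      CB.snd CB.snd).mono 0 (by simp)
  have hf : CB (fun y : L × TR ℝ × L => (Sum.inl y.1 : L ⊕ (L × TR ℝ))) (fun _ => 0) :=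
    (CB.comp (f := fun z : L => (Sum.inl z : L ⊕ (L × TR ℝ))) (g := fun y : L × TR ℝ × L => y.1)
      (p_INJ _ _).1 CB.fst).mono 0 (by simp)
  have h1 : CB (fun y : (L × TR ℝ × L) × TR ℝ × L => y.2.1) (fun _ => 0) :=
    (CB.comp (f := fun z : TR ℝ × L => z.1) (g := fun y : (L × TR ℝ × L) × TR ℝ × L => y.2)
      CB.fst CB.snd).mono 0 (by simp)
  have h2 : CB (fun y : (L × TR ℝ × L) × TR ℝ × L => y.2.2) (fun _ => 0) :=
    (CB.comp (f := fun z : TR ℝ × L => z.2) (g := fun y : (L × TR ℝ × L) × TR ℝ × L => y.2)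
      CB.snd CB.snd).mono 0 (by simp)
  have h3 : CB (fun y : L × TR ℝ × L => y.2.1) (fun _ => 0) :=
    (CB.comp (f := fun z : TR ℝ × L => z.1) (g := fun y : L × TR ℝ × L => y.2)
      CB.fst CB.snd).mono 0 (by simp)
  have h4 : CB (fun y : (L × TR ℝ × L) × TR ℝ × L => y.1.2.1) (fun _ => 0) :=
    (CB.comp (g := fun y : (L × TR ℝ × L) × TR ℝ × L => y.1) h3 CB.fst).mono 0 (by simp)
  have h5 : CB (fun y : (L × TR ℝ × L) × TR ℝ × L => join y.1.2.1 y.2.1) (fun _ => 0) :=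
    (CB.comp (f := fun z : TR ℝ × TR ℝ => join z.1 z.2) hj (CB.pair h4 h1)).mono 0 (by simp)
  have hg : CB (fun y : (L × TR ℝ × L) × TR ℝ × L =>
      (Sum.inr (y.2.2, join y.1.2.1 y.2.1) : L ⊕ (L × TR ℝ))) (fun _ => 0) :=
    (CB.comp (f := fun z : L × TR ℝ => (Sum.inr z : L ⊕ (L × TR ℝ))) (p_INJ _ _).2
      (CB.pair h2 h5)).mono 0 (by simp)
  have h := p_CSL _ _ _ _ _ _ _ _ _ ht hf hg
  refine (h.mono (B' := fun _ => 0) 0 ?_).congr ?_
  · intro x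
    rcases x.2.2 with _ | ⟨b, t⟩ <;> simp
  · rintro ⟨y, a, _ | ⟨b, t⟩⟩ <;> rfl

theorem cb_q (h_JN : T_C_JN) : CB q (fun _ => 0) := by
  have hf : CB (fun y : L => (Sum.inl y : L ⊕ (L × TR ℝ))) (fun _ => 0) := (p_INJ _ _).1
  have h := p_CSL _ _ _ _ _ _ _ _ _ (CB.id (α := L)) hf (cb_q2 h_JN)
  refine (h.mono (B' := fun _ => 0) 0 ?_).congr ?_
  · intro x
    rcases x with _ | ⟨b, t⟩ <;> simp
  · rintro (_ | ⟨b, t⟩) <;> rfl

end CPU_

open CPU_ in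
theorem p_C_PU (h_JN : T_C_JN) : T_C_PU := by
  have hc : CB (fun x : TR ℝ × L => x.1 :: x.2) (fun _ => 0) := (p_CON (TR ℝ) Unit).1
  refine p_RS1 L L (TR ℝ) _ q _ _ _ _ (cb_q h_JN) hc ?_ ?_ ?_
  · intro x
    rcases x with _ | ⟨a, _ | ⟨b, t⟩⟩
    · simp [pairUp, q]
    · simp [pairUp, q, q2]
    · simp [pairUp, q, q2]
  · intro x b _
    simp
  · intro x y z h
    rcases x with _ | ⟨a, _ | ⟨b, t⟩⟩
    · simp [q] at h
    · simp [q, q2] at h
    · simp only [q, q2, Sum.inr.injEq, Prod.mk.injEq] at h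
      obtain ⟨rfl, _⟩ := h
      simp

end Pool.Agent.EVD
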