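import Pool.Agent.EVD.TC
import Pool.Agent.EVD.P_CSO
import Pool.Agent.EVD.P_CON
import Pool.Agent.EVD.P_FLD
import Pool.Agent.EVD.P_REA

/-! # EVD: time of a query -/

set_option autoImplicit false

namespace Pool.Agent.EVD

namespace CQRY_

/-- the environment: input and structure -/
abbrev Y : Type := (Option (Top ℝ) × P) × Top ℝ

section
variable {α β γ : Type} [Enc α] [Enc β] [Enc γ]

/-- composition without costs -/
theorem cz {f : β → γ} {g : α → β} (hf : CB f (fun _ => 0)) (hg : CB g (fun _ => 0)) :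
    CB (fun x => f (g x)) (fun _ => 0) :=
  (hf.comp hg).mono 1 (fun _ => by simp)

/-- pair without costs -/
theorem pz {f : α → β} {g : α → γ} (hf : CB f (fun _ => 0)) (hg : CB g (fun _ => 0)) :
    CB (fun x => (f x, g x)) (fun _ => 0) :=
  (hf.pair hg).mono 1 (fun _ => by simp)

/-- case distinction without costs -/
theorem iz {t : α → Bool} {f g : α → β} (ht : CB t (fun _ => 0)) (hf : CB f (fun _ => 0))
    (hg : CB g (fun _ => 0)) : CB (fun x => if t x then f x else g x) (fun _ => 0) :=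
  (CB.ite ht hf hg).mono 1 (fun x => by simp)

end

/-- the starting candidate -/
noncomputable def b0 (y : Y) : P := if decide (dsq y.1.2 y.2.e < dsq y.1.2 y.2.w) then y.2.e else y.2.w

/-- the candidate after the upper chain -/
noncomputable def b1 (y : Y) : P := y.2.up.q.find y.1.2 (b0 y)

/-- the result -/
noncomputable def b2 (y : Y) : P := y.2.lo.q.find (mir y.1.2) (mir (b1 y))

end CQRY_

open CQRY_ in
theorem p_C_QRY (h_FIN : T_C_FIN) (h_GEO : T_C_GEO) : T_C_QRY := by
  obtain ⟨_, hdsq, _, _, hmir⟩ := h_GEO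
  have hF := p_FLD
  obtain ⟨_, _, _, _, _, _, _, _, _, _, _, _, _, hcq, _, _, htw, hte, htu, htl, _⟩ := hF
  have hq : CB (fun y : Y => y.1.2) (fun _ => 0) := cz CB.snd CB.fst
  have ht : CB (fun y : Y => y.2) (fun _ => 0) := CB.snd
  have he : CB (fun y : Y => y.2.e) (fun _ => 0) := cz hte ht
  have hw : CB (fun y : Y => y.2.w) (fun _ => 0) := cz htw ht
  have hu : CB (fun y : Y => y.2.up.q) (fun _ => 0) := cz hcq (cz htu ht)
  have hl : CB (fun y : Y => y.2.lo.q) (fun _ => 0) := cz hcq (cz htl ht)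
  have hd1 : CB (fun y : Y => dsq y.1.2 y.2.e) (fun _ => 0) := cz hdsq (pz hq he)
  have hd2 : CB (fun y : Y => dsq y.1.2 y.2.w) (fun _ => 0) := cz hdsq (pz hq hw)
  have hlt : CB (fun y : Y => decide (dsq y.1.2 y.2.e < dsq y.1.2 y.2.w)) (fun _ => 0) :=
    ((p_REA Y _ _ _ _ hd1 hd2).2.2.2.2.2.2.2.2.1).mono 1 (fun _ => by simp)
  have hb0 : CB b0 (fun _ => 0) := iz hlt he hw
  have hb1 : CB b1 (fun y => y.2.up.q.dep) :=
    (h_FIN.comp (pz hu (pz hq hb0))).mono 1 (fun y => by
      show 0 + y.2.up.q.dep ≤ _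
      omega)
  have hmb1 : CB (fun y => mir (b1 y)) (fun y => y.2.up.q.dep) :=
    (hmir.comp hb1).mono 1 (fun y => by
      show y.2.up.q.dep + 0 ≤ _
      omega)
  have hb2 : CB b2 (fun y => y.2.up.q.dep + y.2.lo.q.dep) :=
    (h_FIN.comp (hl.pair ((cz hmir hq).pair hmb1))).mono 1 (fun y => by
      show 0 + (0 + y.2.up.q.dep) + y.2.lo.q.dep ≤ _
      omega)
  have hmb2 : CB (fun y => mir (b2 y)) (fun y => y.2.up.q.dep + y.2.lo.q.dep) :=
    (hmir.comp hb2).mono 1 (fun y => by
      show y.2.up.q.dep + y.2.lo.q.dep + 0 ≤ _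
      omega)
  have hs : CB (fun y => some (mir (b2 y))) (fun y => y.2.up.q.dep + y.2.lo.q.dep) :=
    ((p_CON P P).2.2.1.comp hmb2).mono 1 (fun y => by
      show y.2.up.q.dep + y.2.lo.q.dep + 0 ≤ _
      omega)
  have hn : CB (fun _ : Option (Top ℝ) × P => (none : Option P)) (fun _ => 0) :=
    (p_CON P (Option (Top ℝ) × P)).2.2.2
  have key := p_CSO (Option (Top ℝ) × P) (Top ℝ) (Option P) (fun x => x.1) _ _ _ _ _ CB.fst hn hs
  refine (key.congr (g := fun x : Option (Top ℝ) × P => qryT x.1 x.2) fun x => ?_).mono 1 fun x => ?_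
  · obtain ⟨t, q⟩ := x
    cases t with
    | none => rfl
    | some t =>
      show some (mir (b2 ((some t, q), t))) = qryT (some t) q
      unfold b2 b1 b0 qryT
      simp only [decide_eq_true_eq]
  · obtain ⟨t, q⟩ := x
    cases t with
    | none => simp
    | some t =>
      show 0 + (t.up.q.dep + t.lo.q.dep) ≤ 1 * (t.up.q.dep + t.lo.q.dep + 1)
      omega

end Pool.Agent.EVD
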