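import Pool.Agent.EVD.TC
import Pool.Agent.EVD.P_FLD

/-! # EVD: T_C_SLT, the time of `mkSlot` (helper95) -/

namespace Pool.Agent.EVD

namespace CSLT_

/-- the arguments of `mkSlot` -/
abbrev X : Type := List P × Option (TR ℝ) × List (Slot ℝ)

noncomputable def ps (x : X) : List (TR ℝ) := consO x.2.1 (partsOf x.2.2)

noncomputable def lst (x : X) : List P := mrg x.1 (lowC x.2.2)

noncomputable def F (x : X) : List (Lf ℝ) := (lst x).map (mkLf (ps x))

noncomputable def C (x : X) : List (Lf ℝ) := levC (ps x) (lowT x.2.2) (F x)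

/-- number of points -/
noncomputable def a (x : X) : ℕ := x.1.length + (lowC x.2.2).length

/-- main part of the time -/
noncomputable def S (x : X) : ℕ := (a x + 1) * ((pM (ps x) + 1) ^ 2 + (odep (lowT x.2.2) + 1) ^ 2 +
  (Nat.clog 2 (a x) + 1) ^ 2 + 1)

theorem cSlot_eq (x : X) : cSlot x.1 x.2.1 x.2.2 = S x + x.2.2.length := rfl

theorem mrg_length (l m : List P) : (mrg l m).length = l.length + m.length := by
  induction l, m using mrg.induct with
  | case1 m => simp [mrg]
  | case2 l _ => cases l <;> simp [mrg]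
  | case3 a l b m h ih =>
    rw [mrg, if_pos h, List.length_cons, ih]
    simp only [List.length_cons]
    omega
  | case4 a l b m h ih =>
    rw [mrg, if_neg h, List.length_cons, ih]
    simp only [List.length_cons]
    omega

theorem lst_length (x : X) : (lst x).length = a x := mrg_length _ _

theorem F_length (x : X) : (F x).length = a x := by
  unfold F
  rw [List.length_map, lst_length]

theorem blk_length (l : List (Lf ℝ)) : (blk l).length ≤ l.length := by
  induction l using blk.induct with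
  | case1 => simp [blk]
  | case2 z => simp [blk]
  | case3 b z => simp [blk]
  | case4 b c z => simp [blk]
  | case5 b c d z t ih =>
    rw [blk, List.length_cons]
    simp only [List.length_cons] at ih ⊢
    omega

theorem sample_length (l : List (Lf ℝ)) : (sample l).length ≤ l.length := by
  cases l with
  | nil => simp [sample]
  | cons a t =>
    show (blk t).length + 1 ≤ t.length + 1
    exact Nat.succ_le_succ (blk_length t)

theorem deco_length (qs : List (TR ℝ)) (lower : Option (TR ℝ)) (ft ct : TR ℝ) :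
    ∀ (l : List (Lf ℝ)) (c : P), (deco qs lower ft ct c l).length = l.length := by
  intro l
  induction l with
  | nil => intro c; rfl
  | cons d t ih =>
    intro c
    show (deco qs lower ft ct d.s t).length + 1 = t.length + 1
    rw [ih]

theorem levC_length (qs : List (TR ℝ)) (lower : Option (TR ℝ)) (G : List (Lf ℝ)) :
    (levC qs lower G).length ≤ G.length := by
  have h := sample_length G
  unfold levC
  split
  · rename_i ft ct b t h1 h2 h3
    rw [h3] at h
    rw [List.length_cons, deco_length]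
    exact h
  · exact Nat.zero_le _

theorem C_length (x : X) : (C x).length ≤ a x := by
  have := levC_length (ps x) (lowT x.2.2) (F x)
  rw [F_length] at this
  exact this

theorem ps_cb (h_PAR : T_C_PAR) : CB ps (fun x => x.2.2.length) := by
  have h := CB.comp h_PAR.1 (CB.pair
    (CB.comp (CB.fst (α := Option (TR ℝ)) (β := List (Slot ℝ))) (CB.snd (α := List P)))
    (CB.comp h_PAR.2.1 (CB.comp (CB.snd (α := Option (TR ℝ)) (β := List (Slot ℝ)))
      (CB.snd (α := List P)))))
  refine (CB.congr h (g := ps) fun _ => rfl).mono 1 fun x => ?_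
  show 0 + 0 + (0 + 0 + x.2.2.length) + 0 ≤ 1 * (x.2.2.length + 1)
  omega

theorem lst_cb (h_PAR : T_C_PAR) (h_MRG : T_C_MRG) : CB lst a := by
  have h := CB.comp h_MRG (CB.pair (CB.fst (α := List P) (β := Option (TR ℝ) × List (Slot ℝ)))
    (CB.comp h_PAR.2.2.1 (CB.comp (CB.snd (α := Option (TR ℝ)) (β := List (Slot ℝ)))
      (CB.snd (α := List P)))))
  refine (CB.congr h (g := lst) fun _ => rfl).mono 1 fun x => ?_
  show 0 + (0 + 0 + 0) + (x.1.length + (lowC x.2.2).length) ≤
    1 * (x.1.length + (lowC x.2.2).length + 1)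
  omega

theorem a_le (x : X) : a x + 1 ≤ S x := by
  unfold S
  exact Nat.le_mul_of_pos_right _ (Nat.succ_pos _)

theorem F_cb (h_PAR : T_C_PAR) (h_MRG : T_C_MRG) (h_MAP : T_C_MAP) (h_MKL : T_C_MKL) :
    CB F (fun x => S x + x.2.2.length) := by
  have h1 := h_MAP (List (TR ℝ)) P (Lf ℝ) mkLf (fun qs => (pM qs + 1) ^ 2) h_MKL
  have h2 := CB.comp h1 (CB.pair (ps_cb h_PAR) (lst_cb h_PAR h_MRG))
  refine (CB.congr h2 (g := F) fun _ => rfl).mono 2 fun x => ?_
  show x.2.2.length + a x + ((lst x).length + 1) * ((pM (ps x) + 1) ^ 2 + 1) ≤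
    2 * (S x + x.2.2.length + 1)
  rw [lst_length]
  have e1 : (a x + 1) * ((pM (ps x) + 1) ^ 2 + 1) ≤ S x := by
    unfold S
    exact Nat.mul_le_mul_left _ (by omega)
  have e2 := a_le x
  omega

theorem C_cb (h_PAR : T_C_PAR) (h_MRG : T_C_MRG) (h_MAP : T_C_MAP) (h_MKL : T_C_MKL)
    (h_LEV : T_C_LEV) : CB C (fun x => S x + x.2.2.length) := by
  have h2 := CB.comp h_LEV (CB.pair (ps_cb h_PAR) (CB.pair
    (CB.comp h_PAR.2.2.2 (CB.comp (CB.snd (α := Option (TR ℝ)) (β := List (Slot ℝ)))
      (CB.snd (α := List P)))) (F_cb h_PAR h_MRG h_MAP h_MKL)))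
  refine (CB.congr h2 (g := C) fun _ => rfl).mono 2 fun x => ?_
  show x.2.2.length + (0 + 0 + 0 + (S x + x.2.2.length)) + ((F x).length + 1) *
    (cC (ps x) (lowT x.2.2) + (Nat.clog 2 (F x).length + 1) ^ 2 + 1) ≤
    2 * (S x + x.2.2.length + 1)
  rw [F_length]
  have e1 : (a x + 1) * (cC (ps x) (lowT x.2.2) + (Nat.clog 2 (a x) + 1) ^ 2 + 1) ≤ S x := by
    unfold S cC
    refine Nat.mul_le_mul_left _ ?_
    have : pM (ps x) ≤ (pM (ps x) + 1) ^ 2 := by nlinarith [Nat.zero_le (pM (ps x))]
    omega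
  omega

end CSLT_

open CSLT_ in
theorem p_C_SLT (h_PAR : T_C_PAR) (h_MRG : T_C_MRG) (h_MAP : T_C_MAP) (h_MKL : T_C_MKL)
    (h_LEV : T_C_LEV) (h_BLD : T_C_BLD) : T_C_SLT := by
  obtain ⟨hs, _, _, _, _, _, _, _, _, _, _, _, hS, -⟩ := p_FLD
  have hF := F_cb h_PAR h_MRG h_MAP h_MKL
  have hC := C_cb h_PAR h_MRG h_MAP h_MKL h_LEV
  have hm := h_MAP Unit (Lf ℝ) P (fun _ d => d.s) (fun _ => 0) (CB.comp hs CB.snd)
  have hCs : CB (fun x : X => (C x).map Lf.s) (fun x => S x + x.2.2.length) := by
    have h := CB.comp hm (CB.pair (CB.nilv (α := X) () rfl) hC)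
    refine (CB.congr h (g := fun x : X => (C x).map Lf.s) fun _ => rfl).mono 2 fun x => ?_
    show 0 + (S x + x.2.2.length) + ((C x).length + 1) * (0 + 1) ≤
      2 * (S x + x.2.2.length + 1)
    have e1 := C_length x
    have e2 := a_le x
    omega
  have hB : CB (fun x : X => build (C x)) (fun x => S x + x.2.2.length) := by
    refine (CB.comp h_BLD.2 hC).mono 2 fun x => ?_
    show S x + x.2.2.length + (C x).length ≤ 2 * (S x + x.2.2.length + 1)
    have e1 := C_length x
    have e2 := a_le x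
    omega
  have h := CB.comp hS (CB.pair (CB.fst (α := List P) (β := Option (TR ℝ) × List (Slot ℝ)))
    (CB.pair (CB.comp (CB.fst (α := Option (TR ℝ)) (β := List (Slot ℝ))) (CB.snd (α := List P)))
      (CB.pair hF (CB.pair hCs hB))))
  refine (CB.congr h (g := fun x : X => mkSlot x.1 x.2.1 x.2.2) fun _ => rfl).mono 3 fun x => ?_
  show 0 + (0 + 0 + (S x + x.2.2.length + (S x + x.2.2.length + (S x + x.2.2.length)))) + 0 ≤
    3 * (S x + x.2.2.length + 1)
  omega

end Pool.Agent.EVD
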