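import Pool.Agent.EVD.TC
import Pool.Agent.EVD.P_CSL
import Pool.Agent.EVD.P_RS1
import Pool.Agent.EVD.P_INJ
import Pool.Agent.EVD.P_CON

/-! # EVD: time of the sample functions -/

namespace Pool.Agent.EVD

namespace CSMP_

section
variable {α β γ δ : Type} [Enc α] [Enc β] [Enc γ] [Enc δ]

theorem comp0 {f : β → γ} {g : α → β} (hf : CB f (fun _ => 0)) (hg : CB g (fun _ => 0)) :
    CB (fun x => f (g x)) (fun _ => 0) := CB.comp hf hg

theorem pair0 {f : α → β} {g : α → γ} (hf : CB f (fun _ => 0)) (hg : CB g (fun _ => 0)) :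
    CB (fun x => (f x, g x)) (fun _ => 0) := CB.pair hf hg

theorem csl0 {t : α → List β} {f : α → δ} {g : α × β × List β → δ}
    (ht : CB t (fun _ => 0)) (hf : CB f (fun _ => 0)) (hg : CB g (fun _ => 0)) :
    CB (fun x => match t x with | [] => f x | b :: l => g (x, b, l)) (fun _ => 0) := by
  refine (p_CSL α β δ t f g _ _ _ ht hf hg).mono 1 (fun x => ?_)
  cases t x <;> simp

theorem cons0 {f : α → β} {g : α → List β} (hf : CB f (fun _ => 0)) (hg : CB g (fun _ => 0)) :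
    CB (fun x => f x :: g x) (fun _ => 0) := comp0 (p_CON β Unit).1 (pair0 hf hg)

theorem nil0 : CB (fun _ : α => ([] : List β)) (fun _ => 0) := CB.nilv _ rfl

theorem inl0 {f : α → β} (hf : CB f (fun _ => 0)) :
    CB (fun x => (Sum.inl (f x) : β ⊕ γ)) (fun _ => 0) := comp0 (p_INJ β γ).1 hf

theorem inr0 {f : α → γ} (hf : CB f (fun _ => 0)) :
    CB (fun x => (Sum.inr (f x) : β ⊕ γ)) (fun _ => 0) := comp0 (p_INJ β γ).2 hf

end

/-- lists -/
abbrev L : Type := List (Lf ℝ)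
/-- first cell -/
abbrev E1 : Type := L × Lf ℝ × L
/-- second cell -/
abbrev E2 : Type := E1 × Lf ℝ × L
/-- third cell -/
abbrev E3 : Type := E2 × Lf ℝ × L
/-- fourth cell -/
abbrev E4 : Type := E3 × Lf ℝ × L

noncomputable def g4 (x : E4) : L ⊕ (L × Lf ℝ) :=
  Sum.inr (x.2.1 :: x.2.2, btr x.1.1.1.2.1 (btr x.1.1.2.1 x.1.2.1))

noncomputable def g3 (x : E3) : L ⊕ (L × Lf ℝ) :=
  match x.2.2 with
  | [] => Sum.inl [btr x.1.1.2.1 x.1.2.1, x.2.1]
  | b :: l => g4 (x, b, l)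

noncomputable def g2 (x : E2) : L ⊕ (L × Lf ℝ) :=
  match x.2.2 with
  | [] => Sum.inl [x.1.2.1, x.2.1]
  | b :: l => g3 (x, b, l)

noncomputable def g1 (x : E1) : L ⊕ (L × Lf ℝ) :=
  match x.2.2 with
  | [] => Sum.inl [x.2.1]
  | b :: l => g2 (x, b, l)

noncomputable def q (x : L) : L ⊕ (L × Lf ℝ) :=
  match x with
  | [] => Sum.inl []
  | b :: l => g1 (x, b, l)

section
variable {α β γ : Type} [Enc α] [Enc β] [Enc γ]
theorem f1 : CB (fun x : α × β × γ => x.2.1) (fun _ => 0) := comp0 CB.fst CB.snd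
theorem f2 : CB (fun x : α × β × γ => x.2.2) (fun _ => 0) := comp0 CB.snd CB.snd
theorem f0 : CB (fun x : α × β × γ => x.1) (fun _ => 0) := CB.fst
end

theorem cb4 (hb : CB (fun x : Lf ℝ × Lf ℝ => btr x.1 x.2) (fun _ => 0)) :
    CB g4 (fun _ => 0) := by
  have e3 : CB (fun x : E4 => x.1) (fun _ => 0) := f0
  have e2 : CB (fun x : E4 => x.1.1) (fun _ => 0) := comp0 f0 e3
  have e1 : CB (fun x : E4 => x.1.1.1) (fun _ => 0) := comp0 f0 e2
  have a : CB (fun x : E4 => x.1.1.1.2.1) (fun _ => 0) :=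
    comp0 (f := fun y : E1 => y.2.1) f1 e1
  have b : CB (fun x : E4 => x.1.1.2.1) (fun _ => 0) :=
    comp0 (f := fun y : E2 => y.2.1) f1 e2
  have c : CB (fun x : E4 => x.1.2.1) (fun _ => 0) :=
    comp0 (f := fun y : E3 => y.2.1) f1 e3
  have u : CB (fun x : E4 => btr x.1.1.2.1 x.1.2.1) (fun _ => 0) := comp0 hb (pair0 b c)
  have v : CB (fun x : E4 => btr x.1.1.1.2.1 (btr x.1.1.2.1 x.1.2.1)) (fun _ => 0) :=
    comp0 hb (pair0 a u)
  exact inr0 (pair0 (cons0 f1 f2) v)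

theorem cb3 (hb : CB (fun x : Lf ℝ × Lf ℝ => btr x.1 x.2) (fun _ => 0)) :
    CB g3 (fun _ => 0) := by
  have e2 : CB (fun x : E3 => x.1) (fun _ => 0) := f0
  have e1 : CB (fun x : E3 => x.1.1) (fun _ => 0) := comp0 f0 e2
  have a : CB (fun x : E3 => x.1.1.2.1) (fun _ => 0) :=
    comp0 (f := fun y : E1 => y.2.1) f1 e1
  have b : CB (fun x : E3 => x.1.2.1) (fun _ => 0) :=
    comp0 (f := fun y : E2 => y.2.1) f1 e2
  have u : CB (fun x : E3 => btr x.1.1.2.1 x.1.2.1) (fun _ => 0) := comp0 hb (pair0 a b)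
  exact (csl0 (t := fun x : E3 => x.2.2) f2 (inl0 (cons0 u (cons0 f1 nil0))) (cb4 hb)).congr
    (fun x => by rcases x with ⟨x1, x2, l⟩; cases l <;> rfl)

theorem cb2 (hb : CB (fun x : Lf ℝ × Lf ℝ => btr x.1 x.2) (fun _ => 0)) :
    CB g2 (fun _ => 0) := by
  have e1 : CB (fun x : E2 => x.1) (fun _ => 0) := f0
  have a : CB (fun x : E2 => x.1.2.1) (fun _ => 0) :=
    comp0 (f := fun y : E1 => y.2.1) f1 e1
  exact (csl0 (t := fun x : E2 => x.2.2) f2 (inl0 (cons0 a (cons0 f1 nil0))) (cb3 hb)).congr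
    (fun x => by rcases x with ⟨x1, x2, l⟩; cases l <;> rfl)

theorem cb1 (hb : CB (fun x : Lf ℝ × Lf ℝ => btr x.1 x.2) (fun _ => 0)) :
    CB g1 (fun _ => 0) :=
  (csl0 (t := fun x : E1 => x.2.2) f2 (inl0 (cons0 f1 nil0)) (cb2 hb)).congr
    (fun x => by rcases x with ⟨x1, x2, l⟩; cases l <;> rfl)

theorem cbq (hb : CB (fun x : Lf ℝ × Lf ℝ => btr x.1 x.2) (fun _ => 0)) :
    CB q (fun _ => 0) :=
  (csl0 (t := fun x : L => x) CB.id (inl0 nil0) (cb1 hb)).congr
    (fun x => by cases x <;> rfl)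

theorem cbblk (hb : CB (fun x : Lf ℝ × Lf ℝ => btr x.1 x.2) (fun _ => 0)) :
    CB (fun l : L => blk l) (fun l => l.length) := by
  refine p_RS1 L L (Lf ℝ) (fun l => blk l) q (fun x => x.1 :: x.2) _ _ _ (cbq hb)
    (p_CON (Lf ℝ) Unit).1 ?_ ?_ ?_
  · intro x
    match x with
    | [] => simp [blk, q]
    | [z] => simp [blk, q, g1]
    | [b, z] => simp [blk, q, g1, g2]
    | [b, c, z] => simp [blk, q, g1, g2, g3]
    | b :: c :: d :: z :: t => simp [blk, q, g1, g2, g3, g4]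
  · intro x b _
    exact Nat.zero_le _
  · intro x y z h
    match x with
    | [] => simp [q] at h
    | [z] => simp [q, g1] at h
    | [b, z] => simp [q, g1, g2] at h
    | [b, c, z] => simp [q, g1, g2, g3] at h
    | b :: c :: d :: z :: t =>
      simp only [q, g1, g2, g3, g4, Sum.inr.injEq, Prod.mk.injEq] at h
      rw [← h.1]
      simp only [List.length_cons]
      omega

theorem cbsample (hb : CB (fun x : Lf ℝ × Lf ℝ => btr x.1 x.2) (fun _ => 0)) :
    CB (fun l : L => sample l) (fun l => l.length) := by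
  have hg : CB (fun x : L × Lf ℝ × L => x.2.1 :: blk x.2.2) (fun x => x.2.2.length) := by
    have h2 : CB (fun x : L × Lf ℝ × L => blk x.2.2) (fun x => x.2.2.length) :=
      (CB.comp (cbblk hb) f2).mono 1 (fun x => by simp)
    exact (CB.comp (p_CON (Lf ℝ) Unit).1 (CB.pair f1 h2)).mono 1 (fun x => by simp)
  have h := p_CSL L (Lf ℝ) L (fun x => x) (fun _ => []) (fun x => x.2.1 :: blk x.2.2) _ _ _
    CB.id nil0 hg
  have h' := CB.mono (B' := fun l : L => l.length) h 1 (fun x => by cases x <;> simp; omega)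
  exact h'.congr (fun x => by cases x <;> rfl)

end CSMP_

theorem p_C_SMP (h_HLE : T_C_HLE) : T_C_SMP :=
  ⟨CSMP_.cbblk h_HLE.2, CSMP_.cbsample h_HLE.2⟩

end Pool.Agent.EVD
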