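import Pool.Agent.EVD.TC
import Pool.Agent.EVD.P_INJ

/-! # EVD: time of the two one-sided tangent searches -/

set_option autoImplicit false

namespace Pool.Agent.EVD

noncomputable section

namespace CTG_

section
variable {α β γ : Type} [Enc α] [Enc β] [Enc γ]

theorem cz {f : β → γ} {g : α → β} {b : α → ℕ} (hf : CB f (fun _ => 0)) (hg : CB g b) :
    CB (fun x => f (g x)) b :=
  (hf.comp hg).mono 1 (fun _ => by simp)

theorem p1 {g : α → β × γ} {b : α → ℕ} (hg : CB g b) : CB (fun x => (g x).1) b := cz CB.fst hg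

theorem p2 {g : α → β × γ} {b : α → ℕ} (hg : CB g b) : CB (fun x => (g x).2) b := cz CB.snd hg

theorem pr {f : α → β} {g : α → γ} {b : α → ℕ} (hf : CB f b) (hg : CB g b) :
    CB (fun x => (f x, g x)) b :=
  (hf.pair hg).mono 2 (fun _ => by omega)

theorem wk {f : α → β} (b : α → ℕ) (hf : CB f (fun _ => 0)) : CB f b :=
  hf.mono 1 (fun _ => by simp)

theorem ic {t : α → Bool} {f g : α → β} {b : α → ℕ} (ht : CB t b) (hf : CB f b) (hg : CB g b) :
    CB (fun x => if t x then f x else g x) b :=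
  (CB.ite ht hf hg).mono 2 (fun x => by split_ifs <;> omega)

end

section
variable {E : Type} [Enc E] (D : E → ℝ → Bool) (c : E → ℕ) (go : E → Lf ℝ → Lf ℝ → Bool) (g : E → ℕ)

/-- the environment -/
abbrev AlT (E : Type) : Type := E × ℝ × TR ℝ

abbrev GaT (E : Type) : Type := Option (E × TR ℝ)

abbrev BeT : Type := Option (Lf ℝ)

def leafG (y : AlT E × Lf ℝ) : BeT ⊕ (AlT E × GaT E) :=
  Sum.inl (if decide (y.1.2.1 < y.2.s.1) then (if live (D y.1.1) y.2.h then some y.2 else none)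
    else none)

def leafL (y : AlT E × Lf ℝ) : BeT ⊕ (AlT E × GaT E) :=
  Sum.inl (if decide (y.2.s.1 < y.1.2.1) then (if live (D y.1.1) y.2.h then some y.2 else none)
    else none)

def nodeG (y : AlT E × Lf ℝ × ℝ × TR ℝ × TR ℝ) : BeT ⊕ (AlT E × GaT E) :=
  if decide (y.1.2.1 < y.2.2.2.2.fx) then
    Sum.inr ((y.1.1, y.1.2.1, y.2.2.2.1), some (y.1.1, y.2.2.2.2))
  else Sum.inr ((y.1.1, y.1.2.1, y.2.2.2.2), none)

def nodeL (y : AlT E × Lf ℝ × ℝ × TR ℝ × TR ℝ) : BeT ⊕ (AlT E × GaT E) :=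
  if decide (y.2.2.2.2.fx < y.1.2.1) then
    Sum.inr ((y.1.1, y.1.2.1, y.2.2.2.2), some (y.1.1, y.2.2.2.1))
  else Sum.inr ((y.1.1, y.1.2.1, y.2.2.2.1), none)

def qG (x : AlT E) : BeT ⊕ (AlT E × GaT E) :=
  match x.2.2 with
  | TR.leaf d => leafG D (x, d)
  | TR.node am fx l r => nodeG (x, am, fx, l, r)

def qL (x : AlT E) : BeT ⊕ (AlT E × GaT E) :=
  match x.2.2 with
  | TR.leaf d => leafL D (x, d)
  | TR.node am fx l r => nodeL (x, am, fx, l, r)

def combG (x : GaT E × BeT) : BeT :=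
  match x.1 with
  | none => x.2
  | some p => pick (go p.1) x.2 (tanH (D p.1) (go p.1) p.2)

def combL (x : GaT E × BeT) : BeT :=
  match x.1 with
  | none => x.2
  | some p => pick (go p.1) (tanH (D p.1) (go p.1) p.2) x.2

def cost (x : GaT E × BeT) : ℕ :=
  match x.1 with
  | none => 0
  | some p => (c p.1 + g p.1 + 1) * (p.2.dep + 1) ^ 2

def bd (x : AlT E) : ℕ := (c x.1 + g x.1 + 1) * (x.2.2.dep + 1) ^ 3

variable {D c go g}

theorem aux (W c l r m : ℕ) (hl : l ≤ m) (hr : r ≤ m) (hc : c + 1 ≤ W) :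
    c + W * (r + 1) ^ 2 + W * (l + 1) ^ 3 + 1 ≤ W * (m + 1 + 1) ^ 3 := by
  have h1 : (r + 1) ^ 2 ≤ (m + 1) ^ 2 := Nat.pow_le_pow_left (by omega) 2
  have h2 : (l + 1) ^ 3 ≤ (m + 1) ^ 3 := Nat.pow_le_pow_left (by omega) 3
  have h3 : W * (r + 1) ^ 2 ≤ W * (m + 1) ^ 2 := Nat.mul_le_mul_left _ h1
  have h4 : W * (l + 1) ^ 3 ≤ W * (m + 1) ^ 3 := Nat.mul_le_mul_left _ h2
  have h5 : W * (m + 1 + 1) ^ 3 = W * (m + 1) ^ 3 + W * (m + 1) ^ 2 +
    W * (2 * (m + 1) ^ 2 + 3 * (m + 1)) + W := by ring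
  have h6 : 0 ≤ W * (2 * (m + 1) ^ 2 + 3 * (m + 1)) := Nat.zero_le _
  omega

section
variable (hLIV : T_C_LIV) (hJN : T_C_JN) (hFLD : T_FLD)
  (hCON : ∀ (α β : Type) [Enc α] [Enc β], T_CON α β)
  (hCST : ∀ (α δ : Type) [Enc α] [Enc δ], T_CST α δ)
  (hCSO : ∀ (α β δ : Type) [Enc α] [Enc β] [Enc δ], T_CSO α β δ)
  (hTH : T_C_TH) (hPK : T_C_PK) (hD : Orc D c) (hg : OrG go g)

include hLIV hFLD hD hCON in
theorem cb_leaf {α : Type} [Enc α] (e : α → E) (d : α → Lf ℝ) (a b : α → ℝ)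
    (he : CB e (fun _ => 0)) (hd : CB d (fun _ => 0)) (ha : CB a (fun _ => 0))
    (hb : CB b (fun _ => 0)) :
    CB (fun y => (Sum.inl (if decide (a y < b y) then
      (if live (D (e y)) (d y).h then some (d y) else none) else none) : BeT ⊕ (AlT E × GaT E)))
      (fun y => c (e y)) := by
  have hl : CB (fun y => live (D (e y)) (d y).h) (fun y => c (e y)) :=
    ((hLIV E D c hD).comp (pr he (cz hFLD.2.1 hd))).mono 1 (fun y => by simp)
  have hn : CB (fun _ : α => (none : Option (Lf ℝ))) (fun y => c (e y)) :=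
    wk _ (hCON (Lf ℝ) α).2.2.2
  have hs : CB (fun y : α => some (d y)) (fun y => c (e y)) :=
    wk _ (cz (hCON (Lf ℝ) α).2.2.1 hd)
  have ht : CB (fun y => decide (a y < b y)) (fun y => c (e y)) :=
    wk _ (cz CB.real_lt (pr ha hb))
  exact cz (p_INJ BeT (AlT E × GaT E)).1 (ic ht (ic hl hs hn) hn)

include hCON in
theorem cb_node {α : Type} [Enc α] (e : α → E) (x a b : α → ℝ) (s t u : α → TR ℝ)
    (he : CB e (fun _ => 0)) (hx : CB x (fun _ => 0)) (ha : CB a (fun _ => 0))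
    (hb : CB b (fun _ => 0)) (hs : CB s (fun _ => 0)) (ht : CB t (fun _ => 0))
    (hu : CB u (fun _ => 0)) :
    CB (fun y => (if decide (a y < b y) then Sum.inr ((e y, x y, s y), some (e y, t y))
      else Sum.inr ((e y, x y, u y), none) : BeT ⊕ (AlT E × GaT E))) (fun _ => 0) := by
  refine ic (cz CB.real_lt (pr ha hb)) ?_ ?_
  · exact cz (p_INJ BeT (AlT E × GaT E)).2 (pr (pr he (pr hx hs))
      (cz (hCON (E × TR ℝ) α).2.2.1 (pr he ht)))
  · exact cz (p_INJ BeT (AlT E × GaT E)).2 (pr (pr he (pr hx hu)) (hCON (E × TR ℝ) α).2.2.2)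

include hLIV hJN hFLD hCON hCST hD in
theorem cb_qG : CB (qG (E := E) D) (fun x => c x.1) := by
  have h1 : CB (leafG (E := E) D) (fun y => c y.1.1) :=
    cb_leaf hLIV hFLD hCON hD (fun y : AlT E × Lf ℝ => y.1.1) (fun y => y.2)
      (fun y => y.1.2.1) (fun y => y.2.s.1) (p1 CB.fst) CB.snd (p1 (p2 CB.fst))
      (p1 (cz hFLD.1 CB.snd))
  have h2 : CB (nodeG (E := E)) (fun _ => 0) :=
    cb_node hCON (fun y : AlT E × Lf ℝ × ℝ × TR ℝ × TR ℝ => y.1.1) (fun y => y.1.2.1)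
      (fun y => y.1.2.1) (fun y => y.2.2.2.2.fx) (fun y => y.2.2.2.1) (fun y => y.2.2.2.2)
      (fun y => y.2.2.2.2)
      (p1 CB.fst) (p1 (p2 CB.fst)) (p1 (p2 CB.fst)) (cz hJN.2.1 (p2 (p2 (p2 CB.snd))))
      (p1 (p2 (p2 CB.snd))) (p2 (p2 (p2 CB.snd))) (p2 (p2 (p2 CB.snd)))
  refine CB.mono (B := fun x => 0 + match x.2.2 with
    | TR.leaf _ => c x.1
    | TR.node _ _ _ _ => 0) ?_ 1 ?_
  · exact hCST (AlT E) (BeT ⊕ (AlT E × GaT E)) (fun x => x.2.2) (leafG D) nodeG _ _ _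
      (p2 CB.snd) h1 h2
  · rintro ⟨e, x, t⟩
    cases t <;> simp

include hLIV hJN hFLD hCON hCST hD in
theorem cb_qL : CB (qL (E := E) D) (fun x => c x.1) := by
  have h1 : CB (leafL (E := E) D) (fun y => c y.1.1) :=
    cb_leaf hLIV hFLD hCON hD (fun y : AlT E × Lf ℝ => y.1.1) (fun y => y.2)
      (fun y => y.2.s.1) (fun y => y.1.2.1) (p1 CB.fst) CB.snd
      (p1 (cz hFLD.1 CB.snd)) (p1 (p2 CB.fst))
  have h2 : CB (nodeL (E := E)) (fun _ => 0) :=
    cb_node hCON (fun y : AlT E × Lf ℝ × ℝ × TR ℝ × TR ℝ => y.1.1) (fun y => y.1.2.1)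
      (fun y => y.2.2.2.2.fx) (fun y => y.1.2.1) (fun y => y.2.2.2.2) (fun y => y.2.2.2.1)
      (fun y => y.2.2.2.1)
      (p1 CB.fst) (p1 (p2 CB.fst)) (cz hJN.2.1 (p2 (p2 (p2 CB.snd)))) (p1 (p2 CB.fst))
      (p2 (p2 (p2 CB.snd))) (p1 (p2 (p2 CB.snd))) (p1 (p2 (p2 CB.snd)))
  refine CB.mono (B := fun x => 0 + match x.2.2 with
    | TR.leaf _ => c x.1
    | TR.node _ _ _ _ => 0) ?_ 1 ?_
  · exact hCST (AlT E) (BeT ⊕ (AlT E × GaT E)) (fun x => x.2.2) (leafL D) nodeL _ _ _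
      (p2 CB.snd) h1 h2
  · rintro ⟨e, x, t⟩
    cases t <;> simp

include hTH hD hg in
theorem cb_th : CB (fun y : (GaT E × BeT) × (E × TR ℝ) => tanH (D y.2.1) (go y.2.1) y.2.2)
    (fun y => (c y.2.1 + g y.2.1 + 1) * (y.2.2.dep + 1) ^ 2) :=
  ((hTH E D c go g hD hg).comp (CB.snd (α := GaT E × BeT) (β := E × TR ℝ))).mono 1
    (fun y => by simp)

include hCSO in
theorem cb_comb (w : GaT E × BeT → BeT) (k : (GaT E × BeT) × (E × TR ℝ) → BeT)
    (hk : CB k (fun y => (c y.2.1 + g y.2.1 + 1) * (y.2.2.dep + 1) ^ 2))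
    (hw : ∀ x, w x = match x.1 with
      | none => x.2
      | some p => k (x, p)) : CB w (cost (E := E) c g) := by
  have h := hCSO (GaT E × BeT) (E × TR ℝ) BeT (fun x => x.1) (fun x => x.2) k _ _ _
      CB.fst CB.snd hk
  refine CB.congr (h.mono 1 ?_) ?_
  · rintro ⟨z, r⟩
    cases z <;> simp [cost]
  · rintro ⟨z, r⟩
    rw [hw]
    cases z <;> rfl

include hCSO hTH hPK hD hg in
theorem cb_combG : CB (combG D go) (cost (E := E) c g) := by
  refine cb_comb hCSO _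
    (fun y => pick (go y.2.1) y.1.2 (tanH (D y.2.1) (go y.2.1) y.2.2)) ?_ (fun x => rfl)
  have h1 := cb_th hTH hD hg
  refine (((hPK E go g hg).1).comp (pr (wk _ (p1 CB.snd)) (pr (wk _ (p2 CB.fst)) h1))).mono 2 ?_
  intro y
  have : 1 ≤ (y.2.2.dep + 1) ^ 2 := Nat.one_le_pow _ _ (by omega)
  nlinarith [Nat.zero_le (c y.2.1 * (y.2.2.dep + 1) ^ 2), Nat.zero_le ((y.2.2.dep + 1) ^ 2)]

include hCSO hTH hPK hD hg in
theorem cb_combL : CB (combL D go) (cost (E := E) c g) := by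
  refine cb_comb hCSO _
    (fun y => pick (go y.2.1) (tanH (D y.2.1) (go y.2.1) y.2.2) y.1.2) ?_ (fun x => rfl)
  have h1 := cb_th hTH hD hg
  refine (((hPK E go g hg).1).comp (pr (wk _ (p1 CB.snd)) (pr h1 (wk _ (p2 CB.fst))))).mono 2 ?_
  intro y
  have : 1 ≤ (y.2.2.dep + 1) ^ 2 := Nat.one_le_pow _ _ (by omega)
  nlinarith [Nat.zero_le (c y.2.1 * (y.2.2.dep + 1) ^ 2), Nat.zero_le ((y.2.2.dep + 1) ^ 2)]

end

end

end CTG_

open CTG_ in
theorem p_C_TG (hRS1 : ∀ (α β γ : Type) [Enc α] [Enc β] [Enc γ], T_RS1 α β γ)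
    (hCON : ∀ (α β : Type) [Enc α] [Enc β], T_CON α β)
    (hCST : ∀ (α δ : Type) [Enc α] [Enc δ], T_CST α δ)
    (hCSO : ∀ (α β δ : Type) [Enc α] [Enc β] [Enc δ], T_CSO α β δ)
    (hFLD : T_FLD) (hJN : T_C_JN) (hLIV : T_C_LIV) (hPK : T_C_PK) (hTH : T_C_TH) : T_C_TG := by
  intro E _ D c go g hD hg
  constructor
  · refine hRS1 (AlT E) BeT (GaT E) _ (qG D) (combG D go) (fun x => c x.1) (bd c g) (cost c g)
      (cb_qG hLIV hJN hFLD hCON hCST hD) (cb_combG hCSO hTH hPK hD hg) ?_ ?_ ?_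
    · rintro ⟨e, x, t⟩
      cases t with
      | leaf d => simp [qG, leafG, tanGt]
      | node am fx l r =>
        by_cases h : x < r.fx
        · simp [qG, nodeG, tanGt, h, combG]
        · simp [qG, nodeG, tanGt, h, combG]
    · rintro ⟨e, x, t⟩ b -
      simp only [bd]
      have : 1 ≤ (t.dep + 1) ^ 3 := Nat.one_le_pow _ _ (by omega)
      nlinarith [Nat.zero_le (g e * (t.dep + 1) ^ 3), Nat.zero_le (c e)]
    · rintro ⟨e, x, t⟩ y z h
      cases t with
      | leaf d => simp [qG, leafG] at h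
      | node am fx l r =>
        by_cases hx : x < r.fx
        · simp only [qG, nodeG, hx, decide_true, if_true, Sum.inr.injEq, Prod.mk.injEq] at h
          obtain ⟨rfl, rfl⟩ := h
          simp only [cost, bd, TR.dep]
          exact aux _ _ _ _ _ (le_max_left _ _) (le_max_right _ _) (by omega)
        · simp only [qG, nodeG, hx, decide_false, Bool.false_eq_true, if_false, Sum.inr.injEq,
            Prod.mk.injEq] at h
          obtain ⟨rfl, rfl⟩ := h
          simp only [cost, bd, TR.dep]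
          have := aux (c e + g e + 1) (c e) r.dep 0 (max l.dep r.dep) (le_max_right _ _)
            (Nat.zero_le _) (by omega)
          omega
  · refine hRS1 (AlT E) BeT (GaT E) _ (qL D) (combL D go) (fun x => c x.1) (bd c g) (cost c g)
      (cb_qL hLIV hJN hFLD hCON hCST hD) (cb_combL hCSO hTH hPK hD hg) ?_ ?_ ?_
    · rintro ⟨e, x, t⟩
      cases t with
      | leaf d => simp [qL, leafL, tanLt]
      | node am fx l r =>
        by_cases h : r.fx < x
        · simp [qL, nodeL, tanLt, h, combL]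
        · simp [qL, nodeL, tanLt, h, combL]
    · rintro ⟨e, x, t⟩ b -
      simp only [bd]
      have : 1 ≤ (t.dep + 1) ^ 3 := Nat.one_le_pow _ _ (by omega)
      nlinarith [Nat.zero_le (g e * (t.dep + 1) ^ 3), Nat.zero_le (c e)]
    · rintro ⟨e, x, t⟩ y z h
      cases t with
      | leaf d => simp [qL, leafL] at h
      | node am fx l r =>
        by_cases hx : r.fx < x
        · simp only [qL, nodeL, hx, decide_true, if_true, Sum.inr.injEq, Prod.mk.injEq] at h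
          obtain ⟨rfl, rfl⟩ := h
          simp only [cost, bd, TR.dep]
          exact aux _ _ _ _ _ (le_max_right _ _) (le_max_left _ _) (by omega)
        · simp only [qL, nodeL, hx, decide_false, Bool.false_eq_true, if_false, Sum.inr.injEq,
            Prod.mk.injEq] at h
          obtain ⟨rfl, rfl⟩ := h
          simp only [cost, bd, TR.dep]
          have := aux (c e + g e + 1) (c e) l.dep 0 (max l.dep r.dep) (le_max_left _ _)
            (Nat.zero_le _) (by omega)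
          omega

end

end Pool.Agent.EVD
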