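import Pool.Agent.EVD.TC
import Pool.Agent.EVD.P_INJ
import Pool.Agent.EVD.P_CON
import Pool.Agent.EVD.P_FLD
import Pool.Agent.EVD.P_CSO
import Pool.Agent.EVD.P_RS1
import Pool.Agent.EVD.P_C_LIV

/-! # EVD: running time of `tanH` -/

set_option autoImplicit false

namespace Pool.Agent.EVD

namespace CTH_

section
variable {α β γ : Type} [Enc α] [Enc β] [Enc γ]

/-- a function of constant cost after another one -/
theorem zc {f : β → γ} {g : α → β} {G : α → ℕ} (hf : CB f (fun _ => 0)) (hg : CB g G) :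
    CB (fun x => f (g x)) G := CB.comp hf hg

/-- a pair, the second component of constant cost -/
theorem zp {f : α → β} {g : α → γ} {F : α → ℕ} (hf : CB f F) (hg : CB g (fun _ => 0)) :
    CB (fun x => (f x, g x)) F := CB.pair hf hg

end

/-- the result type of the case analysis -/
abbrev S (E : Type) : Type := Option (Lf ℝ) ⊕ ((E × TR ℝ) × Unit)

abbrev Y (E : Type) : Type := (E × TR ℝ) × Lf ℝ × ℝ × TR ℝ × TR ℝ

section
variable {E : Type} (D : E → ℝ → Bool) (go : E → Lf ℝ → Lf ℝ → Bool)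

def qL (y : (E × TR ℝ) × Lf ℝ) : S E :=
  Sum.inl (if live (D y.1.1) y.2.h then some y.2 else none)

def qI (w : (Y E × Lf ℝ) × Lf ℝ) : S E :=
  if go w.1.1.1.1 w.1.2 w.2 then Sum.inr ((w.1.1.1.1, w.1.1.2.2.2.1), ())
  else Sum.inr ((w.1.1.1.1, w.1.1.2.2.2.2), ())

def qM (z : Y E × Lf ℝ) : S E :=
  match firstA (D z.1.1.1) z.1.2.2.2.2 with
  | none => Sum.inr ((z.1.1.1, z.1.2.2.2.1), ())
  | some b => qI go (z, b)

def qN (y : Y E) : S E :=
  match lastA (D y.1.1) y.2.2.2.1 with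
  | none => Sum.inr ((y.1.1, y.2.2.2.2), ())
  | some a => qM D go (y, a)

def qT (x : E × TR ℝ) : S E :=
  match x.2 with
  | TR.leaf d => qL D (x, d)
  | TR.node am fx l r => qN D go (x, am, fx, l, r)

theorem tanH_eq (x : E × TR ℝ) : tanH (D x.1) (go x.1) x.2 =
    match qT D go x with
    | Sum.inl b => b
    | Sum.inr (y, z) => ((z, tanH (D y.1) (go y.1) y.2) : Unit × Option (Lf ℝ)).2 := by
  obtain ⟨e, t⟩ := x
  cases t with
  | leaf d => simp only [qT, qL, tanH]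
  | node am fx l r =>
    simp only [qT, qN, tanH]
    cases h1 : lastA (D e) l with
    | none => simp only
    | some a =>
      simp only [qM]
      cases h2 : firstA (D e) r with
      | none => simp only
      | some b =>
        simp only [qI]
        by_cases h3 : go e a b = true
        · simp only [h3, if_true]
        · simp only [h3]
          simp

end

section
variable {E : Type} [Enc E] {D : E → ℝ → Bool} {c : E → ℕ} {go : E → Lf ℝ → Lf ℝ → Bool}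
  {g : E → ℕ}

theorem unitc {α : Type} [Enc α] : CB (fun _ : α => ()) (fun _ => 0) := CB.nilv () rfl

theorem cL (hINJ : ∀ (α β : Type) [Enc α] [Enc β], T_INJ α β)
    (hCON : ∀ (α β : Type) [Enc α] [Enc β], T_CON α β) (hFLD : T_FLD) (hLIV : T_C_LIV)
    (hD : Orc D c) : CB (qL D) (fun y => c y.1.1) := by
  have h1 : CB (fun y : (E × TR ℝ) × Lf ℝ => live (D y.1.1) y.2.h) (fun y => c y.1.1) := by
    have := CB.comp (hLIV E D c hD)
      (zp (zc CB.fst CB.fst) (zc hFLD.2.1 CB.snd) :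
        CB (fun y : (E × TR ℝ) × Lf ℝ => (y.1.1, y.2.h)) (fun _ => 0))
    exact this.mono 1 (fun y => by dsimp only; omega)
  have h2 := CB.ite h1
    (zc (hCON (Lf ℝ) Unit).2.2.1 CB.snd : CB (fun y : (E × TR ℝ) × Lf ℝ => some y.2) (fun _ => 0))
    ((hCON (Lf ℝ) ((E × TR ℝ) × Lf ℝ)).2.2.2)
  have h3 := zc (hINJ (Option (Lf ℝ)) ((E × TR ℝ) × Unit)).1 h2
  exact (CB.congr (g := qL D) h3 (fun y => rfl)).mono 1 (fun y => by split <;> omega)

theorem cI (hINJ : ∀ (α β : Type) [Enc α] [Enc β], T_INJ α β) (hg : OrG go g) :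
    CB (qI go) (fun w => g w.1.1.1.1) := by
  have p1 : CB (fun w : (Y E × Lf ℝ) × Lf ℝ => w.1.1.1.1) (fun _ => 0) :=
    zc CB.fst (zc CB.fst (zc CB.fst CB.fst))
  have p2 : CB (fun w : (Y E × Lf ℝ) × Lf ℝ => w.1.2) (fun _ => 0) := zc CB.snd CB.fst
  have p3 : CB (fun w : (Y E × Lf ℝ) × Lf ℝ => w.1.1.2.2.2) (fun _ => 0) :=
    zc CB.snd (zc CB.snd (zc CB.snd (zc CB.fst CB.fst)))
  have h1 : CB (fun w : (Y E × Lf ℝ) × Lf ℝ => go w.1.1.1.1 w.1.2 w.2)
      (fun w => g w.1.1.1.1) := by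
    have := CB.comp hg (zp p1 (zp p2 CB.snd))
    exact this.mono 1 (fun y => by dsimp only; omega)
  have h2 := CB.ite h1
    (zc (hINJ (Option (Lf ℝ)) ((E × TR ℝ) × Unit)).2 (zp (zp p1 (zc CB.fst p3)) unitc))
    (zc (hINJ (Option (Lf ℝ)) ((E × TR ℝ) × Unit)).2 (zp (zp p1 (zc CB.snd p3)) unitc))
  exact (CB.congr (g := qI go) h2 (fun w => rfl)).mono 1 (fun w => by split <;> omega)

theorem cM (hINJ : ∀ (α β : Type) [Enc α] [Enc β], T_INJ α β)
    (hCSO : ∀ (α β δ : Type) [Enc α] [Enc β] [Enc δ], T_CSO α β δ) (hLA : T_C_LA)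
    (hD : Orc D c) (hg : OrG go g) :
    CB (qM D go) (fun z => (c z.1.1.1 + 1) * (z.1.2.2.2.2.dep + 1) + g z.1.1.1) := by
  have p1 : CB (fun z : Y E × Lf ℝ => z.1.1.1) (fun _ => 0) := zc CB.fst (zc CB.fst CB.fst)
  have p3 : CB (fun z : Y E × Lf ℝ => z.1.2.2.2) (fun _ => 0) :=
    zc CB.snd (zc CB.snd (zc CB.snd CB.fst))
  have h1 : CB (fun z : Y E × Lf ℝ => firstA (D z.1.1.1) z.1.2.2.2.2)
      (fun z => (c z.1.1.1 + 1) * (z.1.2.2.2.2.dep + 1)) := by
    have := CB.comp (hLA E D c hD).2 (zp p1 (zc CB.snd p3))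
    exact this.mono 1 (fun y => by dsimp only; omega)
  have h2 := hCSO (Y E × Lf ℝ) (Lf ℝ) (S E) _ _ _ _ _ _ h1
    (zc (hINJ (Option (Lf ℝ)) ((E × TR ℝ) × Unit)).2 (zp (zp p1 (zc CB.fst p3)) unitc))
    (cI hINJ hg)
  exact (CB.congr (g := qM D go) h2 (fun w => by
    unfold qM
    cases firstA (D w.1.1.1) w.1.2.2.2.2 <;> rfl)).mono 1 (fun w => by
    dsimp only
    split <;> omega)

theorem cN (hINJ : ∀ (α β : Type) [Enc α] [Enc β], T_INJ α β)
    (hCSO : ∀ (α β δ : Type) [Enc α] [Enc β] [Enc δ], T_CSO α β δ) (hLA : T_C_LA)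
    (hD : Orc D c) (hg : OrG go g) :
    CB (qN D go) (fun y => (c y.1.1 + 1) * (y.2.2.2.1.dep + 1) +
      ((c y.1.1 + 1) * (y.2.2.2.2.dep + 1) + g y.1.1)) := by
  have p1 : CB (fun z : Y E => z.1.1) (fun _ => 0) := zc CB.fst CB.fst
  have p3 : CB (fun z : Y E => z.2.2.2) (fun _ => 0) := zc CB.snd (zc CB.snd CB.snd)
  have h1 : CB (fun z : Y E => lastA (D z.1.1) z.2.2.2.1)
      (fun z => (c z.1.1 + 1) * (z.2.2.2.1.dep + 1)) := by
    have := CB.comp (hLA E D c hD).1 (zp p1 (zc CB.fst p3))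
    exact this.mono 1 (fun y => by dsimp only; omega)
  have h2 := hCSO (Y E) (Lf ℝ) (S E) _ _ _ _ _ _ h1
    (zc (hINJ (Option (Lf ℝ)) ((E × TR ℝ) × Unit)).2 (zp (zp p1 (zc CB.snd p3)) unitc))
    (cM hINJ hCSO hLA hD hg)
  exact (CB.congr (g := qN D go) h2 (fun w => by
    unfold qN
    cases lastA (D w.1.1) w.2.2.2.1 <;> rfl)).mono 1 (fun w => by
    dsimp only
    split
    · omega
    · rw [one_mul]
      exact Nat.le_succ _)

theorem cT (hINJ : ∀ (α β : Type) [Enc α] [Enc β], T_INJ α β)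
    (hCON : ∀ (α β : Type) [Enc α] [Enc β], T_CON α β) (hFLD : T_FLD) (hLIV : T_C_LIV)
    (hCSO : ∀ (α β δ : Type) [Enc α] [Enc β] [Enc δ], T_CSO α β δ)
    (hCST : ∀ (α δ : Type) [Enc α] [Enc δ], T_CST α δ) (hLA : T_C_LA)
    (hD : Orc D c) (hg : OrG go g) :
    CB (qT D go) (fun x => (c x.1 + g x.1 + 1) * (x.2.dep + 1)) := by
  have h2 := hCST (E × TR ℝ) (S E) _ _ _ _ _ _ CB.snd
    (cL hINJ hCON hFLD hLIV hD) (cN hINJ hCSO hLA hD hg)
  refine (CB.congr (g := qT D go) h2 (fun x => rfl)).mono 3 (fun x => ?_)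
  obtain ⟨e, t⟩ := x
  cases t with
  | leaf d =>
    simp only [TR.dep]
    omega
  | node am fx l r =>
    simp only [TR.dep]
    have e1 : (c e + 1) * (l.dep + 1) ≤ (c e + g e + 1) * (max l.dep r.dep + 1 + 1) :=
      Nat.mul_le_mul (by omega) (by omega)
    have e2 : (c e + 1) * (r.dep + 1) ≤ (c e + g e + 1) * (max l.dep r.dep + 1 + 1) :=
      Nat.mul_le_mul (by omega) (by omega)
    have e3 : g e * 1 ≤ (c e + g e + 1) * (max l.dep r.dep + 1 + 1) :=
      Nat.mul_le_mul (by omega) (by omega)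
    omega

end

/-- the arithmetic of the recursion -/
theorem arith (m n k : ℕ) (hm : 1 ≤ m) (h : k + 1 ≤ n) (hn : 1 ≤ k) :
    m * n + 0 + m * k ^ 2 + 1 ≤ m * n ^ 2 := by
  obtain ⟨j, rfl⟩ := Nat.exists_eq_add_of_le h
  obtain ⟨i, rfl⟩ := Nat.exists_eq_add_of_le hm
  obtain ⟨u, rfl⟩ := Nat.exists_eq_add_of_le hn
  ring_nf
  nlinarith [Nat.zero_le (i * j * u), Nat.zero_le (i * j), Nat.zero_le (i * u), Nat.zero_le (j * u),
    Nat.zero_le (i * j ^ 2), Nat.zero_le (j ^ 2), Nat.zero_le i, Nat.zero_le j, Nat.zero_le u]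

end CTH_

theorem p_C_TH (h_CST : ∀ (α δ : Type) [Enc α] [Enc δ], T_CST α δ) (h_C_LA : T_C_LA) :
    T_C_TH := by
  intro E _ D c go g hD hg
  refine p_RS1 (E × TR ℝ) (Option (Lf ℝ)) Unit (fun x => tanH (D x.1) (go x.1) x.2)
    (CTH_.qT D go) (fun x => x.2) _ _ (fun _ => 0)
    (CTH_.cT p_INJ p_CON p_FLD p_C_LIV p_CSO h_CST h_C_LA hD hg) CB.snd
    (fun x => (CTH_.tanH_eq D go x).trans (by cases CTH_.qT D go x <;> rfl)) ?_ ?_
  · rintro ⟨e, t⟩ b h
    exact Nat.mul_le_mul_left _ (by nlinarith [Nat.zero_le t.dep])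
  · rintro ⟨e, t⟩ ⟨e', t'⟩ z h
    have key : e' = e ∧ t'.dep + 1 ≤ t.dep := by
      cases t with
      | leaf d => simp [CTH_.qT, CTH_.qL] at h
      | node am fx l r =>
        simp only [CTH_.qT, CTH_.qN, CTH_.qM, CTH_.qI] at h
        simp only [TR.dep]
        split at h
        · simp only [Sum.inr.injEq, Prod.mk.injEq] at h
          exact ⟨h.1.1.symm, by rw [← h.1.2]; omega⟩
        · split at h
          · simp only [Sum.inr.injEq, Prod.mk.injEq] at h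
            exact ⟨h.1.1.symm, by rw [← h.1.2]; omega⟩
          · split at h
            · simp only [Sum.inr.injEq, Prod.mk.injEq] at h
              exact ⟨h.1.1.symm, by rw [← h.1.2]; omega⟩
            · simp only [Sum.inr.injEq, Prod.mk.injEq] at h
              exact ⟨h.1.1.symm, by rw [← h.1.2]; omega⟩
    obtain ⟨rfl, h2⟩ := key
    exact CTH_.arith (c e' + g e' + 1) (t.dep + 1) (t'.dep + 1) (by omega) (by omega) (by omega)

end Pool.Agent.EVD
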