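import Pool.Agent.EVD.TC

/-! # EVD, target C_TR: time of `tanR`, `tanL` -/

set_option autoImplicit false

namespace Pool.Agent.EVD

namespace CTR_

theorem comp0 {α β γ : Type} [Enc α] [Enc β] [Enc γ] {f : β → γ} {g : α → β}
    (hf : CB f (fun _ => 0)) (hg : CB g (fun _ => 0)) : CB (fun x => f (g x)) (fun _ => 0) :=
  (hf.comp hg).mono 1 (fun x => by simp)

theorem pair0 {α β γ : Type} [Enc α] [Enc β] [Enc γ] {f : α → β} {g : α → γ}
    (hf : CB f (fun _ => 0)) (hg : CB g (fun _ => 0)) : CB (fun x => (f x, g x)) (fun _ => 0) :=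
  (hf.pair hg).mono 1 (fun x => by simp)

/-- the analysis of the argument -/
def qq {E : Type} (x : E × P × List (TR ℝ)) :
    Option (Lf ℝ) ⊕ ((E × P × List (TR ℝ)) × ((E × P) × TR ℝ)) :=
  match x.2.2 with
  | [] => Sum.inl none
  | t :: ts => Sum.inr ((x.1, x.2.1, ts), ((x.1, x.2.1), t))

theorem mdep_le (t : TR ℝ) (ts : List (TR ℝ)) : mdep ts ≤ mdep (t :: ts) := by
  simp [mdep]

theorem dep_le (t : TR ℝ) (ts : List (TR ℝ)) : t.dep ≤ mdep (t :: ts) := by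
  simp [mdep]

theorem gen (h_RS1 : ∀ (α β γ : Type) [Enc α] [Enc β] [Enc γ], T_RS1 α β γ)
    (h_CSL : ∀ (α β δ : Type) [Enc α] [Enc β] [Enc δ], T_CSL α β δ)
    (h_CON : ∀ (α β : Type) [Enc α] [Enc β], T_CON α β)
    (h_INJ : ∀ (α β : Type) [Enc α] [Enc β], T_INJ α β)
    {E : Type} [Enc E] (c : E → ℕ) (go : E × P → Lf ℝ → Lf ℝ → Bool)
    (tg : E × P → ℝ → TR ℝ → Option (Lf ℝ))
    (hPK : CB (fun x : (E × P) × Option (Lf ℝ) × Option (Lf ℝ) => pickU (go x.1) x.2.1 x.2.2)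
      (fun x => c x.1.1))
    (hTG : CB (fun x : (E × P) × ℝ × TR ℝ => tg x.1 x.2.1 x.2.2)
      (fun x => (c x.1.1 + c x.1.1 + 1) * (x.2.2.dep + 1) ^ 3))
    (tan : E → P → List (TR ℝ) → Option (Lf ℝ)) (h0 : ∀ e f, tan e f [] = none)
    (h1 : ∀ e f t ts, tan e f (t :: ts) = pickU (go (e, f)) (tg (e, f) f.1 t) (tan e f ts)) :
    CB (fun x : E × P × List (TR ℝ) => tan x.1 x.2.1 x.2.2) (fun x => (c x.1 + 1) * pM x.2.2) := by
  -- the combination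
  have e1 : CB (fun z : ((E × P) × TR ℝ) × Option (Lf ℝ) => z.1.1) (fun _ => 0) :=
    comp0 CB.fst CB.fst
  have e2 : CB (fun z : ((E × P) × TR ℝ) × Option (Lf ℝ) => z.1.2) (fun _ => 0) :=
    comp0 CB.snd CB.fst
  have e3 : CB (fun z : ((E × P) × TR ℝ) × Option (Lf ℝ) => z.1.1.2) (fun _ => 0) :=
    comp0 CB.snd e1
  have e4 : CB (fun z : ((E × P) × TR ℝ) × Option (Lf ℝ) => z.1.1.2.1) (fun _ => 0) :=
    comp0 CB.fst e3
  have e5 : CB (fun z : ((E × P) × TR ℝ) × Option (Lf ℝ) => (z.1.1, z.1.1.2.1, z.1.2))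
      (fun _ => 0) := pair0 e1 (pair0 e4 e2)
  have e6 := hTG.comp e5
  have e7 := hPK.comp (e1.pair (e6.pair (CB.snd (α := (E × P) × TR ℝ) (β := Option (Lf ℝ)))))
  have e8 : CB (fun z : ((E × P) × TR ℝ) × Option (Lf ℝ) =>
      pickU (go z.1.1) (tg z.1.1 z.1.1.2.1 z.1.2) z.2)
      (fun z => (c z.1.1.1 + 1) * (z.1.2.dep + 1) ^ 3) := by
    refine e7.mono 3 (fun z => ?_)
    have h2 : 1 ≤ (z.1.2.dep + 1) ^ 3 := Nat.one_le_pow _ _ (Nat.succ_pos _)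
    dsimp only
    nlinarith [Nat.mul_le_mul_left (c z.1.1.1) h2]
  -- the analysis
  have q1 : CB (fun x : E × P × List (TR ℝ) => x.2.2) (fun _ => 0) := comp0 CB.snd CB.snd
  have q2 : CB (fun _ : E × P × List (TR ℝ) =>
      (Sum.inl none : Option (Lf ℝ) ⊕ ((E × P × List (TR ℝ)) × ((E × P) × TR ℝ))))
      (fun _ => 0) :=
    comp0 (h_INJ (Option (Lf ℝ)) ((E × P × List (TR ℝ)) × ((E × P) × TR ℝ))).1
      (h_CON (Lf ℝ) (E × P × List (TR ℝ))).2.2.2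
  have r1 : CB (fun y : (E × P × List (TR ℝ)) × TR ℝ × List (TR ℝ) => y.1.1) (fun _ => 0) :=
    comp0 CB.fst CB.fst
  have r2 : CB (fun y : (E × P × List (TR ℝ)) × TR ℝ × List (TR ℝ) => y.1.2.1) (fun _ => 0) :=
    comp0 CB.fst (comp0 CB.snd CB.fst)
  have r3 : CB (fun y : (E × P × List (TR ℝ)) × TR ℝ × List (TR ℝ) => y.2.1) (fun _ => 0) :=
    comp0 CB.fst CB.snd
  have r4 : CB (fun y : (E × P × List (TR ℝ)) × TR ℝ × List (TR ℝ) => y.2.2) (fun _ => 0) :=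
    comp0 CB.snd CB.snd
  have r5 : CB (fun y : (E × P × List (TR ℝ)) × TR ℝ × List (TR ℝ) =>
      ((y.1.1, y.1.2.1, y.2.2), ((y.1.1, y.1.2.1), y.2.1))) (fun _ => 0) :=
    pair0 (pair0 r1 (pair0 r2 r4)) (pair0 (pair0 r1 r2) r3)
  have r6 : CB (fun y : (E × P × List (TR ℝ)) × TR ℝ × List (TR ℝ) =>
      (Sum.inr ((y.1.1, y.1.2.1, y.2.2), ((y.1.1, y.1.2.1), y.2.1)) :
        Option (Lf ℝ) ⊕ ((E × P × List (TR ℝ)) × ((E × P) × TR ℝ)))) (fun _ => 0) :=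
    comp0 (h_INJ (Option (Lf ℝ)) ((E × P × List (TR ℝ)) × ((E × P) × TR ℝ))).2 r5
  have q3 := h_CSL (E × P × List (TR ℝ)) (TR ℝ)
    (Option (Lf ℝ) ⊕ ((E × P × List (TR ℝ)) × ((E × P) × TR ℝ)))
    (fun x => x.2.2) _ _ _ _ _ q1 q2 r6
  have q4 : CB (fun x : E × P × List (TR ℝ) => qq x) (fun _ => 0) := by
    refine CB.congr (q3.mono (B' := fun _ => 0) 1 (fun x => ?_)) (fun x => ?_)
    · rcases x with ⟨e, p, l⟩
      cases l <;> simp
    · rcases x with ⟨e, p, l⟩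
      cases l <;> rfl
  -- recursion
  have key := h_RS1 (E × P × List (TR ℝ)) (Option (Lf ℝ)) ((E × P) × TR ℝ)
    (fun x => tan x.1 x.2.1 x.2.2) (fun x => qq x)
    (fun z => pickU (go z.1.1) (tg z.1.1 z.1.1.2.1 z.1.2) z.2)
    (fun _ => 0) (fun x => 2 * ((c x.1 + 1) * (x.2.2.length * (mdep x.2.2 + 1) ^ 3)))
    (fun z => (c z.1.1.1 + 1) * (z.1.2.dep + 1) ^ 3) q4 e8 ?_ ?_ ?_
  · refine key.mono 2 (fun x => ?_)
    unfold pM
    have h2 : (c x.1 + 1) * (x.2.2.length * (mdep x.2.2 + 1) ^ 3) ≤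
        (c x.1 + 1) * ((x.2.2.length + 1) * (mdep x.2.2 + 1) ^ 3) :=
      Nat.mul_le_mul_left _ (Nat.mul_le_mul_right _ (Nat.le_succ _))
    omega
  · rintro ⟨e, f, l⟩
    cases l with
    | nil => simp only [qq]; exact h0 e f
    | cons t ts => simp only [qq]; exact h1 e f t ts
  · intro x b _
    exact Nat.zero_le _
  · rintro ⟨e, f, l⟩ y z hq
    cases l with
    | nil => simp [qq] at hq
    | cons t ts =>
      simp only [qq, Sum.inr.injEq, Prod.mk.injEq] at hq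
      obtain ⟨rfl, rfl⟩ := hq
      dsimp only
      have a1 : (t.dep + 1) ^ 3 ≤ (mdep (t :: ts) + 1) ^ 3 :=
        Nat.pow_le_pow_left (Nat.succ_le_succ (dep_le t ts)) 3
      have a2 : (mdep ts + 1) ^ 3 ≤ (mdep (t :: ts) + 1) ^ 3 :=
        Nat.pow_le_pow_left (Nat.succ_le_succ (mdep_le t ts)) 3
      have a3 : 1 ≤ (mdep (t :: ts) + 1) ^ 3 := Nat.one_le_pow _ _ (Nat.succ_pos _)
      rw [List.length_cons]
      generalize (mdep (t :: ts) + 1) ^ 3 = M at *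
      generalize (mdep ts + 1) ^ 3 = M' at *
      generalize (t.dep + 1) ^ 3 = d at *
      generalize ts.length = n at *
      have b1 : (c e + 1) * d ≤ (c e + 1) * M := Nat.mul_le_mul_left _ a1
      have b2 : (c e + 1) * (n * M') ≤ (c e + 1) * (n * M) :=
        Nat.mul_le_mul_left _ (Nat.mul_le_mul_left _ a2)
      have b3 : 1 ≤ (c e + 1) * M := Nat.one_le_iff_ne_zero.mpr
        (Nat.mul_ne_zero (Nat.succ_ne_zero _) (by omega))
      have b4 : (c e + 1) * ((n + 1) * M) = (c e + 1) * (n * M) + (c e + 1) * M := by ring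
      rw [b4]
      omega

end CTR_

/-- Target C_TR. -/
theorem p_C_TR (h_RS1 : ∀ (α β γ : Type) [Enc α] [Enc β] [Enc γ], T_RS1 α β γ)
    (h_CSL : ∀ (α β δ : Type) [Enc α] [Enc β] [Enc δ], T_CSL α β δ)
    (h_CON : ∀ (α β : Type) [Enc α] [Enc β], T_CON α β)
    (h_INJ : ∀ (α β : Type) [Enc α] [Enc β], T_INJ α β)
    (h_C_TG : T_C_TG) (h_C_GO : T_C_GO) (h_C_PK : T_C_PK) : T_C_TR := by
  intro E _ D c hD
  obtain ⟨g1, g2, g3⟩ := h_C_GO E D c hD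
  have p1 := (h_C_PK (E × P) _ _ g1).2
  have p2 := (h_C_PK (E × P) _ _ g2).2
  have t1 := (h_C_TG (E × P) _ _ _ _ g3 g1).1
  have t2 := (h_C_TG (E × P) _ _ _ _ g3 g2).2
  exact ⟨CTR_.gen h_RS1 h_CSL h_CON h_INJ c (fun x => goR (D x.1) x.2)
      (fun x => tanGt (D x.1) (goR (D x.1) x.2)) p1 t1 (fun e f l => tanR (D e) f l)
      (fun _ _ => rfl) (fun _ _ _ _ => rfl),
    CTR_.gen h_RS1 h_CSL h_CON h_INJ c (fun x => goL (D x.1) x.2)
      (fun x => tanLt (D x.1) (goL (D x.1) x.2)) p2 t2 (fun e f l => tanL (D e) f l)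
      (fun _ _ => rfl) (fun _ _ _ _ => rfl)⟩

end Pool.Agent.EVD
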