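import Pool.Agent.EVD.TB

/-!
# EVD: DCO (shape of deco)
-/

set_option autoImplicit false

namespace Pool.Agent.EVD

theorem p_DCO : T_DCO := by
  intro ps lower ft ct l
  induction l with
  | nil =>
    intro a
    refine ⟨by rw [deco]; exact List.Forall₂.nil, ?_⟩
    intro l1 l2 x y h
    rw [deco] at h
    have h1 := congrArg List.length h
    simp only [List.length_append, List.length_cons, List.length_nil] at h1
    omega
  | cons d t ih =>
    intro a
    have e : deco ps lower ft ct a.s (d :: t) =
        ⟨d.s, d.h, d.sx, d.sk, mkNode ps lower ft none a.s a.s d.s, critQ ps lower ft ct d⟩ ::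
          deco ps lower ft ct d.s t := by rw [deco]
    obtain ⟨ih1, ih2⟩ := ih
      ⟨d.s, d.h, d.sx, d.sk, mkNode ps lower ft none a.s a.s d.s, critQ ps lower ft ct d⟩
    refine ⟨?_, ?_⟩
    · rw [e]
      exact List.Forall₂.cons ⟨rfl, rfl, rfl⟩ ih1
    · intro l1 l2 x y h
      rw [e] at h
      rcases l1 with _ | ⟨b, l1⟩
      · rw [List.nil_append, List.cons.injEq, List.cons.injEq] at h
        obtain ⟨rfl, rfl, -⟩ := h
        rfl
      · rw [List.cons_append, List.cons.injEq] at h
        exact ih2 l1 l2 x y h.2

end Pool.Agent.EVD
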