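import Pool.Agent.EVD.TG

/-! # EVD: circumcentre height as chord condition -/

namespace Pool.Agent.EVD

theorem DET_key (a b c : P) (y : ℝ) :
    (zl y c - zl y a) * (b.1 - a.1) - (zl y b - zl y a) * (c.1 - a.1) =
      2 * y * ccB a b c - ccA a b c := by
  unfold zl ccA ccB
  ring

theorem p_DET : T_DET := by
  intro a b c y h
  have h2 : (0 : ℝ) < 2 * ccB a b c := by linarith
  have key := DET_key a b c y
  refine ⟨?_, ?_, ?_⟩
  · rw [cc, div_lt_iff₀ h2, Blw]
    constructor <;> intro h' <;> linarith
  · rw [cc, div_le_iff₀ h2]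
    constructor <;> intro h' <;> linarith
  · rw [cc, div_eq_iff h2.ne']
    constructor <;> intro h' <;> linarith

end Pool.Agent.EVD
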