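import Pool.Agent.EVD.TG

/-! # EVD: `find` on the query tree (target FND) -/

set_option autoImplicit false

namespace Pool.Agent.EVD

theorem p_FND : T_FND := by
  intro t q
  induction t with
  | stop =>
    intro best
    exact ⟨le_refl _, fun s hs => hs.elim, Or.inl rfl⟩
  | cand s rest ih =>
    intro best
    obtain ⟨h1, h2, h3⟩ := ih (if dsq q s < dsq q best then s else best)
    have hb : dsq q (if dsq q s < dsq q best then s else best) ≤ dsq q best ∧
        dsq q (if dsq q s < dsq q best then s else best) ≤ dsq q s := by
      split_ifs with h
      · exact ⟨h.le, le_refl _⟩
      · exact ⟨le_refl _, not_lt.1 h⟩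
    refine ⟨h1.trans hb.1, fun s' hs' => ?_, ?_⟩
    · rcases hs' with rfl | hs'
      · exact h1.trans hb.2
      · exact h2 s' hs'
    · rcases h3 with h3 | h3
      · by_cases h : dsq q s < dsq q best
        · rw [if_pos h] at h3
          right
          left
          simp only [QT.find]
          rw [if_pos h]
          exact h3
        · rw [if_neg h] at h3
          left
          simp only [QT.find]
          rw [if_neg h]
          exact h3
      · right
        right
        exact h3
  | test a b c yes no ihy ihn =>
    intro best
    by_cases h : a * q.1 + b * q.2 < c
    · have e1 : (QT.test a b c yes no).find q best = yes.find q best := by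
        simp only [QT.find]
        rw [if_pos h]
      have e2 : ∀ s, (QT.test a b c yes no).Seen q s ↔ yes.Seen q s := by
        intro s
        simp only [QT.Seen]
        rw [if_pos h]
      simp only [e1, e2]
      exact ihy best
    · have e1 : (QT.test a b c yes no).find q best = no.find q best := by
        simp only [QT.find]
        rw [if_neg h]
      have e2 : ∀ s, (QT.test a b c yes no).Seen q s ↔ no.Seen q s := by
        intro s
        simp only [QT.Seen]
        rw [if_neg h]
      simp only [e1, e2]
      exact ihn best

end Pool.Agent.EVD
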