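import Pool.Agent.EVD.TG

/-! # EVD: one gap -/

namespace Pool.Agent.EVD

theorem p_GAP (h_HF : T_HF) : T_GAP := by
  intro S S' D p1 p2 d hfin hchn hcut hsub h1 h2 h1d hd2 hS hd
  by_contra hnd
  obtain ⟨g, g', hg, hg', hgd, hdg', hD, hno⟩ := h_HF S D d hfin hchn hcut (hsub hd.1) hnd
  have a1 : p1.1 ≤ g.1 := by
    by_contra hc
    exact hno p1 h1 ⟨lt_of_not_ge hc, h1d.trans hdg'⟩
  have a2 : g'.1 ≤ p2.1 := by
    by_contra hc
    exact hno p2 h2 ⟨hgd.trans hd2, lt_of_not_ge hc⟩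
  have b1 : g ∈ S' := hS g hg a1 (hgd.trans hd2).le
  have b2 : g' ∈ S' := hS g' hg' (h1d.trans hdg').le a2
  have b3 := hd.2 g b1 g' b2 hgd hdg'
  rw [hD] at b3
  exact Bool.false_ne_true b3

end Pool.Agent.EVD
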