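import Pool.Agent.EVD.TB

/-! # EVD-GQ: gap structure around a finger -/

set_option autoImplicit false

namespace Pool.Agent.EVD

namespace GQ_

/-- the leftmost element of the sample -/
theorem left_end {S' : Set P} {ct : TR ℝ} (hfin : S'.Finite) (hch : Chn S') (hlow : LowOK S' ct)
    {p : P} (hp : p ∈ S') (hps : p ∉ sites ct.toL) :
    ∃ d ∈ ct.toL, d.h = none ∧ d.s.1 < p.1 := by
  obtain ⟨w, hw, hmin⟩ := Set.exists_min_image S' (fun u => u.1) hfin ⟨p, hp⟩
  obtain ⟨_, hel, hext, _, _⟩ := hlow
  obtain ⟨⟨d, hd, hdw⟩, _⟩ := hext w hw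
  obtain ⟨hdS, hdH⟩ := hel d hd
  refine ⟨d, hd, ?_, ?_⟩
  · cases hh : d.h with
    | none => rfl
    | some r =>
      rw [hh] at hdH
      obtain ⟨⟨a, ha, c, hc, h1, h2, h3⟩, _⟩ := hdH
      have h4 := hmin a ha
      exact absurd h1 (not_lt.2 (hdw.trans h4))
  · have h1 : d.s.1 ≤ p.1 := hdw.trans (hmin p hp)
    rcases lt_or_eq_of_le h1 with h | h
    · exact h
    · exfalso
      apply hps
      exact ⟨d, hd, hch.eq hdS hp h⟩

/-- the rightmost element of the sample -/
theorem right_end {S' : Set P} {ct : TR ℝ} (hfin : S'.Finite) (hch : Chn S') (hlow : LowOK S' ct)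
    {p : P} (hp : p ∈ S') (hps : p ∉ sites ct.toL) :
    ∃ d ∈ ct.toL, d.h = none ∧ p.1 < d.s.1 := by
  obtain ⟨w, hw, hmax⟩ := Set.exists_max_image S' (fun u => u.1) hfin ⟨p, hp⟩
  obtain ⟨_, hel, hext, _, _⟩ := hlow
  obtain ⟨_, ⟨d, hd, hdw⟩⟩ := hext w hw
  obtain ⟨hdS, hdH⟩ := hel d hd
  refine ⟨d, hd, ?_, ?_⟩
  · cases hh : d.h with
    | none => rfl
    | some r =>
      rw [hh] at hdH
      obtain ⟨⟨a, ha, c, hc, h1, h2, h3⟩, _⟩ := hdH
      have h4 := hmax c hc
      exact absurd h2 (not_lt.2 (le_trans h4 hdw))
  · have h1 : p.1 ≤ d.s.1 := le_trans (hmax p hp) hdw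
    rcases lt_or_eq_of_le h1 with h | h
    · exact h
    · exfalso
      apply hps
      exact ⟨d, hd, hch.eq hdS hp h.symm⟩

end GQ_

open GQ_ in
theorem p_GQ (h_LT : T_A_LT) (h_AMIN : T_A_MIN) : T_GQ := by
  intro S' ct T p q s hfin hch hlow hp hps hs hss hNN hleT hiff
  have hlow' := hlow
  obtain ⟨hok, hel, hext, h4, h5⟩ := hlow'
  have hcut := cut_cutT T
  obtain ⟨hlast, _⟩ := h_LT (cutT T) p.1 ct hcut hok
  obtain ⟨_, hfirst⟩ := h_LT (cutT T) p.1 ct hcut hok
  cases hl : lastLt (cutT T) p.1 ct with
  | none =>
    exfalso
    rw [hl] at hlast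
    obtain ⟨d, hd, hdn, hdp⟩ := left_end hfin hch hlow hp hps
    have h := hlast d hd hdp
    rw [hdn] at h
    simp [live] at h
  | some c =>
    cases hf : firstGt (cutT T) p.1 ct with
    | none =>
      exfalso
      rw [hf] at hfirst
      obtain ⟨d, hd, hdn, hdp⟩ := right_end hfin hch hlow hp hps
      have h := hfirst d hd hdp
      rw [hdn] at h
      simp [live] at h
    | some c' =>
      rw [hl] at hlast
      rw [hf] at hfirst
      obtain ⟨hc, hcp, hcl, hcd⟩ := hlast
      obtain ⟨hc', hcp', hcl', hcd'⟩ := hfirst
      have hcs : c.s.1 < s.1 := (hiff c hc hcl).1 hcp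
      have hcs' : s.1 < c'.s.1 := by
        have h1 : ¬ c'.s.1 < s.1 := fun h => absurd ((hiff c' hc' hcl').2 h) (not_lt.2 hcp'.le)
        rcases lt_or_eq_of_le (not_lt.1 h1) with h | h
        · exact h
        · exact absurd ⟨c', hc', hch.eq (hel c' hc').1 hs h.symm⟩ hss
      have hcc' : c.s.1 < c'.s.1 := hcs.trans hcs'
      have hdead : ∀ e ∈ ct.toL, c.s.1 < e.s.1 → e.s.1 < c'.s.1 →
          live (cutT T) e.h = false := by
        intro e he h1 h2
        rcases lt_trichotomy e.s.1 p.1 with h | h | h
        · exact hcd e he h h1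
        · exact absurd ⟨e, he, hch.eq (hel e he).1 hp h⟩ hps
        · exact hcd' e he h h2
      have hmin := (h_AMIN ct c.s.1 c'.s.1 hok).2.2
      simp only [gapQ, hl, hf]
      cases hm : minIn c.s.1 c'.s.1 ct with
      | none =>
        rw [hm] at hmin
        dsimp only
        refine h4 c hc c' hc' hcc' (fun e he h => hmin e he h) q s ?_ hNN hcs hcs'
        intro t ht
        exact absurd ht (by simp)
      | some d =>
        rw [hm] at hmin
        dsimp only
        obtain ⟨hd, ⟨hd1, hd2⟩, hdm⟩ := hmin
        have hdl := hdead d hd hd1 hd2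
        cases hdh : d.h with
        | none =>
          rw [hdh] at hdl
          simp [live] at hdl
        | some h =>
          rw [hdh] at hdl
          cases T with
          | none => simp [live, cutT] at hdl
          | some t =>
            have hth : t ≤ h := by
              have h1 : cutT (some t) h = false := hdl
              exact (cutT_some_false t h).1 h1
            have hlive : ∀ o : Option ℝ, live (cutT (some t)) o = true →
                live (cutT (some h)) o = true := by
              intro o ho
              cases o with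
              | none => rfl
              | some r =>
                have h1 : cutT (some t) r = true := ho
                have h2 := (cutT_some t r).1 h1
                exact (cutT_some h r).2 (lt_of_lt_of_le h2 hth)
            refine h5 c hc c' hc' d hd h hdh hd1 hd2 (hlive _ hcl) (hlive _ hcl') ?_ q s ?_ hNN
              hcs hcs'
            · intro e he h1 h2
              have h3 := hdm e he ⟨h1, h2⟩
              rw [hdh] at h3
              cases heh : e.h with
              | none =>
                rw [heh] at h3
                simp [hle] at h3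
              | some r =>
                rw [heh] at h3
                simp only [hle, decide_eq_true_eq] at h3
                exact (cutT_some_false h r).2 h3
            · intro t' ht'
              have h1 : h = t' := by simpa using ht'
              rw [← h1]
              exact (hleT t rfl).trans hth

end Pool.Agent.EVD
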