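import Pool.Agent.EVD.TB

/-! # EVD: insertion keeps the invariant of the slots -/

set_option autoImplicit false

namespace Pool.Agent.EVD

namespace INS_

theorem mem_lset (l : List P) (p : P) : p ∈ lset l ↔ p ∈ l := Iff.rfl

theorem lset_nil : lset [] = ∅ := by
  ext p
  simp [lset]

theorem lset_ne {l : List P} (h : l ≠ []) : (lset l).Nonempty := by
  cases l with
  | nil => exact absurd rfl h
  | cons a l => exact ⟨a, by simp [lset]⟩

theorem lset_fin (l : List P) : (lset l).Finite := List.finite_toSet l

/-- the first slot filled with a new part -/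
theorem fill (h_PART : T_A_PART) {rest : List (Slot ℝ)} {S' : Set P} {acc : List P}
    {aps : List (TR ℝ)} (hrest : SlotsOK rest S') (hsrt : SrtP acc) (hne : acc ≠ [])
    (hp : PartsOK (lset acc) aps) (hd : Disjoint (lset acc) S') (hc : Chn (lset acc ∪ S')) :
    SlotsOK (mkSlot acc (build (acc.map (mkLf aps))) rest :: rest) (lset acc ∪ S') := by
  obtain ⟨t, hb, hPO, -, -⟩ := h_PART (lset acc) aps acc (hc.mono Set.subset_union_left) hp hsrt
    (fun p => Iff.rfl) hne
  refine ⟨(lset_ne hne).mono Set.subset_union_left, S', hrest, rfl, hd, hsrt, ?_, rfl⟩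
  show PartN acc (build (acc.map (mkLf aps)))
  rw [hb]
  exact hPO

end INS_

open INS_

theorem p_INS (h_PART : T_A_PART) (h_MRG : T_A_MRG) : T_INS := by
  intro sl
  induction sl with
  | nil =>
    intro S acc aps hS hsrt hne hp hd _ hc
    exact fill h_PART (rest := []) (S' := S) hS hsrt hne hp hd hc
  | cons s rest ih =>
    intro S acc aps hS hsrt hne hp hd hfin hc
    obtain ⟨hSne, S', hrest, hSeq, hdis, hsN, hPN, hs⟩ := hS
    have hS'S : S' ⊆ S := by rw [hSeq]; exact Set.subset_union_right
    have hNS : lset s.N ⊆ S := by rw [hSeq]; exact Set.subset_union_left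
    cases hpart : s.part with
    | none =>
      rw [hpart] at hPN
      have hN : s.N = [] := hPN
      have hSS : S = S' := by rw [hSeq, hN, lset_nil, Set.empty_union]
      have e : insS (s :: rest) acc aps = mkSlot acc (build (acc.map (mkLf aps))) rest :: rest := by
        simp only [insS, hpart]
      rw [e, hSS]
      rw [hSS] at hd hc
      exact fill h_PART hrest hsrt hne hp hd hc
    | some t =>
      rw [hpart] at hPN
      have hPt : PartOK (lset s.N) t := hPN
      have e : insS (s :: rest) acc aps =
          mkSlot [] none (insS rest (mrg acc s.N) (t :: aps)) ::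
            insS rest (mrg acc s.N) (t :: aps) := by
        simp only [insS, hpart]
      rw [e]
      obtain ⟨m1, m2, m3⟩ := h_MRG acc s.N
      have hset : lset (mrg acc s.N) = lset acc ∪ lset s.N := by
        ext p
        rw [Set.mem_union]
        exact m2 p
      have hne' : mrg acc s.N ≠ [] := by
        intro h0
        rw [h0, List.length_nil] at m3
        have : acc.length = 0 := by omega
        exact hne (List.length_eq_zero_iff.1 this)
      have hsrt' : SrtP (mrg acc s.N) := by
        refine m1 hsrt hsN (fun a ha b hb hab => ?_)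
        have haa : a ∈ lset acc := ha
        have hbb : b ∈ S := hNS hb
        have hab' : a = b := hc.eq (Or.inl haa) (Or.inr hbb) hab
        rw [← hab'] at hbb
        exact Set.disjoint_left.1 hd haa hbb
      have hp' : PartsOK (lset (mrg acc s.N)) (t :: aps) :=
        ⟨lset s.N, lset acc, by rw [hset, Set.union_comm], hPt, hp⟩
      have hd' : Disjoint (lset (mrg acc s.N)) S' := by
        rw [hset, Set.disjoint_union_left]
        exact ⟨hd.mono_right hS'S, hdis⟩
      have hc' : Chn (lset (mrg acc s.N) ∪ S') := by
        refine hc.mono ?_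
        rw [hset, Set.union_assoc, ← hSeq]
      have key := ih S' (mrg acc s.N) (t :: aps) hrest hsrt' hne' hp' hd' (hfin.subset hS'S) hc'
      refine ⟨(lset_ne hne).mono Set.subset_union_left, lset (mrg acc s.N) ∪ S', key, ?_, ?_,
        List.Pairwise.nil, rfl, rfl⟩
      · show lset acc ∪ S = lset [] ∪ (lset (mrg acc s.N) ∪ S')
        rw [lset_nil, Set.empty_union, hset, Set.union_assoc, ← hSeq]
      · show Disjoint (lset []) _
        rw [lset_nil]
        exact Set.empty_disjoint _

end Pool.Agent.EVD
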