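import Pool.Agent.EVD.TB

/-!
# EVD: one level (helper14)
-/

set_option autoImplicit false

namespace Pool.Agent.EVD

namespace LEV_

theorem head_le {l : List (Lf ℝ)} (h : Srt l) {a : Lf ℝ} (ha : l.head? = some a) :
    a ∈ l ∧ ∀ d ∈ l, a.s.1 ≤ d.s.1 := by
  cases l with
  | nil => simp at ha
  | cons b t =>
    simp only [List.head?_cons, Option.some.injEq] at ha
    subst ha
    unfold Srt at h
    rw [List.pairwise_cons] at h
    refine ⟨List.mem_cons_self, fun d hd => ?_⟩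
    rcases List.mem_cons.1 hd with hd | hd
    · rw [hd]
    · exact (h.1 d hd).le

theorem le_last {l : List (Lf ℝ)} (h : Srt l) {z : Lf ℝ} (hz : l.getLast? = some z) :
    z ∈ l ∧ ∀ d ∈ l, d.s.1 ≤ z.s.1 := by
  have hm : z ∈ l := List.mem_of_getLast? hz
  refine ⟨hm, fun d hd => ?_⟩
  have hne : l ≠ [] := List.ne_nil_of_mem hm
  have hzl : l.getLast hne = z := by
    rw [List.getLast?_eq_some_getLast hne] at hz
    exact Option.some.inj hz
  have happ := List.dropLast_append_getLast hne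
  rw [hzl] at happ
  rw [← happ] at hd
  unfold Srt at h
  rw [← happ, List.pairwise_append] at h
  rcases List.mem_append.1 hd with hd | hd
  · exact (h.2.2 d hd z (by simp)).le
  · simp only [List.mem_singleton] at hd
    rw [hd]

theorem adj {L : List (Lf ℝ)} (h : Srt L) {c c' : Lf ℝ} (hc : c ∈ L) (hc' : c' ∈ L)
    (hlt : c.s.1 < c'.s.1) (hno : ∀ e ∈ L, ¬ (c.s.1 < e.s.1 ∧ e.s.1 < c'.s.1)) :
    ∃ l1 l2, L = l1 ++ c :: c' :: l2 := by
  obtain ⟨l1, l', rfl⟩ := List.append_of_mem hc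
  have hS := h
  unfold Srt at h
  rw [List.pairwise_append, List.pairwise_cons] at h
  obtain ⟨h1, ⟨h2, h3⟩, h4⟩ := h
  have hm : c' ∈ l' := by
    rcases List.mem_append.1 hc' with h5 | h5
    · exact absurd (h4 c' h5 c List.mem_cons_self) (not_lt.2 hlt.le)
    · rcases List.mem_cons.1 h5 with h6 | h6
      · rw [h6] at hlt
        exact absurd hlt (lt_irrefl _)
      · exact h6
  cases l' with
  | nil => simp at hm
  | cons y l2 =>
    have hy : y.s.1 ≤ c'.s.1 := by
      rw [List.pairwise_cons] at h3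
      rcases List.mem_cons.1 hm with h6 | h6
      · rw [h6]
      · exact (h3.1 c' h6).le
    have hcy : c.s.1 < y.s.1 := h2 y List.mem_cons_self
    have hyL : y ∈ l1 ++ c :: y :: l2 := by simp
    have he : y.s.1 = c'.s.1 := by
      rcases hy.lt_or_eq with h6 | h6
      · exact absurd ⟨hcy, h6⟩ (hno y hyL)
      · exact h6
    have hyc : y = c' := hS.eq hyL hc' he
    exact ⟨l1, l2, by rw [hyc]⟩

theorem live_none (h : Option ℝ) : live (cutT (none : Option ℝ)) h = true := by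
  cases h <;> rfl

theorem crit_congr (ps : List (TR ℝ)) (lower : Option (TR ℝ)) (ft ct : TR ℝ) (d d0 : Lf ℝ)
    (hs : d0.s = d.s) (hh : d0.h = d.h) :
    critQ ps lower ft ct d = critQ ps lower ft ct d0 := by
  unfold critQ
  rw [hs, hh]

end LEV_

open LEV_ in
theorem p_LEV (h_LVA : T_LVA) (h_SMA : T_SMA) (h_SMC : T_SMC) (h_NOD : T_NOD) (h_CRI : T_CRI) :
    T_LEV := by
  intro S S' ps lower F hyp
  obtain ⟨ft, ct, t, hft, hftL, hct, hctL, hbuild, ht, htL, hmap, hel, hadj⟩ :=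
    h_LVA ps lower F hyp.srt hyp.ne
  obtain ⟨hsub, hhead, hlast, -⟩ := h_SMA F
  have corr : ∀ d ∈ levC ps lower F, ∃ d0 ∈ sample F, d0.s = d.s ∧ d0.h = d.h := by
    intro d hd
    have h1 : (d.s, d.h) ∈ (levC ps lower F).map (fun d => (d.s, d.h)) :=
      List.mem_map.2 ⟨d, hd, rfl⟩
    rw [hmap] at h1
    obtain ⟨d0, h2, h3⟩ := List.mem_map.1 h1
    rw [Prod.mk.injEq] at h3
    exact ⟨d0, h2, h3.1, h3.2⟩
  have corr' : ∀ d0 ∈ sample F, ∃ d ∈ levC ps lower F, d.s = d0.s ∧ d.h = d0.h := by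
    intro d hd
    have h1 : (d.s, d.h) ∈ (sample F).map (fun d => (d.s, d.h)) :=
      List.mem_map.2 ⟨d, hd, rfl⟩
    rw [← hmap] at h1
    obtain ⟨d0, h2, h3⟩ := List.mem_map.1 h1
    rw [Prod.mk.injEq] at h3
    exact ⟨d0, h2, h3.1, h3.2⟩
  have hmem : ∀ d ∈ levC ps lower F, d.s ∈ S ∧ IsH S d.s d.h := by
    intro d hd
    obtain ⟨d0, h0, hs, hh⟩ := corr d hd
    obtain ⟨h1, h2, -⟩ := hyp.ok d0 (hsub.subset h0)
    rw [← hs, ← hh]
    exact ⟨h1, h2⟩
  have hSL : Srt (levC ps lower F) := by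
    rw [← htL]
    exact ht.2
  refine ⟨t, hbuild, ⟨ht, ?_, ?_, ?_, ?_⟩, htL⟩
  · rw [htL]
    exact hmem
  · rw [htL]
    intro s hs
    obtain ⟨⟨d, hd, hds⟩, ⟨e, he, hes⟩⟩ := hyp.ext s hs
    constructor
    · obtain ⟨a, ha⟩ : ∃ a, F.head? = some a := by
        cases hF : F with
        | nil => exact absurd hF hyp.ne
        | cons a t => exact ⟨a, rfl⟩
      have h1 := head_le hyp.srt ha
      have h2 : a ∈ sample F := by
        rw [← hhead] at ha
        exact List.mem_of_mem_head? ha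
      obtain ⟨a', h3, h4, -⟩ := corr' a h2
      exact ⟨a', h3, by rw [h4]; exact (h1.2 d hd).trans hds⟩
    · obtain ⟨z, hz⟩ : ∃ z, F.getLast? = some z :=
        ⟨F.getLast hyp.ne, List.getLast?_eq_some_getLast hyp.ne⟩
      have h1 := le_last hyp.srt hz
      have h2 : z ∈ sample F := by
        rw [← hlast] at hz
        exact List.mem_of_getLast? hz
      obtain ⟨z', h3, h4, -⟩ := corr' z h2
      exact ⟨z', h3, by rw [h4]; exact hes.trans (h1.2 e he)⟩
  · rw [htL]
    intro c hc c' hc' hlt hno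
    obtain ⟨l1, l2, hL⟩ := adj hSL hc hc' hlt hno
    rw [hadj l1 l2 c c' hL]
    obtain ⟨c0, hc0, hcs, hch⟩ := corr c hc
    obtain ⟨c0', hc0', hcs', hch'⟩ := corr c' hc'
    have hlen := h_SMC (cutT none) F c0 c0' (cut_cutT none) hyp.srt hc0 hc0'
      (by rw [hcs, hcs']; exact hlt) (live_none _) (live_none _) (by
        intro e he h1 h2
        obtain ⟨e', he', hes, -⟩ := corr' e he
        rw [hcs, ← hes] at h1
        rw [hcs', ← hes] at h2
        exact absurd ⟨h1, h2⟩ (hno e' he'))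
    rw [hcs, hcs'] at hlen
    exact h_NOD S S' ps lower F ft none c.s c.s c'.s hyp hft hftL (hmem c hc).1 (hmem c' hc').1 hlt
      ⟨(hmem c hc).1, fun t ht => by cases ht⟩ le_rfl hlt.le (fun h => lt_irrefl _ h.2.1) hlen
  · rw [htL]
    intro c hc c' hc' d hd h hdh h1 h2 h3 h4 h5
    obtain ⟨c0, hc0, hcs, hch⟩ := corr c hc
    obtain ⟨c0', hc0', hcs', hch'⟩ := corr c' hc'
    obtain ⟨d0, hd0, hds, hdh'⟩ := corr d hd
    rcases hel d hd with h6 | h6
    · exact absurd h1 (not_lt.2 (h6.2 c hc))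
    · rw [h6.1, crit_congr ps lower ft ct d d0 hds hdh', ← hcs, ← hcs']
      refine h_CRI S S' ps lower F ft ct c0 c0' d0 h hyp hft hftL hct hctL hc0 hc0' hd0
        (by rw [hdh', hdh]) (by rw [hcs, hds]; exact h1) (by rw [hds, hcs']; exact h2)
        (by rw [hch]; exact h3) (by rw [hch']; exact h4) ?_
      intro e he h7 h8
      obtain ⟨e', he', hes, heh⟩ := corr' e he
      rw [← heh]
      refine h5 e' he' ?_ ?_
      · rw [hes, ← hcs]; exact h7
      · rw [hes, ← hcs']; exact h8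

end Pool.Agent.EVD
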