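import Pool.Agent.EVD.TT

/-! # EVD: facts on the lexicographic order -/

namespace Pool.Agent.EVD

namespace LEX_

theorem iff' (a b : P) : lexlt a b = true ↔ a.1 < b.1 ∨ (a.1 = b.1 ∧ a.2 < b.2) := by
  unfold lexlt
  rcases lt_trichotomy a.1 b.1 with h | h | h <;> rcases lt_or_ge a.2 b.2 with h2 | h2 <;>
    simp_all [not_lt.mpr, le_of_lt]
  all_goals (intro h3; linarith)

theorem notlt (a b : P) : lexlt a b = false ↔ b.1 < a.1 ∨ (a.1 = b.1 ∧ b.2 ≤ a.2) := by
  rw [← Bool.not_eq_true, iff']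
  rcases lt_trichotomy a.1 b.1 with h | h | h
  · simp [h, h.ne, h.le, not_lt.mpr h.le]
  · simp [h]
  · simp [h, h.ne', h.le, not_lt.mpr h.le]

end LEX_

open LEX_ in
theorem p_LEX : T_LEX := by
  refine ⟨iff', ?_, ?_, ?_, ?_⟩
  · intro a b h1 h2
    rw [notlt] at h1 h2
    rcases h1 with h1 | ⟨h1, h1'⟩ <;> rcases h2 with h2 | ⟨h2, h2'⟩
    · linarith
    · linarith
    · linarith
    · exact Prod.ext h1 (le_antisymm h2' h1')
  · intro a b c h1 h2
    rw [iff'] at h1 h2 ⊢
    rcases h1 with h1 | ⟨h1, h1'⟩ <;> rcases h2 with h2 | ⟨h2, h2'⟩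
    · left; linarith
    · left; linarith
    · left; linarith
    · right; exact ⟨h1.trans h2, h1'.trans h2'⟩
  · intro a b h
    rw [iff'] at h
    rw [notlt]
    rcases h with h | ⟨h, h'⟩
    · left; exact h
    · right; exact ⟨h.symm, h'.le⟩
  · intro a b h hne
    rw [notlt] at h
    rw [iff']
    rcases h with h | ⟨h, h'⟩
    · left; exact h
    · rcases h'.lt_or_eq with h2 | h2
      · right; exact ⟨h.symm, h2⟩
      · exact absurd (Prod.ext h h2.symm) hne

end Pool.Agent.EVD
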