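import Pool.Agent.EVD.TB

/-! # EVD: basics of `levC` -/

namespace Pool.Agent.EVD

namespace LVA_

theorem critQ_cg (ps : List (TR ℝ)) (lower : Option (TR ℝ)) (ft ct : TR ℝ) (d e : Lf ℝ)
    (hs : d.s = e.s) (hh : d.h = e.h) : critQ ps lower ft ct d = critQ ps lower ft ct e := by
  unfold critQ
  rw [hs, hh]

/-- a member of the tail has a predecessor -/
theorem pred_split {α : Type} (a : α) (l : List α) (d : α) (hd : d ∈ l) :
    ∃ l1 l2 x, a :: l = l1 ++ x :: d :: l2 := by
  induction l generalizing a with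
  | nil => exact absurd hd (List.not_mem_nil)
  | cons b t ih =>
    rcases List.mem_cons.1 hd with rfl | h
    · exact ⟨[], t, a, rfl⟩
    · obtain ⟨l1, l2, x, hx⟩ := ih b h
      exact ⟨a :: l1, l2, x, by rw [hx]; rfl⟩

theorem map_eq {l m : List (Lf ℝ)} {R : Lf ℝ → Lf ℝ → Prop}
    (hR : ∀ d d', R d d' → d'.s = d.s ∧ d'.h = d.h) (h : List.Forall₂ R l m) :
    m.map (fun d => (d.s, d.h)) = l.map (fun d => (d.s, d.h)) := by
  induction h with
  | nil => rfl
  | cons h1 _ ih =>
    obtain ⟨e1, e2⟩ := hR _ _ h1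
    rw [List.map_cons, List.map_cons, ih, e1, e2]

theorem fa_mem {α β : Type} {R : α → β → Prop} {l : List α} {m : List β}
    (h : List.Forall₂ R l m) {d : β} (hd : d ∈ m) : ∃ d0 ∈ l, R d0 d := by
  induction h with
  | nil => exact absurd hd (List.not_mem_nil)
  | cons h1 _ ih =>
    rcases List.mem_cons.1 hd with rfl | h
    · exact ⟨_, List.mem_cons_self, h1⟩
    · obtain ⟨d0, hd0, hR⟩ := ih h
      exact ⟨d0, List.mem_cons_of_mem _ hd0, hR⟩

theorem srt_iff (l : List (Lf ℝ)) :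
    Srt l ↔ (l.map (fun d => (d.s, d.h))).Pairwise (fun a b => a.1.1 < b.1.1) := by
  unfold Srt
  rw [List.pairwise_map]

end LVA_

open LVA_ in
theorem p_LVA (h_A_BLD : T_A_BLD) (h_SMA : T_SMA) (h_DCO : T_DCO) : T_LVA := by
  intro ps lower F hF hne
  obtain ⟨ft, hft1, hft2, hft3, -⟩ := h_A_BLD.2 F hne
  obtain ⟨s1, s2, -, -⟩ := h_SMA F
  have hsne : sample F ≠ [] := by
    intro h
    rw [h] at s2
    cases F with
    | nil => exact hne rfl
    | cons b l => simp at s2
  obtain ⟨ct, hct1, hct2, hct3, -⟩ := h_A_BLD.2 (sample F) hsne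
  have hsS : Srt (sample F) := List.Pairwise.sublist s1 hF
  obtain ⟨a, t, hat⟩ : ∃ a t, sample F = a :: t := List.exists_cons_of_ne_nil hsne
  have hlev : levC ps lower F = a :: deco ps lower ft ct a.s t := by
    unfold levC
    rw [hft1, hct1, hat]
  obtain ⟨d1, d2⟩ := h_DCO ps lower ft ct t a
  have hmap : (levC ps lower F).map (fun d => (d.s, d.h)) =
      (sample F).map (fun d => (d.s, d.h)) := by
    rw [hlev, hat, List.map_cons, List.map_cons,
      map_eq (R := fun d d' : Lf ℝ => d'.s = d.s ∧ d'.h = d.h ∧ d'.q2 = critQ ps lower ft ct d)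
        (fun d d' h => ⟨h.1, h.2.1⟩) d1]
  have hlS : Srt (levC ps lower F) := by
    rw [srt_iff, hmap, ← srt_iff]; exact hsS
  have hlne : levC ps lower F ≠ [] := by rw [hlev]; exact List.cons_ne_nil _ _
  obtain ⟨lt, hlt1, hlt2, hlt3, -⟩ := h_A_BLD.2 (levC ps lower F) hlne
  have hq : ∀ (l1 l2 : List (Lf ℝ)) (x y : Lf ℝ), levC ps lower F = l1 ++ x :: y :: l2 →
      y.q1 = mkNode ps lower ft none x.s x.s y.s := by
    intro l1 l2 x y h
    rw [hlev] at h
    exact d2 l1 l2 x y h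
  refine ⟨ft, ct, lt, ⟨hft2, by rw [hft3]; exact hF⟩, hft3, ⟨hct2, by rw [hct3]; exact hsS⟩, hct3,
    hlt1, ⟨hlt2, by rw [hlt3]; exact hlS⟩, hlt3, hmap, ?_, hq⟩
  intro d hd
  have hd' := hd
  rw [hlev] at hd'
  rcases List.mem_cons.1 hd' with rfl | hdt
  · left
    refine ⟨s1.subset (by rw [hat]; exact List.mem_cons_self), ?_⟩
    intro e he
    rw [hlev] at he
    rcases List.mem_cons.1 he with rfl | het
    · exact le_rfl
    · have := hlS
      rw [hlev] at this
      exact ((List.pairwise_cons.1 this).1 e het).le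
  · right
    constructor
    · obtain ⟨d0, -, hd0⟩ := fa_mem d1 hdt
      rw [hd0.2.2]
      exact (critQ_cg ps lower ft ct d d0 hd0.1 hd0.2.1).symm
    · obtain ⟨l1, l2, x, hx⟩ := pred_split a _ d hdt
      rw [← hlev] at hx
      have hxm : x ∈ levC ps lower F := by rw [hx]; simp
      have hxp : (x.s, x.h) ∈ (sample F).map (fun d => (d.s, d.h)) := by
        rw [← hmap]
        exact List.mem_map_of_mem hxm
      obtain ⟨x0, hx0, hx0'⟩ := List.mem_map.1 hxp
      refine ⟨x0, hx0, ?_⟩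
      have e1 : x0.s = x.s := (Prod.ext_iff.1 hx0').1
      rw [e1]
      exact hq l1 l2 x d hx

end Pool.Agent.EVD
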