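import Pool.Agent.EVD.TB

/-! # EVD: level data of the first slot (target `T_LVH`) -/

namespace Pool.Agent.EVD

namespace LVH_

theorem smp_sub {S : Set P} {o : Option (TR ℝ)} (h : LowO S o) : smp o ⊆ S := by
  cases o with
  | none => intro x hx; exact absurd hx (Set.notMem_empty x)
  | some ct =>
    rintro x ⟨d, hd, rfl⟩
    exact (h.2.1 d hd).1

theorem ext_smp {S : Set P} {o : Option (TR ℝ)} (h : LowO S o) :
    ∀ x ∈ S, (∃ y ∈ smp o, y.1 ≤ x.1) ∧ ∃ y ∈ smp o, x.1 ≤ y.1 := by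
  intro x hx
  cases o with
  | none =>
    have h' : S = ∅ := h
    rw [h'] at hx
    exact absurd hx (Set.notMem_empty x)
  | some ct =>
    obtain ⟨⟨d, hd, h1⟩, ⟨e, he, h2⟩⟩ := h.2.2.1 x hx
    exact ⟨⟨d.s, ⟨d, hd, rfl⟩, h1⟩, ⟨e.s, ⟨e, he, rfl⟩, h2⟩⟩

theorem parts_ok {N : List P} {S S' : Set P} {o : Option (TR ℝ)} {ps : List (TR ℝ)}
    (hS : S = lset N ∪ S') (hp : PartN N o) (h : PartsOK S' ps) : PartsOK S (consO o ps) := by
  cases o with
  | none =>
    have hN : N = [] := hp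
    have : S = S' := by
      rw [hS, hN]
      ext x
      constructor
      · rintro (hx | hx)
        · exact absurd hx List.not_mem_nil
        · exact hx
      · exact fun hx => Or.inr hx
    rw [this]
    exact h
  | some t => exact ⟨lset N, S', hS, hp, h⟩

end LVH_

open LVH_ in
theorem p_LVH (h_MRG : T_A_MRG) (h_LF : T_A_LF) : T_LVH := by
  intro s rest S S' hfin hchn hne hS hdisj hsrt hpart hs hF
  have hsub : S' ⊆ S := by rw [hS]; exact Set.subset_union_right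
  have hNsub : ∀ x ∈ s.N, x ∈ S := by
    intro x hx
    rw [hS]
    exact Or.inl hx
  have hparts : PartsOK S (consO s.part (partsOf rest)) := parts_ok hS hpart hF.parts
  have hFe : s.F = (mrg s.N (lowC rest)).map (mkLf (consO s.part (partsOf rest))) :=
    congrArg Slot.F hs
  rw [hFe]
  have hlow : ∀ x, x ∈ lowC rest ↔ x ∈ smp (lowT rest) := by
    intro x
    have h1 : x ∈ lset (lowC rest) ↔ x ∈ smp (lowT rest) := by rw [hF.set]
    exact h1
  have hlowS' : ∀ x ∈ lowC rest, x ∈ S' := fun x hx => smp_sub hF.low ((hlow x).1 hx)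
  have hmem : ∀ x, x ∈ mrg s.N (lowC rest) ↔ x ∈ s.N ∨ x ∈ lowC rest :=
    (h_MRG s.N (lowC rest)).2.1
  have hLS : ∀ x ∈ mrg s.N (lowC rest), x ∈ S := by
    intro x hx
    rcases (hmem x).1 hx with h | h
    · exact hNsub x h
    · exact hsub (hlowS' x h)
  have hsrtL : SrtP (mrg s.N (lowC rest)) := by
    refine (h_MRG s.N (lowC rest)).1 hsrt hF.srt ?_
    intro a ha b hb hab
    have h1 : a = b := hchn.1 a (hNsub a ha) b (hsub (hlowS' b hb)) hab
    rw [h1] at ha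
    exact Set.disjoint_left.1 hdisj (show b ∈ lset s.N from ha) (hlowS' b hb)
  have hlf : ∀ x ∈ S, (mkLf (consO s.part (partsOf rest)) x).s = x ∧
      LfOK S (mkLf (consO s.part (partsOf rest)) x) := fun x hx =>
    h_LF S _ x hchn hparts hx
  have hin : ∀ x ∈ mrg s.N (lowC rest), ∃ d ∈ (mrg s.N (lowC rest)).map
      (mkLf (consO s.part (partsOf rest))), d.s = x := fun x hx =>
    ⟨_, List.mem_map_of_mem hx, (hlf x (hLS x hx)).1⟩
  have hext : ∀ x ∈ S, (∃ d ∈ (mrg s.N (lowC rest)).map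
      (mkLf (consO s.part (partsOf rest))), d.s.1 ≤ x.1) ∧
      ∃ d ∈ (mrg s.N (lowC rest)).map
        (mkLf (consO s.part (partsOf rest))), x.1 ≤ d.s.1 := by
    intro x hx
    have hx' := hx
    rw [hS] at hx'
    rcases hx' with h | h
    · obtain ⟨d, hd, hde⟩ := hin x ((hmem x).2 (Or.inl h))
      exact ⟨⟨d, hd, by rw [hde]⟩, ⟨d, hd, by rw [hde]⟩⟩
    · obtain ⟨⟨y, hy, h1⟩, ⟨z, hz, h2⟩⟩ := ext_smp hF.low x h
      obtain ⟨d, hd, hde⟩ := hin y ((hmem y).2 (Or.inr ((hlow y).2 hy)))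
      obtain ⟨e, he, hee⟩ := hin z ((hmem z).2 (Or.inr ((hlow z).2 hz)))
      exact ⟨⟨d, hd, by rw [hde]; exact h1⟩, ⟨e, he, by rw [hee]; exact h2⟩⟩
  refine ⟨hfin, hchn, hsub, hparts, hF.low, ?_, ?_, ?_, ?_, hext⟩
  · unfold Srt
    rw [List.pairwise_map]
    refine List.Pairwise.imp_of_mem ?_ hsrtL
    intro a b ha hb hab
    rw [(hlf a (hLS a ha)).1, (hlf b (hLS b hb)).1]
    exact hab
  · obtain ⟨x, hx⟩ := hne
    obtain ⟨⟨d, hd, -⟩, -⟩ := hext x hx
    exact List.ne_nil_of_mem hd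
  · intro m hm
    obtain ⟨f, hf, rfl⟩ := List.mem_map.1 hm
    exact (hlf f (hLS f hf)).2
  · intro x hx hxF
    have hxL : x ∉ mrg s.N (lowC rest) := fun h => hxF (hin x h)
    have hxN : x ∉ s.N := fun h => hxL ((hmem x).2 (Or.inl h))
    have hxC : x ∉ lowC rest := fun h => hxL ((hmem x).2 (Or.inr h))
    refine ⟨?_, fun h => hxC ((hlow x).2 h)⟩
    rw [hS] at hx
    rcases hx with h | h
    · exact absurd h hxN
    · exact h

end Pool.Agent.EVD
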