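import Pool.Agent.EVD.TB

/-! # EVD, target MK: correctness of `mk` -/

set_option autoImplicit false

namespace Pool.Agent.EVD

namespace MK_

theorem cut_mono {a b : Option ℝ} (h : leO a b) (r : ℝ) (hr : cutT a r = true) :
    cutT b r = true := by
  cases b with
  | none => rfl
  | some t =>
    obtain ⟨r', rfl, hr'⟩ := h t rfl
    rw [cutT_some] at hr ⊢
    exact lt_of_lt_of_le hr hr'

theorem leT_mono {a b : Option ℝ} (h : leO a b) {y : ℝ} (hy : leT y a) : leT y b := by
  intro t ht
  obtain ⟨r, hr, hrt⟩ := h t ht
  exact le_trans (hy r hr) hrt

theorem leO_refl (a : Option ℝ) : leO a a := fun t ht => ⟨t, ht, le_refl t⟩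

theorem max_of_isH {S : Set P} {b : P} {h : ℝ} (hH : IsH S b (some h)) :
    ∀ a ∈ S, ∀ c ∈ S, a.1 < b.1 → b.1 < c.1 → cc a b c ≤ h := hH.2

theorem live_some_iff (t h : ℝ) : live (cutT (some t)) (some h) = true ↔ h < t := by
  simp only [live]
  exact cutT_some t h

theorem not_live_self (h : ℝ) : live (cutT (some h)) (some h) = false := by
  by_contra hc
  rw [Bool.not_eq_false, live_some_iff] at hc
  exact lt_irrefl _ hc

/-- what is dead at `cT` is dead at a height that is live at `cT` -/
theorem dead_down {cT : Option ℝ} {h : ℝ} (hl : live (cutT cT) (some h) = true) {x : Option ℝ}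
    (hx : live (cutT cT) x = false) : live (cutT (some h)) x = false := by
  by_contra hc
  rw [Bool.not_eq_false] at hc
  cases x with
  | none => simp [live] at hx
  | some r =>
    rw [live_some_iff] at hc
    have h1 : live (cutT cT) (some r) = true := cut_cutT cT h r hc.le hl
    rw [h1] at hx
    exact Bool.noConfusion hx

end MK_

/-- Target MK. -/
theorem p_MK (h_CHI : T_CHI) (h_SPN : T_SPN) (h_MON : T_MON) (h_LIV : T_LIV) : T_MK := by
  intro S S' ps lower T c c' E hfin hch hsub hparts hlow hcS hc'S hsrt hE hrest ms
  -- elements of E are not alive where they are dead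
  have hnot : ∀ (U : Option ℝ) (m : Lf ℝ), m ∈ E → live (cutT U) m.h = false →
      ¬ Al (cutT U) S m.s := by
    intro U m hm hl hal
    have h1 := (h_LIV S (cutT U) m.s m.h (cut_cutT U) (hE m hm).1.1 (hE m hm).1.2.1).1 hal
    rw [h1] at hl
    exact Bool.noConfusion hl
  have hup : ∀ (U : Option ℝ), leO U T → ∀ u, Al (cutT U) S u → Al (cutT T) S u := by
    intro U hU u hu
    exact (h_MON S S (cutT U) (cutT T) subset_rfl).2.2 (fun r hr => MK_.cut_mono hU r hr) u hu
  induction ms with
  | nil =>
    intro lo cf cT hsuf hlo hclo hloc' hms hleO hwal hlocf hcfc' hncf hdead q s hq hN hlos hsc'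
    have hsS : s ∈ S := hN.1
    change s = lo ∨ s = c' ∨ (child ps lower cT cf lo c').Seen q s
    rcases eq_or_lt_of_le hlos with h | h
    · left
      exact (hch.1 lo hlo s hsS h).symm
    · rcases eq_or_lt_of_le hsc' with h' | h'
      · right; left
        exact hch.1 s hsS c' hc'S h'
      · right; right
        refine h_CHI S S' ps lower cT cf lo c' hfin hch hsub hparts hlow hwal hlocf hcfc' hncf
          ?_ q s hq hN h h'
        intro u hu hlu huc
        refine hrest u (hup cT hleO u hu) (lt_of_le_of_lt hclo hlu) huc ?_
        rintro ⟨m, hm, hmu⟩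
        rw [← hmu] at hu hlu
        exact hnot cT m hm (hdead m hm hlu (by simp)) hu
  | cons m ms ih =>
    intro lo cf cT hsuf hlo hclo hloc' hms hleO hwal hlocf hcfc' hncf hdead q s hq hN hlos hsc'
    have hsS : s ∈ S := hN.1
    have hmE : m ∈ E := hsuf.mem List.mem_cons_self
    have hsuf' : ms <:+ E := (List.suffix_cons m ms).trans hsuf
    obtain ⟨hLf, hcm, hmc', hlive⟩ := hE m hmE
    have hmS : m.s ∈ S := hLf.1
    have hIsH : IsH S m.s m.h := hLf.2.1
    have hlom : lo.1 < m.s.1 := hms m List.mem_cons_self
    -- order facts
    obtain ⟨pre, hpre⟩ := hsuf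
    have hsrt' : Srt (pre ++ m :: ms) := by rw [hpre]; exact hsrt
    unfold Srt at hsrt'
    rw [List.pairwise_append, List.pairwise_cons] at hsrt'
    have fact1 : ∀ m' ∈ ms, m.s.1 < m'.s.1 := hsrt'.2.1.1
    have fact2 : ∀ m' ∈ E, m' ∉ m :: ms → m'.s.1 < m.s.1 := by
      intro m' hm' hn
      rw [← hpre, List.mem_append] at hm'
      rcases hm' with h | h
      · exact hsrt'.2.2 m' h m List.mem_cons_self
      · exact absurd h hn
    have hmsl : ∀ m' ∈ ms, lo.1 < m'.s.1 := fun m' hm' => hms m' (List.mem_cons_of_mem _ hm')
    cases hmh : m.h with
    | none =>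
      exfalso
      rw [hmh] at hIsH
      rcases hIsH with h | h
      · exact absurd (h c hcS) (not_le.mpr hcm)
      · exact absurd (h c' hc'S) (not_le.mpr hmc')
    | some h =>
      rw [hmh] at hIsH hlive
      have hmax := MK_.max_of_isH hIsH
      have key : (mk ps lower T c' (m :: ms) lo cT cf).Seen q s ↔
          (if 0 * q.1 + (-1) * q.2 < -h then
            (if 1 * q.1 + (-m.sk) * q.2 < m.sx then
              (s = lo ∨ s = m.s ∨ (child ps lower cT m.s lo m.s).Seen q s)
            else (mk ps lower T c' ms m.s T m.s).Seen q s)
          else (mk ps lower T c' ms lo (if live (cutT cT) (some h) then some h else cT)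
            (if live (cutT cT) (some h) then m.s else cf)).Seen q s) := by
        rw [mk, hmh]
        rfl
      rw [key]
      by_cases hqh : h < q.2
      · rw [if_pos (by linarith)]
        have hspn := h_SPN S m h q s hLf hmh hqh hN
        by_cases hsp : 1 * q.1 + (-m.sk) * q.2 < m.sx
        · rw [if_pos hsp]
          have hsm := hspn.1 hsp
          rcases eq_or_lt_of_le hlos with h1 | h1
          · left
            exact (hch.1 lo hlo s hsS h1).symm
          · rcases eq_or_lt_of_le hsm with h2 | h2
            · right; left
              exact hch.1 s hsS m.s hmS h2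
            · right; right
              have hwm : Wal cT S m.s := by
                refine ⟨hmS, ?_⟩
                intro t ht a ha b hb hab hbb
                have h3 := hmax a ha b hb hab hbb
                have h4 := hq t ht
                linarith
              refine h_CHI S S' ps lower cT m.s lo m.s hfin hch hsub hparts hlow hwm hlom.le
                le_rfl (fun hh => lt_irrefl _ hh.2.2) ?_ q s hq hN h1 h2
              intro u hu hlu hum
              refine hrest u (hup cT hleO u hu) (lt_of_le_of_lt hclo hlu) (lt_trans hum hmc') ?_
              rintro ⟨m', hm', hmu⟩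
              rw [← hmu] at hu hlu hum
              refine hnot cT m' hm' (hdead m' hm' hlu ?_) hu
              intro hmem
              rcases List.mem_cons.1 hmem with h3 | h3
              · rw [h3] at hum
                exact lt_irrefl _ hum
              · exact lt_asymm hum (fact1 m' h3)
        · rw [if_neg hsp]
          have hsm := hspn.2 hsp
          refine ih m.s m.s T hsuf' hmS hcm.le hmc' fact1 (MK_.leO_refl T) ?_ le_rfl hmc'.le
            (fun hh => lt_irrefl _ hh.2.1) ?_ q s (MK_.leT_mono hleO hq) hN hsm hsc'
          · refine ⟨hmS, ?_⟩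
            intro t ht a ha b hb hab hbb
            rw [ht, MK_.live_some_iff] at hlive
            exact (lt_of_le_of_lt (hmax a ha b hb hab hbb) hlive).le
          · intro m' hm' hlt hnm
            exfalso
            by_cases h3 : m' ∈ m :: ms
            · rcases List.mem_cons.1 h3 with h4 | h4
              · rw [h4] at hlt
                exact lt_irrefl _ hlt
              · exact hnm h4
            · exact lt_asymm hlt (fact2 m' hm' h3)
      · rw [if_neg (by linarith)]
        by_cases hl : live (cutT cT) (some h) = true
        · rw [if_pos hl, if_pos hl]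
          refine ih lo m.s (some h) hsuf' hlo hclo hloc' hmsl ?_ ?_ hlom.le hmc'.le ?_ ?_ q s ?_
            hN hlos hsc'
          · intro t ht
            rw [ht, MK_.live_some_iff] at hlive
            exact ⟨h, rfl, hlive.le⟩
          · refine ⟨hmS, ?_⟩
            intro t ht a ha b hb hab hbb
            have ht' : h = t := Option.some.inj ht
            rw [← ht']
            exact hmax a ha b hb hab hbb
          · rintro ⟨hal, -, -⟩
            exact hnot (some h) m hmE (by rw [hmh]; exact MK_.not_live_self h) hal
          · intro m' hm' hlt hnm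
            by_cases h3 : m' = m
            · rw [h3, hmh]
              exact MK_.not_live_self h
            · refine MK_.dead_down hl (hdead m' hm' hlt ?_)
              intro h4
              rcases List.mem_cons.1 h4 with h5 | h5
              · exact h3 h5
              · exact hnm h5
          · intro t ht
            have ht' : h = t := Option.some.inj ht
            rw [← ht']
            exact not_lt.1 hqh
        · rw [if_neg hl, if_neg hl]
          refine ih lo cf cT hsuf' hlo hclo hloc' hmsl hleO hwal hlocf hcfc' hncf ?_ q s hq hN
            hlos hsc'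
          intro m' hm' hlt hnm
          by_cases h3 : m' = m
          · rw [h3, hmh]
            exact Bool.eq_false_iff.2 hl
          · refine hdead m' hm' hlt ?_
            intro h4
            rcases List.mem_cons.1 h4 with h5 | h5
            · exact h3 h5
            · exact hnm h5

end Pool.Agent.EVD
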