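import Pool.Agent.EVD.TB

/-! # EVD: MKD, the depth of `mk` -/

set_option autoImplicit false

namespace Pool.Agent.EVD

theorem p_MKD : T_MKD := by
  intro B ps lower T c' ms
  induction ms with
  | nil =>
    intro lo cf cT h
    have h1 := h cT cf lo c'
    simp only [mk, QT.dep, List.length_nil]
    omega
  | cons m ms ih =>
    intro lo cf cT h
    have h1 := h cT m.s lo m.s
    have h2 := ih m.s m.s T h
    have h3 := ih lo (if live (cutT cT) m.h then m.s else cf)
      (if live (cutT cT) m.h then m.h else cT) h
    have hy : (QT.test 1 (-m.sk) m.sx
        (QT.cand lo (QT.cand m.s (child ps lower cT m.s lo m.s)))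
        (mk ps lower T c' ms m.s T m.s)).dep ≤ 2 * ms.length + 3 + B := by
      simp only [QT.dep]
      omega
    simp only [mk, List.length_cons]
    cases hm : m.h with
    | none =>
      simp only [aTest]
      omega
    | some r =>
      rw [hm] at h3
      simp only [aTest]
      rw [QT.dep]
      omega

end Pool.Agent.EVD
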