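import Pool.Agent.EVD.TB

/-! # EVD: candidates of mk (T_MKI) -/

namespace Pool.Agent.EVD

theorem p_MKI : T_MKI := by
  intro S ps lower T c' ms
  induction ms with
  | nil =>
    intro lo cf cT hch hc' hlo _
    unfold mk
    exact ⟨hlo, hc', hch cT cf lo c'⟩
  | cons m ms ih =>
    intro lo cf cT hch hc' hlo hms
    have hm : m.s ∈ S := hms m (by simp)
    have hms' : ∀ x ∈ ms, x.s ∈ S := fun x hx => hms x (by simp [hx])
    have k1 := ih m.s m.s T hch hc' hm hms'
    have k2 := ih lo (if live (cutT cT) m.h then m.s else cf)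
      (if live (cutT cT) m.h then m.h else cT) hch hc' hlo hms'
    have k3 := hch cT m.s lo m.s
    unfold mk
    unfold aTest
    cases hh : m.h with
    | none => exact ⟨⟨hlo, hm, k3⟩, k1⟩
    | some h =>
      rw [hh] at k2
      exact ⟨⟨⟨hlo, hm, k3⟩, k1⟩, k2⟩

end Pool.Agent.EVD
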