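import Pool.Agent.EVD.TG

/-! # EVD: monotonicity (T_MON) -/

namespace Pool.Agent.EVD

theorem p_MON : T_MON := by
  intro S S' D D' hS
  refine ⟨?_, ?_, ?_⟩
  · intro h
    exact ⟨fun a ha b hb => h.1 a (hS ha) b (hS hb),
      fun a ha b hb c hc => h.2 a (hS ha) b (hS hb) c (hS hc)⟩
  · intro b hb h
    exact ⟨hb, fun a ha c hc => h.2 a (hS ha) c (hS hc)⟩
  · intro hD b h
    exact ⟨h.1, fun a ha c hc h1 h2 => hD _ (h.2 a ha c hc h1 h2)⟩

end Pool.Agent.EVD
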