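import Pool.Agent.EVD.TG

set_option autoImplicit false

namespace Pool.Agent.EVD

theorem p_NNA (h_DSQ : T_DSQ) (h_DET : T_DET) : T_NNA := by
  intro S q s hS hN
  refine ⟨hN.1, fun a ha c hc has hsc => ?_⟩
  have hB : 0 < ccB a s c := hS.2 a ha s hN.1 c hc has hsc
  have h1 := (hN.2 a ha).1
  have h2 := (hN.2 c hc).2 hsc
  rw [h_DSQ, h_DSQ] at h1 h2
  have hlt : cc a s c < q.2 := by
    rw [(h_DET a s c q.2 hB).1, Blw]
    have e1 : 0 < c.1 - s.1 := sub_pos.mpr hsc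
    have e2 : 0 < s.1 - a.1 := sub_pos.mpr has
    generalize zl q.2 s = zs at *
    generalize zl q.2 a = za at *
    generalize zl q.2 c = zc at *
    have h3 : (zs - 2 * q.1 * s.1) - (za - 2 * q.1 * a.1) ≤ 0 := by linarith
    have h4 : (zs - 2 * q.1 * s.1) - (zc - 2 * q.1 * c.1) < 0 := by linarith
    have h5 := mul_nonpos_of_nonpos_of_nonneg h3 e1.le
    have h6 := mul_neg_of_neg_of_pos h4 e2
    have key : (zs - za) * (c.1 - a.1) - (zc - za) * (s.1 - a.1) =
        ((zs - 2 * q.1 * s.1) - (za - 2 * q.1 * a.1)) * (c.1 - s.1) +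
        ((zs - 2 * q.1 * s.1) - (zc - 2 * q.1 * c.1)) * (s.1 - a.1) := by ring
    linarith
  simp only [cutT, decide_eq_true_eq]
  exact hlt

end Pool.Agent.EVD
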