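import Pool.Agent.EVD.TG

/-! # EVD: the rightmost nearest site exists -/

namespace Pool.Agent.EVD

theorem p_NNE : T_NNE := by
  intro S q hfin hne _
  obtain ⟨m, hm, hmin⟩ := Set.exists_min_image S (fun s => dsq q s) hfin hne
  have hfin' : {s | s ∈ S ∧ dsq q s ≤ dsq q m}.Finite := hfin.subset fun s hs => hs.1
  obtain ⟨s, hs, hmax⟩ := Set.exists_max_image {s | s ∈ S ∧ dsq q s ≤ dsq q m}
    (fun s => s.1) hfin' ⟨m, hm, le_refl _⟩
  refine ⟨s, hs.1, fun t ht => ⟨hs.2.trans (hmin t ht), fun hlt => ?_⟩⟩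
  by_contra hcon
  have h1 : dsq q t ≤ dsq q m := (not_lt.1 hcon).trans hs.2
  have h2 : t.1 ≤ s.1 := hmax t ⟨ht, h1⟩
  exact absurd hlt (not_lt.2 h2)

end Pool.Agent.EVD
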