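import Pool.Agent.EVD.TG

/-!
# EVD: NNS (nearest site in a subset)
-/

set_option autoImplicit false

namespace Pool.Agent.EVD

theorem p_NNS : T_NNS := by
  intro S S' q s hS hs h
  exact ⟨hs, fun s' hs' => h.2 s' (hS hs')⟩

end Pool.Agent.EVD
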