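import Pool.Agent.EVD.TN

/-! # EVD: the chain invariant with sizes is a `ChainSpec` -/

set_option autoImplicit false

namespace Pool.Agent.EVD

theorem p_N_CS (h_COS : T_COS) (h_SZI : T_SZI) (h_CNT : T_CNT) : T_N_CS where
  empty := by
    refine ⟨h_COS.empty, trivial, ?_, ?_⟩
    · intro s hs
      simp [emptyC] at hs
    · simp [emptyC, cntS]
  ins := by
    intro c U p hc hU hp hch
    obtain ⟨h1, h2, h3, h4⟩ := hc
    have h5 := h_COS.ins c U p h1 hU hp hch
    obtain ⟨h6, h7, h8⟩ := h_SZI c.sl 0 [p] [TR.leaf ⟨p, none, 0, 0, QT.stop, QT.stop⟩] h2 h3 rfl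
    have h9 := (h_CNT c.sl 0 h2).1 [p] [TR.leaf ⟨p, none, 0, 0, QT.stop, QT.stop⟩]
    refine ⟨h5, h6, h7, ?_⟩

    rw [Set.ncard_insert_of_notMem hp hU, ← h4]
    exact h9
  seen := by
    intro c U q s hc
    exact h_COS.seen c U q s hc.1
  inn := by
    intro c U hc
    exact h_COS.inn c U hc.1

end Pool.Agent.EVD
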