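import Pool.Agent.EVD.TN

/-! # EVD, target `T_N_DEP`: the depth of the query structures is logarithmic -/

set_option autoImplicit false

namespace Pool.Agent.EVD

namespace NDEP_

theorem one (h_QDP : T_QDP) (h_LOG : T_N_LOG) {c : CS ℝ} {U : Set P} (h : COK c U) {n : ℕ}
    (hU : U.ncard ≤ n) : c.q.dep ≤ 10 * (Nat.log 2 n + 2) + 20 := by
  have h1 : 2 * U.ncard ≤ 2 ^ (Nat.log 2 n + 2) := by
    have h2 : n < 2 ^ (Nat.log 2 n + 1) := Nat.lt_pow_succ_log_self (by norm_num) n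
    have h3 : 2 ^ (Nat.log 2 n + 2) = 2 * 2 ^ (Nat.log 2 n + 1) := by ring
    omega
  have h4 := h_LOG c U _ h h1
  obtain ⟨⟨a1, a2, a3, a4⟩, a5, -, -⟩ := h
  have h5 := h_QDP c.sl U a1 a3 a4 a5
  rw [a2]
  omega

end NDEP_

theorem p_N_DEP (h_QDP : T_QDP) (h_LOG : T_N_LOG) : T_N_DEP := by
  intro t S ht hS hne
  cases t with
  | none =>
    have h0 : dT (none : Option (Top ℝ)) = 0 := rfl
    rw [h0]
    exact Nat.zero_le _
  | some t =>
    obtain ⟨-, U, L, h1, -, -, h2, h3⟩ := ht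
    have hU : U ⊆ S := by
      intro x hx
      rw [h1]
      exact Or.inl (Or.inr hx)
    have hL : L ⊆ S := by
      intro x hx
      rw [h1]
      exact Or.inr hx
    have h4 := NDEP_.one h_QDP h_LOG h2 (Set.ncard_le_ncard hU hS)
    have h5 := NDEP_.one h_QDP h_LOG h3
      ((Set.ncard_image_le (hS.subset hL)).trans (Set.ncard_le_ncard hL hS))
    have h0 : dT (some t) = t.up.q.dep + t.lo.q.dep := rfl
    rw [h0]
    omega

end Pool.Agent.EVD
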