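import Pool.Agent.EVD.TN

/-! # EVD-N-LEN: `insS` adds at most one slot (helper9) -/

set_option autoImplicit false

namespace Pool.Agent.EVD

theorem p_N_LEN : T_N_LEN := by
  intro sl
  induction sl with
  | nil => intro acc aps; simp [insS]
  | cons s rest ih =>
    intro acc aps
    unfold insS
    cases h : s.part with
    | none => simp
    | some t =>
      simp only [List.length_cons]
      have := ih (mrg acc s.N) (t :: aps)
      omega

end Pool.Agent.EVD
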