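import Pool.Agent.EVD.TN

/-! # EVD-N-LOG: the number of slots is logarithmic (helper86) -/

set_option autoImplicit false

namespace Pool.Agent.EVD

theorem p_N_LOG (h_CNT : T_CNT) : T_N_LOG := by
  intro c U M hc hU
  obtain ⟨-, hsz, hlf, hcnt⟩ := hc
  by_cases hne : c.sl = []
  · rw [hne]
    simp
  · have h1 := (h_CNT c.sl 0 hsz).2 hlf hne
    rw [hcnt, pow_zero, one_mul] at h1
    exact (Nat.pow_le_pow_iff_right (by norm_num)).1 (h1.trans hU)

end Pool.Agent.EVD
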