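import Pool.Agent.EVD.TN

/-! # EVD: T_N_PAR (sizes of parts, sample tree) -/

namespace Pool.Agent.EVD

theorem p_N_PAR : T_N_PAR := by
  intro sl
  induction sl with
  | nil =>
      intro k _
      refine ⟨?_, ?_, ?_, ?_⟩
      · simp [partsOf]
      · simp [partsOf, mdep]
      · simp [lowT, odep]
      · simp [lowC]
  | cons s rest ih =>
      intro k hk
      obtain ⟨h1, h2, h3, h4, h5⟩ := hk
      obtain ⟨i1, i2, -, -⟩ := ih (k + 1) h5
      refine ⟨?_, ?_, ?_, ?_⟩
      · show (consO s.part (partsOf rest)).length ≤ (s :: rest).length
        rw [List.length_cons]
        cases s.part with
        | none => exact i1.trans (Nat.le_succ _)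
        | some t =>
            show (t :: partsOf rest).length ≤ rest.length + 1
            rw [List.length_cons]
            omega
      · show mdep (consO s.part (partsOf rest)) ≤ k + (s :: rest).length
        rw [List.length_cons]
        revert h1
        cases s.part with
        | none =>
            intro _
            show mdep (partsOf rest) ≤ k + (rest.length + 1)
            omega
        | some t =>
            intro h1
            show max t.dep (mdep (partsOf rest)) ≤ k + (rest.length + 1)
            have h6 : t.dep ≤ k := h1.2
            omega
      · show odep s.ct ≤ k + 3
        cases hc : s.ct with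
        | none => exact Nat.zero_le _
        | some ct => exact h4 ct hc
      · show 3 * s.C.length ≤ 9 * 2 ^ k + 6
        omega

end Pool.Agent.EVD
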