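import Pool.Agent.EVD.TN

/-! # EVD, target N-RT: bound for the time of `rootQ` -/

namespace Pool.Agent.EVD

namespace NRT_

theorem pM_le (ps : List (TR ℝ)) (m : ℕ) (h1 : ps.length ≤ m) (h2 : mdep ps ≤ m) :
    pM ps ≤ (m + 1) ^ 4 := by
  unfold pM
  calc (ps.length + 1) * (mdep ps + 1) ^ 3 ≤ (m + 1) * (m + 1) ^ 3 :=
        Nat.mul_le_mul (by omega) (Nat.pow_le_pow_left (by omega) 3)
    _ = (m + 1) ^ 4 := by ring

theorem arith (M a : ℕ) (h : a ≤ M) : 2 ^ 9 * (M ^ 4 + 25 + 1) + a ≤ 2000 * (M + 5) ^ 8 := by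
  have h1 : M ^ 4 ≤ (M + 5) ^ 8 := by
    calc M ^ 4 ≤ (M + 5) ^ 4 := Nat.pow_le_pow_left (by omega) 4
      _ ≤ (M + 5) ^ 8 := Nat.pow_le_pow_right (by omega) (by norm_num)
  have h2 : M + 5 ≤ (M + 5) ^ 8 := Nat.le_self_pow (by norm_num) _
  have h3 : 5 ^ 8 ≤ (M + 5) ^ 8 := Nat.pow_le_pow_left (by omega) 8
  norm_num at h3 ⊢
  omega

end NRT_

theorem p_N_RT (h_PAR : T_N_PAR) : T_N_RT := by
  intro M sl hsz hM
  cases sl with
  | nil => simp [rT]
  | cons s rest =>
      have hp := h_PAR (s :: rest) 0 hsz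
      have hF : s.F.length ≤ 9 := by
        have := hsz.2.1
        simpa using this
      have hq := h_PAR rest (0 + 1) hsz.2.2.2.2
      have hlen : (s :: rest).length = rest.length + 1 := rfl
      rw [hlen] at hp hM
      have e1 : partsOf (s :: rest) = consO s.part (partsOf rest) := rfl
      rw [e1] at hp
      have hpm := NRT_.pM_le (consO s.part (partsOf rest)) (M - 1) (by omega) (by omega)
      have hM1 : M - 1 + 1 = M := by omega
      rw [hM1] at hpm
      have hod : (odep (lowT rest) + 1) ^ 2 ≤ 25 := by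
        have h4 : odep (lowT rest) + 1 ≤ 5 := by omega
        calc (odep (lowT rest) + 1) ^ 2 ≤ 5 ^ 2 := Nat.pow_le_pow_left h4 2
          _ = 25 := by norm_num
      have hcc : cC (consO s.part (partsOf rest)) (lowT rest) + 1 ≤ M ^ 4 + 25 + 1 := by
        unfold cC
        omega
      have h2 : 2 ^ s.F.length ≤ 2 ^ 9 := Nat.pow_le_pow_right (by norm_num) hF
      have h3 := Nat.mul_le_mul h2 hcc
      have h4 := NRT_.arith M rest.length (by omega)
      have h5 : rT (s :: rest) = 2 ^ s.F.length *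
          (cC (consO s.part (partsOf rest)) (lowT rest) + 1) + rest.length := rfl
      rw [h5]
      omega

end Pool.Agent.EVD
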