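import Pool.Agent.EVD.TN

/-! # EVD: the invariant along the sequence (T_N_SEQ) -/

namespace Pool.Agent.EVD.NSEQ_

theorem pre_zero (p : ℕ → P) : pre p 0 = ∅ := by
  ext x
  simp [pre]

theorem pre_succ (p : ℕ → P) (k : ℕ) : pre p (k + 1) = insert (p k) (pre p k) := by
  ext x
  simp only [pre, Set.mem_ofPred_eq, Set.mem_insert_iff]
  constructor
  · rintro ⟨i, hi, rfl⟩
    rcases Nat.lt_succ_iff_lt_or_eq.1 hi with h | h
    · exact Or.inr ⟨i, h, rfl⟩
    · exact Or.inl (by rw [h])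
  · rintro (h | ⟨i, hi, rfl⟩)
    · exact ⟨k, Nat.lt_succ_self k, h.symm⟩
    · exact ⟨i, Nat.lt_succ_of_lt hi, rfl⟩

end Pool.Agent.EVD.NSEQ_

namespace Pool.Agent.EVD

open NSEQ_

theorem p_N_SEQ (h_TIN : T_TIN) (h_CS : T_N_CS) : T_N_SEQ := by
  intro m p hinj hcp k
  induction k with
  | zero =>
    intro _
    have h0 : pre p 0 = ∅ := pre_zero p
    refine ⟨?_, ?_, ?_⟩
    · rw [h0]
      simp [stt, TopOK]
    · rw [h0]
      exact Set.finite_empty
    · rw [h0]
      exact Set.ncard_empty P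
  | succ k ih =>
    intro hk
    obtain ⟨h1, h2, h3⟩ := ih (by omega)
    have hs : pre p (k + 1) = insert (p k) (pre p k) := pre_succ p k
    have hn : p k ∉ pre p k := by
      rintro ⟨i, hi, he⟩
      have := hinj i (by omega) k (by omega) he
      omega
    have hc : ConvPos (insert (p k) (pre p k)) := by
      rw [← hs]
      exact hcp (k + 1) hk
    refine ⟨?_, ?_, ?_⟩
    · rw [hs]
      exact h_TIN COK (stt p k) (pre p k) (p k) h_CS h1 h2 hn hc
    · rw [hs]
      exact h2.insert (p k)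
    · rw [hs, Set.ncard_insert_of_notMem hn h2, h3]

end Pool.Agent.EVD
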