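import Pool.Agent.EVD.TN

/-! # EVD, job N_SL -/

set_option autoImplicit false

namespace Pool.Agent.EVD

theorem NSL_consO_len (o : Option (TR ℝ)) (l : List (TR ℝ)) :
    (consO o l).length ≤ l.length + 1 := by
  cases o with
  | none => exact Nat.le_succ _
  | some t => exact le_of_eq rfl

theorem NSL_consO_mdep (o : Option (TR ℝ)) (l : List (TR ℝ)) (m : ℕ) (ho : odep o ≤ m)
    (hl : mdep l ≤ m) : mdep (consO o l) ≤ m := by
  cases o with
  | none => exact hl
  | some t => exact max_le ho hl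

theorem p_N_SL (hPAR : T_N_PAR) : T_N_SL := by
  intro M k N part rest hN hp hSz hM
  obtain ⟨h1, h2, h3, h4⟩ := hPAR rest (k + 1) hSz
  have hL : 1 ≤ 2 ^ k := Nat.one_le_two_pow
  have hlen : (consO part (partsOf rest)).length ≤ M :=
    (NSL_consO_len _ _).trans (by omega)
  have hmd : mdep (consO part (partsOf rest)) ≤ M :=
    NSL_consO_mdep _ _ _ (by omega) (by omega)
  have hpM : pM (consO part (partsOf rest)) ≤ (M + 1) ^ 4 := by
    unfold pM
    calc ((consO part (partsOf rest)).length + 1) * (mdep (consO part (partsOf rest)) + 1) ^ 3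
        ≤ (M + 1) * (M + 1) ^ 3 :=
          Nat.mul_le_mul (by omega) (Nat.pow_le_pow_left (by omega) 3)
      _ = (M + 1) ^ 4 := by ring
  have hX1 : 1 ≤ (M + 5) ^ 8 := Nat.one_le_pow _ _ (by omega)
  have hX2 : (M + 5) ^ 2 ≤ (M + 5) ^ 8 := Nat.pow_le_pow_right (by omega) (by norm_num)
  have hXM : M ≤ (M + 5) ^ 8 :=
    (show M ≤ (M + 5) ^ 1 by rw [pow_one]; omega).trans (Nat.pow_le_pow_right (by omega) (by norm_num))
  have hpM2 : (pM (consO part (partsOf rest)) + 1) ^ 2 ≤ (M + 5) ^ 8 := by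
    have h5 : pM (consO part (partsOf rest)) + 1 ≤ (M + 5) ^ 4 := by
      have h6 : (M + 1) ^ 4 < (M + 5) ^ 4 := Nat.pow_lt_pow_left (by omega) (by norm_num)
      omega
    calc (pM (consO part (partsOf rest)) + 1) ^ 2 ≤ ((M + 5) ^ 4) ^ 2 :=
          Nat.pow_le_pow_left h5 2
      _ = (M + 5) ^ 8 := by ring
  have hod : (odep (lowT rest) + 1) ^ 2 ≤ (M + 5) ^ 8 :=
    (Nat.pow_le_pow_left (by omega) 2).trans hX2
  have hn : N.length + (lowC rest).length ≤ 2 ^ (k + 4) := by
    rw [pow_succ] at h4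
    rw [pow_add]
    omega
  have hcl : (Nat.clog 2 (N.length + (lowC rest).length) + 1) ^ 2 ≤ (M + 5) ^ 8 := by
    have h6 : Nat.clog 2 (N.length + (lowC rest).length) ≤ k + 4 :=
      Nat.clog_le_of_le_pow hn
    exact (Nat.pow_le_pow_left (by omega) 2).trans hX2
  have hn1 : N.length + (lowC rest).length + 1 ≤ 10 * 2 ^ k := by
    rw [pow_succ] at h4
    omega
  unfold cSlot
  generalize (pM (consO part (partsOf rest)) + 1) ^ 2 = a at *
  generalize (odep (lowT rest) + 1) ^ 2 = b at *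
  generalize (Nat.clog 2 (N.length + (lowC rest).length) + 1) ^ 2 = c at *
  generalize N.length + (lowC rest).length + 1 = d at *
  generalize (M + 5) ^ 8 = X at *
  generalize 2 ^ k = L at *
  have h7 : d * (a + b + c + 1) ≤ (10 * L) * (4 * X) := Nat.mul_le_mul hn1 (by omega)
  have h8 : X ≤ L * X := Nat.le_mul_of_pos_left _ hL
  have h9 : rest.length ≤ L * X := by omega
  calc d * (a + b + c + 1) + rest.length ≤ (10 * L) * (4 * X) + L * X := Nat.add_le_add h7 h9
    _ = L * (41 * X) := by ring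
    _ ≤ L * (100 * X) := Nat.mul_le_mul_left _ (by omega)

end Pool.Agent.EVD
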