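import Pool.Agent.EVD.TN

/-! # EVD: amortised step of the whole structure (helper45) -/

set_option autoImplicit false

namespace Pool.Agent.EVD

namespace NSTP_

/-- one insertion into a chain -/
theorem chain (h_TC : T_N_TC) (h_AMO : T_AMO) {M : ℕ} {c : CS ℝ} {U : Set P} (hc : COK c U)
    (hl : c.sl.length + 2 ≤ M) (v : P) :
    tC c.sl v + (3000 * (M + 5) ^ 8) * pot M 0 (insC c v).sl ≤
      (3000 * (M + 5) ^ 8) * pot M 0 c.sl + (3000 * (M + 5) ^ 8) * (M + 1) := by
  have h1 := h_TC M c.sl v hc.2.1 hc.2.2.1 hl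
  have h2 := h_AMO M c.sl 0 [v] [TR.leaf ⟨v, none, 0, 0, QT.stop, QT.stop⟩] (by simp) (by omega)
  have h3 : (insC c v).sl = insS c.sl [v] [TR.leaf ⟨v, none, 0, 0, QT.stop, QT.stop⟩] := rfl
  rw [h3]
  generalize 3000 * (M + 5) ^ 8 = W at *
  generalize pot M 0 (insS c.sl [v] [TR.leaf ⟨v, none, 0, 0, QT.stop, QT.stop⟩]) = A at *
  rw [pow_zero, one_mul, Nat.sub_zero] at h2
  calc tC c.sl v + W * A ≤ wI 0 c.sl * W + W * A := Nat.add_le_add_right h1 _
    _ = W * (wI 0 c.sl + A) := by ring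
    _ = W * (pot M 0 c.sl + (M + 1)) := by rw [h2]
    _ = W * pot M 0 c.sl + W * (M + 1) := by ring

/-- one call of `put` -/
theorem putc (h_TC : T_N_TC) (h_AMO : T_AMO) {M : ℕ} {up lo : CS ℝ} {U L : Set P}
    (hU : COK up U) (hL : COK lo L) (lU : up.sl.length + 2 ≤ M) (lL : lo.sl.length + 2 ≤ M)
    (w e v : P) :
    tPut w e v up lo + (3000 * (M + 5) ^ 8) * potT M (some (put w e v up lo)) ≤
      (3000 * (M + 5) ^ 8) * (pot M 0 up.sl + pot M 0 lo.sl) +
        (3000 * (M + 5) ^ 8) * (M + 1) := by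
  unfold tPut put
  split_ifs with h
  · have := chain h_TC h_AMO hU lU v
    show tC up.sl v + (3000 * (M + 5) ^ 8) * (pot M 0 (insC up v).sl + pot M 0 lo.sl) ≤ _
    rw [mul_add, mul_add]
    omega
  · have := chain h_TC h_AMO hL lL (mir v)
    show tC lo.sl (mir v) + (3000 * (M + 5) ^ 8) * (pot M 0 up.sl + pot M 0 (insC lo (mir v)).sl)
      ≤ _
    rw [mul_add, mul_add]
    omega

end NSTP_

open NSTP_ in
theorem p_N_STP (h_TC : T_N_TC) (h_LOG : T_N_LOG) (h_AMO : T_AMO) : T_N_STP := by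
  intro M t S p hT hS hM hn
  cases t with
  | none =>
    show 0 + (3000 * (M + 5) ^ 8) * (0 + 0) ≤ _
    omega
  | some t =>
    obtain ⟨-, U, L, hSU, -, -, cU, cL⟩ := hT
    have sU : U ⊆ S := fun x hx => by rw [hSU]; exact Or.inl (Or.inr hx)
    have sL : L ⊆ S := fun x hx => by rw [hSU]; exact Or.inr hx
    have nU : U.ncard ≤ S.ncard := Set.ncard_le_ncard sU hS
    have nL : (mir '' L).ncard ≤ S.ncard :=
      (Set.ncard_image_le (hS.subset sL)).trans (Set.ncard_le_ncard sL hS)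
    have lU := h_LOG t.up U (M - 2) cU (by omega)
    have lL := h_LOG t.lo (mir '' L) (M - 2) cL (by omega)
    have key := fun w e v => putc h_TC h_AMO cU cL (by omega) (by omega) (M := M) w e v
    have hP : potT M (some t) = pot M 0 t.up.sl + pot M 0 t.lo.sl := rfl
    rw [hP]
    unfold tT insT
    dsimp only
    split_ifs
    · exact key _ _ _
    · exact key _ _ _
    · exact key _ _ _
    · show 0 + (3000 * (M + 5) ^ 8) * (pot M 0 t.up.sl + pot M 0 t.lo.sl) ≤ _
      omega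
    · show 0 + (3000 * (M + 5) ^ 8) * (pot M 0 t.up.sl + pot M 0 t.lo.sl) ≤ _
      omega

end Pool.Agent.EVD
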