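import Pool.Agent.EVD.TN

/-! # EVD: total time -/

set_option autoImplicit false

namespace Pool.Agent.EVD

namespace NSUM_

theorem arith (L : ℕ) : 3000 * (L + 4 + 5) ^ 8 * (L + 4 + 1) ≤ 3000 * 9 ^ 9 * (L + 1) ^ 9 := by
  have h1 : L + 4 + 5 ≤ 9 * (L + 1) := by omega
  have h2 : L + 4 + 1 ≤ 9 * (L + 1) := by omega
  have h3 : (L + 4 + 5) ^ 8 ≤ (9 * (L + 1)) ^ 8 := Nat.pow_le_pow_left h1 8
  calc 3000 * (L + 4 + 5) ^ 8 * (L + 4 + 1) ≤ 3000 * (9 * (L + 1)) ^ 8 * (9 * (L + 1)) :=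
        Nat.mul_le_mul (Nat.mul_le_mul_left _ h3) h2
    _ = 3000 * 9 ^ 9 * (L + 1) ^ 9 := by ring

end NSUM_

theorem p_N_SUM (h_STP : T_N_STP) (h_SEQ : T_N_SEQ) : T_N_SUM := by
  refine ⟨3000 * 9 ^ 9, ?_⟩
  intro m p hinj hconv
  set L := Nat.log 2 m with hL
  set M := L + 4 with hM
  have hm : 2 * m ≤ 2 ^ (M - 2) := by
    have h1 : m < 2 ^ (Nat.log 2 m).succ := Nat.lt_pow_succ_log_self (by norm_num) m
    have h2 : M - 2 = (Nat.log 2 m).succ + 1 := by
      rw [hM, hL]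
      omega
    rw [h2, pow_succ]
    omega
  have key : ∀ n ≤ m, ∑ k ∈ Finset.range n, tT (stt p k) (p k) +
      (3000 * (M + 5) ^ 8) * potT M (stt p n) ≤ n * ((3000 * (M + 5) ^ 8) * (M + 1)) := by
    intro n
    induction n with
    | zero =>
      intro _
      have : potT M (stt p 0) = 0 := rfl
      rw [this]
      simp
    | succ n ih =>
      intro hn
      have h1 := ih (by omega)
      obtain ⟨h2, h3, h4⟩ := h_SEQ m p hinj hconv n (by omega)
      have h5 := h_STP M (stt p n) (pre p n) (p n) h2 h3 (by omega) (by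
        rw [h4]
        exact le_trans (Nat.mul_le_mul_left 2 (by omega)) hm)
      have h6 : stt p (n + 1) = insT (stt p n) (p n) := rfl
      rw [Finset.sum_range_succ, h6, add_mul, one_mul]
      omega
  have h1 := key m le_rfl
  have h2 : ∑ k ∈ Finset.range m, tT (stt p k) (p k) ≤ m * ((3000 * (M + 5) ^ 8) * (M + 1)) := by
    omega
  refine h2.trans ?_
  have h3 := NSUM_.arith L
  calc m * ((3000 * (M + 5) ^ 8) * (M + 1)) ≤ m * (3000 * 9 ^ 9 * (L + 1) ^ 9) :=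
        Nat.mul_le_mul_left _ h3
    _ = 3000 * 9 ^ 9 * m * (L + 1) ^ 9 := by ring

end Pool.Agent.EVD
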