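import Pool.Agent.EVD.TN

/-! # EVD: T_N_TC, bound for the time of `insC` (helper59) -/

namespace Pool.Agent.EVD

theorem NTC_pos (k : ℕ) (sl : List (Slot ℝ)) : 1 ≤ wI k sl := by
  cases sl with
  | nil => exact Nat.one_le_two_pow
  | cons s rest =>
    unfold wI
    have h : 1 ≤ 2 ^ k := Nat.one_le_two_pow
    split
    · exact h
    · omega

theorem p_N_TC (h_TI : T_N_TI) (h_RT : T_N_RT) (h_LEN : T_N_LEN) (h_SZI : T_SZI) : T_N_TC := by
  intro M sl p hS hL hM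
  have h1 := h_TI M sl 0 [p] [TR.leaf ⟨p, none, 0, 0, QT.stop, QT.stop⟩] hS hL rfl (by simp)
    (by simp [mdep, TR.dep]) (by omega)
  have h2 := (h_SZI sl 0 [p] [TR.leaf ⟨p, none, 0, 0, QT.stop, QT.stop⟩] hS hL rfl).1
  have h3 := h_LEN sl [p] [TR.leaf ⟨p, none, 0, 0, QT.stop, QT.stop⟩]
  have h4 := h_RT M _ h2 (by omega)
  have h5 := NTC_pos 0 sl
  unfold tC
  generalize tI sl [p] [TR.leaf ⟨p, none, 0, 0, QT.stop, QT.stop⟩] = a at *
  generalize rT (insS sl [p] [TR.leaf ⟨p, none, 0, 0, QT.stop, QT.stop⟩]) = b at *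
  generalize (M + 5) ^ 8 = X at *
  generalize wI 0 sl = w at *
  have h6 : 2000 * X ≤ w * (2000 * X) := Nat.le_mul_of_pos_left _ (by omega)
  have h7 : w * (3000 * X) = w * (200 * X) + w * (2000 * X) + w * (800 * X) := by ring
  rw [h7]
  exact (Nat.add_le_add h1 (h4.trans h6)).trans (Nat.le_add_right _ _)

end Pool.Agent.EVD
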