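import Pool.Agent.EVD.TN

/-! # EVD: bound for the time of insS (T_N_TI) -/

set_option autoImplicit false

namespace Pool.Agent.EVD

namespace NTI_

theorem cPart_le {M k : ℕ} {acc : List P} {aps : List (TR ℝ)} (ha : acc.length = 2 ^ k)
    (hl : aps.length ≤ k + 1) (hd : mdep aps ≤ k) (hk : k + 2 ≤ M) :
    cPart acc aps ≤ 2 ^ k * (4 * (M + 5) ^ 8) := by
  have h1 : pM aps ≤ M ^ 4 := by
    unfold pM
    calc (aps.length + 1) * (mdep aps + 1) ^ 3 ≤ M * M ^ 3 :=
          Nat.mul_le_mul (by omega) (Nat.pow_le_pow_left (by omega) 3)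
      _ = M ^ 4 := by ring
  have h2 : M ^ 4 < (M + 5) ^ 4 := Nat.pow_lt_pow_left (by omega) (by norm_num)
  have h3 : (pM aps + 1) ^ 2 ≤ (M + 5) ^ 8 := by
    calc (pM aps + 1) ^ 2 ≤ ((M + 5) ^ 4) ^ 2 := Nat.pow_le_pow_left (by omega) 2
      _ = (M + 5) ^ 8 := by rw [← pow_mul]
  have h4 : 1 ≤ (M + 5) ^ 8 := Nat.one_le_pow _ _ (by omega)
  have h5 : 1 ≤ 2 ^ k := Nat.one_le_two_pow
  unfold cPart
  rw [ha]
  calc (2 ^ k + 1) * ((pM aps + 1) ^ 2 + 1) ≤ (2 * 2 ^ k) * (2 * (M + 5) ^ 8) :=
        Nat.mul_le_mul (by omega) (by omega)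
    _ = 2 ^ k * (4 * (M + 5) ^ 8) := by ring

theorem odep_build (h_BLD : T_A_BLD) {k : ℕ} {acc : List P} (aps : List (TR ℝ))
    (ha : acc.length = 2 ^ k) : odep (build (acc.map (mkLf aps))) ≤ k := by
  have hne : acc.map (mkLf aps) ≠ [] := by
    intro h
    have h1 := congrArg List.length h
    rw [List.length_map, ha, List.length_nil] at h1
    have := Nat.one_le_two_pow (n := k)
    omega
  obtain ⟨t, ht, _, _, hd⟩ := h_BLD.2 _ hne
  rw [ht]
  rw [List.length_map, ha, Nat.clog_pow 2 k (by norm_num)] at hd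
  exact hd

end NTI_

open NTI_ in
/-- bound for the time of insS -/
theorem p_N_TI (h_SL : T_N_SL) (h_LEN : T_N_LEN) (h_SZI : T_SZI) (h_BLD : T_A_BLD)
    (h_MRG : T_A_MRG) : T_N_TI := by
  intro M sl
  induction sl with
  | nil =>
    intro k acc aps _ _ ha hl hd hM
    simp only [List.length_nil] at hM
    have h1 := cPart_le (M := M) ha hl hd (by omega)
    have h2 := h_SL M k acc (build (acc.map (mkLf aps))) [] ha.le (odep_build h_BLD aps ha)
      trivial (by simp only [List.length_nil]; omega)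
    simp only [tI, wI]
    nlinarith [h1, h2]
  | cons s rest ih =>
    intro k acc aps hsz hlf ha hl hd hM
    simp only [List.length_cons] at hM
    obtain ⟨g1, g2, g3, g4, g5⟩ := hsz
    unfold tI wI
    cases hp : s.part with
    | none =>
      have h1 := cPart_le (M := M) ha hl hd (by omega)
      have h2 := h_SL M k acc (build (acc.map (mkLf aps))) rest ha.le (odep_build h_BLD aps ha)
        g5 (by omega)
      simp only
      nlinarith [h1, h2]
    | some t =>
      rw [hp] at g1
      simp only at g1 ⊢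
      obtain ⟨g6, g7⟩ := g1
      have hlf' : LastFull rest := by
        intro x hx
        apply hlf x
        cases rest with
        | nil => simp at hx
        | cons y r => rw [List.getLast?_cons_cons]; exact hx
      have hlen : (mrg acc s.N).length = 2 ^ (k + 1) := by
        rw [(h_MRG acc s.N).2.2, ha, g6, pow_succ]
        omega
      have hd' : mdep (t :: aps) ≤ k := by
        unfold mdep
        exact max_le g7 hd
      have hI := ih (k + 1) (mrg acc s.N) (t :: aps) g5 hlf' hlen
        (by simp only [List.length_cons]; omega) (by omega) (by omega)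
      have hS := h_SZI rest (k + 1) (mrg acc s.N) (t :: aps) g5 hlf' hlen
      have hL := h_LEN rest (mrg acc s.N) (t :: aps)
      have h2 := h_SL M k [] none (insS rest (mrg acc s.N) (t :: aps)) (by simp)
        (by simp [odep]) hS.1 (by omega)
      have h4 : 1 ≤ (M + 5) ^ 8 := Nat.one_le_pow _ _ (by omega)
      have h5 : 1 ≤ 2 ^ k := Nat.one_le_two_pow
      have h6 : 2 ^ k ≤ 2 ^ k * (M + 5) ^ 8 := Nat.le_mul_of_pos_right _ (by omega)
      rw [ha, g6]
      have e1 : (2 ^ k + wI (k + 1) rest) * (200 * (M + 5) ^ 8) =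
          200 * (2 ^ k * (M + 5) ^ 8) + wI (k + 1) rest * (200 * (M + 5) ^ 8) := by ring
      have e2 : 2 ^ k * (100 * (M + 5) ^ 8) = 100 * (2 ^ k * (M + 5) ^ 8) := by ring
      rw [e1]
      rw [e2] at h2
      omega

end Pool.Agent.EVD
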