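import Pool.Agent.EVD.TT

/-! # EVD: T_ONL (no point on the line of the extremes) -/

namespace Pool.Agent.EVD

/-- a point of the closed box lying on the line, with a parameter, is in the segment -/
theorem ONL_seg (w e v : P) (t : ℝ) (h0 : 0 ≤ t) (h1 : t ≤ 1)
    (hx : v.1 = w.1 + t * (e.1 - w.1)) (hy : v.2 = w.2 + t * (e.2 - w.2)) :
    v ∈ segment ℝ w e := by
  refine ⟨1 - t, t, by linarith, h0, by ring, ?_⟩
  apply Prod.ext
  · simp only [Prod.fst_add, Prod.smul_fst, smul_eq_mul]
    rw [hx]; ring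
  · simp only [Prod.snd_add, Prod.smul_snd, smul_eq_mul]
    rw [hy]; ring

theorem p_ONL (h_CPG : T_CPG) (h_LEX : T_LEX) : T_ONL := by
  intro S w e v hC hL hv hvw hve
  obtain ⟨hlt, -, -, -, htot⟩ := h_LEX
  obtain ⟨hw, he, hmin, hmax⟩ := hL
  have h1 : lexlt w v = true := htot v w (hmin v hv) hvw
  have h2 : lexlt v e = true := htot e v (hmax v hv) (fun h => hve h.symm)
  rw [hlt] at h1 h2
  have hnot : v ∉ segment ℝ w e := by
    intro hs
    exact h_CPG S w e w e v v v hC hw he hw he hv hvw hve hvw hve hs hs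
      (by rw [segment_same]; exact Set.mem_singleton v)
  have hwv : w.1 ≤ v.1 := by
    rcases h1 with h | h
    · exact h.le
    · exact h.1.le
  have hve' : v.1 ≤ e.1 := by
    rcases h2 with h | h
    · exact h.le
    · exact h.1.le
  have hwe : w.1 < e.1 := by
    by_contra hcon
    have hew : e.1 ≤ w.1 := not_lt.mp hcon
    have hwv2 : w.2 < v.2 := by
      rcases h1 with h | h
      · linarith
      · exact h.2
    have hve2 : v.2 < e.2 := by
      rcases h2 with h | h
      · linarith
      · exact h.2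
    have hpos : 0 < e.2 - w.2 := by linarith
    apply hnot
    refine ONL_seg w e v ((v.2 - w.2) / (e.2 - w.2)) ?_ ?_ ?_ ?_
    · exact div_nonneg (by linarith) hpos.le
    · rw [div_le_one hpos]; linarith
    · have h3 : e.1 - w.1 = 0 := by linarith
      rw [h3, mul_zero]; linarith
    · rw [div_mul_cancel₀ _ hpos.ne']; ring
  refine ⟨hwe, hwv, hve', ?_⟩
  intro hcr
  have hpos : 0 < e.1 - w.1 := by linarith
  apply hnot
  refine ONL_seg w e v ((v.1 - w.1) / (e.1 - w.1)) ?_ ?_ ?_ ?_
  · exact div_nonneg (by linarith) hpos.le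
  · rw [div_le_one hpos]; linarith
  · rw [div_mul_cancel₀ _ hpos.ne']; ring
  · unfold Cr at hcr
    rw [div_mul_eq_mul_div, ← sub_eq_iff_eq_add', eq_div_iff hpos.ne']
    linarith

end Pool.Agent.EVD
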