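import Pool.Agent.EVD.TB

/-! # EVD: target RIN (all candidates are sites) -/

set_option autoImplicit false

namespace Pool.Agent.EVD

namespace RIN_

theorem in_mono {S S' : Set P} (h : S ⊆ S') : ∀ t : QT ℝ, t.In S → t.In S'
  | QT.stop, _ => trivial
  | QT.cand _ rest, h1 => ⟨h h1.1, in_mono h rest h1.2⟩
  | QT.test _ _ _ yes no, h1 => ⟨in_mono h yes h1.1, in_mono h no h1.2⟩

theorem mkLf_q (ps : List (TR ℝ)) (f : P) :
    (mkLf ps f).q1 = QT.stop ∧ (mkLf ps f).q2 = QT.stop := by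
  unfold mkLf
  split
  · split
    · exact ⟨rfl, rfl⟩
    · exact ⟨rfl, rfl⟩
  · exact ⟨rfl, rfl⟩

theorem splitLast_eq : ∀ (t : List (Lf ℝ)) (b : Lf ℝ),
    b :: t = (splitLast b t).1 ++ [(splitLast b t).2]
  | [], b => rfl
  | c :: t, b => by
      show b :: c :: t = b :: (splitLast c t).1 ++ [(splitLast c t).2]
      rw [List.cons_append, ← splitLast_eq t c]

/-- what is known about the structures of the sample elements -/
def Low (S : Set P) (lower : Option (TR ℝ)) : Prop :=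
  ∀ ct, lower = some ct → TreeOK ct ∧ ∀ d ∈ ct.toL, d.q1.In S ∧ d.q2.In S

theorem child_in (h_CHR : T_CHR) {S : Set P} {lower : Option (TR ℝ)} (hl : Low S lower)
    (ps : List (TR ℝ)) (T : Option ℝ) (f lo hi : P) : (child ps lower T f lo hi).In S :=
  h_CHR (QT.In S) ps lower T f lo hi trivial hl

theorem mkNode_in (h_CHR : T_CHR) (h_MKI : T_MKI) (h_NXT : T_A_NXT) {S : Set P}
    {lower : Option (TR ℝ)} (hl : Low S lower) (ps : List (TR ℝ)) {ft : TR ℝ} (hft : TreeOK ft)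
    (hS : ∀ d ∈ ft.toL, d.s ∈ S) (T : Option ℝ) (f : P) {c c' : P} (hc : c ∈ S) (hc' : c' ∈ S) :
    (mkNode ps lower ft T f c c').In S := by
  unfold mkNode
  refine h_MKI S ps lower T c' _ c f T (fun T' f' l' h' => child_in h_CHR hl ps T' f' l' h')
    hc' hc fun m hm => ?_
  rw [h_NXT (cutT T) ft c'.1 4 c.1 (cut_cutT T) hft] at hm
  exact hS m (List.mem_of_mem_filter (List.mem_of_mem_take hm))

theorem critQ_in (h_CHR : T_CHR) (h_MKI : T_MKI) (h_NXT : T_A_NXT) (h_LT : T_A_LT) {S : Set P}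
    {lower : Option (TR ℝ)} (hl : Low S lower) (ps : List (TR ℝ)) {ft ct : TR ℝ} (hft : TreeOK ft)
    (hS : ∀ d ∈ ft.toL, d.s ∈ S) (hct : TreeOK ct) (hcS : ∀ d ∈ ct.toL, d.s ∈ S) (d : Lf ℝ) :
    (critQ ps lower ft ct d).In S := by
  unfold critQ
  split
  · trivial
  · rename_i h _
    have h1 := h_LT (cutT (some h)) d.s.1 ct (cut_cutT _) hct
    split
    · rename_i c c' e1 e2
      rw [e1, e2] at h1
      exact mkNode_in h_CHR h_MKI h_NXT hl ps hft hS _ _ (hcS c h1.1.1) (hcS c' h1.2.1)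
    · trivial

/-- the data of one level -/
theorem level (h_LVA : T_LVA) (h_CHR : T_CHR) (h_MKI : T_MKI) (h_NXT : T_A_NXT) (h_LT : T_A_LT)
    (h_LEV : T_LEV) {S S' : Set P} {ps : List (TR ℝ)} {lower : Option (TR ℝ)} {F : List (Lf ℝ)}
    (H : LevHyp S S' ps lower F) (hF : ∀ d ∈ F, d.q1 = QT.stop ∧ d.q2 = QT.stop)
    (hl : Low S lower) : Low S (build (levC ps lower F)) := by
  obtain ⟨ft, ct, t, a1, a2, a3, a4, a5, a6, a7, a8, a9, -⟩ := h_LVA ps lower F H.srt H.ne
  obtain ⟨t', b1, b2, b3⟩ := h_LEV S S' ps lower F H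
  have hlev : ∀ d ∈ levC ps lower F, d.s ∈ S := fun d hd => by
    rw [← b3] at hd
    exact (b2.2.1 d hd).1
  have hsam : ∀ x ∈ sample F, x.s ∈ S := fun x hx => by
    have h1 : (x.s, x.h) ∈ (levC ps lower F).map (fun d => (d.s, d.h)) := by
      rw [a8]
      exact List.mem_map.2 ⟨x, hx, rfl⟩
    obtain ⟨e, he, he'⟩ := List.mem_map.1 h1
    have h2 : e.s = x.s := congrArg Prod.fst he'
    rw [← h2]
    exact hlev e he
  have hft : ∀ d ∈ ft.toL, d.s ∈ S := fun d hd => by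
    rw [a2] at hd
    exact (H.ok d hd).1
  have hct : ∀ d ∈ ct.toL, d.s ∈ S := fun d hd => by
    rw [a4] at hd
    exact hsam d hd
  intro c hc
  rw [a5, Option.some.injEq] at hc
  subst hc
  refine ⟨a6, fun d hd => ?_⟩
  rw [a7] at hd
  rcases a9 d hd with ⟨h1, -⟩ | ⟨h1, x, hx, h2⟩
  · obtain ⟨h3, h4⟩ := hF d h1
    rw [h3, h4]
    exact ⟨trivial, trivial⟩
  · rw [h1, h2]
    exact ⟨mkNode_in h_CHR h_MKI h_NXT hl ps a1 hft _ _ (hsam x hx) (hlev d hd),
      critQ_in h_CHR h_MKI h_NXT h_LT hl ps a1 hft a3 hct d⟩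

theorem slot_F {s : Slot ℝ} {rest : List (Slot ℝ)} (h : s = mkSlot s.N s.part rest) :
    s.F = (mrg s.N (lowC rest)).map (mkLf (consO s.part (partsOf rest))) := by
  conv_lhs => rw [h]
  rfl

theorem slot_ct {s : Slot ℝ} {rest : List (Slot ℝ)} (h : s = mkSlot s.N s.part rest) :
    s.ct = build (levC (consO s.part (partsOf rest)) (lowT rest) s.F) := by
  conv_lhs => rw [h]
  rw [slot_F h]
  rfl

theorem slot_q {s : Slot ℝ} {rest : List (Slot ℝ)} (h : s = mkSlot s.N s.part rest) :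
    ∀ d ∈ s.F, d.q1 = QT.stop ∧ d.q2 = QT.stop := by
  intro d hd
  rw [slot_F h] at hd
  obtain ⟨f, -, rfl⟩ := List.mem_map.1 hd
  exact mkLf_q _ _

theorem low (h_SLF : T_SLF) (h_LVH : T_LVH) (h_LVA : T_LVA) (h_CHR : T_CHR) (h_MKI : T_MKI)
    (h_NXT : T_A_NXT) (h_LT : T_A_LT) (h_LEV : T_LEV) : ∀ (sl : List (Slot ℝ)) (S : Set P),
    SlotsOK sl S → S.Finite → Chn S → Low S (lowT sl)
  | [], S, _, _, _ => fun ct h => by
      simp [lowT] at h
  | s :: rest, S, h, hfin, hchn => by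
      obtain ⟨hne, S', h1, h2, h3, h4, h5, h6⟩ := h
      have hsub : S' ⊆ S := by rw [h2]; exact Set.subset_union_right
      have hfin' := hfin.subset hsub
      have hchn' := hchn.mono hsub
      have IH := low h_SLF h_LVH h_LVA h_CHR h_MKI h_NXT h_LT h_LEV rest S' h1 hfin' hchn'
      have H := h_LVH s rest S S' hfin hchn hne h2 h3 h4 h5 h6 (h_SLF rest S' h1 hfin' hchn')
      have hl : Low S (lowT rest) := fun ct hct =>
        ⟨(IH ct hct).1, fun d hd => ⟨in_mono hsub _ ((IH ct hct).2 d hd).1,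
          in_mono hsub _ ((IH ct hct).2 d hd).2⟩⟩
      have := level h_LVA h_CHR h_MKI h_NXT h_LT h_LEV H (slot_q h6) hl
      rw [← slot_ct h6] at this
      exact this

end RIN_

open RIN_ in
theorem p_RIN (h_SLF : T_SLF) (h_LVH : T_LVH) (h_LVA : T_LVA) (h_CHR : T_CHR) (h_MKI : T_MKI)
    (h_NXT : T_A_NXT) (h_LT : T_A_LT) (h_LEV : T_LEV) : T_RIN := by
  intro sl S h hfin hchn
  match sl, h with
  | [], _ => exact trivial
  | s :: rest, h =>
    obtain ⟨hne, S', h1, h2, h3, h4, h5, h6⟩ := h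
    have hsub : S' ⊆ S := by rw [h2]; exact Set.subset_union_right
    have hfin' := hfin.subset hsub
    have hchn' := hchn.mono hsub
    have IH := low h_SLF h_LVH h_LVA h_CHR h_MKI h_NXT h_LT h_LEV rest S' h1 hfin' hchn'
    have H := h_LVH s rest S S' hfin hchn hne h2 h3 h4 h5 h6 (h_SLF rest S' h1 hfin' hchn')
    have hl : Low S (lowT rest) := fun ct hct =>
      ⟨(IH ct hct).1, fun d hd => ⟨in_mono hsub _ ((IH ct hct).2 d hd).1,
        in_mono hsub _ ((IH ct hct).2 d hd).2⟩⟩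
    have hF : ∀ d ∈ s.F, d.s ∈ S := fun d hd => (H.ok d hd).1
    rcases e : s.F with _ | ⟨a, _ | ⟨b, t⟩⟩
    · have h9 : rootQ (s :: rest) = QT.stop := by simp only [rootQ, e]
      rw [h9]
      trivial
    · have h9 : rootQ (s :: rest) = QT.cand a.s QT.stop := by simp only [rootQ, e]
      rw [h9]
      exact ⟨hF a (by rw [e]; exact List.mem_singleton.2 rfl), trivial⟩
    · have h9 : rootQ (s :: rest) = mk (consO s.part (partsOf rest)) (lowT rest) none
          (splitLast b t).2.s (splitLast b t).1 a.s none a.s := by simp only [rootQ, e]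
      rw [h9]
      have h7 : ∀ d ∈ (splitLast b t).1, d ∈ s.F := fun d hd => by
        rw [e, splitLast_eq t b]
        exact List.mem_cons_of_mem _ (List.mem_append_left _ hd)
      have h8 : (splitLast b t).2 ∈ s.F := by
        rw [e, splitLast_eq t b]
        exact List.mem_cons_of_mem _ (List.mem_append_right _ (List.mem_singleton.2 rfl))
      exact h_MKI S _ _ none _ _ a.s a.s none
        (fun T' f l h => child_in h_CHR hl _ T' f l h) (hF _ h8)
        (hF a (by rw [e]; exact List.mem_cons_self)) fun m hm => hF m (h7 m hm)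

end Pool.Agent.EVD
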