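import Pool.Agent.EVD.TB
import Pool.Agent.EVD.TABase

/-! # EVD: the root structure meets the nearest site (target ROT) -/

set_option autoImplicit false

namespace Pool.Agent.EVD

theorem ROT_splitLast (b : Lf ℝ) (t : List (Lf ℝ)) :
    b :: t = (splitLast b t).1 ++ [(splitLast b t).2] := by
  induction t generalizing b with
  | nil => rfl
  | cons c t ih =>
    simp only [splitLast, List.cons_append]
    rw [← ih c]

theorem ROT_live (h : Option ℝ) : live (cutT none) h = true := by
  cases h <;> rfl

theorem p_ROT (h_SLF : T_SLF) (h_LVH : T_LVH) (h_MK : T_MK) : T_ROT := by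
  intro sl S q s hsl hfin hchn hNN
  cases sl with
  | nil =>
    have h1 : S = ∅ := hsl
    have h2 := hNN.1
    rw [h1] at h2
    exact absurd h2 (Set.notMem_empty s)
  | cons s0 rest =>
    obtain ⟨hne, S', hrest, hS, hdis, hsrt, hpart, hs0⟩ := hsl
    have hsub : S' ⊆ S := by
      rw [hS]
      exact Set.subset_union_right
    have hfac := h_SLF rest S' hrest (hfin.subset hsub) (hchn.mono hsub)
    have hL := h_LVH s0 rest S S' hfin hchn hne hS hdis hsrt hpart hs0 hfac
    have hok := hL.ok
    have hext := hL.ext s hNN.1
    have hsr := hL.srt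
    have hrs := hL.rest
    have hnn := hL.ne
    rcases hF : s0.F with _ | ⟨a, _ | ⟨b, t⟩⟩
    · exact absurd hF hnn
    · -- one element
      rw [hF] at hok hext
      have e1 : a.s.1 = s.1 := by
        obtain ⟨⟨d, hd, h1⟩, ⟨d', hd', h2⟩⟩ := hext
        rw [List.mem_singleton] at hd hd'
        subst hd
        subst hd'
        exact le_antisymm h1 h2
      have e2 : a.s = s := hchn.eq (hok a (List.mem_singleton.2 rfl)).1 hNN.1 e1
      simp only [rootQ, hF]
      exact Or.inl e2.symm
    · -- at least two elements
      have hbt := ROT_splitLast b t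
      rw [hF] at hok hext hsr hrs
      simp only [rootQ, hF]
      generalize hm : (splitLast b t).1 = m at hbt ⊢
      generalize hz : (splitLast b t).2 = z at hbt ⊢
      rw [hbt] at hok hext hsr hrs
      unfold Srt at hsr
      rw [List.pairwise_cons, List.pairwise_append] at hsr
      obtain ⟨ha, hmm, -, hmz⟩ := hsr
      have ham : ∀ x ∈ m, a.s.1 < x.s.1 := fun x hx => ha x (List.mem_append_left _ hx)
      have haz : a.s.1 < z.s.1 := ha z (List.mem_append_right _ (List.mem_singleton.2 rfl))
      have hmz' : ∀ x ∈ m, x.s.1 < z.s.1 := fun x hx => hmz x hx z (List.mem_singleton.2 rfl)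
      have haS : a.s ∈ S := (hok a (by simp)).1
      have hzS : z.s ∈ S := (hok z (by simp)).1
      have hmem : ∀ d : Lf ℝ, d ∈ a :: (m ++ [z]) → d = a ∨ d ∈ m ∨ d = z := by
        intro d hd
        simpa using hd
      refine h_MK S S' _ _ none a.s z.s m hfin hchn hsub hL.parts hL.low haS hzS hmm
        (fun x hx => ⟨hok x (by simp [hx]), ham x hx, hmz' x hx, ROT_live _⟩) ?_ m a.s a.s none
        (List.suffix_refl m) haS (le_refl _) haz ham ?_ ⟨haS, ?_⟩ (le_refl _) haz.le ?_ ?_ q s ?_
        hNN ?_ ?_
      · intro u hu h1 h2 h3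
        refine hrs u hu.1 ?_
        rintro ⟨d, hd, rfl⟩
        rcases hmem d hd with rfl | hd | rfl
        · exact lt_irrefl _ h1
        · exact h3 ⟨d, hd, rfl⟩
        · exact lt_irrefl _ h2
      · intro t h
        cases h
      · intro t h
        cases h
      · rintro ⟨-, h, -⟩
        exact lt_irrefl _ h
      · intro x hx _ hx'
        exact absurd hx hx'
      · intro t h
        cases h
      · obtain ⟨⟨d, hd, h1⟩, -⟩ := hext
        rcases hmem d hd with rfl | hd | rfl
        · exact h1
        · exact (ham d hd).le.trans h1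
        · exact haz.le.trans h1
      · obtain ⟨-, ⟨d, hd, h1⟩⟩ := hext
        rcases hmem d hd with rfl | hd | rfl
        · exact h1.trans haz.le
        · exact h1.trans (hmz' d hd).le
        · exact h1

end Pool.Agent.EVD
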