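import Pool.Agent.EVD.TG

/-!
# EVD: SIN (candidates belong to the set)
-/

set_option autoImplicit false

namespace Pool.Agent.EVD

theorem p_SIN : T_SIN := by
  intro t S q s
  induction t with
  | stop => intro _ h; exact h.elim
  | cand s' rest ih =>
      intro hI hs
      rcases hs with rfl | hs
      · exact hI.1
      · exact ih hI.2 hs
  | test a b c yes no ih1 ih2 =>
      intro hI hs
      rw [QT.Seen] at hs
      split_ifs at hs with h
      · exact ih1 hI.1 hs
      · exact ih2 hI.2 hs

end Pool.Agent.EVD
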