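import Pool.Agent.EVD.TB

/-! # EVD: facts of all slots by induction (target `T_SLF`) -/

set_option autoImplicit false

namespace Pool.Agent.EVD

theorem p_SLF (h_LVH : T_LVH) (h_LEV : T_LEV) : T_SLF := by
  intro sl
  induction sl with
  | nil =>
    intro S h _ _
    have hS : S = ∅ := h
    subst hS
    refine ⟨rfl, rfl, List.Pairwise.nil, ?_⟩
    ext p
    simp [lset, lowC, lowT, smp]
  | cons s rest ih =>
    intro S h hfin hchn
    obtain ⟨hne, S', hrest, hSeq, hdis, hsrt, hpart, hmk⟩ := h
    have hsub : S' ⊆ S := by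
      rw [hSeq]
      exact Set.subset_union_right
    have ihS := ih S' hrest (hfin.subset hsub) (hchn.mono hsub)
    have hLH := h_LVH s rest S S' hfin hchn hne hSeq hdis hsrt hpart hmk ihS
    obtain ⟨t, ht, hlow, htL⟩ := h_LEV S S' _ _ _ hLH
    have hF : s.F = (mrg s.N (lowC rest)).map (mkLf (consO s.part (partsOf rest))) :=
      congrArg Slot.F hmk
    have hct : s.ct = some t := by
      rw [← ht, hF]
      exact congrArg Slot.ct hmk
    have hC : s.C = t.toL.map Lf.s := by
      rw [htL, hF]
      exact congrArg Slot.C hmk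
    refine ⟨hLH.parts, ?_, ?_, ?_⟩
    · show LowO S s.ct
      rw [hct]
      exact hlow
    · show SrtP s.C
      rw [hC]
      exact List.pairwise_map.2 hlow.1.2
    · show lset s.C = smp s.ct
      rw [hct, hC]
      ext p
      simp [lset, smp, sites]

end Pool.Agent.EVD
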