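import Pool.Agent.EVD.TB

/-! # EVD: the sample is a sublist with the same ends, of a third of the length -/

set_option autoImplicit false

namespace Pool.Agent.EVD

namespace SMA_

theorem sub2 (b c z : Lf ℝ) : [btr b c, z].Sublist [b, c, z] := by
  rcases btr_mem b c with e | e
  · rw [e]
    exact List.Sublist.cons_cons b (List.Sublist.cons c (List.Sublist.refl _))
  · rw [e]
    exact List.Sublist.cons b (List.Sublist.refl _)

theorem sub3 (b c d : Lf ℝ) {l m : List (Lf ℝ)} (h : l.Sublist m) :
    (btr b (btr c d) :: l).Sublist (b :: c :: d :: m) := by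
  rcases btr_mem b (btr c d) with e | e
  · rw [e]
    exact List.Sublist.cons_cons b (List.Sublist.cons c (List.Sublist.cons d h))
  · rcases btr_mem c d with e' | e'
    · rw [e, e']
      exact List.Sublist.cons b (List.Sublist.cons_cons c (List.Sublist.cons d h))
    · rw [e, e']
      exact List.Sublist.cons b (List.Sublist.cons c (List.Sublist.cons_cons d h))

theorem blkAll (l : List (Lf ℝ)) : (blk l).Sublist l ∧ (blk l).getLast? = l.getLast? ∧
    3 * (blk l).length ≤ l.length + 4 := by
  induction l using blk.induct with
  | case1 => simp [blk]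
  | case2 z => simp [blk]
  | case3 b z => simp [blk]
  | case4 b c z =>
    refine ⟨?_, ?_, ?_⟩
    · rw [blk]; exact sub2 b c z
    · simp [blk]
    · simp [blk]
  | case5 b c d z t ih =>
    obtain ⟨h1, h2, h3⟩ := ih
    refine ⟨?_, ?_, ?_⟩
    · rw [blk]; exact sub3 b c d h1
    · rw [blk, List.getLast?_cons, h2]
      simp [List.getLast?_cons]
    · rw [blk]
      simp only [List.length_cons] at h3 ⊢
      omega

end SMA_

theorem p_SMA : T_SMA := by
  intro F
  cases F with
  | nil => simp [sample]
  | cons a t =>
    obtain ⟨h1, h2, h3⟩ := SMA_.blkAll t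
    refine ⟨List.Sublist.cons_cons a h1, rfl, ?_, ?_⟩
    · rw [sample, List.getLast?_cons, List.getLast?_cons, h2]
    · simp only [sample, List.length_cons]
      omega

end Pool.Agent.EVD
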