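import Pool.Agent.EVD.TB

/-! # EVD-SMB: at most two live elements before the first live element of the sample (helper9) -/

set_option autoImplicit false

namespace Pool.Agent.EVD

namespace SMB_

theorem blk_mem (l : List (Lf ℝ)) : ∀ e ∈ blk l, e ∈ l := by
  induction l using blk.induct with
  | case1 => intro e he; simp [blk] at he
  | case2 z => intro e he; simpa [blk] using he
  | case3 b z => intro e he; simpa [blk] using he
  | case4 b c z =>
    intro e he
    simp only [blk, List.mem_cons, List.not_mem_nil, or_false] at he
    rcases he with rfl | rfl
    · rcases btr_mem b c with h | h <;> rw [h] <;> simp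
    · simp
  | case5 b c d z t ih =>
    intro e he
    simp only [blk] at he
    rcases List.mem_cons.1 he with rfl | he
    · rcases btr_mem b (btr c d) with h | h
      · rw [h]; simp
      · rw [h]
        rcases btr_mem c d with h | h <;> rw [h] <;> simp
    · have := ih e he
      simp only [List.mem_cons] at this ⊢
      tauto

variable {D : ℝ → Bool} {x x' : ℝ}

theorem inI_cons_le (a : Lf ℝ) (l : List (Lf ℝ)) :
    (inI D x x' (a :: l)).length ≤ (inI D x x' l).length + 1 := by
  unfold inI
  rw [List.filter_cons]
  split
  · simp
  · omega

theorem inI_dead {a : Lf ℝ} (h : live D a.h = false) (l : List (Lf ℝ)) :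
    inI D x x' (a :: l) = inI D x x' l := by
  unfold inI
  rw [List.filter_cons]
  simp [h]

theorem inI_nil {l : List (Lf ℝ)} (h : ∀ e ∈ l, x' ≤ e.s.1) : (inI D x x' l).length = 0 := by
  have : inI D x x' l = [] := by
    unfold inI
    rw [List.filter_eq_nil_iff]
    intro e he
    have h1 := h e he
    simp [not_lt.2 h1]
  rw [this]
  rfl

end SMB_

open SMB_ in
theorem p_SMB : T_SMB := by
  intro D l x c' hD
  induction l using blk.induct with
  | case1 => intro _ h; simp [blk] at h
  | case2 z =>
    intro hs h hl hb
    have : (inI D x c'.s.1 [z]).length ≤ 1 := by
      have := inI_cons_le (D := D) (x := x) (x' := c'.s.1) z []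
      simpa [inI] using this
    omega
  | case3 b z =>
    intro hs h hl hb
    have h1 := inI_cons_le (D := D) (x := x) (x' := c'.s.1) b [z]
    have h2 := inI_cons_le (D := D) (x := x) (x' := c'.s.1) z []
    have h3 : (inI D x c'.s.1 []).length = 0 := by simp [inI]
    omega
  | case4 b c z =>
    intro hs h hl hb
    simp only [Srt, List.pairwise_cons, List.mem_cons, List.not_mem_nil, or_false] at hs
    obtain ⟨hb1, hc1, -⟩ := hs
    simp only [blk, List.mem_cons, List.not_mem_nil, or_false] at h hb
    rcases h with rfl | rfl
    · rcases btr_mem b c with e | e
      · rw [e]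
        rw [inI_nil]
        · omega
        · intro u hu
          simp only [List.mem_cons, List.not_mem_nil, or_false] at hu
          rcases hu with rfl | hu
          · exact le_rfl
          · exact (hb1 u hu).le
      · rw [e]
        have h1 := inI_cons_le (D := D) (x := x) (x' := c.s.1) b [c, z]
        have h2 : (inI D x c.s.1 [c, z]).length = 0 := by
          apply inI_nil
          intro u hu
          simp only [List.mem_cons, List.not_mem_nil, or_false] at hu
          rcases hu with rfl | hu
          · exact le_rfl
          · exact (hc1 u hu).le
        omega
    · have h1 := inI_cons_le (D := D) (x := x) (x' := c'.s.1) b [c, c']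
      have h2 := inI_cons_le (D := D) (x := x) (x' := c'.s.1) c [c']
      have h3 : (inI D x c'.s.1 [c']).length = 0 := by
        apply inI_nil
        intro u hu
        simp only [List.mem_cons, List.not_mem_nil, or_false] at hu
        rw [hu]
      omega
  | case5 b c d z t ih =>
    intro hs h hl hb
    simp only [Srt] at hs ih
    rw [List.pairwise_cons, List.pairwise_cons, List.pairwise_cons] at hs
    obtain ⟨hb1, hc1, hd1, hs'⟩ := hs
    simp only [blk] at h hb
    rcases List.mem_cons.1 h with rfl | h'
    · have key : btr b (btr c d) = b ∨ btr b (btr c d) = c ∨ btr b (btr c d) = d := by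
        rcases btr_mem b (btr c d) with e | e
        · exact Or.inl e
        · rcases btr_mem c d with e' | e'
          · exact Or.inr (Or.inl (by rw [e, e']))
          · exact Or.inr (Or.inr (by rw [e, e']))
      rcases key with e | e | e
      · rw [e]
        rw [inI_nil]
        · omega
        · intro u hu
          rcases List.mem_cons.1 hu with rfl | hu
          · exact le_rfl
          · exact (hb1 u hu).le
      · rw [e]
        have h1 := inI_cons_le (D := D) (x := x) (x' := c.s.1) b (c :: d :: z :: t)
        have h2 : (inI D x c.s.1 (c :: d :: z :: t)).length = 0 := by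
          apply inI_nil
          intro u hu
          rcases List.mem_cons.1 hu with rfl | hu
          · exact le_rfl
          · exact (hc1 u hu).le
        omega
      · rw [e]
        have h1 := inI_cons_le (D := D) (x := x) (x' := d.s.1) b (c :: d :: z :: t)
        have h1' := inI_cons_le (D := D) (x := x) (x' := d.s.1) c (d :: z :: t)
        have h2 : (inI D x d.s.1 (d :: z :: t)).length = 0 := by
          apply inI_nil
          intro u hu
          rcases List.mem_cons.1 hu with rfl | hu
          · exact le_rfl
          · exact (hd1 u hu).le
        omega
    · have hc' : c' ∈ z :: t := blk_mem _ _ h'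
      have hm : (btr b (btr c d)).s.1 < c'.s.1 := by
        rcases btr_mem b (btr c d) with e | e
        · rw [e]
          exact hb1 c' (List.mem_cons_of_mem _ (List.mem_cons_of_mem _ hc'))
        · rw [e]
          rcases btr_mem c d with e' | e'
          · rw [e']
            exact hc1 c' (List.mem_cons_of_mem _ hc')
          · rw [e']
            exact hd1 c' hc'
      have hmd : live D (btr b (btr c d)).h = false := hb _ (List.mem_cons_self) hm
      have hbd : live D b.h = false := live_false_mono hD (btr_le_left _ _) hmd
      have hcd : live D (btr c d).h = false := live_false_mono hD (btr_le_right _ _) hmd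
      have hc0 : live D c.h = false := live_false_mono hD (btr_le_left _ _) hcd
      have hd0 : live D d.h = false := live_false_mono hD (btr_le_right _ _) hcd
      rw [inI_dead hbd, inI_dead hc0, inI_dead hd0]
      exact ih hs' h' hl (fun e he => hb e (List.mem_cons_of_mem _ he))

end Pool.Agent.EVD
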