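import Pool.Agent.EVD.TB
import Pool.Agent.EVD.P_SMB

/-! # EVD-SMC: at most four live elements between consecutive live sample elements -/

set_option autoImplicit false

namespace Pool.Agent.EVD

namespace SMC_

variable {D : ℝ → Bool} {x x' : ℝ}

theorem inI_out {a : Lf ℝ} (h : a.s.1 ≤ x) (l : List (Lf ℝ)) :
    inI D x x' (a :: l) = inI D x x' l := by
  unfold inI
  rw [List.filter_cons]
  simp [not_lt.2 h]

theorem inI_length_le (l : List (Lf ℝ)) : (inI D x x' l).length ≤ l.length := by
  unfold inI
  exact List.length_filter_le _ _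

theorem key3 (b c d : Lf ℝ) :
    btr b (btr c d) = b ∨ btr b (btr c d) = c ∨ btr b (btr c d) = d := by
  rcases btr_mem b (btr c d) with e | e
  · exact Or.inl e
  · rcases btr_mem c d with e' | e'
    · exact Or.inr (Or.inl (by rw [e, e']))
    · exact Or.inr (Or.inr (by rw [e, e']))

/-- the statement for `blk` -/
theorem blk_run (h_SMB : T_SMB) (hD : Cut D) (l : List (Lf ℝ)) : ∀ c c' : Lf ℝ, Srt l → c ∈ blk l →
    c' ∈ blk l → c.s.1 < c'.s.1 → live D c'.h = true →
    (∀ e ∈ blk l, c.s.1 < e.s.1 → e.s.1 < c'.s.1 → live D e.h = false) →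
    (inI D c.s.1 c'.s.1 l).length ≤ 4 := by
  induction l using blk.induct with
  | case1 => intro c c' _ h; simp [blk] at h
  | case2 z =>
    intro c c' _ _ _ _ _ _
    exact (inI_length_le _).trans (by simp)
  | case3 b z =>
    intro c c' _ _ _ _ _ _
    exact (inI_length_le _).trans (by simp)
  | case4 b c0 z =>
    intro c c' _ _ _ _ _ _
    exact (inI_length_le _).trans (by simp)
  | case5 b c0 d z t ih =>
    intro c c' hs hc hc' hlt hl hb
    simp only [Srt] at hs ih
    rw [List.pairwise_cons, List.pairwise_cons, List.pairwise_cons] at hs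
    obtain ⟨hb1, hc1, hd1, hs'⟩ := hs
    simp only [blk] at hc hc' hb
    have hbig : ∀ u ∈ z :: t, b.s.1 < u.s.1 ∧ c0.s.1 < u.s.1 ∧ d.s.1 < u.s.1 := by
      intro u hu
      exact ⟨hb1 u (List.mem_cons_of_mem _ (List.mem_cons_of_mem _ hu)),
        hc1 u (List.mem_cons_of_mem _ hu), hd1 u hu⟩
    have hmlt : ∀ u ∈ z :: t, (btr b (btr c0 d)).s.1 < u.s.1 := by
      intro u hu
      obtain ⟨h1, h2, h3⟩ := hbig u hu
      rcases key3 b c0 d with e | e | e <;> rw [e] <;> assumption
    rcases List.mem_cons.1 hc with rfl | hcm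
    · -- `c` is the element of the block
      rcases List.mem_cons.1 hc' with rfl | hc'm
      · exact absurd hlt (lt_irrefl _)
      · have h2 : (inI D (btr b (btr c0 d)).s.1 c'.s.1 (z :: t)).length ≤ 2 := by
          apply h_SMB D (z :: t) _ c' hD hs' hc'm hl
          intro e he he'
          exact hb e (List.mem_cons_of_mem _ he) (hmlt e (SMB_.blk_mem _ e he)) he'
        rcases key3 b c0 d with e | e | e
        · rw [e] at h2 ⊢
          rw [inI_out le_rfl]
          have h3 := SMB_.inI_cons_le (D := D) (x := b.s.1) (x' := c'.s.1) c0 (d :: z :: t)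
          have h4 := SMB_.inI_cons_le (D := D) (x := b.s.1) (x' := c'.s.1) d (z :: t)
          omega
        · rw [e] at h2 ⊢
          have h3 := SMB_.inI_cons_le (D := D) (x := c0.s.1) (x' := c'.s.1) b (c0 :: d :: z :: t)
          rw [inI_out (a := c0) le_rfl] at h3
          have h4 := SMB_.inI_cons_le (D := D) (x := c0.s.1) (x' := c'.s.1) d (z :: t)
          omega
        · rw [e] at h2 ⊢
          have h3 := SMB_.inI_cons_le (D := D) (x := d.s.1) (x' := c'.s.1) b (c0 :: d :: z :: t)
          have h4 := SMB_.inI_cons_le (D := D) (x := d.s.1) (x' := c'.s.1) c0 (d :: z :: t)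
          rw [inI_out (a := d) le_rfl] at h4
          omega
    · -- `c` is in the rest
      have hcz : c ∈ z :: t := SMB_.blk_mem _ _ hcm
      have hc'm : c' ∈ blk (z :: t) := by
        rcases List.mem_cons.1 hc' with rfl | h
        · exact absurd hlt (not_lt.2 (hmlt c hcz).le)
        · exact h
      obtain ⟨h1, h2, h3⟩ := hbig c hcz
      rw [inI_out h1.le, inI_out h2.le, inI_out h3.le]
      exact ih c c' hs' hcm hc'm hlt hl (fun e he => hb e (List.mem_cons_of_mem _ he))

end SMC_

open SMC_ in
theorem p_SMC (h_SMB : T_SMB) : T_SMC := by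
  intro D F c c' hD hs hc hc' hlt _ hl' hb
  cases F with
  | nil => simp [sample] at hc
  | cons a t =>
    unfold Srt at hs
    rw [List.pairwise_cons] at hs
    obtain ⟨ha, ht⟩ := hs
    simp only [sample] at hc hc' hb
    rcases List.mem_cons.1 hc with rfl | hcm
    · rcases List.mem_cons.1 hc' with rfl | hc'm
      · exact absurd hlt (lt_irrefl _)
      · rw [inI_out le_rfl]
        have h2 : (inI D c.s.1 c'.s.1 t).length ≤ 2 := by
          apply h_SMB D t _ c' hD ht hc'm hl'
          intro e he he'
          exact hb e (List.mem_cons_of_mem _ he) (ha e (SMB_.blk_mem _ e he)) he'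
        omega
    · have hct : c ∈ t := SMB_.blk_mem _ _ hcm
      have hc'm : c' ∈ blk t := by
        rcases List.mem_cons.1 hc' with rfl | h
        · exact absurd hlt (not_lt.2 (ha c hct).le)
        · exact h
      rw [inI_out (ha c hct).le]
      exact blk_run h_SMB hD t c c' ht hcm hc'm hlt hl'
        (fun e he => hb e (List.mem_cons_of_mem _ he))

end Pool.Agent.EVD
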