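import Pool.Agent.EVD.TG

set_option autoImplicit false

namespace Pool.Agent.EVD

theorem p_SPN (h_DSQ : T_DSQ) : T_SPN := by
  intro S m h q s hL hh hq hN
  have h1 := hL.2.2 h hh q.2 hq s hN.1
  obtain ⟨h2, h3⟩ := hN.2 m.s hL.1
  have hD : ∀ q s : P, dsq q s = nsq q - 2 * q.1 * s.1 + zl q.2 s := h_DSQ
  rw [hD, hD] at h1 h2 h3
  set x0 := m.sx + m.sk * q.2 with hx0
  generalize zl q.2 s = zs at *
  generalize zl q.2 m.s = zm at *
  generalize nsq (x0, q.2) = n0 at *
  generalize nsq q = n1 at *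
  constructor
  · intro hlt
    have h4 : q.1 < x0 := by
      rw [hx0]
      linarith
    by_contra hcon
    have h5 : m.s.1 < s.1 := not_le.1 hcon
    have h6 := mul_pos (sub_pos.2 h4) (sub_pos.2 h5)
    have e : (x0 - q.1) * (s.1 - m.s.1) =
      x0 * s.1 - x0 * m.s.1 - q.1 * s.1 + q.1 * m.s.1 := by ring
    rw [e] at h6
    linarith
  · intro hlt
    have h4 : x0 ≤ q.1 := by
      rw [hx0]
      linarith [not_lt.1 hlt]
    by_contra hcon
    have h5 : s.1 < m.s.1 := not_le.1 hcon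
    have h6 := mul_nonneg (sub_nonneg.2 h4) (sub_pos.2 h5).le
    have h7 := h3 h5
    have e : (q.1 - x0) * (m.s.1 - s.1) =
      q.1 * m.s.1 - q.1 * s.1 - x0 * m.s.1 + x0 * s.1 := by ring
    rw [e] at h6
    linarith

end Pool.Agent.EVD
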