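import Pool.Agent.EVD.TT

/-! # EVD-STE: stability of the classes, new lexicographic maximum -/

set_option autoImplicit false

namespace Pool.Agent.EVD

namespace STE_

theorem lexM_insert (h_LEX : T_LEX) {S : Set P} {w e p : P} (hM : LexM S w e)
    (hp : lexlt e p = true) : LexM (insert p S) w p := by
  obtain ⟨_, _, htr, has, _⟩ := h_LEX
  obtain ⟨hw, he, hmin, hmax⟩ := hM
  refine ⟨Set.mem_insert_of_mem _ hw, Set.mem_insert _ _, ?_, ?_⟩
  · intro s hs
    rcases Set.mem_insert_iff.1 hs with rfl | hs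
    · by_contra h
      have h1 : lexlt s w = true := by simpa using h
      have h2 := htr _ _ _ hp h1
      rw [hmin e he] at h2
      exact absurd h2 (by simp)
    · exact hmin s hs
  · intro s hs
    rcases Set.mem_insert_iff.1 hs with rfl | hs
    · by_contra h
      have h1 : lexlt s s = true := by simpa using h
      exact h (has _ _ h1)
    · by_contra h
      have h1 : lexlt p s = true := by simpa using h
      have h2 := htr _ _ _ hp h1
      rw [hmax s hs] at h2
      exact absurd h2 (by simp)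

end STE_

theorem p_STE (h_CPV : T_CPV) (h_ONL : T_ONL) (h_LEX : T_LEX) (h_CPS : T_CPS) : T_STE := by
  intro S w e p v hC hM hp hv
  have hM' := STE_.lexM_insert h_LEX hM hp
  have hCS : ConvPos S := h_CPS _ _ (Set.subset_insert _ _) hC
  have hvp : v ≠ p := by
    rintro rfl
    rw [hM.2.2.2 v hv] at hp
    exact absurd hp (by simp)
  have key : Cr w e v ≠ 0 → v ≠ w ∧ v ≠ e := by
    intro h
    constructor
    · rintro rfl
      exact h (by unfold Cr; ring)
    · rintro rfl
      exact h (by unfold Cr; ring)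
  have hwS : w ∈ insert p S := Set.mem_insert_of_mem _ hM.1
  have heS : e ∈ insert p S := Set.mem_insert_of_mem _ hM.2.1
  have hpS : p ∈ insert p S := Set.mem_insert _ _
  have hvS : v ∈ insert p S := Set.mem_insert_of_mem _ hv
  constructor
  · intro h
    obtain ⟨hvw, hve⟩ := key h.ne'
    obtain ⟨h1, h2, h3, _⟩ := h_ONL S w e v hCS hM hv hvw hve
    obtain ⟨k1, k2, k3, _⟩ := h_ONL _ w p v hC hM' hvS hvw hvp
    by_contra hcon
    exact h_CPV _ w e w p v hC hwS heS hwS hpS hvS hvw hve hvw hvp h1 h2 h3 k1 k2 k3 h.le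
      (not_lt.1 hcon)
  · intro h
    obtain ⟨hvw, hve⟩ := key h.ne
    obtain ⟨h1, h2, h3, _⟩ := h_ONL S w e v hCS hM hv hvw hve
    obtain ⟨k1, k2, k3, _⟩ := h_ONL _ w p v hC hM' hvS hvw hvp
    by_contra hcon
    exact h_CPV _ w p w e v hC hwS hpS hwS heS hvS hvw hvp hvw hve k1 k2 k3 h1 h2 h3
      (not_lt.1 hcon) h.le

end Pool.Agent.EVD
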