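import Pool.Agent.EVD.TT

/-! # EVD: new lexicographic minimum, the classes do not change -/

namespace Pool.Agent.EVD

theorem p_STW (h_CPV : T_CPV) (h_ONL : T_ONL) (h_LEX : T_LEX) (h_CPS : T_CPS) : T_STW := by
  intro S w e p v hC hM hpw hv
  obtain ⟨hwS, heS, hmin, hmax⟩ := hM
  obtain ⟨L1, _, L3, L4, _⟩ := h_LEX
  have hCS : ConvPos S := h_CPS (insert p S) S (Set.subset_insert p S) hC
  have hps : ∀ s ∈ S, s ≠ p := by
    intro s hs hsp
    subst hsp
    have := hmin s hs
    rw [hpw] at this
    exact Bool.noConfusion this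
  have hM' : LexM (insert p S) p e := by
    refine ⟨Set.mem_insert p S, Set.mem_insert_of_mem p heS, ?_, ?_⟩
    · intro s hs
      rcases Bool.eq_false_or_eq_true (lexlt s p) with h | h
      · rcases hs with rfl | hs
        · exact L4 _ _ h
        · have h2 := L3 s p w h hpw
          rw [hmin s hs] at h2
          exact Bool.noConfusion h2
      · exact h
    · intro s hs
      rcases hs with rfl | hs
      · rcases Bool.eq_false_or_eq_true (lexlt e s) with h | h
        · have h2 := L3 e s w h hpw
          rw [hmin e heS] at h2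
          exact Bool.noConfusion h2
        · exact h
      · exact hmax s hs
  have hne : ∀ x : ℝ, Cr w e v = x → x ≠ 0 → v ≠ w ∧ v ≠ e := by
    intro x hx hx0
    constructor
    · rintro rfl
      apply hx0
      rw [← hx]
      unfold Cr
      ring
    · rintro rfl
      apply hx0
      rw [← hx]
      unfold Cr
      ring
  have hwp : p.1 ≤ w.1 := by
    rcases (L1 p w).1 hpw with h | h
    · exact h.le
    · exact h.1.le
  have hpi := Set.mem_insert p S
  have hwi := Set.mem_insert_of_mem p hwS
  have hei := Set.mem_insert_of_mem p heS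
  have hvi := Set.mem_insert_of_mem p hv
  constructor
  · intro h0
    obtain ⟨hvw, hve⟩ := hne _ rfl h0.ne'
    obtain ⟨a1, a2, a3, _⟩ := h_ONL S w e v hCS ⟨hwS, heS, hmin, hmax⟩ hv hvw hve
    obtain ⟨b1, b2, _, b4⟩ := h_ONL (insert p S) p e v hC hM' hvi (hps v hv) hve
    rcases lt_trichotomy (Cr p e v) 0 with h | h | h
    · exact (h_CPV (insert p S) w e p e v hC hwi hei hpi hei hvi hvw hve (hps v hv) hve a1 a2 a3 b1 b2 a3
        h0.le h.le).elim
    · exact (b4 h).elim
    · exact h
  · intro h0
    obtain ⟨hvw, hve⟩ := hne _ rfl h0.ne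
    obtain ⟨a1, a2, a3, _⟩ := h_ONL S w e v hCS ⟨hwS, heS, hmin, hmax⟩ hv hvw hve
    obtain ⟨b1, b2, _, b4⟩ := h_ONL (insert p S) p e v hC hM' hvi (hps v hv) hve
    rcases lt_trichotomy (Cr p e v) 0 with h | h | h
    · exact h
    · exact (b4 h).elim
    · exact (h_CPV (insert p S) p e w e v hC hpi hei hwi hei hvi (hps v hv) hve hvw hve b1 b2 a3 a1 a2 a3
        h.le h0.le).elim

end Pool.Agent.EVD
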