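import Pool.Agent.EVD.TB

/-! # EVD: sizes and depths under insertion -/

namespace Pool.Agent.EVD

namespace SZI_

theorem deco_length (ps : List (TR ℝ)) (lower : Option (TR ℝ)) (ft ct : TR ℝ) (l : List (Lf ℝ)) :
    ∀ c : P, (deco ps lower ft ct c l).length = l.length := by
  induction l with
  | nil => intro c; simp [deco]
  | cons d t ih => intro c; simp [deco, ih]

theorem levC_length (ps : List (TR ℝ)) (lower : Option (TR ℝ)) (F : List (Lf ℝ)) :
    (levC ps lower F).length ≤ (sample F).length := by
  unfold levC
  split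
  · rename_i ft ct a t h1 h2 h3
    rw [h3]
    simp [deco_length]
  · simp

/-- condition on a part -/
def PC (k : ℕ) (N : List P) : Option (TR ℝ) → Prop
  | none => N = []
  | some t => N.length = 2 ^ k ∧ t.dep ≤ k

theorem PC.le {k : ℕ} {N : List P} {p : Option (TR ℝ)} (h : PC k N p) : N.length ≤ 2 ^ k := by
  cases p with
  | none => simp only [PC] at h; simp [h]
  | some t => exact le_of_eq h.1

theorem sz_cons (k : ℕ) (s : Slot ℝ) (rest : List (Slot ℝ)) :
    Sz k (s :: rest) ↔ (PC k s.N s.part ∧ s.F.length ≤ 9 * 2 ^ k ∧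
      3 * s.C.length ≤ s.F.length + 6 ∧ (∀ ct, s.ct = some ct → ct.dep ≤ k + 3) ∧
      Sz (k + 1) rest) := by
  cases hp : s.part with
  | none => simp [Sz, PC, hp]
  | some t => simp [Sz, PC, hp]

theorem lowC_le (k : ℕ) (rest : List (Slot ℝ)) (h : Sz k rest) :
    3 * (lowC rest).length ≤ 9 * 2 ^ k + 6 := by
  cases rest with
  | nil => simp [lowC]
  | cons s r =>
      rw [sz_cons] at h
      obtain ⟨_, h1, h2, _, _⟩ := h
      simp only [lowC]
      omega

theorem slot (h_MRG : T_A_MRG) (h_SMA : T_SMA) (h_BLD : T_A_BLD) (k : ℕ) (N : List P)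
    (p : Option (TR ℝ)) (rest : List (Slot ℝ)) (hp : PC k N p) (hr : Sz (k + 1) rest) :
    Sz k (mkSlot N p rest :: rest) := by
  have h1 := hp.le
  have h2 := lowC_le (k + 1) rest hr
  have h3 : (2 : ℕ) ^ (k + 1) = 2 * 2 ^ k := by rw [pow_succ]; ring
  have h4 : 1 ≤ (2 : ℕ) ^ k := Nat.one_le_two_pow
  rw [h3] at h2
  rw [sz_cons]
  have hF : (mkSlot N p rest).F.length ≤ 9 * 2 ^ k := by
    simp only [mkSlot, List.length_map, (h_MRG N (lowC rest)).2.2]
    omega
  have hC0 : (levC (consO p (partsOf rest)) (lowT rest) (mkSlot N p rest).F).length =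
      (mkSlot N p rest).C.length := by
    simp [mkSlot]
  have hC : 3 * (mkSlot N p rest).C.length ≤ (mkSlot N p rest).F.length + 6 := by
    rw [← hC0]
    have h5 := levC_length (consO p (partsOf rest)) (lowT rest) (mkSlot N p rest).F
    have h6 := (h_SMA (mkSlot N p rest).F).2.2.2
    omega
  refine ⟨hp, hF, hC, ?_, hr⟩
  intro ct hct
  have hct' : build (levC (consO p (partsOf rest)) (lowT rest) (mkSlot N p rest).F) =
      some ct := hct
  by_cases hnil : levC (consO p (partsOf rest)) (lowT rest) (mkSlot N p rest).F = []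
  · rw [hnil, h_BLD.1] at hct'
    exact absurd hct' (by simp)
  · obtain ⟨t, ht1, _, _, ht4⟩ := h_BLD.2 _ hnil
    rw [ht1] at hct'
    have h7 : t = ct := Option.some.inj hct'
    rw [← h7]
    refine le_trans ht4 ?_
    apply Nat.clog_le_of_le_pow
    rw [hC0]
    have h8 : (2 : ℕ) ^ (k + 3) = 8 * 2 ^ k := by rw [pow_add]; ring
    rw [h8]
    omega

theorem new_pc (h_BLD : T_A_BLD) (k : ℕ) (acc : List P) (aps : List (TR ℝ))
    (h : acc.length = 2 ^ k) :
    PC k acc (build (acc.map (mkLf aps))) ∧ build (acc.map (mkLf aps)) ≠ none := by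
  have hne : acc.map (mkLf aps) ≠ [] := by
    intro h0
    have h1 : acc = [] := by simpa using h0
    rw [h1] at h
    have h4 : 1 ≤ (2 : ℕ) ^ k := Nat.one_le_two_pow
    rw [List.length_nil] at h
    omega
  obtain ⟨t, ht1, _, _, ht4⟩ := h_BLD.2 _ hne
  rw [ht1]
  refine ⟨⟨h, ?_⟩, by simp⟩
  refine le_trans ht4 ?_
  apply Nat.clog_le_of_le_pow
  rw [List.length_map, h]

theorem insS_ne (sl : List (Slot ℝ)) (acc : List P) (aps : List (TR ℝ)) :
    insS sl acc aps ≠ [] := by
  cases sl with
  | nil => simp [insS]
  | cons s rest =>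
      unfold insS
      split <;> simp

theorem last_cons (s s' : Slot ℝ) (rest : List (Slot ℝ)) (h : LastFull (s :: rest))
    (h' : s'.part ≠ none) : LastFull (s' :: rest) := by
  intro x hx
  cases rest with
  | nil =>
      have : x = s' := by simpa using hx.symm
      rw [this]; exact h'
  | cons r rs =>
      apply h x
      rw [List.getLast?_cons_cons] at hx ⊢
      exact hx

theorem last_tail (s : Slot ℝ) (rest : List (Slot ℝ)) (h : LastFull (s :: rest)) :
    LastFull rest := by
  intro x hx
  cases rest with
  | nil => simp at hx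
  | cons r rs =>
      apply h x
      rw [List.getLast?_cons_cons]
      exact hx

theorem last_new (s : Slot ℝ) (rest : List (Slot ℝ)) (h : LastFull rest) (hne : rest ≠ []) :
    LastFull (s :: rest) := by
  intro x hx
  cases rest with
  | nil => exact absurd rfl hne
  | cons r rs =>
      apply h x
      rw [List.getLast?_cons_cons] at hx
      exact hx

end SZI_

open SZI_ in
theorem p_SZI (h_MRG : T_A_MRG) (h_SMA : T_SMA) (h_BLD : T_A_BLD) : T_SZI := by
  intro sl
  induction sl with
  | nil =>
      intro k acc aps _ _ hacc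
      obtain ⟨h1, h2⟩ := new_pc h_BLD k acc aps hacc
      refine ⟨?_, ?_, by simp [insS]⟩
      · exact slot h_MRG h_SMA h_BLD k acc _ [] h1 (by simp [Sz])
      · intro x hx
        have hx' : x = mkSlot acc (build (acc.map (mkLf aps))) [] := by
          simpa [insS] using hx.symm
        rw [hx']
        exact h2
  | cons s rest ih =>
      intro k acc aps hsz hlast hacc
      rw [sz_cons] at hsz
      obtain ⟨hp, hF, hC, hct, hr⟩ := hsz
      cases hpart : s.part with
      | none =>
          have hins : insS (s :: rest) acc aps =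
              mkSlot acc (build (acc.map (mkLf aps))) rest :: rest := by
            rw [insS, hpart]
          rw [hins]
          obtain ⟨h1, h2⟩ := new_pc h_BLD k acc aps hacc
          exact ⟨slot h_MRG h_SMA h_BLD k acc _ rest h1 hr, last_cons s _ rest hlast h2, by simp⟩
      | some t =>
          have hins : insS (s :: rest) acc aps =
              mkSlot [] none (insS rest (mrg acc s.N) (t :: aps)) ::
                insS rest (mrg acc s.N) (t :: aps) := by
            rw [insS, hpart]
          rw [hins]
          rw [hpart] at hp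
          have hlen : (mrg acc s.N).length = 2 ^ (k + 1) := by
            rw [(h_MRG acc s.N).2.2, hacc, hp.1, pow_succ]; ring
          obtain ⟨i1, i2, i3⟩ := ih (k + 1) (mrg acc s.N) (t :: aps) hr
            (last_tail s rest hlast) hlen
          refine ⟨slot h_MRG h_SMA h_BLD k [] none _ rfl i1,
            last_new _ _ i2 (insS_ne _ _ _), ?_⟩
          simp only [List.length_cons]
          omega

end Pool.Agent.EVD
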