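import Pool.Agent.EVD.TT

/-! # EVD: insertion keeps the invariant of the whole structure (T_TIN) -/

namespace Pool.Agent.EVD

namespace TIN_

theorem mir_inj : Function.Injective (mir : P → P) := by
  intro a b h
  have h1 := congrArg Prod.fst h
  have h2 := congrArg Prod.snd h
  simp only [mir] at h1 h2
  exact Prod.ext h1 (neg_injective h2)

theorem cr_w (w e : P) : Cr w e w = 0 := by simp [Cr]

theorem cr_e (w e : P) : Cr w e e = 0 := by simp [Cr]

theorem irr (h : T_LEX) (p : P) : lexlt p p = false := by
  by_contra hc
  have h1 : lexlt p p = true := by simpa using hc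
  exact hc (h.2.2.2.1 p p h1)

theorem put_ok (hCHU : T_CHU) (hCHL : T_CHL) (hONL : T_ONL)
    (CO : CS ℝ → Set P → Prop) (hC : ChainSpec CO) (S : Set P) (w e v : P) (up lo : CS ℝ)
    (U L : Set P) (hS : ConvPos S) (hx : LexM S w e) (hv : v ∈ S) (hvw : v ≠ w) (hve : v ≠ e)
    (hSd : S = {w, e, v} ∪ U ∪ L) (hfin : S.Finite)
    (hU : ∀ u ∈ U, 0 < Cr w e u) (hL : ∀ u ∈ L, Cr w e u < 0) (vU : v ∉ U) (vL : v ∉ L)
    (cU : CO up U) (cL : CO lo (mir '' L)) :
    TopOK CO (some (put w e v up lo)) S := by
  have hUS : U ⊆ S := by
    rw [hSd]
    intro x hx
    exact Or.inl (Or.inr hx)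
  have hLS : L ⊆ S := by
    rw [hSd]
    intro x hx
    exact Or.inr hx
  have hne := (hONL S w e v hS hx hv hvw hve).2.2.2
  by_cases hp : 0 < Cr w e v
  · have e1 : put w e v up lo = ⟨w, e, insC up v, lo⟩ := by
      unfold put
      exact if_pos hp
    rw [e1]
    have hU' : ∀ u ∈ insert v U, 0 < Cr w e u := by
      intro u hu
      rcases Set.mem_insert_iff.1 hu with rfl | hu
      · exact hp
      · exact hU u hu
    refine ⟨hx, insert v U, L, ?_, hU', hL, ?_, cL⟩
    · rw [hSd]
      ext x
      simp only [Set.mem_union, Set.mem_insert_iff, Set.mem_singleton_iff]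
      tauto
    · refine hC.ins up U v cU (hfin.subset hUS) vU ?_
      refine hCHU S (insert v U) w e hS hx ?_ hU'
      intro x hx'
      rcases Set.mem_insert_iff.1 hx' with rfl | hx'
      · exact hv
      · exact hUS hx'
  · have hn : Cr w e v < 0 := lt_of_le_of_ne (not_lt.1 hp) hne
    have e1 : put w e v up lo = ⟨w, e, up, insC lo (mir v)⟩ := by
      unfold put
      exact if_neg hp
    rw [e1]
    have hL' : ∀ u ∈ insert v L, Cr w e u < 0 := by
      intro u hu
      rcases Set.mem_insert_iff.1 hu with rfl | hu
      · exact hn
      · exact hL u hu
    have him : mir '' (insert v L) = insert (mir v) (mir '' L) := Set.image_insert_eq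
    refine ⟨hx, U, insert v L, ?_, hU, hL', cU, ?_⟩
    · rw [hSd]
      ext x
      simp only [Set.mem_union, Set.mem_insert_iff, Set.mem_singleton_iff]
      tauto
    · show CO (insC lo (mir v)) (mir '' (insert v L))
      rw [him]
      refine hC.ins lo (mir '' L) (mir v) cL ((hfin.subset hLS).image _) ?_ ?_
      · rintro ⟨u, hu, hm⟩
        exact vL (mir_inj hm ▸ hu)
      · rw [← him]
        refine hCHL S (insert v L) w e hS hx ?_ hL'
        intro x hx'
        rcases Set.mem_insert_iff.1 hx' with rfl | hx'
        · exact hv
        · exact hLS hx'

end TIN_

open TIN_ in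
theorem p_TIN (hCHU : T_CHU) (hCHL : T_CHL) (hSTW : T_STW) (hSTE : T_STE) (hONL : T_ONL)
    (hLEX : T_LEX) : T_TIN := by
  intro CO t S p hC hT hfin hp hconv
  have irr' := irr hLEX
  obtain ⟨-, lanti, ltr, lasy, lto⟩ := hLEX
  rcases t with _ | ⟨w, e, up, lo⟩
  · -- empty structure
    have hS : S = ∅ := hT
    subst hS
    refine ⟨⟨Set.mem_insert _ _, Set.mem_insert _ _, ?_, ?_⟩, ∅, ∅, ?_, ?_, ?_, hC.empty, ?_⟩
    · intro s hs
      have : s = p := by simpa using hs
      rw [this]
      exact irr' p
    · intro s hs
      have : s = p := by simpa using hs
      rw [this]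
      exact irr' p
    · ext x
      simp
    · intro u hu
      exact absurd hu (Set.notMem_empty u)
    · intro u hu
      exact absurd hu (Set.notMem_empty u)
    · rw [Set.image_empty]
      exact hC.empty
  · obtain ⟨hx, U, L, hSd, hU, hL, cU, cL⟩ := hT
    simp only at hx hSd hU hL cU cL
    obtain ⟨hw, he, hmin, hmax⟩ := hx
    have hUS : U ⊆ S := by
      rw [hSd]
      intro x hx
      exact Or.inl (Or.inr hx)
    have hLS : L ⊆ S := by
      rw [hSd]
      intro x hx
      exact Or.inr hx
    have hpw : p ≠ w := fun h => hp (h ▸ hw)
    have hpe : p ≠ e := fun h => hp (h ▸ he)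
    have hfin' : (insert p S).Finite := hfin.insert p
    have wU : w ∉ U := fun h => by
      have := hU w h
      rw [cr_w] at this
      exact lt_irrefl _ this
    have wL : w ∉ L := fun h => by
      have := hL w h
      rw [cr_w] at this
      exact lt_irrefl _ this
    have eU : e ∉ U := fun h => by
      have := hU e h
      rw [cr_e] at this
      exact lt_irrefl _ this
    have eL : e ∉ L := fun h => by
      have := hL e h
      rw [cr_e] at this
      exact lt_irrefl _ this
    by_cases hwe : lexlt w e = true
    · have hne : w ≠ e := fun h => by
        rw [h, irr'] at hwe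
        exact Bool.false_ne_true hwe
      by_cases h2 : lexlt p w = true
      · -- new minimum
        have e1 : insT (some (⟨w, e, up, lo⟩ : Top ℝ)) p = some (put p e w up lo) := by
          simp [insT, hwe, h2]
        rw [e1]
        have hx' : LexM (insert p S) p e := by
          refine ⟨Set.mem_insert _ _, Set.mem_insert_of_mem _ he, ?_, ?_⟩
          · intro s hs
            rcases Set.mem_insert_iff.1 hs with rfl | hs
            · exact irr' _
            · by_contra hc
              have h3 : lexlt s p = true := by simpa using hc
              have h4 := ltr s p w h3 h2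
              rw [hmin s hs] at h4
              exact Bool.false_ne_true h4
          · intro s hs
            rcases Set.mem_insert_iff.1 hs with rfl | hs
            · by_contra hc
              have h3 : lexlt e s = true := by simpa using hc
              have h4 := ltr e s w h3 h2
              rw [hmax w hw] at h4
              exact Bool.false_ne_true h4
            · exact hmax s hs
        refine put_ok hCHU hCHL hONL CO hC (insert p S) p e w up lo U L hconv hx'
          (Set.mem_insert_of_mem _ hw) hpw.symm hne ?_ hfin' ?_ ?_ wU wL cU cL
        · rw [hSd]
          ext x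
          simp only [Set.mem_union, Set.mem_insert_iff, Set.mem_singleton_iff]
          tauto
        · intro u hu
          exact (hSTW S w e p u hconv ⟨hw, he, hmin, hmax⟩ h2 (hUS hu)).1 (hU u hu)
        · intro u hu
          exact (hSTW S w e p u hconv ⟨hw, he, hmin, hmax⟩ h2 (hLS hu)).2 (hL u hu)
      · have h2' : lexlt p w = false := by simpa using h2
        by_cases h3 : lexlt e p = true
        · -- new maximum
          have e1 : insT (some (⟨w, e, up, lo⟩ : Top ℝ)) p = some (put w p e up lo) := by
            simp [insT, hwe, h2', h3]
          rw [e1]
          have hx' : LexM (insert p S) w p := by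
            refine ⟨Set.mem_insert_of_mem _ hw, Set.mem_insert _ _, ?_, ?_⟩
            · intro s hs
              rcases Set.mem_insert_iff.1 hs with rfl | hs
              · exact h2'
              · exact hmin s hs
            · intro s hs
              rcases Set.mem_insert_iff.1 hs with rfl | hs
              · exact irr' _
              · by_contra hc
                have h4 : lexlt p s = true := by simpa using hc
                have h5 := ltr e p s h3 h4
                rw [hmax s hs] at h5
                exact Bool.false_ne_true h5
          refine put_ok hCHU hCHL hONL CO hC (insert p S) w p e up lo U L hconv hx'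
            (Set.mem_insert_of_mem _ he) hne.symm hpe.symm ?_ hfin' ?_ ?_ eU eL cU cL
          · rw [hSd]
            ext x
            simp only [Set.mem_union, Set.mem_insert_iff, Set.mem_singleton_iff]
            tauto
          · intro u hu
            exact (hSTE S w e p u hconv ⟨hw, he, hmin, hmax⟩ h3 (hUS hu)).1 (hU u hu)
          · intro u hu
            exact (hSTE S w e p u hconv ⟨hw, he, hmin, hmax⟩ h3 (hLS hu)).2 (hL u hu)
        · -- the extremes stay
          have h3' : lexlt e p = false := by simpa using h3
          have e1 : insT (some (⟨w, e, up, lo⟩ : Top ℝ)) p = some (put w e p up lo) := by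
            simp [insT, hwe, h2', h3']
          rw [e1]
          have hx' : LexM (insert p S) w e := by
            refine ⟨Set.mem_insert_of_mem _ hw, Set.mem_insert_of_mem _ he, ?_, ?_⟩
            · intro s hs
              rcases Set.mem_insert_iff.1 hs with rfl | hs
              · exact h2'
              · exact hmin s hs
            · intro s hs
              rcases Set.mem_insert_iff.1 hs with rfl | hs
              · exact h3'
              · exact hmax s hs
          refine put_ok hCHU hCHL hONL CO hC (insert p S) w e p up lo U L hconv hx'
            (Set.mem_insert _ _) hpw hpe ?_ hfin' hU hL (fun h => hp (hUS h))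
            (fun h => hp (hLS h)) cU cL
          rw [hSd]
          ext x
          simp only [Set.mem_union, Set.mem_insert_iff, Set.mem_singleton_iff]
          tauto
    · -- one point
      have hwe' : lexlt w e = false := by simpa using hwe
      have hew : w = e := lanti w e hwe' (hmin e he)
      subst hew
      have hcr : ∀ u : P, Cr w w u = 0 := by
        intro u
        simp [Cr]
      have hU0 : U = ∅ := by
        rw [Set.eq_empty_iff_forall_notMem]
        intro u hu
        have := hU u hu
        rw [hcr] at this
        exact lt_irrefl _ this
      have hL0 : L = ∅ := by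
        rw [Set.eq_empty_iff_forall_notMem]
        intro u hu
        have := hL u hu
        rw [hcr] at this
        exact lt_irrefl _ this
      subst hU0 hL0
      have hSw : ∀ s, s ∈ S ↔ s = w := by
        intro s
        rw [hSd]
        simp
      have hset : ∀ s, s ∈ insert p S ↔ s = p ∨ s = w := by
        intro s
        rw [Set.mem_insert_iff, hSw]
      by_cases h2 : lexlt p w = true
      · have e1 : insT (some (⟨w, w, up, lo⟩ : Top ℝ)) p = some ⟨p, w, up, lo⟩ := by
          simp [insT, hwe', h2]
        rw [e1]
        refine ⟨⟨Set.mem_insert _ _, Set.mem_insert_of_mem _ hw, ?_, ?_⟩, ∅, ∅, ?_, ?_, ?_, cU,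
          cL⟩
        · intro s hs
          rcases (hset s).1 hs with rfl | rfl
          · exact irr' _
          · exact lasy _ _ h2
        · intro s hs
          rcases (hset s).1 hs with rfl | rfl
          · exact lasy _ _ h2
          · exact irr' _
        · ext x
          rw [hset]
          simp
        · intro u hu
          exact absurd hu (Set.notMem_empty u)
        · intro u hu
          exact absurd hu (Set.notMem_empty u)
      · have h2' : lexlt p w = false := by simpa using h2
        have h3 : lexlt w p = true := lto p w h2' hpw
        have e1 : insT (some (⟨w, w, up, lo⟩ : Top ℝ)) p = some ⟨w, p, up, lo⟩ := by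
          simp [insT, hwe', h2']
        rw [e1]
        refine ⟨⟨Set.mem_insert_of_mem _ hw, Set.mem_insert _ _, ?_, ?_⟩, ∅, ∅, ?_, ?_, ?_, cU,
          cL⟩
        · intro s hs
          rcases (hset s).1 hs with rfl | rfl
          · exact h2'
          · exact irr' _
        · intro s hs
          rcases (hset s).1 hs with rfl | rfl
          · exact irr' _
          · exact h2'
        · ext x
          rw [hset]
          simp
          tauto
        · intro u hu
          exact absurd hu (Set.notMem_empty u)
        · intro u hu
          exact absurd hu (Set.notMem_empty u)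

end Pool.Agent.EVD
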