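import Pool.Agent.EVD.TT

/-! # EVD: the query at the top level -/

namespace Pool.Agent.EVD

namespace TQ_

theorem mir_mir (s : P) : mir (mir s) = s := by
  rcases s with ⟨a, b⟩
  simp [mir]

theorem dsq_mir (q s : P) : dsq (mir q) (mir s) = dsq q s := by
  simp only [dsq, mir]
  ring

end TQ_

theorem p_TQ (h_FND : T_FND) (h_SIN : T_SIN) (h_NNE : T_NNE) (h_CHU : T_CHU) (h_CHL : T_CHL) :
    T_TQ := by
  intro CO t S q hCO hT hfin hne hcv
  rcases t with _ | t
  · rw [TopOK] at hT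
    exact absurd hT hne.ne_empty
  · obtain ⟨hLex, U, L, hS, hU, hL, hCU, hCL⟩ := hT
    have hUS : U ⊆ S := by
      rw [hS]
      exact fun x hx => Or.inl (Or.inr hx)
    have hLS : L ⊆ S := by
      rw [hS]
      exact fun x hx => Or.inr hx
    have hwS : t.w ∈ S := hLex.1
    have heS : t.e ∈ S := hLex.2.1
    have hchU : Chn U := h_CHU S U t.w t.e hcv hLex hUS hU
    have hchL : Chn (mir '' L) := h_CHL S L t.w t.e hcv hLex hLS hL
    obtain ⟨b0, hb0⟩ : ∃ b0 : P, b0 = if dsq q t.e < dsq q t.w then t.e else t.w := ⟨_, rfl⟩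
    have hb0w : dsq q b0 ≤ dsq q t.w := by
      rw [hb0]
      split_ifs with h
      · exact h.le
      · exact le_rfl
    have hb0e : dsq q b0 ≤ dsq q t.e := by
      rw [hb0]
      split_ifs with h
      · exact le_rfl
      · exact not_lt.1 h
    have hb0S : b0 ∈ S := by
      rw [hb0]
      split_ifs
      · exact heS
      · exact hwS
    obtain ⟨b1, hb1⟩ : ∃ b1 : P, b1 = t.up.q.find q b0 := ⟨_, rfl⟩
    obtain ⟨r', hr'⟩ : ∃ r' : P, r' = t.lo.q.find (mir q) (mir b1) := ⟨_, rfl⟩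
    have F1 := h_FND t.up.q q b0
    have F2 := h_FND t.lo.q (mir q) (mir b1)
    rw [← hb1] at F1
    rw [← hr'] at F2
    obtain ⟨F1a, F1b, F1c⟩ := F1
    obtain ⟨F2a, F2b, F2c⟩ := F2
    have hq : qryT (some t) q = some (mir r') := by
      rw [hr', hb1, hb0]
      rfl
    have hdr : dsq q (mir r') = dsq (mir q) r' := by
      rw [← TQ_.dsq_mir q (mir r'), TQ_.mir_mir]
    have hb1S : b1 ∈ S := by
      rcases F1c with h | h
      · rw [h]
        exact hb0S
      · exact hUS (h_SIN _ _ _ _ (hCO.inn _ _ hCU) h)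
    refine ⟨mir r', hq, ?_, ?_⟩
    · rcases F2c with h | h
      · rw [h, TQ_.mir_mir]
        exact hb1S
      · obtain ⟨l, hl, hlr⟩ := h_SIN _ _ _ _ (hCO.inn _ _ hCL) h
        rw [← hlr, TQ_.mir_mir]
        exact hLS hl
    · have hrb : dsq q (mir r') ≤ dsq q b1 := by
        rw [hdr, ← TQ_.dsq_mir q b1]
        exact F2a
      intro s hs
      rw [hS] at hs
      rcases hs with (hs | hs) | hs
      · rcases hs with hs | hs
        · rw [hs]
          exact hrb.trans (F1a.trans hb0w)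
        · rw [Set.mem_singleton_iff.1 hs]
          exact hrb.trans (F1a.trans hb0e)
      · obtain ⟨u, hu⟩ := h_NNE U q (hfin.subset hUS) ⟨s, hs⟩ hchU
        exact hrb.trans ((F1b u (hCO.seen _ _ _ _ hCU hu)).trans (hu.2 s hs).1)
      · obtain ⟨u, hu⟩ := h_NNE (mir '' L) (mir q) ((hfin.subset hLS).image _)
          ⟨mir s, s, hs, rfl⟩ hchL
        rw [hdr, ← TQ_.dsq_mir q s]
        exact (F2b u (hCO.seen _ _ _ _ hCL hu)).trans (hu.2 (mir s) ⟨s, hs, rfl⟩).1

end Pool.Agent.EVD
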