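import Pool.Agent.EVD.P_AB
import Pool.Agent.EVD.P_AMO
import Pool.Agent.EVD.P_A_ALB
import Pool.Agent.EVD.P_A_BLD
import Pool.Agent.EVD.P_A_EXH
import Pool.Agent.EVD.P_A_FOUR
import Pool.Agent.EVD.P_A_LAST
import Pool.Agent.EVD.P_A_LF
import Pool.Agent.EVD.P_A_LT
import Pool.Agent.EVD.P_A_MIN
import Pool.Agent.EVD.P_A_MRG
import Pool.Agent.EVD.P_A_NB
import Pool.Agent.EVD.P_A_NXT
import Pool.Agent.EVD.P_A_ONE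
import Pool.Agent.EVD.P_A_OWN
import Pool.Agent.EVD.P_A_PART
import Pool.Agent.EVD.P_A_PKL
import Pool.Agent.EVD.P_A_PKR
import Pool.Agent.EVD.P_A_TANG
import Pool.Agent.EVD.P_A_TANH
import Pool.Agent.EVD.P_A_TANL
import Pool.Agent.EVD.P_A_TANR
import Pool.Agent.EVD.P_BOO
import Pool.Agent.EVD.P_CHI
import Pool.Agent.EVD.P_CHL
import Pool.Agent.EVD.P_CHR
import Pool.Agent.EVD.P_CHU
import Pool.Agent.EVD.P_CNT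
import Pool.Agent.EVD.P_CON
import Pool.Agent.EVD.P_COS
import Pool.Agent.EVD.P_CPG
import Pool.Agent.EVD.P_CPS
import Pool.Agent.EVD.P_CPV
import Pool.Agent.EVD.P_CPW
import Pool.Agent.EVD.P_CRI
import Pool.Agent.EVD.P_CSL
import Pool.Agent.EVD.P_CSO
import Pool.Agent.EVD.P_CST
import Pool.Agent.EVD.P_CTR
import Pool.Agent.EVD.P_C_AB
import Pool.Agent.EVD.P_C_BLD
import Pool.Agent.EVD.P_C_CHI
import Pool.Agent.EVD.P_C_CRI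
import Pool.Agent.EVD.P_C_CUT
import Pool.Agent.EVD.P_C_DCO
import Pool.Agent.EVD.P_C_FIN
import Pool.Agent.EVD.P_C_FNG
import Pool.Agent.EVD.P_C_GEO
import Pool.Agent.EVD.P_C_GO
import Pool.Agent.EVD.P_C_GQ
import Pool.Agent.EVD.P_C_HLE
import Pool.Agent.EVD.P_C_INC
import Pool.Agent.EVD.P_C_INS
import Pool.Agent.EVD.P_C_INT
import Pool.Agent.EVD.P_C_JN
import Pool.Agent.EVD.P_C_LA
import Pool.Agent.EVD.P_C_LEV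
import Pool.Agent.EVD.P_C_LIV
import Pool.Agent.EVD.P_C_LL
import Pool.Agent.EVD.P_C_MAP
import Pool.Agent.EVD.P_C_MIN
import Pool.Agent.EVD.P_C_MK
import Pool.Agent.EVD.P_C_MKL
import Pool.Agent.EVD.P_C_MRG
import Pool.Agent.EVD.P_C_NOD
import Pool.Agent.EVD.P_C_NXT
import Pool.Agent.EVD.P_C_PAR
import Pool.Agent.EVD.P_C_PK
import Pool.Agent.EVD.P_C_PU
import Pool.Agent.EVD.P_C_QRY
import Pool.Agent.EVD.P_C_ROO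
import Pool.Agent.EVD.P_C_SLT
import Pool.Agent.EVD.P_C_SMP
import Pool.Agent.EVD.P_C_TG
import Pool.Agent.EVD.P_C_TH
import Pool.Agent.EVD.P_C_TR
import Pool.Agent.EVD.P_DCO
import Pool.Agent.EVD.P_DET
import Pool.Agent.EVD.P_DH
import Pool.Agent.EVD.P_DSQ
import Pool.Agent.EVD.P_FLD
import Pool.Agent.EVD.P_FND
import Pool.Agent.EVD.P_GAP
import Pool.Agent.EVD.P_GQ
import Pool.Agent.EVD.P_HF
import Pool.Agent.EVD.P_INJ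
import Pool.Agent.EVD.P_INS
import Pool.Agent.EVD.P_LEV
import Pool.Agent.EVD.P_LEX
import Pool.Agent.EVD.P_LIV
import Pool.Agent.EVD.P_LVA
import Pool.Agent.EVD.P_LVH
import Pool.Agent.EVD.P_MAT
import Pool.Agent.EVD.P_MK
import Pool.Agent.EVD.P_MKD
import Pool.Agent.EVD.P_MKI
import Pool.Agent.EVD.P_MON
import Pool.Agent.EVD.P_NNA
import Pool.Agent.EVD.P_NNE
import Pool.Agent.EVD.P_NNS
import Pool.Agent.EVD.P_NOD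
import Pool.Agent.EVD.P_N_CS
import Pool.Agent.EVD.P_N_DEP
import Pool.Agent.EVD.P_N_LEN
import Pool.Agent.EVD.P_N_LOG
import Pool.Agent.EVD.P_N_PAR
import Pool.Agent.EVD.P_N_RT
import Pool.Agent.EVD.P_N_SEQ
import Pool.Agent.EVD.P_N_SL
import Pool.Agent.EVD.P_N_STP
import Pool.Agent.EVD.P_N_SUM
import Pool.Agent.EVD.P_N_TC
import Pool.Agent.EVD.P_N_TI
import Pool.Agent.EVD.P_ONL
import Pool.Agent.EVD.P_QDP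
import Pool.Agent.EVD.P_REA
import Pool.Agent.EVD.P_RIN
import Pool.Agent.EVD.P_ROT
import Pool.Agent.EVD.P_RS1
import Pool.Agent.EVD.P_SIN
import Pool.Agent.EVD.P_SLF
import Pool.Agent.EVD.P_SMA
import Pool.Agent.EVD.P_SMB
import Pool.Agent.EVD.P_SMC
import Pool.Agent.EVD.P_SPI
import Pool.Agent.EVD.P_SPN
import Pool.Agent.EVD.P_STE
import Pool.Agent.EVD.P_STW
import Pool.Agent.EVD.P_SUPL
import Pool.Agent.EVD.P_SUPR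
import Pool.Agent.EVD.P_SZI
import Pool.Agent.EVD.P_TIN
import Pool.Agent.EVD.P_TNL
import Pool.Agent.EVD.P_TNR
import Pool.Agent.EVD.P_TQ
import Pool.Agent.EVD.Final

/-! # EVD: assembly of all targets -/

namespace Pool.Agent.EVD

theorem t_C_MAP : T_C_MAP :=
  p_C_MAP 

theorem t_CST (α δ : Type) [Enc α] [Enc δ] : T_CST α δ :=
  p_CST α δ

theorem t_FLD : T_FLD :=
  p_FLD 

theorem t_CTR : T_CTR :=
  p_CTR 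

theorem t_C_HLE : T_C_HLE :=
  p_C_HLE 

theorem t_C_JN : T_C_JN :=
  p_C_JN @t_CST @t_FLD @t_CTR @t_C_HLE

theorem t_C_PU : T_C_PU :=
  p_C_PU @t_C_JN

theorem t_RS1 (α β γ : Type) [Enc α] [Enc β] [Enc γ] : T_RS1 α β γ :=
  p_RS1 α β γ

theorem t_INJ (α β : Type) [Enc α] [Enc β] : T_INJ α β :=
  p_INJ α β

theorem t_CON (α β : Type) [Enc α] [Enc β] : T_CON α β :=
  p_CON α β

theorem t_CSL (α β δ : Type) [Enc α] [Enc β] [Enc δ] : T_CSL α β δ :=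
  p_CSL α β δ

theorem t_C_BLD : T_C_BLD :=
  p_C_BLD @t_C_PU @t_C_MAP @t_CTR @t_RS1 @t_INJ @t_CON @t_CSL

theorem t_CSO (α β δ : Type) [Enc α] [Enc β] [Enc δ] : T_CSO α β δ :=
  p_CSO α β δ

theorem t_C_LIV : T_C_LIV :=
  p_C_LIV 

theorem t_C_PK : T_C_PK :=
  p_C_PK 

theorem t_C_LA : T_C_LA :=
  p_C_LA @t_RS1 @t_INJ @t_CST @t_CON @t_FLD @t_C_JN @t_C_LIV

theorem t_C_TH : T_C_TH :=
  p_C_TH @t_CST @t_C_LA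

theorem t_C_TG : T_C_TG :=
  p_C_TG @t_RS1 @t_CON @t_CST @t_CSO @t_FLD @t_C_JN @t_C_LIV @t_C_PK @t_C_TH

theorem t_C_GEO : T_C_GEO :=
  p_C_GEO 

theorem t_BOO (α : Type) [Enc α] : T_BOO α :=
  p_BOO α

theorem t_C_GO : T_C_GO :=
  p_C_GO @t_C_GEO @t_FLD @t_BOO

theorem t_C_TR : T_C_TR :=
  p_C_TR @t_RS1 @t_CSL @t_CON @t_INJ @t_C_TG @t_C_GO @t_C_PK

theorem t_C_CUT : T_C_CUT :=
  p_C_CUT 

theorem t_REA : T_REA :=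
  p_REA 

theorem t_C_AB : T_C_AB :=
  p_C_AB @t_C_TR @t_C_CUT @t_C_GEO @t_CSO @t_CON @t_BOO @t_FLD @t_REA

theorem t_C_MKL : T_C_MKL :=
  p_C_MKL @t_C_AB @t_C_TR @t_C_CUT @t_C_GEO

theorem t_C_MRG : T_C_MRG :=
  p_C_MRG 

theorem t_C_PAR : T_C_PAR :=
  p_C_PAR 

theorem t_C_SMP : T_C_SMP :=
  p_C_SMP @t_C_HLE

theorem t_C_FNG : T_C_FNG :=
  p_C_FNG @t_C_TR @t_C_CUT

theorem t_C_LL : T_C_LL :=
  p_C_LL @t_RS1 @t_CST @t_CSO @t_CON @t_INJ @t_FLD @t_C_JN @t_C_LIV @t_C_LA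

theorem t_C_MIN : T_C_MIN :=
  p_C_MIN @t_CST @t_C_JN @t_C_HLE

theorem t_C_GQ : T_C_GQ :=
  p_C_GQ @t_C_LL @t_C_CUT @t_C_MIN

theorem t_C_CHI : T_C_CHI :=
  p_C_CHI @t_C_FNG @t_C_GQ

theorem t_C_MK : T_C_MK :=
  p_C_MK @t_C_CHI

theorem t_C_NXT : T_C_NXT :=
  p_C_NXT @t_C_LL

theorem t_C_NOD : T_C_NOD :=
  p_C_NOD @t_C_MK @t_C_NXT @t_C_CUT

theorem t_C_CRI : T_C_CRI :=
  p_C_CRI @t_C_LL @t_C_NOD @t_C_CUT

theorem t_C_DCO : T_C_DCO :=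
  p_C_DCO @t_C_NOD @t_C_CRI

theorem t_A_BLD : T_A_BLD :=
  p_A_BLD 

theorem t_C_LEV : T_C_LEV :=
  p_C_LEV @t_C_BLD @t_C_SMP @t_C_DCO @t_A_BLD

theorem t_C_SLT : T_C_SLT :=
  p_C_SLT @t_C_PAR @t_C_MRG @t_C_MAP @t_C_MKL @t_C_LEV @t_C_BLD

theorem t_C_INS : T_C_INS :=
  p_C_INS @t_C_MAP @t_C_BLD @t_C_MKL @t_C_MRG @t_C_SLT

theorem t_C_ROO : T_C_ROO :=
  p_C_ROO @t_C_MK @t_C_PAR

theorem t_C_INC : T_C_INC :=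
  p_C_INC @t_C_INS @t_C_ROO @t_FLD @t_CTR @t_REA @t_CON

theorem t_C_INT : T_C_INT :=
  p_C_INT @t_C_INC @t_C_GEO

theorem t_C_FIN : T_C_FIN :=
  p_C_FIN @t_RS1 @t_C_GEO

theorem t_C_QRY : T_C_QRY :=
  p_C_QRY @t_C_FIN @t_C_GEO

theorem t_N_PAR : T_N_PAR :=
  p_N_PAR 

theorem t_N_SL : T_N_SL :=
  p_N_SL @t_N_PAR

theorem t_N_LEN : T_N_LEN :=
  p_N_LEN 

theorem t_A_MRG : T_A_MRG :=
  p_A_MRG 

theorem t_SMA : T_SMA :=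
  p_SMA 

theorem t_SZI : T_SZI :=
  p_SZI @t_A_MRG @t_SMA @t_A_BLD

theorem t_N_TI : T_N_TI :=
  p_N_TI @t_N_SL @t_N_LEN @t_SZI @t_A_BLD @t_A_MRG

theorem t_N_RT : T_N_RT :=
  p_N_RT @t_N_PAR

theorem t_N_TC : T_N_TC :=
  p_N_TC @t_N_TI @t_N_RT @t_N_LEN @t_SZI

theorem t_CNT : T_CNT :=
  p_CNT @t_A_MRG

theorem t_N_LOG : T_N_LOG :=
  p_N_LOG @t_CNT

theorem t_AMO : T_AMO :=
  p_AMO @t_A_BLD @t_A_MRG

theorem t_N_STP : T_N_STP :=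
  p_N_STP @t_N_TC @t_N_LOG @t_AMO

theorem t_CPG : T_CPG :=
  p_CPG 

theorem t_CPV : T_CPV :=
  p_CPV @t_CPG

theorem t_CPW : T_CPW :=
  p_CPW @t_CPG

theorem t_LEX : T_LEX :=
  p_LEX 

theorem t_ONL : T_ONL :=
  p_ONL @t_CPG @t_LEX

theorem t_CHU : T_CHU :=
  p_CHU @t_CPV @t_CPW @t_ONL

theorem t_CHL : T_CHL :=
  p_CHL @t_CPV @t_CPW @t_ONL

theorem t_CPS : T_CPS :=
  p_CPS 

theorem t_STW : T_STW :=
  p_STW @t_CPV @t_ONL @t_LEX @t_CPS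

theorem t_STE : T_STE :=
  p_STE @t_CPV @t_ONL @t_LEX @t_CPS

theorem t_TIN : T_TIN :=
  p_TIN @t_CHU @t_CHL @t_STW @t_STE @t_ONL @t_LEX

theorem t_A_LAST : T_A_LAST :=
  p_A_LAST 

theorem t_A_TANH : T_A_TANH :=
  p_A_TANH @t_A_LAST

theorem t_A_TANG : T_A_TANG :=
  p_A_TANG @t_A_TANH

theorem t_MAT : T_MAT :=
  p_MAT 

theorem t_A_FOUR : T_A_FOUR :=
  p_A_FOUR @t_MAT

theorem t_LIV : T_LIV :=
  p_LIV 

theorem t_A_ONE : T_A_ONE :=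
  p_A_ONE @t_A_TANG @t_A_FOUR @t_LIV

theorem t_A_PKR : T_A_PKR :=
  p_A_PKR @t_A_FOUR

theorem t_A_TANR : T_A_TANR :=
  p_A_TANR @t_A_ONE @t_A_PKR

theorem t_A_PKL : T_A_PKL :=
  p_A_PKL @t_A_FOUR

theorem t_A_TANL : T_A_TANL :=
  p_A_TANL @t_A_ONE @t_A_PKL

theorem t_A_OWN : T_A_OWN :=
  p_A_OWN @t_LIV

theorem t_DET : T_DET :=
  p_DET 

theorem t_HF : T_HF :=
  p_HF @t_MAT @t_DET

theorem t_AB : T_AB :=
  p_AB @t_HF @t_DET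

theorem t_A_ALB : T_A_ALB :=
  p_A_ALB @t_A_TANR @t_A_TANL @t_A_OWN @t_AB

theorem t_A_EXH : T_A_EXH :=
  p_A_EXH 

theorem t_SUPL : T_SUPL :=
  p_SUPL @t_HF @t_DET

theorem t_SUPR : T_SUPR :=
  p_SUPR @t_HF @t_DET

theorem t_DH : T_DH :=
  p_DH @t_SUPL @t_SUPR @t_DET

theorem t_SPI : T_SPI :=
  p_SPI @t_DET

theorem t_A_LF : T_A_LF :=
  p_A_LF @t_A_TANR @t_A_TANL @t_A_OWN @t_A_ALB @t_A_EXH @t_LIV @t_DH @t_SUPL @t_SPI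

theorem t_A_PART : T_A_PART :=
  p_A_PART @t_A_BLD @t_A_LF

theorem t_INS : T_INS :=
  p_INS @t_A_PART @t_A_MRG

theorem t_LVH : T_LVH :=
  p_LVH @t_A_MRG @t_A_LF

theorem t_DCO : T_DCO :=
  p_DCO 

theorem t_LVA : T_LVA :=
  p_LVA @t_A_BLD @t_SMA @t_DCO

theorem t_SMB : T_SMB :=
  p_SMB 

theorem t_SMC : T_SMC :=
  p_SMC @t_SMB

theorem t_A_LT : T_A_LT :=
  p_A_LT @t_A_LAST

theorem t_A_NXT : T_A_NXT :=
  p_A_NXT @t_A_LT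

theorem t_DSQ : T_DSQ :=
  p_DSQ 

theorem t_NNA : T_NNA :=
  p_NNA @t_DSQ @t_DET

theorem t_MON : T_MON :=
  p_MON 

theorem t_TNR : T_TNR :=
  p_TNR @t_SUPR @t_HF @t_DET

theorem t_TNL : T_TNL :=
  p_TNL @t_SUPL @t_HF @t_DET

theorem t_A_NB : T_A_NB :=
  p_A_NB @t_A_TANR @t_A_TANL @t_A_OWN @t_TNR @t_TNL

theorem t_NNS : T_NNS :=
  p_NNS 

theorem t_GAP : T_GAP :=
  p_GAP @t_HF

theorem t_A_MIN : T_A_MIN :=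
  p_A_MIN 

theorem t_GQ : T_GQ :=
  p_GQ @t_A_LT @t_A_MIN

theorem t_CHI : T_CHI :=
  p_CHI @t_NNA @t_MON @t_A_NB @t_NNS @t_LIV @t_GAP @t_GQ

theorem t_SPN : T_SPN :=
  p_SPN @t_DSQ

theorem t_MK : T_MK :=
  p_MK @t_CHI @t_SPN @t_MON @t_LIV

theorem t_NOD : T_NOD :=
  p_NOD @t_A_NXT @t_MK @t_LIV

theorem t_CRI : T_CRI :=
  p_CRI @t_A_LT @t_NOD @t_SMC @t_SMA

theorem t_LEV : T_LEV :=
  p_LEV @t_LVA @t_SMA @t_SMC @t_NOD @t_CRI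

theorem t_SLF : T_SLF :=
  p_SLF @t_LVH @t_LEV

theorem t_ROT : T_ROT :=
  p_ROT @t_SLF @t_LVH @t_MK

theorem t_CHR : T_CHR :=
  p_CHR @t_A_LT @t_A_MIN

theorem t_MKI : T_MKI :=
  p_MKI 

theorem t_RIN : T_RIN :=
  p_RIN @t_SLF @t_LVH @t_LVA @t_CHR @t_MKI @t_A_NXT @t_A_LT @t_LEV

theorem t_COS : T_COS :=
  p_COS @t_INS @t_ROT @t_RIN

theorem t_N_CS : T_N_CS :=
  p_N_CS @t_COS @t_SZI @t_CNT

theorem t_N_SEQ : T_N_SEQ :=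
  p_N_SEQ @t_TIN @t_N_CS

theorem t_N_SUM : T_N_SUM :=
  p_N_SUM @t_N_STP @t_N_SEQ

theorem t_MKD : T_MKD :=
  p_MKD 

theorem t_QDP : T_QDP :=
  p_QDP @t_SLF @t_LVH @t_LVA @t_CHR @t_MKD

theorem t_N_DEP : T_N_DEP :=
  p_N_DEP @t_QDP @t_N_LOG

theorem t_FND : T_FND :=
  p_FND 

theorem t_SIN : T_SIN :=
  p_SIN 

theorem t_NNE : T_NNE :=
  p_NNE 

theorem t_TQ : T_TQ :=
  p_TQ @t_FND @t_SIN @t_NNE @t_CHU @t_CHL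

theorem statement : Statement :=
  final t_C_INT t_C_QRY t_N_SUM t_N_SEQ t_N_DEP t_TQ t_N_CS

end Pool.Agent.EVD
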