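import Pool.Agent.EVD.Model

/-! # EVD: functions computed by programs, with time bounds -/

namespace Pool.Agent.EVD

/-- encoding of data by values -/
class Enc (α : Type) where
  enc : α → Val

export Enc (enc)

/-- `f` is computed by a program in time `O(B x + 1)` -/
def CB {α β : Type} [Enc α] [Enc β] (f : α → β) (B : α → ℕ) : Prop :=
  ∃ (p : Prog) (K : ℕ), ∀ (b : Prog) (x : α), ∃ n, n ≤ K * (B x + 1) ∧
    Run b p (enc x) (enc (f x)) n

section
variable {α β γ δ : Type} [Enc α] [Enc β] [Enc γ] [Enc δ]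

theorem CB.mono {f : α → β} {B B' : α → ℕ} (h : CB f B) (K' : ℕ)
    (hB : ∀ x, B x ≤ K' * (B' x + 1)) : CB f B' := by
  obtain ⟨p, K, hp⟩ := h
  refine ⟨p, K * (K' + 1), fun b x => ?_⟩
  obtain ⟨n, hn, hr⟩ := hp b x
  refine ⟨n, hn.trans ?_, hr⟩
  have := hB x
  calc K * (B x + 1) ≤ K * (K' * (B' x + 1) + 1 * (B' x + 1)) := by
        apply Nat.mul_le_mul_left; nlinarith
    _ = K * (K' + 1) * (B' x + 1) := by ring

theorem CB.congr {f g : α → β} {B : α → ℕ} (h : CB f B) (hfg : ∀ x, f x = g x) : CB g B := by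
  have : f = g := funext hfg
  rwa [← this]

theorem CB.id : CB (fun x : α => x) (fun _ => 0) :=
  ⟨Prog.id, 1, fun b x => ⟨1, by simp, Run.prim _ _ _ _ rfl⟩⟩

theorem CB.comp {f : β → γ} {g : α → β} {F : β → ℕ} {G : α → ℕ} (hf : CB f F) (hg : CB g G) :
    CB (fun x => f (g x)) (fun x => G x + F (g x)) := by
  obtain ⟨p, K, hp⟩ := hf
  obtain ⟨q, L, hq⟩ := hg
  refine ⟨Prog.comp p q, K + L + 1, fun b x => ?_⟩
  obtain ⟨n, hn, hr⟩ := hq b x
  obtain ⟨m, hm, hs⟩ := hp b (g x)
  refine ⟨_, ?_, Run.comp _ _ _ _ _ _ _ _ hr hs⟩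
  nlinarith [Nat.zero_le (K * G x), Nat.zero_le (L * F (g x))]

instance : Enc Unit := ⟨fun _ => Val.nil⟩
instance : Enc Bool := ⟨fun b => if b then Val.pair Val.nil Val.nil else Val.nil⟩
instance : Enc ℝ := ⟨Val.num⟩
instance : Enc (α × β) := ⟨fun x => Val.pair (enc x.1) (enc x.2)⟩

def encO : Option α → Val
  | none => Val.nil
  | some a => Val.pair (enc a) Val.nil

instance : Enc (Option α) := ⟨encO⟩

def encL : List α → Val
  | [] => Val.nil
  | a :: l => Val.pair (enc a) (encL l)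

instance : Enc (List α) := ⟨encL⟩

/-- encoding of sums -/
def encS : α ⊕ β → Val
  | Sum.inl a => Val.pair (Val.pair Val.nil Val.nil) (enc a)
  | Sum.inr b => Val.pair Val.nil (enc b)

instance : Enc (α ⊕ β) := ⟨encS⟩

theorem CB.pair {f : α → β} {g : α → γ} {F G : α → ℕ} (hf : CB f F) (hg : CB g G) :
    CB (fun x => (f x, g x)) (fun x => F x + G x) := by
  obtain ⟨p, K, hp⟩ := hf
  obtain ⟨q, L, hq⟩ := hg
  refine ⟨Prog.fork p q, K + L + 1, fun b x => ?_⟩
  obtain ⟨n, hn, hr⟩ := hp b x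
  obtain ⟨m, hm, hs⟩ := hq b x
  refine ⟨_, ?_, Run.fork _ _ _ _ _ _ _ _ hr hs⟩
  nlinarith [Nat.zero_le (K * G x), Nat.zero_le (L * F x)]

theorem CB.fst : CB (fun x : α × β => x.1) (fun _ => 0) :=
  ⟨Prog.fst, 1, fun b x => ⟨1, by simp, Run.prim _ _ _ _ rfl⟩⟩

theorem CB.snd : CB (fun x : α × β => x.2) (fun _ => 0) :=
  ⟨Prog.snd, 1, fun b x => ⟨1, by simp, Run.prim _ _ _ _ rfl⟩⟩

theorem CB.ite {t : α → Bool} {f g : α → β} {T F G : α → ℕ} (ht : CB t T) (hf : CB f F)
    (hg : CB g G) :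
    CB (fun x => if t x then f x else g x) (fun x => T x + (if t x then F x else G x)) := by
  obtain ⟨r, M, hr⟩ := ht
  obtain ⟨p, K, hp⟩ := hf
  obtain ⟨q, L, hq⟩ := hg
  refine ⟨Prog.cond r p q, M + K + L + 1, fun b x => ?_⟩
  obtain ⟨n, hn, h1⟩ := hr b x
  cases h : t x with
  | true =>
    obtain ⟨m, hm, h2⟩ := hp b x
    rw [h] at h1
    simp only [h, if_true]
    refine ⟨_, ?_, Run.condT _ _ _ _ _ _ _ _ _ _ h1 h2⟩
    nlinarith [Nat.zero_le (M * F x), Nat.zero_le (K * T x), Nat.zero_le (L * T x),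
      Nat.zero_le (L * F x)]
  | false =>
    obtain ⟨m, hm, h2⟩ := hq b x
    rw [h] at h1
    simp only [h, Bool.false_eq_true, if_false]
    refine ⟨_, ?_, Run.condF _ _ _ _ _ _ _ _ h1 h2⟩
    nlinarith [Nat.zero_le (M * G x), Nat.zero_le (K * T x), Nat.zero_le (L * T x),
      Nat.zero_le (K * G x)]

/-- linear recursion -/
theorem CB.rec1 {t : α → Bool} {f base : α → β} {step : α → α} {comb : α × β → β}
    {T F S B : α → ℕ} {C : α × β → ℕ} (ht : CB t T) (hb : CB base F) (hs : CB step S)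
    (hc : CB comb C)
    (hf : ∀ x, f x = if t x then base x else comb (x, f (step x)))
    (hB1 : ∀ x, t x = true → T x + F x ≤ B x)
    (hB2 : ∀ x, t x = false → T x + S x + C (x, f (step x)) + B (step x) + 1 ≤ B x) : CB f B := by
  obtain ⟨pt, Kt, ht⟩ := ht
  obtain ⟨pb, Kb, hb⟩ := hb
  obtain ⟨ps, Ks, hs⟩ := hs
  obtain ⟨pc, Kc, hc⟩ := hc
  set body : Prog := Prog.cond pt pb (Prog.comp pc (Prog.fork Prog.id (Prog.comp Prog.self ps)))
    with hbody
  have key : ∀ (n : ℕ) (x : α), B x ≤ n → ∃ m, m ≤ (Kt + Kb + Ks + Kc + 10) * (B x + 1) ∧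
      Run body body (enc x) (enc (f x)) m := by
    intro n
    induction n with
    | zero =>
      intro x hx
      obtain ⟨n1, hn1, h1⟩ := ht body x
      cases h : t x with
      | true =>
        obtain ⟨n2, hn2, h2⟩ := hb body x
        rw [h] at h1
        rw [hf x, h, if_pos rfl]
        refine ⟨_, ?_, Run.condT _ _ _ _ _ _ _ _ _ _ h1 h2⟩
        have := hB1 x h
        have e1 : Kt * (T x + 1) ≤ Kt * (B x + 1) := Nat.mul_le_mul_left _ (by omega)
        have e2 : Kb * (F x + 1) ≤ Kb * (B x + 1) := Nat.mul_le_mul_left _ (by omega)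
        nlinarith
      | false =>
        have := hB2 x h
        omega
    | succ n ih =>
      intro x hx
      obtain ⟨n1, hn1, h1⟩ := ht body x
      cases h : t x with
      | true =>
        obtain ⟨n2, hn2, h2⟩ := hb body x
        rw [h] at h1
        rw [hf x, h, if_pos rfl]
        refine ⟨_, ?_, Run.condT _ _ _ _ _ _ _ _ _ _ h1 h2⟩
        have := hB1 x h
        have e1 : Kt * (T x + 1) ≤ Kt * (B x + 1) := Nat.mul_le_mul_left _ (by omega)
        have e2 : Kb * (F x + 1) ≤ Kb * (B x + 1) := Nat.mul_le_mul_left _ (by omega)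
        nlinarith
      | false =>
        have hB := hB2 x h
        obtain ⟨n2, hn2, h2⟩ := hs body x
        obtain ⟨n3, hn3, h3⟩ := ih (step x) (by omega)
        obtain ⟨n4, hn4, h4⟩ := hc body (x, f (step x))
        rw [h] at h1
        rw [hf x, h, if_neg Bool.false_ne_true]
        refine ⟨_, ?_, Run.condF _ _ _ _ _ _ _ _ h1 (Run.comp _ _ _ _ _ _ _ _
          (Run.fork _ _ _ _ _ _ _ _ (Run.prim _ _ _ _ rfl)
            (Run.comp _ _ _ _ _ _ _ _ h2 (Run.self _ _ _ _ h3))) h4)⟩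
        obtain ⟨R, hR⟩ : ∃ R, B x = T x + S x + C (x, f (step x)) + B (step x) + 1 + R :=
          ⟨B x - (T x + S x + C (x, f (step x)) + B (step x) + 1), by omega⟩
        rw [hR]
        generalize T x = a at *
        generalize S x = b at *
        generalize C (x, f (step x)) = c at *
        generalize B (step x) = d at *
        nlinarith [Nat.zero_le (Kt * b), Nat.zero_le (Kt * c), Nat.zero_le (Kt * d),
          Nat.zero_le (Kt * R), Nat.zero_le (Kb * a), Nat.zero_le (Kb * b), Nat.zero_le (Kb * c),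
          Nat.zero_le (Kb * R), Nat.zero_le (Ks * a), Nat.zero_le (Ks * c),
          Nat.zero_le (Ks * R), Nat.zero_le (Kc * a), Nat.zero_le (Kc * b),
          Nat.zero_le (Kc * R)]
  refine ⟨Prog.fix body, Kt + Kb + Ks + Kc + 11, fun b x => ?_⟩
  obtain ⟨m, hm, hr⟩ := key (B x) x le_rfl
  refine ⟨_, ?_, Run.fix _ _ _ _ _ hr⟩
  nlinarith


/-- binary recursion -/
theorem CB.rec2 {t : α → Bool} {f base : α → β} {st1 st2 : α → α} {comb : α × β × β → β}
    {T F S1 S2 B : α → ℕ} {C : α × β × β → ℕ} (ht : CB t T) (hb : CB base F) (hs1 : CB st1 S1)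
    (hs2 : CB st2 S2) (hc : CB comb C)
    (hf : ∀ x, f x = if t x then base x else comb (x, f (st1 x), f (st2 x)))
    (hB1 : ∀ x, t x = true → T x + F x ≤ B x)
    (hB2 : ∀ x, t x = false → T x + S1 x + S2 x + C (x, f (st1 x), f (st2 x)) + B (st1 x) +
      B (st2 x) + 2 ≤ B x) : CB f B := by
  obtain ⟨pt, Kt, ht⟩ := ht
  obtain ⟨pb, Kb, hb⟩ := hb
  obtain ⟨ps, Ks, hs⟩ := hs1
  obtain ⟨pr, Kr, hr⟩ := hs2
  obtain ⟨pc, Kc, hc⟩ := hc
  set body : Prog := Prog.cond pt pb (Prog.comp pc (Prog.fork Prog.id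
    (Prog.fork (Prog.comp Prog.self ps) (Prog.comp Prog.self pr)))) with hbody
  have key : ∀ (n : ℕ) (x : α), B x ≤ n → ∃ m, m ≤ (Kt + Kb + Ks + Kr + Kc + 10) * (B x + 1) ∧
      Run body body (enc x) (enc (f x)) m := by
    intro n
    induction n with
    | zero =>
      intro x hx
      obtain ⟨n1, hn1, h1⟩ := ht body x
      cases h : t x with
      | true =>
        obtain ⟨n2, hn2, h2⟩ := hb body x
        rw [h] at h1
        rw [hf x, h, if_pos rfl]
        refine ⟨_, ?_, Run.condT _ _ _ _ _ _ _ _ _ _ h1 h2⟩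
        have := hB1 x h
        have e1 : Kt * (T x + 1) ≤ Kt * (B x + 1) := Nat.mul_le_mul_left _ (by omega)
        have e2 : Kb * (F x + 1) ≤ Kb * (B x + 1) := Nat.mul_le_mul_left _ (by omega)
        nlinarith
      | false =>
        have := hB2 x h
        omega
    | succ n ih =>
      intro x hx
      obtain ⟨n1, hn1, h1⟩ := ht body x
      cases h : t x with
      | true =>
        obtain ⟨n2, hn2, h2⟩ := hb body x
        rw [h] at h1
        rw [hf x, h, if_pos rfl]
        refine ⟨_, ?_, Run.condT _ _ _ _ _ _ _ _ _ _ h1 h2⟩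
        have := hB1 x h
        have e1 : Kt * (T x + 1) ≤ Kt * (B x + 1) := Nat.mul_le_mul_left _ (by omega)
        have e2 : Kb * (F x + 1) ≤ Kb * (B x + 1) := Nat.mul_le_mul_left _ (by omega)
        nlinarith
      | false =>
        have hB := hB2 x h
        obtain ⟨n2, hn2, h2⟩ := hs body x
        obtain ⟨n3, hn3, h3⟩ := hr body x
        obtain ⟨n4, hn4, h4⟩ := ih (st1 x) (by omega)
        obtain ⟨n5, hn5, h5⟩ := ih (st2 x) (by omega)
        obtain ⟨n6, hn6, h6⟩ := hc body (x, f (st1 x), f (st2 x))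
        rw [h] at h1
        rw [hf x, h, if_neg Bool.false_ne_true]
        refine ⟨_, ?_, Run.condF _ _ _ _ _ _ _ _ h1 (Run.comp _ _ _ _ _ _ _ _
          (Run.fork _ _ _ _ _ _ _ _ (Run.prim _ _ _ _ rfl)
            (Run.fork _ _ _ _ _ _ _ _ (Run.comp _ _ _ _ _ _ _ _ h2 (Run.self _ _ _ _ h4))
              (Run.comp _ _ _ _ _ _ _ _ h3 (Run.self _ _ _ _ h5)))) h6)⟩
        obtain ⟨R, hR⟩ : ∃ R, B x = T x + S1 x + S2 x + C (x, f (st1 x), f (st2 x)) + B (st1 x) +
            B (st2 x) + 2 + R :=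
          ⟨B x - (T x + S1 x + S2 x + C (x, f (st1 x), f (st2 x)) + B (st1 x) +
            B (st2 x) + 2), by omega⟩
        rw [hR]
        generalize T x = a at *
        generalize S1 x = b at *
        generalize S2 x = b' at *
        generalize C (x, f (st1 x), f (st2 x)) = c at *
        generalize B (st1 x) = d at *
        generalize B (st2 x) = d' at *
        clear h1 h2 h3 h4 h5 h6 ht hb hs hr hc ih hB hR hx hf hB1 hB2
        have e : n1 + (1 + (n2 + (n4 + 1) + 1 + (n3 + (n5 + 1) + 1) + 1) + 1 + n6 + 1) + 1 ≤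
          Kt * (a + 1) + Ks * (b + 1) + Kr * (b' + 1) + Kc * (c + 1) +
          (Kt + Kb + Ks + Kr + Kc + 10) * (d + 1) + (Kt + Kb + Ks + Kr + Kc + 10) * (d' + 1)
            + 9 := by omega
        refine e.trans ?_
        have g1 : Kt * (a + 1) ≤ Kt * (a + b + b' + c + 1 + R) := Nat.mul_le_mul_left _ (by omega)
        have g2 : Ks * (b + 1) ≤ Ks * (a + b + b' + c + 1 + R) := Nat.mul_le_mul_left _ (by omega)
        have g3 : Kr * (b' + 1) ≤ Kr * (a + b + b' + c + 1 + R) := Nat.mul_le_mul_left _ (by omega)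
        have g4 : Kc * (c + 1) ≤ Kc * (a + b + b' + c + 1 + R) := Nat.mul_le_mul_left _ (by omega)
        have g5 : (Kt + Kb + Ks + Kr + Kc + 10) * (a + b + b' + c + 1 + R) ≥
          Kt * (a + b + b' + c + 1 + R) + Ks * (a + b + b' + c + 1 + R) +
          Kr * (a + b + b' + c + 1 + R) + Kc * (a + b + b' + c + 1 + R) + 10 := by
          nlinarith [Nat.zero_le (Kb * (a + b + b' + c + 1 + R))]
        have g6 : (Kt + Kb + Ks + Kr + Kc + 10) * (a + b + b' + c + d + d' + 2 + R + 1) =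
          (Kt + Kb + Ks + Kr + Kc + 10) * (a + b + b' + c + 1 + R) +
          (Kt + Kb + Ks + Kr + Kc + 10) * (d + 1) + (Kt + Kb + Ks + Kr + Kc + 10) * (d' + 1) := by
          ring
        rw [g6]
        omega
  refine ⟨Prog.fix body, Kt + Kb + Ks + Kr + Kc + 11, fun b x => ?_⟩
  obtain ⟨m, hm, hr⟩ := key (B x) x le_rfl
  refine ⟨_, ?_, Run.fix _ _ _ _ _ hr⟩
  nlinarith

/-- a function computed by one primitive instruction -/
theorem CB.prim {f : α → β} (p : Prog) (h : ∀ x, prim p (enc x) = some (enc (f x))) :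
    CB f (fun _ => 0) :=
  ⟨p, 1, fun _ x => ⟨1, by simp, Run.prim _ _ _ _ (h x)⟩⟩

/-- constant functions of simple values: `v` is built by a program from anything -/
theorem CB.nilv (a : β) (h : enc a = Val.nil) : CB (fun _ : α => a) (fun _ => 0) :=
  CB.prim Prog.nil (fun x => by rw [h]; rfl)

/-- change of representation: `g` and `f` have the same code -/
theorem CB.recode {f : α → β} (h : ∀ x, enc (f x) = enc x) : CB f (fun _ => 0) :=
  CB.prim Prog.id (fun x => by rw [h]; rfl)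

theorem CB.real_add : CB (fun x : ℝ × ℝ => x.1 + x.2) (fun _ => 0) :=
  CB.prim Prog.add (fun _ => rfl)
theorem CB.real_sub : CB (fun x : ℝ × ℝ => x.1 - x.2) (fun _ => 0) :=
  CB.prim Prog.sub (fun _ => rfl)
theorem CB.real_mul : CB (fun x : ℝ × ℝ => x.1 * x.2) (fun _ => 0) :=
  CB.prim Prog.mul (fun _ => rfl)
theorem CB.real_div : CB (fun x : ℝ × ℝ => x.1 / x.2) (fun _ => 0) :=
  CB.prim Prog.div (fun _ => rfl)
theorem CB.real_one : CB (fun _ : α => (1 : ℝ)) (fun _ => 0) :=
  CB.prim Prog.one (fun _ => rfl)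
theorem CB.real_lt : CB (fun x : ℝ × ℝ => decide (x.1 < x.2)) (fun _ => 0) := by
  refine CB.prim Prog.lt (fun x => ?_)
  change some (open Classical in if x.1 < x.2 then Val.pair Val.nil Val.nil else Val.nil) =
    some (if decide (x.1 < x.2) then Val.pair Val.nil Val.nil else Val.nil)
  by_cases h : x.1 < x.2 <;> simp [h]

end

end Pool.Agent.EVD
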