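import Pool.Agent.EVD.Algo

/-! # EVD: definitions for the correctness proofs (everything over `ℝ`) -/

namespace Pool.Agent.EVD

/-- points -/
abbrev P : Type := ℝ × ℝ

/-- a chain: distinct abscissas, strictly concave -/
def Chn (S : Set P) : Prop :=
  (∀ a ∈ S, ∀ b ∈ S, a.1 = b.1 → a = b) ∧
    ∀ a ∈ S, ∀ b ∈ S, ∀ c ∈ S, a.1 < b.1 → b.1 < c.1 → 0 < ccB a b c

/-- a cut of the heights: downward closed Boolean predicate -/
def Cut (D : ℝ → Bool) : Prop := ∀ r r' : ℝ, r' ≤ r → D r = true → D r' = true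

/-- the site `b` of `S` is alive at the cut `D` -/
def Al (D : ℝ → Bool) (S : Set P) (b : P) : Prop :=
  b ∈ S ∧ ∀ a ∈ S, ∀ c ∈ S, a.1 < b.1 → b.1 < c.1 → D (cc a b c) = true

/-- `D` agrees with (· < y) on all circumcentre heights of `S` -/
def Mat (D : ℝ → Bool) (S : Set P) (y : ℝ) : Prop :=
  ∀ a ∈ S, ∀ b ∈ S, ∀ c ∈ S, a.1 < b.1 → b.1 < c.1 → (D (cc a b c) = true ↔ cc a b c < y)

/-- weakly alive at the optional height `T` (`none` = plus infinity) -/
def Wal (T : Option ℝ) (S : Set P) (b : P) : Prop :=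
  b ∈ S ∧ ∀ t, T = some t → ∀ a ∈ S, ∀ c ∈ S, a.1 < b.1 → b.1 < c.1 → cc a b c ≤ t

/-- `h` is the death height of `b` in `S` (`none` for the first and the last site) -/
def IsH (S : Set P) (b : P) : Option ℝ → Prop
  | none => (∀ a ∈ S, b.1 ≤ a.1) ∨ (∀ c ∈ S, c.1 ≤ b.1)
  | some r => (∃ a ∈ S, ∃ c ∈ S, a.1 < b.1 ∧ b.1 < c.1 ∧ cc a b c = r) ∧
      ∀ a ∈ S, ∀ c ∈ S, a.1 < b.1 → b.1 < c.1 → cc a b c ≤ r

/-- `y ≤ T` -/
def leT (y : ℝ) (T : Option ℝ) : Prop := ∀ t, T = some t → y ≤ t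

/-- at every height above its death height the spine point lies in the cell of the site -/
def SpineOK (S : Set P) (m : Lf ℝ) : Prop :=
  ∀ h, m.h = some h → ∀ y, h < y → ∀ s ∈ S,
    dsq (m.sx + m.sk * y, y) m.s ≤ dsq (m.sx + m.sk * y, y) s

def LfOK (S : Set P) (m : Lf ℝ) : Prop := m.s ∈ S ∧ IsH S m.s m.h ∧ SpineOK S m

/-- `s` is the rightmost one of the nearest sites of `q` in `S` -/
def IsNN (S : Set P) (q s : P) : Prop :=
  s ∈ S ∧ ∀ t ∈ S, dsq q s ≤ dsq q t ∧ (s.1 < t.1 → dsq q s < dsq q t)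

/-- leaves of a tree, from left to right -/
def TR.toL {K : Type} : TR K → List (Lf K)
  | TR.leaf d => [d]
  | TR.node _ _ l r => TR.toL l ++ TR.toL r

/-- depth of a tree -/
def TR.dep {K : Type} : TR K → ℕ
  | TR.leaf _ => 0
  | TR.node _ _ l r => max (TR.dep l) (TR.dep r) + 1

/-- the stored data of the nodes are correct -/
def TR.WF : TR ℝ → Prop
  | TR.leaf _ => True
  | TR.node am fx l r => TR.WF l ∧ TR.WF r ∧ am = btr l.am r.am ∧ fx = l.fx

/-- strictly sorted by abscissa -/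
def Srt (l : List (Lf ℝ)) : Prop := l.Pairwise (fun a b => a.s.1 < b.s.1)

def SrtP (l : List P) : Prop := l.Pairwise (fun a b => a.1 < b.1)

/-- a tree with sorted leaves and correct data -/
def TreeOK (t : TR ℝ) : Prop := t.WF ∧ Srt t.toL

/-- sites of a list of elements -/
def sites (l : List (Lf ℝ)) : Set P := {p | ∃ d ∈ l, d.s = p}

/-- a part: tree of the set `N`, with the heights with respect to `N` itself -/
def PartOK (N : Set P) (t : TR ℝ) : Prop :=
  TreeOK t ∧ sites t.toL = N ∧ ∀ d ∈ t.toL, IsH N d.s d.h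

/-- the parts `ps` are trees of sets whose union is `S` -/
def PartsOK : Set P → List (TR ℝ) → Prop
  | S, [] => S = ∅
  | S, t :: ts => ∃ N S', S = N ∪ S' ∧ PartOK N t ∧ PartsOK S' ts

/-- sites alive in their own part at the cut `D` -/
def Own (D : ℝ → Bool) (ps : List (TR ℝ)) : Set P := {b | ∃ t ∈ ps, ∃ d ∈ t.toL, d.s = b ∧ live D d.h = true}

/-- `c` is the right tangent point from `f` over the set `A` -/
def OptR (D : ℝ → Bool) (f : P) (A : Set P) (c : P) : Prop :=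
  c ∈ A ∧ f.1 < c.1 ∧ ∀ b ∈ A, f.1 < b.1 →
    (b.1 < c.1 → D (cc f b c) = false) ∧ (c.1 < b.1 → D (cc f c b) = true)

/-- `c` is the left tangent point from `f` over the set `A` -/
def OptL (D : ℝ → Bool) (f : P) (A : Set P) (c : P) : Prop :=
  c ∈ A ∧ c.1 < f.1 ∧ ∀ b ∈ A, b.1 < f.1 →
    (b.1 < c.1 → D (cc b c f) = true) ∧ (c.1 < b.1 → D (cc c b f) = false)

/-- the candidate `s` is met by the query `q` -/
def QT.Seen : QT ℝ → P → P → Prop
  | QT.stop, _, _ => False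
  | QT.cand s rest, q, p => p = s ∨ rest.Seen q p
  | QT.test a b c yes no, q, p => if a * q.1 + b * q.2 < c then yes.Seen q p else no.Seen q p

/-- all candidates belong to `S` -/
def QT.In (S : Set P) : QT ℝ → Prop
  | QT.stop => True
  | QT.cand s rest => s ∈ S ∧ rest.In S
  | QT.test _ _ _ yes no => yes.In S ∧ no.In S

/-- longest path -/
def QT.dep : QT ℝ → ℕ
  | QT.stop => 0
  | QT.cand _ rest => rest.dep + 1
  | QT.test _ _ _ yes no => max yes.dep no.dep + 1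

/-- the structure `qt` finds the nearest site of every query of height `≤ T` whose nearest site lies
strictly between `c` and `c'` -/
def Solves (S : Set P) (c c' : P) (T : Option ℝ) (qt : QT ℝ) : Prop :=
  ∀ q s : P, leT q.2 T → IsNN S q s → c.1 < s.1 → s.1 < c'.1 → qt.Seen q s

/-- sample tree `ct` with its nodes, for the set `S` of all sites up to this level: the elements
carry their heights in `S`, first and last site of `S` are in the sample, and the nodes solve the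
gaps -/
def LowOK (S : Set P) (ct : TR ℝ) : Prop :=
  TreeOK ct ∧ (∀ d ∈ ct.toL, d.s ∈ S ∧ IsH S d.s d.h) ∧
  (∀ s ∈ S, (∃ d ∈ ct.toL, d.s.1 ≤ s.1) ∧ ∃ d ∈ ct.toL, s.1 ≤ d.s.1) ∧
  (∀ c ∈ ct.toL, ∀ c' ∈ ct.toL, c.s.1 < c'.s.1 → (∀ e ∈ ct.toL, ¬ (c.s.1 < e.s.1 ∧ e.s.1 < c'.s.1)) →
    Solves S c.s c'.s none c'.q1) ∧
  (∀ c ∈ ct.toL, ∀ c' ∈ ct.toL, ∀ d ∈ ct.toL, ∀ h, d.h = some h → c.s.1 < d.s.1 → d.s.1 < c'.s.1 →
    live (cutT (some h)) c.h = true → live (cutT (some h)) c'.h = true →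
    (∀ e ∈ ct.toL, c.s.1 < e.s.1 → e.s.1 < c'.s.1 → live (cutT (some h)) e.h = false) →
    Solves S c.s c'.s (some h) d.q2)

end Pool.Agent.EVD
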