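import Pool.Agent.EVD.Comp
import Pool.Agent.EVD.Defs

/-! # EVD: encodings of the data structures, targets for their constructors and cases -/

namespace Pool.Agent.EVD

/-- code of a query tree -/
def encQ : QT ℝ → Val
  | QT.stop => Val.nil
  | QT.cand s rest => Val.pair Val.nil (Val.pair (enc s) (encQ rest))
  | QT.test a b c yes no => Val.pair (Val.pair Val.nil Val.nil)
      (Val.pair (enc a) (Val.pair (enc b) (Val.pair (enc c) (Val.pair (encQ yes) (encQ no)))))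

instance : Enc (QT ℝ) := ⟨encQ⟩

/-- a structure as a tuple -/
def Lf.tup (d : Lf ℝ) : P × Option ℝ × ℝ × ℝ × QT ℝ × QT ℝ := (d.s, d.h, d.sx, d.sk, d.q1, d.q2)

instance : Enc (Lf ℝ) := ⟨fun d => enc d.tup⟩

/-- code of a leaf tree -/
def encT : TR ℝ → Val
  | TR.leaf d => Val.pair Val.nil (enc d)
  | TR.node am fx l r => Val.pair (Val.pair Val.nil Val.nil)
      (Val.pair (enc am) (Val.pair (enc fx) (Val.pair (encT l) (encT r))))

instance : Enc (TR ℝ) := ⟨encT⟩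

def Slot.tup (s : Slot ℝ) : List P × Option (TR ℝ) × List (Lf ℝ) × List P × Option (TR ℝ) :=
  (s.N, s.part, s.F, s.C, s.ct)

instance : Enc (Slot ℝ) := ⟨fun s => enc s.tup⟩

def CS.tup (c : CS ℝ) : QT ℝ × List (Slot ℝ) := (c.q, c.sl)

instance : Enc (CS ℝ) := ⟨fun s => enc s.tup⟩

def Top.tup (t : Top ℝ) : P × P × CS ℝ × CS ℝ := (t.w, t.e, t.up, t.lo)

instance : Enc (Top ℝ) := ⟨fun s => enc s.tup⟩

section
variable (α β γ δ : Type) [Enc α] [Enc β] [Enc γ] [Enc δ]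

/-- General linear recursion. Body `cond (comp fst fst) snd (comp pc (fork .. ))` after `q`: the program is
`fix (comp (cond fst snd (comp pc (fork (comp snd snd) (comp self (comp fst snd))))) q)`: `enc (inl b)` is
`pair (pair nil nil) (enc b)` and `enc (inr (y, z))` is `pair nil (pair (enc y) (enc z))`. Induction on `B x` as in
the proof of `CB.rec1`. -/
def T_RS1 : Prop := ∀ (f : α → β) (q : α → β ⊕ (α × γ)) (comb : γ × β → β) (Q B : α → ℕ) (C : γ × β → ℕ),
  CB q Q → CB comb C →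
  (∀ x, f x = match q x with | Sum.inl b => b | Sum.inr (y, z) => comb (z, f y)) →
  (∀ x b, q x = Sum.inl b → Q x ≤ B x) →
  (∀ x y z, q x = Sum.inr (y, z) → Q x + C (z, f y) + B y + 1 ≤ B x) → CB f B

/-- General binary recursion, same proof (compare `CB.rec2`). -/
def T_RS2 : Prop := ∀ (f : α → β) (q : α → β ⊕ (α × α × γ)) (comb : γ × β × β → β) (Q B : α → ℕ)
  (C : γ × β × β → ℕ), CB q Q → CB comb C →
  (∀ x, f x = match q x with | Sum.inl b => b | Sum.inr (y, y', z) => comb (z, f y, f y')) →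
  (∀ x b, q x = Sum.inl b → Q x ≤ B x) →
  (∀ x y y' z, q x = Sum.inr (y, y', z) → Q x + C (z, f y, f y') + B y + B y' + 2 ≤ B x) → CB f B

/-- injections: `fork (fork nil nil) id`, `fork nil id` -/
def T_INJ : Prop := CB (fun x : α => (Sum.inl x : α ⊕ β)) (fun _ => 0) ∧
  CB (fun x : β => (Sum.inr x : α ⊕ β)) (fun _ => 0)

/-- cases on a sum: program `comp (cond (comp fst snd) pf' pg') (fork id pt)` where `pf'` is `pf` after
`fork fst (comp snd snd)` and so on -/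
def T_CSS : Prop := ∀ (t : α → β ⊕ γ) (f : α × β → δ) (g : α × γ → δ) (A : α → ℕ) (F : α × β → ℕ)
  (G : α × γ → ℕ), CB t A → CB f F → CB g G →
  CB (fun x => match t x with | Sum.inl b => f (x, b) | Sum.inr c => g (x, c))
    (fun x => A x + match t x with | Sum.inl b => F (x, b) | Sum.inr c => G (x, c))

/-- cases on a list: `enc (a :: l) = pair (enc a) (enc l)`, `enc [] = nil`; program
`comp (cond snd pg (comp pf fst)) (fork id pt)` -/
def T_CSL : Prop := ∀ (t : α → List β) (f : α → δ) (g : α × β × List β → δ) (A F : α → ℕ)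
  (G : α × β × List β → ℕ), CB t A → CB f F → CB g G →
  CB (fun x => match t x with | [] => f x | b :: l => g (x, b, l))
    (fun x => A x + match t x with | [] => F x | b :: l => G (x, b, l))

/-- cases on an option: `enc none = nil`, `enc (some a) = pair (enc a) nil` -/
def T_CSO : Prop := ∀ (t : α → Option β) (f : α → δ) (g : α × β → δ) (A F : α → ℕ) (G : α × β → ℕ),
  CB t A → CB f F → CB g G →
  CB (fun x => match t x with | none => f x | some b => g (x, b))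
    (fun x => A x + match t x with | none => F x | some b => G (x, b))

/-- constructors of lists and options -/
def T_CON : Prop := CB (fun x : α × List α => x.1 :: x.2) (fun _ => 0) ∧
  CB (fun _ : β => ([] : List α)) (fun _ => 0) ∧
  CB (fun x : α => some x) (fun _ => 0) ∧ CB (fun _ : β => (none : Option α)) (fun _ => 0)

/-- Boolean constants and connectives (by `CB.ite`, `cond`): for `t t' : α → Bool` -/
def T_BOO : Prop := CB (fun _ : α => true) (fun _ => 0) ∧ CB (fun _ : α => false) (fun _ => 0) ∧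
  (∀ (t : α → Bool) (A : α → ℕ), CB t A → CB (fun x => !(t x)) A) ∧
  (∀ (t t' : α → Bool) (A A' : α → ℕ), CB t A → CB t' A' →
    CB (fun x => (t x && t' x)) (fun x => A x + A' x) ∧ CB (fun x => (t x || t' x)) (fun x => A x + A' x))

/-- cases on a leaf tree -/
def T_CST : Prop := ∀ (t : α → TR ℝ) (f : α × Lf ℝ → δ) (g : α × Lf ℝ × ℝ × TR ℝ × TR ℝ → δ) (A : α → ℕ)
  (F : α × Lf ℝ → ℕ) (G : α × Lf ℝ × ℝ × TR ℝ × TR ℝ → ℕ), CB t A → CB f F → CB g G →
  CB (fun x => match t x with | TR.leaf d => f (x, d) | TR.node am fx l r => g (x, am, fx, l, r))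
    (fun x => A x + match t x with | TR.leaf d => F (x, d) | TR.node am fx l r => G (x, am, fx, l, r))

/-- cases on a query tree -/
def T_CSQ : Prop := ∀ (t : α → QT ℝ) (e : α → δ) (f : α × P × QT ℝ → δ)
  (g : α × ℝ × ℝ × ℝ × QT ℝ × QT ℝ → δ) (A E : α → ℕ) (F : α × P × QT ℝ → ℕ)
  (G : α × ℝ × ℝ × ℝ × QT ℝ × QT ℝ → ℕ), CB t A → CB e E → CB f F → CB g G →
  CB (fun x => match t x with
      | QT.stop => e x | QT.cand s r => f (x, s, r) | QT.test a b c y n => g (x, a, b, c, y, n))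
    (fun x => A x + match t x with
      | QT.stop => E x | QT.cand s r => F (x, s, r) | QT.test a b c y n => G (x, a, b, c, y, n))

end

/-- constructors and fields of the data types -/
def T_FLD : Prop :=
  CB (fun d : Lf ℝ => d.s) (fun _ => 0) ∧ CB (fun d : Lf ℝ => d.h) (fun _ => 0) ∧
  CB (fun d : Lf ℝ => d.sx) (fun _ => 0) ∧ CB (fun d : Lf ℝ => d.sk) (fun _ => 0) ∧
  CB (fun d : Lf ℝ => d.q1) (fun _ => 0) ∧ CB (fun d : Lf ℝ => d.q2) (fun _ => 0) ∧
  CB (fun x : P × Option ℝ × ℝ × ℝ × QT ℝ × QT ℝ =>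
    (⟨x.1, x.2.1, x.2.2.1, x.2.2.2.1, x.2.2.2.2.1, x.2.2.2.2.2⟩ : Lf ℝ)) (fun _ => 0) ∧
  CB (fun s : Slot ℝ => s.N) (fun _ => 0) ∧ CB (fun s : Slot ℝ => s.part) (fun _ => 0) ∧
  CB (fun s : Slot ℝ => s.F) (fun _ => 0) ∧ CB (fun s : Slot ℝ => s.C) (fun _ => 0) ∧
  CB (fun s : Slot ℝ => s.ct) (fun _ => 0) ∧
  CB (fun x : List P × Option (TR ℝ) × List (Lf ℝ) × List P × Option (TR ℝ) =>
    (⟨x.1, x.2.1, x.2.2.1, x.2.2.2.1, x.2.2.2.2⟩ : Slot ℝ)) (fun _ => 0) ∧
  CB (fun c : CS ℝ => c.q) (fun _ => 0) ∧ CB (fun c : CS ℝ => c.sl) (fun _ => 0) ∧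
  CB (fun x : QT ℝ × List (Slot ℝ) => (⟨x.1, x.2⟩ : CS ℝ)) (fun _ => 0) ∧
  CB (fun t : Top ℝ => t.w) (fun _ => 0) ∧ CB (fun t : Top ℝ => t.e) (fun _ => 0) ∧
  CB (fun t : Top ℝ => t.up) (fun _ => 0) ∧ CB (fun t : Top ℝ => t.lo) (fun _ => 0) ∧
  CB (fun x : P × P × CS ℝ × CS ℝ => (⟨x.1, x.2.1, x.2.2.1, x.2.2.2⟩ : Top ℝ)) (fun _ => 0)

/-- constructors of trees -/
def T_CTR : Prop :=
  CB (fun d : Lf ℝ => TR.leaf d) (fun _ => 0) ∧
  CB (fun x : Lf ℝ × ℝ × TR ℝ × TR ℝ => TR.node x.1 x.2.1 x.2.2.1 x.2.2.2) (fun _ => 0) ∧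
  CB (fun x : P × QT ℝ => QT.cand x.1 x.2) (fun _ => 0) ∧
  CB (fun x : ℝ × ℝ × ℝ × QT ℝ × QT ℝ => QT.test x.1 x.2.1 x.2.2.1 x.2.2.2.1 x.2.2.2.2) (fun _ => 0)

/-- real operations: zero is `1 - 1`, comparison and order tests `≤` as negated `<` -/
def T_REA : Prop := ∀ (α : Type) [Enc α] (a b : α → ℝ) (A B : α → ℕ), CB a A → CB b B →
  CB (fun x => a x + b x) (fun x => A x + B x) ∧ CB (fun x => a x - b x) (fun x => A x + B x) ∧
  CB (fun x => a x * b x) (fun x => A x + B x) ∧ CB (fun x => a x / b x) (fun x => A x + B x) ∧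
  CB (fun x => -a x) A ∧ CB (fun _ : α => (0 : ℝ)) (fun _ => 0) ∧ CB (fun _ : α => (1 : ℝ)) (fun _ => 0) ∧
  CB (fun _ : α => (2 : ℝ)) (fun _ => 0) ∧
  CB (fun x => decide (a x < b x)) (fun x => A x + B x) ∧ CB (fun x => decide (a x ≤ b x)) (fun x => A x + B x)

end Pool.Agent.EVD
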