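import Pool.Agent.EVD.TB

/-! # EVD, target NOD: correctness of a node -/

set_option autoImplicit false

namespace Pool.Agent.EVD

namespace NOD_

theorem mem_inI {D : ℝ → Bool} {x x' : ℝ} {l : List (Lf ℝ)} {d : Lf ℝ} :
    d ∈ inI D x x' l ↔ d ∈ l ∧ x < d.s.1 ∧ d.s.1 < x' ∧ live D d.h = true := by
  unfold inI
  rw [List.mem_filter]
  simp only [Bool.and_eq_true, decide_eq_true_eq]

theorem srt_inI {D : ℝ → Bool} {x x' : ℝ} {l : List (Lf ℝ)} (h : Srt l) : Srt (inI D x x' l) := by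
  unfold Srt at h ⊢
  exact h.sublist List.filter_sublist

end NOD_

/-- Target NOD. -/
theorem p_NOD (h_NXT : T_A_NXT) (h_MK : T_MK) (h_LIV : T_LIV) : T_NOD := by
  intro S S' ps lower F ft T f c c' hL hft hF hc hc' hcc' hwal hcf hfc' hnf hlen q s hq hN hcs hsc'
  have hnx : nexts (cutT T) ft c'.1 4 c.1 = inI (cutT T) c.1 c'.1 F := by
    rw [h_NXT (cutT T) ft c'.1 4 c.1 (cut_cutT T) hft, hF]
    exact List.take_of_length_le hlen
  have hmk : mkNode ps lower ft T f c c' =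
      mk ps lower T c' (inI (cutT T) c.1 c'.1 F) c T f := by
    unfold mkNode
    rw [hnx]
  rw [hmk]
  refine h_MK S S' ps lower T c c' (inI (cutT T) c.1 c'.1 F) hL.fin hL.chn hL.sub hL.parts hL.low
    hc hc' (NOD_.srt_inI hL.srt) ?_ ?_ (inI (cutT T) c.1 c'.1 F) c f T List.suffix_rfl hc le_rfl
    hcc' ?_ ?_ hwal hcf hfc' hnf ?_ q s hq hN hcs.le hsc'.le
  · intro m hm
    obtain ⟨h1, h2, h3, h4⟩ := NOD_.mem_inI.1 hm
    exact ⟨hL.ok m h1, h2, h3, h4⟩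
  · intro u hu hcu huc' hnu
    refine hL.rest u hu.1 ?_
    rintro ⟨d, hd, hdu⟩
    apply hnu
    refine ⟨d, NOD_.mem_inI.2 ⟨hd, ?_, ?_, ?_⟩, hdu⟩
    · rw [hdu]; exact hcu
    · rw [hdu]; exact huc'
    · have hok := hL.ok d hd
      exact (h_LIV S (cutT T) d.s d.h (cut_cutT T) hok.1 hok.2.1).1 (by rw [hdu]; exact hu)
  · intro m hm
    exact (NOD_.mem_inI.1 hm).2.1
  · intro t ht
    exact ⟨t, ht, le_refl t⟩
  · intro m hm _ hnm
    exact absurd hm hnm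

end Pool.Agent.EVD
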