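import Pool.Agent.EVD.TB

/-! # EVD: depth of the query structures (T_QDP) -/

set_option autoImplicit false

namespace Pool.Agent.EVD

namespace QDP_

theorem nexts_len (D : ℝ → Bool) (t : TR ℝ) (x' : ℝ) :
    ∀ (n : ℕ) (x : ℝ), (nexts D t x' n x).length ≤ n := by
  intro n
  induction n with
  | zero => intro x; simp [nexts]
  | succ n ih =>
    intro x
    unfold nexts
    split
    · simp
    · split
      · simp only [List.length_cons]
        exact Nat.succ_le_succ (ih _)
      · simp

theorem splitLast_len (a : Lf ℝ) (l : List (Lf ℝ)) : (splitLast a l).1.length = l.length := by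
  induction l generalizing a with
  | nil => simp [splitLast]
  | cons b t ih => simp [splitLast, ih]

theorem mkLf_q (ps : List (TR ℝ)) (f : P) :
    (mkLf ps f).q1 = QT.stop ∧ (mkLf ps f).q2 = QT.stop := by
  unfold mkLf
  split
  · split
    · exact ⟨rfl, rfl⟩
    · exact ⟨rfl, rfl⟩
  · exact ⟨rfl, rfl⟩

theorem mkNode_dep (h_MKD : T_MKD) (B : ℕ) (ps : List (TR ℝ)) (lower : Option (TR ℝ))
    (ft : TR ℝ) (T : Option ℝ) (f c c' : P)
    (hB : ∀ (T' : Option ℝ) (f l h : P), (child ps lower T' f l h).dep ≤ B) :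
    (mkNode ps lower ft T f c c').dep ≤ 10 + B := by
  have h1 := h_MKD B ps lower T c' (nexts (cutT T) ft c'.1 4 c.1) c f T hB
  have h2 := nexts_len (cutT T) ft c'.1 4 c.1
  unfold mkNode
  omega

theorem critQ_dep (h_MKD : T_MKD) (B : ℕ) (ps : List (TR ℝ)) (lower : Option (TR ℝ))
    (ft ct : TR ℝ) (d : Lf ℝ)
    (hB : ∀ (T' : Option ℝ) (f l h : P), (child ps lower T' f l h).dep ≤ B) :
    (critQ ps lower ft ct d).dep ≤ 10 + B := by
  unfold critQ
  split
  · simp [QT.dep]
  · split
    · exact mkNode_dep h_MKD B ps lower ft _ _ _ _ hB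
    · simp [QT.dep]

theorem lev (h_SLF : T_SLF) (h_LVH : T_LVH) (h_LVA : T_LVA) (h_CHR : T_CHR) (h_MKD : T_MKD)
    (sl : List (Slot ℝ)) : ∀ S : Set P, SlotsOK sl S → S.Finite → Chn S →
      ∀ ct, lowT sl = some ct → TreeOK ct ∧
        ∀ d ∈ ct.toL, d.q1.dep ≤ 10 * sl.length ∧ d.q2.dep ≤ 10 * sl.length := by
  induction sl with
  | nil =>
    intro S _ _ _ ct h
    simp [lowT] at h
  | cons s rest ih =>
    intro S hS hf hc ct hct
    obtain ⟨hne, S', h1, h2, h3, h4, h5, h6⟩ := hS
    have hsub : S' ⊆ S := by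
      rw [h2]; exact Set.subset_union_right
    have hf' : S'.Finite := hf.subset hsub
    have hc' : Chn S' := hc.mono hsub
    have hfac := h_SLF rest S' h1 hf' hc'
    have hlev := h_LVH s rest S S' hf hc hne h2 h3 h4 h5 h6 hfac
    obtain ⟨ft, ct0, t, a1, a2, a3, a4, a5, a6, a7, a8, a9, a10⟩ :=
      h_LVA (consO s.part (partsOf rest)) (lowT rest) s.F hlev.srt hlev.ne
    have hsct : s.ct = build (levC (consO s.part (partsOf rest)) (lowT rest) s.F) := by
      rw [h6]; rfl
    have hsF : s.F = (mrg s.N (lowC rest)).map (mkLf (consO s.part (partsOf rest))) := by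
      rw [h6]; rfl
    simp only [lowT] at hct
    have e1 : t = ct := by
      rw [hsct, a5] at hct
      exact Option.some.inj hct
    subst e1
    refine ⟨a6, ?_⟩
    rw [a7]
    have hB : ∀ (T' : Option ℝ) (f l h : P),
        (child (consO s.part (partsOf rest)) (lowT rest) T' f l h).dep ≤ 10 * rest.length := by
      intro T' f l h
      exact h_CHR (fun q => q.dep ≤ 10 * rest.length) _ _ T' f l h (by simp [QT.dep])
        (fun ct' hct' => ih S' h1 hf' hc' ct' hct')
    intro d hd
    rcases a9 d hd with ⟨b1, _⟩ | ⟨b1, x, _, b2⟩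
    · rw [hsF] at b1
      obtain ⟨f, _, rfl⟩ := List.mem_map.1 b1
      rw [(mkLf_q _ f).1, (mkLf_q _ f).2]
      simp [QT.dep]
    · have k1 := mkNode_dep h_MKD _ _ _ ft none x.s x.s d.s hB
      have k2 := critQ_dep h_MKD _ _ _ ft ct0 d hB
      rw [← b2] at k1
      rw [← b1] at k2
      simp only [List.length_cons]
      constructor <;> omega

end QDP_

open QDP_ in
/-- Depth of the query structures. -/
theorem p_QDP (h_SLF : T_SLF) (h_LVH : T_LVH) (h_LVA : T_LVA) (h_CHR : T_CHR) (h_MKD : T_MKD) :
    T_QDP := by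
  intro sl S hS hf hc hsz
  cases sl with
  | nil => simp [rootQ, QT.dep]
  | cons s rest =>
    obtain ⟨hne, S', h1, h2, h3, h4, h5, h6⟩ := hS
    have hsub : S' ⊆ S := by
      rw [h2]; exact Set.subset_union_right
    have hf' : S'.Finite := hf.subset hsub
    have hc' : Chn S' := hc.mono hsub
    have hB : ∀ (T' : Option ℝ) (f l h : P),
        (child (consO s.part (partsOf rest)) (lowT rest) T' f l h).dep ≤ 10 * rest.length := by
      intro T' f l h
      exact h_CHR (fun q => q.dep ≤ 10 * rest.length) _ _ T' f l h (by simp [QT.dep])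
        (fun ct' hct' => lev h_SLF h_LVH h_LVA h_CHR h_MKD rest S' h1 hf' hc' ct' hct')
    have hF : s.F.length ≤ 9 := by
      have := hsz.2.1
      simpa using this
    unfold rootQ
    simp only [List.length_cons]
    split
    · simp [QT.dep]
    · simp [QT.dep]
    · rename_i a b t hF'
      rw [hF'] at hF
      simp only [List.length_cons] at hF
      have k := h_MKD _ _ _ none (splitLast b t).2.s (splitLast b t).1 a.s a.s none hB
      rw [splitLast_len] at k
      omega

end Pool.Agent.EVD
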