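import Pool.Agent.EVD.P_AB
import Pool.Agent.EVD.P_A_ALB
import Pool.Agent.EVD.P_A_BLD
import Pool.Agent.EVD.P_A_EXH
import Pool.Agent.EVD.P_A_FOUR
import Pool.Agent.EVD.P_A_LAST
import Pool.Agent.EVD.P_A_LF
import Pool.Agent.EVD.P_A_LT
import Pool.Agent.EVD.P_A_MIN
import Pool.Agent.EVD.P_A_MRG
import Pool.Agent.EVD.P_A_NB
import Pool.Agent.EVD.P_A_NXT
import Pool.Agent.EVD.P_A_ONE
import Pool.Agent.EVD.P_A_OWN
import Pool.Agent.EVD.P_A_PART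
import Pool.Agent.EVD.P_A_PKL
import Pool.Agent.EVD.P_A_PKR
import Pool.Agent.EVD.P_A_TANG
import Pool.Agent.EVD.P_A_TANH
import Pool.Agent.EVD.P_A_TANL
import Pool.Agent.EVD.P_A_TANR
import Pool.Agent.EVD.P_AMO
import Pool.Agent.EVD.P_CHI
import Pool.Agent.EVD.P_CHL
import Pool.Agent.EVD.P_CHR
import Pool.Agent.EVD.P_CHU
import Pool.Agent.EVD.P_CNT
import Pool.Agent.EVD.P_COS
import Pool.Agent.EVD.P_CPG
import Pool.Agent.EVD.P_CPS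
import Pool.Agent.EVD.P_CPV
import Pool.Agent.EVD.P_CPW
import Pool.Agent.EVD.P_CRI
import Pool.Agent.EVD.P_DCO
import Pool.Agent.EVD.P_DET
import Pool.Agent.EVD.P_DH
import Pool.Agent.EVD.P_DSQ
import Pool.Agent.EVD.P_FND
import Pool.Agent.EVD.P_GAP
import Pool.Agent.EVD.P_GQ
import Pool.Agent.EVD.P_HF
import Pool.Agent.EVD.P_INS
import Pool.Agent.EVD.P_LEV
import Pool.Agent.EVD.P_LEX
import Pool.Agent.EVD.P_LIV
import Pool.Agent.EVD.P_LVA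
import Pool.Agent.EVD.P_LVH
import Pool.Agent.EVD.P_MAT
import Pool.Agent.EVD.P_MK
import Pool.Agent.EVD.P_MKD
import Pool.Agent.EVD.P_MKI
import Pool.Agent.EVD.P_MON
import Pool.Agent.EVD.P_NNA
import Pool.Agent.EVD.P_NNE
import Pool.Agent.EVD.P_NNS
import Pool.Agent.EVD.P_NOD
import Pool.Agent.EVD.P_ONL
import Pool.Agent.EVD.P_QDP
import Pool.Agent.EVD.P_RIN
import Pool.Agent.EVD.P_ROT
import Pool.Agent.EVD.P_SIN
import Pool.Agent.EVD.P_SLF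
import Pool.Agent.EVD.P_SMA
import Pool.Agent.EVD.P_SMB
import Pool.Agent.EVD.P_SMC
import Pool.Agent.EVD.P_SPI
import Pool.Agent.EVD.P_SPN
import Pool.Agent.EVD.P_STE
import Pool.Agent.EVD.P_STW
import Pool.Agent.EVD.P_SUPL
import Pool.Agent.EVD.P_SUPR
import Pool.Agent.EVD.P_SZI
import Pool.Agent.EVD.P_TIN
import Pool.Agent.EVD.P_TNL
import Pool.Agent.EVD.P_TNR
import Pool.Agent.EVD.P_TQ

/-! # EVD: assembly of the correctness part (sections G, A, B, T) -/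

set_option autoImplicit false

namespace Pool.Agent.EVD

/-! ### section G -/
theorem m_HF : T_HF := p_HF p_MAT p_DET
theorem m_SUPR : T_SUPR := p_SUPR m_HF p_DET
theorem m_SUPL : T_SUPL := p_SUPL m_HF p_DET
theorem m_TNR : T_TNR := p_TNR m_SUPR m_HF p_DET
theorem m_TNL : T_TNL := p_TNL m_SUPL m_HF p_DET
theorem m_AB : T_AB := p_AB m_HF p_DET
theorem m_DH : T_DH := p_DH m_SUPL m_SUPR p_DET
theorem m_SPI : T_SPI := p_SPI p_DET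
theorem m_NNA : T_NNA := p_NNA p_DSQ p_DET
theorem m_SPN : T_SPN := p_SPN p_DSQ
theorem m_GAP : T_GAP := p_GAP m_HF

/-! ### section A -/
theorem m_A_LT : T_A_LT := p_A_LT p_A_LAST
theorem m_A_NXT : T_A_NXT := p_A_NXT m_A_LT
theorem m_A_TANH : T_A_TANH := p_A_TANH p_A_LAST
theorem m_A_TANG : T_A_TANG := p_A_TANG m_A_TANH
theorem m_A_FOUR : T_A_FOUR := p_A_FOUR p_MAT
theorem m_A_PKR : T_A_PKR := p_A_PKR m_A_FOUR
theorem m_A_PKL : T_A_PKL := p_A_PKL m_A_FOUR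
theorem m_A_ONE : T_A_ONE := p_A_ONE m_A_TANG m_A_FOUR p_LIV
theorem m_A_OWN : T_A_OWN := p_A_OWN p_LIV
theorem m_A_TANR : T_A_TANR := p_A_TANR m_A_ONE m_A_PKR
theorem m_A_TANL : T_A_TANL := p_A_TANL m_A_ONE m_A_PKL
theorem m_A_NB : T_A_NB := p_A_NB m_A_TANR m_A_TANL m_A_OWN m_TNR m_TNL
theorem m_A_ALB : T_A_ALB := p_A_ALB m_A_TANR m_A_TANL m_A_OWN m_AB
theorem m_A_LF : T_A_LF :=
  p_A_LF m_A_TANR m_A_TANL m_A_OWN m_A_ALB p_A_EXH p_LIV m_DH m_SUPL m_SPI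
theorem m_A_PART : T_A_PART := p_A_PART p_A_BLD m_A_LF

/-! ### section B -/
theorem m_SMC : T_SMC := p_SMC p_SMB
theorem m_GQ : T_GQ := p_GQ m_A_LT p_A_MIN
theorem m_CHI : T_CHI := p_CHI m_NNA p_MON m_A_NB p_NNS p_LIV m_GAP m_GQ
theorem m_CHR : T_CHR := p_CHR m_A_LT p_A_MIN
theorem m_MK : T_MK := p_MK m_CHI m_SPN p_MON p_LIV
theorem m_NOD : T_NOD := p_NOD m_A_NXT m_MK p_LIV
theorem m_LVA : T_LVA := p_LVA p_A_BLD p_SMA p_DCO
theorem m_CRI : T_CRI := p_CRI m_A_LT m_NOD m_SMC p_SMA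
theorem m_LEV : T_LEV := p_LEV m_LVA p_SMA m_SMC m_NOD m_CRI
theorem m_LVH : T_LVH := p_LVH p_A_MRG m_A_LF
theorem m_SLF : T_SLF := p_SLF m_LVH m_LEV
theorem m_INS : T_INS := p_INS m_A_PART p_A_MRG
theorem m_ROT : T_ROT := p_ROT m_SLF m_LVH m_MK
theorem m_RIN : T_RIN := p_RIN m_SLF m_LVH m_LVA m_CHR p_MKI m_A_NXT m_A_LT m_LEV
theorem m_COS : T_COS := p_COS m_INS m_ROT m_RIN
theorem m_SZI : T_SZI := p_SZI p_A_MRG p_SMA p_A_BLD
theorem m_CNT : T_CNT := p_CNT p_A_MRG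
theorem m_AMO : T_AMO := p_AMO p_A_BLD p_A_MRG
theorem m_QDP : T_QDP := p_QDP m_SLF m_LVH m_LVA m_CHR p_MKD

/-! ### section T -/
theorem m_CPV : T_CPV := p_CPV p_CPG
theorem m_CPW : T_CPW := p_CPW p_CPG
theorem m_ONL : T_ONL := p_ONL p_CPG p_LEX
theorem m_CHU : T_CHU := p_CHU m_CPV m_CPW m_ONL
theorem m_CHL : T_CHL := p_CHL m_CPV m_CPW m_ONL
theorem m_STW : T_STW := p_STW m_CPV m_ONL p_LEX p_CPS
theorem m_STE : T_STE := p_STE m_CPV m_ONL p_LEX p_CPS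
theorem m_TIN : T_TIN := p_TIN m_CHU m_CHL m_STW m_STE m_ONL p_LEX
theorem m_TQ : T_TQ := p_TQ p_FND p_SIN p_NNE m_CHU m_CHL

end Pool.Agent.EVD
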