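import Mathlib

/-! # EVD: the machine model

A pure pointer machine with real arithmetic, a restriction of the real RAM: no memory addresses, no
integers, no floor function, no mutation. A value is a real number, `nil`, or a pair of two values
(a cell with two pointers; values are shared, never copied). A program is a finite term; it is run on
one value and returns one value. Running times: every instruction costs one step: a projection, a
constant, one arithmetic operation or one comparison of two real numbers, the allocation of a pair, a
branch, a procedure call. Each of these is a constant number of steps of a real RAM (with a stack for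
the calls). -/

namespace Pool.Agent.EVD


/-- values: binary trees with real numbers at the leaves (immutable cells) -/
inductive Val : Type
  | nil : Val
  | num (r : ℝ) : Val
  | pair (a b : Val) : Val

/-- Programs. `nil`, `one`: the constants `nil` and the real number `1`; `fst`, `snd`: components of a
pair; `id`: the input; `add`, `sub`, `mul`, `div`, `lt`: arithmetic and comparison of the two real
components of a pair (the result of a true comparison is the pair of two `nil`, of a false one `nil`);
`comp p q`: first `q`, then `p`; `fork p q`: the pair of the two results; `cond t p q`: `p` if the result
of `t` is a pair, `q` if it is `nil`; `fix p`: call of the recursive procedure with the body `p`; `self`: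
recursive call of the innermost enclosing procedure. -/
inductive Prog : Type
  | nil : Prog
  | one : Prog
  | fst : Prog
  | snd : Prog
  | id : Prog
  | add : Prog
  | sub : Prog
  | mul : Prog
  | div : Prog
  | lt : Prog
  | comp (p q : Prog) : Prog
  | fork (p q : Prog) : Prog
  | cond (t p q : Prog) : Prog
  | fix (p : Prog) : Prog
  | self : Prog

/-- Result of a primitive instruction on an input (`none`: the machine is stuck). As in the real numbers
of Mathlib the quotient `a / 0` is `0` (a real RAM does this with one comparison). -/
noncomputable def prim : Prog → Val → Option Val
  | Prog.nil, _ => some Val.nil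
  | Prog.one, _ => some (Val.num 1)
  | Prog.id, x => some x
  | Prog.fst, Val.pair a _ => some a
  | Prog.snd, Val.pair _ b => some b
  | Prog.add, Val.pair (Val.num a) (Val.num b) => some (Val.num (a + b))
  | Prog.sub, Val.pair (Val.num a) (Val.num b) => some (Val.num (a - b))
  | Prog.mul, Val.pair (Val.num a) (Val.num b) => some (Val.num (a * b))
  | Prog.div, Val.pair (Val.num a) (Val.num b) => some (Val.num (a / b))
  | Prog.lt, Val.pair (Val.num a) (Val.num b) =>
      some (open Classical in if a < b then Val.pair Val.nil Val.nil else Val.nil)
  | _, _ => none

/-- `Run b p x y n`: inside a procedure with the body `b`, the program `p` with the input `x` stops with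
the result `y` after `n` steps. -/
inductive Run : Prog → Prog → Val → Val → ℕ → Prop
  | prim (b p : Prog) (x y : Val) : prim p x = some y → Run b p x y 1
  | comp (b p q : Prog) (x y z : Val) (m n : ℕ) : Run b q x y m → Run b p y z n →
      Run b (Prog.comp p q) x z (m + n + 1)
  | fork (b p q : Prog) (x y z : Val) (m n : ℕ) : Run b p x y m → Run b q x z n →
      Run b (Prog.fork p q) x (Val.pair y z) (m + n + 1)
  | condT (b t p q : Prog) (x u v y : Val) (m n : ℕ) : Run b t x (Val.pair u v) m →
      Run b p x y n → Run b (Prog.cond t p q) x y (m + n + 1)
  | condF (b t p q : Prog) (x y : Val) (m n : ℕ) : Run b t x Val.nil m →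
      Run b q x y n → Run b (Prog.cond t p q) x y (m + n + 1)
  | fix (b p : Prog) (x y : Val) (n : ℕ) : Run p p x y n → Run b (Prog.fix p) x y (n + 1)
  | self (b : Prog) (x y : Val) (n : ℕ) : Run b b x y n → Run b Prog.self x y (n + 1)

end Pool.Agent.EVD
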