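import Pool.Agent.EVD.TC
import Pool.Agent.EVD.P_CSO
import Pool.Agent.EVD.P_CON
import Pool.Agent.EVD.P_FLD

/-! # EVD: time of `critQ` -/

set_option autoImplicit false

namespace Pool.Agent.EVD

namespace CCRI_

abbrev X : Type := List (TR ℝ) × Option (TR ℝ) × TR ℝ × TR ℝ × Lf ℝ

theorem cb_ps : CB (fun x : X => x.1) (fun _ => 0) := CB.fst
theorem cb_lower : CB (fun x : X => x.2.1) (fun _ => 0) := CB.comp CB.fst CB.snd
theorem cb_ft : CB (fun x : X => x.2.2.1) (fun _ => 0) :=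
  CB.comp CB.fst (CB.comp CB.snd CB.snd)
theorem cb_ct : CB (fun x : X => x.2.2.2.1) (fun _ => 0) :=
  CB.comp CB.fst (CB.comp CB.snd (CB.comp CB.snd CB.snd))
theorem cb_d : CB (fun x : X => x.2.2.2.2) (fun _ => 0) :=
  CB.comp CB.snd (CB.comp CB.snd (CB.comp CB.snd CB.snd))

theorem cb_s : CB (fun d : Lf ℝ => d.s) (fun _ => 0) := p_FLD.1
theorem cb_h : CB (fun d : Lf ℝ => d.h) (fun _ => 0) := p_FLD.2.1

theorem cb_ds : CB (fun x : X => x.2.2.2.2.s) (fun _ => 0) := CB.comp cb_s cb_d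
theorem cb_dh : CB (fun x : X => x.2.2.2.2.h) (fun _ => 0) := CB.comp cb_h cb_d

theorem cb_some {α : Type} [Enc α] : CB (fun x : α => some x) (fun _ => 0) :=
  (p_CON α α).2.2.1

/-- the last step: both neighbours are known -/
theorem cb_nod (h_NOD : T_C_NOD) :
    CB (fun z : ((X × ℝ) × Lf ℝ) × Lf ℝ =>
      mkNode z.1.1.1.1 z.1.1.1.2.1 z.1.1.1.2.2.1 (some z.1.1.2) z.1.1.1.2.2.2.2.s z.1.2.s z.2.s)
      (fun z => cC z.1.1.1.1 z.1.1.1.2.1 + (z.1.1.1.2.2.1.dep + 1) ^ 2) := by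
  have hx : CB (fun z : ((X × ℝ) × Lf ℝ) × Lf ℝ => z.1.1.1) (fun _ => 0) :=
    CB.comp CB.fst (CB.comp CB.fst CB.fst)
  have hh : CB (fun z : ((X × ℝ) × Lf ℝ) × Lf ℝ => z.1.1.2) (fun _ => 0) :=
    CB.comp CB.snd (CB.comp CB.fst CB.fst)
  have hc : CB (fun z : ((X × ℝ) × Lf ℝ) × Lf ℝ => z.1.2) (fun _ => 0) :=
    CB.comp CB.snd CB.fst
  have hc' : CB (fun z : ((X × ℝ) × Lf ℝ) × Lf ℝ => z.2) (fun _ => 0) := CB.snd
  have harg : CB (fun z : ((X × ℝ) × Lf ℝ) × Lf ℝ =>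
      (z.1.1.1.1, z.1.1.1.2.1, z.1.1.1.2.2.1, some z.1.1.2, z.1.1.1.2.2.2.2.s, z.1.2.s, z.2.s))
      (fun _ => 0) :=
    CB.pair (CB.comp cb_ps hx) (CB.pair (CB.comp cb_lower hx) (CB.pair (CB.comp cb_ft hx)
      (CB.pair (CB.comp cb_some hh) (CB.pair (CB.comp cb_ds hx)
        (CB.pair (CB.comp cb_s hc) (CB.comp cb_s hc'))))))
  refine (CB.comp h_NOD harg).mono 1 (fun z => ?_)
  dsimp only
  omega

/-- the neighbour on one side -/
theorem cb_side (F : (ℝ → Bool) → ℝ → TR ℝ → Option (Lf ℝ))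
    (hF : CB (fun x : Option ℝ × ℝ × TR ℝ => F (cutT x.1) x.2.1 x.2.2)
      (fun x => (0 + 1) * (x.2.2.dep + 1) ^ 2)) :
    CB (fun y : X × ℝ => F (cutT (some y.2)) y.1.2.2.2.2.s.1 y.1.2.2.2.1)
      (fun y => (y.1.2.2.2.1.dep + 1) ^ 2) := by
  have harg : CB (fun y : X × ℝ => (some y.2, y.1.2.2.2.2.s.1, y.1.2.2.2.1)) (fun _ => 0) :=
    CB.pair (CB.comp cb_some CB.snd) (CB.pair (CB.comp CB.fst (CB.comp cb_ds CB.fst))
      (CB.comp cb_ct CB.fst))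
  refine (CB.comp hF harg).mono 1 (fun z => ?_)
  dsimp only
  omega

end CCRI_

open CCRI_

theorem p_C_CRI (h_LL : T_C_LL) (h_NOD : T_C_NOD) (h_CUT : T_C_CUT) : T_C_CRI := by
  have hLL := h_LL (Option ℝ) cutT (fun _ => 0) h_CUT
  have hL := cb_side (fun D x t => lastLt D x t) hLL.1
  have hR := cb_side (fun D x t => firstGt D x t) hLL.2
  -- second neighbour
  have h2 := p_CSO ((X × ℝ) × Lf ℝ) (Lf ℝ) (QT ℝ)
    (fun y => firstGt (cutT (some y.1.2)) y.1.1.2.2.2.2.s.1 y.1.1.2.2.2.1) (fun _ => QT.stop)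
    (fun z => mkNode z.1.1.1.1 z.1.1.1.2.1 z.1.1.1.2.2.1 (some z.1.1.2) z.1.1.1.2.2.2.2.s
      z.1.2.s z.2.s) _ _ _ (CB.comp hR CB.fst) (CB.nilv QT.stop rfl) (cb_nod h_NOD)
  -- first neighbour
  have h1 := p_CSO (X × ℝ) (Lf ℝ) (QT ℝ)
    (fun y => lastLt (cutT (some y.2)) y.1.2.2.2.2.s.1 y.1.2.2.2.1) (fun _ => QT.stop)
    _ _ _ _ hL (CB.nilv QT.stop rfl) h2
  -- the height
  have h0 := p_CSO X ℝ (QT ℝ) (fun x => x.2.2.2.2.h) (fun _ => QT.stop)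
    _ _ _ _ cb_dh (CB.nilv QT.stop rfl) h1
  refine (h0.mono 2 (fun x => ?_)).congr (fun x => ?_)
  · dsimp only
    split
    · omega
    · split
      · nlinarith
      · split <;> nlinarith
  · dsimp only
    unfold critQ
    cases x.2.2.2.2.h with
    | none => rfl
    | some h =>
      dsimp only
      cases lastLt (cutT (some h)) x.2.2.2.2.s.1 x.2.2.2.1 with
      | none => rfl
      | some c =>
        dsimp only
        cases firstGt (cutT (some h)) x.2.2.2.2.s.1 x.2.2.2.1 <;> rfl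

end Pool.Agent.EVD
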