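import Pool.Agent.EVD.TC
import Pool.Agent.EVD.P_CSO
import Pool.Agent.EVD.P_CSL
import Pool.Agent.EVD.P_CON
import Pool.Agent.EVD.P_FLD

/-! # EVD: time of `levC` (helper58) -/

set_option autoImplicit false

namespace Pool.Agent.EVD

namespace CLEV_

abbrev X : Type := List (TR ℝ) × Option (TR ℝ) × List (Lf ℝ)
abbrev Y2 : Type := (X × TR ℝ) × TR ℝ
abbrev Y3 : Type := Y2 × Lf ℝ × List (Lf ℝ)

theorem c0 {α β γ : Type} [Enc α] [Enc β] [Enc γ] {f : β → γ} {g : α → β}
    (hf : CB f (fun _ => 0)) (hg : CB g (fun _ => 0)) : CB (fun x => f (g x)) (fun _ => 0) :=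
  CB.comp hf hg

theorem p0 {α β γ : Type} [Enc α] [Enc β] [Enc γ] {f : α → β} {g : α → γ}
    (hf : CB f (fun _ => 0)) (hg : CB g (fun _ => 0)) : CB (fun x => (f x, g x)) (fun _ => 0) :=
  CB.pair hf hg

theorem blk_length (l : List (Lf ℝ)) : (blk l).length ≤ l.length := by
  induction l using blk.induct with
  | case1 => simp [blk]
  | case2 z => simp [blk]
  | case3 b z => simp [blk]
  | case4 b c z => simp [blk]
  | case5 b c d z t ih =>
    rw [blk, List.length_cons]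
    simp only [List.length_cons] at ih ⊢
    omega

theorem sample_length (l : List (Lf ℝ)) : (sample l).length ≤ l.length := by
  cases l with
  | nil => simp [sample]
  | cons a t =>
    show (blk t).length + 1 ≤ t.length + 1
    exact Nat.succ_le_succ (blk_length t)

/-- cost of the decoration -/
def W3 (y : Y3) : ℕ := (y.2.2.length + 1) *
  (cC y.1.1.1.1 y.1.1.1.2.1 + (y.1.1.2.dep + 1) ^ 2 + (y.1.2.dep + 1) ^ 2 + 1)

noncomputable def g3 (y : Y3) : List (Lf ℝ) :=
  y.2.1 :: deco y.1.1.1.1 y.1.1.1.2.1 y.1.1.2 y.1.2 y.2.1.s y.2.2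

theorem cb_g3 (h_DCO : T_C_DCO) : CB g3 W3 := by
  have e1 : CB (fun y : Y3 => y.1.1.1.1) (fun _ => 0) := c0 CB.fst (c0 CB.fst (c0 CB.fst CB.fst))
  have e2 : CB (fun y : Y3 => y.1.1.1.2.1) (fun _ => 0) :=
    c0 CB.fst (c0 CB.snd (c0 CB.fst (c0 CB.fst CB.fst)))
  have e3 : CB (fun y : Y3 => y.1.1.2) (fun _ => 0) := c0 CB.snd (c0 CB.fst CB.fst)
  have e4 : CB (fun y : Y3 => y.1.2) (fun _ => 0) := c0 CB.snd CB.fst
  have e5 : CB (fun y : Y3 => y.2.1) (fun _ => 0) := c0 CB.fst CB.snd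
  have e6 : CB (fun y : Y3 => y.2.1.s) (fun _ => 0) := c0 p_FLD.1 e5
  have e7 : CB (fun y : Y3 => y.2.2) (fun _ => 0) := c0 CB.snd CB.snd
  have h := CB.comp h_DCO (p0 (p0 e1 (p0 e2 (p0 e3 e4))) (p0 e6 e7))
  have h' := CB.comp (p_CON (Lf ℝ) Unit).1 (CB.pair e5 h)
  refine (CB.congr h' (g := g3) fun _ => rfl).mono 1 fun y => ?_
  show 0 + (0 + W3 y) + 0 ≤ 1 * (W3 y + 1)
  omega

noncomputable def g2 (y : Y2) : List (Lf ℝ) :=
  match sample y.1.1.2.2 with
  | [] => []
  | a :: t => g3 (y, a, t)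

noncomputable def W2 (y : Y2) : ℕ := y.1.1.2.2.length +
  (match sample y.1.1.2.2 with
  | [] => 0
  | a :: t => W3 (y, a, t))

theorem cb_g2 (h_SMP : T_C_SMP) (h_DCO : T_C_DCO) : CB g2 W2 := by
  have e1 : CB (fun y : Y2 => y.1.1.2.2) (fun _ => 0) :=
    c0 CB.snd (c0 CB.snd (c0 CB.fst CB.fst))
  have h := CB.comp h_SMP.2 e1
  have h2 := p_CSL Y2 (Lf ℝ) (List (Lf ℝ)) _ _ _ _ _ _ h (p_CON (Lf ℝ) Y2).2.1 (cb_g3 h_DCO)
  refine (CB.congr h2 (g := g2) fun y => by
    unfold g2; cases sample y.1.1.2.2 <;> rfl).mono 1 fun y => ?_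
  unfold W2
  cases sample y.1.1.2.2 <;> simp only <;> omega

noncomputable def g1 (y : X × TR ℝ) : List (Lf ℝ) :=
  match build (sample y.1.2.2) with
  | none => []
  | some ct => g2 (y, ct)

noncomputable def W1 (y : X × TR ℝ) : ℕ := 2 * y.1.2.2.length +
  (match build (sample y.1.2.2) with
  | none => 0
  | some ct => W2 (y, ct))

theorem cb_g1 (h_BLD : T_C_BLD) (h_SMP : T_C_SMP) (h_DCO : T_C_DCO) : CB g1 W1 := by
  have e1 : CB (fun y : X × TR ℝ => y.1.2.2) (fun _ => 0) := c0 CB.snd (c0 CB.snd CB.fst)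
  have h := CB.comp h_BLD.2 (CB.comp h_SMP.2 e1)
  have h2 := p_CSO (X × TR ℝ) (TR ℝ) (List (Lf ℝ)) _ _ _ _ _ _ h (p_CON (Lf ℝ) (X × TR ℝ)).2.1
    (cb_g2 h_SMP h_DCO)
  refine (CB.congr h2 (g := g1) fun y => by
    unfold g1; cases build (sample y.1.2.2) <;> rfl).mono 1 fun y => ?_
  unfold W1
  have := sample_length y.1.2.2
  cases build (sample y.1.2.2) <;> simp only <;> omega

noncomputable def g0 (x : X) : List (Lf ℝ) :=
  match build x.2.2 with
  | none => []
  | some ft => g1 (x, ft)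

noncomputable def W0 (x : X) : ℕ := x.2.2.length +
  (match build x.2.2 with
  | none => 0
  | some ft => W1 (x, ft))

theorem cb_g0 (h_BLD : T_C_BLD) (h_SMP : T_C_SMP) (h_DCO : T_C_DCO) : CB g0 W0 := by
  have e1 : CB (fun y : X => y.2.2) (fun _ => 0) := c0 CB.snd CB.snd
  have h := CB.comp h_BLD.2 e1
  have h2 := p_CSO X (TR ℝ) (List (Lf ℝ)) _ _ _ _ _ _ h (p_CON (Lf ℝ) X).2.1
    (cb_g1 h_BLD h_SMP h_DCO)
  refine (CB.congr h2 (g := g0) fun y => by
    unfold g0; cases build y.2.2 <;> rfl).mono 1 fun y => ?_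
  unfold W0
  cases build y.2.2 <;> simp only <;> omega

theorem g0_eq (x : X) : g0 x = levC x.1 x.2.1 x.2.2 := by
  unfold g0 g1 g2 levC
  cases h1 : build x.2.2 with
  | none => rfl
  | some ft =>
    simp only
    cases h2 : build (sample x.2.2) with
    | none => rfl
    | some ct =>
      simp only
      cases h3 : sample x.2.2 with
      | nil => rfl
      | cons a t => rfl

theorem dep_le (h_A : T_A_BLD) (l : List (Lf ℝ)) (t : TR ℝ) (h : build l = some t) :
    t.dep ≤ Nat.clog 2 l.length := by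
  by_cases hl : l = []
  · rw [hl, h_A.1] at h
    cases h
  · obtain ⟨t', ht', -, -, hd⟩ := h_A.2 l hl
    rw [ht'] at h
    cases h
    exact hd

end CLEV_

open CLEV_ in
theorem p_C_LEV (h_BLD : T_C_BLD) (h_SMP : T_C_SMP) (h_DCO : T_C_DCO) (h_A_BLD : T_A_BLD) :
    T_C_LEV := by
  refine ((cb_g0 h_BLD h_SMP h_DCO).congr g0_eq).mono 6 fun x => ?_
  obtain ⟨n, hn⟩ : ∃ n, n = x.2.2.length := ⟨_, rfl⟩
  obtain ⟨c, hc⟩ : ∃ c, c = cC x.1 x.2.1 := ⟨_, rfl⟩
  obtain ⟨k, hk⟩ : ∃ k, k = Nat.clog 2 n := ⟨_, rfl⟩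
  have key : W0 x ≤ 4 * n + (n + 1) * (c + 2 * (k + 1) ^ 2 + 1) := by
    unfold W0
    cases h1 : build x.2.2 with
    | none =>
      simp only
      have := Nat.zero_le ((n + 1) * (c + 2 * (k + 1) ^ 2 + 1))
      omega
    | some ft =>
      simp only
      unfold W1
      simp only
      cases h2 : build (sample x.2.2) with
      | none =>
        simp only
        have := Nat.zero_le ((n + 1) * (c + 2 * (k + 1) ^ 2 + 1))
        omega
      | some ct =>
        simp only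
        unfold W2
        simp only
        cases h3 : sample x.2.2 with
        | nil =>
          simp only
          have := Nat.zero_le ((n + 1) * (c + 2 * (k + 1) ^ 2 + 1))
          omega
        | cons a t =>
          simp only
          unfold W3
          simp only
          have hs := sample_length x.2.2
          have d1 : ft.dep ≤ k := by
            rw [hk, hn]; exact dep_le h_A_BLD _ _ h1
          have d2 : ct.dep ≤ k := by
            rw [hk, hn]
            exact (dep_le h_A_BLD _ _ h2).trans (Nat.clog_mono_right 2 hs)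
          rw [h3, List.length_cons] at hs
          have e1 : (ft.dep + 1) ^ 2 ≤ (k + 1) ^ 2 := Nat.pow_le_pow_left (by omega) 2
          have e2 : (ct.dep + 1) ^ 2 ≤ (k + 1) ^ 2 := Nat.pow_le_pow_left (by omega) 2
          have e3 : (t.length + 1) * (c + (ft.dep + 1) ^ 2 + (ct.dep + 1) ^ 2 + 1) ≤
              (n + 1) * (c + 2 * (k + 1) ^ 2 + 1) :=
            Nat.mul_le_mul (by omega) (by omega)
          rw [← hn, ← hc]
          omega
  refine key.trans ?_
  have e4 : (n + 1) * (c + 2 * (k + 1) ^ 2 + 1) ≤ 2 * ((n + 1) * (c + (k + 1) ^ 2 + 1)) := by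
    nlinarith [Nat.zero_le ((n + 1) * c)]
  have e5 : n + 1 ≤ (n + 1) * (c + (k + 1) ^ 2 + 1) := Nat.le_mul_of_pos_right _ (by omega)
  show _ ≤ 6 * ((x.2.2.length + 1) * (cC x.1 x.2.1 + (Nat.clog 2 x.2.2.length + 1) ^ 2 + 1) + 1)
  rw [← hn, ← hc, ← hk]
  omega

end Pool.Agent.EVD
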