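import Pool.Agent.EVD.TC
import Pool.Agent.EVD.P_RS1
import Pool.Agent.EVD.P_CSL
import Pool.Agent.EVD.P_CON
import Pool.Agent.EVD.P_FLD
import Pool.Agent.EVD.P_CTR
import Pool.Agent.EVD.P_INJ

/-! # EVD: time of `splitLast` and `rootQ` (`T_C_ROO`) -/

set_option autoImplicit false

namespace Pool.Agent.EVD

namespace CROO_

/-! ## splitLast -/

/-- case analysis of `splitLast` -/
noncomputable def qS (x : Lf ℝ × List (Lf ℝ)) :
    (List (Lf ℝ) × Lf ℝ) ⊕ ((Lf ℝ × List (Lf ℝ)) × Lf ℝ) :=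
  match x.2 with
  | [] => Sum.inl ([], x.1)
  | b :: t => Sum.inr ((b, t), x.1)

theorem cb_qS : CB qS (fun _ => 0) := by
  have h1 : CB (fun x : Lf ℝ × List (Lf ℝ) =>
      (Sum.inl (([] : List (Lf ℝ)), x.1) :
        (List (Lf ℝ) × Lf ℝ) ⊕ ((Lf ℝ × List (Lf ℝ)) × Lf ℝ))) (fun _ => 0) :=
    CB.comp (p_INJ (List (Lf ℝ) × Lf ℝ) ((Lf ℝ × List (Lf ℝ)) × Lf ℝ)).1
      (CB.pair (p_CON (Lf ℝ) (Lf ℝ × List (Lf ℝ))).2.1 CB.fst)
  have h2 : CB (fun z : (Lf ℝ × List (Lf ℝ)) × Lf ℝ × List (Lf ℝ) =>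
      (Sum.inr (z.2, z.1.1) :
        (List (Lf ℝ) × Lf ℝ) ⊕ ((Lf ℝ × List (Lf ℝ)) × Lf ℝ))) (fun _ => 0) :=
    CB.comp (p_INJ (List (Lf ℝ) × Lf ℝ) ((Lf ℝ × List (Lf ℝ)) × Lf ℝ)).2
      (CB.pair CB.snd (CB.comp CB.fst CB.fst))
  have h := p_CSL _ _ _ (fun x : Lf ℝ × List (Lf ℝ) => x.2) _ _ _ _ _ CB.snd h1 h2
  refine (h.mono 1 (fun x => ?_)).congr (fun x => ?_)
  · split <;> omega
  · rcases x with ⟨a, _ | ⟨b, t⟩⟩ <;> rfl

theorem cb_splitLast :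
    CB (fun x : Lf ℝ × List (Lf ℝ) => splitLast x.1 x.2) (fun x => x.2.length) := by
  have hc : CB (fun z : Lf ℝ × List (Lf ℝ) × Lf ℝ => ((z.1 :: z.2.1), z.2.2)) (fun _ => 0) :=
    CB.pair (CB.comp (p_CON (Lf ℝ) Unit).1 (CB.pair CB.fst (CB.comp CB.fst CB.snd)))
      (CB.comp CB.snd CB.snd)
  refine p_RS1 _ _ _ (fun x : Lf ℝ × List (Lf ℝ) => splitLast x.1 x.2) qS _ _ _ _ cb_qS hc
    ?_ ?_ ?_
  · rintro ⟨a, _ | ⟨b, t⟩⟩ <;> rfl
  · intro x b _
    exact Nat.zero_le _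
  · rintro ⟨a, _ | ⟨b, t⟩⟩ y z h
    · cases h
    · cases h
      simp

theorem splitLast_len (a : Lf ℝ) (l : List (Lf ℝ)) : (splitLast a l).1.length = l.length := by
  induction l generalizing a with
  | nil => rfl
  | cons b t ih => simp [splitLast, ih]

/-! ## rootQ -/

abbrev X : Type := List (Slot ℝ)
abbrev Y : Type := X × Slot ℝ × List (Slot ℝ)
abbrev Z : Type := Y × Lf ℝ × List (Lf ℝ)
abbrev V : Type := Z × Lf ℝ × List (Lf ℝ)

theorem cb_main (h_MK : T_C_MK) (h_PAR : T_C_PAR) :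
    CB (fun v : V => mk (consO v.1.1.2.1.part (partsOf v.1.1.2.2)) (lowT v.1.1.2.2) none
        (splitLast v.2.1 v.2.2).2.s (splitLast v.2.1 v.2.2).1 v.1.2.1.s none v.1.2.1.s)
      (fun v => 2 ^ v.2.2.length *
        (cC (consO v.1.1.2.1.part (partsOf v.1.1.2.2)) (lowT v.1.1.2.2) + 1) +
        v.1.1.2.2.length) := by
  have hrest : CB (fun v : V => v.1.1.2.2) (fun _ => 0) :=
    CB.comp CB.snd (CB.comp CB.snd (CB.comp CB.fst CB.fst))
  have hslot : CB (fun v : V => v.1.1.2.1) (fun _ => 0) :=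
    CB.comp CB.fst (CB.comp CB.snd (CB.comp CB.fst CB.fst))
  have hpart : CB (fun v : V => v.1.1.2.1.part) (fun _ => 0) :=
    CB.comp p_FLD.2.2.2.2.2.2.2.2.1 hslot
  have hparts : CB (fun v : V => partsOf v.1.1.2.2) (fun v => v.1.1.2.2.length) :=
    (CB.comp h_PAR.2.1 hrest).mono 1 (fun v => by omega)
  have hcons : CB (fun v : V => consO v.1.1.2.1.part (partsOf v.1.1.2.2))
      (fun v => v.1.1.2.2.length) :=
    (CB.comp h_PAR.1 (CB.pair hpart hparts)).mono 1 (fun v => by omega)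
  have hlowT : CB (fun v : V => lowT v.1.1.2.2) (fun _ => 0) :=
    CB.comp h_PAR.2.2.2 hrest
  have hsl : CB (fun v : V => splitLast v.2.1 v.2.2) (fun v => v.2.2.length) :=
    (CB.comp cb_splitLast CB.snd).mono 1 (fun v => by omega)
  have hsl1 : CB (fun v : V => (splitLast v.2.1 v.2.2).1) (fun v => v.2.2.length) :=
    (CB.comp CB.fst hsl).mono 1 (fun v => by omega)
  have hsl2 : CB (fun v : V => (splitLast v.2.1 v.2.2).2.s) (fun v => v.2.2.length) :=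
    (CB.comp p_FLD.1 (CB.comp CB.snd hsl)).mono 1 (fun v => by omega)
  have has : CB (fun v : V => v.1.2.1.s) (fun _ => 0) :=
    CB.comp p_FLD.1 (CB.comp CB.fst (CB.comp CB.snd CB.fst))
  have hnone : CB (fun _ : V => (none : Option ℝ)) (fun _ => 0) := (p_CON ℝ V).2.2.2
  have harg := CB.pair (CB.pair hcons (CB.pair hlowT (CB.pair hnone hsl2)))
    (CB.pair hsl1 (CB.pair has (CB.pair hnone has)))
  refine (CB.comp h_MK harg).mono 3 (fun v => ?_)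
  dsimp only
  rw [splitLast_len]
  have h1 : v.2.2.length < 2 ^ v.2.2.length := Nat.lt_two_pow_self
  have h2 : 2 ^ v.2.2.length ≤ 2 ^ v.2.2.length *
      (cC (consO v.1.1.2.1.part (partsOf v.1.1.2.2)) (lowT v.1.1.2.2) + 1) :=
    Nat.le_mul_of_pos_right _ (Nat.succ_pos _)
  omega

end CROO_

open CROO_

theorem p_C_ROO (h_MK : T_C_MK) (h_PAR : T_C_PAR) : T_C_ROO := by
  refine ⟨cb_splitLast, ?_⟩
  have hcand : CB (fun z : Z => QT.cand z.2.1.s QT.stop) (fun _ => 0) :=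
    CB.comp p_CTR.2.2.1 (CB.pair (CB.comp p_FLD.1 (CB.comp CB.fst CB.snd))
      (CB.nilv QT.stop rfl))
  have h2 := p_CSL Z (Lf ℝ) (QT ℝ) (fun z => z.2.2) _ _ _ _ _ (CB.comp CB.snd CB.snd) hcand
    (cb_main h_MK h_PAR)
  have h1 := p_CSL Y (Lf ℝ) (QT ℝ) (fun y => y.2.1.F) (fun _ => QT.stop) _ _ _ _
    (CB.comp p_FLD.2.2.2.2.2.2.2.2.2.1 (CB.comp CB.fst CB.snd)) (CB.nilv QT.stop rfl) h2
  have h0 := p_CSL X (Slot ℝ) (QT ℝ) (fun x => x) (fun _ => QT.stop) _ _ _ _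
    CB.id (CB.nilv QT.stop rfl) h1
  refine (h0.mono 2 (fun x => ?_)).congr (fun x => ?_)
  · rcases x with _ | ⟨s, rest⟩
    · simp
    · dsimp only
      rcases hF : s.F with _ | ⟨a, _ | ⟨b, t⟩⟩
      · simp
      · simp
      · simp only [rT, hF, List.length_cons, zero_add]
        have h3 : 2 ^ t.length ≤ 2 ^ (t.length + 1 + 1) :=
          Nat.pow_le_pow_right (by norm_num) (by omega)
        have h4 : 2 ^ t.length * (cC (consO s.part (partsOf rest)) (lowT rest) + 1) ≤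
            2 ^ (t.length + 1 + 1) * (cC (consO s.part (partsOf rest)) (lowT rest) + 1) :=
          Nat.mul_le_mul_right _ h3
        refine (Nat.add_le_add_right h4 rest.length).trans ?_
        omega
  · rcases x with _ | ⟨s, rest⟩
    · rfl
    · dsimp only [rootQ]
      rcases hF : s.F with _ | ⟨a, _ | ⟨b, t⟩⟩ <;> rfl

end Pool.Agent.EVD
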