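import Pool.Agent.EVD.TN

/-! # EVD: programs are deterministic -/

namespace Pool.Agent.EVD

theorem Run.det {b p : Prog} {x y : Val} {m : ℕ} (h : Run b p x y m) :
    ∀ {z : Val} {n : ℕ}, Run b p x z n → y = z ∧ m = n := by
  induction h with
  | prim b p x y hp =>
    intro z n h'
    cases h' with
    | prim _ _ _ _ hq =>
      rw [hp] at hq
      exact ⟨Option.some.inj hq, rfl⟩
    | comp => simp [EVD.prim] at hp
    | fork => simp [EVD.prim] at hp
    | condT => simp [EVD.prim] at hp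
    | condF => simp [EVD.prim] at hp
    | fix => simp [EVD.prim] at hp
    | self => simp [EVD.prim] at hp
  | comp b p q x y z m n _ _ ih1 ih2 =>
    intro z' n' h'
    cases h' with
    | prim _ _ _ _ hq => simp [EVD.prim] at hq
    | comp _ _ _ _ _ _ _ _ h1 h2 =>
      obtain ⟨rfl, rfl⟩ := ih1 h1
      obtain ⟨rfl, rfl⟩ := ih2 h2
      exact ⟨rfl, rfl⟩
  | fork b p q x y z m n _ _ ih1 ih2 =>
    intro z' n' h'
    cases h' with
    | prim _ _ _ _ hq => simp [EVD.prim] at hq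
    | fork _ _ _ _ _ _ _ _ h1 h2 =>
      obtain ⟨rfl, rfl⟩ := ih1 h1
      obtain ⟨rfl, rfl⟩ := ih2 h2
      exact ⟨rfl, rfl⟩
  | condT b t p q x u v y m n _ _ ih1 ih2 =>
    intro z' n' h'
    cases h' with
    | prim _ _ _ _ hq => simp [EVD.prim] at hq
    | condT _ _ _ _ _ _ _ _ _ _ h1 h2 =>
      obtain ⟨_, rfl⟩ := ih1 h1
      obtain ⟨rfl, rfl⟩ := ih2 h2
      exact ⟨rfl, rfl⟩
    | condF _ _ _ _ _ _ _ _ h1 h2 =>
      exact absurd (ih1 h1).1 (fun h => Val.noConfusion h)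
  | condF b t p q x y m n _ _ ih1 ih2 =>
    intro z' n' h'
    cases h' with
    | prim _ _ _ _ hq => simp [EVD.prim] at hq
    | condT _ _ _ _ _ _ _ _ _ _ h1 h2 =>
      exact absurd (ih1 h1).1 (fun h => Val.noConfusion h)
    | condF _ _ _ _ _ _ _ _ h1 h2 =>
      obtain ⟨_, rfl⟩ := ih1 h1
      obtain ⟨rfl, rfl⟩ := ih2 h2
      exact ⟨rfl, rfl⟩
  | fix b p x y n _ ih =>
    intro z' n' h'
    cases h' with
    | prim _ _ _ _ hq => simp [EVD.prim] at hq
    | fix _ _ _ _ _ h1 =>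
      obtain ⟨rfl, rfl⟩ := ih h1
      exact ⟨rfl, rfl⟩
  | self b x y n _ ih =>
    intro z' n' h'
    cases h' with
    | prim _ _ _ _ hq => simp [EVD.prim] at hq
    | self _ _ _ _ h1 =>
      obtain ⟨rfl, rfl⟩ := ih h1
      exact ⟨rfl, rfl⟩

theorem p_DETR : T_DETR := fun _ _ _ _ _ _ _ h h' => h.det h'

end Pool.Agent.EVD
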