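import Pool.Agent.EVD.TN

/-! # EVD: assembly of the main statement -/

namespace Pool.Agent.EVD

namespace MAIN_

theorem conv_pre {m : ℕ} {p : ℕ → ℝ × ℝ} (hinj : ∀ i < m, ∀ j < m, p i = p j → i = j)
    (hconv : ∀ k ≤ m, ∀ i < k, p i ∉ convexHull ℝ {x | ∃ j < k, j ≠ i ∧ p j = x}) :
    ∀ k ≤ m, ConvPos (pre p k) := by
  rintro k hk x ⟨i, hi, rfl⟩ hx
  refine hconv k hk i hi ?_
  have h : pre p k \ {p i} = {x | ∃ j < k, j ≠ i ∧ p j = x} := by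
    ext y
    constructor
    · rintro ⟨⟨j, hj, rfl⟩, hy⟩
      exact ⟨j, hj, fun h => hy (by rw [h]; rfl), rfl⟩
    · rintro ⟨j, hj, hji, rfl⟩
      exact ⟨⟨j, hj, rfl⟩, fun h => hji (hinj j (by omega) i (by omega) h)⟩
  rwa [h] at hx

theorem log_pow_le {a C : ℕ} (h : 9 ≤ C) (n : ℕ) : C * n * (a + 1) ^ 9 ≤ C * n * (a + 1) ^ C :=
  Nat.mul_le_mul_left _ (Nat.pow_le_pow_right (Nat.succ_pos _) h)

end MAIN_

open MAIN_ in
/-- the main statement with the initial value `nil` -/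
theorem main_nil (h_INT : T_C_INT) (h_QRY : T_C_QRY) (h_SUM : T_N_SUM) (h_SEQ : T_N_SEQ)
    (h_DEP : T_N_DEP) (h_TQ : T_TQ) (h_CS : T_N_CS) :
    ∃ (ins qry : Prog) (C : ℕ), ∀ (m : ℕ) (p : ℕ → ℝ × ℝ),
    (∀ i < m, ∀ j < m, p i = p j → i = j) →
    (∀ k ≤ m, ∀ i < k, p i ∉ convexHull ℝ {x | ∃ j < k, j ≠ i ∧ p j = x}) →
    ∃ (D : ℕ → Val) (t : ℕ → ℕ), D 0 = Val.nil ∧
      (∀ k < m, Run Prog.nil ins (Val.pair (D k) (pt (p k))) (D (k + 1)) (t k)) ∧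
      (∀ n ≤ m, ∑ k ∈ Finset.range n, t k ≤ C * n * (Nat.log 2 n + 1) ^ C) ∧
      ∀ k ≤ m, 1 ≤ k → ∀ q : ℝ × ℝ, ∃ i < k, ∃ s ≤ C * (Nat.log 2 k + 1),
        Run Prog.nil qry (Val.pair (D k) (pt q)) (pt (p i)) s ∧
        ∀ j < k, (q.1 - (p i).1) ^ 2 + (q.2 - (p i).2) ^ 2 ≤
          (q.1 - (p j).1) ^ 2 + (q.2 - (p j).2) ^ 2 := by
  classical
  obtain ⟨ins, K, hins⟩ := h_INT
  obtain ⟨qry, L, hqry⟩ := h_QRY
  obtain ⟨C₀, hsum⟩ := h_SUM
  refine ⟨ins, Prog.comp Prog.fst qry, K * (C₀ + 1) + 101 * L + 11,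
    fun m p hinj hconv => ?_⟩
  have hcp := conv_pre hinj hconv
  have hseq := h_SEQ m p hinj hcp
  have hrun : ∀ k, ∃ n, n ≤ K * (tT (stt p k) (p k) + 1) ∧
      Run Prog.nil ins (Val.pair (enc (stt p k)) (pt (p k))) (enc (stt p (k + 1))) n :=
    fun k => hins Prog.nil (stt p k, p k)
  choose t ht hrun using hrun
  refine ⟨fun k => enc (stt p k), t, rfl, fun k _ => hrun k, fun n hn => ?_,
    fun k hk hk1 q => ?_⟩
  · have h1 := hsum n p (fun i hi j hj => hinj i (by omega) j (by omega))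
      (fun k hk => hcp k (by omega))
    calc ∑ k ∈ Finset.range n, t k
        ≤ ∑ k ∈ Finset.range n, K * (tT (stt p k) (p k) + 1) :=
          Finset.sum_le_sum fun k _ => ht k
      _ = K * (∑ k ∈ Finset.range n, tT (stt p k) (p k) + n) := by
          rw [← Finset.mul_sum, Finset.sum_add_distrib, Finset.sum_const, Finset.card_range,
            smul_eq_mul, mul_one]
      _ ≤ K * (C₀ * n * (Nat.log 2 n + 1) ^ 9 + n * (Nat.log 2 n + 1) ^ 9) := by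
          refine Nat.mul_le_mul_left _ (add_le_add h1 ?_)
          exact Nat.le_mul_of_pos_right _ (pow_pos (Nat.succ_pos _) _)
      _ = (K * (C₀ + 1)) * n * (Nat.log 2 n + 1) ^ 9 := by ring
      _ ≤ (K * (C₀ + 1) + 101 * L + 11) * n * (Nat.log 2 n + 1) ^ 9 :=
          Nat.mul_le_mul_right _ (Nat.mul_le_mul_right _ (by omega))
      _ ≤ _ := log_pow_le (by omega) n
  · obtain ⟨hok, hfin, hcard⟩ := hseq k hk
    have hne : (pre p k).Nonempty := ⟨p 0, 0, by omega, rfl⟩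
    obtain ⟨r, hr1, ⟨i, hi, rfl⟩, hr3⟩ :=
      h_TQ COK (stt p k) (pre p k) q h_CS hok hfin hne (hcp k hk)
    obtain ⟨s, hs, hs'⟩ := hqry Prog.nil (stt p k, q)
    have hdep := h_DEP (stt p k) (pre p k) hok hfin hne
    rw [hcard] at hdep
    refine ⟨i, hi, s + 1 + 1, ?_, ?_, fun j hj => ?_⟩
    · have h2 : L * (dT (stt p k) + 1) ≤ L * (101 * (Nat.log 2 k + 1)) :=
        Nat.mul_le_mul_left _ (by omega)
      have h3 : s ≤ L * (101 * (Nat.log 2 k + 1)) := hs.trans h2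
      nlinarith [Nat.zero_le (K * (C₀ + 1) * (Nat.log 2 k + 1)), Nat.zero_le (Nat.log 2 k)]
    · refine Run.comp _ _ _ _ _ _ _ _ hs' (Run.prim _ _ _ _ ?_)
      show prim Prog.fst (enc (qryT (stt p k) q)) = some (pt (p i))
      rw [hr1]
      rfl
    · have h4 := hr3 (p j) ⟨j, hj, rfl⟩
      simp only [dsq] at h4
      nlinarith [h4]

theorem p_MAIN (h_INT : T_C_INT) (h_QRY : T_C_QRY) (h_SUM : T_N_SUM) (h_SEQ : T_N_SEQ)
    (h_DEP : T_N_DEP) (h_TQ : T_TQ) (h_CS : T_N_CS) : T_MAIN := by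
  obtain ⟨ins, qry, C, h⟩ := main_nil h_INT h_QRY h_SUM h_SEQ h_DEP h_TQ h_CS
  exact ⟨Val.nil, ins, qry, C, h⟩

end Pool.Agent.EVD
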