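import Pool.Agent.EVD.TABase

/-! # EVD targets, section A: tree functions, tangents, alive test, death height

Base lemmas (proved, in `TABase.lean`): `hle_refl hle_trans hle_total`, `live_mono`,
`live_false_mono` (for a cut, smaller height and live), `btr_mem btr_le_left btr_le_right`,
`toL_ne_nil`, `Srt.eq` (in a sorted list the abscissa determines the element), `TreeOK.split` (a node
splits into good trees, `am = btr l.am r.am`, `fx = l.fx`, everything in `l` left of everything in `r`),
`TR.WF.am_spec` (`am` is a leaf of minimal height), `TreeOK.fx_spec` (`fx` is the minimal abscissa of the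
leaves and is attained), `TreeOK.dead` (`am` dead: all dead), `dd`, `cc_lt_iff cc_le_iff le_cc_iff
lt_cc_iff cc_eq_iff`, `dd_swap12 dd_swap23 dd_rot dd_four`, `Chn.eq Chn.pos Chn.mono`, `cut_cutT`,
`cutT_some`, `cutT_some_false`, `Al.mono`. The functions are in `Algo.lean`. -/

set_option autoImplicit false

namespace Pool.Agent.EVD

/-! ## A1: the tree functions -/

/-- `o` is the last live element of the list `L` with the property `Q` (`none`: there is no such
element) -/
def IsLastS (D : ℝ → Bool) (Q : Lf ℝ → Prop) (L : List (Lf ℝ)) : Option (Lf ℝ) → Prop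
  | none => ∀ d ∈ L, Q d → live D d.h = false
  | some e => e ∈ L ∧ Q e ∧ live D e.h = true ∧ ∀ d ∈ L, Q d → e.s.1 < d.s.1 → live D d.h = false

/-- `o` is the first live element of the list `L` with the property `Q` -/
def IsFirstS (D : ℝ → Bool) (Q : Lf ℝ → Prop) (L : List (Lf ℝ)) : Option (Lf ℝ) → Prop
  | none => ∀ d ∈ L, Q d → live D d.h = false
  | some e => e ∈ L ∧ Q e ∧ live D e.h = true ∧ ∀ d ∈ L, Q d → d.s.1 < e.s.1 → live D d.h = false

/-- `o` is an element of minimal height of the list `L` with the property `Q` -/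
def IsMinS (Q : Lf ℝ → Prop) (L : List (Lf ℝ)) : Option (Lf ℝ) → Prop
  | none => ∀ d ∈ L, ¬ Q d
  | some e => e ∈ L ∧ Q e ∧ ∀ d ∈ L, Q d → hle e.h d.h = true

/-- Induction on `t` (`TreeOK.split`). Node: if `am` is dead, all leaves are dead (`TreeOK.dead`).
Otherwise: `lastA` looks first into `r`, whose elements are to the right of all elements of `l`; same for
`firstA` with `l`. -/
def T_A_LAST : Prop := ∀ (D : ℝ → Bool) (t : TR ℝ), Cut D → TreeOK t →
  IsLastS D (fun _ => True) t.toL (lastA D t) ∧ IsFirstS D (fun _ => True) t.toL (firstA D t)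

/-- Induction on `t` with `T_A_LAST`. Node, `lastLt`: if `r.fx < x`, then all elements of `l` are `< r.fx < x`
(an element of `r` has the abscissa `r.fx`, `TreeOK.fx_spec`), so the last live element `< x` is the one
found in `r`, otherwise `lastA D l`. If `x ≤ r.fx`, no element of `r` is `< x`. `firstGt`: if `x < r.fx` all
elements of `r` are `> x`; otherwise no element of `l` is `> x`. -/
def T_A_LT : Prop := ∀ (D : ℝ → Bool) (x : ℝ) (t : TR ℝ), Cut D → TreeOK t →
  IsLastS D (fun d => d.s.1 < x) t.toL (lastLt D x t) ∧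
  IsFirstS D (fun d => x < d.s.1) t.toL (firstGt D x t)

/-- Induction on `t` (first `minGt`, `minLt`, then `minIn`). Node, `minGt`: if `x < r.fx` all of `r` counts, its
minimum is `r.am` (`TR.WF.am_spec`), `btr` takes the smaller one; otherwise no element of `l` is `> x`
(`l < r.fx ≤ x`). `minLt`: mirror image. `minIn x x'`: if `r.fx < x'` and `x < r.fx`: in `l` the condition is
`x < ·` (`l < r.fx < x'`), in `r` it is `· < x'`; if `r.fx < x'` and `r.fx ≤ x`: nothing in `l`; if `x' ≤ r.fx`:
nothing in `r`. -/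
def T_A_MIN : Prop := ∀ (t : TR ℝ) (x x' : ℝ), TreeOK t →
  IsMinS (fun d => x < d.s.1) t.toL (minGt x t) ∧ IsMinS (fun d => d.s.1 < x) t.toL (minLt x t) ∧
  IsMinS (fun d => x < d.s.1 ∧ d.s.1 < x') t.toL (minIn x x' t)

/-- Induction on `n`, generalising `x`, with `T_A_LT` (`firstGt D x t` is the first live element `> x`):
`none`: the filtered list is empty. `some e`: if `e.s.1 < x'`, the filtered list for `x` is `e ::` the
filtered list for `e.s.1` (the list is sorted; lemma by induction on the list: if `e ∈ L`, `L` sorted, `Q e`,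
and no element with `Q` is left of `e`, then `L.filter Q = e :: L.filter (Q and right of e)`). If not
`e.s.1 < x'`, every live element `> x` is `≥ e.s.1 ≥ x'`: the filtered list is empty. -/
def T_A_NXT : Prop := ∀ (D : ℝ → Bool) (t : TR ℝ) (x' : ℝ) (n : ℕ) (x : ℝ), Cut D → TreeOK t →
  nexts D t x' n x =
    (t.toL.filter (fun d => decide (x < d.s.1) && (decide (d.s.1 < x') && live D d.h))).take n

/-- For a list `T` of trees, all `WF` and of depth `≤ k`, `T ≠ []`: `buildAll T = some t` with `t.WF`,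
`t.toL` = concatenation of the leaf lists, `t.dep ≤ k + Nat.clog 2 T.length`. Strong induction on the length
(`buildAll.induct`): for length `≥ 2`, `pairUp T` has length `(T.length + 1) / 2` (`pairUp_length`), its trees
are `WF` with depth `≤ k + 1` and the same concatenation, and
`Nat.clog 2 n = Nat.clog 2 ((n + 1) / 2) + 1` for `2 ≤ n` (`Nat.clog_of_two_le`). Start: leaves, `k = 0`. -/
def T_A_BLD : Prop := (build ([] : List (Lf ℝ)) = none) ∧ ∀ l : List (Lf ℝ), l ≠ [] →
  ∃ t, build l = some t ∧ t.WF ∧ t.toL = l ∧ t.dep ≤ Nat.clog 2 l.length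

/-- Induction (`mrg.induct`). -/
def T_A_MRG : Prop := ∀ l m : List P,
  (SrtP l → SrtP m → (∀ a ∈ l, ∀ b ∈ m, a.1 ≠ b.1) → SrtP (mrg l m)) ∧
  (∀ p, p ∈ mrg l m ↔ p ∈ l ∨ p ∈ m) ∧ (mrg l m).length = l.length + m.length

/-! ## A2: optimum of a unimodal preference; tangents -/

/-- no cyclic preferences (`go a b`, for `a` left of `b`: `a` is preferred to `b`) -/
def Tra (go : Lf ℝ → Lf ℝ → Bool) (A : Lf ℝ → Prop) : Prop :=
  ∀ a b c, A a → A b → A c → a.s.1 < b.s.1 → b.s.1 < c.s.1 →
    (go a b = true → go b c = true → go a c = true) ∧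
    (go a b = false → go b c = false → go a c = false)

/-- unimodality -/
def Uni (go : Lf ℝ → Lf ℝ → Bool) (A : Lf ℝ → Prop) : Prop :=
  ∀ a b c, A a → A b → A c → a.s.1 < b.s.1 → b.s.1 < c.s.1 → go a b = true → go b c = true

/-- `o` is preferred to all other elements with the property `A` -/
def Best (go : Lf ℝ → Lf ℝ → Bool) (A : Lf ℝ → Prop) : Option (Lf ℝ) → Prop
  | none => ∀ d, ¬ A d
  | some e => A e ∧ ∀ d, A d →
      (d.s.1 < e.s.1 → go d e = false) ∧ (e.s.1 < d.s.1 → go e d = true)

/-- Induction on `t` with `T_A_LAST`; let `A` = live leaves (`A_l`, `A_r` of the subtrees). Node: `lastA D l`,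
`firstA D r`. If the first is `none`, `A = A_r`; if the second is `none`, `A = A_l`. Otherwise `a` = last of `A_l`,
`b` = first of `A_r`. Case `go a b = true`: for `c ∈ A_r`, `c ≠ b`: `go b c` (`Uni`), so `go a c` (`Tra`); let `e` be the
optimum of `A_l` (not `none`): `e = a` or `e` left of `a` and `go e a`, so `go e c` by `Tra` for all `c ∈ A_r`. Case
`go a b = false`: for `x ∈ A_l`, `x ≠ a`: `go x a = false` (otherwise `Uni` gives `go a b`), so `go x b = false`
(`Tra`); let `e` be the optimum of `A_r`: `e = b` or `go b e = false`, so `go x e = false` for all `x ∈ A_l`.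
(Elements with equal abscissas are equal, `Srt.eq`.) -/
def T_A_TANH : Prop := ∀ (D : ℝ → Bool) (go : Lf ℝ → Lf ℝ → Bool) (t : TR ℝ), Cut D → TreeOK t →
  Tra go (fun d => d ∈ t.toL ∧ live D d.h = true) → Uni go (fun d => d ∈ t.toL ∧ live D d.h = true) →
  Best go (fun d => d ∈ t.toL ∧ live D d.h = true) (tanH D go t)

/-- Induction on `t` with `T_A_TANH`. Node: if `x < r.fx` all leaves of `r` are `> x`: `A = A_l ∪ A_r` where `A_r` =
all live leaves of `r` and `A_l` is to the left of `A_r`. `pick` of the optimum `a` of `A_l` and the optimum `b` of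
`A_r`. If `go a b = true`: for `d ∈ A_r`: `d = b` fine; `d` left of `b`: `go d b = false`, so `go a d = true` (otherwise
`Tra` gives `go a b = false`); `d` right of `b`: `go b d = true`, `Tra`. If `go a b = false`: for `d ∈ A_l`: `d = a`
fine; `d` left of `a`: `go d a = false`, `Tra`; `d` right of `a`: `go a d = true`, so `go d b = false` (otherwise `Tra`
gives `go a b = true`). If `r.fx ≤ x` nothing in `l` is `> x`. Second part: mirror image. -/
def T_A_TANG : Prop := ∀ (D : ℝ → Bool) (go : Lf ℝ → Lf ℝ → Bool) (x : ℝ) (t : TR ℝ), Cut D → TreeOK t →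
  (Tra go (fun d => d ∈ t.toL ∧ x < d.s.1 ∧ live D d.h = true) →
    Uni go (fun d => d ∈ t.toL ∧ x < d.s.1 ∧ live D d.h = true) →
    Best go (fun d => d ∈ t.toL ∧ x < d.s.1 ∧ live D d.h = true) (tanGt D go x t)) ∧
  (Tra go (fun d => d ∈ t.toL ∧ d.s.1 < x ∧ live D d.h = true) →
    Uni go (fun d => d ∈ t.toL ∧ d.s.1 < x ∧ live D d.h = true) →
    Best go (fun d => d ∈ t.toL ∧ d.s.1 < x ∧ live D d.h = true) (tanLt D go x t))

/-- Four points. By `T_MAT` for the set `{p, q, r, s}` there is `y` with `D (cc ..) = true ↔ cc .. < y`, i.e.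
`dd y .. < 0` (`cc_lt_iff`, `Chn.pos`). Then the identities (check: unfold `dd`, `ring`)
`(r.1 - p.1) * dd y p q s = (q.1 - p.1) * dd y p r s + (s.1 - p.1) * dd y p q r`,
`(s.1 - q.1) * dd y p r s = (s.1 - r.1) * dd y p q s + (s.1 - p.1) * dd y q r s`,
`(r.1 - q.1) * dd y p r s = (r.1 - p.1) * dd y q r s + (s.1 - r.1) * dd y p q r`,
`(q.1 - p.1) * dd y q r s = (r.1 - q.1) * dd y p q s - (s.1 - q.1) * dd y p q r`. -/
def T_A_FOUR : Prop := ∀ (S : Set P) (D : ℝ → Bool), Chn S → Cut D → ∀ p ∈ S, ∀ q ∈ S, ∀ r ∈ S, ∀ s ∈ S,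
  p.1 < q.1 → q.1 < r.1 → r.1 < s.1 →
  (D (cc p q r) = true → D (cc p r s) = true → D (cc p q s) = true) ∧
  (D (cc p q r) = false → D (cc p r s) = false → D (cc p q s) = false) ∧
  (D (cc p q s) = true → D (cc q r s) = true → D (cc p r s) = true) ∧
  (D (cc p q s) = false → D (cc q r s) = false → D (cc p r s) = false) ∧
  (D (cc q r s) = true → D (cc p q r) = true → D (cc p r s) = true) ∧
  (D (cc p q r) = true → D (cc p q s) = false → D (cc q r s) = false)

/-- `o` is the right tangent point from `f` over `A`, if there is a site of `A` right of `f` -/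
def OptRo (D : ℝ → Bool) (f : P) (A : Set P) : Option (Lf ℝ) → Prop
  | none => ∀ s ∈ A, s.1 ≤ f.1
  | some c => OptR D f A c.s

/-- `o` is the left tangent point from `f` over `A`, if there is a site of `A` left of `f` -/
def OptLo (D : ℝ → Bool) (f : P) (A : Set P) : Option (Lf ℝ) → Prop
  | none => ∀ s ∈ A, f.1 ≤ s.1
  | some c => OptL D f A c.s

/-- Merging right tangents. Cases on the options. Both `some a`, `some b`: suppose `a.s.1 < b.s.1` and
`D (cc f a b) = true` (`pickU` takes `a`); let `s ∈ A2`, `f.1 < s.1`. `s.1 < a.1`: `D (cc f s b) = false`; if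
`D (cc f s a) = true`, then `D (cc f s b) = true` (first part of `T_A_FOUR` for `f, s, a, b`): contradiction, so
`D (cc f s a) = false`. `s.1 = a.1`: nothing to show. `a.1 < s.1 < b.1`: `D (cc f s b) = false`; if
`D (cc f a s) = false` then `D (cc f a b) = false` (second part for `f, a, s, b`), contradiction. `s = b` fine.
`b.1 < s.1`: `D (cc f b s) = true`, first part for `f, a, b, s`. The case `D (cc f a b) = false` (`pickU` takes `b`) is
similar with `s ∈ A1`: `s.1 < a.1`: second part for `f, s, a, b`; `a.1 < s.1 < b.1`: `D (cc f a s) = true`, if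
`D (cc f s b) = true` the first part gives `D (cc f a b) = true`; `b.1 < s.1`: `D (cc f a s) = true`, if
`D (cc f b s) = false` the second part for `f, a, b, s` gives `D (cc f a s) = false`. If `b.s.1 < a.s.1` exchange the
roles. If `a.s.1 = b.s.1` then `a.s = b.s`. -/
def T_A_PKR : Prop := ∀ (S A1 A2 : Set P) (D : ℝ → Bool) (f : P) (o1 o2 : Option (Lf ℝ)), Chn S → Cut D →
  f ∈ S → A1 ⊆ S → A2 ⊆ S → OptRo D f A1 o1 → OptRo D f A2 o2 →
  OptRo D f (A1 ∪ A2) (pickU (goR D f) o1 o2)

/-- Merging left tangents: mirror image of `T_A_PKR` (`goL D f a b = !D (cc a b f)`, third and fourth part of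
`T_A_FOUR`). `a` left of `b`; `goL` true means `D (cc a b f) = false`, `pickU` takes `a`: for `s ∈ A2`, `s.1 < f.1`:
`b.1 < s.1`: `D (cc b s f) = false`, so `D (cc a s f) = false` (fourth part for `a, b, s, f`); `a.1 < s.1 < b.1`:
`D (cc s b f) = true`, if `D (cc a s f) = true` the third part for `a, s, b, f` gives `D (cc a b f) = true`;
`s.1 < a.1`: `D (cc s b f) = true`, if `D (cc s a f) = false` the fourth part for `s, a, b, f` gives
`D (cc s b f) = false`. `D (cc a b f) = true`, `pickU` takes `b`: for `s ∈ A1`: `s.1 < a.1`: `D (cc s a f) = true`, third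
part for `s, a, b, f`; `a.1 < s.1 < b.1`: `D (cc a s f) = false`, if `D (cc s b f) = false` the fourth part for
`a, s, b, f` gives `D (cc a b f) = false`; `b.1 < s.1`: `D (cc a s f) = false`, if `D (cc b s f) = true` the third part
for `a, b, s, f` gives `D (cc a s f) = true`. -/
def T_A_PKL : Prop := ∀ (S A1 A2 : Set P) (D : ℝ → Bool) (f : P) (o1 o2 : Option (Lf ℝ)), Chn S → Cut D →
  f ∈ S → A1 ⊆ S → A2 ⊆ S → OptLo D f A1 o1 → OptLo D f A2 o2 →
  OptLo D f (A1 ∪ A2) (pickU (goL D f) o1 o2)

/-- Tangents of one part: `T_A_TANG`. `A` = live leaves right of `f`; all sites are in `S`. `Tra (goR D f) A`: first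
two parts of `T_A_FOUR` for `f, a, b, c`. `Uni (goR D f) A`: `b` is live, so alive in `N` (`T_LIV`), so
`D (cc a b c) = true` for `a, b, c ∈ A`; fifth part of `T_A_FOUR` for `f, a, b, c`. `goL`: `A` = live leaves left of `f`;
`Tra`: parts three and four for `a, b, c, f`; `Uni`: `D (cc a b c) = true` and the sixth part for `a, b, c, f`.
`Best` for the leaves is `OptRo`, `OptLo` for the sites (the conditions on `d` depend only on `d.s`). -/
def T_A_ONE : Prop := ∀ (S N : Set P) (D : ℝ → Bool) (f : P) (t : TR ℝ), Chn S → Cut D → f ∈ S → N ⊆ S →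
  PartOK N t →
  OptRo D f {b | ∃ d ∈ t.toL, d.s = b ∧ live D d.h = true} (tanGt D (goR D f) f.1 t) ∧
  OptLo D f {b | ∃ d ∈ t.toL, d.s = b ∧ live D d.h = true} (tanLt D (goL D f) f.1 t)

/-- Induction on `ps`. `S` is finite: finite union of the sites of finite lists. `Al D S s`: `s` is in some part `N`,
`s = d.s`, `d ∈ t.toL`, `IsH N s d.h`; it is alive in `N` (`Al.mono`), so live (`T_LIV`). Last part: `cutT none` is
constantly true, every leaf is live. -/
def T_A_OWN : Prop := ∀ (S : Set P) (ps : List (TR ℝ)), PartsOK S ps → S.Finite ∧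
  (∀ D, Own D ps ⊆ S) ∧ (∀ D, Cut D → ∀ s, Al D S s → s ∈ Own D ps) ∧ Own (cutT none) ps = S

/-- Right tangent over all parts. Induction on `ps` generalising `S'`: `Own D (t :: ts)` is the union of the live
sites of `t` and `Own D ts`; `T_A_ONE`, `T_A_PKR`. Empty list: `Own D [] = ∅`. Second statement: by the first
one all sites of `Own D ps` are `≤ f.1`. Let `s ∈ S'`; it is in a part `N ⊆ S'`; let `m` be the rightmost site of `N`
(finite set), `m = d.s`; `IsH N m d.h` with no `c ∈ N` right of `m` forces `d.h = none`, so `d` is live, `m ∈ Own`,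
`s.1 ≤ m.1 ≤ f.1`. -/
def T_A_TANR : Prop := ∀ (S S' : Set P) (ps : List (TR ℝ)) (D : ℝ → Bool) (f : P), Chn S → f ∈ S → S' ⊆ S →
  PartsOK S' ps → Cut D → OptRo D f (Own D ps) (tanR D f ps) ∧ (tanR D f ps = none → ∀ s ∈ S', s.1 ≤ f.1)

/-- Mirror image of `T_A_TANR`: `T_A_ONE`, `T_A_PKL`, leftmost site of `N`. -/
def T_A_TANL : Prop := ∀ (S S' : Set P) (ps : List (TR ℝ)) (D : ℝ → Bool) (f : P), Chn S → f ∈ S → S' ⊆ S →
  PartsOK S' ps → Cut D → OptLo D f (Own D ps) (tanL D f ps) ∧ (tanL D f ps = none → ∀ s ∈ S', f.1 ≤ s.1)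

/-! ## A3, A4, A5: neighbours, alive test, death height -/

/-- The tangents from a weakly alive site are its alive neighbours. `T_A_TANR`, `T_A_TANL` with `S' = S`,
`T_A_OWN`, `T_TNR`, `T_TNL` with `A = Own (cutT T) ps`, `cut_cutT`. -/
def T_A_NB : Prop := ∀ (S : Set P) (ps : List (TR ℝ)) (T : Option ℝ) (f : P), Chn S → PartsOK S ps → Wal T S f →
  (tanR (cutT T) f ps = none → ∀ s ∈ S, s.1 ≤ f.1) ∧ (tanL (cutT T) f ps = none → ∀ s ∈ S, f.1 ≤ s.1) ∧
  (∀ c, tanR (cutT T) f ps = some c → f.1 < c.s.1 ∧ Al (cutT T) S c.s ∧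
    ∀ s, Al (cutT T) S s → f.1 < s.1 → c.s.1 ≤ s.1) ∧
  (∀ c, tanL (cutT T) f ps = some c → c.s.1 < f.1 ∧ Al (cutT T) S c.s ∧
    ∀ s, Al (cutT T) S s → s.1 < f.1 → s.1 ≤ c.s.1)

/-- Alive test. If one of the tangents is `none` there is no site on that side of `f` (`T_A_TANR`, `T_A_TANL`), `f`
is alive and `aliveB = true`. Otherwise `T_AB` with `A = Own (cutT (some y)) ps` (`T_A_OWN`). -/
def T_A_ALB : Prop := ∀ (S : Set P) (ps : List (TR ℝ)) (f : P) (y : ℝ), Chn S → PartsOK S ps → f ∈ S →
  (aliveB ps f y = true ↔ Al (cutT (some y)) S f)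

/-- Existence and uniqueness of the death height. If there are no sites on one side: `none`. Otherwise the maximum
of the finite nonempty set of the `cc a f c`, `a.1 < f.1 < c.1`. Uniqueness: two maxima are equal, and `none`
excludes `a.1 < f.1 < c.1`. -/
def T_A_EXH : Prop := ∀ (S : Set P) (f : P), S.Finite → f ∈ S → (∃ h, IsH S f h) ∧
  ∀ h h', IsH S f h → IsH S f h' → h = h'

/-- Death height and spine. Cases of `mkLf`. If `tanL (cutT none) f ps = none` there is no site left of `f`
(`T_A_TANL`): `IsH S f none`; same for `tanR`. `SpineOK` is void for `h = none`. Otherwise `some pr`, `some su`;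
there are sites on both sides. `T_A_EXH`: `IsH S f (some h)` (not `none`). Let `D r = !aliveB ps f r`. By `T_A_ALB` and
`T_LIV`: `aliveB ps f r = true ↔ live (cutT (some r)) (some h) = true ↔ h < r`, so `D r = true ↔ r ≤ h`: `Cut D`,
`Near D h`, and `Wal (some h) S f`. `tanL D f ps = some l`, `tanR D f ps = some r` (not `none`, by the second parts of
`T_A_TANL`, `T_A_TANR`) with `OptL`, `OptR` over `A = Own D ps` (`T_A_OWN`). `T_DH`: `cc l f r = h`. So
`IsH S f (some (cc l f r))`. `SpineOK`: `T_SPI` with `l, r, pr, su`; `pr` is the nearest site left of `f`: `OptL` for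
`cutT none` over `Own (cutT none) ps = S`; if `pr.1 < s.1 < f.1` the second clause says `cutT none _ = false`,
absurd; same for `su`. The last hypothesis of `T_SPI` is `T_SUPL`. -/
def T_A_LF : Prop := ∀ (S : Set P) (ps : List (TR ℝ)) (f : P), Chn S → PartsOK S ps → f ∈ S →
  (mkLf ps f).s = f ∧ LfOK S (mkLf ps f)

/-- A part is built from the sorted list `l` of its points and the parts `ps`. `T_A_BLD` for `l.map (mkLf ps)`;
`T_A_LF` gives the sites (`(mkLf ps f).s = f`, so the list is sorted and its sites are `N`) and the heights. -/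
def T_A_PART : Prop := ∀ (N : Set P) (ps : List (TR ℝ)) (l : List P), Chn N → PartsOK N ps → SrtP l →
  (∀ p, p ∈ l ↔ p ∈ N) → l ≠ [] →
  ∃ t, build (l.map (mkLf ps)) = some t ∧ PartOK N t ∧ t.toL = l.map (mkLf ps) ∧
    t.dep ≤ Nat.clog 2 l.length

end Pool.Agent.EVD
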