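import Pool.Agent.EVD.TG

/-! # EVD targets, section T: convex position, two chains -/

namespace Pool.Agent.EVD

/-- convex position: no point is in the convex hull of the others -/
def ConvPos (S : Set P) : Prop := ∀ p ∈ S, p ∉ convexHull ℝ (S \ {p})

/-- positive if `v` is above the line `w e` (for `w.1 < e.1`) -/
noncomputable def Cr (w e v : P) : ℝ :=
  (e.1 - w.1) * (v.2 - w.2) - (v.1 - w.1) * (e.2 - w.2)

/-- lexicographic minimum and maximum -/
def LexM (S : Set P) (w e : P) : Prop :=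
  w ∈ S ∧ e ∈ S ∧ (∀ s ∈ S, lexlt s w = false) ∧ ∀ s ∈ S, lexlt e s = false

/-- what is needed from the structure of one chain -/
structure ChainSpec (CO : CS ℝ → Set P → Prop) : Prop where
  empty : CO emptyC ∅
  ins : ∀ c U p, CO c U → U.Finite → p ∉ U → Chn (insert p U) → CO (insC c p) (insert p U)
  seen : ∀ c U q s, CO c U → IsNN U q s → c.q.Seen q s
  inn : ∀ c U, CO c U → c.q.In U

/-- invariant of the whole structure -/
def TopOK (CO : CS ℝ → Set P → Prop) : Option (Top ℝ) → Set P → Prop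
  | none, S => S = ∅
  | some t, S => LexM S t.w t.e ∧ ∃ U L : Set P, S = {t.w, t.e} ∪ U ∪ L ∧
      (∀ u ∈ U, 0 < Cr t.w t.e u) ∧ (∀ u ∈ L, Cr t.w t.e u < 0) ∧ CO t.up U ∧ CO t.lo (mir '' L)

/-- General form: `m1` lies on the segment `w e`, `m2` on the segment `a c`, `b` on the segment
`m1 m2`; all five points are in `S` and `b` differs from the other four. Then
`b ∈ convexHull ℝ (S \ {b})` (`segment_subset_convexHull`, `Convex.segment_subset` three times). -/
def T_CPG : Prop := ∀ (S : Set P) (w e a c b m1 m2 : P), ConvPos S → w ∈ S → e ∈ S → a ∈ S → c ∈ S → b ∈ S →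
  b ≠ w → b ≠ e → b ≠ a → b ≠ c → m1 ∈ segment ℝ w e → m2 ∈ segment ℝ a c → b ∈ segment ℝ m1 m2 → False

/-- `b` is on or above the line `w e` and on or below the line `a c`, and its abscissa is in both
ranges. Let `m1 = (b.1, w.2 + (b.1 - w.1) / (e.1 - w.1) * (e.2 - w.2))`, the point of the segment `w e` with
abscissa `b.1`, `m2` the same for `a c`. `0 ≤ Cr w e b` says `m1.2 ≤ b.2`, `Cr a c b ≤ 0` says
`b.2 ≤ m2.2`. So `b ∈ segment m1 m2` (same abscissa; if `m1.2 = m2.2` all coincide). `T_CPG`. -/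
def T_CPV : Prop := ∀ (S : Set P) (w e a c b : P), ConvPos S → w ∈ S → e ∈ S → a ∈ S → c ∈ S → b ∈ S →
  b ≠ w → b ≠ e → b ≠ a → b ≠ c → w.1 < e.1 → w.1 ≤ b.1 → b.1 ≤ e.1 → a.1 < c.1 → a.1 ≤ b.1 → b.1 ≤ c.1 →
  0 ≤ Cr w e b → Cr a c b ≤ 0 → False

/-- Same with a point `a` of the same abscissa as `b` (`m2 = a`, `a = c` in `T_CPG`): `b` is between
the line `w e` and `a`. -/
def T_CPW : Prop := ∀ (S : Set P) (w e a b : P), ConvPos S → w ∈ S → e ∈ S → a ∈ S → b ∈ S →
  b ≠ w → b ≠ e → b ≠ a → w.1 < e.1 → w.1 ≤ b.1 → b.1 ≤ e.1 → a.1 = b.1 →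
  ((0 ≤ Cr w e b ∧ b.2 ≤ a.2) ∨ (Cr w e b ≤ 0 ∧ a.2 ≤ b.2)) → False

/-- Facts on `lexlt`: unfold, cases on the comparisons, `linarith`. -/
def T_LEX : Prop :=
  (∀ a b : P, lexlt a b = true ↔ a.1 < b.1 ∨ (a.1 = b.1 ∧ a.2 < b.2)) ∧
  (∀ a b : P, lexlt a b = false → lexlt b a = false → a = b) ∧
  (∀ a b c : P, lexlt a b = true → lexlt b c = true → lexlt a c = true) ∧
  (∀ a b : P, lexlt a b = true → lexlt b a = false) ∧
  (∀ a b : P, lexlt a b = false → a ≠ b → lexlt b a = true)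

/-- `w.1 < e.1`: otherwise all abscissas are equal, `w.2 < v.2 < e.2` (`h2 : T_LEX`), and `v` is on the
segment `w e` (`h1 : T_CPG` with `m1 = m2 = v`, `a = w`, `c = e`). If `Cr w e v = 0`, `w.1 ≤ v.1 ≤ e.1` and `v`
is on the segment `w e`. -/
def T_ONL : Prop := ∀ (S : Set P) (w e v : P), ConvPos S → LexM S w e → v ∈ S → v ≠ w → v ≠ e →
  w.1 < e.1 ∧ w.1 ≤ v.1 ∧ v.1 ≤ e.1 ∧ Cr w e v ≠ 0

/-- The upper part is a chain. `U ⊆ S`, all of `U` strictly above the line `w e` (so different from `w`, `e`;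
`w.1 < e.1` and `w.1 ≤ u.1 ≤ e.1` by `T_ONL`). Equal abscissas of `a ≠ b`: the lower one, say `b`, contradicts
`T_CPW`. Concavity for `a.1 < b.1 < c.1`: `ccB a b c = Cr a c b` (unfold, `ring`); if it were `≤ 0`, `T_CPV`. -/
def T_CHU : Prop := ∀ (S U : Set P) (w e : P), ConvPos S → LexM S w e → U ⊆ S → (∀ u ∈ U, 0 < Cr w e u) → Chn U

/-- The lower part, upside down, is a chain. Same proof: `T_CPW` second alternative; for
`a.1 < b.1 < c.1` in `L`, `ccB (mir a) (mir b) (mir c) = - Cr a c b`; if it were `≤ 0` then `0 ≤ Cr a c b` and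
`Cr w e b < 0`: `T_CPV` with the roles of `w e` and `a c` exchanged. -/
def T_CHL : Prop := ∀ (S L : Set P) (w e : P), ConvPos S → LexM S w e → L ⊆ S → (∀ u ∈ L, Cr w e u < 0) →
  Chn (mir '' L)

/-- New lexicographic minimum `p`: classes do not change. `LexM (insert p S) p e` by `T_LEX`. Let `v ∈ S`,
`0 < Cr w e v`, so `v ≠ w, e`, `v ≠ p`; `w.1 < e.1`, `p.1 ≤ w.1 ≤ v.1 ≤ e.1` (`T_LEX`, `T_ONL`). By `T_ONL` for
`insert p S`, `Cr p e v ≠ 0`. If `Cr p e v < 0`: `v` is above `w e` and below `p e`: `T_CPV` (`a = p`, `c = e`).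
The second part is the same with the roles exchanged. -/
def T_STW : Prop := ∀ (S : Set P) (w e p v : P), ConvPos (insert p S) → LexM S w e → lexlt p w = true → v ∈ S →
  (0 < Cr w e v → 0 < Cr p e v) ∧ (Cr w e v < 0 → Cr p e v < 0)

/-- New lexicographic maximum `p`. Same proof. -/
def T_STE : Prop := ∀ (S : Set P) (w e p v : P), ConvPos (insert p S) → LexM S w e → lexlt e p = true → v ∈ S →
  (0 < Cr w e v → 0 < Cr w p v) ∧ (Cr w e v < 0 → Cr w p v < 0)

/-- A subset of a set in convex position is in convex position (`convexHull_mono`). -/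
def T_CPS : Prop := ∀ S S' : Set P, S' ⊆ S → ConvPos S → ConvPos S'

/-- Insertion keeps the invariant. `t = none`: `S = ∅`, new structure `w = e = p`, `U = L = ∅`. `t = some t`:
(1) `lexlt t.w t.e = false`: then `t.w = t.e` (`T_LEX` and `LexM`), so `U = L = ∅`: `Cr w w u = 0` for all `u`;
`p ≠ t.w`; new extremes `p, t.w` or `t.w, p`. (2) `lexlt p t.w`: new minimum, `LexM (insert p S) p e`; `U`, `L` keep
their classes by `T_STW`; the old `w` is `≠ p, e`, so `Cr p e w ≠ 0` (`T_ONL`), `put` adds it to `U` or to `L`;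
`w ∉ U` because `Cr w e w = 0`, `mir w ∉ mir '' L` for the same reason (`mir` is injective); the enlarged class
is a chain by `T_CHU`, `T_CHL` for `insert p S`. `mir '' (insert w L) = insert (mir w) (mir '' L)`
(`Set.image_insert_eq`). Finiteness of `U`, `L` from `S.Finite`. (3) `lexlt e p`: same with `T_STE`.
(4) otherwise `w`, `e` stay (`p ≠ w, e` because `p ∉ S`), `p` is added to its class. -/
def T_TIN : Prop := ∀ (CO : CS ℝ → Set P → Prop) (t : Option (Top ℝ)) (S : Set P) (p : P), ChainSpec CO →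
  TopOK CO t S → S.Finite → p ∉ S → ConvPos (insert p S) → TopOK CO (insT t p) (insert p S)

/-- Query. `t = some t`. Every `s ∈ S` is `w`, `e`, in `U` or in `L`. `b0` is at least as near as `w` and `e`.
If `U` is nonempty there is a rightmost nearest site `u` (`T_NNE`, `U` a chain by `T_CHU`), it is seen
(`ChainSpec.seen`), so `b1` is at least as near as `u`, hence as all of `U`, and as `b0` (`T_FND`). Mirror:
`dsq (mir q) (mir s) = dsq q s`, `mir (mir s) = s`; same for the lower chain. The result is one of `w`, `e` or a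
seen candidate, so in `S` (`T_FND`, `T_SIN`, `ChainSpec.inn`). -/
def T_TQ : Prop := ∀ (CO : CS ℝ → Set P → Prop) (t : Option (Top ℝ)) (S : Set P) (q : P), ChainSpec CO →
  TopOK CO t S → S.Finite → S.Nonempty → ConvPos S →
  ∃ r, qryT t q = some r ∧ r ∈ S ∧ ∀ s ∈ S, dsq q r ≤ dsq q s

end Pool.Agent.EVD
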