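import Pool.Agent.EVD.TA
import Pool.Agent.EVD.TT

/-! # EVD targets, section B: samples, nodes, levels, slots

Targets of any section may be taken as hypotheses (as long as there is no circle); the names after
the word from are those needed. `h_NB` is `T_A_NB` (tangents from a weakly alive site are its alive
neighbours), `h_LT` is `T_A_LT` (`lastLt`, `firstGt`), `h_AMIN` is `T_A_MIN` (`minIn`), and so on.
`TABase.lean` has basic lemmas (`live_mono`, `live_false_mono`, `cut_cutT`, `Srt.eq`, `btr_*`, ...). -/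

namespace Pool.Agent.EVD

/-- live elements of the list strictly between `x` and `x'` (the list of `T_A_NXT`) -/
noncomputable def inI (D : ℝ → Bool) (x x' : ℝ) (l : List (Lf ℝ)) : List (Lf ℝ) :=
  l.filter (fun d => decide (x < d.s.1) && (decide (d.s.1 < x') && live D d.h))

/-! ### sample -/

/-- The sample is a sublist with the same first and last element, of about one third of the length.
First for `blk l` by the recursion of `blk` (`induction l using blk.induct`): `blk l` is a sublist of `l`,
`getLast?` is the same, `3 * (blk l).length ≤ l.length + 4`, and `l = [] ↔ blk l = []`;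
`btr b c` is `b` or `c`. -/
def T_SMA : Prop := ∀ F : List (Lf ℝ), (sample F).Sublist F ∧ (sample F).head? = F.head? ∧
  (sample F).getLast? = F.getLast? ∧ 3 * (sample F).length ≤ F.length + 6

/-- Run before the first live element of `blk l`: at most two live elements of `l` lie before it.
`btr b c` has minimal height: `hle (btr b c).h b.h`, `hle (btr b c).h c.h`, and `hle a b`,
`live D b` imply `live D a` for a cut `D`. Induction (`blk.induct`): Empty list: no `c'`. `z :: []`: `c' = z`, nothing
before. `b :: z :: []`: if `c' = z` then `b` is not live (`b ∈ blk l`). `b :: c :: z :: []`, `m = btr b c`: if `c' = m` then the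
elements of `l` left of `m` (sorted) are among `b`, so at most 1 (or 0); if `c' = z` then `m` is not live, so
`b`, `c` are not live. `b :: c :: d :: z :: t`, `m` the best of `b, c, d`: if `c' = m` the elements left of `m` are
among `b, c, d` without `m`: at most 2. Otherwise `c' ∈ blk (z :: t)`, `m.s.1 < c'.s.1` (sorted), so `m` is not
live, `b, c, d` are not live, the filter skips them: induction hypothesis. -/
def T_SMB : Prop := ∀ (D : ℝ → Bool) (l : List (Lf ℝ)) (x : ℝ) (c' : Lf ℝ), Cut D → Srt l → c' ∈ blk l →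
  live D c'.h = true → (∀ e ∈ blk l, e.s.1 < c'.s.1 → live D e.h = false) →
  (inI D x c'.s.1 l).length ≤ 2

/-- Run between consecutive live sample elements: at most four live elements. First for `blk l`
(all of `c, c' ∈ blk l`), by induction (`blk.induct`). `b :: c0 :: d :: z :: t` with `m` the best of the block: if
`c ∈ blk (z :: t)` then so is `c'`, the elements strictly between are in `z :: t` (sorted), the block has
abscissas smaller than that of `c`: induction hypothesis. If `c = m`, `c' ∈ blk (z :: t)` is the first live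
element of `blk (z :: t)` (the earlier ones are strictly between `c` and `c'`): at most 2 elements of the
block are right of `m`, and at most 2 in `z :: t` by `h_SMB`. Small lists: `b :: c0 :: z :: []`: at most 1;
`b :: z :: []`: 0. Then for `sample (a :: t) = a :: blk t`: `c = a`: `h_SMB` for `t`; `c ∈ blk t`: the above (`a` is
left of `c`). (from `T_SMB`) -/
def T_SMC : Prop := ∀ (D : ℝ → Bool) (F : List (Lf ℝ)) (c c' : Lf ℝ), Cut D → Srt F → c ∈ sample F →
  c' ∈ sample F → c.s.1 < c'.s.1 → live D c.h = true → live D c'.h = true →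
  (∀ e ∈ sample F, c.s.1 < e.s.1 → e.s.1 < c'.s.1 → live D e.h = false) →
  (inI D c.s.1 c'.s.1 F).length ≤ 4

/-! ### gaps and children -/

/-- the sites of an optional tree -/
def smp : Option (TR ℝ) → Set P
  | none => ∅
  | some t => sites t.toL

def LowO (S : Set P) : Option (TR ℝ) → Prop
  | none => S = ∅
  | some t => LowOK S t

/-- The gap structure. Let `w` be the leftmost site of `S'` (finite, nonempty): `LowOK` gives
`d ∈ ct.toL` with `d.s.1 ≤ w.1`, `d.s ∈ S'`, so `d.s.1 = w.1`; `IsH S' d.s (some r)` is impossible (it has a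
site left of `d.s`), so `d.h = none`, `d` is live at every cut, `d.s.1 ≤ p.1`, and `≠` because
`p ∉ sites ct.toL` and abscissas are distinct (`Chn`). So `lastLt (cutT T) p.1 ct = some c` (`h_LT`), in
the same way `firstGt (cutT T) p.1 ct = some c'` (`h_LT`). By hypothesis `c.s.1 < s.1` and not
`c'.s.1 < s.1`; `c'.s.1 ≠ s.1` as `s ∉ sites`; so `c.s.1 < s.1 < c'.s.1`. A live `e ∈ ct.toL` has
`e.s.1 ≤ c.s.1` or `c'.s.1 ≤ e.s.1` (`e.s.1 ≠ p.1`). `h_AMIN` for the interval (c.s.1, c'.s.1):
`none`: nothing of the sample between, 4th clause of `LowOK`. `some d`: `d` is strictly between, so not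
live at `cutT T`: `d.h = some h`, `T = some t`, `t ≤ h`. 5th clause of `LowOK` for `c, c', d, h`:
`c`, `c'` are live at `t ≤ h`; every `e` between has `hle (some h) e.h`, so `e.h = some r`, `h ≤ r`, not
live at `cutT (some h)`. `leT q.2 (some h)` because `q.2 ≤ t ≤ h`.
(from `T_A_LT T_A_MIN`) -/
def T_GQ : Prop := ∀ (S' : Set P) (ct : TR ℝ) (T : Option ℝ) (p q s : P), S'.Finite → Chn S' →
  LowOK S' ct → p ∈ S' → p ∉ sites ct.toL → s ∈ S' → s ∉ sites ct.toL → IsNN S' q s → leT q.2 T →
  (∀ d ∈ ct.toL, live (cutT T) d.h = true → (d.s.1 < p.1 ↔ d.s.1 < s.1)) →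
  (gapQ T p.1 (some ct)).Seen q s

/-- Child structure. Let `q, s` be as in `Solves`. `h_NNA`: `Al (cutT (some q.2)) S s`; `q.2 ≤ T`, so
`Al (cutT T) S s` (`h_MON`). Hence `s ∈ S'`, `s ∉ smp lower`, `s ≠ f` (hypothesis on `f`), so `s.1 ≠ f.1`.
If `s.1 < f.1`: `tanL (cutT T) f ps = some l` (`h_NB`; not `none` because `s` is left of `f`),
`lo.1 < s.1 ≤ l.s.1 < f.1 ≤ hi.1`: `inW` holds, the finger is `l`. If `f.1 < s.1`: the finger is the left
tangent `l` (if in the window) or the right one `r`: `lo.1 ≤ f.1 < r.s.1 ≤ s.1 < hi.1`. So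
`finger ps T f lo hi = some p` with `p.s` alive at `T` in `S`, strictly between `lo` and `hi`; so
`p.s ∈ S'`, `p.s ∉ smp lower`. `lower = some ct` since `S'` is nonempty. `h_GQ` for `S'`, `p.s`: `IsNN S' q s` by
`h_NNS`. Last hypothesis: let `d ∈ ct.toL` be live, that is `Al (cutT T) S' d.s` (`h_LIV`), and suppose
`d.s.1 < p.s.1` but not `d.s.1 < s.1`. `d.s ≠ s`, so `s.1 < d.s.1 < p.s.1`. `h_GAP` with `p1 = s`, `p2 = p.s` (all
alive sites of the closed window are strictly between `lo` and `hi`, so in `S'`): `Al (cutT T) S d.s`,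
strictly between `lo` and `hi`, so `d.s ∉ smp lower`: contradiction. The other direction in the same way.
`cutT T` is a cut. (from `T_NNA T_MON T_A_NB T_NNS T_LIV T_GAP T_GQ`) -/
def T_CHI : Prop := ∀ (S S' : Set P) (ps : List (TR ℝ)) (lower : Option (TR ℝ)) (T : Option ℝ) (f lo hi : P),
  S.Finite → Chn S → S' ⊆ S → PartsOK S ps → LowO S' lower → Wal T S f → lo.1 ≤ f.1 → f.1 ≤ hi.1 →
  ¬ (Al (cutT T) S f ∧ lo.1 < f.1 ∧ f.1 < hi.1) →
  (∀ s, Al (cutT T) S s → lo.1 < s.1 → s.1 < hi.1 → s ∈ S' ∧ s ∉ smp lower) →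
  Solves S lo hi T (child ps lower T f lo hi)

/-- A child is `stop` or one of the two structures of a sample element: `h_LT`, `h_AMIN` for the
membership in `ct.toL` (`c.s.1 < c'.s.1`). (from `T_A_LT T_A_MIN`) -/
def T_CHR : Prop := ∀ (R : QT ℝ → Prop) (ps : List (TR ℝ)) (lower : Option (TR ℝ)) (T : Option ℝ)
  (f lo hi : P), R QT.stop →
  (∀ ct, lower = some ct → TreeOK ct ∧ ∀ d ∈ ct.toL, R d.q1 ∧ R d.q2) → R (child ps lower T f lo hi)

/-! ### nodes -/

/-- the data of one level: `S` = all sites up to this level, `S'` = sites of the lower levels, `F` = the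
elements of this level -/
structure LevHyp (S S' : Set P) (ps : List (TR ℝ)) (lower : Option (TR ℝ)) (F : List (Lf ℝ)) : Prop where
  fin : S.Finite
  chn : Chn S
  sub : S' ⊆ S
  parts : PartsOK S ps
  low : LowO S' lower
  srt : Srt F
  ne : F ≠ []
  ok : ∀ m ∈ F, LfOK S m
  rest : ∀ s ∈ S, s ∉ sites F → s ∈ S' ∧ s ∉ smp lower
  ext : ∀ s ∈ S, (∃ d ∈ F, d.s.1 ≤ s.1) ∧ ∃ d ∈ F, s.1 ≤ d.s.1

/-- `a ≤ b` for upper bounds (`none` = plus infinity) -/
def leO (a b : Option ℝ) : Prop := ∀ t, b = some t → ∃ r, a = some r ∧ r ≤ t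

/-- Correctness of `mk`. `E` = elements of `F` alive at `T` strictly between `c` and `c'`; `ms` = the ones
not yet met; `lo` is known to be `≤` the answer; the elements of `E` between `lo` and the first one of `ms` are
dead at `cT`. Induction on `ms`, generalising `lo cT cf`.
Empty list: `s = lo` or `s = c'` is seen at once (equal abscissas in `S` are equal sites). Otherwise
`lo.1 < s.1 < c'.1`: `h_CHI` with `T := cT`, `f := cf`, `hi := c'`. Its last hypothesis: let `u` be alive at `cT` strictly
between; alive at `T` (`leO cT T`, `h_MON`). `u ∈ sites E`, say `m.s = u`: `m.s.1 > lo.1`, `m ∉ []`, so `m` is not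
live at `cT`, contradiction with `h_LIV`. So `u ∉ sites E`: hypothesis `hrest`.
`m :: ms`: `m.h` is not `none`: `IsH S m.s none` contradicts `c.1 < m.s.1 < c'.1`. Let `m.h = some h`. The first test
is `h < q.2`.
(yes) `h < q.2 ≤ cT`. Spine test, `h_SPN`. If `q` is left of the spine then `s.1 ≤ m.s.1`: `s = lo`, `s = m.s`, or
strictly between: `h_CHI` with `T := cT`, `f := hi := m.s`: `Wal cT S m.s` because all `cc a m.s b ≤ h ≤ cT` (`leT q.2 cT`);
last hypothesis as in case the empty list (an `m' ∈ E` between `lo` and `m.s` is not in `m :: ms`, sorted).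
If not, `m.s.1 ≤ s.1`: induction hypothesis with `lo := m.s`, `cT := T`, `cf := m.s`: `leT q.2 T` by `leO`;
`Wal T S m.s` since `m` is live at `T`; nothing of `E` right of `m.s` is outside of `ms`: `E` is sorted and
`m :: ms` is a suffix of `E` (so the elements of `E` right of `m.s` are in `ms`); `¬ (... ∧ m.s.1 < m.s.1 ...)`.
(no) `q.2 ≤ h`. If `live (cutT cT) (some h)`: induction hypothesis with `cT := some h`, `cf := m.s`:
`leT q.2 (some h)`; `leO (some h) T` (from `h < cT ≤ T` or `m` live at `T`); `Wal (some h) S m.s` by `IsH`; `m.s` is not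
alive at `cutT (some h)` (`IsH`: the height is attained and `¬ h < h`); elements dead at `cT` are dead
at `h` (live is monotone in the cut), and `m` is dead at `h`. Otherwise `m` is dead at `cT`: induction
hypothesis with the same `cT`, `cf`. (from `T_CHI T_SPN T_MON T_LIV`) -/
def T_MK : Prop := ∀ (S S' : Set P) (ps : List (TR ℝ)) (lower : Option (TR ℝ)) (T : Option ℝ) (c c' : P)
  (E : List (Lf ℝ)), S.Finite → Chn S → S' ⊆ S → PartsOK S ps → LowO S' lower → c ∈ S → c' ∈ S → Srt E →
  (∀ m ∈ E, LfOK S m ∧ c.1 < m.s.1 ∧ m.s.1 < c'.1 ∧ live (cutT T) m.h = true) →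
  (∀ s, Al (cutT T) S s → c.1 < s.1 → s.1 < c'.1 → s ∉ sites E → s ∈ S' ∧ s ∉ smp lower) →
  ∀ (ms : List (Lf ℝ)) (lo cf : P) (cT : Option ℝ), ms <:+ E → lo ∈ S → c.1 ≤ lo.1 → lo.1 < c'.1 →
  (∀ m ∈ ms, lo.1 < m.s.1) → leO cT T → Wal cT S cf → lo.1 ≤ cf.1 → cf.1 ≤ c'.1 →
  ¬ (Al (cutT cT) S cf ∧ lo.1 < cf.1 ∧ cf.1 < c'.1) →
  (∀ m ∈ E, lo.1 < m.s.1 → m ∉ ms → live (cutT cT) m.h = false) →
  ∀ q s : P, leT q.2 cT → IsNN S q s → lo.1 ≤ s.1 → s.1 ≤ c'.1 →
  (mk ps lower T c' ms lo cT cf).Seen q s

/-- Induction on `ms`, generalising `lo cT cf` (unfold `mk`, `aTest`, `QT.In`; cases on `m.h`). -/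
def T_MKI : Prop := ∀ (S : Set P) (ps : List (TR ℝ)) (lower : Option (TR ℝ)) (T : Option ℝ) (c' : P)
  (ms : List (Lf ℝ)) (lo cf : P) (cT : Option ℝ),
  (∀ (T' : Option ℝ) (f l h : P), (child ps lower T' f l h).In S) → c' ∈ S → lo ∈ S → (∀ m ∈ ms, m.s ∈ S) →
  (mk ps lower T c' ms lo cT cf).In S

/-- Induction on `ms`, generalising `lo cT cf` (unfold `mk`, `aTest`, `QT.dep`; cases on `m.h`; `omega`). -/
def T_MKD : Prop := ∀ (B : ℕ) (ps : List (TR ℝ)) (lower : Option (TR ℝ)) (T : Option ℝ) (c' : P)
  (ms : List (Lf ℝ)) (lo cf : P) (cT : Option ℝ),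
  (∀ (T' : Option ℝ) (f l h : P), (child ps lower T' f l h).dep ≤ B) →
  (mk ps lower T c' ms lo cT cf).dep ≤ 2 * ms.length + 2 + B

/-- Correctness of a node. `mkNode` is `mk` with the entries `nexts (cutT T) ft c'.1 4 c.1 = E`, where
`E = inI (cutT T) c.1 c'.1 F` has at most 4 elements (`h_NXT`, `ft.toL = F`, `List.take_of_length_le`).
`h_MK` with `ms = E`, `lo = c`, `cT = T`, `cf = f`: `E` is sorted (sublist of `F`), its elements are `LfOK`; if `u` is
alive at `T` strictly between and `u ∉ sites E` then `u ∉ sites F` (an element `d ∈ F` with `d.s = u` is live by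
`h_LIV`, so in `E`), so `LevHyp.rest`. (from `T_A_NXT T_MK T_LIV`) -/
def T_NOD : Prop := ∀ (S S' : Set P) (ps : List (TR ℝ)) (lower : Option (TR ℝ)) (F : List (Lf ℝ))
  (ft : TR ℝ) (T : Option ℝ) (f c c' : P), LevHyp S S' ps lower F → TreeOK ft → ft.toL = F → c ∈ S → c' ∈ S →
  c.1 < c'.1 → Wal T S f → c.1 ≤ f.1 → f.1 ≤ c'.1 → ¬ (Al (cutT T) S f ∧ c.1 < f.1 ∧ f.1 < c'.1) →
  (inI (cutT T) c.1 c'.1 F).length ≤ 4 → Solves S c c' T (mkNode ps lower ft T f c c')

/-! ### levels -/

/-- Shape of the decorated list. Induction on `l`, generalising `c`. Second clause: `x`, `y` adjacent in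
`⟨c⟩ :: deco c l`; stated for any first element `a` with `a.s = c`. -/
def T_DCO : Prop := ∀ (ps : List (TR ℝ)) (lower : Option (TR ℝ)) (ft ct : TR ℝ) (l : List (Lf ℝ)) (a : Lf ℝ),
  List.Forall₂ (fun d d' : Lf ℝ => d'.s = d.s ∧ d'.h = d.h ∧ d'.q2 = critQ ps lower ft ct d) l
    (deco ps lower ft ct a.s l) ∧
  ∀ (l1 l2 : List (Lf ℝ)) (x y : Lf ℝ), a :: deco ps lower ft ct a.s l = l1 ++ x :: y :: l2 →
    y.q1 = mkNode ps lower ft none x.s x.s y.s

/-- Basics of `levC`: `build F = some ft`, `build (sample F) = some ct` (`h_BLD`, both lists are nonempty,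
`h_SMA`), `sample F = a :: t`, so `levC = a :: deco .. a.s t`; first clause of `h_DCO`. `Srt` of the sample by
`h_SMA` (sublist); sortedness depends only on the abscissas. The first element is `a ∈ F` itself; the
other ones have `q1`, `q2` from `deco` (`critQ .. d` depends only on `d.s`, `d.h`; for `q1` use the second
clause of `h_DCO`, or prove it together by induction). (from `T_A_BLD T_SMA T_DCO`) -/
def T_LVA : Prop := ∀ (ps : List (TR ℝ)) (lower : Option (TR ℝ)) (F : List (Lf ℝ)), Srt F → F ≠ [] →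
  ∃ ft ct t, TreeOK ft ∧ ft.toL = F ∧ TreeOK ct ∧ ct.toL = sample F ∧
    build (levC ps lower F) = some t ∧ TreeOK t ∧ t.toL = levC ps lower F ∧
    (levC ps lower F).map (fun d => (d.s, d.h)) = (sample F).map (fun d => (d.s, d.h)) ∧
    (∀ d ∈ levC ps lower F, (d ∈ F ∧ ∀ e ∈ levC ps lower F, d.s.1 ≤ e.s.1) ∨
      (d.q2 = critQ ps lower ft ct d ∧ ∃ x ∈ sample F, d.q1 = mkNode ps lower ft none x.s x.s d.s)) ∧
    ∀ (l1 l2 : List (Lf ℝ)) (x y : Lf ℝ), levC ps lower F = l1 ++ x :: y :: l2 →
      y.q1 = mkNode ps lower ft none x.s x.s y.s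

/-- Critical nodes. `critQ` is `mkNode ps lower ft (some h) d.s c0.s c0'.s` where `c0`, `c0'` are the last live
element left of `d` and the first one right of `d` in the sample (cut at `h`): by `h_LT` and the
hypotheses they have the abscissas of `c`, `c'`, hence `c0.s = c.s`, `c0'.s = c'.s`. `h_NOD` with `T = some h`,
`f = d.s`: `Wal` by `IsH` (maximum), `d.s` is not alive at its own height, at most 4 entries by `h_SMC`
(`ct.toL = sample F`; elements of the sample strictly between `c` and `c'` are dead at `h`).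
Here `c, c', d` are elements of `sample F`. (from `T_A_LT T_NOD T_SMC T_SMA`) -/
def T_CRI : Prop := ∀ (S S' : Set P) (ps : List (TR ℝ)) (lower : Option (TR ℝ)) (F : List (Lf ℝ))
  (ft ct : TR ℝ) (c c' d : Lf ℝ) (h : ℝ), LevHyp S S' ps lower F → TreeOK ft → ft.toL = F → TreeOK ct →
  ct.toL = sample F → c ∈ sample F → c' ∈ sample F → d ∈ sample F → d.h = some h → c.s.1 < d.s.1 →
  d.s.1 < c'.s.1 → live (cutT (some h)) c.h = true → live (cutT (some h)) c'.h = true →
  (∀ e ∈ sample F, c.s.1 < e.s.1 → e.s.1 < c'.s.1 → live (cutT (some h)) e.h = false) →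
  Solves S c.s c'.s (some h) (critQ ps lower ft ct d)

/-- One level. `h_LVA` gives `t`. `LowOK S t`: elements: `d.s ∈ S` and `IsH` because the pairs (s, h) of
`levC` are those of `sample F ⊆ F`. Extremes: `LevHyp.ext` and the first/last element of `F` are in the
sample (`h_SMA`; `F` sorted). 4th clause: `c`, `c'` in the sorted list with nothing between are adjacent, so
`c'.q1 = mkNode .. none c.s c.s c'.s`; `h_NOD` with `T = none`, `f = c.s`: `Wal none` trivial, at most 4 entries by
`h_SMC` with `D = cutT none` (constantly true; elements of the sample between: none). 5th clause: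
`critQ` depends only on `d.s`, `d.h`, so `critQ .. d = critQ .. d0` for the corresponding `d0 ∈ sample F`; the
first alternative in `h_LVA` is impossible (`c` is left of `d`); `h_CRI`.
(from `T_LVA T_SMA T_SMC T_NOD T_CRI`) -/
def T_LEV : Prop := ∀ (S S' : Set P) (ps : List (TR ℝ)) (lower : Option (TR ℝ)) (F : List (Lf ℝ)),
  LevHyp S S' ps lower F → ∃ t, build (levC ps lower F) = some t ∧ LowOK S t ∧ t.toL = levC ps lower F

/-! ### slots -/

def lset (l : List P) : Set P := {p | p ∈ l}

def PartN (N : List P) : Option (TR ℝ) → Prop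
  | none => N = []
  | some t => PartOK (lset N) t

/-- invariant of the slots of a chain with the set `S` of sites -/
def SlotsOK : List (Slot ℝ) → Set P → Prop
  | [], S => S = ∅
  | s :: rest, S => S.Nonempty ∧ ∃ S', SlotsOK rest S' ∧ S = lset s.N ∪ S' ∧ Disjoint (lset s.N) S' ∧
      SrtP s.N ∧ PartN s.N s.part ∧ s = mkSlot s.N s.part rest

/-- what the next level needs of the lower ones -/
structure SlotFacts (sl : List (Slot ℝ)) (S : Set P) : Prop where
  parts : PartsOK S (partsOf sl)
  low : LowO S (lowT sl)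
  srt : SrtP (lowC sl)
  set : lset (lowC sl) = smp (lowT sl)

/-- Level data of the first slot. `F = (mrg N (lowC rest)).map (mkLf ps)`, `ps = consO part (partsOf rest)`.
`PartsOK S ps`: definition (`part = none`: `N = []`, so `S = S'`). `Srt`: `h_MRG` (abscissas of `N` and
`lowC rest` differ: the sites of `lowC rest = smp (lowT rest)` are in `S'`, disjoint from `N`, and `Chn`), and
(mkLf ps f).s = f`. `ok`: `h_LF`. `rest`: `sites F = lset N ∪ smp (lowT rest)`. `ext`: `s ∈ N` is in `F` itself;
`s ∈ S'`: then `lowT rest = some ct` (`LowO`, `S'` nonempty) and `LowOK`. `ne` from `ext` and `S.Nonempty`.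
`LowOK` gives `sites ct.toL ⊆ S'`. (from `T_A_MRG T_A_LF`) -/
def T_LVH : Prop := ∀ (s : Slot ℝ) (rest : List (Slot ℝ)) (S S' : Set P), S.Finite → Chn S → S.Nonempty →
  S = lset s.N ∪ S' → Disjoint (lset s.N) S' → SrtP s.N → PartN s.N s.part → s = mkSlot s.N s.part rest →
  SlotFacts rest S' → LevHyp S S' (consO s.part (partsOf rest)) (lowT rest) s.F

/-- Induction on `sl`. Empty list: trivial (`lowC [] = []`, `smp none = ∅`). `s :: rest`: `S'` is finite and a chain
(subset); `h_LVH`; `h_LEV` for `s.F`: `s.ct = build (levC ..) = some t`, `LowOK S t`; `s.C = (levC ..).map Lf.s`, so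
`lset s.C = sites t.toL`; sorted because `t` is `TreeOK`. (from `T_LVH T_LEV`) -/
def T_SLF : Prop := ∀ (sl : List (Slot ℝ)) (S : Set P), SlotsOK sl S → S.Finite → Chn S → SlotFacts sl S

/-- Insertion. Induction on `sl`, generalising `S acc aps`. The new part `build (acc.map (mkLf aps))`
is a `PartOK (lset acc)` tree by `h_BLD`, `h_LF` for the set `lset acc` (subset of a chain), `acc ≠ []`.
Empty list: `S = ∅`, one slot. `s :: rest` with `s.part = none`: `s.N = []`, `S = S'`; the new slot stands in front of `rest`.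
`s.part = some t`: `acc' = mrg acc s.N` is sorted, nonempty, `lset acc' = lset acc ∪ lset s.N` (`h_MRG`; abscissas
differ by disjointness and `Chn`), `PartsOK (lset acc') (t :: aps)`, disjoint from `S'`; induction
hypothesis for `rest`, `S'`; then the empty slot `mkSlot [] none rest'` in front (`lset [] = ∅`, `PartN`). In
all cases `s = mkSlot s.N s.part rest` holds by `rfl`. (from `T_A_BLD T_A_LF T_A_MRG`) -/
def T_INS : Prop := ∀ (sl : List (Slot ℝ)) (S : Set P) (acc : List P) (aps : List (TR ℝ)), SlotsOK sl S →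
  SrtP acc → acc ≠ [] → PartsOK (lset acc) aps → Disjoint (lset acc) S → S.Finite →
  Chn (lset acc ∪ S) → SlotsOK (insS sl acc aps) (lset acc ∪ S)

/-- The root. `s0 :: rest`: `h_SLF` for `rest` and `h_LVH` give `LevHyp S S' ps (lowT rest) F`, `F = s0.F`. `F = [a]`: by
`ext` every site has the abscissa of `a`, so `s = a.s` is seen. `F = a :: b :: t`, `splitLast b t = (m, z)`, so
`b :: t = m ++ [z]` (induction on `t`): `h_MK` with `T = none`, `c = a.s`, `c' = z.s`, `E = ms = m`, `lo = cf = a.s`,
`cT = none`: `E` is sorted, strictly between `a` and `z`; a site strictly between and not in `sites m` is not in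
`sites F`: `rest`. `a.s.1 ≤ s.1 ≤ z.s.1` by `ext` and sortedness. (from `T_SLF T_LVH T_MK`) -/
def T_ROT : Prop := ∀ (sl : List (Slot ℝ)) (S : Set P) (q s : P), SlotsOK sl S → S.Finite → Chn S →
  IsNN S q s → (rootQ sl).Seen q s

/-- All candidates are sites. `QT.In` is monotone in the set. First, by induction on `sl`: for `lowT sl = some ct`
all `d.q1`, `d.q2`, `d ∈ ct.toL = levC ..`, satisfy `In S`: `h_CHR` with `R = QT.In S` (lower nodes: `In S'`), `h_MKI`
(entries of `nexts` are leaves of `ft`, so in `F`, sites in `S`; ends of the gap are sample elements),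
`d.q1 = mkNode ..`, `d.q2 = critQ ..` (by `h_LVA`; the first element keeps `q1 = q2 = stop` of `mkLf`, it is of the
form `mkLf ps f`). Then the root. (from `T_SLF T_LVH T_LVA T_CHR T_MKI T_A_NXT T_A_LT T_LEV`) -/
def T_RIN : Prop := ∀ (sl : List (Slot ℝ)) (S : Set P), SlotsOK sl S → S.Finite → Chn S → (rootQ sl).In S

/-- The structure of one chain satisfies `ChainSpec`. `empty`: `rootQ [] = stop`. `ins`: `h_INS` with `acc = [p]`,
`aps = [leaf]`: `PartsOK {p} [leaf]` (`IsH {p} p none`). `seen`: `h_ROT`; `U` is finite and a chain: put both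
into `CO`. (from `T_INS T_ROT T_RIN`) -/
def T_COS : Prop := ChainSpec (fun c U => SlotsOK c.sl U ∧ c.q = rootQ c.sl ∧ U.Finite ∧ Chn U)

/-! ### sizes -/

/-- sizes of the slots, the first one has index `k` -/
def Sz : ℕ → List (Slot ℝ) → Prop
  | _, [] => True
  | k, s :: rest => (match s.part with | none => s.N = [] | some t => s.N.length = 2 ^ k ∧ t.dep ≤ k) ∧
      s.F.length ≤ 9 * 2 ^ k ∧ 3 * s.C.length ≤ s.F.length + 6 ∧
      (∀ ct, s.ct = some ct → ct.dep ≤ k + 3) ∧ Sz (k + 1) rest

/-- the last slot is not empty -/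
def LastFull (sl : List (Slot ℝ)) : Prop := ∀ s, sl.getLast? = some s → s.part ≠ none

/-- Induction on `sl`, generalising `k acc aps`. Lengths of a new slot: `F.length = N.length + (lowC rest).length`
(`h_MRG`), `3 * (lowC rest).length ≤ 9 * 2 ^ (k+1) + 6`, so `F.length ≤ 2 ^ k + 6 * 2 ^ k + 2 ≤ 9 * 2 ^ k`;
`C.length = (levC ..).length ≤ (sample F).length` (`deco` keeps the length; `levC` may be the empty list), `h_SMA`;
`ct.dep ≤ clog 2 C.length` with `C.length ≤ 3 * 2 ^ k + 2 ≤ 2 ^ (k+3)`; new part: `dep ≤ clog 2 (2 ^ k) = k`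
(`h_BLD`). Full slot: `acc.length + N.length = 2 ^ (k+1)`. `LastFull` and nonemptiness: same induction.
(from `T_A_MRG T_SMA T_A_BLD`) -/
def T_SZI : Prop := ∀ (sl : List (Slot ℝ)) (k : ℕ) (acc : List P) (aps : List (TR ℝ)), Sz k sl →
  LastFull sl → acc.length = 2 ^ k → Sz k (insS sl acc aps) ∧ LastFull (insS sl acc aps) ∧
  sl.length ≤ (insS sl acc aps).length

/-- total number of points -/
def cntS (sl : List (Slot ℝ)) : ℕ := (sl.map (fun s => s.N.length)).sum

/-- The number of points increases by `acc.length` (induction, `h_MRG`; in the case `part = none` use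
`Sz`: `N = []`), and `2 ^ k * 2 ^ sl.length ≤ 2 * cntS sl` for `sl ≠ []` with `LastFull` (the last slot has
`2 ^ (k + sl.length - 1)` points; induction). (from `T_A_MRG`) -/
def T_CNT : Prop := ∀ (sl : List (Slot ℝ)) (k : ℕ), Sz k sl →
  (∀ (acc : List P) (aps : List (TR ℝ)), cntS (insS sl acc aps) = cntS sl + acc.length) ∧
  (LastFull sl → sl ≠ [] → 2 ^ k * 2 ^ sl.length ≤ 2 * cntS sl)

/-- work of an insertion, in units of one point -/
def wI : ℕ → List (Slot ℝ) → ℕ
  | k, [] => 2 ^ k
  | k, s :: rest => match s.part with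
      | none => 2 ^ k
      | some _ => 2 ^ k + wI (k + 1) rest

/-- potential -/
def pot (M : ℕ) : ℕ → List (Slot ℝ) → ℕ
  | _, [] => 0
  | k, s :: rest => (match s.part with
      | none => 0
      | some _ => 2 ^ k * (M - k)) + pot M (k + 1) rest

/-- Amortised analysis of the binary counter. Induction on `sl`, generalising `k acc aps`. The new slot has
`part ≠ none`: `build` of a nonempty list (`h_BLD`; `acc ≠ []`). the empty list and `part = none`: `2 ^ k + 2 ^ k * (M - k)`.
`part = some t`: with the induction hypothesis for `k + 1` (`mrg acc s.N ≠ []`, `h_MRG`) both sides are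
`2 ^ k + pot M (k+1) rest + 2 ^ (k+1) * (M - k)` (`M - (k+1) + 1 = M - k`). (from `T_A_BLD T_A_MRG`) -/
def T_AMO : Prop := ∀ (M : ℕ) (sl : List (Slot ℝ)) (k : ℕ) (acc : List P) (aps : List (TR ℝ)), acc ≠ [] →
  k + sl.length < M → wI k sl + pot M k (insS sl acc aps) = pot M k sl + 2 ^ k * (M - k + 1)

/-- Depth of the query structures. By induction on `sl` (`s :: rest`): all `d.q1`, `d.q2` of `lowT sl = some ct`,
`d ∈ ct.toL`, have depth at most `10 * sl.length` (`h_CHR` with `R t = (t.dep ≤ 10 * rest.length)`, `h_MKD` with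
at most 4 entries: `h_NXT` or directly: `nexts D t x' n x` has length at most `n`; `stop` for the first element,
`TreeOK` from `h_SLF`). Root: `F.length ≤ 9`, at most 7 entries.
(from `T_SLF T_LVH T_LVA T_CHR T_MKD`) -/
def T_QDP : Prop := ∀ (sl : List (Slot ℝ)) (S : Set P), SlotsOK sl S → S.Finite → Chn S → Sz 0 sl →
  (rootQ sl).dep ≤ 10 * sl.length + 20

end Pool.Agent.EVD
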