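import Pool.Agent.EVD.EncD
import Pool.Agent.EVD.TA

/-! # EVD targets, section C: running times of all functions of `Algo.lean`

`CB f B`: `f` is computed in at most `K * (B x + 1)` steps. General method: write the function in
environment form (`fun x : E × ... => F x.1 x.2 ...`), show by `CB.congr` that it equals a composition of
the closure lemmas (`CB.comp CB.pair CB.fst CB.snd CB.ite CB.id`, targets `T_CSS T_CSL T_CSO T_CST T_CSQ T_CON
T_BOO T_FLD T_CTR T_REA T_INJ` of `EncD.lean`), and adjust the bound by `CB.mono` (constant factor and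
constant summand are free). Recursive functions: `T_RS1` or `T_RS2` with `q` = the case analysis; since
`T_RS1` needs `Q x + C (z, f y) + B y + 1 ≤ B x` with coefficient one, first replace the bounds `Q`, `C` by
explicit ones with a constant factor `A` (they are only used up to a factor), take `B = A' * closed form`
and apply `CB.mono` at the end. All targets may be hypotheses of each other without circles. -/

namespace Pool.Agent.EVD

def odep : Option (TR ℝ) → ℕ
  | none => 0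
  | some t => t.dep

def mdep : List (TR ℝ) → ℕ
  | [] => 0
  | t :: ts => max t.dep (mdep ts)

def pM (ps : List (TR ℝ)) : ℕ := (ps.length + 1) * (mdep ps + 1) ^ 3

/-- cost of a child -/
def cC (ps : List (TR ℝ)) (lower : Option (TR ℝ)) : ℕ := pM ps + (odep lower + 1) ^ 2

/-- an oracle: a cut depending on an environment -/
def Orc {E : Type} [Enc E] (D : E → ℝ → Bool) (c : E → ℕ) : Prop :=
  CB (fun x : E × ℝ => D x.1 x.2) (fun x => c x.1)

def OrG {E : Type} [Enc E] (go : E → Lf ℝ → Lf ℝ → Bool) (g : E → ℕ) : Prop :=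
  CB (fun x : E × Lf ℝ × Lf ℝ => go x.1 x.2.1 x.2.2) (fun x => g x.1)

/-- straight-line real arithmetic (`T_REA`), comparisons -/
def T_C_GEO : Prop := CB (fun x : P × P × P => cc x.1 x.2.1 x.2.2) (fun _ => 0) ∧
  CB (fun x : P × P => dsq x.1 x.2) (fun _ => 0) ∧ CB (fun x : P => nsq x) (fun _ => 0) ∧
  CB (fun x : P × P => lexlt x.1 x.2) (fun _ => 0) ∧ CB (fun x : P => mir x) (fun _ => 0)

/-- `hle`: cases on the two options (`T_CSO`), `btr` -/
def T_C_HLE : Prop := CB (fun x : Option ℝ × Option ℝ => hle x.1 x.2) (fun _ => 0) ∧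
  CB (fun x : Lf ℝ × Lf ℝ => btr x.1 x.2) (fun _ => 0)

/-- `TR.am`, `TR.fx`, `join` (`T_CST`, `T_CTR`) -/
def T_C_JN : Prop := CB (fun t : TR ℝ => t.am) (fun _ => 0) ∧ CB (fun t : TR ℝ => t.fx) (fun _ => 0) ∧
  CB (fun x : TR ℝ × TR ℝ => join x.1 x.2) (fun _ => 0)

/-- map: list recursion `T_RS1` -/
def T_C_MAP : Prop := ∀ (E α β : Type) [Enc E] [Enc α] [Enc β] (f : E → α → β) (c : E → ℕ),
  CB (fun x : E × α => f x.1 x.2) (fun x => c x.1) →
  CB (fun x : E × List α => x.2.map (f x.1)) (fun x => (x.2.length + 1) * (c x.1 + 1))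

/-- `T_RS1` with `q l = inr (t, join a b)` for `a :: b :: t`, `comb (z, r) = z :: r` -/
def T_C_PU : Prop := CB (fun l : List (TR ℝ) => pairUp l) (fun l => l.length)

/-- `T_RS1`, `q (a :: b :: t) = inr (pairUp (a :: b :: t), ())`; `pairUp_length` halves the length;
`B l = A * (6 * l.length)` with the constant `A` of `T_C_PU`: `A * (n + 1) + B' ≤ ..` for `n ≥ 2`. Then `build`. -/
def T_C_BLD : Prop := CB (fun l : List (TR ℝ) => buildAll l) (fun l => l.length) ∧
  CB (fun l : List (Lf ℝ) => build l) (fun l => l.length)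

/-- `live`: case on the option -/
def T_C_LIV : Prop := ∀ (E : Type) [Enc E] (D : E → ℝ → Bool) (c : E → ℕ), Orc D c →
  CB (fun x : E × Option ℝ => live (D x.1) x.2) (fun x => c x.1)

/-- descent: `T_RS1` with `γ = Unit` (or comb = second component), one call of `live` per level -/
def T_C_LA : Prop := ∀ (E : Type) [Enc E] (D : E → ℝ → Bool) (c : E → ℕ), Orc D c →
  CB (fun x : E × TR ℝ => lastA (D x.1) x.2) (fun x => (c x.1 + 1) * (x.2.dep + 1)) ∧
  CB (fun x : E × TR ℝ => firstA (D x.1) x.2) (fun x => (c x.1 + 1) * (x.2.dep + 1))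

/-- descent; in the branch with recursion into `r` the combination is
`match res with | some e => some e | none => lastA D l`, cost of `lastA` at most (c + 1) * (dep + 1)` -/
def T_C_LL : Prop := ∀ (E : Type) [Enc E] (D : E → ℝ → Bool) (c : E → ℕ), Orc D c →
  CB (fun x : E × ℝ × TR ℝ => lastLt (D x.1) x.2.1 x.2.2) (fun x => (c x.1 + 1) * (x.2.2.dep + 1) ^ 2) ∧
  CB (fun x : E × ℝ × TR ℝ => firstGt (D x.1) x.2.1 x.2.2) (fun x => (c x.1 + 1) * (x.2.2.dep + 1) ^ 2)

/-- case analysis -/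
def T_C_PK : Prop := ∀ (E : Type) [Enc E] (go : E → Lf ℝ → Lf ℝ → Bool) (g : E → ℕ), OrG go g →
  CB (fun x : E × Option (Lf ℝ) × Option (Lf ℝ) => pick (go x.1) x.2.1 x.2.2) (fun x => g x.1) ∧
  CB (fun x : E × Option (Lf ℝ) × Option (Lf ℝ) => pickU (go x.1) x.2.1 x.2.2) (fun x => g x.1)

/-- descent: per level `lastA`, `firstA`, one call of `go` -/
def T_C_TH : Prop := ∀ (E : Type) [Enc E] (D : E → ℝ → Bool) (c : E → ℕ) (go : E → Lf ℝ → Lf ℝ → Bool)
  (g : E → ℕ), Orc D c → OrG go g →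
  CB (fun x : E × TR ℝ => tanH (D x.1) (go x.1) x.2) (fun x => (c x.1 + g x.1 + 1) * (x.2.dep + 1) ^ 2)

/-- descent: per level at most one `tanH` of the sibling and one `pick` -/
def T_C_TG : Prop := ∀ (E : Type) [Enc E] (D : E → ℝ → Bool) (c : E → ℕ) (go : E → Lf ℝ → Lf ℝ → Bool)
  (g : E → ℕ), Orc D c → OrG go g →
  CB (fun x : E × ℝ × TR ℝ => tanGt (D x.1) (go x.1) x.2.1 x.2.2)
    (fun x => (c x.1 + g x.1 + 1) * (x.2.2.dep + 1) ^ 3) ∧
  CB (fun x : E × ℝ × TR ℝ => tanLt (D x.1) (go x.1) x.2.1 x.2.2)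
    (fun x => (c x.1 + g x.1 + 1) * (x.2.2.dep + 1) ^ 3)

/-- `goR`, `goL` as `OrG` with the environment `E × P` -/
def T_C_GO : Prop := ∀ (E : Type) [Enc E] (D : E → ℝ → Bool) (c : E → ℕ), Orc D c →
  OrG (E := E × P) (fun x => goR (D x.1) x.2) (fun x => c x.1) ∧
  OrG (E := E × P) (fun x => goL (D x.1) x.2) (fun x => c x.1) ∧
  Orc (E := E × P) (fun x => D x.1) (fun x => c x.1)

/-- list recursion, `T_C_TG` and `T_C_GO` with the environment `E × P`, `T_C_PK`; per element at most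
`A * (c + 1) * (mdep + 1) ^ 3` -/
def T_C_TR : Prop := ∀ (E : Type) [Enc E] (D : E → ℝ → Bool) (c : E → ℕ), Orc D c →
  CB (fun x : E × P × List (TR ℝ) => tanR (D x.1) x.2.1 x.2.2) (fun x => (c x.1 + 1) * pM x.2.2) ∧
  CB (fun x : E × P × List (TR ℝ) => tanL (D x.1) x.2.1 x.2.2) (fun x => (c x.1 + 1) * pM x.2.2)

/-- the simple cut -/
def T_C_CUT : Prop := Orc (E := Option ℝ) cutT (fun _ => 0)

/-- two tangents with the simple cut (environment `Option ℝ`, value `some y`) -/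
def T_C_AB : Prop := CB (fun x : List (TR ℝ) × P × ℝ => aliveB x.1 x.2.1 x.2.2) (fun x => pM x.1)

/-- Oracle `E = List (TR ℝ) × P`, `D (ps, f) r = !aliveB ps f r`, `c (ps, f) = pM ps`; four tangents, real
arithmetic. -/
def T_C_MKL : Prop := CB (fun x : List (TR ℝ) × P => mkLf x.1 x.2) (fun x => (pM x.1 + 1) ^ 2)

/-- `T_RS1` on the pair of lists -/
def T_C_MRG : Prop := CB (fun x : List P × List P => mrg x.1 x.2) (fun x => x.1.length + x.2.length)

/-- `T_RS1`: `q` looks at the first four elements -/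
def T_C_SMP : Prop := CB (fun l : List (Lf ℝ) => blk l) (fun l => l.length) ∧
  CB (fun l : List (Lf ℝ) => sample l) (fun l => l.length)

/-- descents -/
def T_C_MIN : Prop := CB (fun x : ℝ × TR ℝ => minGt x.1 x.2) (fun x => x.2.dep) ∧
  CB (fun x : ℝ × TR ℝ => minLt x.1 x.2) (fun x => x.2.dep) ∧
  CB (fun x : ℝ × ℝ × TR ℝ => minIn x.1 x.2.1 x.2.2) (fun x => x.2.2.dep)

/-- straight-line with `T_C_TR` and `T_C_CUT` -/
def T_C_FNG : Prop := CB (fun x : P × P × Option (Lf ℝ) => inW x.1 x.2.1 x.2.2) (fun _ => 0) ∧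
  CB (fun x : List (TR ℝ) × Option ℝ × P × P × P => finger x.1 x.2.1 x.2.2.1 x.2.2.2.1 x.2.2.2.2)
    (fun x => pM x.1)

/-- `T_C_LL` with `T_C_CUT`, `T_C_MIN` -/
def T_C_GQ : Prop := CB (fun x : Option ℝ × ℝ × Option (TR ℝ) => gapQ x.1 x.2.1 x.2.2)
  (fun x => (odep x.2.2 + 1) ^ 2)

def T_C_CHI : Prop := CB (fun x : List (TR ℝ) × Option (TR ℝ) × Option ℝ × P × P × P =>
  child x.1 x.2.1 x.2.2.1 x.2.2.2.1 x.2.2.2.2.1 x.2.2.2.2.2) (fun x => cC x.1 x.2.1)

/-- `T_RS2` on the list, the environment is carried along. With `A` the constant of one step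
(`child` twice, tests): `B = (2 ^ (len + 1) - 1) * (A * (cC + 1) + 2)`. -/
def T_C_MK : Prop := CB (fun x : (List (TR ℝ) × Option (TR ℝ) × Option ℝ × P) × List (Lf ℝ) × P × Option ℝ × P =>
  mk x.1.1 x.1.2.1 x.1.2.2.1 x.1.2.2.2 x.2.1 x.2.2.1 x.2.2.2.1 x.2.2.2.2)
  (fun x => 2 ^ x.2.1.length * (cC x.1.1 x.1.2.1 + 1))

/-- induction on the fixed number `n` -/
def T_C_NXT : Prop := ∀ (E : Type) [Enc E] (D : E → ℝ → Bool) (c : E → ℕ) (n : ℕ), Orc D c →
  CB (fun x : E × TR ℝ × ℝ × ℝ => nexts (D x.1) x.2.1 x.2.2.1 n x.2.2.2)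
    (fun x => (c x.1 + 1) * (x.2.1.dep + 1) ^ 2)

/-- `nexts` gives at most 4 entries (induction on the number), so `2 ^ len ≤ 16` in `T_C_MK` -/
def T_C_NOD : Prop := CB (fun x : List (TR ℝ) × Option (TR ℝ) × TR ℝ × Option ℝ × P × P × P =>
  mkNode x.1 x.2.1 x.2.2.1 x.2.2.2.1 x.2.2.2.2.1 x.2.2.2.2.2.1 x.2.2.2.2.2.2)
  (fun x => cC x.1 x.2.1 + (x.2.2.1.dep + 1) ^ 2)

def T_C_CRI : Prop := CB (fun x : List (TR ℝ) × Option (TR ℝ) × TR ℝ × TR ℝ × Lf ℝ =>
  critQ x.1 x.2.1 x.2.2.1 x.2.2.2.1 x.2.2.2.2)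
  (fun x => cC x.1 x.2.1 + (x.2.2.1.dep + 1) ^ 2 + (x.2.2.2.1.dep + 1) ^ 2)

def T_C_DCO : Prop := CB (fun x : (List (TR ℝ) × Option (TR ℝ) × TR ℝ × TR ℝ) × P × List (Lf ℝ) =>
  deco x.1.1 x.1.2.1 x.1.2.2.1 x.1.2.2.2 x.2.1 x.2.2)
  (fun x => (x.2.2.length + 1) * (cC x.1.1 x.1.2.1 + (x.1.2.2.1.dep + 1) ^ 2 + (x.1.2.2.2.dep + 1) ^ 2 + 1))

/-- depth of `build` at most `Nat.clog 2` of the length (`T_A_BLD`), (sample F).length ≤ F.length` -/
def T_C_LEV : Prop := CB (fun x : List (TR ℝ) × Option (TR ℝ) × List (Lf ℝ) => levC x.1 x.2.1 x.2.2)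
  (fun x => (x.2.2.length + 1) * (cC x.1 x.2.1 + (Nat.clog 2 x.2.2.length + 1) ^ 2 + 1))

def T_C_PAR : Prop := CB (fun x : Option (TR ℝ) × List (TR ℝ) => consO x.1 x.2) (fun _ => 0) ∧
  CB (fun x : List (Slot ℝ) => partsOf x) (fun x => x.length) ∧
  CB (fun x : List (Slot ℝ) => lowC x) (fun _ => 0) ∧ CB (fun x : List (Slot ℝ) => lowT x) (fun _ => 0)

/-- time of `mkSlot` -/
noncomputable def cSlot (N : List P) (part : Option (TR ℝ)) (rest : List (Slot ℝ)) : ℕ :=
  (N.length + (lowC rest).length + 1) * ((pM (consO part (partsOf rest)) + 1) ^ 2 +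
    (odep (lowT rest) + 1) ^ 2 + (Nat.clog 2 (N.length + (lowC rest).length) + 1) ^ 2 + 1) + rest.length

/-- `partsOf`, `mrg` ((mrg l m).length = l.length + m.length`), `T_C_MAP` for `mkLf`, `levC`, `build` -/
def T_C_SLT : Prop := CB (fun x : List P × Option (TR ℝ) × List (Slot ℝ) => mkSlot x.1 x.2.1 x.2.2)
  (fun x => cSlot x.1 x.2.1 x.2.2)

/-- time of a new part -/
noncomputable def cPart (acc : List P) (aps : List (TR ℝ)) : ℕ := (acc.length + 1) * ((pM aps + 1) ^ 2 + 1)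

/-- time of `insS` -/
noncomputable def tI : List (Slot ℝ) → List P → List (TR ℝ) → ℕ
  | [], acc, aps => cPart acc aps + cSlot acc (build (acc.map (mkLf aps))) []
  | s :: rest, acc, aps => match s.part with
      | none => cPart acc aps + cSlot acc (build (acc.map (mkLf aps))) rest
      | some t => acc.length + s.N.length + tI rest (mrg acc s.N) (t :: aps) +
          cSlot [] none (insS rest (mrg acc s.N) (t :: aps)) + 1

/-- `T_RS1`: `q (s :: rest, acc, aps) = inr ((rest, mrg acc s.N, t :: aps), ())`, `comb (_, r) = mkSlot [] none r :: r`.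
`B = A * tI` with `A` large. -/
def T_C_INS : Prop := CB (fun x : List (Slot ℝ) × List P × List (TR ℝ) => insS x.1 x.2.1 x.2.2)
  (fun x => tI x.1 x.2.1 x.2.2)

/-- time of `rootQ` -/
noncomputable def rT : List (Slot ℝ) → ℕ
  | [] => 0
  | s :: rest => 2 ^ s.F.length * (cC (consO s.part (partsOf rest)) (lowT rest) + 1) + rest.length

/-- `splitLast` by `T_RS1` (cost `length ≤ 2 ^ length`), `T_C_MK` -/
def T_C_ROO : Prop := CB (fun x : Lf ℝ × List (Lf ℝ) => splitLast x.1 x.2) (fun x => x.2.length) ∧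
  CB (fun sl : List (Slot ℝ) => rootQ sl) (fun sl => rT sl)

/-- time of `insC` -/
noncomputable def tC (sl : List (Slot ℝ)) (p : P) : ℕ :=
  tI sl [p] [TR.leaf ⟨p, none, 0, 0, QT.stop, QT.stop⟩] +
    rT (insS sl [p] [TR.leaf ⟨p, none, 0, 0, QT.stop, QT.stop⟩])

def T_C_INC : Prop := CB (fun x : CS ℝ × P => insC x.1 x.2) (fun x => tC x.1.sl x.2)

/-- time of `put` -/
noncomputable def tPut (w e v : P) (up lo : CS ℝ) : ℕ :=
  if 0 < (e.1 - w.1) * (v.2 - w.2) - (v.1 - w.1) * (e.2 - w.2) then tC up.sl v else tC lo.sl (mir v)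

/-- time of `insT` -/
noncomputable def tT (t : Option (Top ℝ)) (p : P) : ℕ :=
  match t with
  | none => 0
  | some t =>
      if lexlt t.w t.e then
        (if lexlt p t.w then tPut p t.e t.w t.up t.lo
        else if lexlt t.e p then tPut t.w p t.e t.up t.lo
        else tPut t.w t.e p t.up t.lo)
      else 0

def T_C_INT : Prop := CB (fun x : Option (Top ℝ) × P => insT x.1 x.2) (fun x => tT x.1 x.2)

/-- `T_RS1` on the query tree, only one branch is followed -/
def T_C_FIN : Prop := CB (fun x : QT ℝ × P × P => x.1.find x.2.1 x.2.2) (fun x => x.1.dep)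

/-- depth of the structure -/
def dT (t : Option (Top ℝ)) : ℕ :=
  match t with
  | none => 0
  | some t => t.up.q.dep + t.lo.q.dep

def T_C_QRY : Prop := CB (fun x : Option (Top ℝ) × P => qryT x.1 x.2) (fun x => dT x.1)

end Pool.Agent.EVD
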