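import Pool.Agent.EVD.Defs

/-! # EVD targets, section G: plane geometry

Notation used in the proofs: `z s = zl y s` lifts the site `s` at the height `y`; the point
(s.1, z s)` of the lifted plane; `b` is *below* the chord `ac` if `Blw y a b c`. For `b` with
`0 < ccB a b c` this is `cc a b c < y` (target `T_DET`). `dsq (x, y) s = x ^ 2 + y ^ 2 - 2 * x * s.1 + zl y s`,
so a nearest site of (x, y)` minimises `z s - 2 * x * s.1`: it is a point where a line of slope
`2 * x` supports the lifted set from below. -/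

namespace Pool.Agent.EVD

/-- lift at the height `y` -/
noncomputable def zl (y : ℝ) (s : P) : ℝ := nsq s - 2 * y * s.2

/-- `b` is strictly below the chord `ac` in the lifted plane -/
def Blw (y : ℝ) (a b c : P) : Prop :=
  (zl y b - zl y a) * (c.1 - a.1) < (zl y c - zl y a) * (b.1 - a.1)

/-- `D` is the cut at the height `y`, the value at `y` itself is free -/
def Near (D : ℝ → Bool) (y : ℝ) : Prop := ∀ r, (D r = true → r ≤ y) ∧ (D r = false → y ≤ r)

/-- Identity: (zl y c - zl y a) * (b.1 - a.1) - (zl y b - zl y a) * (c.1 - a.1) = 2 * y * ccB a b c - ccA a b c`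
(unfold `zl nsq ccA ccB`, `ring`). With `cc = ccA / (2 * ccB)` and `ccB > 0` use `div_lt_iff₀` and
`le_div_iff₀`. -/
def T_DET : Prop := ∀ (a b c : P) (y : ℝ), 0 < ccB a b c →
  (cc a b c < y ↔ Blw y a b c) ∧
  (cc a b c ≤ y ↔ (zl y b - zl y a) * (c.1 - a.1) ≤ (zl y c - zl y a) * (b.1 - a.1)) ∧
  (cc a b c = y ↔ (zl y b - zl y a) * (c.1 - a.1) = (zl y c - zl y a) * (b.1 - a.1))

/-- `dsq q s = nsq q - 2 * q.1 * s.1 + zl q.2 s` (unfold, `ring`). -/
def T_DSQ : Prop := ∀ q s : P, dsq q s = nsq q - 2 * q.1 * s.1 + zl q.2 s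

/-- The set `V` of all `cc a b c`, `a, b, c ∈ S`, is finite. If some element of `V` has `D = false`,
let `y` be the smallest one: for `v ∈ V`, `D v = true` implies `v < y` (otherwise `y ≤ v` and `Cut`
gives `D y = true`), and `v < y` implies `D v = true` by minimality. Otherwise let `y` be larger than
all elements of `V`. -/
def T_MAT : Prop := ∀ (S : Set P) (D : ℝ → Bool), S.Finite → Cut D → ∃ y, Mat D S y

/-- Hull lemma. Take `y` with `Mat D S y` (`h1 : T_MAT`), so that for `a.1 < b.1 < c.1` in `S`,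
`D (cc a b c) = true ↔ Blw y a b c` (`h2 : T_DET`). Since `d` is not alive there are `a, c ∈ S`,
`a.1 < d.1 < c.1`, `d` on or above the chord `ac`. For a pair (a, c)` of sites with
`a.1 < d.1 < c.1` let `v(a,c) = (z a * (c.1 - d.1) + z c * (d.1 - a.1)) / (c.1 - a.1)` be the value of
the chord at `d.1`. Let `m` be the minimal value (finitely many pairs), so `m ≤ z d`. Let (g0, g0')` be
a pair with value `m`, `ℓ` the line through them (value `m` at `d.1`). Every `s ∈ S` is on or above `ℓ`: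
for `s.1 < d.1` a site strictly below `ℓ` gives `v(s, g0') < m`; same for `s.1 > d.1` with `g0`; and
`z d ≥ m` for the only site with abscissa `d.1` (abscissas are distinct). Let `g` be the leftmost site
on `ℓ` and `g'` the rightmost site on `ℓ` (finite set containing `g0` and `g0'`), so
`g.1 ≤ g0.1 < d.1 < g0'.1 ≤ g'.1`. `g` is alive: for `a.1 < g.1 < c.1`, `a` is strictly above `ℓ`
(leftmost), `c` on or above `ℓ`, so `g` (on `ℓ`) is strictly below the chord `ac`. Same for `g'`.
`d` is on or above `ℓ`, that is, on or above the chord `gg'`, so `D (cc g d g') = false`. An `e ∈ S`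
strictly between `g` and `g'` is on or above the chord `gg'`, so it is not alive. All inequalities:
`nlinarith`/`mul_pos` after writing `z s = m + κ * (s.1 - d.1) + ε s` with `ε ≥ 0` (`κ` = slope of `ℓ`);
the chord conditions become linear in the `ε`. -/
def T_HF : Prop := ∀ (S : Set P) (D : ℝ → Bool) (d : P), S.Finite → Chn S → Cut D → d ∈ S → ¬ Al D S d →
  ∃ g g' : P, Al D S g ∧ Al D S g' ∧ g.1 < d.1 ∧ d.1 < g'.1 ∧ D (cc g d g') = false ∧
    ∀ e, Al D S e → ¬ (g.1 < e.1 ∧ e.1 < g'.1)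

/-- Supporting line, right tangent. Put `z = zl y`, `μ = (z c - z f) / (c.1 - f.1)`. By `Near` and
`h1 : T_DET`: `D (cc a b e) = true` implies that `b` is on or below the chord `ae` and `= false` that it
is on or above it (for sites `a.1 < b.1 < e.1`). `Wal`: `f` is on or below every chord around it.
Claim: every `s ∈ S` with `s.1 > f.1` is on or above the line `ℓ` through `f` and `c`.
(1) `s ∈ A`: `s.1 < c.1` then `D (cc f s c) = false`: `s` is on or above the chord `fc`; `s.1 > c.1` then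
`D (cc f c s) = true`: `c` on or below the chord `fs`, which is the same as `s` on or above `ℓ`;
`s.1 = c.1` then `s = c`.
(2) `s ∉ A`: then `s` is not alive (`hA1`), `h2 : T_HF` gives alive `g, g'` (so in `A`), `g.1 < s.1 < g'.1`,
`s` on or above the chord `gg'`. If `f.1 < g.1`: `g, g'` are on or above `ℓ` by (1), so is `s`. If
`g.1 = f.1` then `g = f`: `s` on or above the chord `fg'`, `g'` on or above `ℓ`. If `g.1 < f.1`: `f` is on
or below the chord `gg'` (`Wal`) and `s` on or above it, `g.1 < f.1 < s.1 < g'.1`, so `s` is on or above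
the chord `fg'`; and `g'` is on or above `ℓ`. -/
def T_SUPR : Prop := ∀ (S A : Set P) (D : ℝ → Bool) (y : ℝ) (f c : P), S.Finite → Chn S → Cut D → Near D y →
  Wal (some y) S f → (∀ s, Al D S s → s ∈ A) → A ⊆ S → OptR D f A c →
  ∀ s ∈ S, f.1 < s.1 → (zl y c - zl y f) * (s.1 - f.1) ≤ (zl y s - zl y f) * (c.1 - f.1)

/-- Mirror image of `T_SUPR` (same proof with left and right exchanged: every `s ∈ S` with
`s.1 < f.1` is on or above the line through `c` and `f`). -/
def T_SUPL : Prop := ∀ (S A : Set P) (D : ℝ → Bool) (y : ℝ) (f c : P), S.Finite → Chn S → Cut D → Near D y →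
  Wal (some y) S f → (∀ s, Al D S s → s ∈ A) → A ⊆ S → OptL D f A c →
  ∀ s ∈ S, s.1 < f.1 → (zl y f - zl y s) * (f.1 - c.1) ≤ (zl y f - zl y c) * (f.1 - s.1)

/-- Right neighbour. Case `T = none`: `cutT none` is constantly true, so every site is alive, `A = S`, and
the first clause of `OptR` says that no `b ∈ A` lies strictly between `f` and `c`. Case `T = some t`:
`D = cutT (some t)`, `Near D t`, `z = zl t`, `ℓ` = line through `f` and `c`. By `h1 : T_SUPR` all sites right
of `f` are on or above `ℓ`; a site `a` left of `f` as well: `f` is on or below the chord `ac` (`Wal`).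
If `s ∈ S`, `s.1 > c.1` is on `ℓ`: `s ∈ A` would contradict the second clause of `OptR` (`D (cc f c s) = true`,
that is `cc f c s < t`: `c` strictly below the chord `fs`); `s ∉ A` is not alive, `h2 : T_HF` gives
`g.1 < s.1 < g'.1` in `A` with `s` on or above the chord `gg'`; `g, g'` on or above `ℓ` and `s` on `ℓ` force
`g'` on `ℓ`, and `g' ∈ A`, `g'.1 > c.1`: contradiction as before. So `c` is the rightmost site on `ℓ`:
for `a.1 < c.1 < e.1`, `a` on or above `ℓ`, `e` strictly above: `c` strictly below the chord `ae`, so `c`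
is alive. An alive `s` with `f.1 < s.1 < c.1` would be strictly below the chord `fc` (`f, c ∈ S`), but it
is on or above `ℓ`. (`h3 : T_DET` translates.) -/
def T_TNR : Prop := ∀ (S A : Set P) (T : Option ℝ) (f c : P), S.Finite → Chn S →
  Wal T S f → (∀ s, Al (cutT T) S s → s ∈ A) → A ⊆ S → OptR (cutT T) f A c →
  Al (cutT T) S c ∧ ∀ s, Al (cutT T) S s → f.1 < s.1 → c.1 ≤ s.1

/-- Mirror image of `T_TNR`. -/
def T_TNL : Prop := ∀ (S A : Set P) (T : Option ℝ) (f c : P), S.Finite → Chn S →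
  Wal T S f → (∀ s, Al (cutT T) S s → s ∈ A) → A ⊆ S → OptL (cutT T) f A c →
  Al (cutT T) S c ∧ ∀ s, Al (cutT T) S s → s.1 < f.1 → s.1 ≤ c.1

/-- Alive test. Right to left: definition of `Al` (`a, b ∈ A ⊆ S`, `a.1 < f.1 < b.1`). Left to right:
if `f` is not alive, `h1 : T_HF` gives alive `g.1 < f.1 < g'.1` (in `A`) with `y ≤ cc g f g'`: in the
lifted plane (`z = zl y`, `h2 : T_DET`) slope(g,f) ≥ slope(f,g'). `OptL`: slope(g,f) ≤ slope(a,f) (if
`g.1 < a.1`: `cc g a f < y`, `a` strictly below the chord `gf`; if `a.1 < g.1`: `y ≤ cc a g f`, `g` on or above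
the chord `af`; else `g = a`). `OptR`: slope(f,b) ≤ slope(f,g'). So slope(a,f) ≥ slope(f,b), that is
`y ≤ cc a f b`. -/
def T_AB : Prop := ∀ (S A : Set P) (y : ℝ) (f a b : P), S.Finite → Chn S → f ∈ S →
  (∀ s, Al (cutT (some y)) S s → s ∈ A) → A ⊆ S → OptL (cutT (some y)) f A a → OptR (cutT (some y)) f A b →
  (cc a f b < y ↔ Al (cutT (some y)) S f)

/-- Death height. `D r = true ↔ r ≤ h` gives `Cut D`, `Near D h`, and `Wal (some h) S f` by `IsH`. `≤`: maximum
in `IsH`. `≥`: take `a0, b0` with `cc a0 f b0 = h`: in the lifted plane (`z = zl h`, `h3 : T_DET`)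
slope(a0,f) = slope(f,b0). `h1 : T_SUPL` : slope(l,f) ≥ slope(a0,f); `h2 : T_SUPR` : slope(f,r) ≤
slope(f,b0). So slope(l,f) ≥ slope(f,r), that is `h ≤ cc l f r`. -/
def T_DH : Prop := ∀ (S A : Set P) (D : ℝ → Bool) (h : ℝ) (f l r : P), S.Finite → Chn S → f ∈ S →
  IsH S f (some h) → (∀ x, D x = true ↔ x ≤ h) → (∀ s, Al D S s → s ∈ A) → A ⊆ S →
  OptL D f A l → OptR D f A r → cc l f r = h

/-- Spine. Put `κ = -(su.2 - pr.2) / (su.1 - pr.1)`, `x h = (zl h f - zl h l) / (2 * (f.1 - l.1))`; then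
`sx + sk * y = x h + κ * (y - h)`. By `T_DSQ` the claim `dsq (x,y) f ≤ dsq (x,y) s` is
`2 * x * (s.1 - f.1) ≤ zl y s - zl y f`, and `zl y s - zl y f = (zl h s - zl h f) - 2 * (y - h) * (s.2 - f.2)`.
`s = f` trivial. `s.1 > f.1`: (i) `2 * x h * (s.1 - f.1) ≤ zl h s - zl h f` since `cc l f s ≤ h` (`IsH`, `l ∈ S`)
means slope(l,f) ≤ slope(f,s) in the lift at `h`; (ii) `κ * (s.1 - f.1) ≤ -(s.2 - f.2)`: the slope of `fs` is at
most the slope of `f su` (strict concavity if `su.1 < s.1`, equality if `s = su`), which is less than the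
slope of `pr su` (`ccB pr f su > 0`). Add (i) and `2 * (y - h)` times (ii). `s.1 < f.1`: (i)
`2 * x h ≥ (zl h f - zl h s) / (f.1 - s.1)` is the hypothesis `hl` (supporting line of the left tangent);
(ii) slope(s,f) ≥ slope(pr,f) > slope(pr,su). -/
def T_SPI : Prop := ∀ (S : Set P) (h : ℝ) (f l r pr su : P) (q1 q2 : QT ℝ), S.Finite → Chn S → f ∈ S → l ∈ S →
  r ∈ S → pr ∈ S → su ∈ S → IsH S f (some h) → l.1 < f.1 → f.1 < r.1 → pr.1 < f.1 → f.1 < su.1 →
  (∀ s ∈ S, s.1 < f.1 → s.1 ≤ pr.1) → (∀ s ∈ S, f.1 < s.1 → su.1 ≤ s.1) →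
  (∀ s ∈ S, s.1 < f.1 → (zl h f - zl h s) * (f.1 - l.1) ≤ (zl h f - zl h l) * (f.1 - s.1)) →
  SpineOK S ⟨f, some h, ((nsq f - nsq l) - 2 * h * (f.2 - l.2)) / (2 * (f.1 - l.1))
              + (su.2 - pr.2) / (su.1 - pr.1) * h, -((su.2 - pr.2) / (su.1 - pr.1)), q1, q2⟩

/-- For a cut, an element with height `h` is alive iff it is live. `none`: no `a` left or no `c` right
of `b`, so `Al` holds vacuously (distinctness is not needed: `b.1 ≤ a.1` for all `a`). `some r`: `Cut` and
the maximum. -/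
def T_LIV : Prop := ∀ (S : Set P) (D : ℝ → Bool) (b : P) (h : Option ℝ), Cut D → b ∈ S → IsH S b h →
  (Al D S b ↔ live D h = true)

/-- The rightmost nearest site is alive at the height of the query. For `a.1 < s.1 < c.1` in `S` put
`u = zl q.2 a - 2 * q.1 * a.1`, `v`, `w` for `s`, `c`; `T_DSQ` and `IsNN` give `v ≤ u`, `v < w`. Then
(zl s - zl a) * (c.1 - a.1) - (zl c - zl a) * (s.1 - a.1) = (v - u) * (c.1 - a.1) - (w - u) * (s.1 - a.1)
 = (v - u) * (c.1 - s.1) + (v - w) * (s.1 - a.1) < 0`, so `Blw`, and `T_DET` gives `cc a s c < q.2`. -/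
def T_NNA : Prop := ∀ (S : Set P) (q s : P), Chn S → IsNN S q s → Al (cutT (some q.2)) S s

/-- Spine test. Let `x0 = m.sx + m.sk * q.2`; by `SpineOK` `m.s` minimises `zl q.2 t - 2 * x0 * t.1` over `S`
(`T_DSQ`). If `q.1 < x0` and `m.s.1 < s.1`: `zl s - 2 * q.1 * s.1 = (zl s - 2 * x0 * s.1) + 2 * (x0 - q.1) * s.1 >
(zl m - 2 * x0 * m.1) + 2 * (x0 - q.1) * m.1`, so `m.s` is strictly nearer to `q` than `s`: contradiction.
If `x0 ≤ q.1` and `s.1 < m.s.1`: `zl m - 2 * q.1 * m.1 ≤ zl s - 2 * q.1 * s.1`, so `dsq q m.s ≤ dsq q s`, but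
`IsNN` says `dsq q s < dsq q m.s` because `s.1 < m.s.1`. -/
def T_SPN : Prop := ∀ (S : Set P) (m : Lf ℝ) (h : ℝ) (q s : P), LfOK S m → m.h = some h → h < q.2 → IsNN S q s →
  (1 * q.1 + (-m.sk) * q.2 < m.sx → s.1 ≤ m.s.1) ∧ (¬ (1 * q.1 + (-m.sk) * q.2 < m.sx) → m.s.1 ≤ s.1)

/-- One gap. Suppose `d` is not alive in `S`. `h1 : T_HF`: alive `g.1 < d.1 < g'.1` in `S`, nothing alive
strictly between, `D (cc g d g') = false`. `p1` is alive and `p1.1 < d.1 < g'.1`, so `p1.1 ≤ g.1`; in the same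
way `g'.1 ≤ p2.1`. So `g, g'` are alive and in the closed window `[p1, p2]`, hence in `S'` (`hS`). But `d`
is alive in `S'`: `D (cc g d g') = true`. -/
def T_GAP : Prop := ∀ (S S' : Set P) (D : ℝ → Bool) (p1 p2 d : P), S.Finite → Chn S → Cut D → S' ⊆ S →
  Al D S p1 → Al D S p2 → p1.1 < d.1 → d.1 < p2.1 → (∀ s, Al D S s → p1.1 ≤ s.1 → s.1 ≤ p2.1 → s ∈ S') →
  Al D S' d → Al D S d

/-- The rightmost nearest site exists: minimise `dsq q` over the finite nonempty set, then take the
rightmost minimiser; abscissas are distinct. -/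
def T_NNE : Prop := ∀ (S : Set P) (q : P), S.Finite → S.Nonempty → Chn S → ∃ s, IsNN S q s

/-- If `IsNN S q s`, `S' ⊆ S`, `s ∈ S'` then `IsNN S' q s`. -/
def T_NNS : Prop := ∀ (S S' : Set P) (q s : P), S' ⊆ S → s ∈ S' → IsNN S q s → IsNN S' q s

/-- A subset of a chain is a chain; aliveness is antitone in the set and monotone in the cut. -/
def T_MON : Prop := ∀ (S S' : Set P) (D D' : ℝ → Bool), S' ⊆ S → (Chn S → Chn S') ∧
  (∀ b ∈ S', Al D S b → Al D S' b) ∧ ((∀ r, D r = true → D' r = true) → ∀ b, Al D S b → Al D' S b)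

/-- `find` returns the nearest one of `best` and the candidates met. Induction on the tree,
generalising `best`. -/
def T_FND : Prop := ∀ (t : QT ℝ) (q best : P), dsq q (t.find q best) ≤ dsq q best ∧
  (∀ s, t.Seen q s → dsq q (t.find q best) ≤ dsq q s) ∧ (t.find q best = best ∨ t.Seen q (t.find q best))

/-- all candidates met belong to `S` (induction) -/
def T_SIN : Prop := ∀ (t : QT ℝ) (S : Set P) (q s : P), t.In S → t.Seen q s → s ∈ S

end Pool.Agent.EVD
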