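import Pool.Agent.EVD.TB
import Pool.Agent.EVD.TC

/-! # EVD targets, section N: amortised analysis and the main statement -/

namespace Pool.Agent.EVD

/-- the chain invariant with sizes -/
def COK (c : CS ℝ) (U : Set P) : Prop :=
  (SlotsOK c.sl U ∧ c.q = rootQ c.sl ∧ U.Finite ∧ Chn U) ∧ Sz 0 c.sl ∧ LastFull c.sl ∧
    cntS c.sl = U.ncard

/-- From `T_COS` (the first part, field by field), `T_SZI` and `T_CNT` with `k = 0`, `acc = [p]`,
`Set.ncard_insert_of_notMem`. `LastFull []` and `Sz 0 []` are trivial, `cntS [] = 0`. (from `T_COS T_SZI T_CNT`) -/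
def T_N_CS : Prop := ChainSpec COK

/-- `insS` adds at most one slot (induction on `sl`, generalising `acc aps`). -/
def T_N_LEN : Prop := ∀ (sl : List (Slot ℝ)) (acc : List P) (aps : List (TR ℝ)),
  (insS sl acc aps).length ≤ sl.length + 1

/-- Parts of well-sized slots: induction on `sl`. -/
def T_N_PAR : Prop := ∀ (sl : List (Slot ℝ)) (k : ℕ), Sz k sl → (partsOf sl).length ≤ sl.length ∧
  mdep (partsOf sl) ≤ k + sl.length ∧ odep (lowT sl) ≤ k + 3 ∧ 3 * (lowC sl).length ≤ 9 * 2 ^ k + 6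

/-- Put `n = N.length + (lowC rest).length`. `h_PAR` for `rest`, `k + 1`: `3 * (lowC rest).length ≤ 18 * 2 ^ k + 6`,
so `n + 1 ≤ 7 * 2 ^ k + 3 ≤ 10 * 2 ^ k`. `ps = consO part (partsOf rest)` has at most `M` elements and `mdep ps ≤ M`,
so `pM ps ≤ (M + 1) ^ 4`, (pM ps + 1) ^ 2 ≤ (M + 2) ^ 8`; `odep (lowT rest) + 1 ≤ M + 4`;
`n ≤ 16 * 2 ^ k` gives `clog 2 n ≤ k + 4 ≤ M + 4`. All three summands are at most (M + 5) ^ 8`, and
`rest.length ≤ M`. (from `T_N_PAR`) -/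
def T_N_SL : Prop := ∀ (M k : ℕ) (N : List P) (part : Option (TR ℝ)) (rest : List (Slot ℝ)),
  N.length ≤ 2 ^ k → odep part ≤ k → Sz (k + 1) rest → k + 1 + rest.length ≤ M →
  cSlot N part rest ≤ 2 ^ k * (100 * (M + 5) ^ 8)

/-- Induction on `sl`, generalising `k acc aps`. `cPart acc aps ≤ 2 ^ (k+1) * ((M + 2) ^ 8 + 1) ≤ 2 ^ k * (4 * (M + 5) ^ 8)`:
`pM aps ≤ (M + 1) ^ 4`. The tree `build (acc.map (mkLf aps))` has depth at most `clog 2 (2 ^ k) = k` (`T_A_BLD`; the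
list is nonempty). Empty list and `part = none`: `cPart + cSlot`, `h_SL`. `part = some t`: `s.N.length = 2 ^ k`,
`t.dep ≤ k`, (mrg acc s.N).length = 2 ^ (k+1)` (`T_A_MRG`), induction hypothesis for `rest`, `k + 1`, `t :: aps`; the
slot on top: `h_SL` with `rest' = insS rest ..`, `Sz (k+1) rest'` by `T_SZI` (`LastFull rest`: if `rest` is not empty it
has the same last slot as `sl`), `rest'.length ≤ rest.length + 1` by `h_LEN`. `2 ^ (k+1) + 1 ≤ 2 ^ k * 3`.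
(from `T_N_SL T_N_LEN T_SZI T_A_BLD T_A_MRG`) -/
def T_N_TI : Prop := ∀ (M : ℕ) (sl : List (Slot ℝ)) (k : ℕ) (acc : List P) (aps : List (TR ℝ)), Sz k sl →
  LastFull sl → acc.length = 2 ^ k → aps.length ≤ k + 1 → mdep aps ≤ k → k + sl.length + 2 ≤ M →
  tI sl acc aps ≤ wI k sl * (200 * (M + 5) ^ 8)

/-- `s.F.length ≤ 9`, so the factor is at most `2 ^ 9`; `cC + 1 ≤ (M + 1) ^ 4 + (M + 5) ^ 2 + 1 ≤ 3 * (M + 5) ^ 8`
by `h_PAR`. (from `T_N_PAR`) -/
def T_N_RT : Prop := ∀ (M : ℕ) (sl : List (Slot ℝ)), Sz 0 sl → sl.length + 1 ≤ M →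
  rT sl ≤ 2000 * (M + 5) ^ 8

/-- `tC` = `tI` + `rT` of the new slots (`T_SZI`, `h_LEN`), `1 ≤ wI 0 sl`. Here `acc = [p]`, `aps = [leaf]`:
`aps.length = 1`, `mdep = 0`. (from `T_N_TI T_N_RT T_N_LEN T_SZI`) -/
def T_N_TC : Prop := ∀ (M : ℕ) (sl : List (Slot ℝ)) (p : P), Sz 0 sl → LastFull sl → sl.length + 2 ≤ M →
  tC sl p ≤ wI 0 sl * (3000 * (M + 5) ^ 8)

/-- potential of the whole structure -/
def potT (M : ℕ) : Option (Top ℝ) → ℕ
  | none => 0
  | some t => pot M 0 t.up.sl + pot M 0 t.lo.sl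

/-- length of the slots: `T_CNT` with `k = 0` (`2 ^ length ≤ 2 * cntS` for nonempty lists) -/
def T_N_LOG : Prop := ∀ (c : CS ℝ) (U : Set P) (M : ℕ), COK c U → 2 * U.ncard ≤ 2 ^ M → c.sl.length ≤ M

/-- One insertion. `t = none`: both sides: `tT = 0`, new potential 0. `t = some t`: `U, L ⊆ S` in `TopOK`, `mir` is
injective, so both chains have at most `S.ncard` sites and at most `M - 2` slots (`h_LOG`). In the cases
with `put`, one chain changes: its slots become `insS sl [v] [leaf]`, `T_AMO` with `k = 0` (`sl.length < M`):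
`wI 0 sl + pot M 0 (insS ..) = pot M 0 sl + (M + 1)`, multiply by `W` and use `h_TC`: `tC sl v ≤ wI 0 sl * W`. In the
case `lexlt t.w t.e = false` nothing changes and `tT = 0`. (from `T_N_TC T_N_LOG T_AMO`) -/
def T_N_STP : Prop := ∀ (M : ℕ) (t : Option (Top ℝ)) (S : Set P) (p : P), TopOK COK t S → S.Finite →
  2 ≤ M → 2 * S.ncard ≤ 2 ^ (M - 2) →
  tT t p + (3000 * (M + 5) ^ 8) * potT M (insT t p) ≤
    (3000 * (M + 5) ^ 8) * potT M t + (3000 * (M + 5) ^ 8) * (M + 1)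

/-- `dT t = t.up.q.dep + t.lo.q.dep`, `T_QDP` for both chains, `h_LOG` with `M = Nat.log 2 n + 2`
(`n = S.ncard`, `2 * n ≤ 2 ^ (log 2 n + 2)`). (from `T_QDP T_N_LOG`) -/
def T_N_DEP : Prop := ∀ (t : Option (Top ℝ)) (S : Set P), TopOK COK t S → S.Finite → S.Nonempty →
  dT t ≤ 100 * (Nat.log 2 S.ncard + 1)

/-- the states for the sequence `p` -/
noncomputable def stt (p : ℕ → P) : ℕ → Option (Top ℝ)
  | 0 => none
  | k + 1 => insT (stt p k) (p k)

/-- the first `k` points -/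
def pre (p : ℕ → P) (k : ℕ) : Set P := {x | ∃ i < k, p i = x}

/-- `TopOK` along the sequence: induction on `k`, `T_TIN`; `pre p (k+1) = insert (p k) (pre p k)`, finite,
`p k ∉ pre p k`; `ncard (pre p k) = k`. (from `T_TIN T_N_CS`) -/
def T_N_SEQ : Prop := ∀ (m : ℕ) (p : ℕ → P), (∀ i < m, ∀ j < m, p i = p j → i = j) →
  (∀ k ≤ m, ConvPos (pre p k)) → ∀ k ≤ m, TopOK COK (stt p k) (pre p k) ∧ (pre p k).Finite ∧
    (pre p k).ncard = k

/-- Total time. Put `M = Nat.log 2 m + 4`, `W = 3000 * (M + 5) ^ 8`; `2 * k ≤ 2 * m ≤ 2 ^ (M - 2)`. Induction on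
`n ≤ m` with `h_STP`: `∑ k < n, tT (stt p k) (p k) + W * potT M (stt p n) ≤ n * (W * (M + 1))`. Finally
`W * (M + 1) ≤ 3000 * (log 2 m + 9) ^ 9 ≤ 3000 * 9 ^ 9 * (log 2 m + 1) ^ 9`. (from `T_N_STP T_N_SEQ`) -/
def T_N_SUM : Prop := ∃ C : ℕ, ∀ (m : ℕ) (p : ℕ → P), (∀ i < m, ∀ j < m, p i = p j → i = j) →
  (∀ k ≤ m, ConvPos (pre p k)) →
  ∑ k ∈ Finset.range m, tT (stt p k) (p k) ≤ C * m * (Nat.log 2 m + 1) ^ 9

/-- code of a point -/
def pt (x : ℝ × ℝ) : Val := Val.pair (Val.num x.1) (Val.num x.2)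

/-- the main statement -/
def Main : Prop := ∃ (init : Val) (ins qry : Prog) (C : ℕ), ∀ (m : ℕ) (p : ℕ → ℝ × ℝ),
  (∀ i < m, ∀ j < m, p i = p j → i = j) →
  (∀ k ≤ m, ∀ i < k, p i ∉ convexHull ℝ {x | ∃ j < k, j ≠ i ∧ p j = x}) →
  ∃ (D : ℕ → Val) (t : ℕ → ℕ), D 0 = init ∧
    (∀ k < m, Run Prog.nil ins (Val.pair (D k) (pt (p k))) (D (k + 1)) (t k)) ∧
    (∀ n ≤ m, ∑ k ∈ Finset.range n, t k ≤ C * n * (Nat.log 2 n + 1) ^ C) ∧
    ∀ k ≤ m, 1 ≤ k → ∀ q : ℝ × ℝ, ∃ i < k, ∃ s ≤ C * (Nat.log 2 k + 1),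
      Run Prog.nil qry (Val.pair (D k) (pt q)) (pt (p i)) s ∧
      ∀ j < k, (q.1 - (p i).1) ^ 2 + (q.2 - (p i).2) ^ 2 ≤ (q.1 - (p j).1) ^ 2 + (q.2 - (p j).2) ^ 2

/-- Assembly. `init = enc (none : Option (Top ℝ)) = nil`, `ins` from `T_C_INT`, `qry` from `T_C_QRY` composed with
`fun o => match o with | none => (0,0) | some r => r` (or a direct program `fst` on `enc (some r) = pair (enc r) nil`).
`D k = enc (stt p k)`, `t k` from `CB` (`Classical.choose`), `t k ≤ K * (tT .. + 1)`. `ConvPos (pre p k)`: for `x = p i`, the set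
`pre p k \ {p i}` is the set in the hypothesis (injectivity). `pt x = enc x` by `rfl`. Sum: `T_N_SUM` applied to
every `n ≤ m`, exponent 9 raised to `C ≥ 9`. Query: `T_TQ` with `S = pre p k`, `T_N_DEP`; `dsq` unfolds to the squares.
(from `T_C_INT T_C_QRY T_N_SUM T_N_SEQ T_N_DEP T_TQ T_N_CS`) -/
def T_MAIN : Prop := Main

/-- `Run` is deterministic: induction on the first derivation, cases on the second. A primitive step is
possible only for the instructions `nil one id fst snd add sub mul div lt` (for the other ones `prim` is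
`none`). -/
def T_DETR : Prop := ∀ (b p : Prog) (x y z : Val) (m n : ℕ), Run b p x y m → Run b p x z n → y = z ∧ m = n

end Pool.Agent.EVD
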